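import Pool.Agent.Lib.MP_c356f3_al.Stmts

/-!
Springer's property (U): assembly, part 1 (characters, traces, surjective pull-backs, conjugation).
-/

namespace Pool.Agent.Lib.MP_c356f3_al

open Matrix

universe u

section basics
variable {G : Type u} [Group G]

/-- an irreducible representation pulled back along a surjection is irreducible, and conversely -/
lemma irr_comp_iff {H : Type*} [Group H] {n : ℕ} (f : G →* H) (hf : Function.Surjective f)
    (π : H →* GL (Fin n) ℂ) : Irr (π.comp f) ↔ Irr π := by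
  unfold Irr
  constructor
  · rintro ⟨h0, h⟩
    refine ⟨h0, fun W hW => h W fun g v hv => ?_⟩
    exact hW (f g) v hv
  · rintro ⟨h0, h⟩
    refine ⟨h0, fun W hW => h W fun y v hv => ?_⟩
    obtain ⟨g, rfl⟩ := hf y
    exact hW g v hv

lemma equ_symm {n : ℕ} {ρ σ : G →* GL (Fin n) ℂ} (h : Equ ρ σ) : Equ σ ρ := by
  obtain ⟨P, hP⟩ := h
  refine ⟨P⁻¹, fun g => ?_⟩
  rw [hP g]
  group

lemma equ_trans {n : ℕ} {ρ σ τ : G →* GL (Fin n) ℂ} (h : Equ ρ σ) (h' : Equ σ τ) : Equ ρ τ := by
  obtain ⟨P, hP⟩ := h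
  obtain ⟨Q, hQ⟩ := h'
  refine ⟨Q * P, fun g => ?_⟩
  rw [hQ g, hP g]
  group

lemma irr_of_equ {n : ℕ} {ρ σ : G →* GL (Fin n) ℂ} (h : Equ ρ σ) (hρ : Irr ρ) : Irr σ := by
  obtain ⟨P, hP⟩ := h
  refine ⟨hρ.1, fun W hW => ?_⟩
  let L : (Fin n → ℂ) →ₗ[ℂ] (Fin n → ℂ) := P.val.mulVecLin
  have hinj : Function.Injective L := by
    intro v w hvw
    have h1 : P⁻¹.val *ᵥ (P.val *ᵥ v) = P⁻¹.val *ᵥ (P.val *ᵥ w) := by
      have : P.val *ᵥ v = P.val *ᵥ w := hvw
      rw [this]
    rw [mulVec_mulVec, mulVec_mulVec, ← Units.val_mul, inv_mul_cancel, Units.val_one, one_mulVec,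
      one_mulVec] at h1
    exact h1
  have hsurj : Function.Surjective L := by
    intro v
    refine ⟨P⁻¹.val *ᵥ v, ?_⟩
    change P.val *ᵥ (P⁻¹.val *ᵥ v) = v
    rw [mulVec_mulVec, ← Units.val_mul, mul_inv_cancel, Units.val_one, one_mulVec]
  have key : ∀ g : G, ∀ v ∈ W.comap L, (ρ g).val *ᵥ v ∈ W.comap L := by
    intro g v hv
    change P.val *ᵥ ((ρ g).val *ᵥ v) ∈ W
    have h1 : P.val *ᵥ ((ρ g).val *ᵥ v) = (σ g).val *ᵥ (P.val *ᵥ v) := by
      rw [mulVec_mulVec, mulVec_mulVec, ← Units.val_mul, ← Units.val_mul]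
      congr 2
      rw [hP g]
      group
    rw [h1]
    exact hW g _ hv
  rcases hρ.2 (W.comap L) key with h | h
  · left
    rw [eq_bot_iff]
    intro w hw
    obtain ⟨v, rfl⟩ := hsurj w
    have : v ∈ W.comap L := hw
    rw [h, Submodule.mem_bot] at this
    rw [this, map_zero]
    exact Submodule.zero_mem _
  · right
    rw [eq_top_iff]
    intro w _
    obtain ⟨v, rfl⟩ := hsurj w
    have : v ∈ W.comap L := by rw [h]; trivial
    exact this

/-- every one-dimensional representation is irreducible -/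
lemma irr_one (ρ : G →* GL (Fin 1) ℂ) : Irr ρ := by
  refine ⟨one_pos, fun W _ => ?_⟩
  by_cases h : W = ⊥
  · left; exact h
  · right
    obtain ⟨w, hw, hw0⟩ := W.ne_bot_iff.mp h
    rw [eq_top_iff]
    intro v _
    have hw0' : w 0 ≠ 0 := by
      intro h0
      apply hw0
      funext i
      rw [Subsingleton.elim i 0, h0]
      rfl
    have : v = (v 0 / w 0) • w := by
      funext i
      rw [Subsingleton.elim i 0]
      simp [hw0']
    rw [this]
    exact W.smul_mem _ hw

/-- the character of a group as a one-dimensional representation -/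
noncomputable def charRep (f : G →* ℂˣ) : G →* GL (Fin 1) ℂ :=
  (Units.map (Matrix.scalar (Fin 1)).toMonoidHom).comp f

lemma charRep_val (f : G →* ℂˣ) (g : G) : (charRep f g).val 0 0 = (f g : ℂ) := by
  simp [charRep]

lemma noChar_of_propU (hU : PropU G) : NoChar G := by
  intro f
  obtain ⟨P, hP⟩ := (hU 1 one_pos).2 (charRep 1) (charRep f) (irr_one _) (irr_one _)
  ext g
  have h1 : charRep f g = 1 := by
    rw [hP g]
    have : charRep (1 : G →* ℂˣ) g = 1 := by
      simp [charRep]
    rw [this]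
    group
  have h2 := charRep_val f g
  rw [h1] at h2
  simpa using h2.symm

lemma detOne_of_noChar (h : NoChar G) {n : ℕ} (ρ : G →* GL (Fin n) ℂ) (g : G) :
    (ρ g).val.det = 1 := by
  have h1 := congrArg (fun f => f g) (h (Matrix.GeneralLinearGroup.det.comp ρ))
  simp only [MonoidHom.comp_apply, MonoidHom.one_apply] at h1
  have h2 := congrArg Units.val h1
  simpa using h2

end basics

section traces
variable {G : Type u} [Group G]

/-- twist of a representation by a field automorphism -/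
noncomputable def twist (σ : ℂ ≃+* ℂ) {n : ℕ} (ρ : G →* GL (Fin n) ℂ) : G →* GL (Fin n) ℂ :=
  (Matrix.GeneralLinearGroup.map (σ : ℂ →+* ℂ)).comp ρ

lemma twist_val (σ : ℂ ≃+* ℂ) {n : ℕ} (ρ : G →* GL (Fin n) ℂ) (g : G) :
    (twist σ ρ g).val = (ρ g).val.map σ := rfl

lemma twist_irr (σ : ℂ ≃+* ℂ) {n : ℕ} (ρ : G →* GL (Fin n) ℂ) (h : Irr ρ) : Irr (twist σ ρ) := by
  refine ⟨h.1, fun W hW => ?_⟩
  -- the preimage of `W` under the coordinatewise map `σ`
  let W' : Submodule ℂ (Fin n → ℂ) :=
    { carrier := {v | (fun i => σ (v i)) ∈ W}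
      add_mem' := by
        intro a b ha hb
        have : (fun i => σ ((a + b) i)) = (fun i => σ (a i)) + (fun i => σ (b i)) := by
          funext i; simp
        rw [Set.mem_ofPred_eq, this]
        exact W.add_mem ha hb
      zero_mem' := by
        have : (fun i => σ ((0 : Fin n → ℂ) i)) = 0 := by funext i; simp
        rw [Set.mem_ofPred_eq, this]
        exact W.zero_mem
      smul_mem' := by
        intro c v hv
        have : (fun i => σ ((c • v) i)) = σ c • (fun i => σ (v i)) := by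
          funext i; simp
        rw [Set.mem_ofPred_eq, this]
        exact W.smul_mem _ hv }
  have key : ∀ g : G, ∀ v ∈ W', (ρ g).val *ᵥ v ∈ W' := by
    intro g v hv
    change (fun i => σ (((ρ g).val *ᵥ v) i)) ∈ W
    have : (fun i => σ (((ρ g).val *ᵥ v) i)) = (twist σ ρ g).val *ᵥ (fun i => σ (v i)) := by
      funext i
      simp [twist_val, Matrix.mulVec, dotProduct, Matrix.map_apply]
    rw [this]
    exact hW g _ hv
  have hback : ∀ w : Fin n → ℂ, (fun i => σ (σ.symm (w i))) = w := by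
    intro w; funext i; simp
  rcases h.2 W' key with h | h
  · left
    rw [eq_bot_iff]
    intro w hw
    have : (fun i => σ.symm (w i)) ∈ W' := by
      change (fun i => σ (σ.symm (w i))) ∈ W
      rw [hback]; exact hw
    rw [h, Submodule.mem_bot] at this
    rw [Submodule.mem_bot]
    funext i
    have h1 := congrFun this i
    have h2 : σ (σ.symm (w i)) = σ 0 := by rw [h1]; rfl
    simpa using h2
  · right
    rw [eq_top_iff]
    intro w _
    have : (fun i => σ.symm (w i)) ∈ W' := by rw [h]; trivial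
    have h2 : (fun i => σ (σ.symm (w i))) ∈ W := this
    rw [hback] at h2
    exact h2

lemma trace_of_equ {n : ℕ} {ρ σ : G →* GL (Fin n) ℂ} (h : Equ ρ σ) (g : G) :
    (σ g).val.trace = (ρ g).val.trace := by
  obtain ⟨P, hP⟩ := h
  rw [hP g, Units.val_mul, Units.val_mul, Matrix.trace_mul_comm, ← Matrix.mul_assoc,
    ← Units.val_mul, inv_mul_cancel, Units.val_one, Matrix.one_mul]

lemma exists_isTr (hA : StFix) (hU : PropU G) (ρ : G →* GL (Fin 2) ℂ) (h : Irr ρ) :
    ∃ χ : G → ℚ, IsTr ρ χ := by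
  have : ∀ g : G, ∃ q : ℚ, (q : ℂ) = (ρ g).val.trace := by
    intro g
    apply hA
    intro σ
    have h1 := trace_of_equ ((hU 2 two_pos).2 ρ (twist σ ρ) h (twist_irr σ ρ h)) g
    have h2 : σ ((ρ g).val.trace) = ((twist σ ρ g).val).trace := by
      rw [twist_val]
      simp [Matrix.trace, Matrix.map_apply]
    exact h2.trans h1
  choose χ hχ using this
  exact ⟨χ, fun g => (hχ g).symm⟩

end traces

end Pool.Agent.Lib.MP_c356f3_al
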