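import Pool.Agent.Lib.MP_c356f3_al.Asm1

/-!
Springer's property (U): assembly, part 2 (eigenvalue of infinite order, no finite quotients).
-/

namespace Pool.Agent.Lib.MP_c356f3_al

open Matrix

universe u

variable {G : Type u} [Group G]

/-- `1, A, B, AB` as values of `ρ` -/
lemma exists_indep (hD : StBasis.{u}) (ρ : G →* GL (Fin 2) ℂ) (h : Irr ρ) :
    ∃ s : Fin 4 → G, LinearIndependent ℂ (fun k => (ρ (s k)).val) := by
  obtain ⟨g, k, hgk⟩ := hD G ρ h
  refine ⟨![1, g, k, g * k], ?_⟩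
  convert hgk using 1
  funext i
  fin_cases i <;> simp

lemma exists_infEig (hB : StPerm.{u}) (hC : StSchur.{u}) (hD : StBasis.{u}) (hE : StDual.{u})
    (hK1 : StInfEig) (hK2 : StFinIm.{u}) (hK3 : StNotFin.{u}) (hN : NoChar G)
    (ρ : G →* GL (Fin 2) ℂ) (h : Irr ρ) (χ : G → ℚ) (hχ : IsTr ρ χ) : ∃ g, InfEig (ρ g).val := by
  have _ := hB
  have _ := hC
  by_contra hcon
  push Not at hcon
  have hdet : DetOne ρ := detOne_of_noChar hN ρ
  have hval : ∀ g, χ g = -2 ∨ χ g = -1 ∨ χ g = 0 ∨ χ g = 1 ∨ χ g = 2 := by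
    intro g
    by_contra hne
    push Not at hne
    apply hcon g
    apply hK1 _ (χ g) (hdet g) (hχ g)
    intro n hn heq
    have h1 : -2 ≤ n := by linarith [abs_le.mp hn |>.1]
    have h2 : n ≤ 2 := abs_le.mp hn |>.2
    obtain ⟨a, b, c, d, e⟩ := hne
    interval_cases n
    · exact a (by rw [heq]; norm_num)
    · exact b (by rw [heq]; norm_num)
    · exact c (by rw [heq]; norm_num)
    · exact d (by rw [heq]; norm_num)
    · exact e (by rw [heq]; norm_num)
  have hfin : (Set.range χ).Finite := by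
    apply Set.Finite.subset (Set.toFinite ({-2, -1, 0, 1, 2} : Set ℚ))
    rintro _ ⟨g, rfl⟩
    rcases hval g with h | h | h | h | h <;> rw [h] <;> simp
  obtain ⟨s, hs⟩ := exists_indep hD ρ h
  obtain ⟨q, hq⟩ := hE G ρ χ hχ s hs
  exact hK3 G ρ χ h hN hdet hχ hval (hK2 G ρ χ hχ ⟨s, q, hq⟩ hfin)

/-- a power of `InfEig` matrix is never the identity -/
lemma infEig_pow_ne_one (A : Matrix (Fin 2) (Fin 2) ℂ) (hA : InfEig A) (n : ℕ) (hn : 0 < n) :
    A ^ n ≠ 1 := by
  intro h
  obtain ⟨hdet, t, ht0, htr, htk⟩ := hA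
  have hz : (A - t • (1 : Matrix (Fin 2) (Fin 2) ℂ)).det = 0 := by
    rw [Matrix.trace_fin_two] at htr
    rw [Matrix.det_fin_two] at hdet
    rw [Matrix.det_fin_two]
    simp only [Matrix.sub_apply, Matrix.smul_apply, Matrix.one_apply_eq, smul_eq_mul, mul_one,
      ne_eq, Fin.isValue, zero_ne_one, not_false_eq_true, Matrix.one_apply_ne, mul_zero, sub_zero,
      one_ne_zero]
    have : (A 0 0 - t) * (A 1 1 - t) - A 0 1 * A 1 0
        = (A 0 0 * A 1 1 - A 0 1 * A 1 0) - t * (A 0 0 + A 1 1) + t ^ 2 := by ring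
    rw [this, hdet, htr]
    field_simp
    ring
  obtain ⟨v, hv0, hv⟩ := Matrix.exists_mulVec_eq_zero_iff.mpr hz
  have hAv : A *ᵥ v = t • v := by
    rw [Matrix.sub_mulVec, Matrix.smul_mulVec, Matrix.one_mulVec, sub_eq_zero] at hv
    exact hv
  have hpow : ∀ k : ℕ, (A ^ k) *ᵥ v = t ^ k • v := by
    intro k
    induction k with
    | zero => simp
    | succ k ih => rw [pow_succ', ← Matrix.mulVec_mulVec, ih, Matrix.mulVec_smul, hAv, smul_smul,
        pow_succ]
  have h1 := hpow n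
  rw [h, Matrix.one_mulVec] at h1
  have h2 : (1 - t ^ n) • v = 0 := by rw [sub_smul, one_smul, ← h1, sub_self]
  rcases smul_eq_zero.mp h2 with h3 | h3
  · exact htk n hn (sub_eq_zero.mp h3).symm
  · exact hv0 h3

lemma natDegree_lin_le (a c : ℂ) :
    (Polynomial.C a + Polynomial.C c * Polynomial.X : Polynomial ℂ).natDegree ≤ 1 := by
  refine (Polynomial.natDegree_add_le _ _).trans ?_
  simp only [Polynomial.natDegree_C, max_le_iff]
  exact ⟨by omega, (Polynomial.natDegree_C_mul_X_pow_le c 1 |>.trans_eq' (by simp))⟩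

lemma coeff_lin_pow_top (a c : ℂ) (m : ℕ) :
    ((Polynomial.C a + Polynomial.C c * Polynomial.X : Polynomial ℂ) ^ m).coeff m = c ^ m := by
  have h := Polynomial.coeff_pow_of_natDegree_le (m := m) (natDegree_lin_le a c)
  rw [mul_one] at h
  rw [h]
  simp [Polynomial.coeff_C]

lemma coeff_lin_pow_zero (a c : ℂ) (m : ℕ) :
    ((Polynomial.C a + Polynomial.C c * Polynomial.X : Polynomial ℂ) ^ m).coeff 0 = a ^ m := by
  rw [Polynomial.coeff_zero_eq_eval_zero]
  simp

/-- if the `m`-th symmetric power of `B` is trivial (`m ≥ 1`) then `B ^ m = 1` -/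
lemma pow_eq_one_of_symMat (m : ℕ) (hm : 0 < m) (B : Matrix (Fin 2) (Fin 2) ℂ)
    (h : symMat m B = 1) : B ^ m = 1 := by
  have hne : (0 : Fin (m + 1)) ≠ Fin.last m := by
    intro hh
    have := congrArg Fin.val hh
    simp at this
    omega
  have h00 := congrFun (congrFun h 0) 0
  have hm0 := congrFun (congrFun h (Fin.last m)) 0
  have h0m := congrFun (congrFun h 0) (Fin.last m)
  have hmm := congrFun (congrFun h (Fin.last m)) (Fin.last m)
  rw [symMat_apply] at h00 hm0 h0m hmm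
  simp only [Fin.val_zero, Fin.val_last, Nat.sub_zero, pow_zero, mul_one, Nat.sub_self,
    one_mul] at h00 hm0 h0m hmm
  rw [coeff_lin_pow_zero, Matrix.one_apply_eq] at h00
  rw [coeff_lin_pow_top, Matrix.one_apply_ne hne.symm] at hm0
  rw [coeff_lin_pow_zero, Matrix.one_apply_ne hne] at h0m
  rw [coeff_lin_pow_top, Matrix.one_apply_eq] at hmm
  have hc : B 1 0 = 0 := by simpa using (pow_eq_zero_iff (by omega)).mp hm0
  have hb : B 0 1 = 0 := by simpa using (pow_eq_zero_iff (by omega)).mp h0m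
  have hB : B = Matrix.diagonal ![B 0 0, B 1 1] := by
    ext i j
    fin_cases i <;> fin_cases j <;> simp [hb, hc]
  rw [hB, Matrix.diagonal_pow]
  ext i j
  fin_cases i <;> fin_cases j <;> simp [h00, hmm]

/-- without nontrivial finite quotients -/
lemma noFin (hL : StFinIrr.{u}) (hU : PropU G) (hN : NoChar G) (ρ : G →* GL (Fin 2) ℂ)
    (hsym : ∀ m : ℕ, Irr ((symGL m).comp ρ)) (g₀ : G) (hg₀ : InfEig (ρ g₀).val) : NoFin G := by
  intro N hNn hNf
  by_contra hne
  have := hNn
  have := hNf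
  have : Finite (G ⧸ N) := Subgroup.finite_quotient_of_finiteIndex
  have hex : ∃ q : G ⧸ N, q ≠ 1 := by
    by_contra hcon
    push Not at hcon
    apply hne
    rw [eq_top_iff]
    intro g _
    exact (QuotientGroup.eq_one_iff g).mp (hcon g)
  obtain ⟨n, π, hπ, q, hq⟩ := hL (G ⧸ N) hex
  have hsurj : Function.Surjective (QuotientGroup.mk' N) := QuotientGroup.mk'_surjective N
  have hπ' : Irr (π.comp (QuotientGroup.mk' N)) := (irr_comp_iff _ hsurj π).mpr hπ
  obtain ⟨m, rfl⟩ : ∃ m, n = m + 1 := ⟨n - 1, by have := hπ.1; omega⟩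
  rcases Nat.eq_zero_or_pos m with rfl | hm
  · apply hq
    obtain ⟨g, rfl⟩ := hsurj q
    have h1 := detOne_of_noChar hN (π.comp (QuotientGroup.mk' N)) g
    rw [MonoidHom.comp_apply] at h1
    have hss : Subsingleton (Fin (0 + 1)) := by
      rw [zero_add]
      infer_instance
    ext i j
    rw [Subsingleton.elim i 0, Subsingleton.elim j 0]
    rw [Matrix.det_fin_one] at h1
    simpa using h1
  · obtain ⟨P, hP⟩ := (hU (m + 1) (by omega)).2 _ _ (hsym m) hπ'
    have hcard : 0 < Nat.card (G ⧸ N) := Nat.card_pos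
    have h1 : (π.comp (QuotientGroup.mk' N)) (g₀ ^ Nat.card (G ⧸ N)) = 1 := by
      rw [map_pow, MonoidHom.comp_apply, ← map_pow, pow_card_eq_one', map_one]
    rw [hP] at h1
    have h2 : ((symGL m).comp ρ) (g₀ ^ Nat.card (G ⧸ N)) = 1 := by
      have : ((symGL m).comp ρ) (g₀ ^ Nat.card (G ⧸ N)) = P⁻¹ * (P *
        ((symGL m).comp ρ) (g₀ ^ Nat.card (G ⧸ N)) * P⁻¹) * P := by group
      rw [this, h1]
      group
    have h3 := congrArg Units.val h2
    rw [MonoidHom.comp_apply, symGL_val, map_pow, Units.val_pow_eq_pow_val, Units.val_one] at h3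
    have h4 := pow_eq_one_of_symMat m hm _ h3
    rw [← pow_mul] at h4
    exact infEig_pow_ne_one _ hg₀ _ (Nat.mul_pos hcard hm) h4

/-- no subgroup of finite index -/
lemma finiteIndex_eq_top (h : NoFin G) (H : Subgroup G) (hH : H.FiniteIndex) : H = ⊤ := by
  have := hH
  have h1 := h H.normalCore inferInstance inferInstance
  rw [eq_top_iff, ← h1]
  exact H.normalCore_le

end Pool.Agent.Lib.MP_c356f3_al
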