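import Pool.Agent.Lib.MP_c356f3_al.Asm2

/-!
Springer's property (U): assembly, part 3 (the homomorphism to `SL(2,ℚ)`).
-/

namespace Pool.Agent.Lib.MP_c356f3_al

open Matrix

universe u

/-- the inclusion `SL(2,ℚ) → GL(2,ℂ)` -/
noncomputable def cx : SpecialLinearGroup (Fin 2) ℚ →* GL (Fin 2) ℂ :=
  (Matrix.SpecialLinearGroup.toGL).comp (SpecialLinearGroup.map (algebraMap ℚ ℂ))

lemma cx_val (A : SpecialLinearGroup (Fin 2) ℚ) : (cx A).val = A.val.map (algebraMap ℚ ℂ) := rfl

lemma map_inj {M N : Matrix (Fin 2) (Fin 2) ℚ}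
    (h : M.map (algebraMap ℚ ℂ) = N.map (algebraMap ℚ ℂ)) : M = N := by
  ext i j
  have := congrFun (congrFun h i) j
  simpa using this

lemma cx_inj : Function.Injective cx := by
  intro A B h
  have h1 := congrArg Units.val h
  rw [cx_val, cx_val] at h1
  exact Subtype.ext (map_inj h1)

variable {G : Type u} [Group G]

lemma exists_phi (ρ : G →* GL (Fin 2) ℂ) (hdet : DetOne ρ) (P : GL (Fin 2) ℂ)
    (hP : ∀ g : G, ∃ M : Matrix (Fin 2) (Fin 2) ℚ,
      (P⁻¹ * ρ g * P).val = M.map (algebraMap ℚ ℂ)) :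
    ∃ φ : G →* SpecialLinearGroup (Fin 2) ℚ, ∀ g, cx (φ g) = P⁻¹ * ρ g * P := by
  choose M hM using hP
  have hd : ∀ g, (M g).det = 1 := by
    intro g
    have h1 : ((M g).map (algebraMap ℚ ℂ)).det = 1 := by
      rw [← hM g, Units.val_mul, Units.val_mul, Matrix.det_mul, Matrix.det_mul, hdet g, mul_one,
        ← Matrix.det_mul, ← Units.val_mul, inv_mul_cancel, Units.val_one, Matrix.det_one]
    have h2 : ((M g).map (algebraMap ℚ ℂ)).det = algebraMap ℚ ℂ (M g).det :=
      ((algebraMap ℚ ℂ).map_det (M g)).symm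
    rw [h2] at h1
    exact (algebraMap ℚ ℂ).injective (by rw [h1, map_one])
  have hex : ∀ g, ∃ A : SpecialLinearGroup (Fin 2) ℚ, cx A = P⁻¹ * ρ g * P := by
    intro g
    refine ⟨⟨M g, hd g⟩, Units.ext ?_⟩
    exact (hM g).symm
  choose A hA using hex
  refine ⟨{ toFun := A, map_one' := ?_, map_mul' := ?_ }, hA⟩
  · apply cx_inj
    rw [hA, map_one, map_one]
    group
  · intro g h
    apply cx_inj
    rw [hA, map_mul, map_mul, hA, hA]
    group

/-- a two-dimensional representation of a group without characters is irreducible or trivial -/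
lemma irr_or_trivial (hN : NoChar G) (ρ : G →* GL (Fin 2) ℂ) (h : ¬ Irr ρ) (g : G) : ρ g = 1 := by
  -- an invariant line
  obtain ⟨W, hW, hbot, htop⟩ : ∃ W : Submodule ℂ (Fin 2 → ℂ),
      (∀ g : G, ∀ v ∈ W, (ρ g).val *ᵥ v ∈ W) ∧ W ≠ ⊥ ∧ W ≠ ⊤ := by
    by_contra hcon
    push Not at hcon
    exact h ⟨two_pos, fun W hW => or_iff_not_imp_left.mpr (hcon W hW)⟩
  obtain ⟨w, hw, hw0⟩ := W.ne_bot_iff.mp hbot
  obtain ⟨u, hu⟩ : ∃ u, u ∉ W := by
    by_contra hcon
    push Not at hcon
    exact htop (by rw [eq_top_iff]; intro v _; exact hcon v)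
  -- vectors with vanishing determinant are proportional
  have hprop : ∀ v : Fin 2 → ℂ, w 0 * v 1 - v 0 * w 1 = 0 → ∃ c : ℂ, v = c • w := by
    intro v hv
    by_cases h0 : w 0 = 0
    · have h1 : w 1 ≠ 0 := by
        intro h1
        apply hw0
        funext i
        fin_cases i
        · exact h0
        · exact h1
      refine ⟨v 1 / w 1, ?_⟩
      rw [h0, zero_mul, zero_sub, neg_eq_zero] at hv
      have hv0 : v 0 = 0 := (mul_eq_zero.mp hv).resolve_right h1
      funext i
      fin_cases i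
      · simp [h0, hv0]
      · simp [h1]
    · refine ⟨v 0 / w 0, ?_⟩
      funext i
      fin_cases i
      · simp [h0]
      · simp only [Fin.mk_one, Fin.isValue, Pi.smul_apply, smul_eq_mul]
        field_simp
        linear_combination hv
  have hdet : w 0 * u 1 - u 0 * w 1 ≠ 0 := by
    intro hd
    obtain ⟨c, hc⟩ := hprop u hd
    exact hu (hc ▸ W.smul_mem c hw)
  have hWw : ∀ v ∈ W, ∃ c : ℂ, v = c • w := by
    intro v hv
    apply hprop
    by_contra hd
    apply hu
    have : u = ((u 0 * v 1 - v 0 * u 1) / (w 0 * v 1 - v 0 * w 1)) • w +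
        ((w 0 * u 1 - u 0 * w 1) / (w 0 * v 1 - v 0 * w 1)) • v := by
      funext i
      fin_cases i
      · simp only [Fin.zero_eta, Fin.isValue, Pi.add_apply, Pi.smul_apply, smul_eq_mul]
        rw [div_mul_eq_mul_div, div_mul_eq_mul_div, ← add_div, eq_div_iff hd]
        ring
      · simp only [Fin.mk_one, Fin.isValue, Pi.add_apply, Pi.smul_apply, smul_eq_mul]
        rw [div_mul_eq_mul_div, div_mul_eq_mul_div, ← add_div, eq_div_iff hd]
        ring
    rw [this]
    exact W.add_mem (W.smul_mem _ hw) (W.smul_mem _ hv)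
  let Pm : Matrix (Fin 2) (Fin 2) ℂ := !![w 0, u 0; w 1, u 1]
  have hPd : Pm.det ≠ 0 := by
    rw [Matrix.det_fin_two]
    exact hdet
  let P : GL (Fin 2) ℂ := Matrix.GeneralLinearGroup.mkOfDetNeZero Pm hPd
  have hPv : P.val = Pm := rfl
  let e0 : Fin 2 → ℂ := ![1, 0]
  have hPe : P.val *ᵥ e0 = w := by
    rw [hPv]
    funext i
    fin_cases i <;> simp [Pm, e0, Matrix.mulVec, dotProduct, Fin.sum_univ_two]
  have hPiw : P⁻¹.val *ᵥ w = e0 := by
    rw [← hPe, mulVec_mulVec, ← Units.val_mul, inv_mul_cancel, Units.val_one, one_mulVec]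
  let σ : G →* GL (Fin 2) ℂ := (MulAut.conj P⁻¹).toMonoidHom.comp ρ
  have hσ : ∀ g, σ g = P⁻¹ * ρ g * P := by
    intro g
    simp [σ]
  have hσ10 : ∀ g, (σ g).val 1 0 = 0 := by
    intro g
    obtain ⟨c, hc⟩ := hWw _ (hW g w hw)
    have h1 : (σ g).val *ᵥ e0 = c • e0 := by
      rw [hσ g, Units.val_mul, Units.val_mul, ← mulVec_mulVec, ← mulVec_mulVec, hPe, hc,
        mulVec_smul, hPiw]
    have h2 := congrFun h1 1
    simpa [e0, Matrix.mulVec, dotProduct, Fin.sum_univ_two] using h2
  have hmul : ∀ g k i j, (σ (g * k)).val i j =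
      (σ g).val i 0 * (σ k).val 0 j + (σ g).val i 1 * (σ k).val 1 j := by
    intro g k i j
    rw [map_mul, Units.val_mul, Matrix.mul_apply, Fin.sum_univ_two]
  let fa : G →* ℂ :=
    { toFun := fun g => (σ g).val 0 0
      map_one' := by simp
      map_mul' := by
        intro g k
        rw [hmul, hσ10 k, mul_zero, add_zero] }
  let fd : G →* ℂ :=
    { toFun := fun g => (σ g).val 1 1
      map_one' := by simp
      map_mul' := by
        intro g k
        rw [hmul, hσ10 g, zero_mul, zero_add] }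
  have ha : ∀ g, (σ g).val 0 0 = 1 := by
    intro g
    have h1 := congrArg (fun f : G →* ℂˣ => (f g).val) (hN fa.toHomUnits)
    simpa [fa] using h1
  have hd : ∀ g, (σ g).val 1 1 = 1 := by
    intro g
    have h1 := congrArg (fun f : G →* ℂˣ => (f g).val) (hN fd.toHomUnits)
    simpa [fd] using h1
  have hb : ∀ g, (σ g).val 0 1 = 0 := by
    intro g
    by_contra hne
    let fb : G →* ℂ :=
      { toFun := fun k => Complex.exp ((σ k).val 0 1 / (σ g).val 0 1)
        map_one' := by simp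
        map_mul' := by
          intro k l
          rw [hmul, ha, hd, one_mul, mul_one, add_div, Complex.exp_add, mul_comm] }
    have h1 := congrArg (fun f : G →* ℂˣ => (f g).val) (hN fb.toHomUnits)
    have h2 : Complex.exp 1 = 1 := by
      simpa [fb, div_self hne] using h1
    have h3 : 1 = Real.exp 1 := by
      have h5 := Complex.exp_ofReal_re 1
      rw [Complex.ofReal_one, h2] at h5
      simpa using h5
    have h4 := Real.exp_one_gt_d9
    linarith
  have hσ1 : σ g = 1 := by
    ext i j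
    fin_cases i <;> fin_cases j
    · simpa using ha g
    · simpa using hb g
    · simpa using hσ10 g
    · simpa using hd g
  rw [hσ g] at hσ1
  have : ρ g = P * (P⁻¹ * ρ g * P) * P⁻¹ := by group
  rw [this, hσ1]
  group

end Pool.Agent.Lib.MP_c356f3_al
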