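import Pool.Agent.Lib.MP_c356f3_al.Asm3

/-!
Springer's property (U): assembly, part 4 (the structure theorem from the module statements).
-/

namespace Pool.Agent.Lib.MP_c356f3_al

open Matrix

universe u

section quat
variable {G : Type u} [Group G]

lemma isQuat_trace (ρ : G →* GL (Fin 2) ℂ) (a b : ℚ) (i j : Matrix (Fin 2) (Fin 2) ℂ)
    (h : IsQuat ρ a b i j) : i.trace = 0 ∧ j.trace = 0 ∧ (i * j).trace = 0 := by
  obtain ⟨ha, hb, hi, hj, hij, -⟩ := h
  have ha' : ((a : ℚ) : ℂ) ≠ 0 := by exact_mod_cast ha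
  have hb' : ((b : ℚ) : ℂ) ≠ 0 := by exact_mod_cast hb
  refine ⟨?_, ?_, ?_⟩
  · have h1 : (i * j * j).trace = (b : ℂ) * i.trace := by
      rw [Matrix.mul_assoc, hj, Matrix.mul_smul, Matrix.mul_one, Matrix.trace_smul, smul_eq_mul]
    have h2 : (i * j * j).trace = -((b : ℂ) * i.trace) := by
      rw [hij, Matrix.neg_mul, Matrix.trace_neg, Matrix.trace_mul_comm, ← Matrix.mul_assoc, hj,
        Matrix.smul_mul, Matrix.one_mul, Matrix.trace_smul, smul_eq_mul]
    have h3 : (b : ℂ) * i.trace = 0 := by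
      have := h1.symm.trans h2
      linear_combination this / 2
    exact (mul_eq_zero.mp h3).resolve_left hb'
  · have h1 : (i * (i * j)).trace = (a : ℂ) * j.trace := by
      rw [← Matrix.mul_assoc, hi, Matrix.smul_mul, Matrix.one_mul, Matrix.trace_smul, smul_eq_mul]
    have h2 : (i * (i * j)).trace = -((a : ℂ) * j.trace) := by
      rw [hij, Matrix.mul_neg, Matrix.trace_neg, ← Matrix.mul_assoc, Matrix.trace_mul_comm,
        ← Matrix.mul_assoc, hi, Matrix.smul_mul, Matrix.one_mul, Matrix.trace_smul, smul_eq_mul]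
    have h3 : (a : ℂ) * j.trace = 0 := by
      have := h1.symm.trans h2
      linear_combination this / 2
    exact (mul_eq_zero.mp h3).resolve_left ha'
  · have h1 : (i * j).trace = -(i * j).trace := by
      conv_lhs => rw [hij, Matrix.trace_neg, Matrix.trace_mul_comm]
    linear_combination h1 / 2

lemma isQuat_coord (ρ : G →* GL (Fin 2) ℂ) (a b : ℚ) (i j : Matrix (Fin 2) (Fin 2) ℂ)
    (h : IsQuat ρ a b i j) (hdet : DetOne ρ) (χ : G → ℚ) (hχ : IsTr ρ χ) (g : G) :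
    ∃ x₀ x₁ x₂ x₃ : ℚ, x₀ ^ 2 - a * x₁ ^ 2 - b * x₂ ^ 2 + a * b * x₃ ^ 2 = 1 ∧
      2 * x₀ = χ g := by
  obtain ⟨ti, tj, tij⟩ := isQuat_trace ρ a b i j h
  obtain ⟨ha, hb, hi, hj, hij, hx⟩ := h
  obtain ⟨x, hx⟩ := hx g
  refine ⟨x 0, x 1, x 2, x 3, ?_, ?_⟩
  · have hA := hdet g
    rw [hx, Matrix.det_fin_two] at hA
    have i00 := congrFun (congrFun hi 0) 0
    have j00 := congrFun (congrFun hj 0) 0
    have c00 := congrFun (congrFun hij 0) 0
    rw [Matrix.trace_fin_two] at ti tj tij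
    simp only [Matrix.mul_apply, Fin.sum_univ_two, Matrix.smul_apply, Matrix.one_apply_eq,
      smul_eq_mul, mul_one, Matrix.neg_apply, Matrix.add_apply, Fin.isValue, ne_eq, zero_ne_one,
      one_ne_zero, not_false_eq_true, Matrix.one_apply_ne, mul_zero, zero_add]
      at i00 j00 c00 hA tij
    have e1 : i 1 1 = -i 0 0 := by linear_combination ti
    have e2 : j 1 1 = -j 0 0 := by linear_combination tj
    rw [e1, e2] at hA tij
    have h3 : ((x 0 : ℂ)) ^ 2 - a * (x 1 : ℂ) ^ 2 - b * (x 2 : ℂ) ^ 2 + a * b * (x 3 : ℂ) ^ 2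
        = 1 := by
      rw [← hA, ← i00, ← j00]
      have c1 : 2 * i 0 0 * j 0 0 + i 0 1 * j 1 0 + i 1 0 * j 0 1 = 0 := by
        linear_combination c00
      linear_combination ((x 1 : ℂ) * (x 2 : ℂ)) * c1
        - (x 0 : ℂ) * (x 3 : ℂ) * tij
    exact_mod_cast h3
  · have h1 := hχ g
    rw [hx, Matrix.trace_add, Matrix.trace_add, Matrix.trace_add, Matrix.trace_smul,
      Matrix.trace_smul, Matrix.trace_smul, Matrix.trace_smul, ti, tj, tij, Matrix.trace_one] at h1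
    simp only [smul_eq_mul, mul_zero, add_zero, Fintype.card_fin] at h1
    have h2 : ((2 * x 0 : ℚ) : ℂ) = ((χ g : ℚ) : ℂ) := by
      rw [← h1]; push_cast; ring
    exact_mod_cast h2

end quat

section core
variable {G : Type u} [Group G]

lemma ne_one_of_infEig (ρ : G →* GL (Fin 2) ℂ) (g : G) (h : InfEig (ρ g).val) : ρ g ≠ 1 := by
  intro h1
  apply infEig_pow_ne_one _ h 1 one_pos
  rw [h1, Units.val_one, one_pow]

/-- all the consequences of property (U), for the two-dimensional representation -/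
lemma core (hA : StFix) (hB : StPerm.{u}) (hC : StSchur.{u}) (hD : StBasis.{u}) (hE : StDual.{u})
    (hF : StQuat.{u}) (hG : StNonInt.{u}) (hH : StLegendre) (hI : StSplit.{u}) (hJ : StSymIrr.{u})
    (hK1 : StInfEig) (hK2 : StFinIm.{u}) (hK3 : StNotFin.{u}) (hL : StFinIrr.{u})
    (hU : PropU G) :
    ∃ (φ : G →* SpecialLinearGroup (Fin 2) ℚ), NoChar G ∧ NoFin G ∧ Irr (cx.comp φ) ∧
      (∀ m : ℕ, Irr ((symGL m).comp (cx.comp φ))) ∧
      (∀ p : ℕ, p.Prime → ∃ g, 1 < padicNorm p ((φ g).val.trace)) := by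
  obtain ⟨ρ, hρ⟩ := (hU 2 two_pos).1
  have hN : NoChar G := noChar_of_propU hU
  have hdet : DetOne ρ := detOne_of_noChar hN ρ
  obtain ⟨χ, hχ⟩ := exists_isTr hA hU ρ hρ
  obtain ⟨g₀, hg₀⟩ := exists_infEig hB hC hD hE hK1 hK2 hK3 hN ρ hρ χ hχ
  have hsym : ∀ m : ℕ, Irr ((symGL m).comp ρ) := hJ G ρ hρ hN ⟨g₀, hg₀⟩
  have hNF : NoFin G := noFin hL hU hN ρ hsym g₀ hg₀
  obtain ⟨s, hs⟩ := exists_indep hD ρ hρ
  obtain ⟨q, hq⟩ := hE G ρ χ hχ s hs
  have hni := hG G hNF ρ χ hχ ⟨g₀, ne_one_of_infEig ρ g₀ hg₀⟩ ⟨s, q, hq⟩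
  obtain ⟨a, b, i, j, hQ⟩ := hF G ρ χ hρ hdet hχ
  have hleg : ∃ x y z : ℚ, (x ≠ 0 ∨ y ≠ 0 ∨ z ≠ 0) ∧ a * x ^ 2 + b * y ^ 2 = z ^ 2 := by
    apply hH a b hQ.1 hQ.2.1
    intro p hp
    obtain ⟨g, hg⟩ := hni p hp
    obtain ⟨x₀, x₁, x₂, x₃, h1, h2⟩ := isQuat_coord ρ a b i j hQ hdet χ hχ g
    exact ⟨x₀, x₁, x₂, x₃, h1, by rw [h2]; exact hg⟩
  obtain ⟨P, hP⟩ := hI G ρ a b i j hQ hleg
  obtain ⟨φ, hφ⟩ := exists_phi ρ hdet P hP
  have htr : ∀ g, (φ g).val.trace = χ g := by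
    intro g
    have h1 : ((cx (φ g)).val).trace = ((χ g : ℚ) : ℂ) := by
      rw [hφ g, Units.val_mul, Units.val_mul, Matrix.trace_mul_comm, ← Matrix.mul_assoc,
        ← Units.val_mul, mul_inv_cancel, Units.val_one, Matrix.one_mul, hχ g]
    rw [cx_val] at h1
    have h2 : ((φ g).val.map (algebraMap ℚ ℂ)).trace = algebraMap ℚ ℂ (φ g).val.trace := by
      simp [Matrix.trace, Matrix.map_apply]
    rw [h2] at h1
    exact (algebraMap ℚ ℂ).injective h1
  refine ⟨φ, hN, hNF, ?_, ?_, ?_⟩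
  · refine irr_of_equ ⟨P⁻¹, fun g => ?_⟩ hρ
    rw [MonoidHom.comp_apply, hφ g, inv_inv]
  · intro m
    refine irr_of_equ ⟨symGL m P⁻¹, fun g => ?_⟩ (hsym m)
    rw [MonoidHom.comp_apply, MonoidHom.comp_apply, MonoidHom.comp_apply, hφ g, ← map_mul,
      ← map_inv, ← map_mul, inv_inv]
  · intro p hp
    obtain ⟨g, hg⟩ := hni p hp
    exact ⟨g, by rw [htr g]; exact hg⟩

/-- two homomorphisms to `SL(2,ℚ)`, one of them surjective -/
lemma surj_iff_aux (hO : StQuot.{u}) (hU : PropU G) (f φ : G →* SpecialLinearGroup (Fin 2) ℚ)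
    (hf : Function.Surjective f) (hφ : Irr (cx.comp φ)) : Function.Surjective φ := by
  have hN : NoChar G := noChar_of_propU hU
  have hfirr : Irr (cx.comp f) := by
    by_contra hcon
    have h1 := irr_or_trivial hN (cx.comp f) hcon
    have h2 : ∀ A : SpecialLinearGroup (Fin 2) ℚ, A = 1 := by
      intro A
      obtain ⟨g, rfl⟩ := hf A
      apply cx_inj
      rw [map_one]
      exact h1 g
    have h3 := h2 ⟨!![1, 1; 0, 1], by simp [Matrix.det_fin_two]⟩
    have h4 := congrFun (congrFun (congrArg Subtype.val h3) 0) 1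
    simp at h4
  obtain ⟨P, hP⟩ := (hU 2 two_pos).2 (cx.comp f) (cx.comp φ) hfirr hφ
  refine hO G f φ P⁻¹ (fun g => ?_) hf
  have h1 : cx (f g) * P⁻¹ = P⁻¹ * cx (φ g) := by
    have h2 := hP g
    rw [MonoidHom.comp_apply, MonoidHom.comp_apply] at h2
    rw [h2]
    group
  have h2 := congrArg Units.val h1
  rw [Units.val_mul, Units.val_mul, cx_val, cx_val] at h2
  exact h2

lemma propU_of_surj {H : Type*} [Group H] (f : G →* H) (hf : Function.Surjective f)
    (hU : PropU G) (hex : ∀ n : ℕ, 0 < n → ∃ π : H →* GL (Fin n) ℂ, Irr π) : PropU H := by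
  intro n hn
  refine ⟨hex n hn, fun π τ hπ hτ => ?_⟩
  obtain ⟨P, hP⟩ := (hU n hn).2 (π.comp f) (τ.comp f) ((irr_comp_iff f hf π).mpr hπ)
    ((irr_comp_iff f hf τ).mpr hτ)
  refine ⟨P, fun y => ?_⟩
  obtain ⟨g, rfl⟩ := hf y
  exact hP g

/-- the inclusion of a subgroup of `SL(2,ℚ)` with property (U) is irreducible -/
lemma irr_subtype (Γ : Subgroup (SpecialLinearGroup (Fin 2) ℚ)) (hU : PropU Γ) :
    Irr (cx.comp Γ.subtype) := by
  by_contra hcon
  have hN : NoChar Γ := noChar_of_propU hU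
  have h1 := irr_or_trivial hN (cx.comp Γ.subtype) hcon
  have h2 : ∀ γ : Γ, γ = 1 := by
    intro γ
    apply Subtype.ext
    apply cx_inj
    exact (h1 γ).trans (map_one cx).symm
  obtain ⟨ρ, hρ⟩ := (hU 2 two_pos).1
  have h3 : ∀ γ : Γ, ρ γ = 1 := by
    intro γ
    rw [h2 γ, map_one]
  let W : Submodule ℂ (Fin 2 → ℂ) := Submodule.span ℂ {![1, 0]}
  rcases hρ.2 W (fun γ v hv => by rw [h3 γ, Units.val_one, one_mulVec]; exact hv) with h | h
  · have h4 : (![1, 0] : Fin 2 → ℂ) ∈ W := Submodule.mem_span_singleton_self _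
    rw [h, Submodule.mem_bot] at h4
    have := congrFun h4 0
    simp at this
  · have h4 : (![0, 1] : Fin 2 → ℂ) ∈ W := by rw [h]; trivial
    obtain ⟨c, hc⟩ := Submodule.mem_span_singleton.mp h4
    have := congrFun hc 1
    simp at this

end core

end Pool.Agent.Lib.MP_c356f3_al
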