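import Pool.Agent.Lib.MP_c356f3_al.Asm4

/-!
Springer's property (U): assembly, part 5 (the structure theorem and the reduction, from the
module statements).
-/

namespace Pool.Agent.Lib.MP_c356f3_al

open Matrix

universe u

section
variable {G : Type u} [Group G]

theorem structure_thm (hA : StFix) (hB : StPerm.{u}) (hC : StSchur.{u}) (hD : StBasis.{u})
    (hE : StDual.{u}) (hF : StQuat.{u}) (hG : StNonInt.{u}) (hH : StLegendre) (hI : StSplit.{u})
    (hJ : StSymIrr.{u}) (hK1 : StInfEig) (hK2 : StFinIm.{u}) (hK3 : StNotFin.{u})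
    (hL : StFinIrr.{u}) (hSurj : StSurj) (hO : StQuot.{u}) (hU : PropU G) :
    ∃ φ : G →* SpecialLinearGroup (Fin 2) ℚ,
      (∀ (m : ℕ) (ρ : G →* GL (Fin (m + 1)) ℂ), Irr ρ ↔
        ∃ P : GL (Fin (m + 1)) ℂ, ∀ g : G, (ρ g).val =
          P.val * symMat m ((φ g).val.map (algebraMap ℚ ℂ)) * P⁻¹.val) ∧
      PropU φ.range ∧
      (∀ H : Subgroup G, H.FiniteIndex → H = ⊤) ∧
      (∀ p : ℕ, p.Prime → ∃ g : G, 1 < padicNorm p (φ g).val.trace) ∧
      ((∃ f : G →* SpecialLinearGroup (Fin 2) ℚ, Function.Surjective f) ↔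
        Function.Surjective φ) ∧
      (Function.Surjective φ ↔
        (φ.range.comap (SpecialLinearGroup.map (Int.castRingHom ℚ) :
          SpecialLinearGroup (Fin 2) ℤ →* SpecialLinearGroup (Fin 2) ℚ)).FiniteIndex) := by
  obtain ⟨φ, hN, hNF, hirr, hsym, hni⟩ :=
    core hA hB hC hD hE hF hG hH hI hJ hK1 hK2 hK3 hL hU
  refine ⟨φ, ?_, ?_, ?_, hni, ?_, ?_⟩
  · intro m ρ
    constructor
    · intro hρ
      obtain ⟨P, hP⟩ := (hU (m + 1) (Nat.succ_pos m)).2 _ ρ (hsym m) hρ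
      refine ⟨P, fun g => ?_⟩
      rw [hP g, Units.val_mul, Units.val_mul, MonoidHom.comp_apply, symGL_val,
        MonoidHom.comp_apply, cx_val]
    · rintro ⟨P, hP⟩
      refine irr_of_equ ⟨P, fun g => ?_⟩ (hsym m)
      apply Units.ext
      rw [hP g, Units.val_mul, Units.val_mul, MonoidHom.comp_apply, symGL_val,
        MonoidHom.comp_apply, cx_val]
  · refine propU_of_surj φ.rangeRestrict φ.rangeRestrict_surjective hU fun n hn => ?_
    obtain ⟨m, rfl⟩ : ∃ m, n = m + 1 := ⟨n - 1, by omega⟩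
    refine ⟨(symGL m).comp (cx.comp φ.range.subtype), ?_⟩
    rw [← irr_comp_iff φ.rangeRestrict φ.rangeRestrict_surjective]
    exact hsym m
  · exact fun H hH => finiteIndex_eq_top hNF H hH
  · constructor
    · rintro ⟨f, hf⟩
      exact surj_iff_aux hO hU f φ hf hirr
    · intro h
      exact ⟨φ, h⟩
  · constructor
    · intro h
      rw [MonoidHom.range_eq_top.mpr h, Subgroup.comap_top]
      infer_instance
    · intro h
      apply MonoidHom.range_eq_top.mp
      apply hSurj _ _ h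
      intro p hp
      obtain ⟨g, hg⟩ := hni p hp
      exact ⟨φ g, ⟨g, rfl⟩, hg⟩

/-- property (U) is invariant under isomorphism -/
lemma propU_of_equiv {H : Type*} [Group H] (e : G ≃* H) (hU : PropU G) : PropU H := by
  refine propU_of_surj e.toMonoidHom e.surjective hU fun n hn => ?_
  obtain ⟨ρ, hρ⟩ := (hU n hn).1
  refine ⟨ρ.comp e.symm.toMonoidHom, ?_⟩
  exact (irr_comp_iff e.symm.toMonoidHom e.symm.surjective ρ).mpr hρ

theorem reduction (hA : StFix) (hB : StPerm.{u}) (hC : StSchur.{u}) (hD : StBasis.{u})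
    (hE : StDual.{u}) (hF : StQuat.{u}) (hG : StNonInt.{u}) (hH : StLegendre) (hI : StSplit.{u})
    (hJ : StSymIrr.{u}) (hK1 : StInfEig) (hK2 : StFinIm.{u}) (hK3 : StNotFin.{u})
    (hL : StFinIrr.{u}) (hSurj : StSurj) (hO : StQuot.{u}) (hO' : StQuot.{0}) :
    (∀ (G : Type u) [Group G], PropU G → ∃ (N : Subgroup G) (_ : N.Normal),
        Nonempty (G ⧸ N ≃* SpecialLinearGroup (Fin 2) ℚ)) ↔
      ∀ Γ : Subgroup (SpecialLinearGroup (Fin 2) ℚ), PropU Γ → Γ = ⊤ := by
  constructor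
  · intro h Γ hΓ
    have hUL : PropU (ULift.{u} Γ) := propU_of_equiv MulEquiv.ulift.symm hΓ
    obtain ⟨N, hN, ⟨e⟩⟩ := h (ULift.{u} Γ) hUL
    let f : Γ →* SpecialLinearGroup (Fin 2) ℚ :=
      (e.toMonoidHom.comp (QuotientGroup.mk' N)).comp MulEquiv.ulift.symm.toMonoidHom
    have hf : Function.Surjective f :=
      (e.surjective.comp (QuotientGroup.mk'_surjective N)).comp MulEquiv.ulift.symm.surjective
    have h1 : Function.Surjective Γ.subtype :=
      surj_iff_aux hO' hΓ f Γ.subtype hf (irr_subtype Γ hΓ)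
    rw [eq_top_iff]
    intro A _
    obtain ⟨γ, rfl⟩ := h1 A
    exact γ.2
  · intro h G _ hU
    obtain ⟨φ, -, hφ, -⟩ :=
      structure_thm hA hB hC hD hE hF hG hH hI hJ hK1 hK2 hK3 hL hSurj hO hU
    have hs : Function.Surjective φ := MonoidHom.range_eq_top.mp (h _ hφ)
    exact ⟨φ.ker, inferInstance, ⟨QuotientGroup.quotientKerEquivOfSurjective φ hs⟩⟩

end

end Pool.Agent.Lib.MP_c356f3_al
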