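import Pool.Agent.Lib.MP_c356f3_al.Asm3

/-!
Springer's property (U): statements of the modules for the theorem

  a subgroup `Γ` of `SL(2,ℚ)` without finite quotients, irreducible on `ℂ²`, unbounded at some
  prime, whose intersection with `SL(2,ℤ)` is infinite and finitely generated meets `SL(2,ℤ)` in a
  subgroup of finite index.
-/

namespace Pool.Agent.Lib.MP_c356f3_al

open Matrix

abbrev SLZ := SpecialLinearGroup (Fin 2) ℤ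
abbrev SLQ := SpecialLinearGroup (Fin 2) ℚ

/-- the inclusion `SL(2,ℤ) → SL(2,ℚ)` -/
def iZQ : SLZ →* SLQ := SpecialLinearGroup.map (Int.castRingHom ℚ)

/-- `s = (0 -1; 1 0)`, `s² = -1` -/
def sM : SLZ := ⟨!![0, -1; 1, 0], by simp [Matrix.det_fin_two]⟩

/-- `r = (1 -1; 1 0)`, `r³ = -1` -/
def rM : SLZ := ⟨!![1, -1; 1, 0], by simp [Matrix.det_fin_two]⟩

/-- determinant of two vectors; `dt u w = 0` means that `u`, `w` are parallel -/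
def dt (u w : Fin 2 → ℝ) : ℝ := u 0 * w 1 - u 1 * w 0

/-- real matrix of an element of `SL(2,ℚ)` -/
noncomputable def rQ (g : SLQ) : Matrix (Fin 2) (Fin 2) ℝ := g.val.map (fun q : ℚ => (q : ℝ))

/-- real matrix of an element of `SL(2,ℤ)` -/
def rZ (g : SLZ) : Matrix (Fin 2) (Fin 2) ℝ := g.val.map (fun n : ℤ => (n : ℝ))

/-- the product of the two coordinates of `x⁻¹ v`; it is positive iff the direction of `v` lies in
the open interval `x(0,∞)`, negative iff it lies in `x(-∞,0)` -/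
def pr (x : SLZ) (v : Fin 2 → ℝ) : ℝ :=
  ((x 1 1 : ℝ) * v 0 - (x 0 1 : ℝ) * v 1) * ((x 0 0 : ℝ) * v 1 - (x 1 0 : ℝ) * v 0)

/-- no real line has a `Γ`-orbit with at most two elements -/
def NoLine (Γ : Subgroup SLQ) : Prop := ∀ v v' : Fin 2 → ℝ, v ≠ 0 → v' ≠ 0 →
  ∃ γ ∈ Γ, dt (rQ γ *ᵥ v) v ≠ 0 ∧ dt (rQ γ *ᵥ v) v' ≠ 0

/-- bounded subsets of `Γ` are finite -/
def Discr (Γ : Subgroup SLQ) : Prop := ∀ B : ℝ,
  {γ : SLQ | γ ∈ Γ ∧ ∀ i j, |rQ γ i j| ≤ B}.Finite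

/-- The set `E = H Y` of elements of `SL(2,ℤ)` (a finite union of cosets of `H`), closed under
`x ↦ -x`, `x ↦ x r`, having an exit (an `x ∈ E` with `x s ∉ E`) and such that `E` lies on one side
of each exit `x`: for all `z ∈ E` the matrix `x⁻¹ z` maps `0` and `∞` into `[0,∞]`. -/
def IsExit (H : Subgroup SLZ) (Y : Finset SLZ) (E : Set SLZ) : Prop :=
  (∀ x, x ∈ E ↔ ∃ h ∈ H, ∃ y ∈ Y, x = h * y) ∧ (1 : SLZ) ∈ E ∧ (∀ x ∈ E, -x ∈ E) ∧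
  (∀ x ∈ E, x * rM ∈ E) ∧ (∃ x ∈ E, x * sM ∉ E) ∧
  (∀ x ∈ E, x * sM ∉ E → ∀ z ∈ E, 0 ≤ (x⁻¹ * z) 0 0 * (x⁻¹ * z) 1 0 ∧
    0 ≤ (x⁻¹ * z) 0 1 * (x⁻¹ * z) 1 1)

/-! ### Module statements -/

/-- X1 -/
def StExit : Prop := ∀ H : Subgroup SLZ, H.FG → ¬ H.FiniteIndex → ∃ Y E, IsExit H Y E

/-- X2: eigendirections of elements of infinite order of `H` avoid the exit intervals -/
def StLim : Prop := ∀ (H : Subgroup SLZ) (Y : Finset SLZ) (E : Set SLZ), IsExit H Y E →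
  ∀ x ∈ E, x * sM ∉ E → ∀ k ∈ H, (∀ n : ℕ, 0 < n → k ^ n ≠ 1) → ∀ (v : Fin 2 → ℝ) (l : ℝ),
    v ≠ 0 → rZ k *ᵥ v = l • v → 0 ≤ pr x v

/-- X3: two directions that avoid the exit intervals are separated by some `x ∈ E` -/
def StCross : Prop := ∀ (H : Subgroup SLZ) (Y : Finset SLZ) (E : Set SLZ), IsExit H Y E →
  ∀ v v' : Fin 2 → ℝ, dt v v' ≠ 0 → (∀ x, pr x v ≠ 0) → (∀ x, pr x v' ≠ 0) →
    (∀ x ∈ E, x * sM ∉ E → 0 ≤ pr x v) → (∀ x ∈ E, x * sM ∉ E → 0 ≤ pr x v') →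
      ∃ x ∈ E, pr x v * pr x v' < 0

/-- X4: consequence of the absence of finite quotients -/
def StNoLine : Prop := ∀ Γ : Subgroup SLQ, NoFin Γ → Irr (cx.comp Γ.subtype) → NoLine Γ

/-- X5: a hyperbolic integral element -/
def StHyp : Prop := ∀ Γ : Subgroup SLQ, NoLine Γ → Infinite (Γ.comap iZQ) →
  ∃ h ∈ Γ.comap iZQ, 2 < |h.val.trace|

/-- X6: discreteness in `SL(2,ℝ)` from an interval free of an invariant set of directions -/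
def StDisc : Prop := ∀ Γ : Subgroup SLQ, NoLine Γ → ∀ L : Set (Fin 2 → ℝ), L.Nonempty →
  (∀ v ∈ L, v ≠ 0) → (∀ γ ∈ Γ, ∀ v ∈ L, rQ γ *ᵥ v ∈ L) → (∃ x : SLZ, ∀ v ∈ L, 0 ≤ pr x v) →
    Discr Γ

/-- X7: finitely many elements of `K` cross a given Farey edge -/
def StFinK : Prop := ∀ (Γ : Subgroup SLQ) (Y : Finset SLZ) (E : Set SLZ),
  IsExit (Γ.comap iZQ) Y E → Discr Γ → ∀ (t : ℚ), 2 < |t| → ∀ K : Set SLQ, K ⊆ Γ →
    (∀ k ∈ K, k.val.trace = t) →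
    (∀ k ∈ K, ∀ (v : Fin 2 → ℝ) (l : ℝ), v ≠ 0 → rQ k *ᵥ v = l • v →
      ∀ x ∈ E, x * sM ∉ E → 0 ≤ pr x v) →
    ∀ y ∈ E, {k : SLQ | k ∈ K ∧ 0 < ((iZQ y)⁻¹ * k * iZQ y) 0 1 *
      ((iZQ y)⁻¹ * k * iZQ y) 1 0}.Finite

/-- X8: powers of conjugates are integral -/
def StPow : Prop := ∀ (γ : SLQ) (h : SLZ), ∃ n : ℕ, 0 < n ∧ γ * iZQ h ^ n * γ⁻¹ ∈ iZQ.range

/-- X9: the conjugates of a hyperbolic element are not all integral if some trace is not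
`p`-integral -/
def StBdd : Prop := ∀ Γ : Subgroup SLQ, NoChar Γ → NoFin Γ → Irr (cx.comp Γ.subtype) →
  ∀ p : ℕ, p.Prime → (∃ γ ∈ Γ, 1 < padicNorm p (γ.val.trace)) → ∀ k ∈ Γ, 2 < |k.val.trace| →
    ¬ ∀ γ ∈ Γ, γ * k * γ⁻¹ ∈ iZQ.range

/-- X10: the eigendirections of a conjugate of a hyperbolic integral element -/
def StEig : Prop := ∀ (k : SLQ) (t : ℤ), k.val.trace = t → 2 < |t| →
  ∃ (v v' : Fin 2 → ℝ) (l l' : ℝ), rQ k *ᵥ v = l • v ∧ rQ k *ᵥ v' = l' • v' ∧ dt v v' ≠ 0 ∧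
    (∀ x, pr x v ≠ 0) ∧ (∀ x, pr x v' ≠ 0) ∧
    ∀ x : SLZ, pr x v * pr x v' < 0 →
      0 < ((iZQ x)⁻¹ * k * iZQ x) 0 1 * ((iZQ x)⁻¹ * k * iZQ x) 1 0

/-- the theorem -/
def StFG : Prop := ∀ Γ : Subgroup SLQ, NoChar Γ → NoFin Γ → Irr (cx.comp Γ.subtype) →
  ∀ p : ℕ, p.Prime → (∃ γ ∈ Γ, 1 < padicNorm p (γ.val.trace)) → Infinite (Γ.comap iZQ) →
    (Γ.comap iZQ).FG → (Γ.comap iZQ).FiniteIndex

end Pool.Agent.Lib.MP_c356f3_al
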