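import Pool.Agent.Lib.MP_c356f3_al.Asm5
import Pool.Agent.Lib.MP_c356f3_al.StmtsX

/-!
Springer's property (U): assembly, part 6 (the structure theorem with the finitely generated
criterion).
-/

namespace Pool.Agent.Lib.MP_c356f3_al

open Matrix

universe u

/-- no finite quotients passes to quotients -/
lemma noFin_of_surj {G : Type u} [Group G] {H : Type*} [Group H] (f : G →* H)
    (hf : Function.Surjective f) (h : NoFin G) : NoFin H := by
  intro N hN hNf
  have := hN
  have := hNf
  have h1 : (N.comap f) = ⊤ := by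
    apply h _ inferInstance
    constructor
    rw [Subgroup.index_comap_of_surjective N hf]
    exact hNf.index_ne_zero
  rw [eq_top_iff]
  intro y _
  obtain ⟨g, rfl⟩ := hf y
  have : g ∈ N.comap f := by rw [h1]; trivial
  exact this

lemma infinite_SLZ : Infinite SLZ := by
  refine Infinite.of_injective
    (fun n : ℤ => (⟨!![1, n; 0, 1], by simp [Matrix.det_fin_two]⟩ : SLZ)) ?_
  intro m n h
  have h1 := congrFun (congrFun (congrArg Subtype.val h) 0) 1
  simpa using h1

lemma fg_SLZ : Group.FG SLZ := by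
  rw [Group.fg_iff]
  refine ⟨{ModularGroup.S, ModularGroup.T}, ?_, ?_⟩
  · exact SpecialLinearGroup.SL2Z_generators
  · exact Set.toFinite _

/-- finite index subgroups of `SL(2,ℤ)` are infinite and finitely generated -/
lemma infinite_fg_of_finiteIndex (H : Subgroup SLZ) (h : H.FiniteIndex) :
    Infinite H ∧ H.FG := by
  have := h
  have := infinite_SLZ
  have := fg_SLZ
  constructor
  · by_contra hfin
    rw [not_infinite_iff_finite] at hfin
    have h1 : Finite SLZ := by
      have : Finite (SLZ ⧸ H) := Subgroup.finite_quotient_of_finiteIndex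
      exact Finite.of_equiv _ (Subgroup.groupEquivQuotientProdSubgroup (s := H)).symm
    exact not_finite SLZ
  · exact (Group.fg_iff_subgroup_fg H).mp inferInstance

theorem structure_thm2 (hA : StFix) (hB : StPerm.{u}) (hC : StSchur.{u}) (hD : StBasis.{u})
    (hE : StDual.{u}) (hF : StQuat.{u}) (hG : StNonInt.{u}) (hH : StLegendre) (hI : StSplit.{u})
    (hJ : StSymIrr.{u}) (hK1 : StInfEig) (hK2 : StFinIm.{u}) (hK3 : StNotFin.{u})
    (hL : StFinIrr.{u}) (hSurj : StSurj) (hO : StQuot.{u}) (hX : StFG)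
    {G : Type u} [Group G] (hU : PropU G) :
    ∃ φ : G →* SpecialLinearGroup (Fin 2) ℚ,
      (∀ (m : ℕ) (ρ : G →* GL (Fin (m + 1)) ℂ), Irr ρ ↔
        ∃ P : GL (Fin (m + 1)) ℂ, ∀ g : G, (ρ g).val =
          P.val * symMat m ((φ g).val.map (algebraMap ℚ ℂ)) * P⁻¹.val) ∧
      PropU φ.range ∧
      (∀ H : Subgroup G, H.FiniteIndex → H = ⊤) ∧
      (∀ p : ℕ, p.Prime → ∃ g : G, 1 < padicNorm p (φ g).val.trace) ∧
      ((∃ f : G →* SpecialLinearGroup (Fin 2) ℚ, Function.Surjective f) ↔
        Function.Surjective φ) ∧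
      (Function.Surjective φ ↔
        Infinite (φ.range.comap (SpecialLinearGroup.map (Int.castRingHom ℚ) :
          SpecialLinearGroup (Fin 2) ℤ →* SpecialLinearGroup (Fin 2) ℚ)) ∧
        (φ.range.comap (SpecialLinearGroup.map (Int.castRingHom ℚ) :
          SpecialLinearGroup (Fin 2) ℤ →* SpecialLinearGroup (Fin 2) ℚ)).FG) := by
  obtain ⟨φ, hN, hNF, hirr, hsym, hni⟩ :=
    core hA hB hC hD hE hF hG hH hI hJ hK1 hK2 hK3 hL hU
  have hUr : PropU φ.range := by
    refine propU_of_surj φ.rangeRestrict φ.rangeRestrict_surjective hU fun n hn => ?_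
    obtain ⟨m, rfl⟩ : ∃ m, n = m + 1 := ⟨n - 1, by omega⟩
    refine ⟨(symGL m).comp (cx.comp φ.range.subtype), ?_⟩
    rw [← irr_comp_iff φ.rangeRestrict φ.rangeRestrict_surjective]
    exact hsym m
  have hni' : ∀ p : ℕ, p.Prime → ∃ γ ∈ φ.range, 1 < padicNorm p (γ.val.trace) := by
    intro p hp
    obtain ⟨g, hg⟩ := hni p hp
    exact ⟨φ g, ⟨g, rfl⟩, hg⟩
  refine ⟨φ, ?_, hUr, ?_, hni, ?_, ?_⟩
  · intro m ρ
    constructor
    · intro hρ
      obtain ⟨P, hP⟩ := (hU (m + 1) (Nat.succ_pos m)).2 _ ρ (hsym m) hρ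
      refine ⟨P, fun g => ?_⟩
      rw [hP g, Units.val_mul, Units.val_mul, MonoidHom.comp_apply, symGL_val,
        MonoidHom.comp_apply, cx_val]
    · rintro ⟨P, hP⟩
      refine irr_of_equ ⟨P, fun g => ?_⟩ (hsym m)
      apply Units.ext
      rw [hP g, Units.val_mul, Units.val_mul, MonoidHom.comp_apply, symGL_val,
        MonoidHom.comp_apply, cx_val]
  · exact fun H hH => finiteIndex_eq_top hNF H hH
  · constructor
    · rintro ⟨f, hf⟩
      exact surj_iff_aux hO hU f φ hf hirr
    · intro h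
      exact ⟨φ, h⟩
  · constructor
    · intro h
      apply infinite_fg_of_finiteIndex
      rw [MonoidHom.range_eq_top.mpr h, Subgroup.comap_top]
      infer_instance
    · rintro ⟨h1, h2⟩
      apply MonoidHom.range_eq_top.mp
      apply hSurj _ hni'
      exact hX φ.range (noChar_of_propU hUr)
        (noFin_of_surj φ.rangeRestrict φ.rangeRestrict_surjective hNF)
        (irr_subtype φ.range hUr) 2 Nat.prime_two (hni' 2 Nat.prime_two) h1 h2

end Pool.Agent.Lib.MP_c356f3_al
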