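import Pool.Agent.Lib.MP_c356f3_al.StmtsX

/-!
Springer's property (U): assembly of the finitely generated criterion.
-/

namespace Pool.Agent.Lib.MP_c356f3_al.AsmX

open Matrix Pool.Agent.Lib.MP_c356f3_al

lemma vz_mul (x y : SLZ) : (x * y).val = x.val * y.val := rfl
lemma vq_mul (x y : SLQ) : (x * y).val = x.val * y.val := rfl
lemma vz_pow (x : SLZ) (n : ℕ) : (x ^ n).val = x.val ^ n := by
  induction n with
  | zero => rw [pow_zero, pow_zero]; rfl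
  | succ n ih => rw [pow_succ, vz_mul, ih, pow_succ]

lemma cayley (h : SLZ) : h.val * h.val = h.val.trace • h.val - 1 := by
  have hd := h.2
  rw [Matrix.det_fin_two] at hd
  ext i j
  fin_cases i <;> fin_cases j
  · simp only [Fin.zero_eta, Fin.isValue, Matrix.mul_apply, Fin.sum_univ_two, Matrix.sub_apply,
      Matrix.smul_apply, smul_eq_mul, Matrix.one_apply_eq, Matrix.trace_fin_two]
    linear_combination -hd
  · simp only [Fin.zero_eta, Fin.isValue, Matrix.mul_apply, Fin.sum_univ_two, Matrix.sub_apply,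
      Matrix.smul_apply, smul_eq_mul, Matrix.trace_fin_two, Fin.mk_one, ne_eq, zero_ne_one,
      not_false_eq_true, Matrix.one_apply_ne, sub_zero]
    ring
  · simp only [Fin.zero_eta, Fin.isValue, Matrix.mul_apply, Fin.sum_univ_two, Matrix.sub_apply,
      Matrix.smul_apply, smul_eq_mul, Matrix.trace_fin_two, Fin.mk_one, ne_eq, one_ne_zero,
      not_false_eq_true, Matrix.one_apply_ne, sub_zero]
    ring
  · simp only [Fin.isValue, Matrix.mul_apply, Fin.sum_univ_two, Matrix.sub_apply,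
      Matrix.smul_apply, smul_eq_mul, Matrix.one_apply_eq, Matrix.trace_fin_two, Fin.mk_one]
    linear_combination -hd

lemma trace_rec (h : SLZ) (n : ℕ) :
    (h ^ (n + 2)).val.trace = h.val.trace * (h ^ (n + 1)).val.trace - (h ^ n).val.trace := by
  have e1 : (h ^ (n + 2)).val = h.val ^ n * (h.val * h.val) := by
    rw [vz_pow, pow_add, pow_two]
  have e2 : (h ^ (n + 1)).val = h.val ^ n * h.val := by
    rw [vz_pow, pow_succ]
  rw [e1, cayley, e2, Matrix.mul_sub, Matrix.mul_one, Matrix.trace_sub, Matrix.mul_smul,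
    Matrix.trace_smul, vz_pow, smul_eq_mul]

lemma trace_big (h : SLZ) (ht : 2 < |h.val.trace|) (n : ℕ) :
    2 ≤ |(h ^ n).val.trace| ∧ |(h ^ n).val.trace| < |(h ^ (n + 1)).val.trace| := by
  induction n with
  | zero =>
    have : (h ^ 0).val.trace = 2 := by
      simp [Matrix.trace_fin_two]
    rw [this]
    refine ⟨by norm_num, ?_⟩
    simpa using ht
  | succ n ih =>
    refine ⟨by omega, ?_⟩
    rw [trace_rec]
    have h1 := abs_sub_abs_le_abs_sub (h.val.trace * (h ^ (n + 1)).val.trace) ((h ^ n).val.trace)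
    rw [abs_mul] at h1
    nlinarith [abs_nonneg ((h ^ (n + 1)).val.trace), abs_nonneg ((h ^ n).val.trace)]

lemma trace_pow_big (h : SLZ) (ht : 2 < |h.val.trace|) (n : ℕ) (hn : 0 < n) :
    2 < |(h ^ n).val.trace| := by
  obtain ⟨m, rfl⟩ : ∃ m, n = m + 1 := ⟨n - 1, by omega⟩
  have := trace_big h ht m
  omega

lemma pow_ne_one (h : SLZ) (ht : 2 < |h.val.trace|) (n : ℕ) (hn : 0 < n) : h ^ n ≠ 1 := by
  intro h1
  have h2 := trace_pow_big h ht n hn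
  rw [h1] at h2
  simp at h2

lemma iZQ_inj : Function.Injective iZQ := by
  intro x y h
  have h1 := congrArg Subtype.val h
  ext i j
  have h2 := congrFun (congrFun h1 i) j
  simpa [iZQ] using h2

lemma trace_iZQ (h : SLZ) : (iZQ h).val.trace = ((h.val.trace : ℤ) : ℚ) := by
  simp [iZQ, Matrix.trace_fin_two]

lemma rQ_mul (g k : SLQ) : rQ (g * k) = rQ g * rQ k := by
  unfold rQ
  rw [vq_mul]
  ext i j
  simp [Matrix.mul_apply]

lemma rQ_one : rQ 1 = 1 := by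
  unfold rQ
  ext i j
  by_cases h : i = j
  · subst h; simp
  · simp [h]

lemma rQ_iZQ (h : SLZ) : rQ (iZQ h) = rZ h := by
  unfold rQ rZ
  ext i j
  simp [iZQ]

lemma rQ_pow_eig (k : SLQ) (v : Fin 2 → ℝ) (l : ℝ) (h : rQ k *ᵥ v = l • v) (n : ℕ) :
    rQ (k ^ n) *ᵥ v = l ^ n • v := by
  induction n with
  | zero => simp [rQ_one]
  | succ n ih => rw [pow_succ', rQ_mul, ← mulVec_mulVec, ih, mulVec_smul, h, smul_smul, pow_succ]

lemma rQ_inv_mul (g : SLQ) : rQ g⁻¹ * rQ g = 1 := by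
  rw [← rQ_mul, inv_mul_cancel, rQ_one]

theorem stFG_of (h1 : StExit) (h2 : StLim) (h3 : StCross) (h4 : StNoLine) (h5 : StHyp)
    (h6 : StDisc) (h7 : StFinK) (h8 : StPow) (h9 : StBdd) (h10 : StEig) : StFG := by
  intro Γ hNC hNF hIrr p hp hunb hinf hfg
  by_contra hfi
  obtain ⟨Y, E, hE⟩ := h1 _ hfg hfi
  have hNL := h4 Γ hNF hIrr
  obtain ⟨h, hh, hht⟩ := h5 Γ hNL hinf
  have hhΓ : iZQ h ∈ Γ := hh
  set t : ℤ := h.val.trace with ht
  let K : Set SLQ := {k | ∃ γ ∈ Γ, k = γ * iZQ h * γ⁻¹}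
  have hKtr : ∀ k ∈ K, k.val.trace = (t : ℚ) := by
    rintro k ⟨γ, -, rfl⟩
    rw [vq_mul, Matrix.trace_mul_comm, ← vq_mul,
      ← mul_assoc, inv_mul_cancel, one_mul, trace_iZQ]
  have hKΓ : K ⊆ Γ := by
    rintro k ⟨γ, hγ, rfl⟩
    exact Γ.mul_mem (Γ.mul_mem hγ hhΓ) (Γ.inv_mem hγ)
  have hKconj : ∀ k ∈ K, ∀ δ ∈ Γ, δ * k * δ⁻¹ ∈ K := by
    rintro k ⟨γ, hγ, rfl⟩ δ hδ
    exact ⟨δ * γ, Γ.mul_mem hδ hγ, by group⟩
  have hKpow : ∀ k ∈ K, ∃ n : ℕ, 0 < n ∧ k ^ n ∈ iZQ.range := by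
    rintro k ⟨γ, hγ, rfl⟩
    obtain ⟨n, hn, hr⟩ := h8 γ h
    refine ⟨n, hn, ?_⟩
    rw [conj_pow]
    exact hr
  have hKne : ∀ k ∈ K, ∀ n : ℕ, 0 < n → k ^ n ≠ 1 := by
    rintro k ⟨γ, hγ, rfl⟩ n hn h1
    rw [conj_pow] at h1
    have h2 : iZQ h ^ n = 1 := by
      have : iZQ h ^ n = γ⁻¹ * (γ * iZQ h ^ n * γ⁻¹) * γ := by group
      rw [this, h1]
      group
    rw [← map_pow] at h2
    exact pow_ne_one h hht n hn (iZQ_inj (by rw [h2, map_one]))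
  have hKex : ∀ k ∈ K, ∀ (v : Fin 2 → ℝ) (l : ℝ), v ≠ 0 → rQ k *ᵥ v = l • v →
      ∀ x ∈ E, x * sM ∉ E → 0 ≤ pr x v := by
    intro k hk v l hv hkv x hx hxs
    obtain ⟨n, hn, k', hk'⟩ := hKpow k hk
    have hk'H : k' ∈ Γ.comap iZQ := by
      rw [Subgroup.mem_comap, hk']
      exact Γ.pow_mem (hKΓ hk) n
    refine h2 _ Y E hE x hx hxs k' hk'H ?_ v (l ^ n) hv ?_
    · intro m hm hm1
      apply hKne k hk (n * m) (Nat.mul_pos hn hm)
      rw [pow_mul, ← hk', ← map_pow, hm1, map_one]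
    · rw [← rQ_iZQ, hk']
      exact rQ_pow_eig k v l hkv n
  have hDisc : Discr Γ := by
    refine h6 Γ hNL {v | v ≠ 0 ∧ ∃ k ∈ K, ∃ l : ℝ, rQ k *ᵥ v = l • v} ?_ ?_ ?_ ?_
    · obtain ⟨v, v', l, l', hv, -, hd, -⟩ := h10 (iZQ h) t (trace_iZQ h) hht
      refine ⟨v, ?_, iZQ h, ⟨1, Γ.one_mem, by group⟩, l, hv⟩
      rintro rfl
      apply hd
      simp [dt]
    · exact fun v hv => hv.1
    · rintro γ hγ v ⟨hv, k, hk, l, hkv⟩
      refine ⟨?_, γ * k * γ⁻¹, hKconj k hk γ hγ, l, ?_⟩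
      · intro h0
        apply hv
        have : rQ γ⁻¹ *ᵥ (rQ γ *ᵥ v) = v := by
          rw [mulVec_mulVec, rQ_inv_mul, one_mulVec]
        rw [← this, h0, mulVec_zero]
      · rw [rQ_mul, rQ_mul, ← mulVec_mulVec, ← mulVec_mulVec,
          mulVec_mulVec (M := rQ γ⁻¹), rQ_inv_mul, one_mulVec, hkv, mulVec_smul]
    · obtain ⟨x, hx, hxs⟩ := hE.2.2.2.2.1
      exact ⟨x, fun v ⟨hv, k, hk, l, hkv⟩ => hKex k hk v l hv hkv x hx hxs⟩
  have hfin : ∀ y ∈ E, {k : SLQ | k ∈ K ∧ 0 < ((iZQ y)⁻¹ * k * iZQ y) 0 1 *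
      ((iZQ y)⁻¹ * k * iZQ y) 1 0}.Finite := by
    refine h7 Γ Y E hE hDisc (t : ℚ) ?_ K hKΓ hKtr hKex
    exact_mod_cast hht
  have hYE : ∀ y ∈ Y, y ∈ E := by
    intro y hy
    rw [hE.1]
    exact ⟨1, (Γ.comap iZQ).one_mem, y, hy, by group⟩
  let F : Set SLQ := ⋃ y ∈ Y, {k : SLQ | k ∈ K ∧ 0 < ((iZQ y)⁻¹ * k * iZQ y) 0 1 *
      ((iZQ y)⁻¹ * k * iZQ y) 1 0}
  have hF : F.Finite := Set.Finite.biUnion Y.finite_toSet fun y hy => hfin y (hYE y hy)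
  have hFK : F ⊆ K := by
    intro k hk
    simp only [F, Set.mem_iUnion] at hk
    obtain ⟨y, -, hk, -⟩ := hk
    exact hk
  choose! N hN0 hN using hKpow
  let n : ℕ := ∏ κ ∈ hF.toFinset, N κ
  have hn0 : 0 < n := by
    refine Finset.prod_pos fun κ hκ => hN0 κ (hFK ?_)
    exact hF.mem_toFinset.mp hκ
  have hall : ∀ k ∈ K, k ^ n ∈ iZQ.range := by
    intro k hk
    obtain ⟨v, v', l, l', hv, hv', hd, hpv, hpv', hsg⟩ := h10 k t (hKtr k hk) hht
    have hv0 : v ≠ 0 := by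
      rintro rfl; apply hd; simp [dt]
    have hv0' : v' ≠ 0 := by
      rintro rfl; apply hd; simp [dt]
    obtain ⟨x, hx, hxp⟩ := h3 _ Y E hE v v' hd hpv hpv' (hKex k hk v l hv0 hv)
      (hKex k hk v' l' hv0' hv')
    obtain ⟨h', hh', y, hy, rfl⟩ := (hE.1 x).mp hx
    have hpos := hsg _ hxp
    set κ : SLQ := (iZQ h')⁻¹ * k * iZQ h' with hκ
    have hκK : κ ∈ K := by
      have := hKconj k hk (iZQ h')⁻¹ (Γ.inv_mem hh')
      rw [inv_inv] at this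
      exact this
    have hκF : κ ∈ F := by
      simp only [F, Set.mem_iUnion]
      refine ⟨y, hy, hκK, ?_⟩
      have e : (iZQ y)⁻¹ * κ * iZQ y = (iZQ (h' * y))⁻¹ * k * iZQ (h' * y) := by
        rw [hκ, map_mul]
        group
      rw [e]
      exact hpos
    have hdvd : N κ ∣ n := Finset.dvd_prod_of_mem N (hF.mem_toFinset.mpr hκF)
    obtain ⟨m, hm⟩ := hdvd
    have h4 : κ ^ n ∈ iZQ.range := by
      rw [hm, pow_mul]
      exact Subgroup.pow_mem _ (hN κ hκK) m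
    have h5 : k ^ n = iZQ h' * κ ^ n * (iZQ h')⁻¹ := by
      rw [← conj_pow, hκ]
      group
    rw [h5]
    exact Subgroup.mul_mem _ (Subgroup.mul_mem _ ⟨h', rfl⟩ h4) (Subgroup.inv_mem _ ⟨h', rfl⟩)
  refine h9 Γ hNC hNF hIrr p hp hunb (iZQ h ^ n) (Γ.pow_mem hhΓ n) ?_ ?_
  · rw [← map_pow, trace_iZQ]
    have := trace_pow_big h hht n hn0
    exact_mod_cast this
  · intro γ hγ
    have := hall (γ * iZQ h * γ⁻¹) ⟨γ, hγ, rfl⟩
    rw [conj_pow] at this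
    exact this

end Pool.Agent.Lib.MP_c356f3_al.AsmX
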