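import Pool.Agent.Lib.MP_c356f3_al.Stmts

/-!
Springer's property (U), module D: Burnside's theorem in dimension two.
-/

set_option autoImplicit false

namespace Pool.Agent.Lib.MP_c356f3_al

open Matrix

universe u

namespace BasisAux

/-- two vectors of the plane with vanishing determinant are parallel -/
lemma parallel_of_det {x u : Fin 2 → ℂ} (hu : u ≠ 0) (h : x 0 * u 1 = x 1 * u 0) :
    ∃ c : ℂ, x = c • u := by
  by_cases h0 : u 0 = 0
  · have h1 : u 1 ≠ 0 := by
      intro h1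
      apply hu
      ext i
      fin_cases i
      · exact h0
      · exact h1
    refine ⟨x 1 / u 1, ?_⟩
    ext i
    fin_cases i
    · have h2 : x 0 = 0 := by
        rw [h0, mul_zero] at h
        exact (mul_eq_zero.mp h).resolve_right h1
      simp [h0, h2]
    · simp [h1]
  · refine ⟨x 0 / u 0, ?_⟩
    ext i
    fin_cases i
    · simp [h0]
    · simp only [Pi.smul_apply, smul_eq_mul, Fin.mk_one, Fin.isValue]
      field_simp
      linear_combination -h

/-- the kernel of a nonzero matrix is at most a line -/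
lemma parallel_of_ker {J : Matrix (Fin 2) (Fin 2) ℂ} (hJ : J ≠ 0) {x u : Fin 2 → ℂ}
    (hu : u ≠ 0) (hx : J *ᵥ x = 0) (hJu : J *ᵥ u = 0) : ∃ c : ℂ, x = c • u := by
  refine parallel_of_det hu ?_
  by_contra hne
  apply hJ
  have hδ : x 0 * u 1 - x 1 * u 0 ≠ 0 := sub_ne_zero.mpr hne
  have hx' : ∀ i, J i 0 * x 0 + J i 1 * x 1 = 0 := by
    intro i
    have := congrFun hx i
    simpa [Matrix.mulVec, dotProduct, Fin.sum_univ_two] using this
  have hu' : ∀ i, J i 0 * u 0 + J i 1 * u 1 = 0 := by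
    intro i
    have := congrFun hJu i
    simpa [Matrix.mulVec, dotProduct, Fin.sum_univ_two] using this
  ext i j
  have h0 : J i 0 * (x 0 * u 1 - x 1 * u 0) = 0 := by
    linear_combination u 1 * hx' i - x 1 * hu' i
  have h1 : J i 1 * (x 0 * u 1 - x 1 * u 0) = 0 := by
    linear_combination x 0 * hu' i - u 0 * hx' i
  fin_cases j
  · exact (mul_eq_zero.mp h0).resolve_right hδ
  · exact (mul_eq_zero.mp h1).resolve_right hδ

lemma exists_eig (A : Matrix (Fin 2) (Fin 2) ℂ) :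
    ∃ (v : Fin 2 → ℂ) (a : ℂ), v ≠ 0 ∧ A *ᵥ v = a • v := by
  obtain ⟨a, ha⟩ := Module.End.exists_eigenvalue (Matrix.toLin' A)
  obtain ⟨v, hv⟩ := ha.exists_hasEigenvector
  refine ⟨v, a, hv.2, ?_⟩
  have := hv.apply_eq_smul
  rwa [Matrix.toLin'_apply] at this

/-- a singular commutator gives a common eigenvector -/
lemma common_eig (A B : Matrix (Fin 2) (Fin 2) ℂ) (hd : (A * B - B * A).det = 0) :
    ∃ u : Fin 2 → ℂ, u ≠ 0 ∧ (∃ a : ℂ, A *ᵥ u = a • u) ∧ ∃ b : ℂ, B *ᵥ u = b • u := by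
  by_cases hJ : A * B - B * A = 0
  · by_cases hs : ∃ c : ℂ, A - c • (1 : Matrix (Fin 2) (Fin 2) ℂ) = 0
    · obtain ⟨c, hc⟩ := hs
      obtain ⟨v, b, hv, hb⟩ := exists_eig B
      refine ⟨v, hv, ⟨c, ?_⟩, ⟨b, hb⟩⟩
      rw [sub_eq_zero.mp hc, Matrix.smul_mulVec, Matrix.one_mulVec]
    · push Not at hs
      obtain ⟨v, a, hv, ha⟩ := exists_eig A
      refine ⟨v, hv, ⟨a, ha⟩, ?_⟩
      refine parallel_of_ker (hs a) hv ?_ ?_
      · rw [Matrix.sub_mulVec, Matrix.mulVec_mulVec, sub_eq_zero.mp hJ, ← Matrix.mulVec_mulVec,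
          ha, Matrix.smul_mulVec, Matrix.one_mulVec, Matrix.mulVec_smul, sub_self]
      · rw [Matrix.sub_mulVec, ha, Matrix.smul_mulVec, Matrix.one_mulVec, sub_self]
  · obtain ⟨u, hu, hJu⟩ := Matrix.exists_mulVec_eq_zero_iff.mpr hd
    have hA : (A * B - B * A) * A = A.trace • (A * B - B * A) - A * (A * B - B * A) := by
      ext i j
      fin_cases i <;> fin_cases j <;>
        simp [Matrix.mul_apply, Fin.sum_univ_two, Matrix.trace_fin_two] <;> ring
    have hB : (A * B - B * A) * B = B.trace • (A * B - B * A) - B * (A * B - B * A) := by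
      ext i j
      fin_cases i <;> fin_cases j <;>
        simp [Matrix.mul_apply, Fin.sum_univ_two, Matrix.trace_fin_two] <;> ring
    refine ⟨u, hu, parallel_of_ker hJ hu ?_ hJu, parallel_of_ker hJ hu ?_ hJu⟩
    · rw [Matrix.mulVec_mulVec, hA, Matrix.sub_mulVec, Matrix.smul_mulVec,
        ← Matrix.mulVec_mulVec u A, hJu, smul_zero, Matrix.mulVec_zero, sub_self]
    · rw [Matrix.mulVec_mulVec, hB, Matrix.sub_mulVec, Matrix.smul_mulVec,
        ← Matrix.mulVec_mulVec u B, hJu, smul_zero, Matrix.mulVec_zero, sub_self]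

lemma eig_root {A : Matrix (Fin 2) (Fin 2) ℂ} {v : Fin 2 → ℂ} {a : ℂ} (hv : v ≠ 0)
    (ha : A *ᵥ v = a • v) : a ^ 2 - A.trace * a + A.det = 0 := by
  have h1 : (A - a • (1 : Matrix (Fin 2) (Fin 2) ℂ)).det = 0 := by
    refine Matrix.exists_mulVec_eq_zero_iff.mp ⟨v, hv, ?_⟩
    rw [Matrix.sub_mulVec, ha, Matrix.smul_mulVec, Matrix.one_mulVec, sub_self]
  rw [Matrix.det_fin_two] at h1
  simp only [Matrix.sub_apply, Matrix.smul_apply, Matrix.one_apply, smul_eq_mul] at h1
  simp only [Fin.isValue, ↓reduceIte, mul_one, one_ne_zero, zero_ne_one, mul_zero, sub_zero] at h1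
  rw [Matrix.trace_fin_two, Matrix.det_fin_two]
  linear_combination h1

/-- a matrix which is not scalar has at most two eigenlines -/
lemma two_lines {A : Matrix (Fin 2) (Fin 2) ℂ}
    (hA : ∀ c : ℂ, A - c • (1 : Matrix (Fin 2) (Fin 2) ℂ) ≠ 0) :
    ∃ v w : Fin 2 → ℂ, v ≠ 0 ∧ w ≠ 0 ∧ ∀ (u : Fin 2 → ℂ) (a : ℂ), u ≠ 0 → A *ᵥ u = a • u →
      (∃ c : ℂ, u = c • v) ∨ ∃ c : ℂ, u = c • w := by
  obtain ⟨v, a, hv, ha⟩ := exists_eig A
  have hsame : ∀ (x y : Fin 2 → ℂ) (c : ℂ), y ≠ 0 → A *ᵥ x = c • x → A *ᵥ y = c • y →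
      ∃ d : ℂ, x = d • y := by
    intro x y c hy hx hy'
    refine parallel_of_ker (hA c) hy ?_ ?_
    · rw [Matrix.sub_mulVec, hx, Matrix.smul_mulVec, Matrix.one_mulVec, sub_self]
    · rw [Matrix.sub_mulVec, hy', Matrix.smul_mulVec, Matrix.one_mulVec, sub_self]
  by_cases hex : ∃ (w : Fin 2 → ℂ) (b : ℂ), w ≠ 0 ∧ A *ᵥ w = b • w ∧ ¬ ∃ c : ℂ, w = c • v
  · obtain ⟨w, b, hw, hb, hnp⟩ := hex
    refine ⟨v, w, hv, hw, ?_⟩
    intro u e hu he
    have hab : a ≠ b := by
      rintro rfl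
      exact hnp (hsame w v a hv hb ha)
    by_cases hea : e = a
    · subst hea
      exact Or.inl (hsame u v e hv he ha)
    · right
      have h1 := eig_root hv ha
      have h2 := eig_root hw hb
      have h3 := eig_root hu he
      have h4 : (a - b) * (a + b - A.trace) = 0 := by linear_combination h1 - h2
      have h5 : (e - a) * (e + a - A.trace) = 0 := by linear_combination h3 - h1
      have h6 := (mul_eq_zero.mp h4).resolve_left (sub_ne_zero.mpr hab)
      have h7 := (mul_eq_zero.mp h5).resolve_left (sub_ne_zero.mpr hea)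
      have h8 : e = b := by linear_combination h7 - h6
      subst h8
      exact hsame u w e hw he hb
  · push Not at hex
    refine ⟨v, v, hv, hv, ?_⟩
    intro u e hu he
    exact Or.inl (hex u e hu he)

/-- the stabiliser of the line through `v` -/
def lineStab {G : Type u} [Group G] (ρ : G →* GL (Fin 2) ℂ) (v : Fin 2 → ℂ) : Subgroup G where
  carrier := {g | ∃ c : ℂ, (ρ g).val *ᵥ v = c • v}
  one_mem' := ⟨1, by simp⟩
  mul_mem' := by
    rintro g h ⟨c, hc⟩ ⟨d, hd⟩
    refine ⟨d * c, ?_⟩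
    rw [map_mul, Units.val_mul, ← Matrix.mulVec_mulVec, hd, Matrix.mulVec_smul, hc, smul_smul]
  inv_mem' := by
    rintro g ⟨c, hc⟩
    have h1 : (ρ g⁻¹).val *ᵥ ((ρ g).val *ᵥ v) = v := by
      rw [Matrix.mulVec_mulVec, ← Units.val_mul, ← map_mul, inv_mul_cancel, map_one, Units.val_one,
        Matrix.one_mulVec]
    by_cases hc0 : c = 0
    · rw [hc, hc0, zero_smul, Matrix.mulVec_zero] at h1
      exact ⟨0, by rw [← h1, Matrix.mulVec_zero, smul_zero]⟩
    · refine ⟨c⁻¹, ?_⟩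
      rw [hc, Matrix.mulVec_smul] at h1
      rw [eq_inv_smul_iff₀ hc0]
      exact h1

lemma mem_lineStab {G : Type u} [Group G] {ρ : G →* GL (Fin 2) ℂ} {v : Fin 2 → ℂ} {g : G} :
    g ∈ lineStab ρ v ↔ ∃ c : ℂ, (ρ g).val *ᵥ v = c • v := Iff.rfl

lemma lineStab_ne_top {G : Type u} [Group G] {ρ : G →* GL (Fin 2) ℂ} (hρ : Irr ρ)
    {v : Fin 2 → ℂ} (hv : v ≠ 0) : ∃ g, g ∉ lineStab ρ v := by
  by_contra hcon
  push Not at hcon
  rcases hρ.2 (Submodule.span ℂ {v}) (by
    intro g x hx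
    obtain ⟨d, rfl⟩ := Submodule.mem_span_singleton.mp hx
    obtain ⟨c, hc⟩ := hcon g
    have h1 : ((ρ g : Matrix (Fin 2) (Fin 2) ℂ)) *ᵥ (d • v) = (d * c) • v := by
      rw [Matrix.mulVec_smul, mul_smul]
      exact congrArg _ hc
    rw [h1]
    exact Submodule.smul_mem _ _ (Submodule.mem_span_singleton_self v)) with h | h
  · exact hv ((Submodule.span_singleton_eq_bot).mp h)
  · have h1 : Module.finrank ℂ (Submodule.span ℂ {v}) ≤ 1 := by
      refine (finrank_span_le_card _).trans ?_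
      simp
    rw [h, finrank_top] at h1
    simp at h1

lemma linInd_of_det (A B : Matrix (Fin 2) (Fin 2) ℂ) (hd : (A * B - B * A).det ≠ 0) :
    LinearIndependent ℂ ![(1 : Matrix (Fin 2) (Fin 2) ℂ), A, B, A * B] := by
  rw [Fintype.linearIndependent_iff]
  intro c hc
  simp only [Fin.sum_univ_four, Matrix.cons_val_zero, Matrix.cons_val_one, Matrix.cons_val_two,
    Matrix.cons_val_three, Matrix.head_cons, Matrix.tail_cons] at hc
  have e : ∀ i j, c 0 * (1 : Matrix (Fin 2) (Fin 2) ℂ) i j + c 1 * A i j + c 2 * B i j +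
      c 3 * (A * B) i j = 0 := by
    intro i j
    have := congrFun (congrFun hc i) j
    simpa using this
  have e00 := e 0 0
  have e01 := e 0 1
  have e10 := e 1 0
  have e11 := e 1 1
  simp only [Matrix.mul_apply, Fin.sum_univ_two, Matrix.one_apply_eq, Matrix.one_apply, Fin.isValue, ↓reduceIte, zero_ne_one, one_ne_zero, mul_zero, mul_one,
    zero_add] at e00 e01 e10 e11
  -- the matrix of coefficients
  set N : Matrix (Fin 4) (Fin 4) ℂ := !![1, A 0 0, B 0 0, A 0 0 * B 0 0 + A 0 1 * B 1 0;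
    0, A 0 1, B 0 1, A 0 0 * B 0 1 + A 0 1 * B 1 1;
    0, A 1 0, B 1 0, A 1 0 * B 0 0 + A 1 1 * B 1 0;
    1, A 1 1, B 1 1, A 1 0 * B 0 1 + A 1 1 * B 1 1] with hN
  have hNc : N *ᵥ c = 0 := by
    ext i
    fin_cases i
    · simp [hN, Matrix.mulVec, dotProduct, Fin.sum_univ_four]
      linear_combination e00
    · simp [hN, Matrix.mulVec, dotProduct, Fin.sum_univ_four]
      linear_combination e01
    · simp [hN, Matrix.mulVec, dotProduct, Fin.sum_univ_four]
      linear_combination e10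
    · simp [hN, Matrix.mulVec, dotProduct, Fin.sum_univ_four]
      linear_combination e11
  have hdet : N.det = (A * B - B * A).det := by
    rw [hN, Matrix.det_succ_row_zero]
    simp [Fin.sum_univ_succ, Matrix.det_fin_three, Matrix.det_fin_two, Matrix.mul_apply,
      Fin.succAbove, Matrix.submatrix]
    ring
  have hc0 : c = 0 := by
    by_contra hne
    exact hd (hdet ▸ Matrix.exists_mulVec_eq_zero_iff.mp ⟨c, hne, hNc⟩)
  intro i
  rw [hc0]
  rfl

end BasisAux

open BasisAux in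
theorem stBasis (_hC : StSchur.{u}) : StBasis.{u} := by
  intro G _ ρ hρ
  by_cases hex : ∃ g h : G, ((ρ g).val * (ρ h).val - (ρ h).val * (ρ g).val).det ≠ 0
  · obtain ⟨g, h, hd⟩ := hex
    refine ⟨g, h, ?_⟩
    rw [map_mul, Units.val_mul]
    exact linInd_of_det _ _ hd
  · push Not at hex
    exfalso
    -- a non scalar element
    have hns : ∃ g : G, ∀ c : ℂ, (ρ g).val - c • (1 : Matrix (Fin 2) (Fin 2) ℂ) ≠ 0 := by
      by_contra hcon
      push Not at hcon
      have hv : (![1, 0] : Fin 2 → ℂ) ≠ 0 := by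
        intro h
        have := congrFun h 0
        simp at this
      obtain ⟨g, hg⟩ := lineStab_ne_top hρ hv
      obtain ⟨c, hc⟩ := hcon g
      refine hg ⟨c, ?_⟩
      rw [sub_eq_zero.mp hc, Matrix.smul_mulVec, Matrix.one_mulVec]
    obtain ⟨g₀, hg₀⟩ := hns
    obtain ⟨v, w, hv, hw, hvw⟩ := two_lines hg₀
    have hcover : ∀ h : G, h ∈ lineStab ρ v ∨ h ∈ lineStab ρ w := by
      intro h
      obtain ⟨u, hu, ⟨a, ha⟩, b, hb⟩ := common_eig _ _ (hex g₀ h)
      rcases hvw u a hu ha with ⟨c, rfl⟩ | ⟨c, rfl⟩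
      · left
        have hc0 : c ≠ 0 := by
          rintro rfl
          exact hu (zero_smul _ _)
        refine ⟨b, ?_⟩
        rw [Matrix.mulVec_smul, smul_comm] at hb
        exact smul_right_injective _ hc0 hb
      · right
        have hc0 : c ≠ 0 := by
          rintro rfl
          exact hu (zero_smul _ _)
        refine ⟨b, ?_⟩
        rw [Matrix.mulVec_smul, smul_comm] at hb
        exact smul_right_injective _ hc0 hb
    obtain ⟨h₁, hh₁⟩ := lineStab_ne_top hρ hv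
    obtain ⟨h₂, hh₂⟩ := lineStab_ne_top hρ hw
    have hh₁' : h₁ ∈ lineStab ρ w := (hcover h₁).resolve_left hh₁
    have hh₂' : h₂ ∈ lineStab ρ v := (hcover h₂).resolve_right hh₂
    rcases hcover (h₁ * h₂) with h | h
    · exact hh₁ ((Subgroup.mul_mem_cancel_right _ hh₂').mp h)
    · exact hh₂ ((Subgroup.mul_mem_cancel_left _ hh₁').mp h)

end Pool.Agent.Lib.MP_c356f3_al
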