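import Pool.Agent.Lib.MP_c356f3_al.Stmts

/-!
Schur's lemma.
-/

namespace Pool.Agent.Lib.MP_c356f3_al

open Matrix

universe u

theorem stSchur : StSchur.{u} := by
  intro G _ n ρ hρ X hX
  obtain ⟨hn, hW⟩ := hρ
  haveI : Nonempty (Fin n) := ⟨⟨0, hn⟩⟩
  obtain ⟨c, hc⟩ := Module.End.exists_eigenvalue (K := ℂ) (V := Fin n → ℂ) (Matrix.toLin' X)
  refine ⟨c, ?_⟩
  have hinv := hW (Module.End.eigenspace (Matrix.toLin' X) c) (by
    intro g v hv
    rw [Module.End.mem_eigenspace_iff] at hv ⊢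
    rw [Matrix.toLin'_apply] at hv ⊢
    rw [Matrix.mulVec_mulVec, hX g, ← Matrix.mulVec_mulVec, hv, Matrix.mulVec_smul])
  have htop : Module.End.eigenspace (Matrix.toLin' X) c = ⊤ := hinv.resolve_left hc
  have hall : ∀ v : Fin n → ℂ, X *ᵥ v = c • v := by
    intro v
    have hv : v ∈ Module.End.eigenspace (Matrix.toLin' X) c := by rw [htop]; trivial
    rw [Module.End.mem_eigenspace_iff, Matrix.toLin'_apply] at hv
    exact hv
  apply (Matrix.toLin' (R := ℂ) (m := Fin n) (n := Fin n)).injective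
  ext1 i
  ext1
  simp only [LinearMap.comp_apply, Matrix.toLin'_apply, hall, Matrix.smul_mulVec,
    Matrix.one_mulVec]

end Pool.Agent.Lib.MP_c356f3_al
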