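import Pool.Agent.Lib.MP_c356f3_al.StmtsX
import Pool.Agent.Lib.MP_c356f3_al.Basis
import Pool.Agent.Lib.MP_c356f3_al.Schur

/-!
Springer's property (U), module X9: the conjugates of a hyperbolic element are not all integral if
some trace is not `p`-integral.
-/

set_option autoImplicit false

namespace Pool.Agent.Lib.MP_c356f3_al

open Matrix

namespace BddAux

lemma par_trans {x y z : Fin 2 → ℂ} (hy0 : y ≠ 0) (hx : ∃ a : ℂ, x = a • z)
    (hy : ∃ b : ℂ, y = b • z) : ∃ c : ℂ, x = c • y := by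
  obtain ⟨a, rfl⟩ := hx
  obtain ⟨b, rfl⟩ := hy
  have hb : b ≠ 0 := by
    rintro rfl
    exact hy0 (zero_smul _ _)
  exact ⟨a * b⁻¹, by rw [smul_smul, mul_assoc, inv_mul_cancel₀ hb, mul_one]⟩

lemma mulVec_ne_zero {G : Type} [Group G] (ρ : G →* GL (Fin 2) ℂ) (g : G) {u : Fin 2 → ℂ}
    (hu : u ≠ 0) : (ρ g).val *ᵥ u ≠ 0 := by
  intro h
  apply hu
  have h1 : (ρ g⁻¹).val *ᵥ ((ρ g).val *ᵥ u) = u := by
    rw [Matrix.mulVec_mulVec, ← Units.val_mul, ← map_mul, inv_mul_cancel, map_one, Units.val_one,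
      Matrix.one_mulVec]
  rw [← h1, h, Matrix.mulVec_zero]

/-- a normal subgroup with a non scalar element is irreducible -/
lemma irr_normal {G : Type} [Group G] (hN : NoFin G) {ρ : G →* GL (Fin 2) ℂ} (hρ : Irr ρ)
    (N : Subgroup G) (hn : N.Normal) (k : G) (hk : k ∈ N)
    (hks : ∀ c : ℂ, (ρ k).val - c • (1 : Matrix (Fin 2) (Fin 2) ℂ) ≠ 0) :
    Irr (ρ.comp N.subtype) := by
  refine ⟨two_pos, ?_⟩
  intro W hW
  by_contra hcon
  push Not at hcon
  obtain ⟨hb, ht⟩ := hcon
  obtain ⟨u, huW, hu⟩ := W.ne_bot_iff.mp hb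
  have hpar : ∀ x ∈ W, ∃ c : ℂ, x = c • u := by
    intro x hx
    refine BasisAux.parallel_of_det hu ?_
    by_contra hne
    apply ht
    have hδ : x 0 * u 1 - x 1 * u 0 ≠ 0 := sub_ne_zero.mpr hne
    rw [Submodule.eq_top_iff']
    intro y
    have hy : y = ((y 0 * u 1 - y 1 * u 0) / (x 0 * u 1 - x 1 * u 0)) • x +
        ((x 0 * y 1 - x 1 * y 0) / (x 0 * u 1 - x 1 * u 0)) • u := by
      ext i
      fin_cases i
      · simp only [Fin.zero_eta, Fin.isValue, Pi.add_apply, Pi.smul_apply, smul_eq_mul]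
        rw [div_mul_eq_mul_div, div_mul_eq_mul_div, ← add_div, eq_div_iff hδ]
        ring
      · simp only [Fin.mk_one, Fin.isValue, Pi.add_apply, Pi.smul_apply, smul_eq_mul]
        rw [div_mul_eq_mul_div, div_mul_eq_mul_div, ← add_div, eq_div_iff hδ]
        ring
    rw [hy]
    exact W.add_mem (W.smul_mem _ hx) (W.smul_mem _ huW)
  have hNu : ∀ n ∈ N, ∃ c : ℂ, (ρ n).val *ᵥ u = c • u := by
    intro n hn'
    exact hpar _ (hW ⟨n, hn'⟩ u huW)
  -- all translates are eigenvectors of `k`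
  have heig : ∀ g : G, ∃ a : ℂ, (ρ k).val *ᵥ ((ρ g).val *ᵥ u) = a • ((ρ g).val *ᵥ u) := by
    intro g
    obtain ⟨c, hc⟩ := hNu (g⁻¹ * k * g) (by simpa using hn.conj_mem k hk g⁻¹)
    refine ⟨c, ?_⟩
    rw [Matrix.mulVec_mulVec, ← Units.val_mul, ← map_mul]
    have e : k * g = g * (g⁻¹ * k * g) := by group
    rw [e, map_mul, Units.val_mul, ← Matrix.mulVec_mulVec, hc, Matrix.mulVec_smul]
  obtain ⟨v, w, hv, hw, hvw⟩ := BasisAux.two_lines hks
  obtain ⟨γ, hγ⟩ := BasisAux.lineStab_ne_top hρ hu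
  have hcase : ∀ g : G, (∃ c : ℂ, (ρ g).val *ᵥ u = c • v) ∨ ∃ c : ℂ, (ρ g).val *ᵥ u = c • w := by
    intro g
    obtain ⟨a, ha⟩ := heig g
    exact hvw _ a (mulVec_ne_zero ρ g hu) ha
  have h1 : (ρ 1).val *ᵥ u = u := by simp
  have hinv : ∀ g h : G, (∃ c : ℂ, (ρ g).val *ᵥ u = c • ((ρ h).val *ᵥ u)) →
      h⁻¹ * g ∈ BasisAux.lineStab ρ u := by
    rintro g h ⟨c, hc⟩
    refine ⟨c, ?_⟩
    rw [map_mul, Units.val_mul, ← Matrix.mulVec_mulVec, hc, Matrix.mulVec_smul,
      Matrix.mulVec_mulVec, ← Units.val_mul, ← map_mul, inv_mul_cancel, h1]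
  have hcover : ∀ b : G, b ∈ BasisAux.lineStab ρ u ∨ γ⁻¹ * b ∈ BasisAux.lineStab ρ u := by
    intro b
    have n1 := mulVec_ne_zero ρ 1 hu
    have nγ := mulVec_ne_zero ρ γ hu
    have key1 : ∀ z, (∃ c : ℂ, (ρ b).val *ᵥ u = c • z) → (∃ c : ℂ, (ρ 1).val *ᵥ u = c • z) →
        b ∈ BasisAux.lineStab ρ u := by
      intro z hz1 hz2
      have := hinv b 1 (par_trans n1 hz1 hz2)
      simpa using this
    have key2 : ∀ z, (∃ c : ℂ, (ρ γ).val *ᵥ u = c • z) → ¬ (∃ c : ℂ, (ρ 1).val *ᵥ u = c • z) := by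
      intro z hz1 hz2
      have := hinv γ 1 (par_trans n1 hz1 hz2)
      exact hγ (by simpa using this)
    rcases hcase 1 with c1 | c1 <;> rcases hcase γ with cg | cg <;> rcases hcase b with cb | cb
    · exact absurd c1 (key2 _ cg)
    · exact absurd c1 (key2 _ cg)
    · exact Or.inl (key1 _ cb c1)
    · exact Or.inr (hinv b γ (par_trans nγ cb cg))
    · exact Or.inr (hinv b γ (par_trans nγ cb cg))
    · exact Or.inl (key1 _ cb c1)
    · exact absurd c1 (key2 _ cg)
    · exact absurd c1 (key2 _ cg)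
  have hidx : (BasisAux.lineStab ρ u).index = 2 := by
    rw [Subgroup.index_eq_two_iff_exists_notMem_and]
    refine ⟨γ, hγ, ?_⟩
    intro b
    by_contra hcon
    push Not at hcon
    obtain ⟨hc1, hc2⟩ := hcon
    have e1 := (hcover b).resolve_left hc2
    have e2 := (hcover (b * γ)).resolve_left hc1
    rw [← mul_assoc] at e2
    exact hγ ((Subgroup.mul_mem_cancel_left _ e1).mp e2)
  have hfin : (BasisAux.lineStab ρ u).FiniteIndex := ⟨by rw [hidx]; norm_num⟩
  have := hN _ (Subgroup.normal_of_index_eq_two hidx) hfin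
  exact hγ (by rw [this]; trivial)

/-- the recurrence for conjugation by a matrix of determinant one -/
lemma conj_rec (G H X : Matrix (Fin 2) (Fin 2) ℚ) (t : ℚ) (hGH : G * H = 1)
    (hG : G * G = t • G - 1) (hH : H * H = t • H - 1) :
    G * (G * (G * X * H) * H) * H =
      (t ^ 2 - 1) • (G * (G * X * H) * H) - (t ^ 2 - 1) • (G * X * H) + X := by
  have hHG : H * G = 1 := mul_eq_one_comm.mp hGH
  have h2 : G * (G * X * H) * H = t ^ 2 • (G * X * H) - t • (G * X + X * H) + X := by
    have : G * (G * X * H) * H = (G * G) * X * (H * H) := by simp only [mul_assoc]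
    rw [this, hG, hH]
    simp only [sub_mul, mul_sub, smul_mul_assoc, mul_smul_comm, one_mul, mul_one, smul_sub,
      smul_add, smul_smul, pow_two]
    abel
  have hU : G * (G * X + X * H) * H = (2 * t) • (G * X * H) - (G * X + X * H) := by
    have : G * (G * X + X * H) * H = (G * G) * X * H + G * X * (H * H) := by
      simp only [mul_add, add_mul, mul_assoc]
    rw [this, hG, hH]
    simp only [sub_mul, mul_sub, smul_mul_assoc, mul_smul_comm, one_mul, mul_one, smul_sub,
      smul_add, smul_smul, two_mul, add_smul]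
    abel
  have h3 : G * (G * (G * X * H) * H) * H =
      t ^ 2 • (G * (G * X * H) * H) - t • (G * (G * X + X * H) * H) + G * X * H := by
    conv_lhs => rw [h2]
    simp only [mul_add, add_mul, mul_sub, sub_mul, smul_mul_assoc, mul_smul_comm, mul_assoc]
  rw [h3, hU]
  have h4 : t • (G * X + X * H) = t ^ 2 • (G * X * H) - G * (G * X * H) * H + X := by
    rw [h2]; abel
  have h5 : t • ((2 * t) • (G * X * H) - (G * X + X * H)) =
      (2 * t ^ 2) • (G * X * H) - t • (G * X + X * H) := by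
    rw [smul_sub, smul_smul]
    congr 2
    ring
  rw [h5, h4]
  have h6 : ∀ A : Matrix (Fin 2) (Fin 2) ℚ, (2 * t ^ 2) • A = t ^ 2 • A + t ^ 2 • A := by
    intro A; rw [two_mul, add_smul]
  rw [h6]
  simp only [sub_smul, one_smul]
  abel

/-- the `p`-adic argument -/
lemma rec_zero (p : ℕ) [Fact p.Prime] (s : ℚ) (hs : 1 < padicNorm p s) (g : ℤ → ℚ)
    (hg : ∀ m, ∃ z : ℤ, g m = z) (hrec : ∀ m, g (m + 2) = s * g (m + 1) - g m) (m : ℤ) :
    g m = 0 := by
  have hs0 : 0 < padicNorm p s := lt_trans one_pos hs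
  have h1 : ∀ (j : ℕ) (m : ℤ), padicNorm p s ^ j * padicNorm p (g m) ≤ 1 := by
    intro j
    induction j with
    | zero =>
      intro m
      obtain ⟨z, hz⟩ := hg m
      rw [pow_zero, one_mul, hz]
      exact padicNorm.of_int z
    | succ j ih =>
      intro m
      have e : s * g m = g (m + 1) + g (m - 1) := by
        have := hrec (m - 1)
        have e1 : m - 1 + 2 = m + 1 := by ring
        have e2 : m - 1 + 1 = m := by ring
        rw [e1, e2] at this
        rw [this]; ring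
      rw [pow_succ, mul_assoc, ← padicNorm.mul, e]
      have h2 := padicNorm.nonarchimedean (p := p) (q := g (m + 1)) (r := g (m - 1))
      have h3 : 0 ≤ padicNorm p s ^ j := pow_nonneg hs0.le _
      calc padicNorm p s ^ j * padicNorm p (g (m + 1) + g (m - 1))
          ≤ padicNorm p s ^ j * max (padicNorm p (g (m + 1))) (padicNorm p (g (m - 1))) :=
            mul_le_mul_of_nonneg_left h2 h3
        _ ≤ 1 := by
            rcases max_cases (padicNorm p (g (m + 1))) (padicNorm p (g (m - 1))) with ⟨h, -⟩ | ⟨h, -⟩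
            · rw [h]; exact ih _
            · rw [h]; exact ih _
  by_contra hne
  have hpos : 0 < padicNorm p (g m) :=
    lt_of_le_of_ne (padicNorm.nonneg _) (Ne.symm (padicNorm.nonzero hne))
  obtain ⟨n, hn⟩ := pow_unbounded_of_one_lt (1 / padicNorm p (g m)) hs
  have := h1 n m
  rw [div_lt_iff₀ hpos] at hn
  linarith

lemma scalar_trace (A : SLQ) (c : ℂ)
    (h : A.val.map (algebraMap ℚ ℂ) = c • (1 : Matrix (Fin 2) (Fin 2) ℂ)) :
    A.val.trace ^ 2 = 4 := by
  have e00 := congrFun (congrFun h 0) 0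
  have e01 := congrFun (congrFun h 0) 1
  have e11 := congrFun (congrFun h 1) 1
  simp only [Matrix.map_apply, Matrix.smul_apply, Matrix.one_apply_eq, smul_eq_mul, mul_one,
    eq_ratCast] at e00 e11
  have e01' : ((A.val 0 1 : ℚ) : ℂ) = 0 := by simpa using e01
  have h01 : A.val 0 1 = 0 := by exact_mod_cast e01'
  have h11 : A.val 0 0 = A.val 1 1 := by
    have : ((A.val 0 0 : ℚ) : ℂ) = ((A.val 1 1 : ℚ) : ℂ) := by rw [e00, e11]
    exact_mod_cast this
  have hd := A.prop
  rw [Matrix.det_fin_two, h01, h11] at hd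
  rw [Matrix.trace_fin_two, h11]
  linear_combination 4 * hd

lemma cayley (A : SLQ) : A.val * A.val = A.val.trace • A.val - 1 := by
  have hd := A.prop
  rw [Matrix.det_fin_two] at hd
  ext i j
  fin_cases i <;> fin_cases j <;>
    simp [Matrix.mul_apply, Fin.sum_univ_two, Matrix.trace_fin_two] <;>
    first | ring1 | linear_combination (-1 : ℚ) * hd

end BddAux

open BddAux in
theorem stBdd : StBdd := by
  intro Γ hC hN hirr p hp hex k hk ht hall
  have : Fact p.Prime := ⟨hp⟩
  obtain ⟨γ, hγ, hγp⟩ := hex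
  let ρ : Γ →* GL (Fin 2) ℂ := cx.comp Γ.subtype
  let k' : Γ := ⟨k, hk⟩
  let γ' : Γ := ⟨γ, hγ⟩
  let N : Subgroup Γ := Subgroup.normalClosure {k'}
  have hNn : N.Normal := Subgroup.normalClosure_normal
  have hkN : k' ∈ N := Subgroup.subset_normalClosure rfl
  -- everything in `N` is integral
  have hint : ∀ x : Γ, x ∈ N → (x : SLQ) ∈ iZQ.range := by
    have : N ≤ (iZQ.range).comap Γ.subtype := by
      refine (Subgroup.closure_le _).mpr ?_
      intro x hx
      rw [Group.mem_conjugatesOfSet_iff] at hx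
      obtain ⟨a, ha, hax⟩ := hx
      obtain rfl : a = k' := ha
      obtain ⟨c, hc⟩ := isConj_iff.mp hax
      rw [← hc]
      exact hall c.1 c.2
    exact this
  have htr : ∀ x ∈ N, ∃ z : ℤ, (x : SLQ).val.trace = z := by
    intro x hx
    obtain ⟨y, hy⟩ := hint x hx
    refine ⟨y.val.trace, ?_⟩
    rw [← hy]
    simp [iZQ, Matrix.trace_fin_two]
  have hks : ∀ c : ℂ, (ρ k').val - c • (1 : Matrix (Fin 2) (Fin 2) ℂ) ≠ 0 := by
    intro c hc
    have e1 : (k.val.map (algebraMap ℚ ℂ)) = c • (1 : Matrix (Fin 2) (Fin 2) ℂ) :=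
      sub_eq_zero.mp hc
    have e2 := scalar_trace k c e1
    have e3 : |k.val.trace| ^ 2 = 4 := by rw [sq_abs]; exact e2
    nlinarith
  have hNirr : Irr (ρ.comp N.subtype) := irr_normal hN hirr N hNn k' hkN hks
  -- the trace of `γ`
  set t : ℚ := γ.val.trace with ht'
  set G : Matrix (Fin 2) (Fin 2) ℚ := γ.val with hG'
  set H : Matrix (Fin 2) (Fin 2) ℚ := (γ⁻¹).val with hH'
  have hGH : G * H = 1 := by
    have e : (γ * γ⁻¹ : SLQ).val = G * H := rfl
    rw [← e, mul_inv_cancel]
    rfl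
  have hHG : H * G = 1 := mul_eq_one_comm.mp hGH
  have hG : G * G = t • G - 1 := cayley γ
  have hH : H * H = t • H - 1 := by
    have e1 : H * H * (G * G) = 1 := by
      have : H * H * (G * G) = H * (H * G) * G := by simp only [mul_assoc]
      rw [this, hHG, mul_one, hHG]
    have e2 : H * H * G = H := by rw [mul_assoc, hHG, mul_one]
    rw [hG, mul_sub, mul_one, mul_smul_comm, e2] at e1
    rw [← e1]; abel
  have hs : 1 < padicNorm p (t ^ 2 - 2) := by
    have e1 : padicNorm p (t ^ 2) = padicNorm p t * padicNorm p t := by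
      rw [pow_two, padicNorm.mul]
    have e2 : 1 < padicNorm p (t ^ 2) := by rw [e1]; nlinarith
    have e3 : padicNorm p (-2) ≤ 1 := by
      have := padicNorm.of_int (p := p) (-2)
      exact_mod_cast this
    have e4 := padicNorm.add_eq_max_of_ne (p := p) (q := t ^ 2) (r := -2) (by
      intro h; rw [h] at e2; linarith)
    rw [sub_eq_add_neg, e4]
    exact lt_of_lt_of_le e2 (le_max_left _ _)
  -- the key vanishing
  have hzero : ∀ x ∈ N, ∀ y ∈ N, ((G * (x : SLQ).val * H - (x : SLQ).val) * (y : SLQ).val).trace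
      = 0 := by
    intro x hx y hy
    let X : ℤ → Matrix (Fin 2) (Fin 2) ℚ := fun m => (γ ^ m * (x : SLQ) * (γ ^ m)⁻¹).val
    let f : ℤ → ℚ := fun m => (X m * (y : SLQ).val).trace
    have hX : ∀ m, X (m + 1) = G * X m * H := by
      intro m
      have e : G * X m * H = (γ * (γ ^ m * (x : SLQ) * (γ ^ m)⁻¹) * γ⁻¹ : SLQ).val := rfl
      have e' : γ ^ (m + 1) * (x : SLQ) * (γ ^ (m + 1))⁻¹ =
          γ * (γ ^ m * (x : SLQ) * (γ ^ m)⁻¹) * γ⁻¹ := by
        rw [add_comm m 1, _root_.zpow_add, _root_.zpow_one]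
        group
      rw [e, ← e']
    have hf : ∀ m, ∃ z : ℤ, f m = z := by
      intro m
      have h1 : γ' ^ m * x * (γ' ^ m)⁻¹ * y ∈ N := N.mul_mem (hNn.conj_mem x hx _) hy
      obtain ⟨z, hz⟩ := htr _ h1
      refine ⟨z, ?_⟩
      rw [← hz]
      simp [f, X, γ']
    have hrec : ∀ m, f (m + 3) = (t ^ 2 - 1) * f (m + 2) - (t ^ 2 - 1) * f (m + 1) + f m := by
      intro m
      have h1 := conj_rec G H (X m) t hGH hG hH
      rw [← hX, ← hX, ← hX] at h1
      have e1 : m + 1 + 1 = m + 2 := by ring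
      have e2 : m + 2 + 1 = m + 3 := by ring
      rw [e1, e2] at h1
      simp only [f]
      rw [h1, add_mul, sub_mul, smul_mul_assoc, smul_mul_assoc, Matrix.trace_add,
        Matrix.trace_sub, Matrix.trace_smul, Matrix.trace_smul, smul_eq_mul, smul_eq_mul]
    have h0 := rec_zero p (t ^ 2 - 2) hs (fun m => f (m + 1) - f m) (by
      intro m
      obtain ⟨z, hz⟩ := hf m
      obtain ⟨w, hw⟩ := hf (m + 1)
      exact ⟨w - z, by rw [hz, hw]; push_cast; ring⟩) (by
      intro m
      have e1 : m + 2 + 1 = m + 3 := by ring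
      have e2 : m + 1 + 1 = m + 2 := by ring
      simp only [e1, e2]
      rw [hrec m]; ring) 0
    have e0 : X 0 = (x : SLQ).val := by simp [X]
    have e1 : X 1 = G * (x : SLQ).val * H := by
      have := hX 0
      rw [e0] at this
      simpa using this
    simp only [f, zero_add, e0, e1] at h0
    rw [sub_mul, Matrix.trace_sub]
    exact h0
  -- complexification
  have hcomm : ∀ x : N, (ρ γ').val * ((ρ.comp N.subtype) x).val =
      ((ρ.comp N.subtype) x).val * (ρ γ').val := by
    intro x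
    obtain ⟨g, h, hli⟩ := stBasis stSchur N (ρ.comp N.subtype) hNirr
    set Z : Matrix (Fin 2) (Fin 2) ℂ :=
      (ρ γ').val * ((ρ.comp N.subtype) x).val * (ρ γ'⁻¹).val - ((ρ.comp N.subtype) x).val with hZ
    have hZ' : ∀ y : N, (Z * ((ρ.comp N.subtype) y).val).trace = 0 := by
      intro y
      have h1 := hzero x.1 x.2 y.1 y.2
      have h2 : Z * ((ρ.comp N.subtype) y).val =
          ((G * (x.1 : SLQ).val * H - (x.1 : SLQ).val) * (y.1 : SLQ).val).map
            (algebraMap ℚ ℂ) := by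
        rw [Matrix.map_mul, Matrix.map_sub _ (by simp), Matrix.map_mul, Matrix.map_mul]
        rfl
      rw [h2]
      have h3 : ∀ M : Matrix (Fin 2) (Fin 2) ℚ, (M.map (algebraMap ℚ ℂ)).trace =
          algebraMap ℚ ℂ M.trace := by
        intro M; simp [Matrix.trace_fin_two]
      rw [h3, h1, map_zero]
    have hspan := hli.span_eq_top_of_card_eq_finrank (by
      rw [Module.finrank_matrix]; simp)
    have hall' : ∀ B : Matrix (Fin 2) (Fin 2) ℂ, (Z * B).trace = 0 := by
      intro B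
      have hB : B ∈ Submodule.span ℂ (Set.range (![(1 : Matrix (Fin 2) (Fin 2) ℂ),
        ((ρ.comp N.subtype) g).val, ((ρ.comp N.subtype) h).val,
          ((ρ.comp N.subtype) (g * h)).val])) := by
        rw [hspan]; trivial
      induction hB using Submodule.span_induction with
      | mem x hx =>
        obtain ⟨i, rfl⟩ := hx
        fin_cases i
        · have := hZ' 1
          simpa using this
        · exact hZ' g
        · exact hZ' h
        · exact hZ' (g * h)
      | zero => simp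
      | add a b _ _ ha hb => rw [mul_add, Matrix.trace_add, ha, hb, add_zero]
      | smul c a _ ha => rw [mul_smul_comm, Matrix.trace_smul, ha, smul_zero]
    have hZ0 : Z = 0 := by
      rw [Matrix.ext_iff_trace_mul_right]
      intro B
      rw [hall' B]; simp
    rw [hZ, sub_eq_zero] at hZ0
    have h5 : (ρ γ'⁻¹).val * (ρ γ').val = 1 := by
      rw [← Units.val_mul, ← map_mul, inv_mul_cancel, map_one, Units.val_one]
    calc (ρ γ').val * ((ρ.comp N.subtype) x).val
        = (ρ γ').val * ((ρ.comp N.subtype) x).val * ((ρ γ'⁻¹).val * (ρ γ').val) := by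
          rw [h5, mul_one]
      _ = ((ρ γ').val * ((ρ.comp N.subtype) x).val * (ρ γ'⁻¹).val) * (ρ γ').val := by
          simp only [mul_assoc]
      _ = _ := by rw [hZ0]
  obtain ⟨c, hc⟩ := stSchur N 2 (ρ.comp N.subtype) hNirr _ hcomm
  have h4 : t ^ 2 = 4 := scalar_trace γ c hc
  rw [h4] at hs
  have e3 : padicNorm p (4 - 2) ≤ 1 := by
    have := padicNorm.of_int (p := p) (4 - 2)
    exact_mod_cast this
  linarith

end Pool.Agent.Lib.MP_c356f3_al
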