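import Pool.Agent.Lib.MP_c356f3_al.BorT

/-!
Subgroups of `SL(2,ℚ)` containing a non-abelian upper triangular subgroup:
elements with a `p`-adically small first column.
-/

namespace Pool.Agent.Lib.MP_c356f3_al.Bor

open SurjAux

variable {p : ℕ} [hp : Fact p.Prime]

lemma pn_add_le {x y c : ℚ} (hx : padicNorm p x ≤ c) (hy : padicNorm p y ≤ c) :
    padicNorm p (x + y) ≤ c :=
  (padicNorm.nonarchimedean (p := p)).trans (max_le hx hy)

lemma c_rec (g : SQ) (n : ℕ) :
    (g ^ (n + 2)).val 1 0 = g.val.trace * (g ^ (n + 1)).val 1 0 - (g ^ n).val 1 0 := by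
  have h2 : g ^ (n + 2) = g ^ n * g * g := by rw [pow_succ, pow_succ]
  have h1 : g ^ (n + 1) = g ^ n * g := by rw [pow_succ]
  rw [h2, h1]
  simp only [Matrix.trace_fin_two, mul_q]
  have hd := det_q g
  linear_combination (-((g ^ n).val 1 0)) * hd

lemma growth {g : SQ} (h : 1 < padicNorm p g.val.trace) (hc : g.val 1 0 ≠ 0) (n : ℕ) :
    padicNorm p ((g ^ (n + 1)).val 1 0) = padicNorm p g.val.trace ^ n * padicNorm p (g.val 1 0) ∧
      padicNorm p ((g ^ n).val 1 0) ≤
        padicNorm p g.val.trace ^ n * padicNorm p (g.val 1 0) := by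
  have hc0 : 0 < padicNorm p (g.val 1 0) :=
    lt_of_le_of_ne (padicNorm.nonneg _) (padicNorm.nonzero hc).symm
  induction n with
  | zero =>
    constructor
    · simp
    · rw [pow_zero, pow_zero, one_q10, padicNorm.zero]
      simpa using hc0.le
  | succ n ih =>
    refine ⟨?_, ?_⟩
    · have h1 : padicNorm p (g.val.trace * (g ^ (n + 1)).val 1 0) =
          padicNorm p g.val.trace ^ (n + 1) * padicNorm p (g.val 1 0) := by
        rw [padicNorm.mul, ih.1]
        ring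
      have h2 : padicNorm p (-(g ^ n).val 1 0) ≤
          padicNorm p g.val.trace ^ n * padicNorm p (g.val 1 0) := by
        rw [padicNorm.neg]; exact ih.2
      have h3 : padicNorm p g.val.trace ^ n * padicNorm p (g.val 1 0) <
          padicNorm p g.val.trace ^ (n + 1) * padicNorm p (g.val 1 0) :=
        mul_lt_mul_of_pos_right (pow_lt_pow_right₀ h (by omega)) hc0
      rw [c_rec, sub_eq_add_neg]
      have hne : padicNorm p (g.val.trace * (g ^ (n + 1)).val 1 0) ≠
          padicNorm p (-(g ^ n).val 1 0) := by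
        rw [h1]
        exact (lt_of_le_of_lt h2 h3).ne'
      rw [padicNorm.add_eq_max_of_ne hne, h1]
      exact max_eq_left (h2.trans h3.le)
    · rw [ih.1]
      exact mul_le_mul_of_nonneg_right (pow_le_pow_right₀ h.le (by omega)) hc0.le

lemma pn_pow (x : ℚ) (n : ℕ) : padicNorm p (x ^ n) = padicNorm p x ^ n := by
  induction n with
  | zero => rw [pow_zero, pow_zero, padicNorm.one]
  | succ n ih => rw [pow_succ, pow_succ, padicNorm.mul, ih]

lemma pn_pos {x : ℚ} (hx : x ≠ 0) : 0 < padicNorm p x :=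
  lt_of_le_of_ne (padicNorm.nonneg _) (padicNorm.nonzero hx).symm

/-- the integers are dense in the `p`-integral rationals -/
lemma approx (y : ℚ) (hy : padicNorm p y ≤ 1) {ε : ℚ} (hε : 0 < ε) :
    ∃ x : ℤ, padicNorm p (y - x) ≤ ε := by
  have hp1 : (1 : ℚ) < p := by exact_mod_cast hp.out.one_lt
  obtain ⟨N, hN⟩ := pow_unbounded_of_one_lt ε⁻¹ hp1
  have hden : Nat.Coprime y.den (p ^ N) := by
    apply Nat.Coprime.pow_right
    rw [Nat.coprime_comm, Nat.Prime.coprime_iff_not_dvd hp.out]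
    intro hdvd
    have hnum : ¬ (p : ℤ) ∣ y.num := by
      intro h2
      have h3 : p ∣ y.num.natAbs := Int.natCast_dvd.mp h2
      have h4 := Nat.dvd_gcd h3 hdvd
      rw [y.reduced.gcd_eq_one] at h4
      exact hp.out.one_lt.ne' (Nat.dvd_one.mp h4)
    have h5 : padicNorm p (y.num : ℚ) = 1 := (padicNorm.int_eq_one_iff _).mpr hnum
    have h6 : padicNorm p (y.den : ℚ) < 1 := (padicNorm.nat_lt_one_iff _).mpr hdvd
    have h7 : (y.num : ℚ) = y * y.den := (Rat.mul_den_eq_num y).symm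
    rw [h7, padicNorm.mul] at h5
    have h8 : padicNorm p y * padicNorm p (y.den : ℚ) ≤ 1 * padicNorm p (y.den : ℚ) :=
      mul_le_mul_of_nonneg_right hy (padicNorm.nonneg _)
    rw [h5, one_mul] at h8
    exact absurd h6 (not_lt.mpr h8)
  have hcop := Nat.isCoprime_iff_coprime.mpr hden
  obtain ⟨u, v, huv⟩ := hcop
  refine ⟨y.num * u, ?_⟩
  have h1 : y - ((y.num * u : ℤ) : ℚ) = y * ((v : ℤ) : ℚ) * (p : ℚ) ^ N := by
    have h2 : ((u * (y.den : ℤ) + v * ((p ^ N : ℕ) : ℤ) : ℤ) : ℚ) = 1 := by rw [huv]; simp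
    push_cast at h2
    push_cast
    have h7 : (y.num : ℚ) = y * y.den := (Rat.mul_den_eq_num y).symm
    rw [h7]
    linear_combination (-y) * h2
  rw [h1, padicNorm.mul, padicNorm.mul, pn_pow, padicNorm.padicNorm_p_of_prime]
  have h2 : padicNorm p ((v : ℤ) : ℚ) ≤ 1 := padicNorm.of_int v
  have h3 : padicNorm p y * padicNorm p ((v : ℤ) : ℚ) ≤ 1 :=
    mul_le_one₀ hy (padicNorm.nonneg _) h2
  have h4 : ((p : ℚ)⁻¹) ^ N ≤ ε := by
    rw [inv_pow]
    exact (inv_lt_of_inv_lt₀ hε hN).le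
  have h5 : (0 : ℚ) ≤ ((p : ℚ)⁻¹) ^ N := by positivity
  calc _ ≤ 1 * ((p : ℚ)⁻¹) ^ N := mul_le_mul_of_nonneg_right h3 h5
    _ ≤ ε := by rw [one_mul]; exact h4

lemma first_col (H G : SQ) (x : ℚ) :
    (H * uu x * G⁻¹).val 0 0 =
        H.val 0 0 * (G.val 1 1 - x * G.val 1 0) - H.val 0 1 * G.val 1 0 ∧
      (H * uu x * G⁻¹).val 1 0 =
        H.val 1 0 * (G.val 1 1 - x * G.val 1 0) - H.val 1 1 * G.val 1 0 := by
  constructor <;> rw [mul_q, mul_q, mul_q, inv_q] <;> simp <;> ring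

lemma small_step (Γ : Subgroup SQ) (hu : ∀ n : ℤ, uu n ∈ Γ) {g : SQ} (hg : g ∈ Γ)
    (h : 1 < padicNorm p g.val.trace) (hc : g.val 1 0 ≠ 0) :
    ∃ γ ∈ Γ, padicNorm p (γ.val 0 0) ≤ (padicNorm p g.val.trace)⁻¹ ∧
      padicNorm p (γ.val 1 0) ≤ (padicNorm p g.val.trace)⁻¹ := by
  set t := padicNorm p g.val.trace with ht
  have ht0 : 0 < t := lt_trans one_pos h
  have hc0 : 0 < padicNorm p (g.val 1 0) := pn_pos hc
  obtain ⟨n, hn⟩ := pow_unbounded_of_one_lt (padicNorm p (g.val 1 0))⁻¹ h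
  set G := g ^ (n + 1) with hG
  set H := g ^ (n + 2) with hH
  have cG : padicNorm p (G.val 1 0) = t ^ n * padicNorm p (g.val 1 0) := (growth h hc n).1
  have cH : padicNorm p (H.val 1 0) = t ^ (n + 1) * padicNorm p (g.val 1 0) :=
    (growth h hc (n + 1)).1
  have cG0 : 0 < padicNorm p (G.val 1 0) := by rw [cG]; positivity
  have cH0 : 0 < padicNorm p (H.val 1 0) := by rw [cH]; positivity
  have hGne : G.val 1 0 ≠ 0 := by
    intro h0; rw [h0, padicNorm.zero] at cG0; exact lt_irrefl _ cG0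
  have hHne : H.val 1 0 ≠ 0 := by
    intro h0; rw [h0, padicNorm.zero] at cH0; exact lt_irrefl _ cH0
  have hHG : H.val 1 0 * G.val 1 1 - H.val 1 1 * G.val 1 0 = g.val 1 0 := by
    have e1 : H * G⁻¹ = g := by rw [hH, hG, pow_succ g (n + 1)]; group
    have e2 := congrArg (fun z : SQ => z.val 1 0) e1
    simp only [mul_q, inv_q] at e2
    simp at e2
    linear_combination e2
  have hHd := det_q H
  -- the target
  have hε : 0 < min t⁻¹ (padicNorm p (H.val 1 0) * (t⁻¹ * (padicNorm p (H.val 0 0) + 1)⁻¹)) := by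
    have : 0 < padicNorm p (H.val 0 0) + 1 := by
      have := padicNorm.nonneg (p := p) (H.val 0 0); linarith
    positivity
  set ε := min t⁻¹ (padicNorm p (H.val 1 0) * (t⁻¹ * (padicNorm p (H.val 0 0) + 1)⁻¹)) with hεd
  have hy : padicNorm p (g.val 1 0 / (G.val 1 0 * H.val 1 0)) ≤ 1 := by
    rw [padicNorm.div, padicNorm.mul, cG, cH, div_le_one (by positivity)]
    have h1 : 1 ≤ t ^ n * padicNorm p (g.val 1 0) := by
      have := mul_lt_mul_of_pos_right hn hc0
      rw [inv_mul_cancel₀ hc0.ne'] at this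
      exact this.le
    have h2 : 1 ≤ t ^ (n + 1) := one_le_pow₀ h.le
    calc padicNorm p (g.val 1 0) = 1 * (1 * padicNorm p (g.val 1 0)) := by ring
      _ ≤ (t ^ n * padicNorm p (g.val 1 0)) * (t ^ (n + 1) * padicNorm p (g.val 1 0)) := by
        gcongr
  obtain ⟨x, hx⟩ := approx (g.val 1 0 / (G.val 1 0 * H.val 1 0)) hy
    (ε := ε / (padicNorm p (G.val 1 0) * padicNorm p (H.val 1 0))) (by positivity)
  refine ⟨H * uu x * G⁻¹, Γ.mul_mem (Γ.mul_mem (Γ.pow_mem hg _) (hu x))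
    (Γ.inv_mem (Γ.pow_mem hg _)), ?_⟩
  obtain ⟨f0, f1⟩ := first_col H G x
  set s := (H * uu x * G⁻¹).val 1 0 with hs
  have hs1 : s = (g.val 1 0 / (G.val 1 0 * H.val 1 0) - x) * (G.val 1 0 * H.val 1 0) := by
    rw [f1]
    field_simp
    linear_combination hHG
  have hsn : padicNorm p s ≤ ε := by
    rw [hs1, padicNorm.mul, padicNorm.mul]
    rwa [le_div_iff₀ (by positivity)] at hx
  have hp1 : (H * uu x * G⁻¹).val 0 0 = (G.val 1 0 + H.val 0 0 * s) / H.val 1 0 := by
    rw [f0, f1]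
    field_simp
    linear_combination (G.val 1 0) * hHd
  refine ⟨?_, hsn.trans (min_le_left _ _)⟩
  rw [hp1, padicNorm.div, div_le_iff₀ cH0]
  apply pn_add_le
  · rw [cG, cH, pow_succ]
    have : t⁻¹ * (t ^ n * t * padicNorm p (g.val 1 0)) = t ^ n * padicNorm p (g.val 1 0) := by
      field_simp
    rw [this]
  · rw [padicNorm.mul]
    have h1 : 0 ≤ padicNorm p (H.val 0 0) := padicNorm.nonneg _
    have h2 : padicNorm p s ≤
        padicNorm p (H.val 1 0) * (t⁻¹ * (padicNorm p (H.val 0 0) + 1)⁻¹) :=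
      hsn.trans (min_le_right _ _)
    have h3 : padicNorm p (H.val 0 0) * padicNorm p s ≤
        (padicNorm p (H.val 0 0) + 1) *
          (padicNorm p (H.val 1 0) * (t⁻¹ * (padicNorm p (H.val 0 0) + 1)⁻¹)) :=
      mul_le_mul (by linarith) h2 (padicNorm.nonneg _) (by linarith)
    have h4 : (padicNorm p (H.val 0 0) + 1) *
          (padicNorm p (H.val 1 0) * (t⁻¹ * (padicNorm p (H.val 0 0) + 1)⁻¹)) =
        t⁻¹ * padicNorm p (H.val 1 0) := by
      have h5 : padicNorm p (H.val 0 0) + 1 ≠ 0 := by linarith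
      field_simp
    rw [← h4]
    exact h3

lemma tri_pow (g : SQ) (h : g.val 1 0 = 0) (n : ℕ) :
    (g ^ n).val 1 0 = 0 ∧ (g ^ n).val 0 0 = g.val 0 0 ^ n := by
  induction n with
  | zero => exact ⟨by rw [pow_zero, one_q10], by rw [pow_zero, pow_zero, one_q00]⟩
  | succ n ih =>
    rw [pow_succ]
    constructor
    · rw [mul_q, ih.1, h]; ring
    · rw [mul_q, ih.2, h, pow_succ]; ring

lemma small_tri (Γ : Subgroup SQ) {g : SQ} (hg : g ∈ Γ) (hc : g.val 1 0 = 0)
    (ha : padicNorm p (g.val 0 0) < 1) {ε : ℚ} (hε : 0 < ε) :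
    ∃ γ ∈ Γ, padicNorm p (γ.val 0 0) ≤ ε ∧ padicNorm p (γ.val 1 0) ≤ ε := by
  obtain ⟨n, hn⟩ := exists_pow_lt_of_lt_one hε ha
  refine ⟨g ^ n, Γ.pow_mem hg n, ?_, ?_⟩
  · rw [(tri_pow g hc n).2, pn_pow]
    exact hn.le
  · rw [(tri_pow g hc n).1, padicNorm.zero]
    exact hε.le

/-- (Small) -/
theorem small (Γ : Subgroup SQ) (hu : ∀ n : ℤ, uu n ∈ Γ)
    (h : ∃ g ∈ Γ, 1 < padicNorm p g.val.trace) {ε : ℚ} (hε : 0 < ε) :
    ∃ γ ∈ Γ, padicNorm p (γ.val 0 0) ≤ ε ∧ padicNorm p (γ.val 1 0) ≤ ε := by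
  obtain ⟨g, hg, h⟩ := h
  by_cases hc : g.val 1 0 = 0
  · have hd := det_q g
    rw [hc, mul_zero, sub_zero] at hd
    have hn : padicNorm p (g.val 0 0) * padicNorm p (g.val 1 1) = 1 := by
      rw [← padicNorm.mul, hd, padicNorm.one]
    by_cases h1 : padicNorm p (g.val 0 0) < 1
    · exact small_tri Γ hg hc h1 hε
    · have h2 : padicNorm p (g.val 1 1) < 1 := by
        by_contra h2
        push Not at h1 h2
        have h3 : padicNorm p (g.val 0 0) ≤ 1 := by
          by_contra h4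
          push Not at h4
          have : 1 * 1 < padicNorm p (g.val 0 0) * padicNorm p (g.val 1 1) :=
            mul_lt_mul h4 h2 one_pos (by linarith)
          rw [hn] at this
          linarith
        have h4 : padicNorm p (g.val 1 1) ≤ 1 := by
          have : padicNorm p (g.val 0 0) = 1 := le_antisymm h3 h1
          rw [this, one_mul] at hn
          exact hn.le
        rw [Matrix.trace_fin_two] at h
        exact absurd h (not_lt.mpr (pn_add_le h3 h4))
      have hi : g⁻¹ ∈ Γ := Γ.inv_mem hg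
      refine small_tri Γ hi ?_ ?_ hε
      · rw [inv_q]; simp [hc]
      · rw [inv_q]; simpa using h2
  · obtain ⟨n, hn⟩ := pow_unbounded_of_one_lt ε⁻¹ h
    have h1 := (trace_pow h n).1
    have h2 : 1 < padicNorm p (g ^ (n + 1)).val.trace := by
      rw [h1]; exact one_lt_pow₀ h (by omega)
    have h3 : (g ^ (n + 1)).val 1 0 ≠ 0 := by
      intro h0
      have h4 := (growth h hc n).1
      rw [h0, padicNorm.zero] at h4
      have : 0 < padicNorm p g.val.trace ^ n * padicNorm p (g.val 1 0) :=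
        mul_pos (pow_pos (by linarith) _) (pn_pos hc)
      linarith
    obtain ⟨γ, hγ, k0, k1⟩ := small_step Γ hu (Γ.pow_mem hg (n + 1)) h2 h3
    have h5 : (padicNorm p (g ^ (n + 1)).val.trace)⁻¹ ≤ ε := by
      rw [h1]
      have h6 : ε⁻¹ ≤ padicNorm p g.val.trace ^ (n + 1) :=
        hn.le.trans (pow_le_pow_right₀ h.le (by omega))
      exact inv_le_of_inv_le₀ hε h6
    exact ⟨γ, hγ, k0.trans h5, k1.trans h5⟩

end Pool.Agent.Lib.MP_c356f3_al.Bor
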