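import Pool.Agent.Lib.MP_c356f3_al.BorDir
import Pool.Agent.Lib.MP_c356f3_al.BorSmall

/-!
Subgroups of `SL(2,ℚ)` containing a non-abelian upper triangular subgroup:
the end of the argument.
-/

namespace Pool.Agent.Lib.MP_c356f3_al.Bor

open SurjAux

namespace Ell

variable {Γ : Subgroup SQ} {A : Subring ℚ} {r b : ℕ} (E : Ell Γ A r b)
include E

lemma m_ne : ((r : ℚ) ^ (4 * b) - 1) ≠ 0 := by
  have h1 : (1 : ℚ) < r := by exact_mod_cast E.two
  have h2 : (1 : ℚ) < (r : ℚ) ^ (4 * b) := one_lt_pow₀ h1 (by have := E.pos; omega)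
  linarith

lemma one_mem : (1 : ℚ) ∈ M Γ 1 0 := by
  rw [mem_M, T_uu]
  have := E.uu_int 1
  simpa using this

lemma den_mem {z : ℚ} (hz : z ∈ M Γ 1 0) : ((z.den : ℚ))⁻¹ ∈ M Γ 1 0 := by
  have hcop : IsCoprime z.num (z.den : ℤ) := by
    rw [Int.isCoprime_iff_gcd_eq_one]
    have := z.reduced
    simpa [Int.gcd, Nat.Coprime] using this
  obtain ⟨u, v, huv⟩ := hcop
  have h1 := (M Γ 1 0).add_mem ((M Γ 1 0).zsmul_mem hz u) ((M Γ 1 0).zsmul_mem E.one_mem v)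
  have h2 : ((u * z.num + v * (z.den : ℤ) : ℤ) : ℚ) = 1 := by rw [huv]; simp
  push_cast at h2
  have hden : (z.den : ℚ) ≠ 0 := by exact_mod_cast z.den_ne_zero
  have h3 : u • z + v • (1 : ℚ) = ((z.den : ℚ))⁻¹ := by
    rw [zsmul_eq_mul, zsmul_eq_mul]
    have h7 : (z.num : ℚ) = z * z.den := (Rat.mul_den_eq_num z).symm
    rw [h7] at h2
    field_simp
    linear_combination h2
  rwa [h3] at h1

lemma exists_big (q : ℕ) [hq : Fact q.Prime] (h : ∃ g ∈ Γ, 1 < padicNorm q g.val.trace) (k : ℕ) :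
    ∃ z ∈ M Γ 1 0, (q : ℚ) ^ k ≤ padicNorm q z := by
  have hq0 : (0 : ℚ) < q := by exact_mod_cast hq.out.pos
  set m : ℚ := (r : ℚ) ^ (4 * b) - 1 with hm
  have hm0 : 0 < padicNorm q m := pn_pos E.m_ne
  obtain ⟨γ, hγ, h0, h1⟩ := small (p := q) Γ E.uu_int h
    (ε := min 1 (padicNorm q m / (q : ℚ) ^ k)) (by positivity)
  obtain ⟨κ, B, hB, hB0⟩ := iwasawa γ
  have e0 : γ.val 0 0 = B.val 0 0 * (κ.val 0 0 : ℤ) := by
    rw [hB, mul_q, hB0, io_apply]; ring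
  have e1 : γ.val 1 0 = B.val 0 0 * (κ.val 1 0 : ℤ) := by
    rw [hB, mul_q, hB0, io_apply]; ring
  have hdκ : κ.val 0 0 * κ.val 1 1 - κ.val 0 1 * κ.val 1 0 = 1 := by
    have := κ.property
    rwa [Matrix.det_fin_two] at this
  have hcop : IsCoprime (κ.val 0 0) (κ.val 1 0) := ⟨κ.val 1 1, -κ.val 0 1, by linarith⟩
  have hdκ' : ((κ.val 0 0 : ℤ) : ℚ) * ((κ.val 1 1 : ℤ) : ℚ) -
      ((κ.val 0 1 : ℤ) : ℚ) * ((κ.val 1 0 : ℤ) : ℚ) = 1 := by exact_mod_cast hdκ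
  have hK : B.val 0 0 = γ.val 0 0 * ((κ.val 1 1 : ℤ) : ℚ) -
      γ.val 1 0 * ((κ.val 0 1 : ℤ) : ℚ) := by
    rw [e0, e1]
    linear_combination (-(B.val 0 0)) * hdκ'
  have hKne : B.val 0 0 ≠ 0 := by
    intro h2
    have := det_q γ
    rw [e0, e1, h2] at this
    simp at this
  have hKn : padicNorm q (B.val 0 0) ≤ min 1 (padicNorm q m / (q : ℚ) ^ k) := by
    rw [hK, sub_eq_add_neg]
    apply pn_add_le
    · rw [padicNorm.mul]
      exact (mul_le_of_le_one_right (padicNorm.nonneg _) (padicNorm.of_int _)).trans h0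
    · rw [padicNorm.neg, padicNorm.mul]
      exact (mul_le_of_le_one_right (padicNorm.nonneg _) (padicNorm.of_int _)).trans h1
  have hK0 : 0 < padicNorm q (B.val 0 0) := pn_pos hKne
  refine ⟨m / (B.val 0 0) ^ 2, ?_, ?_⟩
  · rw [← M_move hγ]
    have g0 : γ.val 0 0 * 1 + γ.val 0 1 * 0 = B.val 0 0 * ((κ.val 0 0 : ℤ) : ℚ) := by
      rw [← e0]; ring
    have g1 : γ.val 1 0 * 1 + γ.val 1 1 * 0 = B.val 0 0 * ((κ.val 1 0 : ℤ) : ℚ) := by
      rw [← e1]; ring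
    rw [g0, g1, M_smul]
    have g2 : B.val 0 0 ^ 2 * (m / B.val 0 0 ^ 2) = m := by field_simp
    rw [g2]
    exact E.uni _ _ hcop
  · rw [padicNorm.div, pn_pow, le_div_iff₀ (by positivity)]
    have h2 : padicNorm q (B.val 0 0) ≤ 1 := hKn.trans (min_le_left _ _)
    have h3 : padicNorm q (B.val 0 0) ≤ padicNorm q m / (q : ℚ) ^ k :=
      hKn.trans (min_le_right _ _)
    have h4 : padicNorm q (B.val 0 0) ^ 2 ≤ padicNorm q m / (q : ℚ) ^ k := by
      calc padicNorm q (B.val 0 0) ^ 2 = padicNorm q (B.val 0 0) * padicNorm q (B.val 0 0) := by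
            ring
        _ ≤ 1 * padicNorm q (B.val 0 0) := mul_le_mul_of_nonneg_right h2 hK0.le
        _ ≤ _ := by rw [one_mul]; exact h3
    rw [le_div_iff₀ (by positivity)] at h4
    linarith

lemma prime_pow_mem (q : ℕ) [hq : Fact q.Prime] (h : ∃ g ∈ Γ, 1 < padicNorm q g.val.trace)
    (k : ℕ) : (((q ^ k : ℕ) : ℚ))⁻¹ ∈ M Γ 1 0 := by
  have hq0 : (0 : ℚ) < q := by exact_mod_cast hq.out.pos
  obtain ⟨z, hz, hzn⟩ := E.exists_big q h k
  have h1 := E.den_mem hz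
  have hdn : padicNorm q (((z.den : ℤ)) : ℚ) ≤ (q : ℚ) ^ (-(k : ℤ)) := by
    have h7 : (z.num : ℚ) = z * z.den := (Rat.mul_den_eq_num z).symm
    have h8 : padicNorm q z * padicNorm q (z.den : ℚ) ≤ 1 := by
      rw [← padicNorm.mul, ← h7]
      exact padicNorm.of_int _
    have h9 : (q : ℚ) ^ k * padicNorm q (z.den : ℚ) ≤ 1 :=
      (mul_le_mul_of_nonneg_right hzn (padicNorm.nonneg _)).trans h8
    rw [zpow_neg, zpow_natCast, Int.cast_natCast, le_inv_comm₀ ?_ (by positivity)]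
    · rw [← one_div, le_div_iff₀ ?_]
      · exact h9
      · exact pn_pos (by exact_mod_cast z.den_ne_zero)
    · exact pn_pos (by exact_mod_cast z.den_ne_zero)
  obtain ⟨j, hj⟩ := (padicNorm.dvd_iff_norm_le (p := q) (n := k) (z := (z.den : ℤ))).mpr hdn
  have h2 := (M Γ 1 0).zsmul_mem h1 j
  convert h2 using 1
  rw [zsmul_eq_mul]
  have hj' : (z.den : ℚ) = ((q ^ k : ℕ) : ℚ) * j := by exact_mod_cast hj
  have hden : (z.den : ℚ) ≠ 0 := by exact_mod_cast z.den_ne_zero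
  have hqk : ((q ^ k : ℕ) : ℚ) ≠ 0 := by push_cast; exact pow_ne_zero _ hq0.ne'
  field_simp
  rw [hj']

lemma inv_mem' (h : ∀ q : ℕ, q.Prime → ∃ g ∈ Γ, 1 < padicNorm q g.val.trace) (n : ℕ) :
    ((n : ℚ))⁻¹ ∈ M Γ 1 0 := by
  induction n using Nat.recOnPosPrimePosCoprime with
  | prime_pow q k hq hk =>
    have : Fact q.Prime := ⟨hq⟩
    exact E.prime_pow_mem q (h q hq) k
  | zero => simp
  | one => simpa using E.one_mem
  | coprime a c ha hc hac iha ihc =>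
    obtain ⟨u, v, huv⟩ := Nat.isCoprime_iff_coprime.mpr hac
    have h2 : ((u * (a : ℤ) + v * (c : ℤ) : ℤ) : ℚ) = 1 := by rw [huv]; simp
    push_cast at h2
    have h1 := (M Γ 1 0).add_mem ((M Γ 1 0).zsmul_mem ihc u) ((M Γ 1 0).zsmul_mem iha v)
    convert h1 using 1
    rw [zsmul_eq_mul, zsmul_eq_mul]
    have ha0 : (a : ℚ) ≠ 0 := by positivity
    have hc0 : (c : ℚ) ≠ 0 := by positivity
    push_cast
    field_simp
    linear_combination -h2

lemma uu_all (h : ∀ q : ℕ, q.Prime → ∃ g ∈ Γ, 1 < padicNorm q g.val.trace) (x : ℚ) :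
    uu x ∈ Γ := by
  have h1 := (M Γ 1 0).zsmul_mem (E.inv_mem' h x.den) x.num
  rw [zsmul_eq_mul, ← div_eq_mul_inv, Rat.num_div_den, mem_M, T_uu] at h1
  exact h1

lemma vv_all (h : ∀ q : ℕ, q.Prime → ∃ g ∈ Γ, 1 < padicNorm q g.val.trace) (x : ℚ) :
    vv x ∈ Γ := by
  have hb : (b : ℚ) ≠ 0 := by have := E.pos; positivity
  have hw : uu (-(b : ℚ)⁻¹) * vv b * uu (-(b : ℚ)⁻¹) ∈ Γ := by
    refine Γ.mul_mem (Γ.mul_mem (E.uu_all h _) ?_) (E.uu_all h _)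
    have := E.vv_int 1
    simpa using this
  have h1 := (M_move (x := -x / b ^ 2) (a := 1) (c := 0) hw).mpr (by
    rw [mem_M, T_uu]; exact E.uu_all h _)
  have e0 : (uu (-(b : ℚ)⁻¹) * vv b * uu (-(b : ℚ)⁻¹)).val 0 0 * 1 +
      (uu (-(b : ℚ)⁻¹) * vv b * uu (-(b : ℚ)⁻¹)).val 0 1 * 0 = 0 := by
    simp only [mul_q, uu00, uu01, uu10, uu11, vv00, vv01, vv10, vv11]
    field_simp
    ring
  have e1 : (uu (-(b : ℚ)⁻¹) * vv b * uu (-(b : ℚ)⁻¹)).val 1 0 * 1 +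
      (uu (-(b : ℚ)⁻¹) * vv b * uu (-(b : ℚ)⁻¹)).val 1 1 * 0 = b := by
    simp only [mul_q, uu00, uu01, uu10, uu11, vv00, vv01, vv10, vv11]
    ring
  rw [e0, e1, mem_M, T_vv] at h1
  have e2 : -((b : ℚ) ^ 2 * (-x / b ^ 2)) = x := by field_simp
  rwa [e2] at h1

theorem eq_top (h : ∀ q : ℕ, q.Prime → ∃ g ∈ Γ, 1 < padicNorm q g.val.trace) : Γ = ⊤ := by
  have key : ∀ g : SQ, g.val 1 0 ≠ 0 → g ∈ Γ := by
    intro g hc
    have e : g = uu ((g.val 0 0 - 1) / g.val 1 0) * vv (g.val 1 0) *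
        uu ((g.val 1 1 - 1) / g.val 1 0) := by
      have hd := det_q g
      apply sq_ext <;> simp only [mul_q, uu00, uu01, uu10, uu11, vv00, vv01, vv10, vv11]
      · field_simp
        ring
      · field_simp
        linear_combination -hd
      · ring
      · field_simp
        ring
    rw [e]
    exact Γ.mul_mem (Γ.mul_mem (E.uu_all h _) (E.vv_all h _)) (E.uu_all h _)
  rw [eq_top_iff]
  intro g _
  by_cases hc : g.val 1 0 = 0
  · have h1 : g * vv 1 ∈ Γ := by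
      apply key
      rw [mul_q, hc]
      have hd := det_q g
      rw [hc] at hd
      simp only [vv00, vv10]
      intro h2
      have h3 : g.val 1 1 = 0 := by linarith
      rw [h3] at hd
      simp at hd
    have h2 := Γ.mul_mem h1 (Γ.inv_mem (E.vv_all h 1))
    rwa [mul_inv_cancel_right] at h2
  · exact key g hc

end Ell

end Pool.Agent.Lib.MP_c356f3_al.Bor
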