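import Pool.Agent.Lib.MP_c356f3_al.BorRed

/-!
Subgroups of `SL(2,ℚ)` with a unipotent subgroup which is not cyclic.
-/

namespace Pool.Agent.Lib.MP_c356f3_al.Bor

open SurjAux

section arith

variable {N : AddSubgroup ℚ} (h1 : (1 : ℚ) ∈ N)

include h1 in
lemma inv_den {z : ℚ} (hz : z ∈ N) : ((z.den : ℚ))⁻¹ ∈ N := by
  have hcop : IsCoprime z.num (z.den : ℤ) := by
    rw [Int.isCoprime_iff_gcd_eq_one]
    have := z.reduced
    simpa [Int.gcd, Nat.Coprime] using this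
  obtain ⟨u, v, huv⟩ := hcop
  have h1 := N.add_mem (N.zsmul_mem hz u) (N.zsmul_mem h1 v)
  have h2 : ((u * z.num + v * (z.den : ℤ) : ℤ) : ℚ) = 1 := by rw [huv]; simp
  push_cast at h2
  have hden : (z.den : ℚ) ≠ 0 := by exact_mod_cast z.den_ne_zero
  have h3 : u • z + v • (1 : ℚ) = ((z.den : ℚ))⁻¹ := by
    rw [zsmul_eq_mul, zsmul_eq_mul]
    have h7 : (z.num : ℚ) = z * z.den := (Rat.mul_den_eq_num z).symm
    rw [h7] at h2
    field_simp
    linear_combination h2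
  rwa [h3] at h1

/-- divisors -/
lemma inv_dvd {m n : ℕ} (hn : n ≠ 0) (hmn : m ∣ n) (h : ((n : ℚ))⁻¹ ∈ N) : ((m : ℚ))⁻¹ ∈ N := by
  obtain ⟨t, rfl⟩ := hmn
  have h2 := N.zsmul_mem h (t : ℤ)
  convert h2 using 1
  rw [zsmul_eq_mul]
  have hm : (m : ℚ) ≠ 0 := by
    intro h0; apply hn; have : m = 0 := by exact_mod_cast h0
    rw [this, zero_mul]
  have ht : (t : ℚ) ≠ 0 := by
    intro h0; apply hn; have : t = 0 := by exact_mod_cast h0
    rw [this, mul_zero]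
  push_cast
  field_simp

/-- least common multiples -/
lemma inv_lcm {m n : ℕ} (hm : m ≠ 0) (hn : n ≠ 0) (h : ((m : ℚ))⁻¹ ∈ N) (h' : ((n : ℚ))⁻¹ ∈ N) :
    ((Nat.lcm m n : ℚ))⁻¹ ∈ N := by
  have h2 := N.add_mem (N.zsmul_mem h' (Nat.gcdA m n)) (N.zsmul_mem h (Nat.gcdB m n))
  convert h2 using 1
  have h3 := Nat.gcd_eq_gcd_ab m n
  have h4 : ((Nat.gcd m n : ℕ) : ℚ) = m * (Nat.gcdA m n : ℤ) + n * (Nat.gcdB m n : ℤ) := by
    exact_mod_cast h3
  have h5 : ((Nat.gcd m n : ℕ) : ℚ) * ((Nat.lcm m n : ℕ) : ℚ) = m * n := by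
    exact_mod_cast Nat.gcd_mul_lcm m n
  have hm' : (m : ℚ) ≠ 0 := by exact_mod_cast hm
  have hn' : (n : ℚ) ≠ 0 := by exact_mod_cast hn
  have hl : ((Nat.lcm m n : ℕ) : ℚ) ≠ 0 := by exact_mod_cast Nat.lcm_ne_zero hm hn
  rw [zsmul_eq_mul, zsmul_eq_mul]
  rw [h4] at h5
  field_simp
  linear_combination -h5

/-- the part at the primes dividing `b` is bounded -/
lemma bounded_part (b : ℕ) (hb : 0 < b)
    (hmin : ∀ p : ℕ, p.Prime → p ∣ b → ∃ k : ℕ, ((p ^ k : ℕ) : ℚ)⁻¹ ∉ N) :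
    ∃ B : ℕ, 0 < B ∧ ∀ m : ℕ, m ≠ 0 → ((m : ℚ))⁻¹ ∈ N → (∃ j, m ∣ b ^ j) → m ∣ B := by
  classical
  choose! k hk using hmin
  refine ⟨∏ p ∈ b.primeFactors, p ^ k p, Finset.prod_pos fun p hp =>
    pow_pos (Nat.prime_of_mem_primeFactors hp).pos _, ?_⟩
  intro m hm hmN hj
  obtain ⟨j, hj⟩ := hj
  rw [Nat.dvd_iff_prime_pow_dvd_dvd]
  intro p e hp hpe
  rcases Nat.eq_zero_or_pos e with rfl | he
  · simp
  have hpb : p ∣ b := hp.dvd_of_dvd_pow ((dvd_pow_self p he.ne').trans (hpe.trans hj))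
  have hek : e ≤ k p := by
    by_contra hlt
    push Not at hlt
    apply hk p hp hpb
    exact inv_dvd hm ((pow_dvd_pow p hlt.le).trans hpe) hmN
  exact (pow_dvd_pow p hek).trans
    (Finset.dvd_prod_of_mem (fun p => p ^ k p) (Nat.mem_primeFactors.mpr ⟨hp, hpb, hb.ne'⟩))

include h1 in
/-- the next member of the chain -/
lemma next (b : ℕ) (hb : 0 < b)
    (hmin : ∀ p : ℕ, p.Prime → p ∣ b → ∃ k : ℕ, ((p ^ k : ℕ) : ℚ)⁻¹ ∉ N)
    (hnc : ∀ y : ℚ, ∃ x ∈ N, ∀ k : ℤ, x ≠ k * y) (n : ℕ) (hn0 : 0 < n) (hn : ((n : ℚ))⁻¹ ∈ N)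
    (hnb : Nat.Coprime n b) :
    ∃ n' : ℕ, 0 < n' ∧ ((n' : ℚ))⁻¹ ∈ N ∧ Nat.Coprime n' b ∧ n ∣ n' ∧ n < n' := by
  obtain ⟨B, hB0, hB⟩ := bounded_part b hb hmin
  obtain ⟨x, hx, hxk⟩ := hnc (((n * B : ℕ) : ℚ))⁻¹
  have hd := inv_den h1 hx
  have hd0 : 0 < x.den := x.den_pos
  obtain ⟨b', hb'0, hb'b, j, hj⟩ := coprime_part b x.den hd0
  set m' := Nat.gcd x.den b' with hm'
  have hm'0 : 0 < m' := Nat.gcd_pos_of_pos_left _ hd0
  have hm'x : m' ∣ x.den := Nat.gcd_dvd_left _ _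
  obtain ⟨mb, hmb⟩ := hm'x
  have hmb0 : 0 < mb := by
    rcases Nat.eq_zero_or_pos mb with h | h
    · rw [h, mul_zero] at hmb; omega
    · exact h
  have hmbj : mb ∣ b ^ j := by
    obtain ⟨t, ht⟩ := Nat.gcd_dvd_right x.den b'
    have hcop : Nat.Coprime mb t := by
      have e1 : x.den / m' = mb := by
        rw [hmb]; exact Nat.mul_div_cancel_left _ hm'0
      have e2 : b' / m' = t := by
        rw [ht, ← hm']; exact Nat.mul_div_cancel_left _ hm'0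
      have := Nat.coprime_div_gcd_div_gcd (m := x.den) (n := b') hm'0
      rw [← hm', e1, e2] at this
      exact this
    have h2 : m' * mb ∣ m' * (t * b ^ j) := by
      have : b' * b ^ j = m' * (t * b ^ j) := by
        conv_lhs => rw [ht, ← hm']
        ring
      rw [← hmb, ← this]
      exact hj
    have h3 := Nat.dvd_of_mul_dvd_mul_left hm'0 h2
    exact hcop.dvd_of_dvd_mul_left h3
  have hmbB : mb ∣ B := by
    apply hB mb hmb0.ne' _ ⟨j, hmbj⟩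
    exact inv_dvd hd0.ne' (by rw [hmb]; exact Dvd.intro_left _ rfl) hd
  have hm'b : Nat.Coprime m' b :=
    Nat.Coprime.of_dvd_left (Nat.gcd_dvd_right _ _) hb'b
  have hm'N : ((m' : ℚ))⁻¹ ∈ N := inv_dvd hd0.ne' (Nat.gcd_dvd_left _ _) hd
  have hnot : ¬ m' ∣ n := by
    intro hdv
    have h2 : x.den ∣ n * B := by
      rw [hmb]; exact mul_dvd_mul hdv hmbB
    obtain ⟨t, ht⟩ := h2
    apply hxk (x.num * t)
    have hxden : (x.den : ℚ) ≠ 0 := by exact_mod_cast hd0.ne'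
    have ht0 : (t : ℚ) ≠ 0 := by
      intro h0
      have : t = 0 := by exact_mod_cast h0
      rw [this, mul_zero] at ht
      have := Nat.mul_pos hn0 hB0
      omega
    rw [ht]
    conv_lhs => rw [← Rat.num_div_den x]
    push_cast
    field_simp
  refine ⟨Nat.lcm n m', Nat.lcm_pos hn0 hm'0, inv_lcm hn0.ne' hm'0.ne' hn hm'N, ?_,
    Nat.dvd_lcm_left _ _, ?_⟩
  · exact Nat.Coprime.of_dvd_left (Nat.lcm_dvd_mul n m') (Nat.Coprime.mul_left hnb hm'b)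
  · apply lt_of_le_of_ne (Nat.le_of_dvd (Nat.lcm_pos hn0 hm'0) (Nat.dvd_lcm_left _ _))
    intro h2
    apply hnot
    rw [h2]
    exact Nat.dvd_lcm_right _ _

include h1 in
/-- a number `Q ≡ 1 mod b` -/
lemma exists_Q (b : ℕ) (hb : 0 < b)
    (hmin : ∀ p : ℕ, p.Prime → p ∣ b → ∃ k : ℕ, ((p ^ k : ℕ) : ℚ)⁻¹ ∉ N)
    (hnc : ∀ y : ℚ, ∃ x ∈ N, ∀ k : ℤ, x ≠ k * y) :
    ∃ Q : ℕ, 2 ≤ Q ∧ (b : ℤ) ∣ Q - 1 ∧ ((Q : ℚ))⁻¹ ∈ N := by
  have H : ∀ n : ℕ, 0 < n ∧ ((n : ℚ))⁻¹ ∈ N ∧ Nat.Coprime n b →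
      ∃ n' : ℕ, (0 < n' ∧ ((n' : ℚ))⁻¹ ∈ N ∧ Nat.Coprime n' b) ∧ n ∣ n' ∧ n < n' := by
    rintro n ⟨h2, h3, h4⟩
    obtain ⟨n', k1, k2, k3, k4, k5⟩ := next h1 b hb hmin hnc n h2 h3 h4
    exact ⟨n', ⟨k1, k2, k3⟩, k4, k5⟩
  choose! f hf1 hf2 hf3 using H
  let s : ℕ → ℕ := fun i => f^[i] 1
  have hs : ∀ i, 0 < s i ∧ ((s i : ℚ))⁻¹ ∈ N ∧ Nat.Coprime (s i) b := by
    intro i
    induction i with
    | zero => exact ⟨one_pos, by simpa [s] using h1, Nat.coprime_one_left b⟩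
    | succ i ih =>
      have : s (i + 1) = f (s i) := Function.iterate_succ_apply' f i 1
      rw [this]
      exact hf1 _ ih
  have hsucc : ∀ i, s (i + 1) = f (s i) := fun i => Function.iterate_succ_apply' f i 1
  have hmono : StrictMono s := strictMono_nat_of_lt_succ fun i => by
    rw [hsucc]; exact hf3 _ (hs i)
  have hdvd : ∀ i j, i ≤ j → s i ∣ s j := by
    intro i j hij
    induction j, hij using Nat.le_induction with
    | base => exact dvd_rfl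
    | succ j _ ih =>
      rw [hsucc]
      exact ih.trans (hf2 _ (hs j))
  have : NeZero b := ⟨hb.ne'⟩
  obtain ⟨i, j, hij, hmod⟩ := Finite.exists_ne_map_eq_of_infinite (fun i => ((s i : ℕ) : ZMod b))
  wlog hlt : i < j generalizing i j
  · exact this j i hij.symm hmod.symm (by omega)
  obtain ⟨Q, hQ⟩ := hdvd i j hlt.le
  have hsi := (hs i).1
  have hQ2 : 2 ≤ Q := by
    have h2 := hmono hlt
    rw [hQ] at h2
    by_contra hlt'
    have : Q ≤ 1 := by omega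
    have := Nat.mul_le_mul_left (s i) this
    omega
  refine ⟨Q, hQ2, ?_, ?_⟩
  · have h2 : (s i : ZMod b) * (Q : ZMod b) = (s i : ZMod b) * 1 := by
      rw [mul_one]
      have h3 : ((s j : ℕ) : ZMod b) = (s i : ZMod b) := hmod.symm
      rw [hQ] at h3
      push_cast at h3
      exact h3
    have hu : IsUnit ((s i : ℕ) : ZMod b) := (ZMod.isUnit_iff_coprime _ _).mpr (hs i).2.2
    have h3 := hu.mul_left_cancel h2
    have h4 : (((Q : ℤ) - 1 : ℤ) : ZMod b) = 0 := by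
      push_cast
      rw [h3, sub_self]
    exact (ZMod.intCast_zmod_eq_zero_iff_dvd _ _).mp h4
  · exact inv_dvd (hs j).1.ne' (by rw [hQ]; exact Dvd.intro_left _ rfl) (hs j).2.1

end arith

lemma le_of_all (N : AddSubgroup ℚ) (h1 : (1 : ℚ) ∈ N) {p : ℕ} (hp : p.Prime)
    (h : ∀ k : ℕ, ((p ^ k : ℕ) : ℚ)⁻¹ ∈ N) {x : ℚ} (hx : x ∈ N) : x / p ∈ N := by
  have hd := inv_den h1 hx
  have hd0 := x.den_pos
  -- `x.den * p ∣ lcm (x.den) (p ^ (v + 1))`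
  obtain ⟨e, m, hpm, hem⟩ := Nat.exists_eq_pow_mul_and_not_dvd hd0.ne' p hp.ne_one
  have hm0 : m ≠ 0 := by
    rintro rfl; rw [mul_zero] at hem; omega
  have hmN : ((m : ℚ))⁻¹ ∈ N := inv_dvd hd0.ne' (by rw [hem]; exact Dvd.intro_left _ rfl) hd
  have hl := inv_lcm (pow_ne_zero (e + 1) hp.ne_zero) hm0 (h (e + 1)) hmN
  have hlcm : Nat.lcm (p ^ (e + 1)) m = p ^ (e + 1) * m :=
    Nat.Coprime.lcm_eq_mul (Nat.Coprime.pow_left _ ((Nat.Prime.coprime_iff_not_dvd hp).mpr hpm))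
  rw [hlcm] at hl
  have h2 := N.zsmul_mem hl x.num
  convert h2 using 1
  rw [zsmul_eq_mul]
  have hxd : (x.den : ℚ) = (p : ℚ) ^ e * m := by exact_mod_cast hem
  have hp0 : (p : ℚ) ≠ 0 := by exact_mod_cast hp.ne_zero
  have hmq : (m : ℚ) ≠ 0 := by exact_mod_cast hm0
  conv_lhs => rw [← Rat.num_div_den x, hxd]
  push_cast
  field_simp
  ring

/-- main theorem, for a group with a unipotent subgroup which is not cyclic -/
theorem main_cyc (Γ : Subgroup SQ)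
    (htr : ∀ q : ℕ, q.Prime → ∃ g ∈ Γ, 1 < padicNorm q g.val.trace)
    (a c : ℚ)
    (hline : ∃ δ ∈ Γ, a * (δ.val 1 0 * a + δ.val 1 1 * c) -
      c * (δ.val 0 0 * a + δ.val 0 1 * c) ≠ 0)
    (hnc : ∀ y : ℚ, ∃ x ∈ M Γ a c, ∀ k : ℤ, x ≠ k * y) : Γ = ⊤ := by
  classical
  obtain ⟨x₀, hx₀M, hx₀⟩ := hnc 0
  have hx₀0 : x₀ ≠ 0 := by simpa using hx₀ 0
  obtain ⟨s, hs0, hsM⟩ := exists_sq (M Γ a c) hx₀0 hx₀M
  obtain ⟨P, y, hy0, hPu, hPv⟩ := frame Γ a c hline s hs0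
  set Γ' := Γ.comap (MulAut.conj P).toMonoidHom with hΓ'
  apply comap_top (P := P)
  rw [← hΓ']
  have htr' := comap_tr P htr
  rw [← hΓ'] at htr'
  -- the group `N` of translations
  set N := M Γ' 1 0 with hN
  have hNu : ∀ x, x ∈ N ↔ uu x ∈ Γ' := fun x => by rw [hN, mem_M, T_uu]
  have hNM : ∀ x, x ∈ N ↔ x * s ^ 2 ∈ M Γ a c := fun x => (hNu x).trans (hPu x)
  have h1N : (1 : ℚ) ∈ N := by rw [hNM, one_mul]; exact hsM
  have hncN : ∀ y : ℚ, ∃ x ∈ N, ∀ k : ℤ, x ≠ k * y := by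
    intro y
    obtain ⟨x, hx, hxk⟩ := hnc (y * s ^ 2)
    refine ⟨x / s ^ 2, ?_, ?_⟩
    · rw [hNM]
      have : x / s ^ 2 * s ^ 2 = x := by field_simp
      rwa [this]
    · intro k hk
      apply hxk k
      rw [← mul_assoc, ← hk]
      field_simp
  -- the minimal `b`
  have hex : ∃ b : ℕ, 0 < b ∧ ∀ x ∈ N, vv (b * x) ∈ Γ' := by
    have hnum0 : 0 < y.num := Rat.num_pos.mpr hy0
    refine ⟨y.num.toNat, by omega, fun x hx => ?_⟩
    have e1 : ((y.num.toNat : ℕ) : ℚ) = y * y.den := by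
      have h2 : ((y.num.toNat : ℕ) : ℤ) = y.num := Int.toNat_of_nonneg hnum0.le
      have h3 : (((y.num.toNat : ℕ) : ℤ) : ℚ) = (y.num : ℚ) := by rw [h2]
      rw [Rat.mul_den_eq_num, ← h3, Int.cast_natCast]
    have e2 : ((y.num.toNat : ℕ) : ℚ) * x = y * (y.den * x) := by rw [e1]; ring
    rw [e2, hPv, ← hNM]
    have := N.zsmul_mem hx (y.den : ℤ)
    rw [zsmul_eq_mul] at this
    push_cast at this
    exact this
  set b := Nat.find hex with hb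
  obtain ⟨hb0, hbv⟩ := Nat.find_spec hex
  rw [← hb] at hb0 hbv
  have hmin : ∀ p : ℕ, p.Prime → p ∣ b → ∃ k : ℕ, ((p ^ k : ℕ) : ℚ)⁻¹ ∉ N := by
    intro p hp hpb
    by_contra hcon
    push Not at hcon
    obtain ⟨b', hb'⟩ := hpb
    have hb'0 : 0 < b' := by
      rcases Nat.eq_zero_or_pos b' with h | h
      · rw [h, mul_zero] at hb'; omega
      · exact h
    have hlt : b' < b := by
      rw [hb']
      have := hp.two_le
      nlinarith
    apply Nat.find_min hex (m := b') (by rw [← hb]; exact hlt)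
    refine ⟨hb'0, fun x hx => ?_⟩
    have h2 := hbv _ (le_of_all N h1N hp hcon hx)
    have hp0 : (p : ℚ) ≠ 0 := by exact_mod_cast hp.ne_zero
    have e : (b : ℚ) * (x / p) = b' * x := by
      rw [hb']
      push_cast
      field_simp
    rwa [e] at h2
  obtain ⟨Q, hQ2, ⟨t, ht⟩, hQN⟩ := exists_Q h1N b hb0 hmin hncN
  have hQ0 : (Q : ℚ) ≠ 0 := by positivity
  have hint : ∀ n : ℤ, (n : ℚ) ∈ N := by
    intro n
    have := N.zsmul_mem h1N n
    rwa [zsmul_eq_mul, mul_one] at this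
  have hb1 : vv b ∈ Γ' := by
    have := hbv 1 h1N
    rwa [mul_one] at this
  have hg : vv (-b) * uu (-(t : ℤ)) * vv (b * ((Q : ℚ))⁻¹) ∈ Γ' := by
    refine Γ'.mul_mem (Γ'.mul_mem ?_ ?_) (hbv _ hQN)
    · have := hbv (-1) (N.neg_mem h1N)
      rwa [mul_neg, mul_one] at this
    · exact (hNu _).mp (N.neg_mem (hint t))
  have hQt : (Q : ℚ) = 1 + b * t := by
    have : ((Q : ℤ) : ℚ) = ((1 + b * t : ℤ) : ℚ) := by
      congr 1; linarith
    push_cast at this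
    exact this
  refine main_hyp Γ' htr' 1 0 ⟨vv b, hb1, ?_⟩ one_ne_zero h1N hg (l' := ((Q : ℚ))⁻¹)
    (inv_ne_zero hQ0) ?_ ?_ ?_
  · simp only [vv00, vv01, vv10, vv11]
    have : (b : ℚ) ≠ 0 := by positivity
    simpa using this
  · intro h2
    have h3 : (Q : ℚ) ^ 2 = 1 := by
      rw [inv_pow] at h2
      exact inv_eq_one.mp h2
    have h4 : (2 : ℚ) ≤ Q := by exact_mod_cast hQ2
    nlinarith
  · simp only [mul_q, uu00, uu01, uu10, uu11, vv00, vv01, vv10, vv11]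
    field_simp
    rw [hQt]
    ring
  · simp only [mul_q, uu00, uu01, uu10, uu11, vv00, vv01, vv10, vv11]
    field_simp
    rw [hQt]
    ring

end Pool.Agent.Lib.MP_c356f3_al.Bor
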