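import Pool.Agent.Lib.MP_c356f3_al.BorT

/-!
Subgroups of `SL(2,ℚ)` containing a non-abelian upper triangular subgroup:
the use of Dirichlet's theorem.
-/

namespace Pool.Agent.Lib.MP_c356f3_al.Bor

open Matrix SurjAux

/-- a form of Dirichlet's theorem with control of one prime power dividing `P - 1` -/
lemma dir (n : ℤ) (D ℓ e B : ℕ) (hD : D ≠ 0) (h : IsCoprime n (D : ℤ)) (hℓ : ℓ.Prime)
    (he : ¬ ℓ ^ e ∣ 2 * D) :
    ∃ P : ℕ, P.Prime ∧ B < P ∧ (D : ℤ) ∣ P - n ∧ ¬ ℓ ^ e ∣ P - 1 := by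
  have hℓ0 : ℓ ≠ 0 := hℓ.ne_zero
  have hle : ℓ ^ e ≠ 0 := pow_ne_zero _ hℓ0
  suffices H : ∃ n' : ℤ, (D : ℤ) ∣ n' - n ∧ IsCoprime n' ((ℓ : ℤ) ^ e) ∧
      ¬ ((ℓ : ℤ) ^ e ∣ n' - 1) by
    obtain ⟨n', h1, h2, h3⟩ := H
    have h4 : IsCoprime n' (D : ℤ) := by
      obtain ⟨t, ht⟩ := h1
      have : n' = n + D * t := by linarith
      rw [this]
      exact h.add_mul_left_left t
    have h5 : IsCoprime n' ((D * ℓ ^ e : ℕ) : ℤ) := by
      push_cast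
      exact IsCoprime.mul_right h4 h2
    obtain ⟨P, hPB, hP, hmod⟩ := Nat.forall_exists_prime_gt_and_zmodEq B
      (q := D * ℓ ^ e) (mul_ne_zero hD hle) h5
    have h6 : ((D * ℓ ^ e : ℕ) : ℤ) ∣ P - n' := (Int.modEq_iff_dvd.mp hmod.symm)
    push_cast at h6
    refine ⟨P, hP, hPB, ?_, ?_⟩
    · have h7 : (D : ℤ) ∣ P - n' := (Dvd.intro _ rfl).trans h6
      have := dvd_add h7 h1
      simpa using this
    · intro h8
      apply h3
      have h9 : ((ℓ : ℤ) ^ e) ∣ (P : ℤ) - 1 := by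
        have : (((ℓ ^ e : ℕ)) : ℤ) ∣ ((P - 1 : ℕ) : ℤ) := Int.natCast_dvd_natCast.mpr h8
        rw [Nat.cast_sub hP.one_le] at this
        push_cast at this
        exact this
      have h10 : ((ℓ : ℤ) ^ e) ∣ P - n' := (Dvd.intro_left _ rfl).trans h6
      have := dvd_sub h9 h10
      simpa using this
  by_cases hd : ℓ ∣ D
  · have hcop : ∀ n' : ℤ, (D : ℤ) ∣ n' - n → IsCoprime n' ((ℓ : ℤ) ^ e) := by
      intro n' h1
      have h4 : IsCoprime n' (D : ℤ) := by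
        obtain ⟨t, ht⟩ := h1
        have : n' = n + D * t := by linarith
        rw [this]
        exact h.add_mul_left_left t
      exact (IsCoprime.of_isCoprime_of_dvd_right h4
        (Int.natCast_dvd_natCast.mpr hd)).pow_right
    by_cases h1 : ((ℓ : ℤ) ^ e ∣ n - 1)
    · have hn : (D : ℤ) ∣ (n + D) - n := by simp
      refine ⟨n + D, hn, hcop _ hn, fun h2 => he ?_⟩
      have h3 := dvd_sub h2 h1
      have h4 : (n + (D : ℤ) - 1) - (n - 1) = ((D : ℕ) : ℤ) := by ring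
      rw [h4] at h3
      have h5 : ℓ ^ e ∣ D := by exact_mod_cast h3
      exact h5.mul_left 2
    · have hn : (D : ℤ) ∣ n - n := by simp
      exact ⟨n, hn, hcop _ hn, h1⟩
  · have hcop : IsCoprime (D : ℤ) ((ℓ : ℤ) ^ e) := by
      have : Nat.Coprime D (ℓ ^ e) := ((Nat.Prime.coprime_iff_not_dvd hℓ).mpr hd).symm.pow_right e
      have := Nat.isCoprime_iff_coprime.mpr this
      push_cast at this
      exact this
    obtain ⟨u, v, huv⟩ := hcop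
    have e1 : n * (v * (ℓ : ℤ) ^ e) - u * D - n = D * (-(n * u) - u) := by
      linear_combination (n : ℤ) * huv
    have e2 : n * (v * (ℓ : ℤ) ^ e) - u * D + 1 = (ℓ : ℤ) ^ e * ((n + 1) * v) := by
      linear_combination -huv
    refine ⟨n * (v * (ℓ : ℤ) ^ e) - u * D, Dvd.intro _ e1.symm, ?_, ?_⟩
    · have h1 : IsCoprime (-1 : ℤ) ((ℓ : ℤ) ^ e) := isCoprime_one_left.neg_left
      have h2 := h1.add_mul_left_left ((n + 1) * v)
      have e3 : n * (v * (ℓ : ℤ) ^ e) - u * D = -1 + (ℓ : ℤ) ^ e * ((n + 1) * v) := by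
        rw [← e2]; ring
      rw [e3]
      exact h2
    · intro h3
      apply he
      have h4 : (ℓ : ℤ) ^ e ∣ n * (v * (ℓ : ℤ) ^ e) - u * D + 1 := Dvd.intro _ e2.symm
      have h5 := dvd_sub h4 h3
      have h6 : (n * (v * (ℓ : ℤ) ^ e) - u * D + 1) - (n * (v * (ℓ : ℤ) ^ e) - u * D - 1) =
          ((2 : ℕ) : ℤ) := by push_cast; ring
      rw [h6] at h5
      have h7 : ℓ ^ e ∣ 2 := by exact_mod_cast h5
      exact h7.mul_right D

lemma not_pow_dvd_lcm {ℓ e m n : ℕ} (hℓ : ℓ.Prime) (hm : m ≠ 0) (hn : n ≠ 0)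
    (h1 : ¬ ℓ ^ e ∣ m) (h2 : ¬ ℓ ^ e ∣ n) : ¬ ℓ ^ e ∣ Nat.lcm m n := by
  rw [hℓ.pow_dvd_iff_le_factorization (Nat.lcm_ne_zero hm hn), Nat.factorization_lcm hm hn]
  rw [hℓ.pow_dvd_iff_le_factorization hm] at h1
  rw [hℓ.pow_dvd_iff_le_factorization hn] at h2
  rw [Finsupp.sup_apply]
  intro h
  rcases le_sup_iff.mp h with h | h
  · exact h1 h
  · exact h2 h

/-- `P ∣ r ^ (2 k) - 1` if `P - 1 ∣ k` -/
lemma prime_dvd {r k P : ℕ} (hP : P.Prime) (hr : 0 < r) (hrP : r < P) (hk : P - 1 ∣ k) :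
    (P : ℤ) ∣ (r : ℤ) ^ (2 * k) - 1 := by
  obtain ⟨j, rfl⟩ := hk
  have hcop : IsCoprime (r : ℤ) (P : ℤ) := by
    rw [Nat.isCoprime_iff_coprime]
    exact Nat.Coprime.symm ((Nat.Prime.coprime_iff_not_dvd hP).mpr (Nat.not_dvd_of_pos_of_lt hr hrP))
  have h1 := Int.ModEq.pow_card_sub_one_eq_one hP hcop
  have h2 := h1.pow (2 * j)
  rw [one_pow, ← pow_mul] at h2
  have e : 2 * ((P - 1) * j) = (P - 1) * (2 * j) := by ring
  rw [e]
  exact Int.modEq_iff_dvd.mp h2.symm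

namespace Ell

variable {Γ : Subgroup SQ} {A : Subring ℚ} {r b : ℕ} (E : Ell Γ A r b)
include E

lemma M_uu {y : ℤ} {a c a' : ℤ} (h : a' = a + y * c) {x : ℚ} :
    x ∈ M Γ a' c ↔ x ∈ M Γ a c := by
  have := M_move_uu (x := x) (a := a) (c := c) (E.uu_int y)
  rw [h]
  push_cast
  exact this

lemma M_vv {y : ℤ} {a c c' : ℤ} (h : c' = c + b * y * a) {x : ℚ} :
    x ∈ M Γ a c' ↔ x ∈ M Γ a c := by
  have := M_move_vv (x := x) (a := a) (c := c) (E.vv_int y)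
  rw [h]
  push_cast
  rw [add_comm]
  exact this

/-- for each prime power `ℓ ^ e` not dividing `2 b` there is a good exponent `k` not divisible by
`ℓ ^ e` -/
lemma key (a c : ℤ) (hac : IsCoprime a c) (hc : c ≠ 0) (ℓ e : ℕ) (hℓ : ℓ.Prime)
    (he : ¬ ℓ ^ e ∣ 2 * b) : ∃ k : ℕ, ¬ ℓ ^ e ∣ k ∧ ((r : ℚ) ^ (2 * k) - 1) ∈ M Γ a c ∧
      (∀ x ∈ M Γ a c, (r : ℚ) ^ (2 * k) * x ∈ M Γ a c) ∧
      (∀ x ∈ M Γ a c, ((r : ℚ) ^ (2 * k))⁻¹ * x ∈ M Γ a c) := by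
  have hb := E.pos
  have hr := E.two
  -- `c = d c₁`, `b = d b₁`
  obtain ⟨d, c₁, b₁, hd0, hcd, hbd, hcop1⟩ : ∃ (d : ℕ) (c₁ : ℤ) (b₁ : ℕ), 0 < d ∧ c = d * c₁ ∧
      b = d * b₁ ∧ IsCoprime c₁ (b₁ : ℤ) := by
    have hg : 0 < Int.gcd c b := Int.gcd_pos_of_ne_zero_left _ hc
    obtain ⟨c₁, hc₁⟩ := Int.gcd_dvd_left c (b : ℤ)
    obtain ⟨b₁, hb₁⟩ := Int.gcd_dvd_right c (b : ℤ)
    have hb₁0 : 0 ≤ b₁ := by
      by_contra hneg
      have : (Int.gcd c b : ℤ) * b₁ < 0 := mul_neg_of_pos_of_neg (by exact_mod_cast hg)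
        (by omega)
      omega
    refine ⟨Int.gcd c b, c₁, b₁.toNat, hg, hc₁, ?_, ?_⟩
    · zify
      rw [Int.toNat_of_nonneg hb₁0]
      exact hb₁
    · rw [Int.toNat_of_nonneg hb₁0]
      have h1 := Int.gcd_eq_gcd_ab c (b : ℤ)
      refine ⟨Int.gcdA c b, Int.gcdB c b, ?_⟩
      have h2 : (Int.gcd c b : ℤ) * (Int.gcdA c b * c₁ + Int.gcdB c b * b₁) =
          (Int.gcd c b : ℤ) * 1 := by
        rw [mul_one]
        conv_rhs => rw [h1]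
        have e1 : (Int.gcd c b : ℤ) * (Int.gcdA c b * c₁ + Int.gcdB c b * b₁) =
          Int.gcdA c b * ((Int.gcd c b : ℤ) * c₁) + Int.gcdB c b * ((Int.gcd c b : ℤ) * b₁) := by
          ring
        rw [e1, ← hc₁, ← hb₁]
        ring
      exact mul_left_cancel₀ (by exact_mod_cast hg.ne') h2
  have hb₁0 : b₁ ≠ 0 := by rintro rfl; omega
  have hdb : d ≤ b := by
    rw [hbd]; exact Nat.le_mul_of_pos_right _ (Nat.pos_of_ne_zero hb₁0)
  have hb₁b : b₁ ≤ b := by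
    rw [hbd]; exact Nat.le_mul_of_pos_left _ hd0
  have hbdZ : (b : ℤ) = d * b₁ := by exact_mod_cast hbd
  -- a prime is coprime to a smaller positive integer
  have small : ∀ {P n : ℕ}, P.Prime → 0 < n → n < P → IsCoprime (P : ℤ) (n : ℤ) := by
    intro P n hP hn hnP
    rw [Nat.isCoprime_iff_coprime]
    exact (Nat.Prime.coprime_iff_not_dvd hP).mpr (Nat.not_dvd_of_pos_of_lt hn hnP)
  -- step 1
  obtain ⟨P₀, hP₀B, hP₀, hmod₀⟩ := Nat.forall_exists_prime_gt_and_zmodEq (ℓ + r + b)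
    (q := c.natAbs) (a := a) (by omega) (by
      rw [Int.natCast_natAbs]
      exact (IsCoprime.abs_right_iff a c).mpr hac)
  have hd₀ : c ∣ (P₀ : ℤ) - a := by
    have := Int.modEq_iff_dvd.mp hmod₀.symm
    rwa [Int.natCast_natAbs, abs_dvd] at this
  obtain ⟨y₀, hy₀⟩ := hd₀
  have hP₀c : IsCoprime (P₀ : ℤ) c := by
    have e1 : (P₀ : ℤ) = a + c * y₀ := by linarith
    rw [e1]
    exact hac.add_mul_left_left y₀
  have hP₀c₁ : IsCoprime c₁ (P₀ : ℤ) := by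
    rw [hcd] at hP₀c
    exact hP₀c.symm.of_mul_left_right
  -- step 2
  obtain ⟨R₀, hR₀B, hR₀, hmod₁⟩ := Nat.forall_exists_prime_gt_and_zmodEq (ℓ + r + b + P₀)
    (q := b₁ * P₀) (a := c₁) (mul_ne_zero hb₁0 hP₀.ne_zero) (by
      push_cast
      exact IsCoprime.mul_right hcop1 hP₀c₁)
  obtain ⟨y₁, hy₁⟩ : ((b₁ * P₀ : ℕ) : ℤ) ∣ (R₀ : ℤ) - c₁ := Int.modEq_iff_dvd.mp hmod₁.symm
  push_cast at hy₁
  -- step 3
  have hne : ∀ {P n : ℕ}, P.Prime → ℓ < P → ¬ ℓ ^ e ∣ 2 * n → ¬ ℓ ^ e ∣ 2 * (n * P) := by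
    intro P n hP hlt h1 h2
    apply h1
    have h3 : Nat.Coprime (ℓ ^ e) P :=
      Nat.Coprime.pow_left e ((Nat.coprime_primes hℓ hP).mpr hlt.ne)
    have h4 : 2 * (n * P) = (2 * n) * P := by ring
    rw [h4] at h2
    exact h3.dvd_of_dvd_mul_right h2
  have hed : ¬ ℓ ^ e ∣ 2 * d := fun h => he (h.trans (by rw [hbd]; exact ⟨b₁, by ring⟩))
  have heb : ¬ ℓ ^ e ∣ 2 * b₁ := fun h => he (h.trans (by rw [hbd]; exact ⟨d, by ring⟩))
  obtain ⟨P, hP, hPB, hPd, hPe⟩ := dir (P₀ : ℤ) (d * R₀) ℓ e R₀ (mul_ne_zero hd0.ne' hR₀.ne_zero)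
    (by
      push_cast
      refine IsCoprime.mul_right (small hP₀ hd0 (by omega)) ?_
      exact (small hR₀ hP₀.pos (by omega)).symm) hℓ (hne hR₀ (by omega) hed)
  obtain ⟨y₂, hy₂⟩ := hPd
  push_cast at hy₂
  -- step 4
  obtain ⟨R, hR, hRB, hRd, hRe⟩ := dir (R₀ : ℤ) (b₁ * P) ℓ e P (mul_ne_zero hb₁0 hP.ne_zero)
    (by
      push_cast
      refine IsCoprime.mul_right (small hR₀ (Nat.pos_of_ne_zero hb₁0) (by omega)) ?_
      exact (small hP hR₀.pos (by omega)).symm) hℓ (hne hP (by omega) heb)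
  obtain ⟨y₃, hy₃⟩ := hRd
  push_cast at hy₃
  -- the orbit
  have horb : ∀ x : ℚ, x ∈ M Γ ((P : ℤ) : ℚ) ((d * (R : ℤ) : ℤ) : ℚ) ↔ x ∈ M Γ a c := by
    intro x
    have s1 : x ∈ M Γ ((P₀ : ℤ) : ℚ) (c : ℚ) ↔ x ∈ M Γ a c :=
      E.M_uu (y := y₀) (by linear_combination hy₀)
    have s2 : x ∈ M Γ ((P₀ : ℤ) : ℚ) ((d * (R₀ : ℤ) : ℤ) : ℚ) ↔ x ∈ M Γ ((P₀ : ℤ) : ℚ) (c : ℚ) :=
      E.M_vv (y := y₁) (by rw [hcd, hbdZ]; linear_combination (d : ℤ) * hy₁)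
    have s3 : x ∈ M Γ ((P : ℤ) : ℚ) ((d * (R₀ : ℤ) : ℤ) : ℚ) ↔
        x ∈ M Γ ((P₀ : ℤ) : ℚ) ((d * (R₀ : ℤ) : ℤ) : ℚ) :=
      E.M_uu (y := y₂) (by linear_combination hy₂)
    have s4 : x ∈ M Γ ((P : ℤ) : ℚ) ((d * (R : ℤ) : ℤ) : ℚ) ↔
        x ∈ M Γ ((P : ℤ) : ℚ) ((d * (R₀ : ℤ) : ℤ) : ℚ) :=
      E.M_vv (y := y₃) (by rw [hbdZ]; linear_combination (d : ℤ) * hy₃)
    rw [s4, s3, s2, s1]
  have hPR : (R : ℕ) ≠ P := by omega
  refine ⟨Nat.lcm (P - 1) (R - 1), not_pow_dvd_lcm hℓ (by have := hP.two_le; omega)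
    (by have := hR.two_le; omega) hPe hRe, ?_⟩
  set k := Nat.lcm (P - 1) (R - 1) with hk
  have hdv : (P : ℤ) * (b : ℤ) * (d * (R : ℤ)) ∣ (r : ℤ) ^ (2 * k) - 1 := by
    have v1 : (P : ℤ) ∣ (r : ℤ) ^ (2 * k) - 1 :=
      prime_dvd hP (by omega) (by omega) (Nat.dvd_lcm_left _ _)
    have v2 : (R : ℤ) ∣ (r : ℤ) ^ (2 * k) - 1 :=
      prime_dvd hR (by omega) (by omega) (Nat.dvd_lcm_right _ _)
    have v3 : (b : ℤ) * d ∣ (r : ℤ) ^ (2 * k) - 1 := by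
      have w1 : (b : ℤ) * d ∣ (b : ℤ) ^ 2 := ⟨b₁, by rw [hbdZ]; ring⟩
      have w2 : (r : ℤ) - 1 ∣ (r : ℤ) ^ (2 * k) - 1 := sub_one_dvd_pow_sub_one _ _
      exact w1.trans (E.dvd.trans w2)
    have c1 : IsCoprime (P : ℤ) (R : ℤ) := (small hR hP.pos (by omega)).symm
    have c2 : IsCoprime (P : ℤ) ((b : ℤ) * d) :=
      IsCoprime.mul_right (small hP (by omega) (by omega)) (small hP hd0 (by omega))
    have c3 : IsCoprime (R : ℤ) ((b : ℤ) * d) :=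
      IsCoprime.mul_right (small hR (by omega) (by omega)) (small hR hd0 (by omega))
    have v4 := c1.mul_dvd v1 v2
    have v5 := (IsCoprime.mul_left c2 c3).mul_dvd v4 v3
    have e1 : (P : ℤ) * (b : ℤ) * (d * (R : ℤ)) = (P : ℤ) * R * (b * d) := by ring
    rw [e1]
    exact v5
  obtain ⟨f1, f2, f3⟩ := E.wid k (P : ℤ) (d * (R : ℤ)) (by exact_mod_cast hP.ne_zero)
    (mul_ne_zero (by exact_mod_cast hd0.ne') (by exact_mod_cast hR.ne_zero)) hdv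
  refine ⟨(horb _).mp f1, fun x hx => (horb _).mp (f2 x ((horb _).mpr hx)),
    fun x hx => (horb _).mp (f3 x ((horb _).mpr hx))⟩

/-- the good exponents -/
def good (a c : ℚ) : AddSubgroup ℤ where
  carrier := {k | ((r : ℚ) ^ (2 * k) - 1) ∈ M Γ a c ∧
    ∀ x, (r : ℚ) ^ (2 * k) * x ∈ M Γ a c ↔ x ∈ M Γ a c}
  zero_mem' := by
    have := E.r_ne
    refine ⟨?_, ?_⟩
    · simp
    · intro x; simp
  add_mem' := by
    intro k l hk hl
    have h0 := E.r_ne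
    refine ⟨?_, ?_⟩
    · have h1 := (hk.2 _).mpr hl.1
      have h2 := (M Γ a c).add_mem h1 hk.1
      convert h2 using 1
      rw [mul_add, zpow_add₀ h0]
      ring
    · intro x
      rw [mul_add, zpow_add₀ h0, mul_assoc, hk.2, hl.2]
  neg_mem' := by
    intro k hk
    have h0 := E.r_ne
    refine ⟨?_, ?_⟩
    · rw [← hk.2]
      have h2 := (M Γ a c).neg_mem hk.1
      convert h2 using 1
      rw [mul_neg, _root_.zpow_neg, mul_sub, mul_inv_cancel₀ (zpow_ne_zero _ h0)]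
      ring
    · intro x
      rw [← hk.2, ← mul_assoc, mul_neg, _root_.zpow_neg, mul_inv_cancel₀ (zpow_ne_zero _ h0), one_mul]

/-- (Uni): `r ^ (4 b) - 1 ∈ M (a,c)` for all coprime `a, c` -/
theorem uni (a c : ℤ) (hac : IsCoprime a c) : ((r : ℚ) ^ (4 * b) - 1) ∈ M Γ a c := by
  by_cases hc : c = 0
  · subst hc
    rw [mem_M, Int.cast_zero, T_uu']
    have h1 := E.uu_int (a ^ 2 * ((r : ℤ) ^ (4 * b) - 1))
    push_cast at h1
    exact h1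
  obtain ⟨g, hg⟩ := Int.subgroup_cyclic (E.good a c)
  have hmem : ∀ k : ℤ, k ∈ E.good a c ↔ g ∣ k := by
    intro k
    rw [hg, ← AddSubgroup.zmultiples_eq_closure, Int.mem_zmultiples_iff]
  have h1 : g.natAbs ∣ 2 * b := by
    rw [Nat.dvd_iff_prime_pow_dvd_dvd]
    intro ℓ e hℓ hd
    by_contra he
    obtain ⟨k, hk1, hk2, hk3, hk4⟩ := E.key a c hac hc ℓ e hℓ he
    apply hk1
    have h2 : (k : ℤ) ∈ E.good a c := by
      have e1 : (r : ℚ) ^ (2 * (k : ℤ)) = (r : ℚ) ^ (2 * k) := by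
        rw [← zpow_natCast]; push_cast; rfl
      refine ⟨?_, ?_⟩
      · rw [e1]; exact hk2
      · intro x
        rw [e1]
        refine ⟨fun hx => ?_, fun hx => hk3 x hx⟩
        have h3 := hk4 _ hx
        rwa [← mul_assoc, inv_mul_cancel₀ (pow_ne_zero _ E.r_ne), one_mul] at h3
    rw [hmem] at h2
    exact hd.trans (Int.natAbs_dvd_natAbs.mpr h2)
  have h2 : ((2 * b : ℕ) : ℤ) ∈ E.good a c := by
    rw [hmem]
    exact Int.natAbs_dvd.mp (Int.natCast_dvd_natCast.mpr h1)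
  have h3 := h2.1
  have e1 : (r : ℚ) ^ (2 * ((2 * b : ℕ) : ℤ)) = (r : ℚ) ^ (4 * b) := by
    rw [← zpow_natCast]; push_cast; congr 1; ring
  rwa [e1] at h3

end Ell

end Pool.Agent.Lib.MP_c356f3_al.Bor
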