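import Pool.Agent.Lib.MP_c356f3_al.StmtsX

/-!
Springer's property (U), module X3: two directions that avoid the exit intervals are separated.
-/

namespace Pool.Agent.Lib.MP_c356f3_al

open Matrix

namespace CrossAux

/-- the first coordinate of `x⁻¹ v` -/
def c0 (x : SLZ) (v : Fin 2 → ℝ) : ℝ := (x 1 1 : ℝ) * v 0 - (x 0 1 : ℝ) * v 1

/-- the second coordinate of `x⁻¹ v` -/
def c1 (x : SLZ) (v : Fin 2 → ℝ) : ℝ := (x 0 0 : ℝ) * v 1 - (x 1 0 : ℝ) * v 0

theorem pr_eq (x : SLZ) (v : Fin 2 → ℝ) : pr x v = c0 x v * c1 x v := rfl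

theorem s_ent (x : SLZ) : (x * sM) 0 0 = x 0 1 ∧ (x * sM) 0 1 = - x 0 0 ∧
    (x * sM) 1 0 = x 1 1 ∧ (x * sM) 1 1 = - x 1 0 := by
  refine ⟨?_, ?_, ?_, ?_⟩
  · change (x.val * sM.val) 0 0 = _
    simp [Matrix.mul_apply, Fin.sum_univ_two, sM]
  · change (x.val * sM.val) 0 1 = _
    simp [Matrix.mul_apply, Fin.sum_univ_two, sM]
  · change (x.val * sM.val) 1 0 = _
    simp [Matrix.mul_apply, Fin.sum_univ_two, sM]
  · change (x.val * sM.val) 1 1 = _
    simp [Matrix.mul_apply, Fin.sum_univ_two, sM]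

theorem r_ent (x : SLZ) : (x * rM) 0 0 = x 0 0 + x 0 1 ∧ (x * rM) 0 1 = - x 0 0 ∧
    (x * rM) 1 0 = x 1 0 + x 1 1 ∧ (x * rM) 1 1 = - x 1 0 := by
  refine ⟨?_, ?_, ?_, ?_⟩
  · change (x.val * rM.val) 0 0 = _
    simp [Matrix.mul_apply, Fin.sum_univ_two, rM]
  · change (x.val * rM.val) 0 1 = _
    simp [Matrix.mul_apply, Fin.sum_univ_two, rM]
  · change (x.val * rM.val) 1 0 = _
    simp [Matrix.mul_apply, Fin.sum_univ_two, rM]
  · change (x.val * rM.val) 1 1 = _
    simp [Matrix.mul_apply, Fin.sum_univ_two, rM]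

theorem c0_s (x : SLZ) (v : Fin 2 → ℝ) : c0 (x * sM) v = c1 x v := by
  obtain ⟨h1, h2, h3, h4⟩ := s_ent x
  unfold c0 c1
  rw [h4, h2]
  push_cast
  ring

theorem c1_s (x : SLZ) (v : Fin 2 → ℝ) : c1 (x * sM) v = - c0 x v := by
  obtain ⟨h1, h2, h3, h4⟩ := s_ent x
  unfold c0 c1
  rw [h1, h3]
  ring

theorem c0_r (x : SLZ) (v : Fin 2 → ℝ) : c0 (x * rM) v = c1 x v := by
  obtain ⟨h1, h2, h3, h4⟩ := r_ent x
  unfold c0 c1
  rw [h4, h2]
  push_cast
  ring

theorem c1_r (x : SLZ) (v : Fin 2 → ℝ) : c1 (x * rM) v = c1 x v - c0 x v := by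
  obtain ⟨h1, h2, h3, h4⟩ := r_ent x
  unfold c0 c1
  rw [h1, h3]
  push_cast
  ring

theorem dt_eq (x : SLZ) (v v' : Fin 2 → ℝ) :
    c0 x v * c1 x v' - c1 x v * c0 x v' = dt v v' := by
  have h := x.det_coe
  rw [Matrix.det_fin_two] at h
  have h' : (x 0 0 : ℝ) * (x 1 1 : ℝ) - (x 0 1 : ℝ) * (x 1 0 : ℝ) = 1 := by
    exact_mod_cast h
  unfold c0 c1 dt
  linear_combination (v 0 * v' 1 - v 1 * v' 0) * h'

/-- the size -/
noncomputable def TT (x : SLZ) (v v' : Fin 2 → ℝ) : ℝ :=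
  (|c0 x v| + |c1 x v|) * (|c0 x v'| + |c1 x v'|)

/-- elementary inequality -/
theorem abs_aux {a b : ℝ} (h : 0 < a * b) (h' : b * (b - a) < 0) :
    |b - a| + |b| = |a| ∧ |b| < |a| := by
  rcases lt_trichotomy a 0 with ha | ha | ha
  · have hb : b < 0 := by nlinarith
    have : a < b := by nlinarith
    rw [abs_of_neg ha, abs_of_neg hb, abs_of_pos (by linarith)]
    constructor <;> linarith
  · subst ha; simp at h
  · have hb : 0 < b := by nlinarith
    have : b < a := by nlinarith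
    rw [abs_of_pos ha, abs_of_pos hb, abs_of_neg (by linarith)]
    constructor <;> linarith

theorem abs_dt_le (x : SLZ) (v v' : Fin 2 → ℝ) :
    |dt v v'| ≤ |c0 x v| * |c1 x v'| + |c1 x v| * |c0 x v'| := by
  rw [← dt_eq x, ← abs_mul, ← abs_mul]
  exact abs_sub _ _

end CrossAux

open CrossAux in
theorem stCross : StCross := by
  intro H Y E hE v v' hdt hv hv' hx hx'
  obtain ⟨-, h1, -, hr, -, -⟩ := hE
  by_contra hcon
  push Not at hcon
  -- the same signs
  have hs : ∀ x ∈ E, 0 < pr x v * pr x v' := fun x hxE =>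
    lt_of_le_of_ne (hcon x hxE) (mul_ne_zero (hv x) (hv' x)).symm
  -- start
  have hstart : ∃ x ∈ E, 0 < pr x v ∧ 0 < pr x v' := by
    rcases lt_or_gt_of_ne (hv 1) with h | h
    · have h' : pr 1 v' < 0 := by
        by_contra hc
        push Not at hc
        nlinarith [hs 1 h1]
      have hsE : (1 : SLZ) * sM ∈ E := by
        by_contra hc
        exact absurd (hx 1 h1 hc) (by linarith)
      refine ⟨_, hsE, ?_, ?_⟩
      · rw [pr_eq, c0_s, c1_s]; rw [pr_eq] at h; nlinarith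
      · rw [pr_eq, c0_s, c1_s]; rw [pr_eq] at h'; nlinarith
    · refine ⟨1, h1, h, ?_⟩
      by_contra hc
      push Not at hc
      nlinarith [hs 1 h1]
  -- step
  have hstep : ∀ x ∈ E, 0 < pr x v → 0 < pr x v' → ∃ y ∈ E, 0 < pr y v ∧ 0 < pr y v' ∧
      TT y v v' ≤ TT x v v' - |dt v v'| := by
    intro x hxE hp hp'
    have hrE := hr x hxE
    have hrrE := hr _ hrE
    have e1 := pr_eq (x * rM) v
    have e1' := pr_eq (x * rM) v'
    rw [c0_r, c1_r] at e1 e1'
    have e2 := pr_eq (x * rM * rM) v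
    simp only [c0_r, c1_r] at e2
    rw [pr_eq] at hp hp'
    have hd := abs_dt_le x v v'
    rcases lt_or_gt_of_ne (hv (x * rM)) with h | h
    · have h' : pr (x * rM) v' < 0 := by
        by_contra hc
        push Not at hc
        nlinarith [hs _ hrE]
      have hsE : x * rM * sM ∈ E := by
        by_contra hc
        exact absurd (hx _ hrE hc) (by linarith)
      rw [e1] at h
      rw [e1'] at h'
      refine ⟨_, hsE, ?_, ?_, ?_⟩
      · rw [pr_eq, c0_s, c1_s, c0_r, c1_r]; nlinarith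
      · rw [pr_eq, c0_s, c1_s, c0_r, c1_r]; nlinarith
      · unfold TT
        simp only [c0_s, c1_s, c0_r, c1_r]
        rw [abs_neg, abs_neg, (abs_aux hp h).1, (abs_aux hp' h').1]
        nlinarith [mul_nonneg (abs_nonneg (c1 x v)) (abs_nonneg (c1 x v'))]
    · have h' : 0 < pr (x * rM) v' := by
        by_contra hc
        push Not at hc
        nlinarith [hs _ hrE]
      rw [e1] at h
      rw [e1'] at h'
      have key : ∀ a b : ℝ, 0 < a * b → 0 < b * (b - a) → a * (a - b) < 0 := by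
        intro a b h1 h2
        by_contra hc
        push Not at hc
        rcases lt_trichotomy a 0 with ha | ha | ha
        · have hb : b < 0 := by nlinarith
          nlinarith
        · subst ha; simp at h1
        · have hb : 0 < b := by nlinarith
          nlinarith
      have k := key _ _ hp h
      have k' := key _ _ hp' h'
      have hsE : x * rM * rM * sM ∈ E := by
        by_contra hc
        refine absurd (hx _ hrrE hc) (not_le.2 ?_)
        rw [e2]
        nlinarith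
      refine ⟨_, hsE, ?_, ?_, ?_⟩
      · simp only [pr_eq, c0_s, c1_s, c0_r, c1_r]; nlinarith
      · simp only [pr_eq, c0_s, c1_s, c0_r, c1_r]; nlinarith
      · unfold TT
        have a1 := (abs_aux (a := c1 x v) (b := c0 x v) (by linarith) k).1
        have a1' := (abs_aux (a := c1 x v') (b := c0 x v') (by linarith) k').1
        simp only [c0_s, c1_s, c0_r, c1_r]
        have b1 : c1 x v - c0 x v - c1 x v = - c0 x v := by ring
        have b1' : c1 x v' - c0 x v' - c1 x v' = - c0 x v' := by ring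
        rw [b1, b1', abs_neg, abs_neg, abs_neg, abs_neg, abs_sub_comm (c1 x v),
          abs_sub_comm (c1 x v'), add_comm |c0 x v|, a1, add_comm |c0 x v'|, a1']
        nlinarith [mul_nonneg (abs_nonneg (c0 x v)) (abs_nonneg (c0 x v'))]
  obtain ⟨x0, hx0, p0, p0'⟩ := hstart
  have hiter : ∀ n : ℕ, ∃ x ∈ E, 0 < pr x v ∧ 0 < pr x v' ∧
      TT x v v' ≤ TT x0 v v' - n * |dt v v'| := by
    intro n
    induction n with
    | zero => exact ⟨x0, hx0, p0, p0', by simp⟩
    | succ n ih =>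
      obtain ⟨x, hx1, hx2, hx3, hx4⟩ := ih
      obtain ⟨y, hy1, hy2, hy3, hy4⟩ := hstep x hx1 hx2 hx3
      refine ⟨y, hy1, hy2, hy3, ?_⟩
      push_cast
      linarith
  have hpos : 0 < |dt v v'| := abs_pos.2 hdt
  obtain ⟨n, hn⟩ := exists_nat_gt (TT x0 v v' / |dt v v'|)
  obtain ⟨x, -, -, -, h4⟩ := hiter n
  have h5 : 0 ≤ TT x v v' := by unfold TT; positivity
  rw [div_lt_iff₀ hpos] at hn
  linarith

end Pool.Agent.Lib.MP_c356f3_al
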