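import Pool.Agent.Lib.MP_c356f3_al.Stmts

/-!
Module E: a basis `ρ (s k)` of `M₂(ℂ)` with rational traces has a rational dual matrix.
-/

namespace Pool.Agent.Lib.MP_c356f3_al

open Matrix

universe u

namespace DualAux

/-- the trace form on `M₂(ℂ)` is nondegenerate -/
lemma eq_zero_of_trace {X : Matrix (Fin 2) (Fin 2) ℂ}
    (h : ∀ Y : Matrix (Fin 2) (Fin 2) ℂ, (Y * X).trace = 0) : X = 0 := by
  ext i j
  have := h (Matrix.single j i 1)
  rw [Matrix.trace_single_mul] at this
  simpa using this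

/-- four linearly independent matrices span -/
lemma exists_coeff {b : Fin 4 → Matrix (Fin 2) (Fin 2) ℂ} (hb : LinearIndependent ℂ b)
    (C : Matrix (Fin 2) (Fin 2) ℂ) : ∃ c : Fin 4 → ℂ, C = ∑ l, c l • b l := by
  have hcard : Fintype.card (Fin 4) = Module.finrank ℂ (Matrix (Fin 2) (Fin 2) ℂ) := by
    rw [Module.finrank_matrix]
    simp
  have hspan := hb.span_eq_top_of_card_eq_finrank' hcard
  have hC : C ∈ Submodule.span ℂ (Set.range b) := by
    rw [hspan]
    exact Submodule.mem_top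
  obtain ⟨c, hc⟩ := (Submodule.mem_span_range_iff_exists_fun ℂ).mp hC
  exact ⟨c, hc.symm⟩

end DualAux

open DualAux

theorem stDual : StDual.{u} := by
  intro G _ ρ χ hχ s hs
  set b : Fin 4 → Matrix (Fin 2) (Fin 2) ℂ := fun k => (ρ (s k)).val with hb
  set T : Matrix (Fin 4) (Fin 4) ℚ := fun k l => χ (s k * s l) with hT
  have htr : ∀ k l, (b k * b l).trace = ((T k l : ℚ) : ℂ) := by
    intro k l
    have := hχ (s k * s l)
    rw [map_mul] at this
    exact this
  have hdet : T.det ≠ 0 := by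
    intro h0
    have h1 : (T.map (Rat.castHom ℂ)).det = 0 := by
      rw [← RingHom.mapMatrix_apply, ← RingHom.map_det, h0, map_zero]
    obtain ⟨v, hv0, hv⟩ := Matrix.exists_mulVec_eq_zero_iff.mpr h1
    apply hv0
    have hX : ∑ l, v l • b l = 0 := by
      apply eq_zero_of_trace
      intro Y
      obtain ⟨c, rfl⟩ := exists_coeff hs Y
      have h2 : ∀ k, (b k * ∑ l, v l • b l).trace = 0 := by
        intro k
        have h3 := congrFun hv k
        rw [Matrix.mul_sum, Matrix.trace_sum]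
        simp only [Matrix.mul_smul, Matrix.trace_smul, htr, smul_eq_mul]
        simp only [Matrix.mulVec, dotProduct, Matrix.map_apply, Pi.zero_apply] at h3
        rw [← h3]
        refine Finset.sum_congr rfl fun l _ => ?_
        rw [mul_comm]
        rfl
      rw [Matrix.sum_mul, Matrix.trace_sum]
      refine Finset.sum_eq_zero fun k _ => ?_
      rw [Matrix.smul_mul, Matrix.trace_smul, h2, smul_zero]
    have := Fintype.linearIndependent_iff.mp hs v hX
    ext l
    exact this l
  refine ⟨T⁻¹, fun C => ?_⟩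
  obtain ⟨c, rfl⟩ := exists_coeff hs C
  have h1 : ∀ k, ((∑ l, c l • b l) * (ρ (s k)).val).trace = ∑ m, c m * ((T m k : ℚ) : ℂ) := by
    intro k
    rw [Matrix.sum_mul, Matrix.trace_sum]
    refine Finset.sum_congr rfl fun m _ => ?_
    rw [Matrix.smul_mul, Matrix.trace_smul, smul_eq_mul]
    congr 1
    exact htr m k
  simp only [h1]
  rw [Finset.sum_comm]
  refine Finset.sum_congr rfl fun l _ => ?_
  rw [← Finset.sum_smul]
  congr 1
  have h2 : ∀ m, ∑ k, ((T m k : ℚ) : ℂ) * (((T⁻¹) k l : ℚ) : ℂ) = if m = l then 1 else 0 := by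
    intro m
    have h3 : (T * T⁻¹) m l = if m = l then 1 else 0 := by
      rw [Matrix.mul_nonsing_inv T (isUnit_iff_ne_zero.mpr hdet), Matrix.one_apply]
    have h4 : (((T * T⁻¹) m l : ℚ) : ℂ) = if m = l then 1 else 0 := by
      rw [h3]
      split_ifs <;> simp
    rw [← h4, Matrix.mul_apply]
    push_cast
    rfl
  have h5 : ∑ k, (∑ m, c m * ((T m k : ℚ) : ℂ)) * (((T⁻¹) k l : ℚ) : ℂ) =
      ∑ m, c m * ∑ k, ((T m k : ℚ) : ℂ) * (((T⁻¹) k l : ℚ) : ℂ) := by
    simp only [Finset.sum_mul, Finset.mul_sum]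
    rw [Finset.sum_comm]
    refine Finset.sum_congr rfl fun m _ => Finset.sum_congr rfl fun k _ => ?_
    ring
  rw [h5]
  simp only [h2]
  simp

end Pool.Agent.Lib.MP_c356f3_al
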