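import Pool.Agent.Lib.MP_c356f3_al.StmtsX

/-!
Module X10: the eigendirections of a conjugate of a hyperbolic integral element.
-/

namespace Pool.Agent.Lib.MP_c356f3_al

namespace EigAux

open Matrix

/-- `t² - 4` is not the square of a rational number if `|t| > 2` -/
lemma not_sq (t : ℤ) (ht : 2 < |t|) (q : ℚ) : (t : ℚ) ^ 2 - 4 ≠ q ^ 2 := by
  intro h
  -- `q` is an integer
  have hq : ∃ z : ℤ, (z : ℚ) = q := by
    have h1 : IsIntegral ℤ q := by
      refine ⟨Polynomial.X ^ 2 - Polynomial.C (t ^ 2 - 4), ?_, ?_⟩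
      · exact Polynomial.monic_X_pow_sub_C _ (by norm_num)
      · rw [Polynomial.eval₂_sub, Polynomial.eval₂_pow, Polynomial.eval₂_X, Polynomial.eval₂_C,
          ← h]
        simp
    obtain ⟨z, hz⟩ := IsIntegrallyClosed.isIntegral_iff.mp h1
    exact ⟨z, by simpa using hz⟩
  obtain ⟨z, rfl⟩ := hq
  have h2 : t ^ 2 - 4 = z ^ 2 := by exact_mod_cast h
  -- `|z| < |t|`, so `|z| ≤ |t| - 1`
  have h3 : |t| ^ 2 - 4 = |z| ^ 2 := by rw [sq_abs, sq_abs]; exact h2
  have h4 : 0 ≤ |z| := abs_nonneg z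
  have h5 : |z| < |t| := by nlinarith
  have h6 : |z| ≤ |t| - 1 := by omega
  have h7 : |z| ≠ |t| - 1 := by
    intro h8
    rw [h8] at h3
    have : 2 * |t| = 5 := by nlinarith
    omega
  have h9 : |z| ≤ |t| - 2 := by omega
  nlinarith

/-- irrationality of the square root of `t² - 4` -/
lemma irr (t : ℤ) (ht : 2 < |t|) (p q : ℚ) (h : (p : ℝ) * √((t : ℝ) ^ 2 - 4) + q = 0) :
    p = 0 ∧ q = 0 := by
  have hD : 0 ≤ (t : ℝ) ^ 2 - 4 := by
    have h1 : (2 : ℝ) < |(t : ℝ)| := by exact_mod_cast ht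
    have h2 : (t : ℝ) ^ 2 = |(t : ℝ)| ^ 2 := (sq_abs _).symm
    nlinarith
  have hp : p = 0 := by
    by_contra hp
    have hp' : (p : ℝ) ≠ 0 := by exact_mod_cast hp
    have h1 : √((t : ℝ) ^ 2 - 4) = ((-q / p : ℚ) : ℝ) := by
      push_cast
      field_simp
      linarith
    have h2 : (t : ℝ) ^ 2 - 4 = (((-q / p : ℚ) : ℝ)) ^ 2 := by
      rw [← h1, Real.sq_sqrt hD]
    have h3 : (t : ℚ) ^ 2 - 4 = (-q / p) ^ 2 := by exact_mod_cast h2
    exact not_sq t ht _ h3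
  subst hp
  refine ⟨rfl, ?_⟩
  simpa using h

lemma conj_val (A k : SLQ) : (A⁻¹ * k * A).val = A.val.adjugate * k.val * A.val := by
  have h1 : (A⁻¹ * k * A).val = (A⁻¹).val * k.val * A.val := rfl
  have h2 : (A⁻¹).val = A.val.adjugate := Matrix.SpecialLinearGroup.coe_inv A
  rw [h1, h2]

end EigAux

open Matrix EigAux in
theorem stEig : StEig := by
  intro k t hk ht
  obtain ⟨a, b, c, d, ha, hb, hc, hd⟩ :
      ∃ a b c d : ℚ, k.val 0 0 = a ∧ k.val 0 1 = b ∧ k.val 1 0 = c ∧ k.val 1 1 = d :=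
    ⟨_, _, _, _, rfl, rfl, rfl, rfl⟩
  have htr : a + d = t := by rw [← hk, Matrix.trace_fin_two, ha, hd]
  have hdet : a * d - b * c = 1 := by
    have := k.2
    rw [Matrix.det_fin_two, ha, hb, hc, hd] at this
    exact this
  have hc0 : c ≠ 0 := by
    intro h0
    apply not_sq t ht (a - d)
    rw [h0] at hdet
    rw [← htr]
    linear_combination 4 * hdet
  have htr' : (a : ℝ) + d = t := by exact_mod_cast htr
  have hdet' : (a : ℝ) * d - b * c = 1 := by exact_mod_cast hdet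
  have hD : 0 < (t : ℝ) ^ 2 - 4 := by
    have h1 : (2 : ℝ) < |(t : ℝ)| := by exact_mod_cast ht
    have h2 : (t : ℝ) ^ 2 = |(t : ℝ)| ^ 2 := (sq_abs _).symm
    nlinarith
  obtain ⟨s, hs⟩ : ∃ s : ℝ, s = √((t : ℝ) ^ 2 - 4) := ⟨_, rfl⟩
  have hs2 : s ^ 2 = (t : ℝ) ^ 2 - 4 := by rw [hs, Real.sq_sqrt hD.le]
  have hs0 : s ≠ 0 := by
    intro h0
    rw [h0] at hs2
    norm_num at hs2
    linarith
  have hcR : (c : ℝ) ≠ 0 := by exact_mod_cast hc0
  have hirr : ∀ p q : ℚ, (p : ℝ) * s + q = 0 → p = 0 ∧ q = 0 := by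
    intro p q h
    rw [hs] at h
    exact irr t ht p q h
  have hx : ∀ x : SLZ, x 0 0 * x 1 1 - x 0 1 * x 1 0 = 1 := by
    intro x
    have := x.2
    rw [Matrix.det_fin_two] at this
    exact this
  -- entries of the real matrix
  have r00 : rQ k 0 0 = a := by rw [← ha]; rfl
  have r01 : rQ k 0 1 = b := by rw [← hb]; rfl
  have r10 : rQ k 1 0 = c := by rw [← hc]; rfl
  have r11 : rQ k 1 1 = d := by rw [← hd]; rfl
  have heig : ∀ σ : ℝ, σ ^ 2 = (t : ℝ) ^ 2 - 4 →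
      rQ k *ᵥ ![((t : ℝ) + σ) / 2 - d, c] = (((t : ℝ) + σ) / 2) • ![((t : ℝ) + σ) / 2 - d, c] := by
    intro σ hσ
    ext i
    fin_cases i
    · simp only [Fin.zero_eta, Fin.isValue, Matrix.mulVec, dotProduct, Fin.sum_univ_two,
        Matrix.cons_val_zero, Matrix.cons_val_one, Pi.smul_apply, smul_eq_mul, r00, r01]
      linear_combination (-(1 : ℝ) / 4) * hσ - hdet' +
        (((t : ℝ) + σ) / 2) * htr'
    · simp only [Fin.mk_one, Fin.isValue, Matrix.mulVec, dotProduct, Fin.sum_univ_two,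
        Matrix.cons_val_zero, Matrix.cons_val_one, Pi.smul_apply, smul_eq_mul, r10, r11]
      ring
  have hpr : ∀ (x : SLZ) (e : ℚ), e ≠ 0 → pr x ![((t : ℝ) + e * s) / 2 - d, c] ≠ 0 := by
    intro x e he
    have h1 := hx x
    unfold pr
    simp only [Matrix.cons_val_zero, Matrix.cons_val_one]
    refine mul_ne_zero ?_ ?_
    · intro h0
      obtain ⟨h2, h3⟩ := hirr ((x 1 1 : ℚ) * e / 2)
        ((x 1 1 : ℚ) * ((t : ℚ) / 2 - d) - (x 0 1 : ℚ) * c) (by
          push_cast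
          linear_combination h0)
      have h4 : (x 1 1 : ℚ) = 0 := by
        have : (x 1 1 : ℚ) * e = 0 := by linarith
        exact (mul_eq_zero.mp this).resolve_right he
      have h5 : (x 0 1 : ℚ) = 0 := by
        rw [h4] at h3
        have : (x 0 1 : ℚ) * c = 0 := by linarith
        exact (mul_eq_zero.mp this).resolve_right hc0
      have h6 : x 1 1 = 0 := by exact_mod_cast h4
      have h7 : x 0 1 = 0 := by exact_mod_cast h5
      rw [h6, h7] at h1
      norm_num at h1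
    · intro h0
      obtain ⟨h2, h3⟩ := hirr (-(x 1 0 : ℚ) * e / 2)
        ((x 0 0 : ℚ) * c - (x 1 0 : ℚ) * ((t : ℚ) / 2 - d)) (by
          push_cast
          linear_combination h0)
      have h4 : (x 1 0 : ℚ) = 0 := by
        have : (x 1 0 : ℚ) * e = 0 := by linarith
        exact (mul_eq_zero.mp this).resolve_right he
      have h5 : (x 0 0 : ℚ) = 0 := by
        rw [h4] at h3
        have : (x 0 0 : ℚ) * c = 0 := by linarith
        exact (mul_eq_zero.mp this).resolve_right hc0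
      have h6 : x 1 0 = 0 := by exact_mod_cast h4
      have h7 : x 0 0 = 0 := by exact_mod_cast h5
      rw [h6, h7] at h1
      norm_num at h1
  refine ⟨![((t : ℝ) + s) / 2 - d, c], ![((t : ℝ) + -s) / 2 - d, c], ((t : ℝ) + s) / 2,
    ((t : ℝ) + -s) / 2, heig s hs2, heig (-s) (by rw [neg_sq]; exact hs2), ?_, ?_, ?_, ?_⟩
  · unfold dt
    simp only [Matrix.cons_val_zero, Matrix.cons_val_one]
    have : (((t : ℝ) + s) / 2 - d) * c - c * (((t : ℝ) + -s) / 2 - d) = c * s := by ring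
    rw [this]
    exact mul_ne_zero hcR hs0
  · intro x
    have := hpr x 1 one_ne_zero
    simpa using this
  · intro x
    have := hpr x (-1) (by norm_num)
    simpa using this
  · intro x hneg
    have h1 := hx x
    -- entries of the conjugate
    obtain ⟨x00, x01, x10, x11, e00, e01, e10, e11⟩ : ∃ x00 x01 x10 x11 : ℤ,
        x 0 0 = x00 ∧ x 0 1 = x01 ∧ x 1 0 = x10 ∧ x 1 1 = x11 := ⟨_, _, _, _, rfl, rfl, rfl, rfl⟩
    have i00 : (iZQ x).val 0 0 = (x00 : ℚ) := by rw [← e00]; rfl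
    have i01 : (iZQ x).val 0 1 = (x01 : ℚ) := by rw [← e01]; rfl
    have i10 : (iZQ x).val 1 0 = (x10 : ℚ) := by rw [← e10]; rfl
    have i11 : (iZQ x).val 1 1 = (x11 : ℚ) := by rw [← e11]; rfl
    have m01 : ((iZQ x)⁻¹ * k * iZQ x) 0 1 =
        (x11 : ℚ) ^ 2 * b + x11 * x01 * (a - d) - (x01 : ℚ) ^ 2 * c := by
      rw [conj_val, Matrix.adjugate_fin_two, i00, i01, i10, i11]
      simp only [Matrix.mul_apply, Fin.sum_univ_two, Matrix.of_apply, Matrix.cons_val_zero,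
        Matrix.cons_val_one, Matrix.cons_val', ha, hb, hc, hd, i01, i11]
      ring
    have m10 : ((iZQ x)⁻¹ * k * iZQ x) 1 0 =
        (x00 : ℚ) ^ 2 * c - x00 * x10 * (a - d) - (x10 : ℚ) ^ 2 * b := by
      rw [conj_val, Matrix.adjugate_fin_two, i00, i01, i10, i11]
      simp only [Matrix.mul_apply, Fin.sum_univ_two, Matrix.of_apply, Matrix.cons_val_zero,
        Matrix.cons_val_one, Matrix.cons_val', ha, hb, hc, hd, i00, i10]
      ring
    rw [m01, m10]
    have hid : pr x ![((t : ℝ) + s) / 2 - d, c] * pr x ![((t : ℝ) + -s) / 2 - d, c] =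
        -(c : ℝ) ^ 2 * ((((x11 : ℚ) ^ 2 * b + x11 * x01 * (a - d) - (x01 : ℚ) ^ 2 * c) *
        ((x00 : ℚ) ^ 2 * c - x00 * x10 * (a - d) - (x10 : ℚ) ^ 2 * b) : ℚ) : ℝ) := by
      have hw0 : ((x11 : ℝ) * (((t : ℝ) + s) / 2 - d) - (x01 : ℝ) * c) *
          ((x11 : ℝ) * (((t : ℝ) + -s) / 2 - d) - (x01 : ℝ) * c) =
          -(c : ℝ) * ((x11 : ℝ) ^ 2 * b + x11 * x01 * (a - d) - (x01 : ℝ) ^ 2 * c) := by
        rw [← htr'] at hs2 ⊢
        linear_combination (-(x11 : ℝ) ^ 2 / 4) * hs2 + (-(x11 : ℝ) ^ 2) * hdet'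
      have hw1 : ((x00 : ℝ) * c - (x10 : ℝ) * (((t : ℝ) + s) / 2 - d)) *
          ((x00 : ℝ) * c - (x10 : ℝ) * (((t : ℝ) + -s) / 2 - d)) =
          (c : ℝ) * ((x00 : ℝ) ^ 2 * c - x00 * x10 * (a - d) - (x10 : ℝ) ^ 2 * b) := by
        rw [← htr'] at hs2 ⊢
        linear_combination (-(x10 : ℝ) ^ 2 / 4) * hs2 + (-(x10 : ℝ) ^ 2) * hdet'
      unfold pr
      rw [e00, e01, e10, e11]
      simp only [Matrix.cons_val_zero, Matrix.cons_val_one]
      push_cast
      calc _ = (((x11 : ℝ) * (((t : ℝ) + s) / 2 - d) - (x01 : ℝ) * c) *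
          ((x11 : ℝ) * (((t : ℝ) + -s) / 2 - d) - (x01 : ℝ) * c)) *
          (((x00 : ℝ) * c - (x10 : ℝ) * (((t : ℝ) + s) / 2 - d)) *
          ((x00 : ℝ) * c - (x10 : ℝ) * (((t : ℝ) + -s) / 2 - d))) := by ring
        _ = _ := by rw [hw0, hw1]; ring
    rw [hid] at hneg
    have hc2 : 0 < (c : ℝ) ^ 2 := by positivity
    have : 0 < ((((x11 : ℚ) ^ 2 * b + x11 * x01 * (a - d) - (x01 : ℚ) ^ 2 * c) *
        ((x00 : ℚ) ^ 2 * c - x00 * x10 * (a - d) - (x10 : ℚ) ^ 2 * b) : ℚ) : ℝ) := by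
      by_contra hcon
      push Not at hcon
      nlinarith
    exact_mod_cast this

end Pool.Agent.Lib.MP_c356f3_al
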