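import Pool.Agent.Lib.MP_c356f3_al.StmtsX

/-!
Springer's property (U): module X1 (exits of finitely generated subgroups of `SL(2,ℤ)`).
-/

namespace Pool.Agent.Lib.MP_c356f3_al.ExitX

open Matrix Pool.Agent.Lib.MP_c356f3_al

def tM : SLZ := ⟨!![1, 1; 0, 1], by simp [Matrix.det_fin_two]⟩
def lM : SLZ := ⟨!![1, 0; 1, 1], by simp [Matrix.det_fin_two]⟩

lemma ss : sM * sM = -1 := by
  apply Subtype.ext
  change !![(0 : ℤ), -1; 1, 0] * !![(0 : ℤ), -1; 1, 0] = -1
  decide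

lemma rrr : rM * rM * rM = -1 := by
  apply Subtype.ext
  change !![(1 : ℤ), -1; 1, 0] * !![(1 : ℤ), -1; 1, 0] * !![(1 : ℤ), -1; 1, 0] = -1
  decide

lemma r_eq : rM = tM * sM := by
  apply Subtype.ext
  change !![(1 : ℤ), -1; 1, 0] = !![(1 : ℤ), 1; 0, 1] * !![(0 : ℤ), -1; 1, 0]
  decide

lemma rr_eq : rM * rM = lM * sM := by
  apply Subtype.ext
  change !![(1 : ℤ), -1; 1, 0] * !![(1 : ℤ), -1; 1, 0] = !![(1 : ℤ), 0; 1, 1] * !![(0 : ℤ), -1; 1, 0]
  decide

lemma r3 : rM ^ 3 = -1 := by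
  rw [pow_succ, pow_two, rrr]

lemma r6 : rM ^ 6 = 1 := by
  have : (6 : ℕ) = 3 + 3 := rfl
  rw [this, pow_add, r3]
  simp

lemma s_inv : (sM)⁻¹ = -sM := by
  rw [inv_eq_iff_mul_eq_one]
  rw [mul_neg, ss, neg_neg]

lemma r_inv : (rM)⁻¹ = rM ^ 5 := by
  rw [inv_eq_iff_mul_eq_one, ← pow_succ', r6]

lemma closure_sr : Subgroup.closure ({sM, rM} : Set SLZ) = ⊤ := by
  rw [eq_top_iff, ← SpecialLinearGroup.SL2Z_generators, Subgroup.closure_le]
  have hs : sM ∈ Subgroup.closure ({sM, rM} : Set SLZ) := Subgroup.subset_closure (by simp)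
  have hr : rM ∈ Subgroup.closure ({sM, rM} : Set SLZ) := Subgroup.subset_closure (by simp)
  rintro x (rfl | rfl)
  · exact hs
  · have h1 : ModularGroup.T = rM * sM⁻¹ := by
      have h2 : (ModularGroup.T : SLZ) = tM := by
        apply Subtype.ext
        change !![(1 : ℤ), 1; 0, 1] = !![(1 : ℤ), 1; 0, 1]
        rfl
      rw [h2, r_eq]
      group
    change ModularGroup.T ∈ _
    rw [h1]
    exact Subgroup.mul_mem _ hr (Subgroup.inv_mem _ hs)

/-- a step inside `E` -/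
def Stp (E : Set SLZ) (u v : SLZ) : Prop := u ∈ E ∧ v ∈ E ∧ (v = u * sM ∨ v = u * rM ∨ v = -u)

def Rch (E : Set SLZ) : SLZ → SLZ → Prop := Relation.ReflTransGen (Stp E)

lemma Rch.mono {E E' : Set SLZ} (h : E ⊆ E') {u v : SLZ} (huv : Rch E u v) : Rch E' u v :=
  Relation.ReflTransGen.mono (fun _ _ hab => ⟨h hab.1, h hab.2.1, hab.2.2⟩) _ _ huv

def Con (g : SLZ) : Prop :=
  ∃ P : Set SLZ, P.Finite ∧ (1 : SLZ) ∈ P ∧ g ∈ P ∧ ∀ z ∈ P, Rch P 1 z

lemma con_step (g g' : SLZ) (hg : Con g) (h : g' = g * sM ∨ g' = g * rM ∨ g' = -g) : Con g' := by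
  obtain ⟨P, hf, h1, h2, h3⟩ := hg
  refine ⟨insert g' P, hf.insert g', Set.mem_insert_of_mem _ h1, Set.mem_insert _ _, ?_⟩
  intro z hz
  rcases Set.mem_insert_iff.mp hz with rfl | hz
  · have h4 : Rch (insert z P) 1 g := Rch.mono (Set.subset_insert _ _) (h3 g h2)
    exact h4.tail ⟨Set.mem_insert_of_mem _ h2, Set.mem_insert _ _, h⟩
  · exact Rch.mono (Set.subset_insert _ _) (h3 z hz)

lemma con_s (g : SLZ) (hg : Con g) : Con (g * sM) := con_step g _ hg (Or.inl rfl)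
lemma con_r (g : SLZ) (hg : Con g) : Con (g * rM) := con_step g _ hg (Or.inr (Or.inl rfl))
lemma con_n (g : SLZ) (hg : Con g) : Con (-g) := con_step g _ hg (Or.inr (Or.inr rfl))

lemma con_all (g : SLZ) : Con g := by
  have hg : g ∈ Subgroup.closure ({sM, rM} : Set SLZ) := by rw [closure_sr]; trivial
  induction hg using Subgroup.closure_induction_right with
  | one => exact ⟨{1}, Set.finite_singleton _, rfl, rfl, fun z hz => by
      rw [Set.mem_singleton_iff.mp hz]; exact Relation.ReflTransGen.refl⟩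
  | mul_right x hx y hy ih =>
    rcases hy with rfl | rfl
    · exact con_s x ih
    · exact con_r x ih
  | mul_inv_cancel x hx y hy ih =>
    rcases hy with rfl | rfl
    · rw [s_inv, mul_neg]
      exact con_n _ (con_s x ih)
    · change Con (x * rM⁻¹)
      rw [r_inv]
      have : x * rM ^ 5 = x * rM * rM * rM * rM * rM := by
        simp only [pow_succ, pow_zero, one_mul, mul_assoc]
      rw [this]
      exact con_r _ (con_r _ (con_r _ (con_r _ (con_r x ih))))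

/-- nonnegative matrices -/
def Mon (m : SLZ) : Prop := 0 ≤ m 0 0 ∧ 0 ≤ m 0 1 ∧ 0 ≤ m 1 0 ∧ 0 ≤ m 1 1

lemma mon_one : Mon 1 := by
  unfold Mon
  simp

lemma mul_apply' (x y : SLZ) (i j : Fin 2) : (x * y) i j = x i 0 * y 0 j + x i 1 * y 1 j := by
  change (x.val * y.val) i j = _
  rw [Matrix.mul_apply, Fin.sum_univ_two]

lemma neg_apply' (x : SLZ) (i j : Fin 2) : (-x) i j = -(x i j) := by
  change (-x.val) i j = _
  rfl

lemma mul_tM (m : SLZ) : (m * tM) 0 0 = m 0 0 ∧ (m * tM) 0 1 = m 0 0 + m 0 1 ∧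
    (m * tM) 1 0 = m 1 0 ∧ (m * tM) 1 1 = m 1 0 + m 1 1 := by
  refine ⟨?_, ?_, ?_, ?_⟩ <;> rw [mul_apply'] <;> simp [tM]

lemma mul_lM (m : SLZ) : (m * lM) 0 0 = m 0 0 + m 0 1 ∧ (m * lM) 0 1 = m 0 1 ∧
    (m * lM) 1 0 = m 1 0 + m 1 1 ∧ (m * lM) 1 1 = m 1 1 := by
  refine ⟨?_, ?_, ?_, ?_⟩ <;> rw [mul_apply'] <;> simp [lM]

lemma mul_sM (m : SLZ) : (m * sM) 0 0 = m 0 1 ∧ (m * sM) 0 1 = -m 0 0 ∧
    (m * sM) 1 0 = m 1 1 ∧ (m * sM) 1 1 = -m 1 0 := by
  refine ⟨?_, ?_, ?_, ?_⟩ <;> rw [mul_apply'] <;> simp [sM]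

lemma mon_tM (m : SLZ) (h : Mon m) : Mon (m * tM) := by
  obtain ⟨h1, h2, h3, h4⟩ := h
  obtain ⟨e1, e2, e3, e4⟩ := mul_tM m
  refine ⟨?_, ?_, ?_, ?_⟩ <;> omega

lemma mon_lM (m : SLZ) (h : Mon m) : Mon (m * lM) := by
  obtain ⟨h1, h2, h3, h4⟩ := h
  obtain ⟨e1, e2, e3, e4⟩ := mul_lM m
  refine ⟨?_, ?_, ?_, ?_⟩ <;> omega

lemma det_eq (m : SLZ) : m 0 0 * m 1 1 - m 0 1 * m 1 0 = 1 := by
  have := m.2
  rw [Matrix.det_fin_two] at this
  exact this

lemma mon_dec (m : SLZ) (h : Mon m) (hne : m ≠ 1) :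
    (∃ m', Mon m' ∧ m = m' * tM) ∨ (∃ m', Mon m' ∧ m = m' * lM) := by
  obtain ⟨h1, h2, h3, h4⟩ := h
  have hd := det_eq m
  by_cases hab : m 0 0 ≤ m 0 1
  · left
    have hcd : m 1 0 ≤ m 1 1 := by
      by_contra hcon
      push Not at hcon
      nlinarith
    refine ⟨m * tM⁻¹, ?_, by group⟩
    set m' := m * tM⁻¹ with hm'
    have hm : m = m' * tM := by rw [hm']; group
    obtain ⟨e1, e2, e3, e4⟩ := mul_tM m'
    rw [← hm] at e1 e2 e3 e4
    refine ⟨?_, ?_, ?_, ?_⟩ <;> omega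
  · right
    push Not at hab
    have hcd : m 1 1 ≤ m 1 0 := by
      by_contra hcon
      push Not at hcon
      have h5 : m 0 1 = 0 ∧ m 1 0 = 0 := by
        constructor <;> nlinarith
      have h6 : m 0 0 * m 1 1 = 1 := by rw [h5.1] at hd; linarith
      have h7 : m 0 0 = 1 := by nlinarith
      have h8 : m 1 1 = 1 := by rw [h7] at h6; linarith
      apply hne
      ext i j
      fin_cases i <;> fin_cases j
      · simpa using h7
      · simpa using h5.1
      · simpa using h5.2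
      · simpa using h8
    refine ⟨m * lM⁻¹, ?_, by group⟩
    set m' := m * lM⁻¹ with hm'
    have hm : m = m' * lM := by rw [hm']; group
    obtain ⟨e1, e2, e3, e4⟩ := mul_lM m'
    rw [← hm] at e1 e2 e3 e4
    refine ⟨?_, ?_, ?_, ?_⟩ <;> omega

def In (x z : SLZ) : Prop :=
  ∃ m, Mon m ∧ (z = x * m ∨ z = -(x * m) ∨ z = x * m * sM ∨ z = -(x * m * sM))

lemma in_neg (x z : SLZ) (h : In x z) : In x (-z) := by
  obtain ⟨m, hm, h | h | h | h⟩ := h
  · exact ⟨m, hm, Or.inr (Or.inl (by rw [h]))⟩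
  · exact ⟨m, hm, Or.inl (by rw [h, neg_neg])⟩
  · exact ⟨m, hm, Or.inr (Or.inr (Or.inr (by rw [h])))⟩
  · exact ⟨m, hm, Or.inr (Or.inr (Or.inl (by rw [h, neg_neg])))⟩

lemma in_s (x z : SLZ) (h : In x z) : In x (z * sM) := by
  obtain ⟨m, hm, h | h | h | h⟩ := h
  · exact ⟨m, hm, Or.inr (Or.inr (Or.inl (by rw [h])))⟩
  · exact ⟨m, hm, Or.inr (Or.inr (Or.inr (by rw [h, neg_mul])))⟩
  · refine ⟨m, hm, Or.inr (Or.inl ?_)⟩
    rw [h, mul_assoc, ss, mul_neg, mul_one]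
  · refine ⟨m, hm, Or.inl ?_⟩
    rw [h, neg_mul, mul_assoc, ss, mul_neg, mul_one, neg_neg]

lemma in_r_pos (x m : SLZ) (hm : Mon m) : In x (x * m * rM) := by
  refine ⟨m * tM, mon_tM m hm, Or.inr (Or.inr (Or.inl ?_))⟩
  rw [r_eq]
  simp only [mul_assoc]

lemma in_r_s (x m : SLZ) (hm : Mon m) (hne : m ≠ 1) : In x (x * m * sM * rM) := by
  rcases mon_dec m hm hne with ⟨m', hm', rfl⟩ | ⟨m', hm', rfl⟩
  · refine ⟨m' * lM, mon_lM m' hm', Or.inr (Or.inr (Or.inl ?_))⟩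
    have : x * (m' * tM) * sM * rM = x * m' * ((tM * sM) * rM) := by simp only [mul_assoc]
    rw [this, ← r_eq, rr_eq]
    simp only [mul_assoc]
  · refine ⟨m', hm', Or.inr (Or.inl ?_)⟩
    have : x * (m' * lM) * sM * rM = x * m' * ((lM * sM) * rM) := by simp only [mul_assoc]
    rw [this, ← rr_eq, rrr, mul_neg, mul_one]

lemma in_r (E : Set SLZ) (hneg : ∀ x ∈ E, -x ∈ E) (x z : SLZ) (hxs : x * sM ∉ E) (hz : z ∈ E)
    (h : In x z) : In x (z * rM) := by
  have hxs' : -(x * sM) ∉ E := by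
    intro h1
    apply hxs
    have := hneg _ h1
    rwa [neg_neg] at this
  obtain ⟨m, hm, h | h | h | h⟩ := h
  · rw [h]; exact in_r_pos x m hm
  · rw [h, neg_mul]
    exact in_neg _ _ (in_r_pos x m hm)
  · rw [h]
    apply in_r_s x m hm
    rintro rfl
    rw [mul_one] at h
    exact hxs (h ▸ hz)
  · rw [h, neg_mul]
    apply in_neg
    apply in_r_s x m hm
    rintro rfl
    rw [mul_one] at h
    exact hxs' (h ▸ hz)

lemma in_col (x z : SLZ) (h : In x z) : 0 ≤ (x⁻¹ * z) 0 0 * (x⁻¹ * z) 1 0 ∧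
    0 ≤ (x⁻¹ * z) 0 1 * (x⁻¹ * z) 1 1 := by
  obtain ⟨m, ⟨h1, h2, h3, h4⟩, h | h | h | h⟩ := h
  · have e : x⁻¹ * z = m := by rw [h]; group
    rw [e]
    exact ⟨mul_nonneg h1 h3, mul_nonneg h2 h4⟩
  · have e : x⁻¹ * z = -m := by rw [h, mul_neg]; group
    rw [e]
    simp only [neg_apply', neg_mul_neg]
    exact ⟨mul_nonneg h1 h3, mul_nonneg h2 h4⟩
  · have e : x⁻¹ * z = m * sM := by rw [h]; group
    obtain ⟨e1, e2, e3, e4⟩ := mul_sM m
    rw [e, e1, e2, e3, e4]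
    simp only [neg_mul_neg]
    exact ⟨mul_nonneg h2 h4, mul_nonneg h1 h3⟩
  · have e : x⁻¹ * z = -(m * sM) := by rw [h, mul_neg]; group
    obtain ⟨e1, e2, e3, e4⟩ := mul_sM m
    rw [e]
    simp only [neg_apply', neg_mul_neg]
    rw [e1, e2, e3, e4]
    simp only [neg_mul_neg]
    exact ⟨mul_nonneg h2 h4, mul_nonneg h1 h3⟩

lemma rch_symm (E : Set SLZ) (hneg : ∀ x ∈ E, -x ∈ E) (hr : ∀ x ∈ E, x * rM ∈ E) {u v : SLZ}
    (h : Rch E u v) : Rch E v u := by
  have hstep : ∀ a b : SLZ, Stp E a b → Rch E b a := by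
    rintro a b ⟨ha, hb, h | h | h⟩
    · have e1 : b * sM = -a := by rw [h, mul_assoc, ss, mul_neg, mul_one]
      have s1 : Stp E b (-a) := ⟨hb, hneg a ha, Or.inl e1.symm⟩
      have s2 : Stp E (-a) a := ⟨hneg a ha, ha, Or.inr (Or.inr (neg_neg a).symm)⟩
      exact (Relation.ReflTransGen.single s1).tail s2
    · have hpow : ∀ n : ℕ, b * rM ^ n ∈ E ∧ Rch E b (b * rM ^ n) := by
        intro n
        induction n with
        | zero => rw [pow_zero, mul_one]; exact ⟨hb, Relation.ReflTransGen.refl⟩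
        | succ n ih =>
          have e : b * rM ^ (n + 1) = b * rM ^ n * rM := by rw [pow_succ, mul_assoc]
          rw [e]
          exact ⟨hr _ ih.1, ih.2.tail ⟨ih.1, hr _ ih.1, Or.inr (Or.inl rfl)⟩⟩
      have e : b * rM ^ 5 = a := by
        rw [h, mul_assoc, ← pow_succ', r6, mul_one]
      have := (hpow 5).2
      rwa [e] at this
    · exact Relation.ReflTransGen.single ⟨hb, ha, Or.inr (Or.inr (by rw [h, neg_neg]))⟩
  induction h with
  | refl => exact Relation.ReflTransGen.refl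
  | tail _ hbc ih => exact (hstep _ _ hbc).trans ih

theorem stExit_aux (H : Subgroup SLZ) (hfg : H.FG) (hfi : ¬ H.FiniteIndex) :
    ∃ Y E, IsExit H Y E := by
  classical
  obtain ⟨S, hS⟩ := hfg
  choose P hPf hP1 hPg hPr using con_all
  have hZf : ((⋃ h ∈ S, P h) ∪ {1} : Set SLZ).Finite :=
    (Set.Finite.biUnion S.finite_toSet fun h _ => hPf h).union (Set.finite_singleton _)
  set Z : Set SLZ := (⋃ h ∈ S, P h) ∪ {1} with hZ
  let E : Set SLZ := {x | ∃ h ∈ H, ∃ z ∈ Z, ∃ i : ℕ, x = h * z * rM ^ i}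
  let Y : Finset SLZ := (hZf.toFinset ×ˢ Finset.range 6).image fun a => a.1 * rM ^ a.2
  have hEY : ∀ x, x ∈ E ↔ ∃ h ∈ H, ∃ y ∈ Y, x = h * y := by
    intro x
    constructor
    · rintro ⟨h, hh, z, hz, i, rfl⟩
      refine ⟨h, hh, z * rM ^ (i % 6), ?_, ?_⟩
      · refine Finset.mem_image.mpr ⟨(z, i % 6), ?_, rfl⟩
        exact Finset.mk_mem_product (hZf.mem_toFinset.mpr hz)
          (Finset.mem_range.mpr (Nat.mod_lt _ (by norm_num)))
      · have e : rM ^ i = rM ^ (i % 6) := by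
          conv_lhs => rw [← Nat.div_add_mod i 6]
          rw [pow_add, pow_mul, r6, one_pow, one_mul]
        rw [e, mul_assoc]
    · rintro ⟨h, hh, y, hy, rfl⟩
      obtain ⟨⟨z, i⟩, hzi, rfl⟩ := Finset.mem_image.mp hy
      have hz := (Finset.mem_product.mp hzi).1
      exact ⟨h, hh, z, hZf.mem_toFinset.mp hz, i, by rw [mul_assoc]⟩
  have h1Z : (1 : SLZ) ∈ Z := Or.inr rfl
  have h1E : (1 : SLZ) ∈ E := ⟨1, H.one_mem, 1, h1Z, 0, by simp⟩
  have hZE : ∀ z ∈ Z, z ∈ E := fun z hz => ⟨1, H.one_mem, z, hz, 0, by simp⟩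
  have hr : ∀ x ∈ E, x * rM ∈ E := by
    rintro x ⟨h, hh, z, hz, i, rfl⟩
    exact ⟨h, hh, z, hz, i + 1, by rw [pow_succ, mul_assoc]⟩
  have hneg : ∀ x ∈ E, -x ∈ E := by
    rintro x ⟨h, hh, z, hz, i, rfl⟩
    exact ⟨h, hh, z, hz, i + 3, by rw [pow_add, r3]; simp⟩
  have hHE : ∀ h ∈ H, ∀ x ∈ E, h * x ∈ E := by
    rintro h hh x ⟨h', hh', z, hz, i, rfl⟩
    exact ⟨h * h', H.mul_mem hh hh', z, hz, i, by simp only [mul_assoc]⟩
  have hleft : ∀ h ∈ H, ∀ x z, Rch E x z → Rch E (h * x) (h * z) := by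
    intro h hh x z hxz
    induction hxz with
    | refl => exact Relation.ReflTransGen.refl
    | tail _ hbc ih =>
      refine ih.tail ⟨hHE h hh _ hbc.1, hHE h hh _ hbc.2.1, ?_⟩
      rcases hbc.2.2 with h3 | h3 | h3
      · left; rw [h3, mul_assoc]
      · right; left; rw [h3, mul_assoc]
      · right; right; rw [h3, mul_neg]
  have hconZ : ∀ z ∈ Z, Rch E 1 z := by
    rintro z (hz | hz)
    · rw [Set.mem_iUnion₂] at hz
      obtain ⟨h, hh, hz⟩ := hz
      refine Rch.mono ?_ (hPr h z hz)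
      intro w hw
      exact hZE w (Or.inl (Set.mem_iUnion₂.mpr ⟨h, hh, hw⟩))
    · rw [Set.mem_singleton_iff.mp hz]
      exact Relation.ReflTransGen.refl
  have hconH : ∀ h ∈ H, Rch E 1 h := by
    intro h hh
    have hh' := hh
    rw [← hS] at hh'
    induction hh' using Subgroup.closure_induction with
    | mem x hx => exact hconZ x (Or.inl (Set.mem_iUnion₂.mpr ⟨x, hx, hPg x⟩))
    | one => exact Relation.ReflTransGen.refl
    | mul x y hx hy ihx ihy =>
      rw [hS] at hx hy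
      have := hleft x hx _ _ (ihy hy)
      rw [mul_one] at this
      exact (ihx hx).trans this
    | inv x hx ih =>
      rw [hS] at hx
      have := hleft x⁻¹ (H.inv_mem hx) _ _ (ih hx)
      rw [mul_one, inv_mul_cancel] at this
      exact rch_symm E hneg hr this
  have hcon : ∀ x ∈ E, Rch E 1 x := by
    rintro x ⟨h, hh, z, hz, i, rfl⟩
    have h2 : Rch E 1 (h * z) := by
      have := hleft h hh _ _ (hconZ z hz)
      rw [mul_one] at this
      exact (hconH h hh).trans this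
    have h3 : h * z ∈ E := hHE h hh z (hZE z hz)
    induction i with
    | zero => simpa using h2
    | succ i ih =>
      have h4 : h * z * rM ^ i ∈ E := ⟨h, hh, z, hz, i, rfl⟩
      have e : h * z * rM ^ (i + 1) = h * z * rM ^ i * rM := by
        rw [pow_succ, ← mul_assoc (h * z)]
      rw [e]
      exact ih.tail ⟨h4, hr _ h4, Or.inr (Or.inl rfl)⟩
  refine ⟨Y, E, hEY, h1E, hneg, hr, ?_, ?_⟩
  · by_contra hcon'
    push Not at hcon'
    apply hfi
    have hall : ∀ g : SLZ, g ∈ E := by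
      intro g
      have hg : g ∈ Subgroup.closure ({sM, rM} : Set SLZ) := by rw [closure_sr]; trivial
      induction hg using Subgroup.closure_induction_right with
      | one => exact h1E
      | mul_right x hx y hy ih =>
        rcases hy with rfl | rfl
        · exact hcon' x ih
        · exact hr x ih
      | mul_inv_cancel x hx y hy ih =>
        rcases hy with rfl | rfl
        · rw [s_inv, mul_neg]
          exact hneg _ (hcon' x ih)
        · change x * rM⁻¹ ∈ E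
          rw [r_inv]
          have : x * rM ^ 5 = x * rM * rM * rM * rM * rM := by
            simp only [pow_succ, pow_zero, one_mul, mul_assoc]
          rw [this]
          exact hr _ (hr _ (hr _ (hr _ (hr x ih))))
    have hsurj : Function.Surjective (fun y : Y => ((y.val⁻¹ : SLZ) : SLZ ⧸ H)) := by
      intro q
      obtain ⟨g, rfl⟩ := QuotientGroup.mk_surjective q
      obtain ⟨h, hh, y, hy, hgy⟩ := (hEY g⁻¹).mp (hall g⁻¹)
      refine ⟨⟨y, hy⟩, ?_⟩
      change ((y⁻¹ : SLZ) : SLZ ⧸ H) = (g : SLZ ⧸ H)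
      rw [QuotientGroup.eq]
      have : (y⁻¹)⁻¹ * g = h⁻¹ := by
        have e : g = y⁻¹ * h⁻¹ := by
          rw [← inv_inv g, hgy, _root_.mul_inv_rev]
        rw [e]; group
      rw [this]
      exact H.inv_mem hh
    have : Finite (SLZ ⧸ H) := Finite.of_surjective _ hsurj
    exact Subgroup.finiteIndex_of_finite_quotient
  · intro x hx hxs z hz
    apply in_col
    have hxz : Rch E x z := (rch_symm E hneg hr (hcon x hx)).trans (hcon z hz)
    induction hxz with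
    | refl => exact ⟨1, mon_one, Or.inl (by rw [mul_one])⟩
    | tail _ hbc ih =>
      have h5 := ih hbc.1
      rcases hbc.2.2 with h3 | h3 | h3
      · rw [h3]; exact in_s _ _ h5
      · rw [h3]; exact in_r E hneg _ _ hxs hbc.1 h5
      · rw [h3]; exact in_neg _ _ h5

end Pool.Agent.Lib.MP_c356f3_al.ExitX

namespace Pool.Agent.Lib.MP_c356f3_al

theorem stExit : StExit := ExitX.stExit_aux

end Pool.Agent.Lib.MP_c356f3_al
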