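import Pool.Agent.Lib.MP_c356f3_al.Stmts

/-!
Finitely many traces force finite image.
-/

namespace Pool.Agent.Lib.MP_c356f3_al

open Matrix

universe u

theorem stFinIm : StFinIm.{u} := by
  intro G _ ρ χ hχ hd hfin
  obtain ⟨s, q, hd⟩ := hd
  let F : (Fin 4 → ℚ) → Matrix (Fin 2) (Fin 2) ℂ := fun x =>
    ∑ k, ∑ l, (((x k : ℚ) : ℂ) * ((q k l : ℚ) : ℂ)) • (ρ (s l)).val
  have hF : ∀ g, (ρ g).val = F (fun k => χ (g * s k)) := by
    intro g
    rw [hd (ρ g).val]
    apply Finset.sum_congr rfl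
    intro k _
    apply Finset.sum_congr rfl
    intro l _
    congr 2
    rw [← hχ (g * s k), map_mul]
    rfl
  have h1 : (Set.range (fun g => (ρ g).val)).Finite := by
    apply Set.Finite.subset ((Set.Finite.pi' (fun _ : Fin 4 => hfin)).image F)
    rintro _ ⟨g, rfl⟩
    exact ⟨fun k => χ (g * s k), fun k => ⟨g * s k, rfl⟩, (hF g).symm⟩
  have h2 : (Set.range ρ).Finite := by
    have e : (Set.range (fun g => (ρ g).val)) =
        (fun P : GL (Fin 2) ℂ => P.val) '' Set.range ρ := by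
      ext A
      simp [Set.mem_image]
    rw [e] at h1
    exact Set.Finite.of_finite_image h1 (fun a _ b _ hab => Units.ext hab)
  have h3 : ((ρ.range : Subgroup (GL (Fin 2) ℂ)) : Set (GL (Fin 2) ℂ)) = Set.range ρ :=
    MonoidHom.coe_range ρ
  rw [← h3] at h2
  exact h2.to_subtype

end Pool.Agent.Lib.MP_c356f3_al
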