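import Pool.Agent.Lib.MP_c356f3_al.Stmts

/-!
Module L: a nontrivial finite group has a nontrivial irreducible representation.
-/

namespace Pool.Agent.Lib.MP_c356f3_al

open Matrix

universe u

namespace FinIrr

/-- the matrix representation attached to a module over the group algebra and a basis -/
noncomputable def rep {Q : Type u} [Group Q] {M : Type u} [AddCommGroup M]
    [Module (MonoidAlgebra ℂ Q) M] [Module ℂ M] [IsScalarTower ℂ (MonoidAlgebra ℂ Q) M] {n : ℕ}
    (b : Module.Basis (Fin n) ℂ M) : Q →* GL (Fin n) ℂ :=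
  MonoidHom.toHomUnits
    (((LinearMap.toMatrixAlgEquiv b : Module.End ℂ M →* Matrix (Fin n) (Fin n) ℂ)).comp
      (((Algebra.lsmul ℂ ℂ M : MonoidAlgebra ℂ Q →ₐ[ℂ] Module.End ℂ M) :
        MonoidAlgebra ℂ Q →* Module.End ℂ M).comp (MonoidAlgebra.of ℂ Q)))

lemma rep_mulVec {Q : Type u} [Group Q] {M : Type u} [AddCommGroup M]
    [Module (MonoidAlgebra ℂ Q) M] [Module ℂ M] [IsScalarTower ℂ (MonoidAlgebra ℂ Q) M] {n : ℕ}
    (b : Module.Basis (Fin n) ℂ M) (g : Q) (x : M) :
    (rep b g : Matrix (Fin n) (Fin n) ℂ) *ᵥ (b.repr x) = b.repr (MonoidAlgebra.of ℂ Q g • x) := by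
  have h : (rep b g : Matrix (Fin n) (Fin n) ℂ) =
      LinearMap.toMatrix b b ((Algebra.lsmul ℂ ℂ M : MonoidAlgebra ℂ Q →ₐ[ℂ] Module.End ℂ M)
        (MonoidAlgebra.of ℂ Q g)) := rfl
  rw [h, LinearMap.toMatrix_mulVec_repr]
  rfl

/-- the representation attached to a simple module is irreducible -/
lemma irr_rep {Q : Type u} [Group Q] {M : Type u} [AddCommGroup M]
    [Module (MonoidAlgebra ℂ Q) M] [Module ℂ M] [IsScalarTower ℂ (MonoidAlgebra ℂ Q) M] {n : ℕ}
    (b : Module.Basis (Fin n) ℂ M) [IsSimpleModule (MonoidAlgebra ℂ Q) M] :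
    Irr (rep (Q := Q) b) := by
  constructor
  · rcases Nat.eq_zero_or_pos n with rfl | hn
    · have : Nontrivial M := IsSimpleModule.nontrivial (MonoidAlgebra ℂ Q) M
      obtain ⟨x, hx⟩ := exists_ne (0 : M)
      exfalso
      apply hx
      apply b.repr.injective
      ext i
      exact i.elim0
    · exact hn
  · intro W hW
    -- the pull back to `M`
    let W' : Submodule ℂ M := W.comap (b.equivFun : M →ₗ[ℂ] (Fin n → ℂ))
    have hmem : ∀ x, x ∈ W' ↔ (b.equivFun x : Fin n → ℂ) ∈ W := fun x => Iff.rfl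
    have hinv : ∀ g : Q, ∀ x ∈ W', MonoidAlgebra.of ℂ Q g • x ∈ W' := by
      intro g x hx
      rw [hmem] at hx ⊢
      have h := hW g _ hx
      have h2 := rep_mulVec b g x
      rw [Module.Basis.equivFun_apply] at h ⊢
      rwa [h2] at h
    have hinv' : ∀ (a : MonoidAlgebra ℂ Q) (x : M), x ∈ W' → a • x ∈ W' := by
      intro a x hx
      induction a using MonoidAlgebra.induction_on with
      | of g => exact hinv g x hx
      | add f g hf hg =>
        rw [add_smul]; exact W'.add_mem hf hg
      | smul r f hf =>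
        rw [smul_assoc]; exact W'.smul_mem r hf
    let W'' : Submodule (MonoidAlgebra ℂ Q) M :=
      { carrier := W'
        add_mem' := fun ha hb => W'.add_mem ha hb
        zero_mem' := W'.zero_mem
        smul_mem' := fun a x hx => hinv' a x hx }
    rcases eq_bot_or_eq_top W'' with h | h
    · left
      rw [Submodule.eq_bot_iff]
      intro v hv
      have h1 : b.equivFun.symm v ∈ W'' := by
        change b.equivFun (b.equivFun.symm v) ∈ W
        rwa [LinearEquiv.apply_symm_apply]
      rw [h, Submodule.mem_bot] at h1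
      exact b.equivFun.symm.map_eq_zero_iff.1 h1
    · right
      rw [Submodule.eq_top_iff']
      intro v
      have h1 : b.equivFun.symm v ∈ W'' := by rw [h]; trivial
      change b.equivFun (b.equivFun.symm v) ∈ W at h1
      rwa [LinearEquiv.apply_symm_apply] at h1

/-- a nontrivial element of a finite group acts nontrivially on some simple left ideal -/
lemma exists_simple {Q : Type u} [Group Q] [Finite Q] (q : Q) (hq : q ≠ 1) :
    ∃ m : Submodule (MonoidAlgebra ℂ Q) (MonoidAlgebra ℂ Q), IsSimpleModule (MonoidAlgebra ℂ Q) m ∧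
      ∃ x ∈ m, MonoidAlgebra.of ℂ Q q * x ≠ x := by
  by_contra hcon
  push Not at hcon
  have hss : IsSemisimpleModule (MonoidAlgebra ℂ Q) (MonoidAlgebra ℂ Q) := inferInstance
  have htop := IsSemisimpleModule.sSup_simples_eq_top (MonoidAlgebra ℂ Q) (MonoidAlgebra ℂ Q)
  have hall : ∀ x : MonoidAlgebra ℂ Q, MonoidAlgebra.of ℂ Q q * x = x := by
    intro x
    have hx : x ∈ sSup {m : Submodule (MonoidAlgebra ℂ Q) (MonoidAlgebra ℂ Q) |
        IsSimpleModule (MonoidAlgebra ℂ Q) m} := by rw [htop]; trivial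
    rw [sSup_eq_iSup'] at hx
    induction hx using Submodule.iSup_induction' with
    | mem i x hx => exact hcon i.1 i.2 x hx
    | zero => simp
    | add x y _ _ hx hy => rw [mul_add, hx, hy]
  have h1 := hall 1
  rw [mul_one] at h1
  apply hq
  exact MonoidAlgebra.of_injective (R := ℂ) (h1.trans (map_one _).symm)

end FinIrr

theorem stFinIrr : StFinIrr.{u} := by
  intro Q _ _ ⟨q, hq⟩
  obtain ⟨m, hm, x, hxm, hx⟩ := FinIrr.exists_simple q hq
  have hfin : Module.Finite ℂ (MonoidAlgebra ℂ Q) := inferInstance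
  have hfm : Module.Finite ℂ m := by
    have : Module.Finite ℂ (m.restrictScalars ℂ) := inferInstance
    exact this
  let b := Module.finBasis ℂ m
  refine ⟨Module.finrank ℂ m, FinIrr.rep b, FinIrr.irr_rep b, q, ?_⟩
  intro h1
  have h2 := FinIrr.rep_mulVec b q ⟨x, hxm⟩
  rw [h1] at h2
  simp only [Units.val_one, Matrix.one_mulVec] at h2
  have h3 := b.repr.injective (DFunLike.coe_injective h2)
  apply hx
  exact (congrArg Subtype.val h3).symm

end Pool.Agent.Lib.MP_c356f3_al
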