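import Pool.Agent.Lib.MP_c356f3_al.StmtsX

/-!
X7: finitely many elements of `K` cross a given Farey edge.
-/

namespace Pool.Agent.Lib.MP_c356f3_al

open Matrix

namespace FinK

theorem rQ_mul (g h : SLQ) : rQ (g * h) = rQ g * rQ h :=
  Matrix.map_mul (f := Rat.castHom ℝ) (L := g.val) (M := h.val)

theorem rQ_iZQ (y : SLZ) : rQ (iZQ y) = rZ y := by
  ext i j
  simp [rQ, rZ, iZQ]

theorem detQ (g : SLQ) : rQ g 0 0 * rQ g 1 1 - rQ g 0 1 * rQ g 1 0 = 1 := by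
  have h := g.property
  rw [Matrix.det_fin_two] at h
  have h2 : ((g.val 0 0 * g.val 1 1 - g.val 0 1 * g.val 1 0 : ℚ) : ℝ) = 1 := by
    rw [h]; norm_num
  push_cast at h2
  exact h2

theorem detZ (g : SLZ) : (g 0 0 : ℝ) * g 1 1 - g 0 1 * g 1 0 = 1 := by
  have h := g.property
  rw [Matrix.det_fin_two] at h
  have h2 : ((g.val 0 0 * g.val 1 1 - g.val 0 1 * g.val 1 0 : ℤ) : ℝ) = 1 := by
    rw [h]; norm_num
  push_cast at h2
  exact h2

theorem mul_entry (y g : SLZ) (i j : Fin 2) : (y * g) i j = y i 0 * g 0 j + y i 1 * g 1 j := by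
  change (y.val * g.val) i j = _
  rw [Matrix.mul_apply, Fin.sum_univ_two]

theorem pr_mul (y g : SLZ) (w : Fin 2 → ℝ) : pr (y * g) (rZ y *ᵥ w) = pr g w := by
  have hd := detZ y
  have hv : ∀ i, (rZ y *ᵥ w) i = (y i 0 : ℝ) * w 0 + (y i 1 : ℝ) * w 1 := by
    intro i
    simp [Matrix.mulVec, dotProduct, Fin.sum_univ_two, rZ]
  have h1 : (((y * g) 1 1 : ℤ) : ℝ) * (rZ y *ᵥ w) 0 - (((y * g) 0 1 : ℤ) : ℝ) * (rZ y *ᵥ w) 1 =
      (g 1 1 : ℝ) * w 0 - (g 0 1 : ℝ) * w 1 := by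
    rw [hv, hv, mul_entry, mul_entry]
    push_cast
    linear_combination ((g 1 1 : ℝ) * w 0 - (g 0 1 : ℝ) * w 1) * hd
  have h2 : (((y * g) 0 0 : ℤ) : ℝ) * (rZ y *ᵥ w) 1 - (((y * g) 1 0 : ℤ) : ℝ) * (rZ y *ᵥ w) 0 =
      (g 0 0 : ℝ) * w 1 - (g 1 0 : ℝ) * w 0 := by
    rw [hv, hv, mul_entry, mul_entry]
    push_cast
    linear_combination ((g 0 0 : ℝ) * w 1 - (g 1 0 : ℝ) * w 0) * hd
  unfold pr
  rw [h1, h2]

theorem pr_zero (x : SLZ) : pr x 0 = 0 := by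
  simp [pr]

/-- A bound for products of three matrices. -/
theorem prod_bound (P N Q : Matrix (Fin 2) (Fin 2) ℝ) {M M' B : ℝ} (hM : ∀ i j, |P i j| ≤ M)
    (hM' : ∀ i j, |Q i j| ≤ M') (hB : ∀ i j, |N i j| ≤ B) (i j : Fin 2) :
    |(P * N * Q) i j| ≤ 4 * (M * B * M') := by
  have hM0 : 0 ≤ M := (abs_nonneg _).trans (hM 0 0)
  have hM0' : 0 ≤ M' := (abs_nonneg _).trans (hM' 0 0)
  have hB0 : 0 ≤ B := (abs_nonneg _).trans (hB 0 0)
  have ht : ∀ k l, |P i k * N k l * Q l j| ≤ M * B * M' := by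
    intro k l
    rw [abs_mul, abs_mul]
    exact mul_le_mul (mul_le_mul (hM _ _) (hB _ _) (abs_nonneg _) hM0) (hM' _ _) (abs_nonneg _)
      (mul_nonneg hM0 hB0)
  have he : (P * N * Q) i j = P i 0 * N 0 0 * Q 0 j + P i 1 * N 1 0 * Q 0 j +
      (P i 0 * N 0 1 * Q 1 j + P i 1 * N 1 1 * Q 1 j) := by
    simp only [Matrix.mul_apply, Fin.sum_univ_two]
    ring
  rw [he]
  have h1 := abs_le.1 (ht 0 0)
  have h2 := abs_le.1 (ht 1 0)
  have h3 := abs_le.1 (ht 0 1)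
  have h4 := abs_le.1 (ht 1 1)
  rw [abs_le]
  constructor <;> linarith [h1.1, h1.2, h2.1, h2.2, h3.1, h3.2, h4.1, h4.2]

/-- The conjugate `y⁻¹ k y`. -/
def mm (y : SLZ) (k : SLQ) : SLQ := (iZQ y)⁻¹ * k * iZQ y

theorem mm_mul (y : SLZ) (k k' : SLQ) : mm y (k * k') = mm y k * mm y k' := by
  unfold mm; group

theorem mm_inv (y : SLZ) (k : SLQ) : mm y k⁻¹ = (mm y k)⁻¹ := by
  unfold mm; group

theorem mm_trace (y : SLZ) (k : SLQ) : (mm y k).val.trace = k.val.trace := by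
  have e : mm y k = (iZQ y)⁻¹ * (k * iZQ y) := by unfold mm; group
  rw [e]
  calc ((iZQ y)⁻¹ * (k * iZQ y)).val.trace = ((iZQ y)⁻¹.val * (k * iZQ y).val).trace := rfl
    _ = ((k * iZQ y).val * (iZQ y)⁻¹.val).trace := Matrix.trace_mul_comm _ _
    _ = ((k * iZQ y) * (iZQ y)⁻¹).val.trace := rfl
    _ = k.val.trace := by rw [mul_inv_cancel_right]

theorem mat_bound (P : Matrix (Fin 2) (Fin 2) ℝ) : ∃ M : ℝ, ∀ i j, |P i j| ≤ M := by
  refine ⟨∑ i, ∑ j, |P i j|, fun i j => ?_⟩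
  calc |P i j| ≤ ∑ j, |P i j| :=
        Finset.single_le_sum (f := fun j => |P i j|) (fun _ _ => abs_nonneg _) (Finset.mem_univ j)
    _ ≤ ∑ i, ∑ j, |P i j| :=
        Finset.single_le_sum (f := fun i => ∑ j, |P i j|)
          (fun _ _ => Finset.sum_nonneg fun _ _ => abs_nonneg _) (Finset.mem_univ i)

theorem finite_conj {Γ : Subgroup SLQ} (hD : Discr Γ) (y : SLZ) (B : ℝ) :
    {γ : SLQ | γ ∈ Γ ∧ ∀ i j, |rQ (mm y γ) i j| ≤ B}.Finite := by
  obtain ⟨M, hM⟩ := mat_bound (rQ (iZQ y))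
  obtain ⟨M', hM'⟩ := mat_bound (rQ (iZQ y)⁻¹)
  refine (hD (4 * (M * B * M'))).subset ?_
  rintro γ ⟨hγ, h⟩
  refine ⟨hγ, fun i j => ?_⟩
  have he : γ = iZQ y * mm y γ * (iZQ y)⁻¹ := by unfold mm; group
  rw [he, rQ_mul, rQ_mul]
  exact prod_bound _ _ _ hM hM' h i j

/-- The positive eigendirection. -/
theorem eig {a b c d t q : ℝ} (ht : a + d = t) (hdet : a * d - b * c = 1) (hbc : 0 < b * c)
    (hq : 0 < q) (hq2 : q ^ 2 = t ^ 2 - 4) :
    ∃ ρ : ℝ, 0 < ρ ∧ a * ρ + b = (c * ρ + d) * ρ ∧ |c| * ρ ≤ q ∧ |b| ≤ q * ρ := by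
  have hδ : (a - d) ^ 2 + 4 * (b * c) = q ^ 2 := by
    rw [hq2, ← ht]
    linear_combination (-4) * hdet
  have hlt : (a - d) ^ 2 < q ^ 2 := by linarith
  have hab : |a - d| < q := abs_lt_of_sq_lt_sq hlt hq.le
  rw [abs_lt] at hab
  have hc0 : c ≠ 0 := by
    rintro rfl
    simp at hbc
  rcases lt_or_gt_of_ne hc0 with hc | hc
  · have hb : b < 0 := by
      by_contra h
      push Not at h
      nlinarith
    have e1 : (a - d - q) / (2 * c) * (2 * c) = a - d - q := div_mul_cancel₀ _ (by linarith)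
    have hρ0 : 0 < (a - d - q) / (2 * c) := div_pos_of_neg_of_neg (by linarith) (by linarith)
    generalize (a - d - q) / (2 * c) = ρ at e1 hρ0
    refine ⟨ρ, hρ0, ?_, ?_, ?_⟩
    · have h4 : 4 * c * (a * ρ + b - (c * ρ + d) * ρ) = 0 := by
        linear_combination (-(2 * c * ρ) - (a - d - q) + 2 * (a - d)) * e1 + hδ
      have h4c : (4 * c : ℝ) ≠ 0 := by
        intro h
        apply hc0
        linarith
      have := (mul_eq_zero.1 h4).resolve_left h4c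
      linarith
    · rw [abs_of_neg hc]
      linarith
    · rw [abs_of_neg hb]
      have h5 : 4 * c * b = (2 * c * ρ) * (-(a - d + q)) := by
        linear_combination hδ + (a - d + q) * e1
      have h6 : 2 * b = -(ρ * (a - d + q)) := by
        have h2c : (2 * c : ℝ) ≠ 0 := by
          intro h
          apply hc0
          linarith
        apply mul_left_cancel₀ h2c
        linear_combination h5
      nlinarith
  · have hb : 0 < b := by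
      by_contra h
      push Not at h
      nlinarith
    have e1 : (a - d + q) / (2 * c) * (2 * c) = a - d + q := div_mul_cancel₀ _ (by linarith)
    have hρ0 : 0 < (a - d + q) / (2 * c) := div_pos (by linarith) (by linarith)
    generalize (a - d + q) / (2 * c) = ρ at e1 hρ0
    refine ⟨ρ, hρ0, ?_, ?_, ?_⟩
    · have h4 : 4 * c * (a * ρ + b - (c * ρ + d) * ρ) = 0 := by
        linear_combination (-(2 * c * ρ) - (a - d + q) + 2 * (a - d)) * e1 + hδ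
      have h4c : (4 * c : ℝ) ≠ 0 := by
        intro h
        apply hc0
        linarith
      have := (mul_eq_zero.1 h4).resolve_left h4c
      linarith
    · rw [abs_of_pos hc]
      linarith
    · rw [abs_of_pos hb]
      have h5 : 4 * c * b = (2 * c * ρ) * (q - (a - d)) := by
        linear_combination hδ + (a - d - q) * e1
      have h6 : 2 * b = ρ * (q - (a - d)) := by
        have h2c : (2 * c : ℝ) ≠ 0 := by
          intro h
          apply hc0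
          linarith
        apply mul_left_cancel₀ h2c
        linear_combination h5
      nlinarith

/-- An eigenvector of `y⁻¹ k y` gives an eigenvector of `k`. -/
theorem eig_conj (y : SLZ) (k : SLQ) (w : Fin 2 → ℝ) (l : ℝ) (h : rQ (mm y k) *ᵥ w = l • w) :
    rQ k *ᵥ (rZ y *ᵥ w) = l • (rZ y *ᵥ w) := by
  have h1 : rQ k * rZ y = rZ y * rQ (mm y k) := by
    rw [← rQ_iZQ, ← rQ_mul, ← rQ_mul]
    congr 1
    unfold mm
    group
  rw [Matrix.mulVec_mulVec, h1, ← Matrix.mulVec_mulVec, h, Matrix.mulVec_smul]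

/-- The powers of the parabolic element stay in `E`. -/
theorem stay {H : Subgroup SLZ} {Y : Finset SLZ} {E : Set SLZ} (hE : IsExit H Y E)
    {K : Set SLQ} (hK : ∀ k ∈ K, ∀ (v : Fin 2 → ℝ) (l : ℝ), v ≠ 0 → rQ k *ᵥ v = l • v →
      ∀ x ∈ E, x * sM ∉ E → 0 ≤ pr x v) {y : SLZ} (hy : y ∈ E) (P : ℕ → SLZ) (u : SLZ)
    (hP0 : P 0 = 1) (hP : ∀ j, P (j + 1) = -(P j * u * sM)) (hu : ∀ x ∈ E, x * u ∈ E)
    (hw : ∀ j, ∃ k ∈ K, ∃ (w : Fin 2 → ℝ) (l : ℝ), rQ (mm y k) *ᵥ w = l • w ∧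
      pr (P j * u) w < 0) (j : ℕ) : y * P j ∈ E := by
  obtain ⟨-, -, hneg, -, -, -⟩ := hE
  induction j with
  | zero => rwa [hP0, mul_one]
  | succ j ih =>
    have h1 : y * P j * u ∈ E := hu _ ih
    have h2 : y * P j * u * sM ∈ E := by
      by_contra hcon
      obtain ⟨k, hk, w, l, hl, hpr⟩ := hw j
      have h3 : pr (y * P j * u) (rZ y *ᵥ w) < 0 := by
        rw [mul_assoc, pr_mul]
        exact hpr
      have h4 : rZ y *ᵥ w ≠ 0 := by
        intro h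
        rw [h, pr_zero] at h3
        exact lt_irrefl _ h3
      have := hK k hk _ l h4 (eig_conj y k w l hl) _ h1 hcon
      linarith
    have h3 := hneg _ h2
    rw [hP]
    have e : -(y * P j * u * sM) = y * -(P j * u * sM) := by
      rw [mul_neg]
      simp only [mul_assoc]
    rwa [e] at h3

/-- Some power of the parabolic element is conjugate to an element of `H`. -/
theorem pigeon {H : Subgroup SLZ} {Y : Finset SLZ} {E : Set SLZ} (hE : IsExit H Y E) {y : SLZ}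
    (P : ℕ → SLZ) (hP : ∀ i j, P (i + j) = P i * P j) (h : ∀ j, y * P j ∈ E) :
    ∃ w : ℕ, 0 < w ∧ y * P w * y⁻¹ ∈ H := by
  obtain ⟨hE1, -⟩ := hE
  have h1 : ∀ j, ∃ z ∈ Y, ∃ g ∈ H, y * P j = g * z := by
    intro j
    obtain ⟨g, hg, z, hz, he⟩ := (hE1 _).1 (h j)
    exact ⟨z, hz, g, hg, he⟩
  choose z hz g hg he using h1
  obtain ⟨i, j, hij, hzz⟩ := Finite.exists_ne_map_eq_of_infinite
    (fun j : ℕ => (⟨z j, hz j⟩ : {x // x ∈ Y}))
  have hzz' : z i = z j := congrArg Subtype.val hzz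
  have key : ∀ i j : ℕ, i < j → z i = z j → ∃ w : ℕ, 0 < w ∧ y * P w * y⁻¹ ∈ H := by
    intro i j hij hzz
    refine ⟨j - i, by omega, ?_⟩
    have e1 : P j = P (j - i) * P i := by
      rw [← hP]
      congr 1
      omega
    have e2 : y * P (j - i) * y⁻¹ = g j * (g i)⁻¹ := by
      have e3 : y * P (j - i) * y⁻¹ = (y * P j) * (y * P i)⁻¹ := by
        rw [e1]
        group
      rw [e3, he, he, hzz]
      group
    rw [e2]
    exact H.mul_mem (hg j) (H.inv_mem (hg i))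
  rcases lt_or_gt_of_ne hij with h2 | h2
  · exact key i j h2 hzz'
  · exact key j i h2 hzz'.symm

/-- A finite set of positive reals has a positive lower bound. -/
theorem pos_bound {V : Set ℝ} (hV : V.Finite) (h : ∀ v ∈ V, 0 < v) :
    ∃ β : ℝ, 0 < β ∧ ∀ v ∈ V, β ≤ v := by
  rcases V.eq_empty_or_nonempty with rfl | hne
  · exact ⟨1, one_pos, fun v hv => absurd hv (Set.notMem_empty v)⟩
  · obtain ⟨a, ha, hmin⟩ := Set.exists_min_image V id hV hne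
    exact ⟨a, h a ha, fun v hv => hmin v hv⟩

/-- The final contradiction: `β k` and `γ k` are entries off the diagonal of `y⁻¹ k y`. -/
theorem contra {Γ : Subgroup SLQ} (hD : Discr Γ) {y : SLZ} {S : Set SLQ} (hS : S ⊆ Γ) {g0 : SLQ}
    (hg0 : g0 ∈ Γ) (β γ : SLQ → ℝ) {q T B : ℝ} (hT : 0 < T)
    (hpos : ∀ k ∈ S, 0 < β k * γ k) (hlt : ∀ k ∈ S, β k * γ k ≤ q)
    (hunb : ∀ B : ℝ, ∃ k ∈ S, B < |γ k|)
    (hb : ∀ k ∈ S, 1 ≤ |γ k| → ∀ i j, |rQ (mm y (k * g0 * k⁻¹)) i j| ≤ B)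
    (φ : SLQ → ℝ) (hφ : ∀ k ∈ S, φ (k * g0 * k⁻¹) = T * β k ^ 2) : False := by
  have hfin : (φ '' {γ : SLQ | γ ∈ Γ ∧ ∀ i j, |rQ (mm y γ) i j| ≤ B}).Finite :=
    (finite_conj hD y B).image φ
  have hfin2 : {v : ℝ | ∃ k ∈ S, 1 ≤ |γ k| ∧ v = T * β k ^ 2}.Finite := by
    refine hfin.subset ?_
    rintro v ⟨k, hk, h1, rfl⟩
    exact ⟨k * g0 * k⁻¹, ⟨Γ.mul_mem (Γ.mul_mem (hS hk) hg0) (Γ.inv_mem (hS hk)), hb k hk h1⟩,
      hφ k hk⟩
  obtain ⟨b, hb0, hbV⟩ := pos_bound hfin2 (by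
    rintro v ⟨k, hk, -, rfl⟩
    have : β k ≠ 0 := by
      intro h
      have := hpos k hk
      rw [h, zero_mul] at this
      exact lt_irrefl _ this
    positivity)
  have hq0 : 0 ≤ q ^ 2 := sq_nonneg q
  obtain ⟨k, hk, hkc⟩ := hunb (1 + T * q ^ 2 / b)
  have h0 : 0 ≤ T * q ^ 2 / b := by positivity
  have h1 : 1 ≤ |γ k| := by linarith
  have h2 := hbV _ ⟨k, hk, h1, rfl⟩
  have h3 := hpos k hk
  have h4 := hlt k hk
  have h5 : (β k * γ k) ^ 2 ≤ q ^ 2 := by nlinarith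
  have h6 : |γ k| ≤ γ k ^ 2 := by
    rw [← sq_abs]
    nlinarith
  have h7 : b * γ k ^ 2 ≤ T * q ^ 2 := by
    calc b * γ k ^ 2 ≤ T * β k ^ 2 * γ k ^ 2 := mul_le_mul_of_nonneg_right h2 (sq_nonneg _)
      _ = T * (β k * γ k) ^ 2 := by ring
      _ ≤ T * q ^ 2 := mul_le_mul_of_nonneg_left h5 hT.le
  have h8 : T * q ^ 2 / b < γ k ^ 2 := by linarith
  rw [div_lt_iff₀ hb0] at h8
  linarith

/-- `(1 0; j 1)` -/
def Lj (j : ℕ) : SLZ := ⟨!![1, 0; (j : ℤ), 1], by simp [Matrix.det_fin_two]⟩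

/-- `(1 j; 0 1)` -/
def Rj (j : ℕ) : SLZ := ⟨!![1, (j : ℤ); 0, 1], by simp [Matrix.det_fin_two]⟩

theorem Lj_zero : Lj 0 = 1 := by
  ext i j
  fin_cases i <;> fin_cases j <;> simp [Lj]

theorem Rj_zero : Rj 0 = 1 := by
  ext i j
  fin_cases i <;> fin_cases j <;> simp [Rj]

theorem Lj_add (a b : ℕ) : Lj (a + b) = Lj a * Lj b := by
  ext i j
  fin_cases i <;> fin_cases j <;> simp [Lj, Matrix.mul_apply, Fin.sum_univ_two]

theorem Rj_add (a b : ℕ) : Rj (a + b) = Rj a * Rj b := by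
  ext i j
  fin_cases i <;> fin_cases j <;> simp [Rj, Matrix.mul_apply, Fin.sum_univ_two, add_comm]

theorem Lj_succ (j : ℕ) : Lj (j + 1) = -(Lj j * (rM * rM) * sM) := by
  ext a b
  fin_cases a <;> fin_cases b <;> simp [Lj, rM, sM, add_comm]

theorem Rj_succ (j : ℕ) : Rj (j + 1) = -(Rj j * rM * sM) := by
  ext a b
  fin_cases a <;> fin_cases b <;> simp [Rj, rM, sM, add_comm]

theorem pr_L (j : ℕ) (w : Fin 2 → ℝ) :
    pr (Lj j * (rM * rM)) w = w 0 * ((j + 1) * w 0 - w 1) := by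
  have e : Lj j * (rM * rM) = ⟨!![0, -1; 1, -((j : ℤ) + 1)], by simp [Matrix.det_fin_two]⟩ := by
    ext a b
    fin_cases a <;> fin_cases b <;>
      simp [Lj, rM, Matrix.mul_apply, Fin.sum_univ_two, add_comm]
  rw [e]
  simp [pr]
  ring

theorem pr_R (j : ℕ) (w : Fin 2 → ℝ) :
    pr (Rj j * rM) w = w 1 * ((j + 1) * w 1 - w 0) := by
  have e : Rj j * rM = ⟨!![(j : ℤ) + 1, -1; 1, 0], by simp [Matrix.det_fin_two]⟩ := by
    ext a b
    fin_cases a <;> fin_cases b <;>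
      simp [Rj, rM, Matrix.mul_apply, Fin.sum_univ_two, add_comm]
  rw [e]
  simp [pr]

theorem rQ_inv (g : SLQ) :
    rQ g⁻¹ = !![rQ g 1 1, -rQ g 0 1; -rQ g 1 0, rQ g 0 0] := by
  have h : g⁻¹.val = !![g.val 1 1, -g.val 0 1; -g.val 1 0, g.val 0 0] := by
    rw [← Matrix.adjugate_fin_two]
    rfl
  ext i j
  have h2 : rQ g⁻¹ i j = ((g⁻¹.val i j : ℚ) : ℝ) := rfl
  rw [h2, h]
  fin_cases i <;> fin_cases j <;> simp [rQ]

theorem conjL (m : SLQ) (w : ℕ) : rQ (m * iZQ (Lj w) * m⁻¹) =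
    !![1 + w * rQ m 0 1 * rQ m 1 1, -(w * rQ m 0 1 ^ 2);
      w * rQ m 1 1 ^ 2, 1 - w * rQ m 0 1 * rQ m 1 1] := by
  have hd := detQ m
  rw [rQ_mul, rQ_mul, rQ_iZQ, rQ_inv]
  ext i j
  fin_cases i <;> fin_cases j <;>
    simp [Matrix.mul_apply, Fin.sum_univ_two, rZ, Lj]
  · linear_combination hd
  · ring
  · ring
  · linear_combination hd

theorem conjR (m : SLQ) (w : ℕ) : rQ (m * iZQ (Rj w) * m⁻¹) =
    !![1 - w * rQ m 0 0 * rQ m 1 0, w * rQ m 0 0 ^ 2;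
      -(w * rQ m 1 0 ^ 2), 1 + w * rQ m 0 0 * rQ m 1 0] := by
  have hd := detQ m
  rw [rQ_mul, rQ_mul, rQ_iZQ, rQ_inv]
  ext i j
  fin_cases i <;> fin_cases j <;>
    simp [Matrix.mul_apply, Fin.sum_univ_two, rZ, Rj]
  · linear_combination hd
  · ring
  · ring
  · linear_combination hd

theorem mm_conj (y : SLZ) (k : SLQ) (P : SLZ) :
    mm y (k * iZQ (y * P * y⁻¹) * k⁻¹) = mm y k * iZQ P * (mm y k)⁻¹ := by
  have e : iZQ (y * P * y⁻¹) = iZQ y * iZQ P * (iZQ y)⁻¹ := by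
    rw [map_mul, map_mul, map_inv]
  rw [e]
  unfold mm
  group

end FinK

open FinK in
theorem stFinK : StFinK := by
  intro Γ Y E hE hD t ht K hKΓ hKt hKpr y hy
  by_contra hinf
  have hE' := hE
  obtain ⟨-, -, -, hr, -, -⟩ := hE'
  have htR : (2 : ℝ) < |(t : ℝ)| := by exact_mod_cast ht
  have ht4 : 0 < (t : ℝ) ^ 2 - 4 := by
    rw [← sq_abs]
    nlinarith
  obtain ⟨q, hq, hq2⟩ : ∃ q : ℝ, 0 < q ∧ q ^ 2 = (t : ℝ) ^ 2 - 4 :=
    ⟨Real.sqrt ((t : ℝ) ^ 2 - 4), Real.sqrt_pos.2 ht4, Real.sq_sqrt ht4.le⟩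
  set S : Set SLQ := {k : SLQ | k ∈ K ∧ 0 < ((iZQ y)⁻¹ * k * iZQ y) 0 1 *
      ((iZQ y)⁻¹ * k * iZQ y) 1 0} with hS
  have htr : ∀ k ∈ S, rQ (mm y k) 0 0 + rQ (mm y k) 1 1 = t := by
    intro k hk
    have h1 : (mm y k).val.trace = t := by rw [mm_trace]; exact hKt k hk.1
    rw [Matrix.trace_fin_two] at h1
    have h2 : (((mm y k).val 0 0 + (mm y k).val 1 1 : ℚ) : ℝ) = t := by rw [h1]
    push_cast at h2
    exact h2
  have hbc : ∀ k ∈ S, 0 < rQ (mm y k) 0 1 * rQ (mm y k) 1 0 := by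
    intro k hk
    have h1 : 0 < (mm y k).val 0 1 * (mm y k).val 1 0 := hk.2
    have h2 : (0 : ℝ) < (((mm y k).val 0 1 * (mm y k).val 1 0 : ℚ) : ℝ) := by exact_mod_cast h1
    push_cast at h2
    exact h2
  have hle : ∀ k ∈ S, rQ (mm y k) 0 1 * rQ (mm y k) 1 0 ≤ q ^ 2 / 4 := by
    intro k hk
    have h1 := htr k hk
    have h2 := detQ (mm y k)
    rw [hq2, ← h1]
    nlinarith [sq_nonneg (rQ (mm y k) 0 0 - rQ (mm y k) 1 1)]
  have hsq : ∀ k ∈ S, rQ (mm y k) 0 0 ^ 2 ≤ (t : ℝ) ^ 2 ∧ rQ (mm y k) 1 1 ^ 2 ≤ (t : ℝ) ^ 2 := by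
    intro k hk
    have h1 := htr k hk
    have h2 := detQ (mm y k)
    have h3 := hbc k hk
    rw [← h1]
    constructor <;> nlinarith [sq_nonneg (rQ (mm y k) 0 0), sq_nonneg (rQ (mm y k) 1 1)]
  have hA : ∀ k ∈ S, |rQ (mm y k) 0 0| ≤ |(t : ℝ)| := fun k hk => sq_le_sq.1 (hsq k hk).1
  have hDD : ∀ k ∈ S, |rQ (mm y k) 1 1| ≤ |(t : ℝ)| := fun k hk => sq_le_sq.1 (hsq k hk).2
  have hSΓ : S ⊆ Γ := fun k hk => hKΓ hk.1
  -- the dichotomy
  have hdich : (∀ B : ℝ, ∃ k ∈ S, B < |rQ (mm y k) 1 0|) ∨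
      (∀ B : ℝ, ∃ k ∈ S, B < |rQ (mm y k) 0 1|) := by
    by_contra hcon
    push Not at hcon
    obtain ⟨⟨B1, h1⟩, ⟨B2, h2⟩⟩ := hcon
    apply hinf
    refine (finite_conj hD y (max |(t : ℝ)| (max B1 B2))).subset ?_
    intro k hk
    refine ⟨hSΓ hk, fun i j => ?_⟩
    fin_cases i <;> fin_cases j
    · exact (hA k hk).trans (le_max_left _ _)
    · exact (h2 k hk).trans ((le_max_right _ _).trans (le_max_right _ _))
    · exact (h1 k hk).trans ((le_max_left _ _).trans (le_max_right _ _))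
    · exact (hDD k hk).trans (le_max_left _ _)
  have heig : ∀ k ∈ S, ∃ ρ : ℝ, 0 < ρ ∧
      rQ (mm y k) *ᵥ ![ρ, 1] = (rQ (mm y k) 1 0 * ρ + rQ (mm y k) 1 1) • ![ρ, 1] ∧
      |rQ (mm y k) 1 0| * ρ ≤ q ∧ |rQ (mm y k) 0 1| ≤ q * ρ := by
    intro k hk
    obtain ⟨ρ, h1, h2, h3, h4⟩ := eig (htr k hk) (detQ (mm y k)) (hbc k hk) hq hq2
    refine ⟨ρ, h1, ?_, h3, h4⟩
    ext i
    fin_cases i
    · simp [Matrix.mulVec, dotProduct, Fin.sum_univ_two]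
      linarith
    · simp [Matrix.mulVec, dotProduct, Fin.sum_univ_two]
  rcases hdich with hun | hun
  · have hstay : ∀ j, y * Lj j ∈ E := by
      refine stay hE hKpr hy Lj (rM * rM) Lj_zero Lj_succ (fun x hx => ?_) (fun j => ?_)
      · rw [← mul_assoc]
        exact hr _ (hr _ hx)
      · obtain ⟨k, hk, hlt⟩ := hun (q * (j + 1))
        obtain ⟨ρ, h1, h2, h3, -⟩ := heig k hk
        refine ⟨k, hk.1, _, _, h2, ?_⟩
        rw [pr_L]
        have h5 : q * (j + 1) * ρ < q := (mul_lt_mul_of_pos_right hlt h1).trans_le h3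
        have h6 : (j + 1 : ℝ) * ρ < 1 := by nlinarith
        have h7 : (![ρ, 1] : Fin 2 → ℝ) 0 = ρ := rfl
        have h8 : (![ρ, 1] : Fin 2 → ℝ) 1 = 1 := rfl
        rw [h7, h8]
        nlinarith
    obtain ⟨w, hw, hwH⟩ := pigeon hE Lj Lj_add hstay
    have hwR : (0 : ℝ) < w := by exact_mod_cast hw
    refine contra (y := y) hD hSΓ (g0 := iZQ (y * Lj w * y⁻¹)) hwH (fun k => rQ (mm y k) 0 1)
      (fun k => rQ (mm y k) 1 0) (q := q ^ 2 / 4) (T := w)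
      (B := 1 + w * ((q ^ 2 / 4) ^ 2 + (q ^ 2 / 4) * |(t : ℝ)| + |(t : ℝ)| ^ 2)) hwR hbc hle hun
      ?_ (fun X => -rQ (mm y X) 0 1) ?_
    · intro k hk h1 i j
      have hb : |rQ (mm y k) 0 1| ≤ q ^ 2 / 4 := by
        have h2 := hle k hk
        have h3 := hbc k hk
        calc |rQ (mm y k) 0 1| ≤ |rQ (mm y k) 0 1| * |rQ (mm y k) 1 0| :=
              le_mul_of_one_le_right (abs_nonneg _) h1
          _ = rQ (mm y k) 0 1 * rQ (mm y k) 1 0 := by rw [← abs_mul, abs_of_pos h3]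
          _ ≤ _ := h2
      have hd := hDD k hk
      rw [mm_conj, conjL]
      have hbd : |rQ (mm y k) 0 1 * rQ (mm y k) 1 1| ≤ (q ^ 2 / 4) * |(t : ℝ)| := by
        rw [abs_mul]
        exact mul_le_mul hb hd (abs_nonneg _) (by positivity)
      have hb2 : rQ (mm y k) 0 1 ^ 2 ≤ (q ^ 2 / 4) ^ 2 := by
        rw [← sq_abs (rQ (mm y k) 0 1)]
        exact pow_le_pow_left₀ (abs_nonneg _) hb 2
      have hd2 : rQ (mm y k) 1 1 ^ 2 ≤ |(t : ℝ)| ^ 2 := by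
        rw [← sq_abs (rQ (mm y k) 1 1)]
        exact pow_le_pow_left₀ (abs_nonneg _) hd 2
      have hbd' := abs_le.1 hbd
      have n1 : 0 ≤ (q ^ 2 / 4) ^ 2 := by positivity
      have n2 : 0 ≤ (q ^ 2 / 4) * |(t : ℝ)| := by positivity
      have n3 : 0 ≤ |(t : ℝ)| ^ 2 := by positivity
      have n4 := sq_nonneg (rQ (mm y k) 0 1)
      have n5 := sq_nonneg (rQ (mm y k) 1 1)
      have m1 : (w : ℝ) * (rQ (mm y k) 0 1 * rQ (mm y k) 1 1) ≤ w * ((q ^ 2 / 4) * |(t : ℝ)|) :=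
        mul_le_mul_of_nonneg_left hbd'.2 hwR.le
      have m2 : (w : ℝ) * (-((q ^ 2 / 4) * |(t : ℝ)|)) ≤
          w * (rQ (mm y k) 0 1 * rQ (mm y k) 1 1) :=
        mul_le_mul_of_nonneg_left hbd'.1 hwR.le
      have m3 : (w : ℝ) * rQ (mm y k) 0 1 ^ 2 ≤ w * (q ^ 2 / 4) ^ 2 :=
        mul_le_mul_of_nonneg_left hb2 hwR.le
      have m4 : (w : ℝ) * rQ (mm y k) 1 1 ^ 2 ≤ w * |(t : ℝ)| ^ 2 :=
        mul_le_mul_of_nonneg_left hd2 hwR.le
      have p1 : 0 ≤ (w : ℝ) * (q ^ 2 / 4) ^ 2 := by positivity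
      have p2 : 0 ≤ (w : ℝ) * ((q ^ 2 / 4) * |(t : ℝ)|) := by positivity
      have p3 : 0 ≤ (w : ℝ) * |(t : ℝ)| ^ 2 := by positivity
      have p4 : 0 ≤ (w : ℝ) * rQ (mm y k) 0 1 ^ 2 := by positivity
      have p5 : 0 ≤ (w : ℝ) * rQ (mm y k) 1 1 ^ 2 := by positivity
      have h00 : |1 + w * rQ (mm y k) 0 1 * rQ (mm y k) 1 1| ≤
          1 + w * ((q ^ 2 / 4) ^ 2 + (q ^ 2 / 4) * |(t : ℝ)| + |(t : ℝ)| ^ 2) := by
        rw [abs_le]; constructor <;> linarith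
      have h01 : |-(w * rQ (mm y k) 0 1 ^ 2)| ≤
          1 + w * ((q ^ 2 / 4) ^ 2 + (q ^ 2 / 4) * |(t : ℝ)| + |(t : ℝ)| ^ 2) := by
        rw [abs_le]; constructor <;> linarith
      have h10 : |w * rQ (mm y k) 1 1 ^ 2| ≤
          1 + w * ((q ^ 2 / 4) ^ 2 + (q ^ 2 / 4) * |(t : ℝ)| + |(t : ℝ)| ^ 2) := by
        rw [abs_le]; constructor <;> linarith
      have h11 : |1 - w * rQ (mm y k) 0 1 * rQ (mm y k) 1 1| ≤
          1 + w * ((q ^ 2 / 4) ^ 2 + (q ^ 2 / 4) * |(t : ℝ)| + |(t : ℝ)| ^ 2) := by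
        rw [abs_le]; constructor <;> linarith
      fin_cases i <;> fin_cases j
      · exact h00
      · exact h01
      · exact h10
      · exact h11
    · intro k hk
      rw [mm_conj, conjL]
      simp
  · have hstay : ∀ j, y * Rj j ∈ E := by
      refine stay hE hKpr hy Rj rM Rj_zero Rj_succ (fun x hx => hr _ hx) (fun j => ?_)
      obtain ⟨k, hk, hlt⟩ := hun (q * (j + 1))
      obtain ⟨ρ, h1, h2, -, h4⟩ := heig k hk
      refine ⟨k, hk.1, _, _, h2, ?_⟩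
      rw [pr_R]
      have h5 : q * (j + 1) < q * ρ := hlt.trans_le h4
      have h6 : (j + 1 : ℝ) < ρ := lt_of_mul_lt_mul_left h5 hq.le
      have h7 : (![ρ, 1] : Fin 2 → ℝ) 0 = ρ := rfl
      have h8 : (![ρ, 1] : Fin 2 → ℝ) 1 = 1 := rfl
      rw [h7, h8]
      linarith
    obtain ⟨w, hw, hwH⟩ := pigeon hE Rj Rj_add hstay
    have hwR : (0 : ℝ) < w := by exact_mod_cast hw
    have hbc' : ∀ k ∈ S, 0 < rQ (mm y k) 1 0 * rQ (mm y k) 0 1 := fun k hk => by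
      rw [mul_comm]
      exact hbc k hk
    have hle' : ∀ k ∈ S, rQ (mm y k) 1 0 * rQ (mm y k) 0 1 ≤ q ^ 2 / 4 := fun k hk => by
      rw [mul_comm]
      exact hle k hk
    refine contra (y := y) hD hSΓ (g0 := iZQ (y * Rj w * y⁻¹)) hwH (fun k => rQ (mm y k) 1 0)
      (fun k => rQ (mm y k) 0 1) (q := q ^ 2 / 4) (T := w)
      (B := 1 + w * ((q ^ 2 / 4) ^ 2 + (q ^ 2 / 4) * |(t : ℝ)| + |(t : ℝ)| ^ 2)) hwR hbc' hle' hun
      ?_ (fun X => -rQ (mm y X) 1 0) ?_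
    · intro k hk h1 i j
      have hc : |rQ (mm y k) 1 0| ≤ q ^ 2 / 4 := by
        have h2 := hle' k hk
        have h3 := hbc' k hk
        calc |rQ (mm y k) 1 0| ≤ |rQ (mm y k) 1 0| * |rQ (mm y k) 0 1| :=
              le_mul_of_one_le_right (abs_nonneg _) h1
          _ = rQ (mm y k) 1 0 * rQ (mm y k) 0 1 := by rw [← abs_mul, abs_of_pos h3]
          _ ≤ _ := h2
      have ha := hA k hk
      rw [mm_conj, conjR]
      have hbd : |rQ (mm y k) 0 0 * rQ (mm y k) 1 0| ≤ (q ^ 2 / 4) * |(t : ℝ)| := by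
        rw [abs_mul, mul_comm]
        exact mul_le_mul hc ha (abs_nonneg _) (by positivity)
      have hb2 : rQ (mm y k) 1 0 ^ 2 ≤ (q ^ 2 / 4) ^ 2 := by
        rw [← sq_abs (rQ (mm y k) 1 0)]
        exact pow_le_pow_left₀ (abs_nonneg _) hc 2
      have hd2 : rQ (mm y k) 0 0 ^ 2 ≤ |(t : ℝ)| ^ 2 := by
        rw [← sq_abs (rQ (mm y k) 0 0)]
        exact pow_le_pow_left₀ (abs_nonneg _) ha 2
      have hbd' := abs_le.1 hbd
      have m1 : (w : ℝ) * (rQ (mm y k) 0 0 * rQ (mm y k) 1 0) ≤ w * ((q ^ 2 / 4) * |(t : ℝ)|) :=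
        mul_le_mul_of_nonneg_left hbd'.2 hwR.le
      have m2 : (w : ℝ) * (-((q ^ 2 / 4) * |(t : ℝ)|)) ≤
          w * (rQ (mm y k) 0 0 * rQ (mm y k) 1 0) :=
        mul_le_mul_of_nonneg_left hbd'.1 hwR.le
      have m3 : (w : ℝ) * rQ (mm y k) 1 0 ^ 2 ≤ w * (q ^ 2 / 4) ^ 2 :=
        mul_le_mul_of_nonneg_left hb2 hwR.le
      have m4 : (w : ℝ) * rQ (mm y k) 0 0 ^ 2 ≤ w * |(t : ℝ)| ^ 2 :=
        mul_le_mul_of_nonneg_left hd2 hwR.le
      have p1 : 0 ≤ (w : ℝ) * (q ^ 2 / 4) ^ 2 := by positivity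
      have p2 : 0 ≤ (w : ℝ) * ((q ^ 2 / 4) * |(t : ℝ)|) := by positivity
      have p3 : 0 ≤ (w : ℝ) * |(t : ℝ)| ^ 2 := by positivity
      have p4 : 0 ≤ (w : ℝ) * rQ (mm y k) 1 0 ^ 2 := by positivity
      have p5 : 0 ≤ (w : ℝ) * rQ (mm y k) 0 0 ^ 2 := by positivity
      have h00 : |1 - w * rQ (mm y k) 0 0 * rQ (mm y k) 1 0| ≤
          1 + w * ((q ^ 2 / 4) ^ 2 + (q ^ 2 / 4) * |(t : ℝ)| + |(t : ℝ)| ^ 2) := by
        rw [abs_le]; constructor <;> linarith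
      have h01 : |w * rQ (mm y k) 0 0 ^ 2| ≤
          1 + w * ((q ^ 2 / 4) ^ 2 + (q ^ 2 / 4) * |(t : ℝ)| + |(t : ℝ)| ^ 2) := by
        rw [abs_le]; constructor <;> linarith
      have h10 : |-(w * rQ (mm y k) 1 0 ^ 2)| ≤
          1 + w * ((q ^ 2 / 4) ^ 2 + (q ^ 2 / 4) * |(t : ℝ)| + |(t : ℝ)| ^ 2) := by
        rw [abs_le]; constructor <;> linarith
      have h11 : |1 + w * rQ (mm y k) 0 0 * rQ (mm y k) 1 0| ≤
          1 + w * ((q ^ 2 / 4) ^ 2 + (q ^ 2 / 4) * |(t : ℝ)| + |(t : ℝ)| ^ 2) := by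
        rw [abs_le]; constructor <;> linarith
      fin_cases i <;> fin_cases j
      · exact h00
      · exact h01
      · exact h10
      · exact h11
    · intro k hk
      rw [mm_conj, conjR]
      simp

end Pool.Agent.Lib.MP_c356f3_al
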