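import Pool.Agent.Lib.MP_c356f3_al.Stmts

/-!
Springer's property (U), module A: a complex number fixed by all automorphisms is rational.
-/

set_option autoImplicit false

namespace Pool.Agent.Lib.MP_c356f3_al

open IntermediateField

/-- An algebraic element lying in a purely transcendental extension lies in the base field. -/
lemma fix_mem_adjoin {F : Type} [Field F] [Algebra F ℂ] {ι : Type} (x : ι → ℂ)
    (hx : AlgebraicIndependent F x) (z : ℂ) (hz : IsAlgebraic F z)
    (hmem : z ∈ adjoin F (Set.range x)) : z ∈ Set.range (algebraMap F ℂ) := by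
  rw [mem_adjoin_range_iff] at hmem
  obtain ⟨r, s, hrs⟩ := hmem
  by_cases hs : MvPolynomial.aeval x s = 0
  · rw [hs, div_zero] at hrs
    exact ⟨0, by rw [hrs, map_zero]⟩
  have hmul : z * MvPolynomial.aeval x s = MvPolynomial.aeval x r := by
    rw [hrs]
    field_simp
  have hs0 : s ≠ 0 := by
    rintro rfl
    exact hs (map_zero _)
  have hx' := hx.algebraicClosure
  set E := algebraicClosure F ℂ with hE
  have hzE : z ∈ E := by
    rw [hE, mem_algebraicClosure_iff]
    exact hz
  have h1 : ∀ q : MvPolynomial ι F, MvPolynomial.aeval x (MvPolynomial.map (algebraMap F E) q) =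
      MvPolynomial.aeval x q := fun q => by
    rw [MvPolynomial.aeval_map_algebraMap]
  have h2 : MvPolynomial.C (⟨z, hzE⟩ : E) * MvPolynomial.map (algebraMap F E) s =
      MvPolynomial.map (algebraMap F E) r := by
    refine hx' ?_
    rw [map_mul, h1, h1, ← hmul, MvPolynomial.aeval_C]
    rfl
  obtain ⟨m, hm⟩ := MvPolynomial.ne_zero_iff.mp hs0
  have h3 := congrArg (MvPolynomial.coeff m) h2
  rw [MvPolynomial.coeff_C_mul, MvPolynomial.coeff_map, MvPolynomial.coeff_map] at h3
  have h4 : z * algebraMap F ℂ (MvPolynomial.coeff m s) =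
      algebraMap F ℂ (MvPolynomial.coeff m r) := congrArg Subtype.val h3
  refine ⟨MvPolynomial.coeff m r / MvPolynomial.coeff m s, ?_⟩
  rw [map_div₀, ← h4]
  have h5 : algebraMap F ℂ (MvPolynomial.coeff m s) ≠ 0 := by
    rw [Ne, FaithfulSMul.algebraMap_eq_zero_iff]
    exact hm
  field_simp

/-- An algebraic element outside the base field is moved by an automorphism. -/
lemma fix_algebraic {F : Type} [Field F] [CharZero F] [Algebra F ℂ] (z : ℂ)
    (hz : IsAlgebraic F z) (hn : z ∉ Set.range (algebraMap F ℂ)) :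
    ∃ σ : ℂ ≃+* ℂ, σ z ≠ z := by
  obtain ⟨s, hs⟩ := exists_isTranscendenceBasis F ℂ
  set K := adjoin F (Set.range ((↑) : s → ℂ)) with hK
  have halg : Algebra.IsAlgebraic K ℂ := hs.isAlgebraic_field
  have hcl : IsAlgClosure K ℂ := ⟨inferInstance, halg⟩
  have hnorm : Normal K ℂ := inferInstance
  have hsep : Algebra.IsSeparable K ℂ := inferInstance
  have hgal : IsGalois K ℂ := ⟨⟩
  have hzK : z ∉ K := fun h => hn (fix_mem_adjoin _ hs.1 z hz h)
  have h1 : z ∉ (⊥ : IntermediateField K ℂ) := by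
    rw [IntermediateField.mem_bot]
    rintro ⟨y, rfl⟩
    exact hzK y.2
  rw [InfiniteGalois.mem_bot_iff_fixed] at h1
  push Not at h1
  obtain ⟨f, hf⟩ := h1
  exact ⟨f.toRingEquiv, hf⟩

lemma fix_transcendental (z : ℂ) (hz : Transcendental ℚ z) : z ∉ ℚ⟮z ^ 2⟯ := by
  intro h
  rw [mem_adjoin_simple_iff] at h
  obtain ⟨r, s, hrs⟩ := h
  have hz0 : z ≠ 0 := by
    rintro rfl
    exact hz (isAlgebraic_zero)
  have hs : Polynomial.aeval (z ^ 2) s ≠ 0 := by
    intro h
    rw [h, div_zero] at hrs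
    exact hz0 hrs
  have hs0 : s ≠ 0 := by
    rintro rfl
    exact hs (map_zero _)
  have hmul : z * Polynomial.aeval (z ^ 2) s = Polynomial.aeval (z ^ 2) r :=
    (eq_div_iff hs).mp hrs
  have h1 : Polynomial.aeval z (Polynomial.X * Polynomial.expand ℚ 2 s -
      Polynomial.expand ℚ 2 r) = 0 := by
    rw [map_sub, map_mul, Polynomial.aeval_X, Polynomial.expand_aeval, Polynomial.expand_aeval,
      hmul, sub_self]
  have h2 := (transcendental_iff.mp hz) _ h1
  rw [sub_eq_zero] at h2
  have h3 := congrArg Polynomial.natDegree h2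
  rw [Polynomial.natDegree_X_mul (by
    rw [Ne, Polynomial.expand_eq_zero (by norm_num)]
    exact hs0), Polynomial.natDegree_expand, Polynomial.natDegree_expand] at h3
  omega

theorem stFix : StFix := by
  intro z hz
  by_contra hcon
  push Not at hcon
  by_cases halg : IsAlgebraic ℚ z
  · obtain ⟨σ, hσ⟩ := fix_algebraic (F := ℚ) z halg (by
      rintro ⟨q, hq⟩
      exact hcon q (by rw [← hq]; rfl))
    exact hσ (hz σ)
  · have h1 := fix_transcendental z halg
    have h2 : IsAlgebraic ℚ⟮z ^ 2⟯ z := by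
      refine IsAlgebraic.of_pow (n := 2) (by norm_num) ?_
      exact isAlgebraic_algebraMap (⟨z ^ 2, mem_adjoin_simple_self ℚ (z ^ 2)⟩ : ℚ⟮z ^ 2⟯)
    obtain ⟨σ, hσ⟩ := fix_algebraic (F := ℚ⟮z ^ 2⟯) z h2 (by
      rintro ⟨q, hq⟩
      have h3 : (q : ℂ) = z := hq
      have h4 := q.2
      rw [h3] at h4
      exact h1 h4)
    exact hσ (hz σ)

end Pool.Agent.Lib.MP_c356f3_al
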