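import Pool.Agent.Lib.MP_c356f3_al.StmtsX

/-!
Springer's property (U), module X5: a hyperbolic integral element.
-/

namespace Pool.Agent.Lib.MP_c356f3_al.Hyp

open Matrix Pool.Agent.Lib.MP_c356f3_al

/-- reduction modulo three -/
def red : SLZ →* SpecialLinearGroup (Fin 2) (ZMod 3) :=
  SpecialLinearGroup.map (Int.castRingHom (ZMod 3))

lemma exists_ne (H : Subgroup SLZ) (hH : Infinite H) : ∃ h ∈ H, h ≠ 1 ∧ red h = 1 := by
  obtain ⟨x, y, hxy, he⟩ := Finite.exists_ne_map_eq_of_infinite (fun h : H => red h)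
  refine ⟨(x : SLZ)⁻¹ * y, H.mul_mem (H.inv_mem x.2) y.2, ?_, ?_⟩
  · intro h
    apply hxy
    apply Subtype.ext
    rw [inv_mul_eq_one] at h
    exact h
  · rw [map_mul, map_inv, inv_mul_eq_one]
    exact he

lemma red_dvd {h : SLZ} (hr : red h = 1) (i j : Fin 2) :
    (3 : ℤ) ∣ h.val i j - (1 : Matrix (Fin 2) (Fin 2) ℤ) i j := by
  have h1 := congrArg (fun m : SpecialLinearGroup (Fin 2) (ZMod 3) => m.val i j) hr
  have h2 : ((h.val i j : ℤ) : ZMod 3) = ((1 : Matrix (Fin 2) (Fin 2) ℤ) i j : ℤ) := by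
    have h3 : ((h.val i j : ℤ) : ZMod 3) = (1 : Matrix (Fin 2) (Fin 2) (ZMod 3)) i j := h1
    rw [h3, Matrix.one_apply, Matrix.one_apply]
    split_ifs <;> simp
  have h4 := (ZMod.intCast_eq_intCast_iff_dvd_sub _ _ 3).mp h2.symm
  exact_mod_cast h4

/-- an element that is trivial modulo three is hyperbolic or unipotent -/
lemma shape {h : SLZ} (hr : red h = 1) (ht : ¬ 2 < |h.val.trace|) :
    ∃ a b c : ℤ, a * a + b * c = 0 ∧ h.val = !![1 + 3 * a, 3 * b; 3 * c, 1 - 3 * a] := by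
  obtain ⟨a, ha⟩ := red_dvd hr 0 0
  obtain ⟨b, hb⟩ := red_dvd hr 0 1
  obtain ⟨c, hc⟩ := red_dvd hr 1 0
  obtain ⟨d, hd⟩ := red_dvd hr 1 1
  simp only [Matrix.one_apply_eq] at ha hd
  rw [Matrix.one_apply_ne (by decide)] at hb hc
  have e1 : h.val 0 0 = 1 + 3 * a := by linarith
  have e2 : h.val 0 1 = 3 * b := by linarith
  have e3 : h.val 1 0 = 3 * c := by linarith
  have e4 : h.val 1 1 = 1 + 3 * d := by linarith
  have hdet := h.2
  rw [Matrix.det_fin_two, e1, e2, e3, e4] at hdet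
  have hs : a + d = 3 * (b * c - a * d) := by
    have : 3 * (a + d) = 3 * (3 * (b * c - a * d)) := by linarith
    linarith
  rw [Matrix.trace_fin_two, e1, e4] at ht
  have ht' := not_lt.mp ht
  rw [abs_le] at ht'
  generalize b * c - a * d = k at hs
  have hk : k = 0 := by omega
  have hd' : d = -a := by omega
  subst hd'
  refine ⟨a, b, c, ?_, ?_⟩
  · nlinarith
  · ext i j
    fin_cases i <;> fin_cases j
    · simpa using e1
    · simpa using e2
    · simpa using e3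
    · simpa [sub_eq_add_neg] using e4

lemma pw {h : SLZ} {a b c : ℤ} (hbc : a * a + b * c = 0)
    (hh : h.val = !![1 + 3 * a, 3 * b; 3 * c, 1 - 3 * a]) (n : ℕ) :
    (h ^ n).val = !![1 + 3 * n * a, 3 * n * b; 3 * n * c, 1 - 3 * n * a] := by
  induction n with
  | zero =>
    ext i j
    fin_cases i <;> fin_cases j <;> simp
  | succ n ih =>
    have e : (h ^ (n + 1)).val = (h ^ n).val * h.val := by rw [pow_succ]; rfl
    rw [e, ih, hh, Matrix.mul_fin_two]
    ext i j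
    fin_cases i <;> fin_cases j
    · simp
      linear_combination 9 * n * hbc
    · simp
      ring
    · simp
      ring
    · simp
      linear_combination 9 * n * hbc

lemma exists_den (g : Fin 2 → Fin 2 → ℚ) : ∃ (P : ℕ) (G : Fin 2 → Fin 2 → ℤ), 0 < P ∧
    ∀ i j, (G i j : ℚ) = P * g i j := by
  refine ⟨∏ i, ∏ j, (g i j).den, fun i j => (g i j).num * ((∏ i, ∏ j, (g i j).den) /
    (g i j).den : ℕ), ?_, ?_⟩
  · exact Finset.prod_pos (fun i _ => Finset.prod_pos (fun j _ => (g i j).den_pos))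
  · intro i j
    have hd : (g i j).den ∣ ∏ i, ∏ j, (g i j).den :=
      (Finset.dvd_prod_of_mem (fun j => (g i j).den) (Finset.mem_univ j)).trans
        (Finset.dvd_prod_of_mem (fun i => ∏ j, (g i j).den) (Finset.mem_univ i))
    obtain ⟨q, hq⟩ := hd
    have hpos : 0 < (g i j).den := (g i j).den_pos
    show (((g i j).num * ((∏ i, ∏ j, (g i j).den) / (g i j).den : ℕ) : ℤ) : ℚ) = _
    rw [hq, Nat.mul_div_cancel_left _ hpos]
    have h1 : ((g i j).num : ℚ) = g i j * (g i j).den := (Rat.mul_den_eq_num _).symm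
    push_cast
    rw [h1]
    ring

end Hyp

open Hyp

/-- X5 -/
theorem stHyp : StHyp := by
  intro Γ hΓ hinf
  obtain ⟨h, hh, h1, hr⟩ := exists_ne _ hinf
  by_cases ht : 2 < |h.val.trace|
  · exact ⟨h, hh, ht⟩
  obtain ⟨a, b, c, hbc, hv⟩ := shape hr ht
  -- the fixed direction
  obtain ⟨x, y, hxy, hc, hb⟩ : ∃ x y : ℤ, (x ≠ 0 ∨ y ≠ 0) ∧
      (∃ κ : ℤ, κ ≠ 0 ∧ κ * a = x * y ∧ κ * b = - (x * x) ∧ κ * c = y * y) ∧ True := by
    by_cases hc : c = 0
    · have ha : a = 0 := by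
        rw [hc] at hbc
        nlinarith
      by_cases hb : b = 0
      · exfalso
        apply h1
        apply Subtype.ext
        rw [hv, ha, hb, hc]
        ext i j
        fin_cases i <;> fin_cases j <;> simp
      · refine ⟨b, -a, Or.inl hb, ⟨-b, by omega, by ring, by ring, ?_⟩, trivial⟩
        linear_combination -hbc
    · refine ⟨a, c, Or.inr hc, ⟨c, hc, by ring, ?_, rfl⟩, trivial⟩
      linear_combination hbc
  clear hb
  obtain ⟨κ, hκ, k1, k2, k3⟩ := hc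
  have hvne : (![(x : ℝ), (y : ℝ)] : Fin 2 → ℝ) ≠ 0 := by
    intro e
    have e0 := congrFun e 0
    have e1 := congrFun e 1
    simp at e0 e1
    rcases hxy with h | h
    · exact h e0
    · exact h e1
  obtain ⟨γ, hγ, hdt, -⟩ := hΓ _ _ hvne hvne
  obtain ⟨P, G, hP, hG⟩ := exists_den (fun i j => γ.val i j)
  have hdet := γ.2
  rw [Matrix.det_fin_two] at hdet
  have hG' : G 0 0 * G 1 1 - G 0 1 * G 1 0 = (P : ℤ) ^ 2 := by
    have : ((G 0 0 * G 1 1 - G 0 1 * G 1 0 : ℤ) : ℚ) = ((P : ℤ) ^ 2 : ℤ) := by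
      push_cast
      rw [hG, hG, hG, hG]
      linear_combination (P : ℚ) ^ 2 * hdet
    exact_mod_cast this
  -- the determinant of the two directions
  have hD : G 0 0 * x * y + G 0 1 * y * y - G 1 0 * x * x - G 1 1 * x * y ≠ 0 := by
    intro hD
    apply hdt
    have h2 : ((G 0 0 * x * y + G 0 1 * y * y - G 1 0 * x * x - G 1 1 * x * y : ℤ) : ℚ) = 0 := by
      rw [hD]; simp
    push_cast at h2
    rw [hG, hG, hG, hG] at h2
    have hP0 : (P : ℚ) ≠ 0 := by exact_mod_cast hP.ne'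
    have h3 : γ.val 0 0 * x * y + γ.val 0 1 * y * y - γ.val 1 0 * x * x - γ.val 1 1 * x * y = 0 := by
      apply mul_left_cancel₀ hP0
      linear_combination h2
    have h4 : ((γ.val 0 0 * x * y + γ.val 0 1 * y * y - γ.val 1 0 * x * x -
      γ.val 1 1 * x * y : ℚ) : ℝ) = 0 := by rw [h3]; simp
    push_cast at h4
    simp only [dt, rQ, Matrix.mulVec, dotProduct, Fin.sum_univ_two, Matrix.map_apply,
      Matrix.cons_val_zero, Matrix.cons_val_one]
    linear_combination h4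
  -- the conjugate of the power of `h`
  let m0 : ℤ := (G 0 0 * a + G 0 1 * c) * G 1 1 - (G 0 0 * b - G 0 1 * a) * G 1 0
  let m1 : ℤ := (G 0 0 * b - G 0 1 * a) * G 0 0 - (G 0 0 * a + G 0 1 * c) * G 0 1
  let m2 : ℤ := (G 1 0 * a + G 1 1 * c) * G 1 1 - (G 1 0 * b - G 1 1 * a) * G 1 0
  have hudet : (!![1 + 3 * m0, 3 * m1; 3 * m2, 1 - 3 * m0] : Matrix (Fin 2) (Fin 2) ℤ).det = 1 := by
    rw [Matrix.det_fin_two_of]
    simp only [m0, m1, m2]
    linear_combination (-9 * (G 0 0 * G 1 1 - G 0 1 * G 1 0) ^ 2) * hbc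
  let u : SLZ := ⟨!![1 + 3 * m0, 3 * m1; 3 * m2, 1 - 3 * m0], hudet⟩
  have hu : iZQ u = γ * iZQ (h ^ (P ^ 2)) * γ⁻¹ := by
    rw [eq_mul_inv_iff_mul_eq]
    apply Subtype.ext
    have eu : (iZQ u).val = !![1 + 3 * (m0 : ℚ), 3 * m1; 3 * m2, 1 - 3 * m0] := by
      ext i j
      fin_cases i <;> fin_cases j <;> simp [iZQ, u]
    have eh : (iZQ (h ^ (P ^ 2))).val = !![1 + 3 * (P : ℚ) ^ 2 * a, 3 * (P : ℚ) ^ 2 * b;
        3 * (P : ℚ) ^ 2 * c, 1 - 3 * (P : ℚ) ^ 2 * a] := by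
      have e := pw hbc hv (P ^ 2)
      have e' : (iZQ (h ^ (P ^ 2))).val = (h ^ (P ^ 2)).val.map (fun n : ℤ => (n : ℚ)) := rfl
      rw [e', e]
      ext i j
      fin_cases i <;> fin_cases j <;> simp
    have eg : γ.val = !![γ.val 0 0, γ.val 0 1; γ.val 1 0, γ.val 1 1] := Matrix.eta_fin_two _
    show (iZQ u).val * γ.val = γ.val * (iZQ (h ^ (P ^ 2))).val
    have f0 : (m0 : ℚ) = (P : ℚ) ^ 2 * ((γ.val 0 0 * a + γ.val 0 1 * c) * γ.val 1 1 -
        (γ.val 0 0 * b - γ.val 0 1 * a) * γ.val 1 0) := by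
      simp only [m0]
      push_cast
      rw [hG, hG, hG, hG]
      ring
    have f1 : (m1 : ℚ) = (P : ℚ) ^ 2 * ((γ.val 0 0 * b - γ.val 0 1 * a) * γ.val 0 0 -
        (γ.val 0 0 * a + γ.val 0 1 * c) * γ.val 0 1) := by
      simp only [m1]
      push_cast
      rw [hG, hG]
      ring
    have f2 : (m2 : ℚ) = (P : ℚ) ^ 2 * ((γ.val 1 0 * a + γ.val 1 1 * c) * γ.val 1 1 -
        (γ.val 1 0 * b - γ.val 1 1 * a) * γ.val 1 0) := by
      simp only [m2]
      push_cast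
      rw [hG, hG]
      ring
    rw [eu, eh, f0, f1, f2]
    generalize γ.val 0 0 = g0 at *
    generalize γ.val 0 1 = g1 at *
    generalize γ.val 1 0 = g2 at *
    generalize γ.val 1 1 = g3 at *
    rw [eg, Matrix.mul_fin_two, Matrix.mul_fin_two]
    ext i j
    fin_cases i <;> fin_cases j
    · simp
      linear_combination (3 * (P : ℚ) ^ 2 * (g0 * a + g1 * c)) * hdet
    · simp
      linear_combination (3 * (P : ℚ) ^ 2 * (g0 * b - g1 * a)) * hdet
    · simp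
      linear_combination (3 * (P : ℚ) ^ 2 * (g2 * a + g3 * c)) * hdet
    · simp
      linear_combination (3 * (P : ℚ) ^ 2 * (g2 * b - g3 * a)) * hdet
  have hmem : u ∈ Γ.comap iZQ := by
    rw [Subgroup.mem_comap, hu]
    exact Γ.mul_mem (Γ.mul_mem hγ (Subgroup.mem_comap.mp (Subgroup.pow_mem _ hh _))) (Γ.inv_mem hγ)
  refine ⟨h * u, Subgroup.mul_mem _ hh hmem, ?_⟩
  have htr : (h * u).val.trace = 2 + 9 * (a * m0 + b * m2 + c * m1 + a * m0) := by
    have e : (h * u).val = h.val * !![1 + 3 * m0, 3 * m1; 3 * m2, 1 - 3 * m0] := rfl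
    rw [e, hv, Matrix.mul_fin_two, Matrix.trace_fin_two_of]
    ring
  have hs : κ * κ * (a * m0 + b * m2 + c * m1 + a * m0) =
      -(G 0 0 * x * y + G 0 1 * y * y - G 1 0 * x * x - G 1 1 * x * y) ^ 2 := by
    let S : ℤ → ℤ → ℤ → ℤ := fun a b c =>
      a * ((G 0 0 * a + G 0 1 * c) * G 1 1 - (G 0 0 * b - G 0 1 * a) * G 1 0) +
      b * ((G 1 0 * a + G 1 1 * c) * G 1 1 - (G 1 0 * b - G 1 1 * a) * G 1 0) +
      c * ((G 0 0 * b - G 0 1 * a) * G 0 0 - (G 0 0 * a + G 0 1 * c) * G 0 1) +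
      a * ((G 0 0 * a + G 0 1 * c) * G 1 1 - (G 0 0 * b - G 0 1 * a) * G 1 0)
    have e1 : κ * κ * (a * m0 + b * m2 + c * m1 + a * m0) = S (κ * a) (κ * b) (κ * c) := by
      simp only [S, m0, m1, m2]
      ring
    rw [e1, k1, k2, k3]
    simp only [S]
    ring
  have hs0 : a * m0 + b * m2 + c * m1 + a * m0 ≠ 0 := by
    intro e
    rw [e, mul_zero] at hs
    have : (G 0 0 * x * y + G 0 1 * y * y - G 1 0 * x * x - G 1 1 * x * y) ^ 2 = 0 := by linarith
    exact hD (pow_eq_zero_iff two_ne_zero |>.mp this)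
  rw [htr, lt_abs]
  omega

end Pool.Agent.Lib.MP_c356f3_al
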