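import Pool.Agent.Lib.MP_c356f3_al.Stmts

/-!
Matrices of determinant one with rational trace and an eigenvalue of infinite order.
-/

namespace Pool.Agent.Lib.MP_c356f3_al

open Matrix Polynomial

theorem stInfEig : StInfEig := by
  intro A t hdet htr ht
  obtain ⟨z, hz⟩ : ∃ z : ℂ, z ^ 2 - t * z + 1 = 0 := by
    have hdeg : ((X : ℂ[X]) ^ 2 - C (t : ℂ) * X + 1).degree ≠ 0 := by
      have : ((X : ℂ[X]) ^ 2 - C (t : ℂ) * X + 1).degree = 2 := by
        compute_degree!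
      rw [this]; decide
    obtain ⟨z, hz⟩ := IsAlgClosed.exists_root _ hdeg
    refine ⟨z, ?_⟩
    rw [IsRoot.def] at hz
    simpa using hz
  have hz0 : z ≠ 0 := by
    rintro rfl
    norm_num at hz
  have hsum : (t : ℂ) = z + z⁻¹ := by
    field_simp
    linear_combination -hz
  refine ⟨hdet, z, hz0, by rw [htr, hsum], ?_⟩
  intro k hk hzk
  have hint : IsIntegral ℤ z := by
    refine ⟨X ^ k - 1, monic_X_pow_sub_C (1 : ℤ) hk.ne', ?_⟩
    simp [hzk]
  have hint' : IsIntegral ℤ z⁻¹ := by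
    have : z⁻¹ = z ^ (k - 1) := by
      have h1 : z ^ (k - 1) * z = 1 := by
        rw [← pow_succ, Nat.sub_add_cancel hk, hzk]
      field_simp
      rw [mul_comm]
      exact h1.symm
    rw [this]
    exact hint.pow _
  have hti : IsIntegral ℤ (t : ℂ) := by
    rw [hsum]; exact hint.add hint'
  have hti' : IsIntegral ℤ t := by
    have : (t : ℂ) = algebraMap ℚ ℂ t := rfl
    rw [this] at hti
    exact (isIntegral_algebraMap_iff (algebraMap ℚ ℂ).injective).mp hti
  obtain ⟨n, hn⟩ := IsIntegrallyClosed.isIntegral_iff.mp hti'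
  have hn' : t = (n : ℚ) := by rw [← hn]; rfl
  apply ht n _ hn'
  -- the absolute value
  have hnorm : ‖z‖ = 1 := by
    have h1 : ‖z‖ ^ k = 1 := by rw [← norm_pow, hzk, norm_one]
    exact (pow_eq_one_iff_of_nonneg (norm_nonneg z) hk.ne').mp h1
  have h2 : ‖(t : ℂ)‖ ≤ 2 := by
    rw [hsum]
    calc ‖z + z⁻¹‖ ≤ ‖z‖ + ‖z⁻¹‖ := norm_add_le _ _
      _ = 2 := by rw [norm_inv, hnorm]; norm_num
  rw [hn'] at h2
  have h3 : ‖(((n : ℤ) : ℚ) : ℂ)‖ = |(n : ℝ)| := by
    rw [Rat.cast_intCast]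
    exact Complex.norm_intCast n
  rw [h3] at h2
  exact_mod_cast h2

end Pool.Agent.Lib.MP_c356f3_al
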