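import Pool.Agent.Lib.MP_c356f3_al.Stmts

/-!
H: a rational quaternion algebra with norm one elements of non-integral trace at every prime is
split (Legendre's theorem, by descent).
-/

namespace Pool.Agent.Lib.MP_c356f3_al

namespace Leg

/-- the local hypothesis -/
def Hyp (a b : ℚ) (p : ℕ) : Prop := ∃ x₀ x₁ x₂ x₃ : ℚ,
    x₀ ^ 2 - a * x₁ ^ 2 - b * x₂ ^ 2 + a * b * x₃ ^ 2 = 1 ∧ 1 < padicNorm p (2 * x₀)

/-- isotropy -/
def Con (a b : ℚ) : Prop := ∃ x y z : ℚ, (x ≠ 0 ∨ y ≠ 0 ∨ z ≠ 0) ∧ a * x ^ 2 + b * y ^ 2 = z ^ 2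

lemma Hyp.swap {a b : ℚ} {p : ℕ} (h : Hyp a b p) : Hyp b a p := by
  obtain ⟨x₀, x₁, x₂, x₃, h1, h2⟩ := h
  exact ⟨x₀, x₂, x₁, x₃, by linarith, h2⟩

lemma Con.swap {a b : ℚ} (h : Con a b) : Con b a := by
  obtain ⟨x, y, z, h1, h2⟩ := h
  exact ⟨y, x, z, by tauto, by linarith⟩

lemma Hyp.scale {a b u : ℚ} {p : ℕ} (h : Hyp a (b * u ^ 2) p) : Hyp a b p := by
  obtain ⟨x₀, x₁, x₂, x₃, h1, h2⟩ := h
  exact ⟨x₀, x₁, u * x₂, u * x₃, by linear_combination h1, h2⟩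

lemma Con.scale {a b u : ℚ} (hu : u ≠ 0) (h : Con a b) : Con a (b * u ^ 2) := by
  obtain ⟨x, y, z, h1, h2⟩ := h
  refine ⟨x, y / u, z, ?_, ?_⟩
  · rcases h1 with h1 | h1 | h1
    · exact Or.inl h1
    · exact Or.inr (Or.inl (div_ne_zero h1 hu))
    · exact Or.inr (Or.inr h1)
  · rw [← h2]
    field_simp

lemma Hyp.move {a b b' t : ℚ} {p : ℕ} (hb' : b' ≠ 0) (e : b * b' = t ^ 2 - a) (h : Hyp a b p) :
    Hyp a b' p := by
  obtain ⟨x₀, x₁, x₂, x₃, h1, h2⟩ := h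
  refine ⟨x₀, x₁, (x₂ * t + a * x₃) / b', (x₂ + t * x₃) / b', ?_, h2⟩
  have : b' * ((x₂ * t + a * x₃) / b') ^ 2 - a * b' * ((x₂ + t * x₃) / b') ^ 2 =
      b * (x₂ ^ 2 - a * x₃ ^ 2) := by
    field_simp
    linear_combination (-(x₂ ^ 2 - a * x₃ ^ 2)) * e
  linear_combination h1 - this

lemma Con.move {a b b' t : ℚ} (hb : b ≠ 0) (hb' : b' ≠ 0) (e : b * b' = t ^ 2 - a)
    (h : Con a b') : Con a b := by
  obtain ⟨x, y, z, h1, h2⟩ := h
  refine ⟨z + x * t, b' * y, z * t + a * x, ?_, ?_⟩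
  · by_cases hy : y = 0
    · by_contra hcon
      push Not at hcon
      obtain ⟨c1, _, c3⟩ := hcon
      have hz : z = -(x * t) := by linarith
      subst hz
      have : x * (b * b') = 0 := by
        rw [e]
        linear_combination -c3
      have hx : x = 0 := by
        rcases mul_eq_zero.mp this with h | h
        · exact h
        · exact absurd h (mul_ne_zero hb hb')
      subst hx
      simp [hy] at h1
    · exact Or.inr (Or.inl (mul_ne_zero hb' hy))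
  · linear_combination (t ^ 2 - a) * h2 + b' * y ^ 2 * e

/-! ### Local conditions at the primes dividing `b` -/

lemma clear_odd {p : ℕ} (hp : p.Prime) {a b : ℤ} (hb : Squarefree b) (hpb : (p : ℤ) ∣ b)
    (hns : ∀ t : ℤ, ¬ (p : ℤ) ∣ t ^ 2 - a) :
    ∀ M : ℕ, 0 < M → ∀ X₀ X₁ X₂ X₃ : ℤ,
      X₀ ^ 2 - a * X₁ ^ 2 - b * X₂ ^ 2 + a * b * X₃ ^ 2 = (M : ℤ) ^ 2 →
      ∃ (M' : ℤ) (X : ℤ), ¬ (p : ℤ) ∣ M' ∧ X₀ * M' = X * M := by
  have hpp : Prime (p : ℤ) := Nat.prime_iff_prime_int.mp hp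
  -- anisotropy
  have haniso : ∀ X Y : ℤ, (p : ℤ) ∣ X ^ 2 - a * Y ^ 2 → (p : ℤ) ∣ X ∧ (p : ℤ) ∣ Y := by
    intro X Y h
    by_cases hY : (p : ℤ) ∣ Y
    · refine ⟨?_, hY⟩
      have : (p : ℤ) ∣ X ^ 2 := by
        have h2 : (p : ℤ) ∣ a * Y ^ 2 := Dvd.dvd.mul_left (dvd_pow hY (by norm_num)) a
        have := dvd_add h h2
        simpa using this
      exact hpp.dvd_of_dvd_pow this
    · exfalso
      have hcop : IsCoprime Y (p : ℤ) := by
        rw [isCoprime_comm]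
        exact (Prime.coprime_iff_not_dvd hpp).mpr hY
      obtain ⟨u, v, huv⟩ := hcop
      apply hns (X * u)
      have : (X * u) ^ 2 - a = u ^ 2 * (X ^ 2 - a * Y ^ 2) +
          a * (-(v * p)) * (u * Y + 1) := by
        linear_combination (a * (u * Y + 1)) * huv
      rw [this]
      exact dvd_add (Dvd.dvd.mul_left h _) ⟨-(a * v) * (u * Y + 1), by ring⟩
  intro M
  induction M using Nat.strong_induction_on with
  | _ M ih =>
    intro hM X₀ X₁ X₂ X₃ h
    by_cases hpM : (p : ℤ) ∣ M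
    · obtain ⟨b₁, hb₁⟩ := hpb
      have h01 : (p : ℤ) ∣ X₀ ^ 2 - a * X₁ ^ 2 := by
        have e : X₀ ^ 2 - a * X₁ ^ 2 = (M : ℤ) ^ 2 + b * (X₂ ^ 2 - a * X₃ ^ 2) := by linarith
        rw [e]
        exact dvd_add (dvd_pow hpM (by norm_num)) (Dvd.dvd.mul_right ⟨b₁, hb₁⟩ _)
      obtain ⟨⟨Y₀, hY₀⟩, ⟨Y₁, hY₁⟩⟩ := haniso _ _ h01
      obtain ⟨m, hm⟩ := Int.natCast_dvd_natCast.mp hpM
      have hp0 : (p : ℤ) ≠ 0 := hpp.ne_zero
      have h23 : (p : ℤ) ∣ X₂ ^ 2 - a * X₃ ^ 2 := by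
        have hpb₁ : ¬ (p : ℤ) ∣ b₁ := by
          intro hd
          have := hb (p : ℤ) (by
            obtain ⟨c, hc⟩ := hd
            exact ⟨c, by rw [hb₁, hc]; ring⟩)
          exact hpp.not_isUnit this
        have e : (p : ℤ) * (b₁ * (X₂ ^ 2 - a * X₃ ^ 2)) =
            (p : ℤ) * (p * (Y₀ ^ 2 - a * Y₁ ^ 2 - (m : ℤ) ^ 2)) := by
          have hm' : (M : ℤ) = p * m := by rw [hm]; push_cast; ring
          rw [hm', hY₀, hY₁, hb₁] at h
          linear_combination -h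
        have e2 := mul_left_cancel₀ hp0 e
        have : (p : ℤ) ∣ b₁ * (X₂ ^ 2 - a * X₃ ^ 2) := ⟨_, e2⟩
        rcases hpp.dvd_or_dvd this with h | h
        · exact absurd h hpb₁
        · exact h
      obtain ⟨⟨Y₂, hY₂⟩, ⟨Y₃, hY₃⟩⟩ := haniso _ _ h23
      have hmpos : 0 < m := by
        rcases Nat.eq_zero_or_pos m with h | h
        · subst h; omega
        · exact h
      have hmlt : m < M := by
        rw [hm]
        have := hp.two_le
        nlinarith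
      have hm' : (M : ℤ) = p * m := by rw [hm]; push_cast; ring
      have h' : Y₀ ^ 2 - a * Y₁ ^ 2 - b * Y₂ ^ 2 + a * b * Y₃ ^ 2 = (m : ℤ) ^ 2 := by
        have : (p : ℤ) ^ 2 * (Y₀ ^ 2 - a * Y₁ ^ 2 - b * Y₂ ^ 2 + a * b * Y₃ ^ 2) =
            (p : ℤ) ^ 2 * (m : ℤ) ^ 2 := by
          rw [hm', hY₀, hY₁, hY₂, hY₃] at h
          linear_combination h
        exact mul_left_cancel₀ (pow_ne_zero 2 hp0) this
      obtain ⟨M', X, h1, h2⟩ := ih m hmlt hmpos Y₀ Y₁ Y₂ Y₃ h'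
      refine ⟨M', X, h1, ?_⟩
      rw [hY₀, hm']
      linear_combination (p : ℤ) * h2
    · exact ⟨M, X₀, hpM, rfl⟩

lemma clear_two : ∀ M : ℕ, 0 < M → ∀ X₀ X₁ X₂ X₃ : ℤ,
      X₀ ^ 2 + X₁ ^ 2 + X₂ ^ 2 + X₃ ^ 2 = (M : ℤ) ^ 2 →
      ∃ (M' : ℤ) (X : ℤ), ¬ (4 : ℤ) ∣ M' ∧ X₀ * M' = X * M := by
  intro M
  induction M using Nat.strong_induction_on with
  | _ M ih =>
    intro hM X₀ X₁ X₂ X₃ h
    by_cases h4 : (4 : ℤ) ∣ M
    · obtain ⟨m, hm⟩ : ∃ m : ℕ, M = 2 * m := ⟨M / 2, by omega⟩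
      have hsq : ∀ x : ℤ, (x % 2 = 0 ∧ (x ^ 2 % 8 = 0 ∨ x ^ 2 % 8 = 4)) ∨
          (x % 2 = 1 ∧ x ^ 2 % 8 = 1) := by
        intro x
        have h8 : x % 8 = 0 ∨ x % 8 = 1 ∨ x % 8 = 2 ∨ x % 8 = 3 ∨ x % 8 = 4 ∨ x % 8 = 5 ∨
          x % 8 = 6 ∨ x % 8 = 7 := by omega
        rcases h8 with h | h | h | h | h | h | h | h <;>
          (have h2 : x ^ 2 % 8 = ((x % 8) ^ 2) % 8 := ((Int.mod_modEq x 8).pow 2).symm) <;>
          (rw [h] at h2; norm_num at h2; omega)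
      have hM8 : (M : ℤ) ^ 2 % 8 = 0 := by
        obtain ⟨c, hc⟩ := h4
        rw [hc]
        have : (4 * c) ^ 2 = 8 * (2 * c ^ 2) := by ring
        rw [this]
        exact Int.mul_emod_right _ _
      have hev : X₀ % 2 = 0 ∧ X₁ % 2 = 0 ∧ X₂ % 2 = 0 ∧ X₃ % 2 = 0 := by
        have q0 := hsq X₀
        have q1 := hsq X₁
        have q2 := hsq X₂
        have q3 := hsq X₃
        omega
      obtain ⟨e0, e1, e2, e3⟩ := hev
      obtain ⟨Y₀, hY₀⟩ : ∃ Y, X₀ = 2 * Y := ⟨X₀ / 2, by omega⟩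
      obtain ⟨Y₁, hY₁⟩ : ∃ Y, X₁ = 2 * Y := ⟨X₁ / 2, by omega⟩
      obtain ⟨Y₂, hY₂⟩ : ∃ Y, X₂ = 2 * Y := ⟨X₂ / 2, by omega⟩
      obtain ⟨Y₃, hY₃⟩ : ∃ Y, X₃ = 2 * Y := ⟨X₃ / 2, by omega⟩
      have hm' : (M : ℤ) = 2 * m := by rw [hm]; push_cast; ring
      have h' : Y₀ ^ 2 + Y₁ ^ 2 + Y₂ ^ 2 + Y₃ ^ 2 = (m : ℤ) ^ 2 := by
        rw [hm', hY₀, hY₁, hY₂, hY₃] at h
        nlinarith
      obtain ⟨M', X, h1, h2⟩ := ih m (by omega) (by omega) Y₀ Y₁ Y₂ Y₃ h'
      refine ⟨M', X, h1, ?_⟩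
      rw [hY₀, hm']
      linear_combination 2 * h2
    · exact ⟨M, X₀, h4, rfl⟩

/-- common denominator -/
lemma common_den (x₀ x₁ x₂ x₃ : ℚ) : ∃ (M : ℕ) (X₀ X₁ X₂ X₃ : ℤ), 0 < M ∧
    (X₀ : ℚ) = M * x₀ ∧ (X₁ : ℚ) = M * x₁ ∧ (X₂ : ℚ) = M * x₂ ∧ (X₃ : ℚ) = M * x₃ := by
  have hd : ∀ x : ℚ, (x.num : ℚ) = x.den * x := fun x => by
    rw [mul_comm]; exact (Rat.mul_den_eq_num x).symm
  refine ⟨x₀.den * x₁.den * x₂.den * x₃.den, x₀.num * x₁.den * x₂.den * x₃.den,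
    x₁.num * x₀.den * x₂.den * x₃.den, x₂.num * x₀.den * x₁.den * x₃.den,
    x₃.num * x₀.den * x₁.den * x₂.den, ?_, ?_, ?_, ?_, ?_⟩
  · have h0 := x₀.den_pos
    have h1 := x₁.den_pos
    have h2 := x₂.den_pos
    have h3 := x₃.den_pos
    positivity
  all_goals
    push_cast
    simp only [hd]
    ring

lemma norm_le_of_eq {p : ℕ} (hp : p.Prime) {x : ℚ} {M' X : ℤ} (hM : ¬ (p : ℤ) ∣ M')
    (h : x * M' = X) : padicNorm p x ≤ 1 := by
  have : Fact p.Prime := ⟨hp⟩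
  have h1 : padicNorm p x * padicNorm p (M' : ℚ) = padicNorm p (X : ℚ) := by
    rw [← h, padicNorm.mul]
  rw [padicNorm.int_eq_one_iff M' |>.mpr hM, mul_one] at h1
  rw [h1]
  exact padicNorm.of_int X

/-- at every prime dividing `b` the number `a` is a square -/
lemma local_square {a b : ℤ} (hb : Squarefree b) {p : ℕ} (hp : p.Prime) (hpb : (p : ℤ) ∣ b)
    (h : Hyp (a : ℚ) (b : ℚ) p) : ∃ t : ℤ, (p : ℤ) ∣ t ^ 2 - a := by
  by_cases hp2 : p = 2
  · subst hp2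
    refine ⟨a, ?_⟩
    have : a ^ 2 - a = a * (a - 1) := by ring
    rw [this]
    rcases Int.even_or_odd a with h | h
    · exact Dvd.dvd.mul_right (by exact_mod_cast h.two_dvd) _
    · apply Dvd.dvd.mul_left
      obtain ⟨c, hc⟩ := h
      exact ⟨c, by rw [hc]; push_cast; ring⟩
  by_contra hcon
  push Not at hcon
  obtain ⟨x₀, x₁, x₂, x₃, h1, h2⟩ := h
  obtain ⟨M, X₀, X₁, X₂, X₃, hM, e0, e1, e2, e3⟩ := common_den x₀ x₁ x₂ x₃
  have hMQ : (M : ℚ) ≠ 0 := by exact_mod_cast hM.ne'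
  have hint : X₀ ^ 2 - a * X₁ ^ 2 - b * X₂ ^ 2 + a * b * X₃ ^ 2 = (M : ℤ) ^ 2 := by
    have : ((X₀ ^ 2 - a * X₁ ^ 2 - b * X₂ ^ 2 + a * b * X₃ ^ 2 : ℤ) : ℚ) =
        (((M : ℤ) ^ 2 : ℤ) : ℚ) := by
      push_cast
      rw [e0, e1, e2, e3]
      linear_combination ((M : ℚ) ^ 2) * h1
    exact_mod_cast this
  obtain ⟨M', X, g1, g2⟩ := clear_odd hp hb hpb hcon M hM X₀ X₁ X₂ X₃ hint
  have g3 : (2 * x₀) * (M' : ℚ) = ((2 * X : ℤ) : ℚ) := by
    have : ((X₀ * M' : ℤ) : ℚ) = ((X * M : ℤ) : ℚ) := by rw [g2]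
    push_cast at this ⊢
    rw [e0] at this
    have h4 : (M : ℚ) * (x₀ * M') = (M : ℚ) * X := by linear_combination this
    have h5 := mul_left_cancel₀ hMQ h4
    linear_combination 2 * h5
  have := norm_le_of_eq hp g1 g3
  linarith

lemma not_minus_one (h : Hyp (-1) (-1) 2) : False := by
  obtain ⟨x₀, x₁, x₂, x₃, h1, h2⟩ := h
  obtain ⟨M, X₀, X₁, X₂, X₃, hM, e0, e1, e2, e3⟩ := common_den x₀ x₁ x₂ x₃
  have hMQ : (M : ℚ) ≠ 0 := by exact_mod_cast hM.ne'
  have hint : X₀ ^ 2 + X₁ ^ 2 + X₂ ^ 2 + X₃ ^ 2 = (M : ℤ) ^ 2 := by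
    have : ((X₀ ^ 2 + X₁ ^ 2 + X₂ ^ 2 + X₃ ^ 2 : ℤ) : ℚ) = (((M : ℤ) ^ 2 : ℤ) : ℚ) := by
      push_cast
      rw [e0, e1, e2, e3]
      linear_combination ((M : ℚ) ^ 2) * h1
    exact_mod_cast this
  obtain ⟨M', X, g1, g2⟩ := clear_two M hM X₀ X₁ X₂ X₃ hint
  have g3 : x₀ * (M' : ℚ) = (X : ℚ) := by
    have : ((X₀ * M' : ℤ) : ℚ) = ((X * M : ℤ) : ℚ) := by rw [g2]
    push_cast at this
    rw [e0] at this
    have h4 : (M : ℚ) * (x₀ * M') = (M : ℚ) * X := by linear_combination this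
    exact mul_left_cancel₀ hMQ h4
  by_cases hM2 : (2 : ℤ) ∣ M'
  · obtain ⟨c, hc⟩ := hM2
    have hc2 : ¬ ((2 : ℕ) : ℤ) ∣ c := by
      rintro ⟨d, hd⟩
      exact g1 ⟨d, by rw [hc, hd]; push_cast; ring⟩
    have g4 : (2 * x₀) * (c : ℚ) = (X : ℚ) := by
      rw [← g3, hc]
      push_cast
      ring
    have := norm_le_of_eq Nat.prime_two hc2 g4
    linarith
  · have g4 : (2 * x₀) * (M' : ℚ) = ((2 * X : ℤ) : ℚ) := by
      push_cast
      linear_combination 2 * g3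
    have := norm_le_of_eq Nat.prime_two (by exact_mod_cast hM2) g4
    linarith

/-- Chinese remainder theorem -/
lemma crt_square (a : ℤ) : ∀ n : ℕ, Squarefree n →
    (∀ p : ℕ, p.Prime → p ∣ n → ∃ t : ℤ, (p : ℤ) ∣ t ^ 2 - a) → ∃ t : ℤ, (n : ℤ) ∣ t ^ 2 - a := by
  intro n
  induction n using induction_on_primes with
  | zero => intro h; exact absurd rfl h.ne_zero
  | one => intro _ _; exact ⟨0, by simp⟩
  | prime_mul p m hp ih =>
    intro hsq hloc
    have hm : Squarefree m := hsq.squarefree_of_dvd (Dvd.intro_left p rfl)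
    obtain ⟨t₂, h₂⟩ := ih hm (fun q hq hqm => hloc q hq (Dvd.dvd.mul_left hqm p))
    obtain ⟨t₁, h₁⟩ := hloc p hp (Dvd.intro m rfl)
    have hcop : Nat.Coprime p m := Nat.coprime_of_squarefree_mul hsq
    obtain ⟨u, v, huv⟩ := Nat.isCoprime_iff_coprime.mpr hcop
    refine ⟨t₁ * (v * m) + t₂ * (u * p), ?_⟩
    have hcop' : IsCoprime (p : ℤ) (m : ℤ) := ⟨u, v, huv⟩
    push_cast
    apply hcop'.mul_dvd
    · obtain ⟨c, hc⟩ := h₁
      have : (t₁ * (v * m) + t₂ * (u * p)) ^ 2 - a = p * c +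
          (p * (u * (t₂ - t₁))) * (t₁ * (v * m) + t₂ * (u * p) + t₁) := by
        have e : t₁ * (v * m) + t₂ * (u * p) = t₁ + p * (u * (t₂ - t₁)) := by
          linear_combination t₁ * huv
        rw [e]
        linear_combination hc
      rw [this]
      exact dvd_add (Dvd.intro _ rfl) ⟨u * (t₂ - t₁) * (t₁ * (v * m) + t₂ * (u * p) + t₁), by ring⟩
    · obtain ⟨c, hc⟩ := h₂
      have : (t₁ * (v * m) + t₂ * (u * p)) ^ 2 - a = m * c +
          (m * (v * (t₁ - t₂))) * (t₁ * (v * m) + t₂ * (u * p) + t₂) := by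
        have e : t₁ * (v * m) + t₂ * (u * p) = t₂ + m * (v * (t₁ - t₂)) := by
          linear_combination t₂ * huv
        rw [e]
        linear_combination hc
      rw [this]
      exact dvd_add (Dvd.intro _ rfl) ⟨v * (t₁ - t₂) * (t₁ * (v * m) + t₂ * (u * p) + t₂), by ring⟩

/-- squarefree part of an integer -/
lemma int_sqf (n : ℤ) (hn : n ≠ 0) : ∃ (s u : ℤ), Squarefree s ∧ u ≠ 0 ∧ n = s * u ^ 2 := by
  obtain ⟨s, u, h1, h2⟩ := Nat.sq_mul_squarefree n.natAbs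
  have hu : u ≠ 0 := by
    rintro rfl
    simp at h1
    omega
  rcases Int.natAbs_eq n with h | h
  · refine ⟨s, u, Int.squarefree_natCast.mpr h2, by exact_mod_cast hu, ?_⟩
    rw [h, ← h1]
    push_cast
    ring
  · refine ⟨-s, u, ?_, by exact_mod_cast hu, ?_⟩
    · rw [← Int.squarefree_natAbs]
      simpa using h2
    · rw [h, ← h1]
      push_cast
      ring

theorem main_int : ∀ N : ℕ, ∀ a b : ℤ, Squarefree a → Squarefree b → a.natAbs + b.natAbs = N →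
    (∀ p : ℕ, p.Prime → Hyp (a : ℚ) (b : ℚ) p) → Con (a : ℚ) (b : ℚ) := by
  intro N
  induction N using Nat.strong_induction_on with
  | _ N ih =>
    have core : ∀ a b : ℤ, Squarefree a → Squarefree b → a.natAbs + b.natAbs = N →
        a.natAbs ≤ b.natAbs → (∀ p : ℕ, p.Prime → Hyp (a : ℚ) (b : ℚ) p) →
        Con (a : ℚ) (b : ℚ) := by
      intro a b ha hb hN hle h
      have ha0 : a ≠ 0 := ha.ne_zero
      have hb0 : b ≠ 0 := hb.ne_zero
      rcases Nat.lt_or_ge b.natAbs 2 with hb1 | hb2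
      · have hb' : b = 1 ∨ b = -1 := by omega
        have ha' : a = 1 ∨ a = -1 := by omega
        rcases ha' with rfl | rfl
        · exact ⟨1, 0, 1, by norm_num, by norm_num⟩
        · rcases hb' with rfl | rfl
          · exact ⟨0, 1, 1, by norm_num, by norm_num⟩
          · have := h 2 Nat.prime_two
            push_cast at this
            exact (not_minus_one this).elim
      · obtain ⟨t₀, ht₀⟩ := crt_square a b.natAbs (Int.squarefree_natAbs.mpr hb)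
          (fun p hp hpb => local_square hb hp (Int.natCast_dvd.mpr hpb) (h p hp))
        -- small representative
        obtain ⟨t, ht, htb⟩ : ∃ t : ℤ, (b.natAbs : ℤ) ∣ t ^ 2 - a ∧ 2 * |t| ≤ b.natAbs := by
          set n : ℤ := (b.natAbs : ℤ) with hn
          have hn0 : 0 < n := by omega
          have hr0 := Int.emod_nonneg t₀ hn0.ne'
          have hr1 := Int.emod_lt_of_pos t₀ hn0
          have hr2 := Int.emod_add_mul_ediv t₀ n
          set r := t₀ % n with hr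
          have hdiv : ∀ k : ℤ, n ∣ (t₀ - n * k) ^ 2 - a := by
            intro k
            have : (t₀ - n * k) ^ 2 - a = (t₀ ^ 2 - a) + n * (k * (n * k - 2 * t₀)) := by ring
            rw [this]
            exact dvd_add ht₀ (Dvd.intro _ rfl)
          by_cases hc : 2 * r ≤ n
          · refine ⟨r, ?_, ?_⟩
            · have := hdiv (t₀ / n)
              have e : t₀ - n * (t₀ / n) = r := by linarith
              rwa [e] at this
            · rw [abs_of_nonneg hr0]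
              exact hc
          · refine ⟨r - n, ?_, ?_⟩
            · have := hdiv (t₀ / n + 1)
              have e : t₀ - n * (t₀ / n + 1) = r - n := by linarith
              rwa [e] at this
            · rw [abs_of_neg (by linarith)]
              linarith
        have hbt : b ∣ t ^ 2 - a := Int.natAbs_dvd.mp ht
        obtain ⟨b', hb'⟩ := hbt
        by_cases hb'0 : b' = 0
        · rw [hb'0, mul_zero] at hb'
          have : a = t ^ 2 := by linarith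
          refine ⟨1, 0, t, by norm_num, ?_⟩
          rw [this]
          push_cast
          ring
        · obtain ⟨s, u, hs, hu, hsu⟩ := int_sqf b' hb'0
          have e : (b : ℚ) * (b' : ℚ) = (t : ℚ) ^ 2 - (a : ℚ) := by exact_mod_cast hb'.symm
          have hbQ : (b : ℚ) ≠ 0 := by exact_mod_cast hb0
          have hbQ' : (b' : ℚ) ≠ 0 := by exact_mod_cast hb'0
          have huQ : (u : ℚ) ≠ 0 := by exact_mod_cast hu
          have esu : (b' : ℚ) = (s : ℚ) * (u : ℚ) ^ 2 := by exact_mod_cast hsu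
          -- the size decreases
          have hlt : b'.natAbs < b.natAbs := by
            by_contra hcon
            push Not at hcon
            have h1 : |b| * |b'| ≤ t ^ 2 + |a| := by
              rw [← abs_mul, ← hb']
              calc |t ^ 2 - a| ≤ |t ^ 2| + |a| := abs_sub _ _
                _ = t ^ 2 + |a| := by rw [abs_of_nonneg (sq_nonneg t)]
            have ea := Int.abs_eq_natAbs a
            have eb := Int.abs_eq_natAbs b
            have eb' := Int.abs_eq_natAbs b'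
            have h2 : |a| ≤ |b| := by omega
            have h3 : |b| ≤ |b'| := by omega
            have h4 : 2 ≤ |b| := by omega
            have h5 : 2 * |t| ≤ |b| := by omega
            have h6 : t ^ 2 = |t| ^ 2 := (sq_abs t).symm
            have h7 : 0 ≤ |t| := abs_nonneg t
            nlinarith
          have hsle : s.natAbs ≤ b'.natAbs := by
            rw [hsu, Int.natAbs_mul]
            apply Nat.le_mul_of_pos_right
            rw [Int.natAbs_pos]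
            exact pow_ne_zero 2 hu
          have hcon := ih (a.natAbs + s.natAbs) (by omega) a s ha hs rfl (fun p hp => by
            have := (h p hp).move hbQ' e
            rw [esu] at this
            exact this.scale)
          have h2 := hcon.scale huQ
          rw [← esu] at h2
          exact h2.move hbQ hbQ' e
    intro a b ha hb hN h
    rcases le_total a.natAbs b.natAbs with hle | hle
    · exact core a b ha hb hN hle h
    · exact (core b a hb ha (by omega) hle (fun p hp => (h p hp).swap)).swap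

lemma rat_sqf (a : ℚ) (ha : a ≠ 0) : ∃ (s : ℤ) (u : ℚ), Squarefree s ∧ u ≠ 0 ∧
    a = s * u ^ 2 := by
  have hn : a.num * a.den ≠ 0 :=
    mul_ne_zero (Rat.num_ne_zero.mpr ha) (by exact_mod_cast a.den_ne_zero)
  obtain ⟨s, u, hs, hu, h⟩ := int_sqf _ hn
  have hd : (a.den : ℚ) ≠ 0 := by exact_mod_cast a.den_ne_zero
  refine ⟨s, u / a.den, hs, div_ne_zero (by exact_mod_cast hu) hd, ?_⟩
  have h2 : (a.num : ℚ) * a.den = s * (u : ℚ) ^ 2 := by exact_mod_cast h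
  have h3 : a * a.den = a.num := Rat.mul_den_eq_num a
  rw [div_pow, ← mul_div_assoc, ← h2, ← h3]
  field_simp

end Leg

theorem stLegendre : StLegendre := by
  intro a b ha hb h
  obtain ⟨s, u, hs, hu, e1⟩ := Leg.rat_sqf a ha
  obtain ⟨s', u', hs', hu', e2⟩ := Leg.rat_sqf b hb
  have h1 : ∀ p : ℕ, p.Prime → Leg.Hyp (s : ℚ) (s' : ℚ) p := by
    intro p hp
    have h0 : Leg.Hyp a b p := h p hp
    rw [e2] at h0
    have h2 := h0.scale.swap
    rw [e1] at h2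
    exact h2.scale.swap
  have h3 := Leg.main_int _ s s' hs hs' rfl h1
  have h4 := (h3.swap.scale hu).swap.scale hu'
  rw [← e1, ← e2] at h4
  exact h4

end Pool.Agent.Lib.MP_c356f3_al
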