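import Pool.Agent.Lib.MP_c356f3_al.StmtsX

/-!
Springer's property (U), module X2: eigendirections avoid the exit intervals.
-/

namespace Pool.Agent.Lib.MP_c356f3_al

open Matrix Filter Topology

namespace LimAux

theorem rZ_mul (g h : SLZ) : rZ (g * h) = rZ g * rZ h := by
  unfold rZ
  change (g.val * h.val).map (Int.castRingHom ℝ) =
    g.val.map (Int.castRingHom ℝ) * h.val.map (Int.castRingHom ℝ)
  exact Matrix.map_mul

theorem rZ_one : rZ 1 = 1 := by
  unfold rZ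
  change (1 : Matrix (Fin 2) (Fin 2) ℤ).map (Int.castRingHom ℝ) = 1
  exact Matrix.map_one _ (map_zero _) (map_one _)

theorem rZ_pow (g : SLZ) (n : ℕ) : rZ (g ^ n) = rZ g ^ n := by
  induction n with
  | zero => rw [pow_zero, pow_zero, rZ_one]
  | succ n ih => rw [pow_succ, pow_succ, rZ_mul, ih]

theorem rZ_inj {g h : SLZ} (e : rZ g = rZ h) : g = h := by
  ext i j
  have := congrFun (congrFun e i) j
  simp only [rZ, Matrix.map_apply] at this
  exact_mod_cast this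

/-- the final step -/
theorem fin_step {a b c d l w0 w1 : ℝ}
    (e0 : a * w0 + b * w1 = l * w0) (e1 : c * w0 + d * w1 = l * w1)
    (h0 : 0 ≤ (l - d) * c) (h1 : 0 ≤ b * (l - a))
    (hne : ¬ (b = 0 ∧ c = 0 ∧ a = d)) : 0 ≤ w0 * w1 := by
  by_cases hc : c = 0
  · by_cases hb : b = 0
    · subst hc hb
      have had : a ≠ d := fun h => hne ⟨rfl, rfl, h⟩
      by_cases hw0 : w0 = 0
      · rw [hw0, zero_mul]
      · have ha : a = l := by
          have : (a - l) * w0 = 0 := by linarith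
          rcases mul_eq_zero.1 this with h | h
          · linarith
          · exact absurd h hw0
        have h2 : (d - l) * w1 = 0 := by linarith
        rcases mul_eq_zero.1 h2 with h | h
        · exact absurd (by linarith) had
        · rw [h, mul_zero]
    · have h2 : 0 ≤ b ^ 2 * (w0 * w1) := by
        have : b ^ 2 * (w0 * w1) = b * (l - a) * w0 ^ 2 := by
          linear_combination b * w0 * e0
        rw [this]
        positivity
      have h3 : 0 < b ^ 2 := by positivity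
      exact nonneg_of_mul_nonneg_right h2 h3
  · have h2 : 0 ≤ c ^ 2 * (w0 * w1) := by
      have : c ^ 2 * (w0 * w1) = (l - d) * c * w1 ^ 2 := by
        linear_combination c * w1 * e1
      rw [this]
      positivity
    have h3 : 0 < c ^ 2 := by positivity
    exact nonneg_of_mul_nonneg_right h2 h3

/-- the characteristic equation -/
theorem char_eq {a b c d l w0 w1 : ℝ} (hdet : a * d - b * c = 1) (hw : ¬ (w0 = 0 ∧ w1 = 0))
    (e0 : a * w0 + b * w1 = l * w0) (e1 : c * w0 + d * w1 = l * w1) :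
    l ^ 2 - (a + d) * l + 1 = 0 := by
  have h1 : (l ^ 2 - (a + d) * l + 1) * w0 = 0 := by
    linear_combination (-l + d) * e0 - b * e1 - w0 * hdet
  have h2 : (l ^ 2 - (a + d) * l + 1) * w1 = 0 := by
    linear_combination (-l + a) * e1 - c * e0 - w1 * hdet
  rcases mul_eq_zero.1 h1 with h | h
  · exact h
  · rcases mul_eq_zero.1 h2 with h' | h'
    · exact h'
    · exact absurd ⟨h, h'⟩ hw

/-- Cayley-Hamilton -/
theorem CH (M : Matrix (Fin 2) (Fin 2) ℝ) (hdet : M.det = 1) :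
    M * M = (M 0 0 + M 1 1) • M - 1 := by
  rw [Matrix.det_fin_two] at hdet
  ext i j
  fin_cases i <;> fin_cases j
  · simp [Matrix.mul_apply, Fin.sum_univ_two]; linear_combination -hdet
  · simp [Matrix.mul_apply, Fin.sum_univ_two]; ring
  · simp [Matrix.mul_apply, Fin.sum_univ_two]; ring
  · simp [Matrix.mul_apply, Fin.sum_univ_two]; linear_combination -hdet

/-- the hyperbolic case -/
theorem hyp (M : Matrix (Fin 2) (Fin 2) ℝ) (hdet : M.det = 1) (w : Fin 2 → ℝ) (hw : w ≠ 0) (l : ℝ)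
    (hl : 1 < |l|) (e : M *ᵥ w = l • w)
    (h : ∀ n : ℕ, 0 ≤ (M ^ n) 0 0 * (M ^ n) 1 0 ∧ 0 ≤ (M ^ n) 0 1 * (M ^ n) 1 1) :
    0 ≤ w 0 * w 1 := by
  have hw' : ¬ (w 0 = 0 ∧ w 1 = 0) := by
    rintro ⟨h0, h1⟩
    apply hw
    ext i
    fin_cases i
    · exact h0
    · exact h1
  have e0 : M 0 0 * w 0 + M 0 1 * w 1 = l * w 0 := by
    have := congrFun e 0
    simpa [Matrix.mulVec, dotProduct, Fin.sum_univ_two] using this
  have e1 : M 1 0 * w 0 + M 1 1 * w 1 = l * w 1 := by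
    have := congrFun e 1
    simpa [Matrix.mulVec, dotProduct, Fin.sum_univ_two] using this
  have hdet' := hdet
  rw [Matrix.det_fin_two] at hdet'
  have hch := char_eq hdet' hw' e0 e1
  have hl0 : l ≠ 0 := by
    rintro rfl
    simp at hl
    linarith
  have htr : M 0 0 + M 1 1 = l + l⁻¹ := by
    field_simp
    linarith
  have hl2 : 1 < l ^ 2 := by
    rw [← sq_abs]
    nlinarith [abs_nonneg l]
  have hinv2 : (l⁻¹) ^ 2 < 1 := by
    rw [inv_pow]
    exact inv_lt_one_of_one_lt₀ hl2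
  -- the powers
  have hpow : ∀ n : ℕ, (l - l⁻¹) • M ^ n =
      l ^ n • (M - l⁻¹ • (1 : Matrix (Fin 2) (Fin 2) ℝ)) -
        (l⁻¹) ^ n • (M - l • (1 : Matrix (Fin 2) (Fin 2) ℝ)) := by
    intro n
    induction n with
    | zero =>
      rw [pow_zero, pow_zero, pow_zero, one_smul, one_smul, sub_smul]
      abel
    | succ n ih =>
      have h1 : M * (M - l⁻¹ • (1 : Matrix (Fin 2) (Fin 2) ℝ)) =
          l • (M - l⁻¹ • (1 : Matrix (Fin 2) (Fin 2) ℝ)) := by
        rw [mul_sub, CH M hdet, htr, smul_sub, smul_smul, mul_inv_cancel₀ hl0, Matrix.mul_smul,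
          mul_one, add_smul, one_smul]
        abel
      have h2 : M * (M - l • (1 : Matrix (Fin 2) (Fin 2) ℝ)) =
          l⁻¹ • (M - l • (1 : Matrix (Fin 2) (Fin 2) ℝ)) := by
        rw [mul_sub, CH M hdet, htr, smul_sub, smul_smul, inv_mul_cancel₀ hl0, Matrix.mul_smul,
          mul_one, add_smul, one_smul]
        abel
      rw [pow_succ' M, ← Matrix.mul_smul, ih, mul_sub, Matrix.mul_smul, Matrix.mul_smul, h1, h2,
        smul_smul, smul_smul, ← pow_succ, ← pow_succ]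
  have hent : ∀ (n : ℕ) (i j : Fin 2), (l - l⁻¹) * (M ^ n) i j =
      l ^ n * ((M - l⁻¹ • (1 : Matrix (Fin 2) (Fin 2) ℝ)) i j -
        ((l⁻¹) ^ 2) ^ n * (M - l • (1 : Matrix (Fin 2) (Fin 2) ℝ)) i j) := by
    intro n i j
    have h1 := congrFun (congrFun (hpow n) i) j
    rw [Matrix.smul_apply, Matrix.sub_apply, Matrix.smul_apply, Matrix.smul_apply, smul_eq_mul,
      smul_eq_mul, smul_eq_mul] at h1
    rw [h1]
    have h2 : l ^ n * ((l⁻¹) ^ 2) ^ n = (l⁻¹) ^ n := by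
      rw [← pow_mul, mul_comm 2 n, pow_mul, sq, ← mul_assoc, ← mul_pow, mul_inv_cancel₀ hl0,
        one_pow, one_mul]
    rw [mul_sub, ← mul_assoc, h2]
  have htend : ∀ i j : Fin 2, Tendsto (fun n : ℕ =>
      (M - l⁻¹ • (1 : Matrix (Fin 2) (Fin 2) ℝ)) i j -
        ((l⁻¹) ^ 2) ^ n * (M - l • (1 : Matrix (Fin 2) (Fin 2) ℝ)) i j) atTop
      (𝓝 ((M - l⁻¹ • (1 : Matrix (Fin 2) (Fin 2) ℝ)) i j)) := by
    intro i j
    have h1 : Tendsto (fun n : ℕ => ((l⁻¹) ^ 2) ^ n) atTop (𝓝 0) :=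
      tendsto_pow_atTop_nhds_zero_of_lt_one (sq_nonneg _) hinv2
    have h2 := (h1.mul_const ((M - l • (1 : Matrix (Fin 2) (Fin 2) ℝ)) i j)).const_sub
      ((M - l⁻¹ • (1 : Matrix (Fin 2) (Fin 2) ℝ)) i j)
    simpa using h2
  have hnn : ∀ (n : ℕ) (j : Fin 2), 0 ≤ (M ^ n) 0 j * (M ^ n) 1 j →
      0 ≤ ((M - l⁻¹ • (1 : Matrix (Fin 2) (Fin 2) ℝ)) 0 j -
        ((l⁻¹) ^ 2) ^ n * (M - l • (1 : Matrix (Fin 2) (Fin 2) ℝ)) 0 j) *
      ((M - l⁻¹ • (1 : Matrix (Fin 2) (Fin 2) ℝ)) 1 j -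
        ((l⁻¹) ^ 2) ^ n * (M - l • (1 : Matrix (Fin 2) (Fin 2) ℝ)) 1 j) := by
    intro n j hj
    have h1 := hent n 0 j
    have h2 := hent n 1 j
    generalize ((M - l⁻¹ • (1 : Matrix (Fin 2) (Fin 2) ℝ)) 0 j -
        ((l⁻¹) ^ 2) ^ n * (M - l • (1 : Matrix (Fin 2) (Fin 2) ℝ)) 0 j) = A at h1 ⊢
    generalize ((M - l⁻¹ • (1 : Matrix (Fin 2) (Fin 2) ℝ)) 1 j -
        ((l⁻¹) ^ 2) ^ n * (M - l • (1 : Matrix (Fin 2) (Fin 2) ℝ)) 1 j) = B at h2 ⊢
    have h3 : (l ^ n) ^ 2 * (A * B) = (l - l⁻¹) ^ 2 * ((M ^ n) 0 j * (M ^ n) 1 j) := by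
      calc (l ^ n) ^ 2 * (A * B) = (l ^ n * A) * (l ^ n * B) := by ring
        _ = _ := by rw [← h1, ← h2]; ring
    have h4 : 0 ≤ (l ^ n) ^ 2 * (A * B) := by
      rw [h3]
      exact mul_nonneg (sq_nonneg _) hj
    exact nonneg_of_mul_nonneg_right h4 (by positivity)
  have r0 := ge_of_tendsto' ((htend 0 0).mul (htend 1 0)) fun n => hnn n 0 (h n).1
  have r1 := ge_of_tendsto' ((htend 0 1).mul (htend 1 1)) fun n => hnn n 1 (h n).2
  simp only [Matrix.sub_apply, Matrix.smul_apply, Matrix.one_apply, smul_eq_mul] at r0 r1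
  simp at r0 r1
  refine fin_step e0 e1 ?_ ?_ ?_
  · have : l - M 1 1 = M 0 0 - l⁻¹ := by linarith
    rw [this]
    exact r0
  · have : l - M 0 0 = M 1 1 - l⁻¹ := by linarith
    rw [this]
    exact r1
  · rintro ⟨hb, hc, had⟩
    rw [hb, hc, had] at hdet'
    rw [had] at hch
    have h5 : M 1 1 * M 1 1 = 1 := by linarith
    have h6 : (l - M 1 1) ^ 2 = 0 := by linear_combination hch + h5
    have h7 : l = M 1 1 := by
      have := pow_eq_zero_iff two_ne_zero |>.1 h6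
      linarith
    rw [← h7] at h5
    nlinarith

/-- the parabolic case -/
theorem parab (M : Matrix (Fin 2) (Fin 2) ℝ) (hdet : M.det = 1) (w : Fin 2 → ℝ) (hw : w ≠ 0)
    (l : ℝ) (hl : l ^ 2 = 1) (e : M *ᵥ w = l • w) (hne : M * M ≠ 1)
    (h : ∀ n : ℕ, 0 ≤ (M ^ n) 0 0 * (M ^ n) 1 0 ∧ 0 ≤ (M ^ n) 0 1 * (M ^ n) 1 1) :
    0 ≤ w 0 * w 1 := by
  have hw' : ¬ (w 0 = 0 ∧ w 1 = 0) := by
    rintro ⟨h0, h1⟩
    apply hw
    ext i
    fin_cases i
    · exact h0
    · exact h1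
  have e0 : M 0 0 * w 0 + M 0 1 * w 1 = l * w 0 := by
    have := congrFun e 0
    simpa [Matrix.mulVec, dotProduct, Fin.sum_univ_two] using this
  have e1 : M 1 0 * w 0 + M 1 1 * w 1 = l * w 1 := by
    have := congrFun e 1
    simpa [Matrix.mulVec, dotProduct, Fin.sum_univ_two] using this
  have hdet' := hdet
  rw [Matrix.det_fin_two] at hdet'
  have hch := char_eq hdet' hw' e0 e1
  have htr : M 0 0 + M 1 1 = 2 * l := by
    have h1 : (M 0 0 + M 1 1) * l = 2 := by linarith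
    calc M 0 0 + M 1 1 = (M 0 0 + M 1 1) * l ^ 2 := by rw [hl, mul_one]
      _ = ((M 0 0 + M 1 1) * l) * l := by ring
      _ = 2 * l := by rw [h1]
  have hN : M * (M - l • (1 : Matrix (Fin 2) (Fin 2) ℝ)) =
      l • (M - l • (1 : Matrix (Fin 2) (Fin 2) ℝ)) := by
    rw [mul_sub, CH M hdet, htr, smul_sub, smul_smul, ← sq, hl, one_smul, Matrix.mul_smul,
      mul_one, two_mul, add_smul]
    abel
  have hpow : ∀ n : ℕ, M ^ (n + 1) = l ^ (n + 1) • (1 : Matrix (Fin 2) (Fin 2) ℝ) +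
      ((n + 1 : ℝ) * l ^ n) • (M - l • (1 : Matrix (Fin 2) (Fin 2) ℝ)) := by
    intro n
    induction n with
    | zero => simp
    | succ n ih =>
      rw [pow_succ' M, ih, mul_add, Matrix.mul_smul, Matrix.mul_smul, hN, smul_smul, mul_one]
      push_cast
      ext i j
      simp only [Matrix.add_apply, Matrix.smul_apply, Matrix.sub_apply, smul_eq_mul]
      ring
  have hsq : ∀ n : ℕ, (l ^ n) ^ 2 = 1 := fun n => by
    rw [← pow_mul, mul_comm, pow_mul, hl, one_pow]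
  have hz : Tendsto (fun n : ℕ => l / ((n : ℝ) + 1)) atTop (𝓝 0) :=
    tendsto_const_nhds.div_atTop (tendsto_atTop_add_const_right _ _ tendsto_natCast_atTop_atTop)
  have r0 : 0 ≤ (M 0 0 - l) * M 1 0 := by
    have ht : Tendsto (fun n : ℕ => (l / ((n : ℝ) + 1) + (M 0 0 - l)) * M 1 0) atTop
        (𝓝 ((0 + (M 0 0 - l)) * M 1 0)) := (hz.add_const _).mul_const _
    rw [zero_add] at ht
    refine ge_of_tendsto' ht fun n => ?_
    have h1 := (h (n + 1)).1
    rw [hpow n] at h1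
    simp only [Matrix.add_apply, Matrix.smul_apply, Matrix.sub_apply, smul_eq_mul,
      Matrix.one_apply] at h1
    simp only [if_true, Fin.isValue, one_ne_zero, if_false, mul_one, mul_zero, sub_zero,
      zero_add] at h1
    have hn : (0 : ℝ) < (n : ℝ) + 1 := by positivity
    have h2 : (l ^ (n + 1) + ((n : ℝ) + 1) * l ^ n * (M 0 0 - l)) *
        (((n : ℝ) + 1) * l ^ n * M 1 0) =
        ((n : ℝ) + 1) ^ 2 * ((l / ((n : ℝ) + 1) + (M 0 0 - l)) * M 1 0) := by
      have h3 := hsq n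
      rw [pow_succ]
      field_simp
      linear_combination (l + ((n : ℝ) + 1) * (M 0 0 - l)) * M 1 0 * h3
    rw [h2] at h1
    exact nonneg_of_mul_nonneg_right h1 (by positivity)
  have r1 : 0 ≤ M 0 1 * (M 1 1 - l) := by
    have ht : Tendsto (fun n : ℕ => M 0 1 * (l / ((n : ℝ) + 1) + (M 1 1 - l))) atTop
        (𝓝 (M 0 1 * (0 + (M 1 1 - l)))) := (hz.add_const _).const_mul _
    rw [zero_add] at ht
    refine ge_of_tendsto' ht fun n => ?_
    have h1 := (h (n + 1)).2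
    rw [hpow n] at h1
    simp only [Matrix.add_apply, Matrix.smul_apply, Matrix.sub_apply, smul_eq_mul,
      Matrix.one_apply] at h1
    simp only [if_true, Fin.isValue, zero_ne_one, if_false, mul_one, mul_zero, sub_zero,
      zero_add] at h1
    have hn : (0 : ℝ) < (n : ℝ) + 1 := by positivity
    have h2 : (((n : ℝ) + 1) * l ^ n * M 0 1) *
        (l ^ (n + 1) + ((n : ℝ) + 1) * l ^ n * (M 1 1 - l)) =
        ((n : ℝ) + 1) ^ 2 * (M 0 1 * (l / ((n : ℝ) + 1) + (M 1 1 - l))) := by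
      have h3 := hsq n
      rw [pow_succ]
      field_simp
      linear_combination (l + ((n : ℝ) + 1) * (M 1 1 - l)) * M 0 1 * h3
    rw [h2] at h1
    exact nonneg_of_mul_nonneg_right h1 (by positivity)
  refine fin_step e0 e1 ?_ ?_ ?_
  · have : l - M 1 1 = M 0 0 - l := by linarith
    rw [this]
    exact r0
  · have : l - M 0 0 = M 1 1 - l := by linarith
    rw [this]
    exact r1
  · rintro ⟨hb, hc, had⟩
    apply hne
    rw [hb, hc, had] at hdet'
    ext i j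
    fin_cases i <;> fin_cases j
    · simp [Matrix.mul_apply, Fin.sum_univ_two, hb, hc, had]; linarith
    · simp [Matrix.mul_apply, Fin.sum_univ_two, hb]
    · simp [Matrix.mul_apply, Fin.sum_univ_two, hc]
    · simp [Matrix.mul_apply, Fin.sum_univ_two, hc]; linarith

end LimAux

open LimAux in
theorem stLim : StLim := by
  intro H Y E hE x hx hxs k hk hord v l hv he
  obtain ⟨hEY, -, -, -, -, hex⟩ := hE
  have hmul : ∀ h ∈ H, ∀ z ∈ E, h * z ∈ E := by
    intro h hh z hz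
    rw [hEY] at hz ⊢
    obtain ⟨g, hg, y, hy, rfl⟩ := hz
    exact ⟨h * g, H.mul_mem hh hg, y, hy, (mul_assoc _ _ _).symm⟩
  -- powers
  have hpw : ∀ g ∈ H, ∀ n : ℕ, 0 ≤ (rZ (x⁻¹ * g * x) ^ n) 0 0 * (rZ (x⁻¹ * g * x) ^ n) 1 0 ∧
      0 ≤ (rZ (x⁻¹ * g * x) ^ n) 0 1 * (rZ (x⁻¹ * g * x) ^ n) 1 1 := by
    intro g hg n
    have h1 := hex x hx hxs (g ^ n * x) (hmul _ (H.pow_mem hg n) x hx)
    have h2 : x⁻¹ * (g ^ n * x) = (x⁻¹ * g * x) ^ n := by
      have := conj_pow (a := x⁻¹) (b := g) (i := n)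
      rw [inv_inv] at this
      rw [this]
      group
    rw [h2] at h1
    rw [← rZ_pow]
    simp only [rZ, Matrix.map_apply]
    exact_mod_cast h1
  set w : Fin 2 → ℝ := rZ x⁻¹ *ᵥ v with hw
  have hpr : pr x v = w 0 * w 1 := by
    have h1 : (x⁻¹ : SLZ).val = !![x 1 1, - x 0 1; - x 1 0, x 0 0] := by
      rw [SpecialLinearGroup.SL2_inv_expl]
      rfl
    rw [hw]
    unfold rZ
    rw [h1]
    simp only [Matrix.mulVec, dotProduct, Fin.sum_univ_two, Matrix.map_apply, Matrix.of_apply,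
      Matrix.cons_val', Matrix.cons_val_zero, Matrix.cons_val_one, Matrix.cons_val_fin_one, pr]
    push_cast
    ring
  have hwne : w ≠ 0 := by
    intro h
    apply hv
    have h1 : rZ x *ᵥ w = v := by
      rw [hw, Matrix.mulVec_mulVec, ← rZ_mul, mul_inv_cancel, rZ_one, Matrix.one_mulVec]
    rw [← h1, h, Matrix.mulVec_zero]
  have hew : ∀ (g : SLZ) (c : ℝ), rZ g *ᵥ v = c • v → rZ (x⁻¹ * g * x) *ᵥ w = c • w := by
    intro g c hg
    rw [hw, Matrix.mulVec_mulVec, ← rZ_mul, mul_assoc, mul_inv_cancel, mul_one, rZ_mul,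
      ← Matrix.mulVec_mulVec, hg, Matrix.mulVec_smul]
  have hdet : ∀ g : SLZ, (rZ g).det = 1 := by
    intro g
    have h1 := g.det_coe
    rw [Matrix.det_fin_two] at h1 ⊢
    simp only [rZ, Matrix.map_apply]
    exact_mod_cast h1
  rw [hpr]
  have hl0 : l ≠ 0 := by
    rintro rfl
    rw [zero_smul] at he
    apply hv
    have h1 : rZ k⁻¹ *ᵥ (rZ k *ᵥ v) = v := by
      rw [Matrix.mulVec_mulVec, ← rZ_mul, inv_mul_cancel, rZ_one, Matrix.one_mulVec]
    rw [← h1, he, Matrix.mulVec_zero]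
  rcases lt_trichotomy 1 |l| with hl | hl | hl
  · exact hyp _ (hdet _) w hwne l hl (hew k l he) (hpw k hk)
  · have hl2 : l ^ 2 = 1 := by rw [← sq_abs, ← hl]; norm_num
    refine parab _ (hdet _) w hwne l hl2 (hew k l he) ?_ (hpw k hk)
    intro hne
    rw [← rZ_mul, ← rZ_one] at hne
    have h1 := rZ_inj hne
    apply hord 2 (by norm_num)
    have h2 : k ^ 2 = x * ((x⁻¹ * k * x) * (x⁻¹ * k * x)) * x⁻¹ := by
      rw [pow_two]
      group
    rw [h2, h1]
    group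
  · have he' : rZ k⁻¹ *ᵥ v = l⁻¹ • v := by
      have h1 : rZ k⁻¹ *ᵥ (rZ k *ᵥ v) = v := by
        rw [Matrix.mulVec_mulVec, ← rZ_mul, inv_mul_cancel, rZ_one, Matrix.one_mulVec]
      rw [he, Matrix.mulVec_smul] at h1
      calc rZ k⁻¹ *ᵥ v = l⁻¹ • (l • rZ k⁻¹ *ᵥ v) := by
            rw [smul_smul, inv_mul_cancel₀ hl0, one_smul]
        _ = l⁻¹ • v := by rw [h1]
    refine hyp _ (hdet _) w hwne l⁻¹ ?_ (hew k⁻¹ l⁻¹ he') (hpw k⁻¹ (H.inv_mem hk))
    rw [abs_inv]
    exact (one_lt_inv₀ (abs_pos.2 hl0)).2 hl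

end Pool.Agent.Lib.MP_c356f3_al
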