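import Pool.Agent.Lib.MP_c356f3_al.StmtsX

/-!
Springer's property (U), module X4: a group without finite quotients that is irreducible on `ℂ²`
does not permute two real lines.
-/

namespace Pool.Agent.Lib.MP_c356f3_al

open Matrix

namespace NoLineAux

theorem rQ_mul (g h : SLQ) : rQ (g * h) = rQ g * rQ h := by
  unfold rQ
  change (g.val * h.val).map (Rat.castHom ℝ) = g.val.map (Rat.castHom ℝ) * h.val.map (Rat.castHom ℝ)
  exact Matrix.map_mul

theorem rQ_one : rQ 1 = 1 := by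
  unfold rQ
  change (1 : Matrix (Fin 2) (Fin 2) ℚ).map (Rat.castHom ℝ) = 1
  exact Matrix.map_one _ (map_zero _) (map_one _)

/-- parallel vectors -/
theorem par {u v : Fin 2 → ℝ} (hv : v ≠ 0) (h : dt u v = 0) : ∃ c : ℝ, u = c • v := by
  unfold dt at h
  by_cases h0 : v 0 = 0
  · have h1 : v 1 ≠ 0 := by
      intro h1
      apply hv
      ext i
      fin_cases i
      · exact h0
      · exact h1
    refine ⟨u 1 / v 1, ?_⟩
    ext i
    fin_cases i
    · have : u 0 * v 1 = 0 := by rw [h0] at h; linarith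
      rcases mul_eq_zero.1 this with h2 | h2
      · simp [h0, h2]
      · exact absurd h2 h1
    · simp [div_mul_cancel₀ _ h1]
  · refine ⟨u 0 / v 0, ?_⟩
    ext i
    fin_cases i
    · simp [div_mul_cancel₀ _ h0]
    · simp only [Fin.mk_one, Fin.isValue, Pi.smul_apply, smul_eq_mul]
      field_simp
      linarith

theorem dt_smul_self (c : ℝ) (v : Fin 2 → ℝ) : dt (c • v) v = 0 := by
  simp only [dt, Pi.smul_apply, smul_eq_mul]
  ring

theorem inv_mulVec (g : SLQ) (v : Fin 2 → ℝ) : rQ g⁻¹ *ᵥ (rQ g *ᵥ v) = v := by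
  rw [Matrix.mulVec_mulVec, ← rQ_mul, inv_mul_cancel, rQ_one, Matrix.one_mulVec]

theorem mulVec_ne {g : SLQ} {v : Fin 2 → ℝ} (hv : v ≠ 0) : rQ g *ᵥ v ≠ 0 := by
  intro h
  apply hv
  rw [← inv_mulVec g v, h, Matrix.mulVec_zero]

theorem stab_mul {v : Fin 2 → ℝ} (hv : v ≠ 0) {a b : SLQ} (ha : dt (rQ a *ᵥ v) v = 0)
    (hb : dt (rQ b *ᵥ v) v = 0) : dt (rQ (a * b) *ᵥ v) v = 0 := by
  obtain ⟨c, hc⟩ := par hv ha
  obtain ⟨d, hd⟩ := par hv hb
  rw [rQ_mul, ← Matrix.mulVec_mulVec, hd, Matrix.mulVec_smul, hc, smul_smul]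
  exact dt_smul_self _ _

theorem stab_inv {v : Fin 2 → ℝ} (hv : v ≠ 0) {a : SLQ} (ha : dt (rQ a *ᵥ v) v = 0) :
    dt (rQ a⁻¹ *ᵥ v) v = 0 := by
  obtain ⟨c, hc⟩ := par hv ha
  have h1 := inv_mulVec a v
  rw [hc, Matrix.mulVec_smul] at h1
  have hc0 : c ≠ 0 := by
    rintro rfl
    rw [zero_smul] at hc
    exact mulVec_ne hv hc
  have h2 : rQ a⁻¹ *ᵥ v = c⁻¹ • v := by
    rw [← h1, smul_smul, inv_mul_cancel₀ hc0, one_smul]
    rw [h1]
  rw [h2]
  exact dt_smul_self _ _

/-- the stabilizer of a line -/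
def stab (Γ : Subgroup SLQ) (v : Fin 2 → ℝ) (hv : v ≠ 0) : Subgroup Γ where
  carrier := {γ | dt (rQ γ *ᵥ v) v = 0}
  mul_mem' := fun {a b} ha hb => by
    change dt (rQ ((a : SLQ) * b) *ᵥ v) v = 0
    exact stab_mul hv ha hb
  one_mem' := by
    change dt (rQ 1 *ᵥ v) v = 0
    rw [rQ_one, Matrix.one_mulVec]
    unfold dt
    ring
  inv_mem' := fun {a} ha => by
    change dt (rQ (a : SLQ)⁻¹ *ᵥ v) v = 0
    exact stab_inv hv ha

end NoLineAux

open NoLineAux in
theorem stNoLine : StNoLine := by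
  intro Γ hfin hirr v v' hv hv'
  by_contra hcon
  push Not at hcon
  have hall : ∀ γ ∈ Γ, dt (rQ γ *ᵥ v) v = 0 ∨ dt (rQ γ *ᵥ v) v' = 0 := by
    intro γ hγ
    by_cases h : dt (rQ γ *ᵥ v) v = 0
    · exact Or.inl h
    · exact Or.inr (hcon γ hγ h)
  set S := stab Γ v hv with hS
  have htop : S = ⊤ := by
    by_contra hne
    have hex : ∃ a : Γ, a ∉ S := by
      by_contra hc
      push Not at hc
      exact hne ((Subgroup.eq_top_iff' S).2 hc)
    obtain ⟨a, ha⟩ := hex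
    have key : ∀ b : Γ, b ∉ S → a⁻¹ * b ∈ S := by
      intro b hb
      have h1 : dt (rQ (a : SLQ) *ᵥ v) v' = 0 := by
        rcases hall a a.2 with h | h
        · exact absurd h ha
        · exact h
      have h2 : dt (rQ (b : SLQ) *ᵥ v) v' = 0 := by
        rcases hall b b.2 with h | h
        · exact absurd h hb
        · exact h
      obtain ⟨c, hc⟩ := par hv' h1
      obtain ⟨d, hd⟩ := par hv' h2
      have hc0 : c ≠ 0 := by
        rintro rfl
        rw [zero_smul] at hc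
        exact mulVec_ne hv hc
      have h3 := inv_mulVec (a : SLQ) v
      rw [hc, Matrix.mulVec_smul] at h3
      change dt (rQ ((a : SLQ)⁻¹ * b) *ᵥ v) v = 0
      rw [rQ_mul, ← Matrix.mulVec_mulVec, hd, Matrix.mulVec_smul]
      have h4 : rQ (a : SLQ)⁻¹ *ᵥ v' = c⁻¹ • v := by
        calc rQ (a : SLQ)⁻¹ *ᵥ v' = c⁻¹ • (c • rQ (a : SLQ)⁻¹ *ᵥ v') := by
              rw [smul_smul, inv_mul_cancel₀ hc0, one_smul]
          _ = c⁻¹ • v := by rw [h3]
      rw [h4, smul_smul]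
      exact dt_smul_self _ _
    have hidx : S.index = 2 := by
      rw [Subgroup.index_eq_two_iff]
      refine ⟨a⁻¹, fun b => ?_⟩
      by_cases hb : b ∈ S
      · right
        refine ⟨hb, fun h => ha ?_⟩
        have h5 : a⁻¹ ∈ S := by
          have h6 := S.mul_mem (S.inv_mem hb) h
          rwa [inv_mul_cancel_left] at h6
        have h7 := S.inv_mem h5
        rwa [inv_inv] at h7
      · left
        refine ⟨?_, hb⟩
        have hb' : b⁻¹ ∉ S := fun h => hb (by have := S.inv_mem h; rwa [inv_inv] at this)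
        have h8 := key _ hb'
        by_contra h9
        have h10 := key _ h9
        -- a⁻¹ * b⁻¹ ∈ S, a⁻¹ * (b * a⁻¹) ∈ S
        have h11 := S.mul_mem h8 (S.mul_mem (S.inv_mem (S.inv_mem h10)) (S.one_mem))
        have h12 := key _ hb
        -- (a⁻¹ b⁻¹)⁻¹ = b a ∈ S and a⁻¹ b ∈ S
        have h13 : a⁻¹ ∉ S := fun h => ha (by have := S.inv_mem h; rwa [inv_inv] at this)
        have h14 := key _ h13
        -- a⁻¹ a⁻¹ ∈ S
        apply h9
        have h15 : b * a⁻¹ = (a⁻¹ * b⁻¹)⁻¹ * (a⁻¹ * a⁻¹) := by group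
        rw [h15]
        exact S.mul_mem (S.inv_mem h8) h14
    have hn : S.Normal := Subgroup.normal_of_index_eq_two hidx
    have hf : S.FiniteIndex := ⟨by rw [hidx]; norm_num⟩
    exact hne (hfin S hn hf)
  have hstab : ∀ γ ∈ Γ, dt (rQ γ *ᵥ v) v = 0 := by
    intro γ hγ
    have : (⟨γ, hγ⟩ : Γ) ∈ S := by rw [htop]; exact Subgroup.mem_top _
    exact this
  -- the invariant line
  set w : Fin 2 → ℂ := fun i => ((v i : ℝ) : ℂ) with hw
  obtain ⟨-, hirr⟩ := hirr
  have hinv : ∀ g : Γ, ∀ u ∈ Submodule.span ℂ {w},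
      (((cx.comp Γ.subtype) g : GL (Fin 2) ℂ) : Matrix (Fin 2) (Fin 2) ℂ) *ᵥ u ∈
        Submodule.span ℂ {w} := by
    intro g u hu
    rw [Submodule.mem_span_singleton] at hu
    obtain ⟨c, rfl⟩ := hu
    rw [Matrix.mulVec_smul]
    refine Submodule.smul_mem _ _ ?_
    obtain ⟨d, hd⟩ := par hv (hstab g g.2)
    rw [Submodule.mem_span_singleton]
    refine ⟨(d : ℂ), ?_⟩
    have h1 : (((cx.comp Γ.subtype) g : GL (Fin 2) ℂ) : Matrix (Fin 2) (Fin 2) ℂ) =
        (g : SLQ).val.map (algebraMap ℚ ℂ) := rfl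
    rw [h1]
    ext i
    have h2 := congrFun hd i
    have h3 : (((rQ (g : SLQ) *ᵥ v) i : ℝ) : ℂ) = ((d * v i : ℝ) : ℂ) := by
      rw [h2]; rfl
    rw [Matrix.mulVec, dotProduct, Fin.sum_univ_two] at h3 ⊢
    simp only [rQ, Matrix.map_apply] at h3
    simp only [Matrix.map_apply, eq_ratCast, hw, Pi.smul_apply, smul_eq_mul]
    push_cast at h3
    exact h3.symm
  rcases hirr _ hinv with h | h
  · rw [Submodule.span_singleton_eq_bot] at h
    apply hv
    ext i
    have := congrFun h i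
    simp only [hw, Pi.zero_apply, Complex.ofReal_eq_zero] at this
    exact this
  · have h0 : (![1, 0] : Fin 2 → ℂ) ∈ Submodule.span ℂ {w} := by rw [h]; exact Submodule.mem_top
    have h1 : (![0, 1] : Fin 2 → ℂ) ∈ Submodule.span ℂ {w} := by rw [h]; exact Submodule.mem_top
    rw [Submodule.mem_span_singleton] at h0 h1
    obtain ⟨a, ha⟩ := h0
    obtain ⟨b, hb⟩ := h1
    have a0 := congrFun ha 0
    have a1 := congrFun ha 1
    have b0 := congrFun hb 0
    have b1 := congrFun hb 1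
    simp only [Pi.smul_apply, smul_eq_mul, Matrix.cons_val_zero, Matrix.cons_val_one] at a0 a1 b0 b1
    rcases mul_eq_zero.1 a1 with h | h
    · rw [h, zero_mul] at a0; exact zero_ne_one a0
    · rw [h, mul_zero] at b1; exact zero_ne_one b1

end Pool.Agent.Lib.MP_c356f3_al
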