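import Pool.Agent.Lib.MP_c356f3_al.Stmts

/-!
Without finite quotients some trace is not integral at `p`.
-/

namespace Pool.Agent.Lib.MP_c356f3_al

open Matrix

universe u

section
variable {G : Type u} [Group G]

/-- the trace of a product, from the dual basis -/
lemma chi_expand {ρ : G →* GL (Fin 2) ℂ} {χ : G → ℚ} (hχ : IsTr ρ χ) {s : Fin 4 → G}
    {q : Matrix (Fin 4) (Fin 4) ℚ} (hd : IsDual ρ s q) (g k' : G) :
    χ (g * k') = ∑ k, ∑ l, χ (g * s k) * q k l * χ (s l * k') := by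
  have h1 := hd (ρ g).val
  have h2 := congrArg (fun C : Matrix (Fin 2) (Fin 2) ℂ => (C * (ρ k').val).trace) h1
  simp only [Finset.sum_mul, Matrix.trace_sum, Matrix.smul_mul, Matrix.trace_smul] at h2
  have e : ∀ a b : G, ((ρ a).val * (ρ b).val).trace = ((χ (a * b) : ℚ) : ℂ) := by
    intro a b
    rw [← hχ, map_mul, Units.val_mul]
  simp only [e, smul_eq_mul] at h2
  have h3 : ((χ (g * k') : ℚ) : ℂ) =
      ((∑ k, ∑ l, χ (g * s k) * q k l * χ (s l * k') : ℚ) : ℂ) := by
    rw [h2]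
    push_cast
    rfl
  exact_mod_cast h3

/-- the trace is a class function -/
lemma chi_comm {ρ : G →* GL (Fin 2) ℂ} {χ : G → ℚ} (hχ : IsTr ρ χ) (a b : G) :
    χ (a * b) = χ (b * a) := by
  have : ((χ (a * b) : ℚ) : ℂ) = ((χ (b * a) : ℚ) : ℂ) := by
    rw [← hχ, ← hχ, map_mul, map_mul, Units.val_mul, Units.val_mul, Matrix.trace_mul_comm]
  exact_mod_cast this

variable (p : ℕ) [hp : Fact p.Prime]

/-- elements that change the values of `χ` by at most `ε` -/
def NSub (χ : G → ℚ) (hc : ∀ a b, χ (a * b) = χ (b * a)) (ε : ℚ) (hε : 0 < ε) : Subgroup G where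
  carrier := {g | ∀ k, padicNorm p (χ (g * k) - χ k) ≤ ε}
  one_mem' := by
    intro k
    rw [one_mul, sub_self, padicNorm.zero]
    exact hε.le
  mul_mem' := by
    intro a b ha hb k
    have h1 := ha (b * k)
    have h2 := hb k
    rw [← mul_assoc] at h1
    have : χ (a * b * k) - χ k = (χ (a * b * k) - χ (b * k)) + (χ (b * k) - χ k) := by ring
    rw [this]
    exact padicNorm.nonarchimedean.trans (max_le h1 h2)
  inv_mem' := by
    intro a ha k
    have h1 := ha (a⁻¹ * k)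
    rw [mul_inv_cancel_left] at h1
    rw [← padicNorm.neg, neg_sub]
    exact h1

lemma NSub_normal (χ : G → ℚ) (hc : ∀ a b, χ (a * b) = χ (b * a)) (ε : ℚ) (hε : 0 < ε) :
    (NSub p χ hc ε hε).Normal := by
  constructor
  intro n hn g k
  have h1 := hn (g⁻¹ * k * g)
  have e1 : χ (g * n * g⁻¹ * k) = χ (n * (g⁻¹ * k * g)) := by
    rw [show g * n * g⁻¹ * k = g * (n * g⁻¹ * k) by group, hc g]
    congr 1; group
  have e2 : χ (g⁻¹ * k * g) = χ k := by
    rw [hc (g⁻¹ * k) g]; congr 1; group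
  rw [e1]
  rw [e2] at h1
  exact h1

/-- residue of a `p`-integral value -/
noncomputable def resid (M : ℕ) (x : ℚ) : ZMod (p ^ M) := by
  classical
  exact if h : ‖((x : ℚ) : ℚ_[p])‖ ≤ 1 then PadicInt.toZModPow M ⟨(x : ℚ_[p]), h⟩ else 0

lemma resid_eq {M : ℕ} {x y : ℚ} (hx : padicNorm p x ≤ 1) (hy : padicNorm p y ≤ 1)
    (h : resid p M x = resid p M y) : padicNorm p (x - y) ≤ ((p : ℚ) ^ M)⁻¹ := by
  have hx' : ‖((x : ℚ) : ℚ_[p])‖ ≤ 1 := by
    rw [Padic.eq_padicNorm]; exact_mod_cast hx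
  have hy' : ‖((y : ℚ) : ℚ_[p])‖ ≤ 1 := by
    rw [Padic.eq_padicNorm]; exact_mod_cast hy
  unfold resid at h
  rw [dif_pos hx', dif_pos hy'] at h
  have h1 : (⟨(x : ℚ_[p]), hx'⟩ - ⟨(y : ℚ_[p]), hy'⟩ : ℤ_[p]) ∈
      RingHom.ker (PadicInt.toZModPow (p := p) M) := by
    rw [RingHom.mem_ker, map_sub, h, sub_self]
  rw [PadicInt.ker_toZModPow, ← PadicInt.norm_le_pow_iff_mem_span_pow] at h1
  have h2 : ‖(((x - y : ℚ)) : ℚ_[p])‖ ≤ (p : ℝ) ^ (-(M : ℤ)) := by
    have : ‖(⟨(x : ℚ_[p]), hx'⟩ - ⟨(y : ℚ_[p]), hy'⟩ : ℤ_[p])‖ = ‖(((x - y : ℚ)) : ℚ_[p])‖ := by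
      push_cast
      rfl
    rw [← this]; exact h1
  rw [Padic.eq_padicNorm, _root_.zpow_neg, _root_.zpow_natCast] at h2
  have h3 : ((padicNorm p (x - y) : ℚ) : ℝ) ≤ (((p : ℚ) ^ M)⁻¹ : ℚ) := by
    push_cast
    exact h2
  exact_mod_cast h3

end

/-- G: without finite quotients some trace is not `p`-integral. -/
theorem stNonInt : StNonInt.{u} := by
  intro G _ hNF ρ χ hχ hne hdual p hp
  have : Fact p.Prime := ⟨hp⟩
  by_contra hcon
  push Not at hcon
  obtain ⟨s, q, hd⟩ := hdual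
  have hc := chi_comm hχ
  -- bound for the matrix `q`
  obtain ⟨Q, hQ0, hQ⟩ : ∃ Q : ℚ, 0 < Q ∧ ∀ k l, padicNorm p (q k l) ≤ Q := by
    refine ⟨1 + ∑ k, ∑ l, padicNorm p (q k l), ?_, ?_⟩
    · have : 0 ≤ ∑ k, ∑ l, padicNorm p (q k l) :=
        Finset.sum_nonneg fun k _ => Finset.sum_nonneg fun l _ => padicNorm.nonneg _
      linarith
    · intro k l
      have h1 : padicNorm p (q k l) ≤ ∑ l, padicNorm p (q k l) :=
        Finset.single_le_sum (f := fun l => padicNorm p (q k l))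
          (fun l _ => padicNorm.nonneg _) (Finset.mem_univ l)
      have h2 : ∑ l, padicNorm p (q k l) ≤ ∑ k, ∑ l, padicNorm p (q k l) :=
        Finset.single_le_sum (f := fun k => ∑ l, padicNorm p (q k l))
          (fun k _ => Finset.sum_nonneg fun l _ => padicNorm.nonneg _) (Finset.mem_univ k)
      linarith
  -- the subgroups have finite index
  have key : ∀ (ε : ℚ) (hε : 0 < ε), NSub p χ hc ε hε = ⊤ := by
    intro ε hε
    have hN := NSub_normal p χ hc ε hε
    refine hNF _ hN ?_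
    obtain ⟨M, hM⟩ : ∃ M : ℕ, ((p : ℚ) ^ M)⁻¹ * Q ≤ ε := by
      have hp1 : (1 : ℚ) < p := by exact_mod_cast hp.one_lt
      obtain ⟨M, hM⟩ := pow_unbounded_of_one_lt (Q / ε) hp1
      refine ⟨M, ?_⟩
      have hpos : (0 : ℚ) < (p : ℚ) ^ M := by positivity
      rw [div_lt_iff₀ hε] at hM
      rw [inv_mul_eq_div, div_le_iff₀ hpos]
      linarith
    have hmem : ∀ g h : G, (∀ k, resid p M (χ (g * s k)) = resid p M (χ (h * s k))) →
        g * h⁻¹ ∈ NSub p χ hc ε hε := by
      intro g h hgh k'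
      have e1 : χ (g * h⁻¹ * k') = ∑ k, ∑ l, χ (g * s k) * q k l * χ (s l * (h⁻¹ * k')) := by
        rw [mul_assoc]; exact chi_expand hχ hd g (h⁻¹ * k')
      have e2 : χ k' = ∑ k, ∑ l, χ (h * s k) * q k l * χ (s l * (h⁻¹ * k')) := by
        have := chi_expand hχ hd h (h⁻¹ * k')
        rwa [mul_inv_cancel_left] at this
      rw [e1, e2, ← Finset.sum_sub_distrib]
      apply padicNorm.sum_le' _ hε.le
      intro k _
      rw [← Finset.sum_sub_distrib]
      apply padicNorm.sum_le' _ hε.le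
      intro l _
      have e3 : χ (g * s k) * q k l * χ (s l * (h⁻¹ * k')) -
          χ (h * s k) * q k l * χ (s l * (h⁻¹ * k')) =
          (χ (g * s k) - χ (h * s k)) * q k l * χ (s l * (h⁻¹ * k')) := by ring
      rw [e3, padicNorm.mul, padicNorm.mul]
      have b1 := resid_eq p (hcon _) (hcon _) (hgh k)
      have b2 := hQ k l
      have b3 := hcon (s l * (h⁻¹ * k'))
      have n1 := padicNorm.nonneg (p := p) (χ (g * s k) - χ (h * s k))
      have n2 := padicNorm.nonneg (p := p) (q k l)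
      have n3 := padicNorm.nonneg (p := p) (χ (s l * (h⁻¹ * k')))
      calc padicNorm p (χ (g * s k) - χ (h * s k)) * padicNorm p (q k l) *
            padicNorm p (χ (s l * (h⁻¹ * k')))
          ≤ (((p : ℚ) ^ M)⁻¹ * Q) * 1 := by
            apply mul_le_mul _ b3 n3 (by positivity)
            exact mul_le_mul b1 b2 n2 (by positivity)
        _ ≤ ε := by rw [mul_one]; exact hM
    have hfin : Finite (G ⧸ NSub p χ hc ε hε) := by
      have : NeZero (p ^ M) := ⟨by have := hp.pos; positivity⟩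
      apply Finite.of_injective
        (fun a : G ⧸ NSub p χ hc ε hε => fun k : Fin 4 => resid p M (χ (a.out * s k)))
      intro a b hab
      have h1 := hmem a.out b.out (fun k => congrFun hab k)
      have h2 : (b.out)⁻¹ * a.out ∈ NSub p χ hc ε hε := hN.mem_comm h1
      rw [← QuotientGroup.eq] at h2
      rw [QuotientGroup.out_eq', QuotientGroup.out_eq'] at h2
      exact h2.symm
    exact Subgroup.finiteIndex_of_finite_quotient
  -- so `χ` is translation invariant
  have hinv : ∀ g k, χ (g * k) = χ k := by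
    intro g k
    have h1 : ∀ ε : ℚ, 0 < ε → padicNorm p (χ (g * k) - χ k) ≤ ε := by
      intro ε hε
      have : g ∈ NSub p χ hc ε hε := by rw [key ε hε]; trivial
      exact this k
    have h2 : padicNorm p (χ (g * k) - χ k) ≤ 0 := by
      apply le_of_forall_gt_imp_ge_of_dense
      intro a ha
      exact h1 a ha
    have h3 : padicNorm p (χ (g * k) - χ k) = 0 := le_antisymm h2 (padicNorm.nonneg _)
    have h4 := padicNorm.zero_of_padicNorm_eq_zero h3
    linarith
  obtain ⟨g, hg⟩ := hne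
  apply hg
  have h1 := hd (ρ g).val
  have h2 := hd (ρ 1).val
  have e : ∀ a b : G, ((ρ a).val * (ρ b).val).trace = ((χ (a * b) : ℚ) : ℂ) := by
    intro a b
    rw [← hχ, map_mul, Units.val_mul]
  simp only [e, one_mul, hinv] at h1 h2
  apply Units.ext
  rw [h1, ← h2]
  simp

end Pool.Agent.Lib.MP_c356f3_al
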