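import Pool.Agent.Lib.MP_c356f3_al.Stmts

/-!
Module K3: the image of a two-dimensional irreducible representation with traces in
`{-2, ..., 2}` of a group without characters is infinite.
-/

namespace Pool.Agent.Lib.MP_c356f3_al

open Matrix

universe u

namespace NotFinAux

/-- Cayley-Hamilton. -/
lemma ch (A : Matrix (Fin 2) (Fin 2) ℂ) (h : A.det = 1) : A * A = A.trace • A - 1 := by
  have h' : A 0 0 * A 1 1 - A 0 1 * A 1 0 = 1 := by rw [← det_fin_two]; exact h
  ext i j
  fin_cases i <;> fin_cases j <;>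
    simp [Matrix.mul_apply, Fin.sum_univ_two, Matrix.trace_fin_two]
  · linear_combination (-1) * h'
  · ring
  · ring
  · linear_combination (-1) * h'

/-- Trace two and finite order. -/
lemma eq_one_of_trace {A : Matrix (Fin 2) (Fin 2) ℂ} (h : A.det = 1) (ht : A.trace = 2) {n : ℕ}
    (hn : 0 < n) (hA : A ^ n = 1) : A = 1 := by
  have h1 : A * A = (2 : ℂ) • A - 1 := by rw [ch A h, ht]
  have h2 : ∀ k : ℕ, A ^ k = 1 + (k : ℂ) • (A - 1) := by
    intro k
    induction k with
    | zero => simp
    | succ k ih =>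
      rw [pow_succ, ih, add_mul, smul_mul_assoc, sub_mul, h1, one_mul]
      push_cast
      module
  have h3 : (n : ℂ) • (A - 1) = 0 := by
    have := h2 n
    rw [hA] at this
    simpa using this.symm
  have h4 : (n : ℂ) ≠ 0 := by exact_mod_cast hn.ne'
  have h5 := (smul_eq_zero.mp h3).resolve_left h4
  exact sub_eq_zero.mp h5

lemma trace_inv {A : GL (Fin 2) ℂ} (h : A.val.det = 1) : (A⁻¹).val.trace = A.val.trace := by
  rw [Matrix.coe_units_inv, Matrix.inv_def, h, Ring.inverse_one, one_smul,
    Matrix.adjugate_fin_two, Matrix.trace_fin_two, Matrix.trace_fin_two]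
  simp [add_comm]

/-- The averaging operator. -/
lemma avg_comm {G : Type u} [Group G] (ρ : G →* GL (Fin 2) ℂ) [Fintype ρ.range]
    (X : Matrix (Fin 2) (Fin 2) ℂ) (g : G) :
    (∑ q : ρ.range, q.val.val * X * (q.val⁻¹).val) * (ρ g).val =
      (ρ g).val * ∑ q : ρ.range, q.val.val * X * (q.val⁻¹).val := by
  have h1 : ∑ q : ρ.range, q.val.val * X * (q.val⁻¹).val =
      ∑ q : ρ.range, ((⟨ρ g, g, rfl⟩ : ρ.range) * q).val.val * X *
        (((⟨ρ g, g, rfl⟩ : ρ.range) * q).val⁻¹).val := by
    symm
    exact Equiv.sum_comp (Equiv.mulLeft (⟨ρ g, g, rfl⟩ : ρ.range))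
      (fun q : ρ.range => q.val.val * X * (q.val⁻¹).val)
  conv_lhs => rw [h1]
  rw [Finset.sum_mul, Finset.mul_sum]
  refine Finset.sum_congr rfl fun q _ => ?_
  have h2 : (((⟨ρ g, g, rfl⟩ : ρ.range) * q).val⁻¹).val =
      (q.val⁻¹).val * ((ρ g)⁻¹).val := by
    rw [← Units.val_mul, ← _root_.mul_inv_rev]
    rfl
  have h3 : ((⟨ρ g, g, rfl⟩ : ρ.range) * q).val.val = (ρ g).val * q.val.val := rfl
  have h4 : ((ρ g)⁻¹).val * (ρ g).val = 1 := by
    rw [← Units.val_mul, inv_mul_cancel]
    rfl
  rw [h2, h3]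
  calc (ρ g).val * q.val.val * X * ((q.val⁻¹).val * ((ρ g)⁻¹).val) * (ρ g).val
      = (ρ g).val * q.val.val * X * (q.val⁻¹).val * (((ρ g)⁻¹).val * (ρ g).val) := by
        noncomm_ring
    _ = (ρ g).val * (q.val.val * X * (q.val⁻¹).val) := by
        rw [h4]; noncomm_ring

/-- The sum of the squares of the traces. -/
lemma sum_sq {G : Type u} [Group G] (ρ : G →* GL (Fin 2) ℂ) [Fintype ρ.range]
    (hC : StSchur.{u}) (hI : Irr ρ) (hdet : DetOne ρ) :
    ∑ q : ρ.range, q.val.val.trace ^ 2 = (Fintype.card ρ.range : ℂ) := by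
  have hq : ∀ q : ρ.range, (q.val⁻¹).val.trace = q.val.val.trace := by
    rintro ⟨_, g, rfl⟩
    exact trace_inv (hdet g)
  have key : ∀ a b : Fin 2, ∑ q : ρ.range, q.val.val a a * (q.val⁻¹).val b b =
      if a = b then (Fintype.card ρ.range : ℂ) / 2 else 0 := by
    intro a b
    set X : Matrix (Fin 2) (Fin 2) ℂ := Matrix.single a b 1 with hX
    obtain ⟨c, hc⟩ := hC G 2 ρ hI _ (avg_comm ρ X)
    have ht : 2 * c = (Fintype.card ρ.range : ℂ) * X.trace := by
      have h1 := congrArg Matrix.trace hc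
      rw [Matrix.trace_sum, Matrix.trace_smul, Matrix.trace_one] at h1
      have h2 : ∀ q : ρ.range, (q.val.val * X * (q.val⁻¹).val).trace = X.trace := by
        intro q
        rw [Matrix.trace_mul_cycle, ← Units.val_mul, inv_mul_cancel, Units.val_one, one_mul]
      rw [Finset.sum_congr rfl fun q _ => h2 q, Finset.sum_const, Finset.card_univ,
        nsmul_eq_mul] at h1
      rw [h1]
      simp [mul_comm]
    have he := congrFun (congrFun hc a) b
    rw [Matrix.sum_apply] at he
    have h3 : ∀ q : ρ.range, (q.val.val * X * (q.val⁻¹).val) a b =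
        q.val.val a a * (q.val⁻¹).val b b := by
      intro q
      rw [Matrix.mul_apply, Finset.sum_eq_single b]
      · rw [hX, Matrix.mul_single_apply_same, mul_one]
      · intro j _ hj
        rw [hX, Matrix.mul_single_apply_of_ne _ _ _ _ _ hj, zero_mul]
      · intro h; exact absurd (Finset.mem_univ _) h
    rw [Finset.sum_congr rfl fun q _ => h3 q] at he
    rw [he]
    by_cases hab : a = b
    · subst hab
      have htr : X.trace = 1 := by rw [hX]; simp
      rw [htr] at ht
      rw [if_pos rfl]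
      simp only [Matrix.smul_apply, Matrix.one_apply_eq, smul_eq_mul, mul_one]
      linear_combination ht / 2
    · rw [if_neg hab]
      simp [Matrix.one_apply_ne hab]
  have h4 : ∀ q : ρ.range, q.val.val.trace ^ 2 =
      ∑ a : Fin 2, ∑ b : Fin 2, q.val.val a a * (q.val⁻¹).val b b := by
    intro q
    rw [sq]
    nth_rewrite 2 [← hq q]
    rw [Matrix.trace, Matrix.trace, Finset.sum_mul_sum]
    rfl
  rw [Finset.sum_congr rfl fun q _ => h4 q, Finset.sum_comm]
  have h5 : ∀ a : Fin 2, ∑ q : ρ.range, ∑ b : Fin 2, q.val.val a a * (q.val⁻¹).val b b =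
      (Fintype.card ρ.range : ℂ) / 2 := by
    intro a
    rw [Finset.sum_comm, Finset.sum_congr rfl fun b _ => key a b]
    simp
  rw [Finset.sum_congr rfl fun a _ => h5 a, Finset.sum_const, Finset.card_univ, Fintype.card_fin,
    nsmul_eq_mul]
  push_cast
  ring

end NotFinAux

open NotFinAux in
theorem stNotFin (hB : StPerm.{u}) (hC : StSchur.{u}) : StNotFin.{u} := by
  classical
  intro G _ ρ χ hI hNC hdet hχ hval hfin
  have : Fintype ρ.range := Fintype.ofFinite _
  -- rational traces
  have hτ : ∀ q : ρ.range, ∃ t : ℚ, q.val.val.trace = (t : ℂ) ∧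
      (t = -2 ∨ t = -1 ∨ t = 0 ∨ t = 1 ∨ t = 2) := by
    rintro ⟨_, g, rfl⟩
    exact ⟨χ g, hχ g, hval g⟩
  choose τ hτ1 hτ2 using hτ
  have hdet' : ∀ q : ρ.range, q.val.val.det = 1 := by
    rintro ⟨_, g, rfl⟩
    exact hdet g
  have hord : ∀ q : ρ.range, ∃ n : ℕ, 0 < n ∧ q.val.val ^ n = 1 := by
    intro q
    refine ⟨Fintype.card ρ.range, Fintype.card_pos, ?_⟩
    have h1 : q ^ Fintype.card ρ.range = 1 := pow_card_eq_one
    have h2 : (q ^ Fintype.card ρ.range).val.val = (1 : ρ.range).val.val := by rw [h1]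
    exact h2
  -- the sum of the squares
  have hsum : ∑ q : ρ.range, (τ q ^ 2 - 1) = 0 := by
    have h1 := sum_sq ρ hC hI hdet
    rw [Finset.sum_sub_distrib]
    simp only [Finset.sum_const, Finset.card_univ, nsmul_eq_mul, mul_one]
    rw [sub_eq_zero]
    have h2 : ((∑ q : ρ.range, τ q ^ 2 : ℚ) : ℂ) = ((Fintype.card ρ.range : ℚ) : ℂ) := by
      rw [Rat.cast_natCast, ← h1]
      push_cast
      exact Finset.sum_congr rfl fun q _ => by rw [hτ1 q]
    exact_mod_cast h2
  have hpt : ∀ q : ρ.range, τ q ^ 2 - 1 = 3 * (if τ q = 2 then 1 else 0) +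
      3 * (if τ q = -2 then 1 else 0) - (if τ q = 0 then 1 else 0) := by
    intro q
    rcases hτ2 q with h | h | h | h | h <;> rw [h] <;> norm_num
  rw [Finset.sum_congr rfl fun q _ => hpt q, Finset.sum_sub_distrib, Finset.sum_add_distrib,
    ← Finset.mul_sum, ← Finset.mul_sum, Finset.sum_boole, Finset.sum_boole,
    Finset.sum_boole] at hsum
  -- trace two
  have hone : ∀ q : ρ.range, τ q = 2 → q = 1 := by
    intro q hq
    obtain ⟨n, hn, hn1⟩ := hord q
    have h1 : q.val.val.trace = 2 := by rw [hτ1 q, hq]; norm_num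
    have h2 := eq_one_of_trace (hdet' q) h1 hn hn1
    exact Subtype.ext (Units.ext h2)
  have hmone : ∀ q : ρ.range, τ q = -2 → q.val = -1 := by
    intro q hq
    obtain ⟨n, hn, hn1⟩ := hord q
    have h1 : (-q.val.val).trace = 2 := by
      rw [Matrix.trace_neg, hτ1 q, hq]; norm_num
    have h2 : (-q.val.val).det = 1 := by
      rw [Matrix.det_neg, hdet' q]; norm_num
    have h3 : (-q.val.val) ^ (2 * n) = 1 := by
      rw [pow_mul, neg_sq, ← pow_mul, mul_comm 2 n, pow_mul, hn1, one_pow]
    have h4 := eq_one_of_trace h2 h1 (by omega : 0 < 2 * n) h3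
    apply Units.ext
    rw [Units.val_neg, Units.val_one, ← h4, neg_neg]
  have hτone : τ 1 = 2 := by
    have h1 := hτ1 1
    have h2 : ((1 : ρ.range).val.val).trace = (2 : ℂ) := by
      simp [Matrix.trace_one]
    rw [h2] at h1
    exact_mod_cast h1.symm
  have hc2 : (Finset.univ.filter fun q : ρ.range => τ q = 2).card = 1 := by
    rw [Finset.card_eq_one]
    refine ⟨1, ?_⟩
    ext q
    simp only [Finset.mem_filter, Finset.mem_univ, true_and, Finset.mem_singleton]
    exact ⟨hone q, fun h => by rw [h]; exact hτone⟩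
  rw [hc2] at hsum
  set T : Finset ρ.range := Finset.univ.filter fun q : ρ.range => τ q = 0 with hT
  set T' : Finset ρ.range := Finset.univ.filter fun q : ρ.range => τ q = -2 with hT'
  have hcT : T.card = 3 + 3 * T'.card := by
    have h1 : (T.card : ℚ) = 3 + 3 * T'.card := by
      have := hsum
      push_cast at this
      linarith
    exact_mod_cast h1
  have hsq : ∀ q ∈ T, q.val * q.val = -1 := by
    intro q hq
    have h0 : τ q = 0 := (Finset.mem_filter.mp hq).2
    apply Units.ext
    rw [Units.val_mul, ch _ (hdet' q), hτ1 q, h0]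
    simp
  obtain ⟨x, hx⟩ : T.Nonempty := by
    rw [← Finset.card_pos]
    omega
  have hm1 : (-1 : GL (Fin 2) ℂ) ∈ ρ.range := by
    rw [← hsq x hx]
    exact mul_mem x.2 x.2
  have hneg : ∀ y ∈ ρ.range, -y ∈ ρ.range := by
    intro y hy
    have : -y = (-1 : GL (Fin 2) ℂ) * y := by
      apply Units.ext
      simp
    rw [this]
    exact mul_mem hm1 hy
  have hcT' : T'.card = 1 := by
    rw [Finset.card_eq_one]
    refine ⟨⟨-1, hm1⟩, ?_⟩
    ext q
    simp only [hT', Finset.mem_filter, Finset.mem_univ, true_and, Finset.mem_singleton]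
    constructor
    · intro h
      exact Subtype.ext (hmone q h)
    · intro h
      have h1 := hτ1 q
      rw [h] at h1
      have h2 : ((-1 : GL (Fin 2) ℂ).val).trace = (-2 : ℂ) := by
        rw [Units.val_neg, Units.val_one, Matrix.trace_neg, Matrix.trace_one]
        simp
      have h3 : ((⟨-1, hm1⟩ : ρ.range).val.val).trace = (-2 : ℂ) := h2
      rw [h3] at h1
      rw [h]
      exact_mod_cast h1.symm
  rw [hcT'] at hcT
  -- the pairs
  let f : ρ.range → Sym2 (GL (Fin 2) ℂ) := fun q => s(q.val, -q.val)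
  have hne : ∀ q : ρ.range, q.val ≠ -q.val := by
    intro q h
    have h1 := congrArg (fun y : GL (Fin 2) ℂ => y.val) h
    simp only [Units.val_neg] at h1
    have h2 : q.val.val = 0 := by
      have h3 : q.val.val + q.val.val = 0 := by
        nth_rewrite 1 [h1]
        simp
      have h4 : (2 : ℂ) • q.val.val = 0 := by rw [two_smul]; exact h3
      exact (smul_eq_zero.mp h4).resolve_left two_ne_zero
    have h5 := hdet' q
    rw [h2] at h5
    simp at h5
  have hff : ∀ q q' : ρ.range, f q = f q' ↔ q' = q ∨ q'.val = -q.val := by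
    intro q q'
    simp only [f, Sym2.eq_iff]
    constructor
    · rintro (⟨h, -⟩ | ⟨h, -⟩)
      · exact Or.inl (Subtype.ext h.symm)
      · right
        rw [h, neg_neg]
    · rintro (h | h)
      · left; rw [h]; exact ⟨rfl, rfl⟩
      · right; rw [h, neg_neg]; exact ⟨rfl, rfl⟩
  have hτneg : ∀ (q : ρ.range) (h : -q.val ∈ ρ.range), τ ⟨-q.val, h⟩ = -τ q := by
    intro q h
    have h1 := hτ1 ⟨-q.val, h⟩
    simp only [Units.val_neg, Matrix.trace_neg] at h1
    rw [hτ1 q] at h1
    have h2 : ((-τ q : ℚ) : ℂ) = ((τ ⟨-q.val, h⟩ : ℚ) : ℂ) := by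
      rw [← h1]; push_cast; rfl
    exact_mod_cast h2.symm
  have hcS : (T.image f).card = 3 := by
    have h1 := Finset.card_eq_sum_card_image f T
    have h2 : ∀ b ∈ T.image f, (T.filter fun a => f a = b).card = 2 := by
      intro b hb
      obtain ⟨q, hq, rfl⟩ := Finset.mem_image.mp hb
      have h3 : (T.filter fun a => f a = f q) = {q, ⟨-q.val, hneg _ q.2⟩} := by
        ext a
        simp only [Finset.mem_filter, Finset.mem_insert, Finset.mem_singleton]
        constructor
        · rintro ⟨-, h⟩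
          rcases (hff q a).mp h.symm with h4 | h4
          · exact Or.inl h4
          · exact Or.inr (Subtype.ext h4)
        · rintro (h | h)
          · rw [h]; exact ⟨hq, rfl⟩
          · rw [h]
            refine ⟨?_, ((hff _ _).mpr (Or.inr rfl)).symm⟩
            rw [hT, Finset.mem_filter]
            refine ⟨Finset.mem_univ _, ?_⟩
            rw [hτneg, (Finset.mem_filter.mp hq).2, neg_zero]
      rw [h3, Finset.card_pair]
      intro h
      exact hne q (congrArg Subtype.val h)
    rw [Finset.sum_congr rfl h2, Finset.sum_const, smul_eq_mul, hcT] at h1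
    omega
  -- the action on the pairs
  let cj : G → GL (Fin 2) ℂ → GL (Fin 2) ℂ := fun g y => ρ g * y * (ρ g)⁻¹
  have hcj : ∀ (g : G) (s : Sym2 (GL (Fin 2) ℂ)), s ∈ T.image f → Sym2.map (cj g) s ∈ T.image f := by
    intro g s hs
    obtain ⟨q, hq, rfl⟩ := Finset.mem_image.mp hs
    have hmem : cj g q.val ∈ ρ.range :=
      mul_mem (mul_mem ⟨g, rfl⟩ q.2) (inv_mem ⟨g, rfl⟩)
    rw [Finset.mem_image]
    refine ⟨⟨cj g q.val, hmem⟩, ?_, ?_⟩
    · rw [hT, Finset.mem_filter]
      refine ⟨Finset.mem_univ _, ?_⟩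
      have h1 := hτ1 ⟨cj g q.val, hmem⟩
      have h2 : (cj g q.val).val.trace = q.val.val.trace := by
        simp only [cj, Units.val_mul]
        rw [Matrix.trace_mul_cycle, ← Units.val_mul, inv_mul_cancel, Units.val_one, one_mul]
      have h3 : q.val.val.trace = 0 := by
        rw [hτ1 q, (Finset.mem_filter.mp hq).2]; simp
      have h4 : ((τ ⟨cj g q.val, hmem⟩ : ℚ) : ℂ) = 0 := by
        rw [← h1]
        exact h2.trans h3
      exact_mod_cast h4
    · simp only [f, Sym2.map_mk, cj]
      congr 1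
      rw [mul_neg, neg_mul]
  let S : Type := {s : Sym2 (GL (Fin 2) ℂ) // s ∈ T.image f}
  have hcard : Fintype.card S = 3 := by
    rw [Fintype.card_coe]
    exact hcS
  let act : MulAction G S :=
    { smul := fun g s => ⟨Sym2.map (cj g) s.1, hcj g s.1 s.2⟩
      one_smul := by
        rintro ⟨s, hs⟩
        apply Subtype.ext
        show Sym2.map (cj 1) s = s
        have : cj 1 = id := by
          funext y
          simp [cj]
        rw [this, Sym2.map_id, id]
      mul_smul := by
        rintro g h ⟨s, hs⟩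
        apply Subtype.ext
        show Sym2.map (cj (g * h)) s = Sym2.map (cj g) (Sym2.map (cj h) s)
        rw [Sym2.map_map]
        congr 1
        funext y
        simp only [cj, Function.comp_apply, map_mul, _root_.mul_inv_rev]
        group }
  let e : S ≃ Fin 3 := Fintype.equivFinOfCardEq hcard
  have htriv := hB G hNC ((e.permCongrHom.toMonoidHom).comp (MulAction.toPermHom G S))
  have hact : ∀ (g : G) (s : S), g • s = s := by
    intro g s
    have h1 := DFunLike.congr_fun htriv g
    have h2 : MulAction.toPermHom G S g = 1 := by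
      apply e.permCongrHom.injective
      rw [map_one]
      exact h1
    have h3 := DFunLike.congr_fun h2 s
    exact h3
  have hpm : ∀ g : G, ρ g * x.val * (ρ g)⁻¹ = x.val ∨ ρ g * x.val * (ρ g)⁻¹ = -x.val := by
    intro g
    have h1 := congrArg Subtype.val (hact g ⟨f x, Finset.mem_image_of_mem _ hx⟩)
    have h2 : Sym2.map (cj g) (f x) = f x := h1
    simp only [f, Sym2.map_mk, Sym2.eq_iff, cj] at h2
    rcases h2 with ⟨h, -⟩ | ⟨h, -⟩
    · exact Or.inl h
    · exact Or.inr h
  -- the character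
  have hx0 : x.val ≠ -x.val := hne x
  let ε : G → ℂˣ := fun g => if ρ g * x.val * (ρ g)⁻¹ = x.val then 1 else -1
  have hε : ∀ g h : G, ε (g * h) = ε g * ε h := by
    intro g h
    have h1 : ρ (g * h) * x.val * (ρ (g * h))⁻¹ = ρ g * (ρ h * x.val * (ρ h)⁻¹) * (ρ g)⁻¹ := by
      rw [map_mul, _root_.mul_inv_rev]
      group
    simp only [ε, h1]
    rcases hpm h with h2 | h2 <;> rcases hpm g with h3 | h3
    · rw [h2, h3]; simp
    · rw [h2, h3]; simp [hx0.symm]
    · have h4 : ρ g * -x.val * (ρ g)⁻¹ = -x.val := by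
        rw [mul_neg, neg_mul, h3]
      rw [h2, h3, h4]; simp [hx0.symm]
    · have h4 : ρ g * -x.val * (ρ g)⁻¹ = x.val := by
        rw [mul_neg, neg_mul, h3, neg_neg]
      rw [h2, h3, h4]; simp [hx0.symm]
  let εh : G →* ℂˣ := MonoidHom.mk' ε hε
  have hε1 : ∀ g : G, ε g = 1 := by
    intro g
    have := DFunLike.congr_fun (hNC εh) g
    exact this
  have hcomm : ∀ g : G, ρ g * x.val * (ρ g)⁻¹ = x.val := by
    intro g
    by_contra hcon
    have h1 := hε1 g
    simp only [ε, if_neg hcon] at h1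
    have h2 := congrArg Units.val h1
    norm_num at h2
  obtain ⟨c, hc⟩ := hC G 2 ρ hI x.val.val (by
    intro g
    have h1 := hcomm g
    have h2 : ρ g * x.val = x.val * ρ g := by
      nth_rewrite 2 [← h1]
      group
    have h3 := congrArg Units.val h2
    simpa using h3.symm)
  have h0 : x.val.val.trace = 0 := by
    rw [hτ1 x, (Finset.mem_filter.mp hx).2]; simp
  rw [hc, Matrix.trace_smul, Matrix.trace_one] at h0
  have hc0 : c = 0 := by simpa using h0
  have h1 := hdet' x
  rw [hc, hc0] at h1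
  simp at h1

end Pool.Agent.Lib.MP_c356f3_al
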