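import Pool.Agent.Lib.MP_c356f3_al.Stmts

/-!
Without characters there are no nontrivial homomorphisms to the symmetric group on three letters.
-/

namespace Pool.Agent.Lib.MP_c356f3_al

universe u

lemma perm3_add : ∀ σ τ : Equiv.Perm (Fin 3), Equiv.Perm.sign σ = 1 → Equiv.Perm.sign τ = 1 →
    (σ * τ) 0 = σ 0 + τ 0 := by decide

lemma perm3_eq : ∀ σ : Equiv.Perm (Fin 3), Equiv.Perm.sign σ = 1 → σ 0 = 0 → σ = 1 := by
  decide

theorem stPerm : StPerm.{u} := by
  intro G _ hG f
  -- all values are even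
  have hs : ∀ g, Equiv.Perm.sign (f g) = 1 := by
    intro g
    have h := hG ((Units.map (Int.castRingHom ℂ).toMonoidHom).comp (Equiv.Perm.sign.comp f))
    have h1 := congrArg (fun F : G →* ℂˣ => ((F g : ℂˣ) : ℂ)) h
    simp only [MonoidHom.coe_comp, Function.comp_apply, Units.coe_map, MonoidHom.one_apply,
      Units.val_one] at h1
    rcases Int.units_eq_one_or (Equiv.Perm.sign (f g)) with h2 | h2
    · exact h2
    · exfalso
      rw [h2] at h1
      norm_num at h1
  -- a primitive third root of unity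
  have hz : IsPrimitiveRoot (Complex.exp (2 * Real.pi * Complex.I / (3 : ℕ))) 3 :=
    Complex.isPrimitiveRoot_exp 3 (by norm_num)
  obtain ⟨z, hz'⟩ := hz.isUnit (by norm_num)
  have hzu : IsPrimitiveRoot z 3 := by
    rw [← IsPrimitiveRoot.coe_units_iff, hz']
    exact hz
  have hadd : ∀ a b : Fin 3, z ^ ((a + b : Fin 3) : ℕ) = z ^ (a : ℕ) * z ^ (b : ℕ) := by
    intro a b
    rw [← pow_add, Fin.val_add]
    exact (pow_eq_pow_mod _ hzu.pow_eq_one).symm
  let F : G →* ℂˣ :=
    { toFun := fun g => z ^ ((f g 0 : Fin 3) : ℕ)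
      map_one' := by simp
      map_mul' := by
        intro g h
        rw [map_mul, perm3_add _ _ (hs g) (hs h), hadd] }
  have hF := hG F
  ext1 g
  rw [MonoidHom.one_apply]
  apply perm3_eq _ (hs g)
  have h1 : z ^ ((f g 0 : Fin 3) : ℕ) = 1 := congrArg (fun F : G →* ℂˣ => F g) hF
  have h2 := hzu.dvd_of_pow_eq_one _ h1
  have h3 := (f g 0).isLt
  apply Fin.ext
  have h4 := Nat.eq_zero_of_dvd_of_lt h2 h3
  rw [h4]; rfl

end Pool.Agent.Lib.MP_c356f3_al
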