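import Pool.Agent.Lib.MP_c356f3_al.StmtsX

/-!
Module X8: powers of conjugates of integral elements are integral.
-/

namespace Pool.Agent.Lib.MP_c356f3_al

namespace PowAux

open Matrix

lemma iZQ_val (h : SLZ) : (iZQ h).val = h.val.map (Int.castRingHom ℚ) := rfl

/-- some positive power of an element of `SL(2,ℤ)` is `1` modulo `N` -/
lemma exists_pow_congr (h : SLZ) (N : ℕ) (hN : N ≠ 0) :
    ∃ n : ℕ, 0 < n ∧ ∃ X : Matrix (Fin 2) (Fin 2) ℤ, ∀ i j,
      (h ^ n).val i j = (1 : Matrix (Fin 2) (Fin 2) ℤ) i j + (N : ℤ) * X i j := by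
  have : NeZero N := ⟨hN⟩
  have : Finite (SpecialLinearGroup (Fin 2) (ZMod N)) := Subtype.finite
  let f : SLZ →* SpecialLinearGroup (Fin 2) (ZMod N) :=
    SpecialLinearGroup.map (Int.castRingHom (ZMod N))
  obtain ⟨n, hn, h1⟩ := (isOfFinOrder_of_finite (f h)).exists_pow_eq_one
  refine ⟨n, hn, ?_⟩
  have h2 : ∀ i j, (N : ℤ) ∣ (h ^ n).val i j - (1 : Matrix (Fin 2) (Fin 2) ℤ) i j := by
    intro i j
    rw [← ZMod.intCast_zmod_eq_zero_iff_dvd, Int.cast_sub, sub_eq_zero]
    have h3 : f (h ^ n) = 1 := by rw [map_pow, h1]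
    have h4 := congrArg (fun A : SpecialLinearGroup (Fin 2) (ZMod N) => A.val i j) h3
    simp only [f] at h4
    have h5 : ((h ^ n).val.map (Int.castRingHom (ZMod N))) i j =
        (1 : Matrix (Fin 2) (Fin 2) (ZMod N)) i j := h4
    rw [Matrix.map_apply] at h5
    have h6 : ((h ^ n).val i j : ZMod N) = (1 : Matrix (Fin 2) (Fin 2) (ZMod N)) i j := by
      simpa using h5
    rw [h6]
    by_cases hij : i = j
    · subst hij; simp
    · simp [Matrix.one_apply_ne hij]
  choose X hX using h2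
  refine ⟨Matrix.of X, ?_⟩
  intro i j
  have := hX i j
  rw [Matrix.of_apply, ← this]
  ring

end PowAux

open PowAux in
theorem stPow : StPow := by
  intro γ h
  set A : Matrix (Fin 2) (Fin 2) ℤ := γ.val.num with hA
  set D : ℕ := γ.val.den with hD
  have hD0 : D ≠ 0 := Matrix.den_ne_zero _
  have hDq : (D : ℚ) ≠ 0 := Nat.cast_ne_zero.mpr hD0
  have hγ : A.map (Int.castRingHom ℚ) = (D : ℚ) • γ.val := by
    have := Matrix.inv_denom_smul_num γ.val
    rw [← this]
    rw [smul_smul, mul_inv_cancel₀ hDq, one_smul]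
    rfl
  obtain ⟨n, hn, X, hX⟩ := exists_pow_congr h (D ^ 2) (pow_ne_zero 2 hD0)
  refine ⟨n, hn, ?_⟩
  have key : ((1 + A * X * A.adjugate : Matrix (Fin 2) (Fin 2) ℤ)).map (Int.castRingHom ℚ) =
      (γ * iZQ h ^ n * γ⁻¹).val := by
    have e1 : (iZQ h ^ n).val = 1 + ((D : ℚ) ^ 2) • X.map (Int.castRingHom ℚ) := by
      rw [← map_pow, iZQ_val]
      ext i j
      rw [Matrix.map_apply, hX i j]
      by_cases hij : i = j
      · subst hij; simp
      · simp [Matrix.one_apply_ne hij]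
    have e2 : A.adjugate.map (Int.castRingHom ℚ) = (D : ℚ) • (γ⁻¹).val := by
      have h3 : A.adjugate.map (Int.castRingHom ℚ) = (A.map (Int.castRingHom ℚ)).adjugate :=
        (Int.castRingHom ℚ).map_adjugate A
      rw [h3, hγ, Matrix.adjugate_smul]
      simp
    have e3 : γ.val * (γ⁻¹).val = 1 := congrArg Subtype.val (mul_inv_cancel γ)
    have e4 : (γ * iZQ h ^ n * γ⁻¹).val = γ.val * (iZQ h ^ n).val * (γ⁻¹).val := rfl
    rw [e4, e1]
    have e5 : ((1 + A * X * A.adjugate : Matrix (Fin 2) (Fin 2) ℤ)).map (Int.castRingHom ℚ) =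
        1 + A.map (Int.castRingHom ℚ) * X.map (Int.castRingHom ℚ) *
          A.adjugate.map (Int.castRingHom ℚ) := by
      have : ∀ M : Matrix (Fin 2) (Fin 2) ℤ, M.map (Int.castRingHom ℚ) =
        (Int.castRingHom ℚ).mapMatrix M := fun M => rfl
      rw [this, this, this, this, map_add, map_mul, map_mul, map_one]
    rw [e5, e2, hγ, mul_add, add_mul, mul_one, e3]
    congr 1
    rw [Matrix.mul_smul, Matrix.smul_mul, Matrix.smul_mul, Matrix.mul_smul, Matrix.smul_mul,
      smul_smul, pow_two]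
  have hdet : (1 + A * X * A.adjugate : Matrix (Fin 2) (Fin 2) ℤ).det = 1 := by
    have h1 : (Int.castRingHom ℚ) (1 + A * X * A.adjugate : Matrix (Fin 2) (Fin 2) ℤ).det = 1 := by
      rw [RingHom.map_det]
      have : (Int.castRingHom ℚ).mapMatrix (1 + A * X * A.adjugate) =
        (γ * iZQ h ^ n * γ⁻¹).val := key
      rw [this]
      exact (γ * iZQ h ^ n * γ⁻¹).2
    have h2 : (((1 + A * X * A.adjugate : Matrix (Fin 2) (Fin 2) ℤ).det : ℤ) : ℚ) =
        ((1 : ℤ) : ℚ) := by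
      rw [Int.cast_one]; exact h1
    exact Int.cast_injective h2
  exact ⟨⟨_, hdet⟩, Subtype.ext key⟩

end Pool.Agent.Lib.MP_c356f3_al
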