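import Pool.Agent.Lib.MP_c356f3_al.Stmts

/-! F: the rational quaternion algebra. -/

namespace Pool.Agent.Lib.MP_c356f3_al

open Matrix

universe u

namespace Quat

abbrev M2 := Matrix (Fin 2) (Fin 2) ℂ

lemma tz {M : M2} (h : M.trace = 0) : M 1 1 = - M 0 0 := by
  rw [Matrix.trace_fin_two] at h
  linear_combination h

lemma anti {M N : M2} (hM : M.trace = 0) (hN : N.trace = 0) :
    M * N + N * M = (M * N).trace • (1 : M2) := by
  ext i j
  fin_cases i <;> fin_cases j <;>
    simp [Matrix.mul_apply, Fin.sum_univ_two, Matrix.trace_fin_two, tz hM, tz hN] <;> ring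

lemma sq {M : M2} (hM : M.trace = 0) : M * M = ((M * M).trace / 2) • (1 : M2) := by
  ext i j
  fin_cases i <;> fin_cases j <;>
    simp [Matrix.mul_apply, Fin.sum_univ_two, Matrix.trace_fin_two, tz hM] <;> ring

lemma jsq {M N : M2} (hM : M.trace = 0) (hN : N.trace = 0) :
    (M * N - N * M) * (M * N - N * M) =
      ((M * N).trace ^ 2 - (M * M).trace * (N * N).trace) • (1 : M2) := by
  ext i j
  fin_cases i <;> fin_cases j <;>
    simp [Matrix.mul_apply, Fin.sum_univ_two, Matrix.trace_fin_two, tz hM, tz hN] <;> ring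

lemma janti {M N : M2} (hM : M.trace = 0) (hN : N.trace = 0) :
    M * (M * N - N * M) = -((M * N - N * M) * M) := by
  ext i j
  fin_cases i <;> fin_cases j <;>
    simp [Matrix.mul_apply, Fin.sum_univ_two, tz hM, tz hN] <;> ring

lemma eq_zero_of_trace {X : M2} (h : ∀ C : M2, (X * C).trace = 0) : X = 0 := by
  ext i j
  have := h (Matrix.single j i 1)
  simpa [Matrix.trace_mul_single] using this

/-- coordinates with respect to a quaternion basis -/
lemma coord {i j : M2} {a b : ℂ} (ha : a ≠ 0) (hb : b ≠ 0) (hi : i * i = a • (1 : M2))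
    (hj : j * j = b • (1 : M2)) (hij : i * j = -(j * i)) (C : M2) :
    C = (C.trace / 2) • (1 : M2) + ((C * i).trace / (2 * a)) • i
      + ((C * j).trace / (2 * b)) • j + (-((C * (i * j)).trace / (2 * a * b))) • (i * j) := by
  have tij : (i * j).trace = 0 := by
    have h1 : (i * j).trace = -(i * j).trace := by
      conv_lhs => rw [hij]
      rw [Matrix.trace_neg, Matrix.trace_mul_comm]
    linear_combination h1 / 2
  have ti : i.trace = 0 := by
    have h1 : b * i.trace = (i * j * j).trace := by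
      rw [Matrix.mul_assoc, hj]; simp
    have h2 : (i * j * j).trace = -(i * j * j).trace := by
      conv_lhs => rw [hij]
      rw [Matrix.neg_mul, Matrix.trace_neg, Matrix.mul_assoc, Matrix.trace_mul_comm]
    have h3 : b * i.trace = 0 := by rw [h1]; linear_combination h2 / 2
    exact (mul_eq_zero.1 h3).resolve_left hb
  have tj : j.trace = 0 := by
    have h1 : a * j.trace = (i * i * j).trace := by
      rw [hi]; simp
    have h2 : (i * i * j).trace = -(i * i * j).trace := by
      conv_lhs => rw [Matrix.mul_assoc, hij]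
      rw [Matrix.mul_neg, Matrix.trace_neg, ← Matrix.mul_assoc, Matrix.trace_mul_comm,
        ← Matrix.mul_assoc]
    have h3 : a * j.trace = 0 := by rw [h1]; linear_combination h2 / 2
    exact (mul_eq_zero.1 h3).resolve_left ha
  have hji : j * i = -(i * j) := by rw [hij, neg_neg]
  have m1 : i * (i * j) = a • j := by rw [← Matrix.mul_assoc, hi]; simp
  have m2 : (i * j) * i = -(a • j) := by
    rw [Matrix.mul_assoc, hji, Matrix.mul_neg, m1]
  have m3 : (i * j) * j = b • i := by rw [Matrix.mul_assoc, hj]; simp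
  have m4 : j * (i * j) = -(b • i) := by
    rw [← Matrix.mul_assoc, hji, Matrix.neg_mul, m3]
  have m5 : (i * j) * (i * j) = -((a * b) • (1 : M2)) := by
    rw [← Matrix.mul_assoc, m2, Matrix.neg_mul, Matrix.smul_mul, hj, smul_smul]
  -- linear independence of 1, i, j, ij
  have hli : LinearIndependent ℂ (![(1 : M2), i, j, i * j]) := by
    rw [Fintype.linearIndependent_iff]
    intro c hc
    simp only [Fin.sum_univ_four, Matrix.cons_val_zero, Matrix.cons_val_one,
      Matrix.cons_val] at hc
    have h0 := congrArg Matrix.trace hc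
    have h1 := congrArg (fun X => Matrix.trace (X * i)) hc
    have h2 := congrArg (fun X => Matrix.trace (X * j)) hc
    have h3 := congrArg (fun X => Matrix.trace (X * (i * j))) hc
    simp only [Matrix.add_mul, Matrix.smul_mul, Matrix.trace_add, Matrix.trace_smul, Matrix.one_mul,
      hi, hj, hji, m1, m2, m3, m4, m5, ti, tj, tij, Matrix.trace_neg, Matrix.trace_one,
      smul_eq_mul, Matrix.zero_mul, Matrix.trace_zero, Fintype.card_fin] at h0 h1 h2 h3
    norm_num at h0 h1 h2 h3
    intro k
    fin_cases k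
    · simpa using h0
    · simpa [ha] using h1
    · simpa [hb] using h2
    · simpa [ha, hb] using h3
  have hspan : ∀ X : M2, X ∈ Submodule.span ℂ (Set.range (![(1 : M2), i, j, i * j])) := by
    have hfr : Module.finrank ℂ M2 = 4 := by simp [M2, Module.finrank_matrix]
    have := hli.span_eq_top_of_card_eq_finrank (by rw [hfr]; rfl)
    intro X
    rw [this]
    trivial
  -- difference
  rw [← sub_eq_zero]
  apply eq_zero_of_trace
  intro X
  have hX := hspan X
  induction hX using Submodule.span_induction with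
  | mem x hx =>
    obtain ⟨k, rfl⟩ := hx
    fin_cases k
    · simp [Matrix.trace_sub, ti, tj, tij]
    · simp [Matrix.trace_sub, Matrix.sub_mul, Matrix.add_mul, hi, hji, m2, ti, tj, tij]
      field_simp
      ring
    · simp [Matrix.trace_sub, Matrix.sub_mul, Matrix.add_mul, hj, m3, ti, tj, tij]
      field_simp
      ring
    · simp only [Fin.reduceFinMk, Matrix.cons_val]
      simp [Matrix.trace_sub, Matrix.sub_mul, Matrix.add_mul, m1, m4, m5, ti, tj, tij]
      field_simp
      ring
  | zero => simp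
  | add x y _ _ hx hy => rw [Matrix.mul_add, Matrix.trace_add, hx, hy, add_zero]
  | smul c x _ hx => rw [Matrix.mul_smul, Matrix.trace_smul, hx, smul_zero]

end Quat

open Quat in
theorem stQuat (hD : StBasis.{u}) : StQuat.{u} := by
  intro G _ ρ χ hirr hdet htr
  obtain ⟨g, h, hli⟩ := hD G ρ hirr
  have hAB : (ρ (g * h)).val = (ρ g).val * (ρ h).val := by simp
  rw [hAB] at hli
  set A : M2 := (ρ g).val with hA
  set B : M2 := (ρ h).val with hB
  -- the rational algebra generated by the image
  let M0 : Submonoid M2 := MonoidHom.mrange ((Units.coeHom M2).comp ρ)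
  have hM0 : ∀ k, (ρ k).val ∈ M0 := fun k => ⟨k, rfl⟩
  let 𝒜 : Subalgebra ℚ M2 := Algebra.adjoin ℚ (M0 : Set M2)
  have hmem : ∀ k, (ρ k).val ∈ 𝒜 := fun k => Algebra.subset_adjoin (hM0 k)
  have hrat : ∀ X ∈ 𝒜, ∃ q : ℚ, X.trace = (q : ℂ) := by
    intro X hX
    have hX' : X ∈ Submodule.span ℚ (M0 : Set M2) := by
      have h1 := Algebra.adjoin_eq_span ℚ (M0 : Set M2)
      rw [Submonoid.closure_eq] at h1
      rw [← h1]
      exact hX
    induction hX' using Submodule.span_induction with
    | mem x hx =>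
      obtain ⟨k, rfl⟩ := hx
      exact ⟨χ k, htr k⟩
    | zero => exact ⟨0, by simp⟩
    | add x y hx hy ihx ihy =>
      obtain ⟨q, hq⟩ := ihx (by
        have h1 := Algebra.adjoin_eq_span ℚ (M0 : Set M2)
        rw [Submonoid.closure_eq] at h1
        rw [← h1] at hx
        exact hx)
      obtain ⟨r, hr⟩ := ihy (by
        have h1 := Algebra.adjoin_eq_span ℚ (M0 : Set M2)
        rw [Submonoid.closure_eq] at h1
        rw [← h1] at hy
        exact hy)
      exact ⟨q + r, by rw [Matrix.trace_add, hq, hr]; push_cast; rfl⟩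
    | smul c x hx ihx =>
      obtain ⟨q, hq⟩ := ihx (by
        have h1 := Algebra.adjoin_eq_span ℚ (M0 : Set M2)
        rw [Submonoid.closure_eq] at h1
        rw [← h1] at hx
        exact hx)
      exact ⟨c * q, by
        rw [Matrix.trace_smul, hq, Rat.smul_def]; push_cast; rfl⟩
  have hsm : ∀ (q : ℚ) (X : M2), X ∈ 𝒜 → ((q : ℚ) : ℂ) • X ∈ 𝒜 := by
    intro q X hX
    have h1 : ((q : ℚ) : ℂ) • X = q • X := by
      ext i j
      simp [Rat.smul_def]
    rw [h1]
    exact 𝒜.smul_mem hX q
  have hAm : A ∈ 𝒜 := hmem g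
  have hBm : B ∈ 𝒜 := hmem h
  have hspan : ∀ X : M2, X ∈ Submodule.span ℂ (Set.range (![(1 : M2), A, B, A * B])) := by
    have hfr : Module.finrank ℂ M2 = 4 := by simp [M2, Module.finrank_matrix]
    have := hli.span_eq_top_of_card_eq_finrank (by rw [hfr]; rfl)
    intro X
    rw [this]
    trivial
  have hx : A.trace = ((χ g : ℚ) : ℂ) := htr g
  have hy : B.trace = ((χ h : ℚ) : ℂ) := htr h
  set A' : M2 := A - (((χ g / 2 : ℚ)) : ℂ) • (1 : M2) with hA'
  set B' : M2 := B - (((χ h / 2 : ℚ)) : ℂ) • (1 : M2) with hB'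
  have hA'm : A' ∈ 𝒜 := 𝒜.sub_mem hAm (hsm _ _ 𝒜.one_mem)
  have hB'm : B' ∈ 𝒜 := 𝒜.sub_mem hBm (hsm _ _ 𝒜.one_mem)
  have tA' : A'.trace = 0 := by
    rw [hA', Matrix.trace_sub, Matrix.trace_smul, hx, Matrix.trace_one]
    simp
  have tB' : B'.trace = 0 := by
    rw [hB', Matrix.trace_sub, Matrix.trace_smul, hy, Matrix.trace_one]
    simp
  obtain ⟨k, hk⟩ := hrat (A' * A') (𝒜.mul_mem hA'm hA'm)
  obtain ⟨l, hl⟩ := hrat (B' * B') (𝒜.mul_mem hB'm hB'm)
  obtain ⟨m, hm⟩ := hrat (A' * B') (𝒜.mul_mem hA'm hB'm)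
  set j : M2 := A' * B' - B' * A' with hj
  have hjm : j ∈ 𝒜 := 𝒜.sub_mem (𝒜.mul_mem hA'm hB'm) (𝒜.mul_mem hB'm hA'm)
  have hjj : j * j = (((m ^ 2 - k * l : ℚ)) : ℂ) • (1 : M2) := by
    rw [hj, jsq tA' tB', hm, hk, hl]
    push_cast
    rfl
  have hAj : A' * j = -(j * A') := by rw [hj]; exact janti tA' tB'
  have hBj : B' * j = -(j * B') := by
    have h1 := janti tB' tA'
    have h2 : B' * A' - A' * B' = -j := by rw [hj]; abel
    rw [h2] at h1
    rw [Matrix.mul_neg, Matrix.neg_mul, neg_neg] at h1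
    rw [← h1, neg_neg]
  -- nondegeneracy
  have hnd : ∀ s t : ℂ, s * (k : ℂ) + t * (m : ℂ) = 0 → s * (m : ℂ) + t * (l : ℂ) = 0 →
      s = 0 ∧ t = 0 := by
    intro s t h1 h2
    set i' : M2 := s • A' + t • B' with hi'
    have e0 : (i' * 1).trace = 0 := by
      rw [Matrix.mul_one, hi', Matrix.trace_add, Matrix.trace_smul, Matrix.trace_smul, tA', tB']
      simp
    have hBA : (B' * A').trace = (m : ℂ) := by rw [Matrix.trace_mul_comm, hm]
    have e1' : (i' * A').trace = 0 := by
      rw [hi', Matrix.add_mul, Matrix.smul_mul, Matrix.smul_mul, Matrix.trace_add,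
        Matrix.trace_smul, Matrix.trace_smul, hk, hBA]
      simpa using h1
    have e2' : (i' * B').trace = 0 := by
      rw [hi', Matrix.add_mul, Matrix.smul_mul, Matrix.smul_mul, Matrix.trace_add,
        Matrix.trace_smul, Matrix.trace_smul, hm, hl]
      simpa using h2
    have e3' : (i' * (A' * B')).trace = 0 := by
      have q1 : (A' * (A' * B')).trace = 0 := by
        rw [← Matrix.mul_assoc, sq tA', Matrix.smul_mul, Matrix.one_mul, Matrix.trace_smul, tB']
        simp
      have q2 : (B' * (A' * B')).trace = 0 := by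
        rw [Matrix.trace_mul_comm, Matrix.mul_assoc, sq tB', Matrix.mul_smul, Matrix.mul_one,
          Matrix.trace_smul, tA']
        simp
      rw [hi', Matrix.add_mul, Matrix.smul_mul, Matrix.smul_mul, Matrix.trace_add,
        Matrix.trace_smul, Matrix.trace_smul, q1, q2]
      simp
    have hAe : A = A' + (((χ g / 2 : ℚ)) : ℂ) • (1 : M2) := by rw [hA']; abel
    have hBe : B = B' + (((χ h / 2 : ℚ)) : ℂ) • (1 : M2) := by rw [hB']; abel
    have e0' : i'.trace = 0 := by simpa using e0
    have e1 : (i' * A).trace = 0 := by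
      rw [hAe, Matrix.mul_add, Matrix.trace_add, e1', Matrix.mul_smul, Matrix.mul_one,
        Matrix.trace_smul, e0']
      simp
    have e2 : (i' * B).trace = 0 := by
      rw [hBe, Matrix.mul_add, Matrix.trace_add, e2', Matrix.mul_smul, Matrix.mul_one,
        Matrix.trace_smul, e0']
      simp
    have e3 : (i' * (A * B)).trace = 0 := by
      rw [hAe, hBe]
      simp only [Matrix.mul_add, Matrix.add_mul, Matrix.mul_smul, Matrix.smul_mul, Matrix.mul_one,
        Matrix.one_mul, Matrix.trace_add, Matrix.trace_smul, e3', e1', e2', e0']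
      simp
    have hz : i' = 0 := by
      apply eq_zero_of_trace
      intro C
      have hC := hspan C
      induction hC using Submodule.span_induction with
      | mem x hx =>
        obtain ⟨n, rfl⟩ := hx
        fin_cases n
        · exact e0
        · exact e1
        · exact e2
        · exact e3
      | zero => simp
      | add x y _ _ hx hy => rw [Matrix.mul_add, Matrix.trace_add, hx, hy, add_zero]
      | smul c x _ hx => rw [Matrix.mul_smul, Matrix.trace_smul, hx, smul_zero]
    rw [Fintype.linearIndependent_iff] at hli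
    have h3 := hli ![-(s * ((χ g / 2 : ℚ) : ℂ) + t * ((χ h / 2 : ℚ) : ℂ)), s, t, 0] (by
      simp only [Fin.sum_univ_four, Matrix.cons_val_zero, Matrix.cons_val_one, Matrix.cons_val]
      rw [← hz, hi', hA', hB']
      ext a b
      simp
      ring)
    exact ⟨by simpa using h3 1, by simpa using h3 2⟩
  have hb : m ^ 2 - k * l ≠ 0 := by
    intro hb
    have hb' : (m : ℂ) ^ 2 - (k : ℂ) * (l : ℂ) = 0 := by exact_mod_cast hb
    have h1 := hnd (m : ℂ) (-(k : ℂ)) (by ring) (by linear_combination hb')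
    have hm0 : (m : ℂ) = 0 := h1.1
    have hk0 : (k : ℂ) = 0 := by simpa using h1.2
    have h2 := hnd 1 0 (by rw [hk0]; ring) (by rw [hm0]; ring)
    exact one_ne_zero h2.1
  -- choice of `i`
  obtain ⟨i, a, him, ti, ha, hii, hij⟩ : ∃ (i : M2) (a : ℚ), i ∈ 𝒜 ∧ i.trace = 0 ∧ a ≠ 0 ∧
      i * i = ((a : ℚ) : ℂ) • (1 : M2) ∧ i * j = -(j * i) := by
    by_cases hk0 : k = 0
    · by_cases hl0 : l = 0
      · have hm0 : m ≠ 0 := by
          intro hm0
          apply hb
          rw [hm0, hk0]; ring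
        have tS : (A' + B').trace = 0 := by rw [Matrix.trace_add, tA', tB', add_zero]
        refine ⟨A' + B', m, 𝒜.add_mem hA'm hB'm, tS, hm0, ?_, ?_⟩
        · rw [sq tS]
          congr 1
          rw [Matrix.add_mul, Matrix.mul_add, Matrix.mul_add, Matrix.trace_add, Matrix.trace_add,
            Matrix.trace_add, hk, hl, hm, Matrix.trace_mul_comm B' A', hm, hk0, hl0]
          push_cast
          ring
        · rw [Matrix.add_mul, Matrix.mul_add, hAj, hBj]
          abel
      · refine ⟨B', l / 2, hB'm, tB', div_ne_zero hl0 two_ne_zero, ?_, hBj⟩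
        rw [sq tB', hl]
        push_cast
        rfl
    · refine ⟨A', k / 2, hA'm, tA', div_ne_zero hk0 two_ne_zero, ?_, hAj⟩
      rw [sq tA', hk]
      push_cast
      rfl
  refine ⟨a, m ^ 2 - k * l, i, j, ha, hb, hii, hjj, hij, ?_⟩
  intro g'
  have hCm := hmem g'
  obtain ⟨q0, h0⟩ := hrat _ hCm
  obtain ⟨q1, h1⟩ := hrat _ (𝒜.mul_mem hCm him)
  obtain ⟨q2, h2⟩ := hrat _ (𝒜.mul_mem hCm hjm)
  obtain ⟨q3, h3⟩ := hrat _ (𝒜.mul_mem hCm (𝒜.mul_mem him hjm))
  have hac : ((a : ℚ) : ℂ) ≠ 0 := by exact_mod_cast ha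
  have hbc : (((m ^ 2 - k * l : ℚ)) : ℂ) ≠ 0 := by exact_mod_cast hb
  refine ⟨![q0 / 2, q1 / (2 * a), q2 / (2 * (m ^ 2 - k * l)),
    -(q3 / (2 * a * (m ^ 2 - k * l)))], ?_⟩
  have := coord hac hbc hii hjj hij (ρ g').val
  rw [h0, h1, h2, h3] at this
  rw [this]
  simp only [Matrix.cons_val_zero, Matrix.cons_val_one, Matrix.cons_val]
  push_cast
  rfl

end Pool.Agent.Lib.MP_c356f3_al
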