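import Pool.Agent.Lib.MP_c356f3_al.Stmts

/-!
Springer's property (U), module O: conjugate homomorphisms to `SL(2,ℚ)` are surjective together.
-/

namespace Pool.Agent.Lib.MP_c356f3_al

open Matrix

universe u

theorem stQuot : StQuot.{u} := by
  intro G _ f φ P hP hf
  -- a nonzero entry of `P`
  have hPne : ∃ a b, P.val a b ≠ 0 := by
    by_contra hcon
    push Not at hcon
    have h0 : P.val = 0 := by
      ext a b
      exact hcon a b
    have h1 : P.val * (P⁻¹).val = 1 := by
      rw [← Units.val_mul, mul_inv_cancel, Units.val_one]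
    rw [h0, zero_mul] at h1
    have h2 := congrFun (congrFun h1 0) 0
    simp at h2
  obtain ⟨a, b, hab⟩ := hPne
  obtain ⟨lam, hlam⟩ : ∃ lam : Module.Dual ℚ ℂ, lam (P.val a b) ≠ 0 := by
    by_contra hcon
    push Not at hcon
    exact hab ((Module.forall_dual_apply_eq_zero_iff ℚ (P.val a b)).1 hcon)
  set X : Matrix (Fin 2) (Fin 2) ℚ := fun i j => lam (P.val i j) with hX
  have hXn : X a b ≠ 0 := hlam
  -- the rational intertwining relation
  have hint : ∀ g, (f g).val * X = X * (φ g).val := by
    intro g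
    have h := hP g
    ext i j
    have hij := congrArg lam (congrFun (congrFun h i) j)
    rw [Matrix.mul_apply, Matrix.mul_apply, map_sum, map_sum] at hij
    rw [Matrix.mul_apply, Matrix.mul_apply]
    have e1 : ∀ k, lam ((((f g).val.map (algebraMap ℚ ℂ)) i k) * P.val k j) =
        (f g).val i k * X k j := by
      intro k
      rw [Matrix.map_apply, ← Algebra.smul_def, map_smul, smul_eq_mul]
    have e2 : ∀ k, lam (P.val i k * (((φ g).val.map (algebraMap ℚ ℂ)) k j)) =
        X i k * (φ g).val k j := by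
      intro k
      rw [Matrix.map_apply, mul_comm, ← Algebra.smul_def, map_smul, smul_eq_mul, mul_comm]
    rw [Finset.sum_congr rfl fun k _ => e1 k, Finset.sum_congr rfl fun k _ => e2 k] at hij
    exact hij
  -- `X` is invertible
  have hdet : X.det ≠ 0 := by
    intro hd
    obtain ⟨v, hv, hvX⟩ := Matrix.exists_vecMul_eq_zero_iff.2 hd
    have key : ∀ M : SpecialLinearGroup (Fin 2) ℚ, (v ᵥ* M.val) ᵥ* X = 0 := by
      intro M
      obtain ⟨g, hg⟩ := hf M
      rw [← hg, Matrix.vecMul_vecMul, hint g, ← Matrix.vecMul_vecMul, hvX, Matrix.zero_vecMul]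
    have k0 := hvX
    have k1 := key ⟨!![1, 1; 0, 1], by simp [Matrix.det_fin_two]⟩
    have k2 := key ⟨!![1, 0; 1, 1], by simp [Matrix.det_fin_two]⟩
    have k3 := key ⟨!![0, 1; -1, 0], by simp [Matrix.det_fin_two]⟩
    have k4 := key ⟨!![1, 1; -1, 0], by simp [Matrix.det_fin_two]⟩
    have k5 := key ⟨!![0, 1; -1, 1], by simp [Matrix.det_fin_two]⟩
    apply hXn
    have hb : ∀ c : Fin 2, ∀ r : Fin 2, X r c = 0 := by
      intro c
      have a0 := congrFun k0 c
      have a1 := congrFun k1 c
      have a2 := congrFun k2 c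
      have a3 := congrFun k3 c
      have a4 := congrFun k4 c
      have a5 := congrFun k5 c
      simp [Matrix.vecMul, dotProduct, Fin.sum_univ_two] at a0 a1 a2 a3 a4 a5
      have hv' : v 0 ≠ 0 ∨ v 1 ≠ 0 := by
        by_contra hcon
        push Not at hcon
        apply hv
        ext i
        fin_cases i
        · exact hcon.1
        · exact hcon.2
      have c1 : v 0 * X 1 c = 0 := by linarith
      have c2 : v 1 * X 0 c = 0 := by linarith
      have c3 : v 0 * X 0 c = 0 := by linarith
      have c4 : v 1 * X 1 c = 0 := by linarith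
      intro r
      rcases hv' with h | h
      · fin_cases r
        · exact (mul_eq_zero.1 c3).resolve_left h
        · exact (mul_eq_zero.1 c1).resolve_left h
      · fin_cases r
        · exact (mul_eq_zero.1 c2).resolve_left h
        · exact (mul_eq_zero.1 c4).resolve_left h
    exact hb b a
  have hu : IsUnit X.det := isUnit_iff_ne_zero.2 hdet
  intro M
  have hdetN : (X * M.val * X⁻¹).det = 1 := by
    rw [Matrix.det_mul, Matrix.det_mul, M.2, mul_one, ← Matrix.det_mul,
      Matrix.mul_nonsing_inv _ hu, Matrix.det_one]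
  obtain ⟨g, hg⟩ := hf ⟨X * M.val * X⁻¹, hdetN⟩
  refine ⟨g, ?_⟩
  have h1 := hint g
  rw [hg] at h1
  change X * M.val * X⁻¹ * X = X * (φ g).val at h1
  rw [Matrix.mul_assoc, Matrix.nonsing_inv_mul _ hu, Matrix.mul_one] at h1
  have h2 : X⁻¹ * (X * M.val) = X⁻¹ * (X * (φ g).val) := by rw [h1]
  rw [← Matrix.mul_assoc, ← Matrix.mul_assoc, Matrix.nonsing_inv_mul _ hu, Matrix.one_mul,
    Matrix.one_mul] at h2
  exact Subtype.ext h2.symm

end Pool.Agent.Lib.MP_c356f3_al
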