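import Pool.Agent.Lib.MP_c356f3_al.Stmts

/-!
Springer's property (U), module I: if the quaternion algebra is split then the representation is
conjugate to a rational one.
-/

namespace Pool.Agent.Lib.MP_c356f3_al

open Matrix

universe u

/-- two anticommuting matrices with nonzero scalar squares have no common eigenvector -/
theorem no_common {a b : ℂ} (ha : a ≠ 0) (hb : b ≠ 0) {i j : Matrix (Fin 2) (Fin 2) ℂ}
    (hi : i * i = a • (1 : Matrix (Fin 2) (Fin 2) ℂ))
    (hj : j * j = b • (1 : Matrix (Fin 2) (Fin 2) ℂ)) (hij : i * j = -(j * i))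
    {v : Fin 2 → ℂ} (hv : v ≠ 0) {lam mu : ℂ} (h1 : i *ᵥ v = lam • v) (h2 : j *ᵥ v = mu • v) :
    False := by
  have hcan : ∀ c : ℂ, c • v = 0 → c = 0 := fun c hc => (smul_eq_zero.mp hc).resolve_right hv
  have e1 : lam * lam = a := by
    have h3 : (i * i) *ᵥ v = (lam * lam) • v := by
      rw [← mulVec_mulVec, h1, mulVec_smul, h1, smul_smul]
    rw [hi, smul_mulVec, one_mulVec] at h3
    have h4 := hcan (lam * lam - a) (by rw [sub_smul, ← h3, sub_self])
    exact sub_eq_zero.mp h4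
  have e2 : mu * mu = b := by
    have h3 : (j * j) *ᵥ v = (mu * mu) • v := by
      rw [← mulVec_mulVec, h2, mulVec_smul, h2, smul_smul]
    rw [hj, smul_mulVec, one_mulVec] at h3
    have h4 := hcan (mu * mu - b) (by rw [sub_smul, ← h3, sub_self])
    exact sub_eq_zero.mp h4
  have e3 : (2 : ℂ) * (lam * mu) = 0 := by
    have h3 : (i * j) *ᵥ v = (lam * mu) • v := by
      rw [← mulVec_mulVec, h2, mulVec_smul, h1, smul_smul, mul_comm]
    have h4 : (i * j) *ᵥ v = -((lam * mu) • v) := by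
      rw [hij, neg_mulVec, ← mulVec_mulVec, h1, mulVec_smul, h2, smul_smul]
    refine hcan _ ?_
    rw [two_mul, add_smul]
    nth_rewrite 1 [← h3]
    rw [h4, neg_add_cancel]
  have e4 : lam * mu = 0 := by
    rcases mul_eq_zero.mp e3 with h | h
    · norm_num at h
    · exact h
  rcases mul_eq_zero.mp e4 with h | h
  · rw [h, zero_mul] at e1
    exact ha e1.symm
  · rw [h, zero_mul] at e2
    exact hb e2.symm

/-- rationality in the basis given by the columns of `P` -/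
def RatIn (P C : Matrix (Fin 2) (Fin 2) ℂ) : Prop :=
  ∃ M : Matrix (Fin 2) (Fin 2) ℚ, C * P = P * M.map (algebraMap ℚ ℂ)

theorem RatIn.one (P : Matrix (Fin 2) (Fin 2) ℂ) : RatIn P 1 :=
  ⟨1, by rw [one_mul, Matrix.map_one _ (map_zero _) (map_one _), mul_one]⟩

theorem RatIn.add {P C D : Matrix (Fin 2) (Fin 2) ℂ} (hC : RatIn P C) (hD : RatIn P D) :
    RatIn P (C + D) := by
  obtain ⟨M, hM⟩ := hC
  obtain ⟨L, hL⟩ := hD
  refine ⟨M + L, ?_⟩
  rw [Matrix.map_add _ (map_add (algebraMap ℚ ℂ)), add_mul, mul_add, hM, hL]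

theorem RatIn.smul {P C : Matrix (Fin 2) (Fin 2) ℂ} (hC : RatIn P C) (q : ℚ) :
    RatIn P (((q : ℚ) : ℂ) • C) := by
  obtain ⟨M, hM⟩ := hC
  refine ⟨q • M, ?_⟩
  have h1 : (q • M).map (algebraMap ℚ ℂ) = ((q : ℚ) : ℂ) • M.map (algebraMap ℚ ℂ) := by
    ext r c
    simp
  rw [h1, smul_mul_assoc, hM, mul_smul_comm]

theorem RatIn.mul {P C D : Matrix (Fin 2) (Fin 2) ℂ} (hC : RatIn P C) (hD : RatIn P D) :
    RatIn P (C * D) := by
  obtain ⟨M, hM⟩ := hC
  obtain ⟨L, hL⟩ := hD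
  refine ⟨M * L, ?_⟩
  rw [Matrix.map_mul, mul_assoc, hL, ← mul_assoc, hM, mul_assoc]

/-- the matrix with the columns `v`, `w` -/
def cols (v w : Fin 2 → ℂ) : Matrix (Fin 2) (Fin 2) ℂ := !![v 0, w 0; v 1, w 1]

theorem ratIn_cols {C : Matrix (Fin 2) (Fin 2) ℂ} {v w : Fin 2 → ℂ} (p q r s : ℚ)
    (h1 : C *ᵥ v = ((p : ℚ) : ℂ) • v + ((q : ℚ) : ℂ) • w)
    (h2 : C *ᵥ w = ((r : ℚ) : ℂ) • v + ((s : ℚ) : ℂ) • w) : RatIn (cols v w) C := by
  refine ⟨!![p, r; q, s], ?_⟩
  have a0 := congrFun h1 0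
  have a1 := congrFun h1 1
  have b0 := congrFun h2 0
  have b1 := congrFun h2 1
  simp only [mulVec, dotProduct, Fin.sum_univ_two, Pi.add_apply, Pi.smul_apply, smul_eq_mul]
    at a0 a1 b0 b1
  ext m n
  fin_cases m <;> fin_cases n
  · simp [cols, Matrix.mul_apply, Fin.sum_univ_two]
    linear_combination a0
  · simp [cols, Matrix.mul_apply, Fin.sum_univ_two]
    linear_combination b0
  · simp [cols, Matrix.mul_apply, Fin.sum_univ_two]
    linear_combination a1
  · simp [cols, Matrix.mul_apply, Fin.sum_univ_two]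
    linear_combination b1

theorem cols_det {v w : Fin 2 → ℂ} (hv : v ≠ 0) (hne : ∀ c : ℂ, w ≠ c • v) :
    (cols v w).det ≠ 0 := by
  intro h0
  simp only [cols, Matrix.det_fin_two_of] at h0
  by_cases h : v 0 = 0
  · have h1 : v 1 ≠ 0 := by
      intro h1
      apply hv
      ext m
      fin_cases m
      · exact h
      · exact h1
    have h2 : w 0 = 0 := by
      rw [h, zero_mul, zero_sub, neg_eq_zero, mul_eq_zero] at h0
      exact h0.resolve_right h1
    refine hne (w 1 / v 1) ?_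
    ext m
    fin_cases m
    · simp [h, h2]
    · simp [h1]
  · refine hne (w 0 / v 0) ?_
    ext m
    fin_cases m
    · simp [h]
    · simp only [Fin.mk_one, Pi.smul_apply, smul_eq_mul]
      field_simp
      linear_combination h0

/-- a matrix with square `z ^ 2` which is not the scalar `-z` has the eigenvalue `z` -/
theorem exists_eig {K : Matrix (Fin 2) (Fin 2) ℂ} {z : ℂ}
    (hK : K * K = (z * z) • (1 : Matrix (Fin 2) (Fin 2) ℂ))
    (hne : K ≠ -(z • (1 : Matrix (Fin 2) (Fin 2) ℂ))) :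
    ∃ v : Fin 2 → ℂ, v ≠ 0 ∧ K *ᵥ v = z • v := by
  have hdet : (K - z • (1 : Matrix (Fin 2) (Fin 2) ℂ)).det = 0 := by
    by_contra h
    apply hne
    have hu : IsUnit (K - z • (1 : Matrix (Fin 2) (Fin 2) ℂ)) :=
      (Matrix.isUnit_iff_isUnit_det _).mpr (isUnit_iff_ne_zero.mpr h)
    have h1 : (K - z • (1 : Matrix (Fin 2) (Fin 2) ℂ)) *
        (K + z • (1 : Matrix (Fin 2) (Fin 2) ℂ)) = 0 := by
      rw [sub_mul, mul_add, mul_add, hK, smul_mul_assoc, one_mul, mul_smul_comm, mul_one,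
        smul_mul_assoc, one_mul, smul_smul]
      abel
    have h2 := hu.mul_right_eq_zero.mp h1
    exact eq_neg_of_add_eq_zero_left h2
  obtain ⟨v, hv, hv0⟩ := Matrix.exists_mulVec_eq_zero_iff.mpr hdet
  refine ⟨v, hv, ?_⟩
  rw [sub_mulVec, smul_mulVec, one_mulVec] at hv0
  exact sub_eq_zero.mp hv0

theorem stSplit : StSplit.{u} := by
  intro G _ ρ a b i j hQ hsol
  obtain ⟨ha, hb, hi, hj, hij, hco⟩ := hQ
  obtain ⟨x, y, z, hne, hxyz⟩ := hsol
  have haC : ((a : ℚ) : ℂ) ≠ 0 := by exact_mod_cast ha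
  have hbC : ((b : ℚ) : ℂ) ≠ 0 := by exact_mod_cast hb
  -- a rational frame suffices
  suffices hmain : ∃ v w : Fin 2 → ℂ, (cols v w).det ≠ 0 ∧ RatIn (cols v w) i ∧
      RatIn (cols v w) j by
    obtain ⟨v, w, hdet, hri, hrj⟩ := hmain
    set P : GL (Fin 2) ℂ := Matrix.GeneralLinearGroup.mkOfDetNeZero (cols v w) hdet with hP
    have hPv : P.val = cols v w := rfl
    refine ⟨P, fun g => ?_⟩
    obtain ⟨c, hc⟩ := hco g
    have hr : RatIn (cols v w) (ρ g).val := by
      rw [hc]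
      exact ((((RatIn.one _).smul _).add (hri.smul _)).add (hrj.smul _)).add
        ((hri.mul hrj).smul _)
    obtain ⟨M, hM⟩ := hr
    refine ⟨M, ?_⟩
    have h1 : (P⁻¹ * ρ g * P).val = (P⁻¹).val * ((ρ g).val * P.val) := by
      rw [Units.val_mul, Units.val_mul, mul_assoc]
    rw [h1, hPv, hM, ← hPv, ← mul_assoc]
    have h2 : (P⁻¹).val * P.val = 1 := by
      rw [← Units.val_mul, inv_mul_cancel, Units.val_one]
    rw [h2, one_mul]
  have hnc : ∀ {v : Fin 2 → ℂ}, v ≠ 0 → ∀ {lam mu : ℂ}, i *ᵥ v = lam • v → j *ᵥ v = mu • v →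
      False := fun hv _ _ h1 h2 => no_common haC hbC hi hj hij hv h1 h2
  have hji : ∀ v : Fin 2 → ℂ, j *ᵥ (i *ᵥ v) = -(i *ᵥ (j *ᵥ v)) := by
    intro v
    rw [mulVec_mulVec, mulVec_mulVec, hij, neg_mulVec, neg_neg]
  have hii : ∀ v : Fin 2 → ℂ, i *ᵥ (i *ᵥ v) = ((a : ℚ) : ℂ) • v := by
    intro v
    rw [mulVec_mulVec, hi, smul_mulVec, one_mulVec]
  have hjj : ∀ v : Fin 2 → ℂ, j *ᵥ (j *ᵥ v) = ((b : ℚ) : ℂ) • v := by
    intro v
    rw [mulVec_mulVec, hj, smul_mulVec, one_mulVec]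
  have hcomm : i * j ≠ j * i := by
    intro h
    rw [h] at hij
    have h1 : (2 : ℂ) • (j * i) = 0 := by
      rw [two_smul]
      nth_rewrite 1 [hij]
      exact neg_add_cancel _
    have h2 : j * i = 0 := (smul_eq_zero.mp h1).resolve_left (by norm_num)
    have h3 : j * i * i = (((a : ℚ) : ℂ)) • j := by
      rw [mul_assoc, hi, mul_smul_comm, mul_one]
    rw [h2, zero_mul] at h3
    have h4 : j = 0 := (smul_eq_zero.mp h3.symm).resolve_left haC
    rw [h4, mul_zero] at hj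
    have h5 := (smul_eq_zero.mp hj.symm).resolve_left hbC
    exact one_ne_zero h5
  by_cases hy : y = 0
  · -- `a` is a square
    have hx : x ≠ 0 := by
      rintro rfl
      rw [hy] at hxyz hne
      have hz : z = 0 := by
        have : z ^ 2 = 0 := by rw [← hxyz]; ring
        exact pow_eq_zero_iff (two_ne_zero) |>.mp this
      rcases hne with h | h | h
      · exact h rfl
      · exact h rfl
      · exact h hz
    set c : ℚ := z / x with hc
    have hc2 : c * c = a := by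
      rw [hc]
      field_simp
      rw [hy] at hxyz
      linear_combination -hxyz
    have hc2C : ((c : ℚ) : ℂ) * ((c : ℚ) : ℂ) = ((a : ℚ) : ℂ) := by exact_mod_cast hc2
    obtain ⟨v, hv, hiv⟩ := exists_eig (K := i) (z := ((c : ℚ) : ℂ)) (by rw [hi, hc2C]) (by
      intro h
      apply hcomm
      rw [h]
      simp)
    refine ⟨v, j *ᵥ v, cols_det hv fun mu h => hnc hv hiv h, ?_, ?_⟩
    · refine ratIn_cols c 0 0 (-c) ?_ ?_
      · rw [hiv]
        simp
      · have h1 := hji v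
        rw [hiv, mulVec_smul] at h1
        have h2 : i *ᵥ (j *ᵥ v) = -(((c : ℚ) : ℂ) • (j *ᵥ v)) := by
          rw [h1, neg_neg]
        rw [h2]
        simp
    · refine ratIn_cols 0 1 b 0 ?_ ?_
      · simp
      · rw [hjj]
        simp
  · have hyC : ((y : ℚ) : ℂ) ≠ 0 := by exact_mod_cast hy
    set K : Matrix (Fin 2) (Fin 2) ℂ := ((x : ℚ) : ℂ) • i + ((y : ℚ) : ℂ) • j with hK
    have hxyzC : ((a : ℚ) : ℂ) * ((x : ℚ) : ℂ) ^ 2 + ((b : ℚ) : ℂ) * ((y : ℚ) : ℂ) ^ 2 =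
        ((z : ℚ) : ℂ) ^ 2 := by exact_mod_cast hxyz
    have hKK : K * K = (((z : ℚ) : ℂ) * ((z : ℚ) : ℂ)) • (1 : Matrix (Fin 2) (Fin 2) ℂ) := by
      have h1 : K * K = (((x : ℚ) : ℂ) * ((x : ℚ) : ℂ)) • (i * i) +
          (((y : ℚ) : ℂ) * ((y : ℚ) : ℂ)) • (j * j) +
          (((x : ℚ) : ℂ) * ((y : ℚ) : ℂ)) • (i * j + j * i) := by
        rw [hK]
        simp only [add_mul, mul_add, smul_mul_assoc, mul_smul_comm, smul_smul, smul_add]
        rw [mul_comm ((y : ℚ) : ℂ) ((x : ℚ) : ℂ)]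
        abel
      rw [h1, hi, hj, hij, neg_add_cancel, smul_zero, add_zero, smul_smul, smul_smul, ← add_smul]
      congr 1
      linear_combination hxyzC
    obtain ⟨v, hv, hKv⟩ := exists_eig hKK (by
      intro h
      apply hcomm
      have h1 : i * K = K * i := by
        rw [h]
        simp
      rw [hK, mul_add, add_mul, mul_smul_comm, mul_smul_comm, smul_mul_assoc, smul_mul_assoc,
        add_right_inj] at h1
      exact smul_right_injective _ hyC h1)
    have hjv : j *ᵥ v = (((z / y : ℚ) : ℚ) : ℂ) • v + (((-x / y : ℚ) : ℚ) : ℂ) • (i *ᵥ v) := by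
      rw [hK, add_mulVec, smul_mulVec, smul_mulVec] at hKv
      have h1 : ((y : ℚ) : ℂ) • (j *ᵥ v) = ((z : ℚ) : ℂ) • v - ((x : ℚ) : ℂ) • (i *ᵥ v) := by
        rw [← hKv]
        abel
      have h2 : j *ᵥ v = (((y : ℚ) : ℂ)⁻¹) • (((y : ℚ) : ℂ) • (j *ᵥ v)) := by
        rw [smul_smul, inv_mul_cancel₀ hyC, one_smul]
      rw [h2, h1, smul_sub, smul_smul, smul_smul]
      ext m
      simp only [Pi.sub_apply, Pi.add_apply, Pi.smul_apply, smul_eq_mul]
      push_cast
      field_simp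
      ring
    refine ⟨v, i *ᵥ v, cols_det hv fun lam h => ?_, ?_, ?_⟩
    · refine hnc hv h (mu := (((z / y : ℚ) : ℚ) : ℂ) + (((-x / y : ℚ) : ℚ) : ℂ) * lam) ?_
      rw [hjv, h, smul_smul, ← add_smul]
    · refine ratIn_cols 0 1 a 0 ?_ ?_
      · simp
      · rw [hii]
        simp
    · refine ratIn_cols (z / y) (-x / y) (a * x / y) (-z / y) hjv ?_
      rw [hji, hjv, mulVec_add, mulVec_smul, mulVec_smul, hii]
      ext m
      simp only [Pi.add_apply, Pi.smul_apply, Pi.neg_apply, smul_eq_mul]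
      push_cast
      field_simp
      ring

end Pool.Agent.Lib.MP_c356f3_al
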