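import Pool.Agent.Lib.MP_c356f3_al.Stmts

/-!
Springer's property (U): a subgroup of `SL(2,ℚ)` which is unbounded at every prime and contains a
subgroup of finite index of `SL(2,ℤ)` is everything (N).
-/

namespace Pool.Agent.Lib.MP_c356f3_al

open Matrix

namespace SurjAux

abbrev SQ : Type := SpecialLinearGroup (Fin 2) ℚ
abbrev SZ : Type := SpecialLinearGroup (Fin 2) ℤ

/-- the inclusion of `SL(2,ℤ)` -/
def io : SZ →* SQ := SpecialLinearGroup.map (Int.castRingHom ℚ)

lemma io_apply (k : SZ) (i j : Fin 2) : (io k).val i j = ((k.val i j : ℤ) : ℚ) := rfl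

/-- upper unipotent -/
def uu (y : ℚ) : SQ := ⟨!![1, y; 0, 1], by simp [Matrix.det_fin_two_of]⟩
/-- lower unipotent -/
def vv (y : ℚ) : SQ := ⟨!![1, 0; y, 1], by simp [Matrix.det_fin_two_of]⟩
/-- upper unipotent -/
def uz (y : ℤ) : SZ := ⟨!![1, y; 0, 1], by simp [Matrix.det_fin_two_of]⟩
/-- lower unipotent -/
def vz (y : ℤ) : SZ := ⟨!![1, 0; y, 1], by simp [Matrix.det_fin_two_of]⟩

lemma sq_ext {g h : SQ} (h00 : g.val 0 0 = h.val 0 0) (h01 : g.val 0 1 = h.val 0 1)
    (h10 : g.val 1 0 = h.val 1 0) (h11 : g.val 1 1 = h.val 1 1) : g = h := by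
  apply Subtype.ext
  ext i j
  fin_cases i <;> fin_cases j
  · exact h00
  · exact h01
  · exact h10
  · exact h11

lemma sz_ext {g h : SZ} (h00 : g.val 0 0 = h.val 0 0) (h01 : g.val 0 1 = h.val 0 1)
    (h10 : g.val 1 0 = h.val 1 0) (h11 : g.val 1 1 = h.val 1 1) : g = h := by
  apply Subtype.ext
  ext i j
  fin_cases i <;> fin_cases j
  · exact h00
  · exact h01
  · exact h10
  · exact h11

lemma val_mul_q (g h : SQ) : (g * h).val = g.val * h.val := rfl

lemma mul_q (g h : SQ) (i j : Fin 2) :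
    (g * h).val i j = g.val i 0 * h.val 0 j + g.val i 1 * h.val 1 j := by
  rw [val_mul_q, Matrix.mul_apply, Fin.sum_univ_two]

lemma mul_z (g h : SZ) (i j : Fin 2) :
    (g * h).val i j = g.val i 0 * h.val 0 j + g.val i 1 * h.val 1 j := by
  have : (g * h).val = g.val * h.val := rfl
  rw [this, Matrix.mul_apply, Fin.sum_univ_two]

lemma det_q (g : SQ) : g.val 0 0 * g.val 1 1 - g.val 0 1 * g.val 1 0 = 1 := by
  have := g.property
  rwa [Matrix.det_fin_two] at this

lemma inv_q (g : SQ) : (g⁻¹).val = !![g.val 1 1, -g.val 0 1; -g.val 1 0, g.val 0 0] := by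
  have : (g⁻¹).val = Matrix.adjugate g.val := Matrix.SpecialLinearGroup.coe_inv g
  rw [this, Matrix.adjugate_fin_two]

@[simp] lemma uu00 (y : ℚ) : (uu y).val 0 0 = 1 := rfl
@[simp] lemma uu01 (y : ℚ) : (uu y).val 0 1 = y := rfl
@[simp] lemma uu10 (y : ℚ) : (uu y).val 1 0 = 0 := rfl
@[simp] lemma uu11 (y : ℚ) : (uu y).val 1 1 = 1 := rfl
@[simp] lemma vv00 (y : ℚ) : (vv y).val 0 0 = 1 := rfl
@[simp] lemma vv01 (y : ℚ) : (vv y).val 0 1 = 0 := rfl
@[simp] lemma vv10 (y : ℚ) : (vv y).val 1 0 = y := rfl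
@[simp] lemma vv11 (y : ℚ) : (vv y).val 1 1 = 1 := rfl
@[simp] lemma uz00 (y : ℤ) : (uz y).val 0 0 = 1 := rfl
@[simp] lemma uz01 (y : ℤ) : (uz y).val 0 1 = y := rfl
@[simp] lemma uz10 (y : ℤ) : (uz y).val 1 0 = 0 := rfl
@[simp] lemma uz11 (y : ℤ) : (uz y).val 1 1 = 1 := rfl
@[simp] lemma vz00 (y : ℤ) : (vz y).val 0 0 = 1 := rfl
@[simp] lemma vz01 (y : ℤ) : (vz y).val 0 1 = 0 := rfl
@[simp] lemma vz10 (y : ℤ) : (vz y).val 1 0 = y := rfl
@[simp] lemma vz11 (y : ℤ) : (vz y).val 1 1 = 1 := rfl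

lemma one_q00 : (1 : SQ).val 0 0 = 1 := rfl
lemma one_q01 : (1 : SQ).val 0 1 = 0 := rfl
lemma one_q10 : (1 : SQ).val 1 0 = 0 := rfl
lemma one_q11 : (1 : SQ).val 1 1 = 1 := rfl

lemma uu_add (x y : ℚ) : uu (x + y) = uu x * uu y := by
  apply sq_ext <;> rw [mul_q] <;> simp [add_comm]

lemma uu_zero : uu 0 = 1 := by
  apply sq_ext <;> rfl

lemma uu_neg (x : ℚ) : uu (-x) = (uu x)⁻¹ := by
  apply eq_inv_of_mul_eq_one_left
  rw [← uu_add, neg_add_cancel, uu_zero]

lemma uz_pow (n : ℕ) : uz 1 ^ n = uz n := by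
  induction n with
  | zero => apply sz_ext <;> rfl
  | succ n ih =>
    rw [pow_succ, ih]
    apply sz_ext <;> rw [mul_z] <;> simp [add_comm]

lemma vz_pow (n : ℕ) : vz 1 ^ n = vz n := by
  induction n with
  | zero => apply sz_ext <;> rfl
  | succ n ih =>
    rw [pow_succ, ih]
    apply sz_ext <;> rw [mul_z] <;> simp

lemma io_uz (n : ℤ) : io (uz n) = uu n := by
  apply sq_ext <;> rw [io_apply] <;> simp

lemma io_vz (n : ℤ) : io (vz n) = vv n := by
  apply sq_ext <;> rw [io_apply] <;> simp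

/-- decomposition in an integral matrix and an upper triangular one -/
lemma iwasawa (g : SQ) : ∃ (k : SZ) (b : SQ), g = io k * b ∧ b.val 1 0 = 0 := by
  obtain ⟨m, n, hc, hmn⟩ : ∃ m n : ℤ, IsCoprime m n ∧
      (n : ℚ) * g.val 0 0 = m * g.val 1 0 := by
    by_cases hx : g.val 0 0 = 0
    · exact ⟨0, 1, isCoprime_one_right, by rw [hx]; simp⟩
    · refine ⟨(g.val 1 0 / g.val 0 0).den, (g.val 1 0 / g.val 0 0).num, ?_, ?_⟩
      · have := (g.val 1 0 / g.val 0 0).reduced
        rw [Int.isCoprime_iff_gcd_eq_one, Int.gcd_comm]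
        simpa [Int.gcd, Nat.Coprime] using this
      · have h1 := Rat.mul_den_eq_num (g.val 1 0 / g.val 0 0)
        rw [← h1]
        push_cast
        field_simp
  obtain ⟨u, v, huv⟩ := hc
  let k : SZ := ⟨!![m, -v; n, u], by
    rw [Matrix.det_fin_two_of]
    linear_combination huv⟩
  refine ⟨k, (io k)⁻¹ * g, by rw [mul_inv_cancel_left], ?_⟩
  rw [mul_q, inv_q]
  show -((n : ℤ) : ℚ) * g.val 0 0 + ((m : ℤ) : ℚ) * g.val 1 0 = 0
  linear_combination -hmn

variable {p : ℕ} [Fact p.Prime]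

lemma norm_sub_le {x y c : ℚ} (hx : padicNorm p x ≤ c) (hy : padicNorm p y ≤ c) :
    padicNorm p (x - y) ≤ c :=
  (padicNorm.sub (p := p)).trans (max_le hx hy)

lemma norm_add_le {x y c : ℚ} (hx : padicNorm p x ≤ c) (hy : padicNorm p y ≤ c) :
    padicNorm p (x + y) ≤ c :=
  (padicNorm.nonarchimedean (p := p)).trans (max_le hx hy)

/-- trace recursion -/
lemma trace_rec (g : SQ) (n : ℕ) :
    (g ^ (n + 2)).val.trace = g.val.trace * (g ^ (n + 1)).val.trace - (g ^ n).val.trace := by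
  have h2 : g ^ (n + 2) = g ^ n * (g * g) := by rw [pow_add, pow_two]
  have h1 : g ^ (n + 1) = g ^ n * g := pow_succ g n
  rw [h2, h1]
  simp only [Matrix.trace_fin_two, mul_q]
  have hd := det_q g
  linear_combination (-((g ^ n).val 0 0) - (g ^ n).val 1 1) * hd

lemma trace_pow {g : SQ} (h : 1 < padicNorm p g.val.trace) (n : ℕ) :
    padicNorm p ((g ^ (n + 1)).val.trace) = padicNorm p g.val.trace ^ (n + 1) ∧
      padicNorm p ((g ^ n).val.trace) ≤ padicNorm p g.val.trace ^ n := by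
  induction n with
  | zero =>
    constructor
    · simp
    · rw [pow_zero, pow_zero]
      have : (1 : SQ).val.trace = ((2 : ℤ) : ℚ) := by
        rw [Matrix.trace_fin_two, one_q00, one_q11]; norm_num
      rw [this]
      exact padicNorm.of_int 2
  | succ n ih =>
    refine ⟨?_, ih.1.le⟩
    have h1 : padicNorm p (g.val.trace * (g ^ (n + 1)).val.trace) =
        padicNorm p g.val.trace ^ (n + 2) := by
      rw [padicNorm.mul, ih.1]
      ring
    have h2 : padicNorm p (-(g ^ n).val.trace) ≤ padicNorm p g.val.trace ^ n := by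
      rw [padicNorm.neg]; exact ih.2
    have h3 : padicNorm p g.val.trace ^ n < padicNorm p g.val.trace ^ (n + 2) :=
      pow_lt_pow_right₀ h (by omega)
    rw [trace_rec, sub_eq_add_neg]
    have hne : padicNorm p (g.val.trace * (g ^ (n + 1)).val.trace) ≠
        padicNorm p (-(g ^ n).val.trace) := by
      rw [h1]
      exact (lt_of_le_of_lt h2 h3).ne'
    rw [padicNorm.add_eq_max_of_ne hne, h1]
    exact max_eq_left (h2.trans h3.le)

/-- an upper triangular element with diagonal of norm different from one -/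
lemma exists_tri (Γ : Subgroup SQ) (hF : (Γ.comap io).FiniteIndex)
    (hu : ∃ γ ∈ Γ, 1 < padicNorm p (γ.val.trace)) :
    ∃ b ∈ Γ, b.val 1 0 = 0 ∧ padicNorm p (b.val 0 0) ≠ 1 := by
  classical
  have hfin : Finite (SZ ⧸ Γ.comap io) := Subgroup.finite_quotient_of_finiteIndex
  choose k b hkb hb using iwasawa
  let q : SQ → SZ ⧸ Γ.comap io := fun g => (((k g)⁻¹ : SZ) : SZ ⧸ Γ.comap io)
  -- the columns of `g` are bounded by the diagonal entry of `b g`
  have hcol : ∀ g i, padicNorm p (g.val i 0) ≤ padicNorm p ((b g).val 0 0) := by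
    intro g i
    have h1 : g.val i 0 = (io (k g) * b g).val i 0 := by rw [← hkb]
    rw [h1, mul_q, hb, mul_zero, add_zero, padicNorm.mul, io_apply]
    have h2 : padicNorm p (((k g).val i 0 : ℤ) : ℚ) ≤ 1 := padicNorm.of_int _
    have h3 : 0 ≤ padicNorm p ((b g).val 0 0) := padicNorm.nonneg _
    exact mul_le_of_le_one_left h3 h2
  by_contra hcon
  push Not at hcon
  -- same coset, same norm
  have hsame : ∀ g ∈ Γ, ∀ g' ∈ Γ, q g = q g' →
      padicNorm p ((b g).val 0 0) = padicNorm p ((b g').val 0 0) := by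
    intro g hg g' hg' hq
    have h1 : ((k g)⁻¹)⁻¹ * (k g')⁻¹ ∈ Γ.comap io := QuotientGroup.eq.mp hq
    rw [inv_inv, Subgroup.mem_comap, map_mul, map_inv] at h1
    have h2 : (b g)⁻¹ * b g' = g⁻¹ * (io (k g) * (io (k g'))⁻¹) * g' := by
      have e1 : b g = (io (k g))⁻¹ * g := eq_inv_mul_of_mul_eq (hkb g).symm
      have e2 : b g' = (io (k g'))⁻¹ * g' := eq_inv_mul_of_mul_eq (hkb g').symm
      rw [e1, e2]
      group
    have h3 : (b g)⁻¹ * b g' ∈ Γ := by
      rw [h2]
      exact Γ.mul_mem (Γ.mul_mem (Γ.inv_mem hg) h1) hg'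
    have hd := det_q (b g)
    rw [hb, mul_zero, sub_zero] at hd
    have h4 : ((b g)⁻¹ * b g').val 1 0 = 0 := by
      rw [mul_q, inv_q, hb g']
      show -(b g).val 1 0 * (b g').val 0 0 + (b g).val 0 0 * 0 = 0
      rw [hb g]; ring
    have h5 : ((b g)⁻¹ * b g').val 0 0 = (b g).val 1 1 * (b g').val 0 0 := by
      rw [mul_q, inv_q, hb g']
      show (b g).val 1 1 * (b g').val 0 0 + -(b g).val 0 1 * 0 = _
      ring
    have h6 := hcon _ h3 h4
    rw [h5, padicNorm.mul] at h6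
    have h7 : padicNorm p ((b g).val 0 0) * padicNorm p ((b g).val 1 1) = 1 := by
      rw [← padicNorm.mul, hd, padicNorm.one]
    calc padicNorm p ((b g).val 0 0) = padicNorm p ((b g).val 0 0) *
          (padicNorm p ((b g).val 1 1) * padicNorm p ((b g').val 0 0)) := by rw [h6, mul_one]
      _ = (padicNorm p ((b g).val 0 0) * padicNorm p ((b g).val 1 1)) *
          padicNorm p ((b g').val 0 0) := by ring
      _ = _ := by rw [h7, one_mul]
  -- so the norms are bounded
  obtain ⟨C, hC⟩ : ∃ C : ℚ, ∀ g ∈ Γ, padicNorm p ((b g).val 0 0) ≤ C := by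
    let B : SZ ⧸ Γ.comap io → ℚ := fun x =>
      if h : ∃ g ∈ Γ, q g = x then padicNorm p ((b h.choose).val 0 0) else 0
    obtain ⟨C, hC⟩ := (Set.finite_range B).bddAbove
    refine ⟨C, fun g hg => ?_⟩
    have hex : ∃ g' ∈ Γ, q g' = q g := ⟨g, hg, rfl⟩
    have h1 : B (q g) = padicNorm p ((b g).val 0 0) := by
      have h2 : B (q g) = padicNorm p ((b hex.choose).val 0 0) := dif_pos hex
      rw [h2]
      exact hsame _ hex.choose_spec.1 _ hg hex.choose_spec.2
    rw [← h1]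
    exact hC ⟨q g, rfl⟩
  -- all entries are bounded
  obtain ⟨N, hN, -, hN2⟩ := Subgroup.exists_pow_mem_of_index_ne_zero hF.index_ne_zero (vz 1)
  rw [vz_pow, Subgroup.mem_comap, io_vz] at hN2
  obtain ⟨γ, hγ, hγ1⟩ := hu
  have hNq : ((N : ℤ) : ℚ) ≠ 0 := by
    have : (N : ℤ) ≠ 0 := by omega
    exact_mod_cast this
  have hNp : 0 < padicNorm p ((N : ℤ) : ℚ) :=
    lt_of_le_of_ne (padicNorm.nonneg _) (Ne.symm (padicNorm.nonzero hNq))
  have htr : ∀ g ∈ Γ, padicNorm p g.val.trace ≤ max C (C / padicNorm p ((N : ℤ) : ℚ)) := by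
    intro g hg
    have h0 := (hcol g 0).trans (hC g hg)
    have h1 := (hcol g 1).trans (hC g hg)
    have h2 := (hcol (g * vv ((N : ℤ) : ℚ)) 1).trans (hC _ (Γ.mul_mem hg hN2))
    rw [mul_q, vv00, vv10, mul_one] at h2
    have h3 : padicNorm p (g.val 1 1 * ((N : ℤ) : ℚ)) ≤ C := by
      have e : g.val 1 1 * ((N : ℤ) : ℚ) =
          (g.val 1 0 + g.val 1 1 * ((N : ℤ) : ℚ)) - g.val 1 0 := by ring
      rw [e]
      exact norm_sub_le h2 h1
    rw [padicNorm.mul, ← le_div_iff₀ hNp] at h3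
    rw [Matrix.trace_fin_two]
    exact norm_add_le (h0.trans (le_max_left _ _)) (h3.trans (le_max_right _ _))
  obtain ⟨n, hn⟩ := pow_unbounded_of_one_lt (max C (C / padicNorm p ((N : ℤ) : ℚ))) hγ1
  have h1 := (trace_pow hγ1 n).1
  have h2 := htr _ (Γ.pow_mem hγ (n + 1))
  rw [h1] at h2
  have h3 : padicNorm p γ.val.trace ^ n < padicNorm p γ.val.trace ^ (n + 1) :=
    pow_lt_pow_right₀ hγ1 (by omega)
  linarith

/-- an upper triangular element with diagonal of norm larger than one -/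
lemma exists_tri' (Γ : Subgroup SQ) (hF : (Γ.comap io).FiniteIndex)
    (hu : ∃ γ ∈ Γ, 1 < padicNorm p (γ.val.trace)) :
    ∃ b ∈ Γ, b.val 1 0 = 0 ∧ 1 < padicNorm p (b.val 0 0) := by
  obtain ⟨b, hb, h0, h1⟩ := exists_tri (p := p) Γ hF hu
  rcases lt_or_gt_of_ne h1 with h | h
  · refine ⟨b⁻¹, Γ.inv_mem hb, ?_, ?_⟩
    · rw [inv_q]
      show -b.val 1 0 = 0
      rw [h0, neg_zero]
    · rw [inv_q]
      show 1 < padicNorm p (b.val 1 1)
      have hd := det_q b
      rw [h0, mul_zero, sub_zero] at hd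
      have h7 : padicNorm p (b.val 0 0) * padicNorm p (b.val 1 1) = 1 := by
        rw [← padicNorm.mul, hd, padicNorm.one]
      by_contra hcon
      push Not at hcon
      have h8 : 0 ≤ padicNorm p (b.val 0 0) := padicNorm.nonneg _
      have h9 : 0 ≤ padicNorm p (b.val 1 1) := padicNorm.nonneg _
      nlinarith
  · exact ⟨b, hb, h0, h⟩

omit [Fact p.Prime] in
/-- multiplication by the square of the diagonal entry -/
lemma conj_uu (b : SQ) (h0 : b.val 1 0 = 0) (y : ℚ) :
    b * uu y * b⁻¹ = uu (b.val 0 0 ^ 2 * y) := by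
  have hd := det_q b
  rw [h0, mul_zero, sub_zero] at hd
  rw [mul_inv_eq_iff_eq_mul]
  apply sq_ext <;> rw [mul_q, mul_q] <;> simp only [uu00, uu01, uu10, uu11, h0]
  · ring
  · linear_combination (-(b.val 0 0 * y)) * hd
  · ring
  · ring

omit [Fact p.Prime] in
lemma dvd_den [hp : Fact p.Prime] {x : ℚ} (h : 1 < padicNorm p x) : p ∣ x.den := by
  by_contra hcon
  have h1 : padicNorm p (x.den : ℚ) = 1 := (padicNorm.nat_eq_one_iff _).mpr hcon
  have h2 : padicNorm p (x.num : ℚ) ≤ 1 := padicNorm.of_int _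
  have h3 : padicNorm p x = padicNorm p (x.num : ℚ) / padicNorm p (x.den : ℚ) := by
    rw [← padicNorm.div, Rat.num_div_den]
  rw [h3, h1, div_one] at h
  linarith

end SurjAux

open SurjAux

namespace SurjAux

/-- the ring of multipliers -/
def mult (Γ : Subgroup SQ) : Subring ℚ where
  carrier := {x | ∀ y, uu y ∈ Γ → uu (x * y) ∈ Γ}
  mul_mem' := by
    intro a b ha hb y hy
    rw [mul_assoc]
    exact ha _ (hb _ hy)
  one_mem' := by
    intro y hy
    rwa [one_mul]
  add_mem' := by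
    intro a b ha hb y hy
    rw [add_mul, uu_add]
    exact Γ.mul_mem (ha _ hy) (hb _ hy)
  zero_mem' := by
    intro y _
    rw [zero_mul, uu_zero]
    exact Γ.one_mem
  neg_mem' := by
    intro a ha y hy
    rw [neg_mul, uu_neg]
    exact Γ.inv_mem (ha _ hy)

lemma mem_mult {Γ : Subgroup SQ} {x : ℚ} : x ∈ mult Γ ↔ ∀ y, uu y ∈ Γ → uu (x * y) ∈ Γ := Iff.rfl

/-- all upper unipotent matrices -/
theorem all_uu (Γ : Subgroup SQ) (hF : (Γ.comap io).FiniteIndex)
    (hu : ∀ p : ℕ, p.Prime → ∃ γ ∈ Γ, 1 < padicNorm p (γ.val.trace)) (y : ℚ) : uu y ∈ Γ := by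
  have hinv : ∀ p : ℕ, p.Prime → (1 / (p : ℚ)) ∈ mult Γ := by
    intro p hp
    have : Fact p.Prime := ⟨hp⟩
    obtain ⟨b, hb, h0, h1⟩ := exists_tri' (p := p) Γ hF (hu p hp)
    set x : ℚ := b.val 0 0 ^ 2 with hx
    have hxm : x ∈ mult Γ := by
      intro y hy
      rw [hx, ← conj_uu b h0]
      exact Γ.mul_mem (Γ.mul_mem hb hy) (Γ.inv_mem hb)
    have hxn : 1 < padicNorm p x := by
      rw [hx, pow_two, padicNorm.mul]
      nlinarith
    obtain ⟨m, hm⟩ := dvd_den hxn
    have hc : IsCoprime x.num (x.den : ℤ) := by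
      have := x.reduced
      rw [Int.isCoprime_iff_gcd_eq_one]
      simpa [Int.gcd, Nat.Coprime] using this
    obtain ⟨u, v, huv⟩ := hc
    have hden : (x.den : ℚ) ≠ 0 := by exact_mod_cast x.den_ne_zero
    have hp0 : (p : ℚ) ≠ 0 := by exact_mod_cast hp.ne_zero
    have huv' : (u : ℚ) * x.num + v * x.den = 1 := by exact_mod_cast huv
    have hnum : (x.num : ℚ) = x * x.den := (Rat.mul_den_eq_num x).symm
    have h2 : 1 / (p : ℚ) = (m : ℚ) * ((u : ℚ) * x + v) := by
      have hm' : (x.den : ℚ) = p * m := by exact_mod_cast hm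
      rw [hnum] at huv'
      have h3 : ((u : ℚ) * x + v) * x.den = 1 := by linear_combination huv'
      rw [hm'] at h3
      field_simp
      linear_combination -h3
    rw [h2]
    exact (mult Γ).mul_mem (natCast_mem _ m) ((mult Γ).add_mem
      ((mult Γ).mul_mem (intCast_mem _ u) hxm) (intCast_mem _ v))
  have hinv2 : ∀ n : ℕ, n ≠ 0 → (1 / (n : ℚ)) ∈ mult Γ := by
    intro n
    induction n using Nat.recOnMul with
    | zero => intro h; exact absurd rfl h
    | one =>
      intro _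
      rw [Nat.cast_one, div_one]
      exact (mult Γ).one_mem
    | prime p hp => intro _; exact hinv p hp
    | mul a b ha hb =>
      intro hab
      have h1 := ha (left_ne_zero_of_mul hab)
      have h2 := hb (right_ne_zero_of_mul hab)
      have : (1 / ((a * b : ℕ) : ℚ)) = (1 / (a : ℚ)) * (1 / (b : ℚ)) := by
        push_cast
        rw [one_div_mul_one_div]
      rw [this]
      exact (mult Γ).mul_mem h1 h2
  have hall : ∀ x : ℚ, x ∈ mult Γ := by
    intro x
    have : x = (x.num : ℚ) * (1 / (x.den : ℚ)) := by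
      rw [mul_one_div, Rat.num_div_den]
    rw [this]
    exact (mult Γ).mul_mem (intCast_mem _ _) (hinv2 _ x.den_ne_zero)
  obtain ⟨N, hN, -, hN2⟩ := Subgroup.exists_pow_mem_of_index_ne_zero hF.index_ne_zero (uz 1)
  rw [uz_pow, Subgroup.mem_comap, io_uz] at hN2
  have hN0 : ((N : ℤ) : ℚ) ≠ 0 := by
    have : (N : ℤ) ≠ 0 := by omega
    exact_mod_cast this
  have := hall (y / ((N : ℤ) : ℚ)) _ hN2
  rwa [div_mul_cancel₀ _ hN0] at this

/-- the Weyl element -/
def wz : SZ := ⟨!![0, 1; -1, 0], by simp [Matrix.det_fin_two_of]⟩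

lemma conj_w (y : ℚ) : io wz * uu y * (io wz)⁻¹ = vv (-y) := by
  rw [mul_inv_eq_iff_eq_mul]
  have h00 : (io wz).val 0 0 = 0 := by rw [io_apply]; simp [wz]
  have h01 : (io wz).val 0 1 = 1 := by rw [io_apply]; simp [wz]
  have h10 : (io wz).val 1 0 = -1 := by rw [io_apply]; simp [wz]
  have h11 : (io wz).val 1 1 = 0 := by rw [io_apply]; simp [wz]
  apply sq_ext <;> rw [mul_q, mul_q] <;> simp [h00, h01, h10, h11]

/-- all lower unipotent matrices -/
theorem all_vv (Γ : Subgroup SQ) (hF : (Γ.comap io).FiniteIndex)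
    (hu : ∀ p : ℕ, p.Prime → ∃ γ ∈ Γ, 1 < padicNorm p (γ.val.trace)) (y : ℚ) : vv y ∈ Γ := by
  let c : SQ →* SQ := (MulAut.conj (io wz)).toMonoidHom
  have hc : ∀ g, c g = io wz * g * (io wz)⁻¹ := fun g => rfl
  have h1 : ((Γ.comap c).comap io).FiniteIndex := by
    have e : (Γ.comap c).comap io = (Γ.comap io).comap (MulAut.conj wz).toMonoidHom := by
      ext k
      simp only [Subgroup.mem_comap, hc]
      have : (MulAut.conj wz).toMonoidHom k = wz * k * wz⁻¹ := rfl
      rw [this, map_mul, map_mul, map_inv]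
    rw [e]
    constructor
    rw [Subgroup.index_comap_of_surjective _ (MulAut.conj wz).surjective]
    exact hF.index_ne_zero
  have h2 := all_uu (Γ.comap c) h1 (by
    intro p hp
    obtain ⟨γ, hγ, hγ1⟩ := hu p hp
    refine ⟨(io wz)⁻¹ * γ * io wz, ?_, ?_⟩
    · rw [Subgroup.mem_comap, hc]
      have : io wz * ((io wz)⁻¹ * γ * io wz) * (io wz)⁻¹ = γ := by group
      rwa [this]
    · have : ((io wz)⁻¹ * γ * io wz).val.trace = γ.val.trace := by
        rw [val_mul_q, Matrix.trace_mul_comm, ← val_mul_q, mul_inv_cancel_left]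
      rwa [this]) (-y)
  rw [Subgroup.mem_comap, hc, conj_w, neg_neg] at h2
  exact h2

end SurjAux

theorem stSurj : StSurj := by
  intro Γ hu hF
  have hF' : (Γ.comap io).FiniteIndex := hF
  have hU := all_uu Γ hF' hu
  have hV := all_vv Γ hF' hu
  have key : ∀ g : SQ, g.val 1 0 ≠ 0 → g ∈ Γ := by
    intro g hg
    have hd := det_q g
    have e : g = uu ((g.val 0 0 - 1) / g.val 1 0) * vv (g.val 1 0) *
        uu ((g.val 1 1 - 1) / g.val 1 0) := by
      apply sq_ext <;> simp only [mul_q, uu00, uu01, uu10, uu11, vv00, vv01, vv10, vv11]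
      · field_simp
        ring
      · field_simp
        linear_combination -hd
      · ring
      · field_simp
        ring
    rw [e]
    exact Γ.mul_mem (Γ.mul_mem (hU _) (hV _)) (hU _)
  rw [eq_top_iff]
  intro g _
  by_cases hg : g.val 1 0 = 0
  · have hd := det_q g
    rw [hg, mul_zero, sub_zero] at hd
    have h1 : (g * vv 1).val 1 0 ≠ 0 := by
      rw [mul_q, vv00, vv10, hg, zero_mul, zero_add, mul_one]
      intro h0
      rw [h0, mul_zero] at hd
      exact zero_ne_one hd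
    have h2 := key _ h1
    have h3 := Γ.mul_mem h2 (Γ.inv_mem (hV 1))
    rwa [mul_inv_cancel_right] at h3
  · exact key g hg

end Pool.Agent.Lib.MP_c356f3_al
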