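import Pool.Agent.Lib.MP_c356f3_al.Asm6
import Pool.Agent.Lib.MP_c356f3_al.AsmX
import Pool.Agent.Lib.MP_c356f3_al.Fix
import Pool.Agent.Lib.MP_c356f3_al.Perm
import Pool.Agent.Lib.MP_c356f3_al.Schur
import Pool.Agent.Lib.MP_c356f3_al.Basis
import Pool.Agent.Lib.MP_c356f3_al.Dual
import Pool.Agent.Lib.MP_c356f3_al.Quat
import Pool.Agent.Lib.MP_c356f3_al.NonInt
import Pool.Agent.Lib.MP_c356f3_al.Legendre
import Pool.Agent.Lib.MP_c356f3_al.Split
import Pool.Agent.Lib.MP_c356f3_al.SymIrr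
import Pool.Agent.Lib.MP_c356f3_al.InfEig
import Pool.Agent.Lib.MP_c356f3_al.FinIm
import Pool.Agent.Lib.MP_c356f3_al.NotFin
import Pool.Agent.Lib.MP_c356f3_al.FinIrr
import Pool.Agent.Lib.MP_c356f3_al.Surj
import Pool.Agent.Lib.MP_c356f3_al.QuotS
import Pool.Agent.Lib.MP_c356f3_al.Exit
import Pool.Agent.Lib.MP_c356f3_al.Lim
import Pool.Agent.Lib.MP_c356f3_al.Cross
import Pool.Agent.Lib.MP_c356f3_al.NoLine
import Pool.Agent.Lib.MP_c356f3_al.Hyp
import Pool.Agent.Lib.MP_c356f3_al.Disc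
import Pool.Agent.Lib.MP_c356f3_al.FinK
import Pool.Agent.Lib.MP_c356f3_al.Pow
import Pool.Agent.Lib.MP_c356f3_al.Bdd
import Pool.Agent.Lib.MP_c356f3_al.Eig

/-!
Springer's property (U): all modules put together.
-/

namespace Pool.Agent.Lib.MP_c356f3_al

open Matrix

universe u

theorem stFG : StFG :=
  AsmX.stFG_of stExit stLim stCross stNoLine stHyp stDisc stFinK stPow stBdd stEig

theorem structure_final {G : Type u} [Group G] (hU : PropU G) :
    ∃ φ : G →* SpecialLinearGroup (Fin 2) ℚ,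
      (∀ (m : ℕ) (ρ : G →* GL (Fin (m + 1)) ℂ), Irr ρ ↔
        ∃ P : GL (Fin (m + 1)) ℂ, ∀ g : G, (ρ g).val =
          P.val * symMat m ((φ g).val.map (algebraMap ℚ ℂ)) * P⁻¹.val) ∧
      PropU φ.range ∧
      (∀ H : Subgroup G, H.FiniteIndex → H = ⊤) ∧
      (∀ p : ℕ, p.Prime → ∃ g : G, 1 < padicNorm p (φ g).val.trace) ∧
      ((∃ f : G →* SpecialLinearGroup (Fin 2) ℚ, Function.Surjective f) ↔
        Function.Surjective φ) ∧
      (Function.Surjective φ ↔
        Infinite (φ.range.comap (SpecialLinearGroup.map (Int.castRingHom ℚ) :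
          SpecialLinearGroup (Fin 2) ℤ →* SpecialLinearGroup (Fin 2) ℚ)) ∧
        (φ.range.comap (SpecialLinearGroup.map (Int.castRingHom ℚ) :
          SpecialLinearGroup (Fin 2) ℤ →* SpecialLinearGroup (Fin 2) ℚ)).FG) :=
  structure_thm2 stFix stPerm stSchur (stBasis stSchur) stDual (stQuat (stBasis stSchur))
    stNonInt stLegendre stSplit stSymIrr stInfEig stFinIm (stNotFin stPerm stSchur) stFinIrr
    stSurj stQuot stFG hU

theorem reduction_final :
    (∀ (G : Type u) [Group G], PropU G → ∃ (N : Subgroup G) (_ : N.Normal),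
        Nonempty (G ⧸ N ≃* SpecialLinearGroup (Fin 2) ℚ)) ↔
      ∀ Γ : Subgroup (SpecialLinearGroup (Fin 2) ℚ), PropU Γ → Γ = ⊤ :=
  reduction stFix stPerm stSchur (stBasis stSchur)
    stDual (stQuat (stBasis stSchur)) stNonInt stLegendre stSplit stSymIrr stInfEig stFinIm
    (stNotFin stPerm stSchur) stFinIrr stSurj stQuot stQuot

end Pool.Agent.Lib.MP_c356f3_al
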