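import Pool.Agent.Lib.MP_c356f3_al.BorCyc
import Pool.Agent.Lib.MP_c356f3_al.Final

/-!
Property (U): the quotient `SL(2,ℚ)` from non-abelian point stabilisers or non-cyclic vector
stabilisers.
-/

namespace Pool.Agent.Lib.MP_c356f3_al.Bor

open Matrix SurjAux

universe u

variable {G : Type u} [Group G]

/-- two elements which do not commute but have a common eigenvector -/
def C2 (ρ : G →* GL (Fin 2) ℂ) : Prop :=
  ∃ g h : G, ρ g * ρ h ≠ ρ h * ρ g ∧ ∃ (v : Fin 2 → ℂ) (α β : ℂ), v ≠ 0 ∧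
    (ρ g).val *ᵥ v = α • v ∧ (ρ h).val *ᵥ v = β • v

/-- a nonzero vector whose stabiliser in the image is not cyclic -/
def C3 (ρ : G →* GL (Fin 2) ℂ) : Prop :=
  ∃ v : Fin 2 → ℂ, v ≠ 0 ∧ ∀ g₀ : G, (ρ g₀).val *ᵥ v = v →
    ∃ g : G, (ρ g).val *ᵥ v = v ∧ ∀ n : ℤ, ρ g ≠ ρ g₀ ^ n

lemma act {ρ σ : G →* GL (Fin 2) ℂ} {P : GL (Fin 2) ℂ} (hP : ∀ g, σ g = P * ρ g * P⁻¹) (g : G)
    (v : Fin 2 → ℂ) : (σ g).val *ᵥ (P.val *ᵥ v) = P.val *ᵥ ((ρ g).val *ᵥ v) := by
  rw [hP g, Matrix.mulVec_mulVec, Matrix.mulVec_mulVec, ← Units.val_mul, ← Units.val_mul]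
  congr 2
  group

lemma P_ne {P : GL (Fin 2) ℂ} {v : Fin 2 → ℂ} (hv : v ≠ 0) : P.val *ᵥ v ≠ 0 := by
  intro h
  apply hv
  have : P⁻¹.val *ᵥ (P.val *ᵥ v) = v := by
    rw [Matrix.mulVec_mulVec, ← Units.val_mul, inv_mul_cancel, Units.val_one, Matrix.one_mulVec]
  rw [← this, h, Matrix.mulVec_zero]

lemma P_inj {P : GL (Fin 2) ℂ} {v w : Fin 2 → ℂ} (h : P.val *ᵥ v = P.val *ᵥ w) : v = w := by
  have e : ∀ v : Fin 2 → ℂ, P⁻¹.val *ᵥ (P.val *ᵥ v) = v := fun v => by
    rw [Matrix.mulVec_mulVec, ← Units.val_mul, inv_mul_cancel, Units.val_one, Matrix.one_mulVec]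
  rw [← e v, h, e w]

lemma C2_equ {ρ σ : G →* GL (Fin 2) ℂ} (h : Equ ρ σ) (hc : C2 ρ) : C2 σ := by
  obtain ⟨P, hP⟩ := h
  obtain ⟨g, h, hgh, v, α, β, hv, h1, h2⟩ := hc
  refine ⟨g, h, ?_, P.val *ᵥ v, α, β, P_ne hv, ?_, ?_⟩
  · intro h3
    apply hgh
    rw [hP g, hP h] at h3
    have h4 := congrArg (fun z => P⁻¹ * z * P) h3
    have e1 : P⁻¹ * (P * ρ g * P⁻¹ * (P * ρ h * P⁻¹)) * P = ρ g * ρ h := by group
    have e2 : P⁻¹ * (P * ρ h * P⁻¹ * (P * ρ g * P⁻¹)) * P = ρ h * ρ g := by group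
    rwa [e1, e2] at h4
  · rw [act hP, h1, Matrix.mulVec_smul]
  · rw [act hP, h2, Matrix.mulVec_smul]

lemma C3_equ {ρ σ : G →* GL (Fin 2) ℂ} (h : Equ ρ σ) (hc : C3 ρ) : C3 σ := by
  obtain ⟨P, hP⟩ := h
  obtain ⟨v, hv, H⟩ := hc
  refine ⟨P.val *ᵥ v, P_ne hv, fun g₀ hg₀ => ?_⟩
  rw [act hP] at hg₀
  obtain ⟨g, hg, hn⟩ := H g₀ (P_inj hg₀)
  refine ⟨g, by rw [act hP, hg], fun n h3 => hn n ?_⟩
  rw [hP g, hP g₀, ← MulAut.conj_apply, ← MulAut.conj_apply, ← map_zpow] at h3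
  exact (MulAut.conj P).injective h3

/-- the action of a rational matrix on a complex vector -/
lemma cx_act (A : SQ) (v : Fin 2 → ℂ) (i : Fin 2) :
    ((cx A).val *ᵥ v) i = ((A.val i 0 : ℚ) : ℂ) * v 0 + ((A.val i 1 : ℚ) : ℂ) * v 1 := by
  rw [cx_val, Matrix.mulVec, dotProduct, Fin.sum_univ_two]
  rfl

lemma vec_ne {v : Fin 2 → ℂ} (hv : v ≠ 0) (h1 : v 1 = 0) : v 0 ≠ 0 := by
  intro h0
  apply hv
  ext i
  fin_cases i
  · exact h0
  · exact h1

/-- a complex common eigenvector of two rational matrices which do not commute is rational -/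
lemma rat_eig {g h : SQ} (hgh : g * h ≠ h * g) {v : Fin 2 → ℂ} (hv : v ≠ 0) {α β : ℂ}
    (h1 : (cx g).val *ᵥ v = α • v) (h2 : (cx h).val *ᵥ v = β • v) :
    ∃ a c l m : ℚ, (a ≠ 0 ∨ c ≠ 0) ∧ g.val 0 0 * a + g.val 0 1 * c = l * a ∧
      g.val 1 0 * a + g.val 1 1 * c = l * c ∧ h.val 0 0 * a + h.val 0 1 * c = m * a ∧
      h.val 1 0 * a + h.val 1 1 * c = m * c := by
  have a0 := congrFun h1 0
  have a1 := congrFun h1 1
  have b0 := congrFun h2 0
  have b1 := congrFun h2 1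
  rw [cx_act, Pi.smul_apply, smul_eq_mul] at a0 a1 b0 b1
  by_cases hv1 : v 1 = 0
  · have hv0 := vec_ne hv hv1
    rw [hv1] at a1 b1
    have c1 : g.val 1 0 = 0 := by
      have : ((g.val 1 0 : ℚ) : ℂ) * v 0 = 0 := by linear_combination a1
      exact_mod_cast (mul_eq_zero.mp this).resolve_right hv0
    have c2 : h.val 1 0 = 0 := by
      have : ((h.val 1 0 : ℚ) : ℂ) * v 0 = 0 := by linear_combination b1
      exact_mod_cast (mul_eq_zero.mp this).resolve_right hv0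
    exact ⟨1, 0, g.val 0 0, h.val 0 0, Or.inl one_ne_zero, by ring, by rw [c1]; ring, by ring,
      by rw [c2]; ring⟩
  · -- the quadratic equations for `z = v 0 / v 1`
    set z := v 0 / v 1 with hz
    have hvz : v 0 = z * v 1 := by rw [hz]; field_simp
    rw [hvz] at a0 a1 b0 b1
    have ea1 : ((g.val 1 0 : ℚ) : ℂ) * z + ((g.val 1 1 : ℚ) : ℂ) = α :=
      mul_right_cancel₀ hv1 (by linear_combination a1)
    have ea0 : ((g.val 0 0 : ℚ) : ℂ) * z + ((g.val 0 1 : ℚ) : ℂ) = α * z :=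
      mul_right_cancel₀ hv1 (by linear_combination a0)
    have eb1 : ((h.val 1 0 : ℚ) : ℂ) * z + ((h.val 1 1 : ℚ) : ℂ) = β :=
      mul_right_cancel₀ hv1 (by linear_combination b1)
    have eb0 : ((h.val 0 0 : ℚ) : ℂ) * z + ((h.val 0 1 : ℚ) : ℂ) = β * z :=
      mul_right_cancel₀ hv1 (by linear_combination b0)
    rw [← ea1] at ea0
    rw [← eb1] at eb0
    by_cases hrat : ∃ q : ℚ, z = q
    · obtain ⟨q, hq⟩ := hrat
      rw [hq] at ea0 eb0
      refine ⟨q, 1, g.val 1 0 * q + g.val 1 1, h.val 1 0 * q + h.val 1 1, Or.inr one_ne_zero,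
        ?_, by ring, ?_, by ring⟩
      · have : g.val 0 0 * q + g.val 0 1 = (g.val 1 0 * q + g.val 1 1) * q := by exact_mod_cast ea0
        linarith
      · have : h.val 0 0 * q + h.val 0 1 = (h.val 1 0 * q + h.val 1 1) * q := by exact_mod_cast eb0
        linarith
    · exfalso
      have hz0 : z ≠ 0 := fun h => hrat ⟨0, by rw [h]; simp⟩
      -- first elimination
      have k1 : (((g.val 1 0 * (h.val 1 1 - h.val 0 0) - h.val 1 0 * (g.val 1 1 - g.val 0 0) :
          ℚ)) : ℂ) * z = ((g.val 1 0 * h.val 0 1 - h.val 1 0 * g.val 0 1 : ℚ) : ℂ) := by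
        push_cast
        linear_combination ((h.val 1 0 : ℚ) : ℂ) * ea0 - ((g.val 1 0 : ℚ) : ℂ) * eb0
      have k2 : g.val 1 0 * (h.val 1 1 - h.val 0 0) - h.val 1 0 * (g.val 1 1 - g.val 0 0) = 0 := by
        by_contra hne
        apply hrat
        refine ⟨(g.val 1 0 * h.val 0 1 - h.val 1 0 * g.val 0 1) / (g.val 1 0 *
          (h.val 1 1 - h.val 0 0) - h.val 1 0 * (g.val 1 1 - g.val 0 0)), ?_⟩
        rw [Rat.cast_div, ← k1]
        rw [mul_comm, mul_div_assoc, div_self (by exact_mod_cast hne), mul_one]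
      have k3 : g.val 1 0 * h.val 0 1 - h.val 1 0 * g.val 0 1 = 0 := by
        rw [k2, Rat.cast_zero, zero_mul] at k1
        exact_mod_cast k1.symm
      have k4 : h.val 0 1 * (g.val 1 1 - g.val 0 0) - g.val 0 1 * (h.val 1 1 - h.val 0 0) = 0 := by
        have k3' : ((g.val 1 0 : ℚ) : ℂ) * ((h.val 0 1 : ℚ) : ℂ) -
            ((h.val 1 0 : ℚ) : ℂ) * ((g.val 0 1 : ℚ) : ℂ) = 0 := by exact_mod_cast k3
        have : ((h.val 0 1 * (g.val 1 1 - g.val 0 0) - g.val 0 1 * (h.val 1 1 - h.val 0 0) :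
            ℚ) : ℂ) * z = 0 := by
          push_cast
          linear_combination ((g.val 0 1 : ℚ) : ℂ) * eb0 - ((h.val 0 1 : ℚ) : ℂ) * ea0 -
            z ^ 2 * k3'
        exact_mod_cast (mul_eq_zero.mp this).resolve_right hz0
      apply hgh
      apply sq_ext <;> rw [mul_q, mul_q]
      · linear_combination -k3
      · linear_combination -k4
      · linear_combination -k2
      · linear_combination k3

/-- a complex vector fixed by a rational matrix `≠ 1` is proportional to a rational one -/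
lemma rat_fix {g : SQ} (hg : g ≠ 1) {v : Fin 2 → ℂ} (hv : v ≠ 0)
    (h1 : (cx g).val *ᵥ v = v) :
    ∃ (a c : ℚ) (t : ℂ), (a ≠ 0 ∨ c ≠ 0) ∧ t ≠ 0 ∧ v 0 = t * a ∧ v 1 = t * c := by
  have a0 := congrFun h1 0
  have a1 := congrFun h1 1
  rw [cx_act] at a0 a1
  by_cases hv1 : v 1 = 0
  · exact ⟨1, 0, v 0, Or.inl one_ne_zero, vec_ne hv hv1, by simp, by simp [hv1]⟩
  · set z := v 0 / v 1 with hz
    have hvz : v 0 = z * v 1 := by rw [hz]; field_simp
    rw [hvz] at a0 a1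
    have ea0 : ((g.val 0 0 - 1 : ℚ) : ℂ) * z = ((-(g.val 0 1) : ℚ) : ℂ) := by
      apply mul_right_cancel₀ hv1
      push_cast
      linear_combination a0
    have ea1 : ((g.val 1 0 : ℚ) : ℂ) * z = ((1 - g.val 1 1 : ℚ) : ℂ) := by
      apply mul_right_cancel₀ hv1
      push_cast
      linear_combination a1
    suffices hrat : ∃ q : ℚ, z = q by
      obtain ⟨q, hq⟩ := hrat
      exact ⟨q, 1, v 1, Or.inr one_ne_zero, hv1, by rw [hvz, hq]; ring, by simp⟩
    by_cases h0 : g.val 0 0 - 1 = 0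
    · by_cases h2 : g.val 1 0 = 0
      · exfalso
        apply hg
        rw [h0, Rat.cast_zero, zero_mul] at ea0
        rw [h2, Rat.cast_zero, zero_mul] at ea1
        have k0 : -(g.val 0 1) = 0 := by exact_mod_cast ea0.symm
        have k1 : 1 - g.val 1 1 = 0 := by exact_mod_cast ea1.symm
        apply sq_ext
        · rw [one_q00]; linarith
        · rw [one_q01]; linarith
        · rw [one_q10]; exact h2
        · rw [one_q11]; linarith
      · refine ⟨(1 - g.val 1 1) / g.val 1 0, ?_⟩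
        rw [Rat.cast_div, ← ea1, mul_comm, mul_div_assoc, div_self (by exact_mod_cast h2), mul_one]
    · refine ⟨-(g.val 0 1) / (g.val 0 0 - 1), ?_⟩
      rw [Rat.cast_div, ← ea0, mul_comm, mul_div_assoc, div_self (by exact_mod_cast h0), mul_one]

/-- an irreducible group moves every rational line -/
lemma moves {φ : G →* SQ} (hφ : Irr (cx.comp φ)) {a c : ℚ} (hw : a ≠ 0 ∨ c ≠ 0) :
    ∃ δ ∈ φ.range, a * (δ.val 1 0 * a + δ.val 1 1 * c) -
      c * (δ.val 0 0 * a + δ.val 0 1 * c) ≠ 0 := by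
  by_contra hcon
  push Not at hcon
  let w : Fin 2 → ℂ := ![(a : ℂ), (c : ℂ)]
  have hinv : ∀ g : G, ∃ t : ℂ, ((cx.comp φ) g).val *ᵥ w = t • w := by
    intro g
    have h := hcon (φ g) ⟨g, rfl⟩
    have e0 : (((cx.comp φ) g).val *ᵥ w) 0 =
        (((φ g).val 0 0 * a + (φ g).val 0 1 * c : ℚ) : ℂ) := by
      rw [MonoidHom.comp_apply, cx_act]
      simp [w]
    have e1 : (((cx.comp φ) g).val *ᵥ w) 1 =
        (((φ g).val 1 0 * a + (φ g).val 1 1 * c : ℚ) : ℂ) := by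
      rw [MonoidHom.comp_apply, cx_act]
      simp [w]
    set x := (φ g).val 0 0 * a + (φ g).val 0 1 * c
    set y := (φ g).val 1 0 * a + (φ g).val 1 1 * c
    obtain ⟨t, ht0, ht1⟩ : ∃ t : ℚ, x = t * a ∧ y = t * c := by
      rcases hw with ha | hc
      · exact ⟨x / a, by field_simp, by field_simp; linear_combination h⟩
      · exact ⟨y / c, by field_simp; linear_combination -h, by field_simp⟩
    refine ⟨(t : ℂ), ?_⟩
    ext i
    fin_cases i
    · show (((cx.comp φ) g).val *ᵥ w) 0 = (t : ℂ) * (a : ℂ)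
      rw [e0, ht0]; push_cast; rfl
    · show (((cx.comp φ) g).val *ᵥ w) 1 = (t : ℂ) * (c : ℂ)
      rw [e1, ht1]; push_cast; rfl
  rcases hφ.2 (Submodule.span ℂ {w}) (fun g v hv => by
      obtain ⟨k, rfl⟩ := Submodule.mem_span_singleton.mp hv
      obtain ⟨t, ht⟩ := hinv g
      rw [Matrix.mulVec_smul, ht, smul_smul]
      exact Submodule.smul_mem _ _ (Submodule.mem_span_singleton_self w)) with h | h
  · have h4 : w ∈ (Submodule.span ℂ {w}) := Submodule.mem_span_singleton_self w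
    rw [h, Submodule.mem_bot] at h4
    have k0 := congrFun h4 0
    have k1 := congrFun h4 1
    simp [w] at k0 k1
    rcases hw with ha | hc
    · exact ha k0
    · exact hc k1
  · have h4 : (![1, 0] : Fin 2 → ℂ) ∈ (Submodule.span ℂ {w}) := by rw [h]; trivial
    have h5 : (![0, 1] : Fin 2 → ℂ) ∈ (Submodule.span ℂ {w}) := by rw [h]; trivial
    obtain ⟨t, ht⟩ := Submodule.mem_span_singleton.mp h4
    obtain ⟨s, hs⟩ := Submodule.mem_span_singleton.mp h5
    have k0 := congrFun ht 0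
    have k1 := congrFun ht 1
    have m0 := congrFun hs 0
    have m1 := congrFun hs 1
    simp [w] at k0 k1 m0 m1
    have ht0 : t ≠ 0 := by rintro rfl; simp at k0
    have hc : (c : ℚ) = 0 := by
      rcases k1 with h | h
      · exact absurd h ht0
      · exact_mod_cast h
    rw [hc] at m1
    simp at m1

/-- (2) implies onto -/
lemma surj_of_C2 {φ : G →* SQ} (hφ : Irr (cx.comp φ))
    (htr : ∀ p : ℕ, p.Prime → ∃ g : G, 1 < padicNorm p (φ g).val.trace)
    (hc : C2 (cx.comp φ)) : Function.Surjective φ := by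
  obtain ⟨g, h, hgh, v, α, β, hv, h1, h2⟩ := hc
  have hgh' : φ g * φ h ≠ φ h * φ g := by
    intro h3
    apply hgh
    rw [MonoidHom.comp_apply, MonoidHom.comp_apply, ← map_mul cx, ← map_mul cx, h3]
  obtain ⟨a, c, l, m, hw, k0, k1, k2, k3⟩ := rat_eig hgh' hv h1 h2
  rw [← MonoidHom.range_eq_top]
  refine main φ.range ?_ a c hw (moves hφ hw) (φ g) (φ h) ⟨g, rfl⟩ ⟨h, rfl⟩ hgh' l m k0 k1 k2 k3
  intro q hq
  obtain ⟨g, hg⟩ := htr q hq
  exact ⟨φ g, ⟨g, rfl⟩, hg⟩

lemma T_pow (a c x : ℚ) (n : ℤ) : T a c x ^ n = T a c (n * x) := by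
  have h : ∀ n : ℕ, T a c x ^ n = T a c (n * x) := by
    intro n
    induction n with
    | zero => rw [pow_zero, Nat.cast_zero, zero_mul, T_zero]
    | succ n ih => rw [pow_succ, ih, ← T_add]; congr 1; push_cast; ring
  rcases n with n | n
  · rw [Int.ofNat_eq_natCast, zpow_natCast, h]; simp
  · rw [zpow_negSucc, h, ← T_neg]; congr 1; push_cast; ring

/-- (3) implies onto -/
lemma surj_of_C3 {φ : G →* SQ} (hφ : Irr (cx.comp φ))
    (htr : ∀ p : ℕ, p.Prime → ∃ g : G, 1 < padicNorm p (φ g).val.trace)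
    (hc : C3 (cx.comp φ)) : Function.Surjective φ := by
  obtain ⟨v, hv, H⟩ := hc
  obtain ⟨g₁, hg₁, hn₁⟩ := H 1 (by rw [map_one, Units.val_one, Matrix.one_mulVec])
  have hφ1 : φ g₁ ≠ 1 := by
    intro h
    apply hn₁ 0
    rw [MonoidHom.comp_apply, h, map_one, zpow_zero]
  obtain ⟨a, c, t, hw, ht, hv0, hv1⟩ := rat_fix hφ1 hv hg₁
  -- fixing `v` means being a transvection along `(a,c)`
  have hfix : ∀ g : G, ((cx.comp φ) g).val *ᵥ v = v ↔ ∃ x : ℚ, φ g = T a c x := by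
    intro g
    have e0 : (((cx.comp φ) g).val *ᵥ v) 0 =
        t * (((φ g).val 0 0 * a + (φ g).val 0 1 * c : ℚ) : ℂ) := by
      rw [MonoidHom.comp_apply, cx_act, hv0, hv1]
      push_cast; ring
    have e1 : (((cx.comp φ) g).val *ᵥ v) 1 =
        t * (((φ g).val 1 0 * a + (φ g).val 1 1 * c : ℚ) : ℂ) := by
      rw [MonoidHom.comp_apply, cx_act, hv0, hv1]
      push_cast; ring
    constructor
    · intro h
      have f0 := congrFun h 0
      have f1 := congrFun h 1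
      rw [e0, hv0] at f0
      rw [e1, hv1] at f1
      have f0' := mul_left_cancel₀ ht f0
      have f1' := mul_left_cancel₀ ht f1
      have f0'' : (φ g).val 0 0 * a + (φ g).val 0 1 * c = 1 * a := by
        rw [one_mul]; exact_mod_cast f0'
      have f1'' : (φ g).val 1 0 * a + (φ g).val 1 1 * c = 1 * c := by
        rw [one_mul]; exact_mod_cast f1'
      obtain ⟨x, x0, x1, x2, x3⟩ := fix_T (φ g) 1 a c (by norm_num) hw f0'' f1''
      rw [one_mul] at x0 x1 x2 x3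
      exact ⟨x, sq_ext x0 x1 x2 x3⟩
    · rintro ⟨x, hx⟩
      ext i
      fin_cases i
      · show (((cx.comp φ) g).val *ᵥ v) 0 = v 0
        rw [e0, hv0, hx]
        simp only [T00, T01]
        push_cast; ring
      · show (((cx.comp φ) g).val *ᵥ v) 1 = v 1
        rw [e1, hv1, hx]
        simp only [T10, T11]
        push_cast; ring
  rw [← MonoidHom.range_eq_top]
  refine main_cyc φ.range ?_ a c (moves hφ hw) ?_
  · intro q hq
    obtain ⟨g, hg⟩ := htr q hq
    exact ⟨φ g, ⟨g, rfl⟩, hg⟩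
  · intro y
    by_contra hcon
    push Not at hcon
    -- the group of the `k` with `k y ∈ M`
    let K : AddSubgroup ℤ :=
      { carrier := {k | (k : ℚ) * y ∈ M φ.range a c}
        zero_mem' := by simp
        add_mem' := by
          intro i j hi hj
          show ((i + j : ℤ) : ℚ) * y ∈ M φ.range a c
          push_cast
          rw [add_mul]
          exact (M φ.range a c).add_mem hi hj
        neg_mem' := by
          intro i hi
          show ((-i : ℤ) : ℚ) * y ∈ M φ.range a c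
          push_cast
          rw [neg_mul]
          exact (M φ.range a c).neg_mem hi }
    obtain ⟨k₀, hk₀⟩ := Int.subgroup_cyclic K
    have hmem : ∀ k : ℤ, (k : ℚ) * y ∈ M φ.range a c ↔ k₀ ∣ k := by
      intro k
      have : (k : ℚ) * y ∈ M φ.range a c ↔ k ∈ K := Iff.rfl
      rw [this, hk₀, ← AddSubgroup.zmultiples_eq_closure, Int.mem_zmultiples_iff]
    obtain ⟨g₀, hg₀⟩ : T a c (k₀ * y) ∈ φ.range := (hmem k₀).mpr dvd_rfl
    obtain ⟨g, hg, hn⟩ := H g₀ ((hfix g₀).mpr ⟨_, hg₀⟩)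
    obtain ⟨x, hx⟩ := (hfix g).mp hg
    have hxM : x ∈ M φ.range a c := by rw [mem_M, ← hx]; exact ⟨g, rfl⟩
    obtain ⟨k, hk⟩ := hcon x hxM
    rw [hk] at hxM
    obtain ⟨n, hn'⟩ := (hmem k).mp hxM
    apply hn n
    rw [MonoidHom.comp_apply, MonoidHom.comp_apply, ← map_zpow, hx, hg₀, T_pow, hk, hn']
    congr 2
    push_cast
    ring

/-- onto implies (2) -/
lemma C2_of_surj {φ : G →* SQ} (h : Function.Surjective φ) : C2 (cx.comp φ) := by
  obtain ⟨g, hg⟩ := h (uu 1)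
  obtain ⟨k, hk⟩ := h (hh 2 (by norm_num))
  refine ⟨g, k, ?_, ![1, 0], 1, 2, ?_, ?_, ?_⟩
  · intro h1
    rw [MonoidHom.comp_apply, MonoidHom.comp_apply, ← map_mul cx, ← map_mul cx, hg, hk] at h1
    have h2 := cx_inj h1
    have h3 := congrArg (fun z : SQ => z.val 0 1) h2
    simp only [mul_q, uu00, uu01, uu11, hh00, hh01, hh11] at h3
    norm_num at h3
  · intro h1
    have := congrFun h1 0
    simp at this
  · ext i
    rw [MonoidHom.comp_apply, cx_act, hg]
    fin_cases i <;> simp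
  · ext i
    rw [MonoidHom.comp_apply, cx_act, hk]
    fin_cases i <;> simp

/-- onto implies (3) -/
lemma C3_of_surj {φ : G →* SQ} (h : Function.Surjective φ) : C3 (cx.comp φ) := by
  refine ⟨![1, 0], ?_, ?_⟩
  · intro h1
    have := congrFun h1 0
    simp at this
  · intro g₀ hg₀
    have f0 := congrFun hg₀ 0
    have f1 := congrFun hg₀ 1
    rw [MonoidHom.comp_apply, cx_act] at f0 f1
    simp only [Matrix.cons_val_zero, Matrix.cons_val_one, mul_one, mul_zero, add_zero] at f0 f1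
    have f0' : (φ g₀).val 0 0 * 1 + (φ g₀).val 0 1 * 0 = 1 * 1 := by
      have : (φ g₀).val 0 0 = 1 := by exact_mod_cast f0
      rw [this]; ring
    have f1' : (φ g₀).val 1 0 * 1 + (φ g₀).val 1 1 * 0 = 1 * 0 := by
      have : (φ g₀).val 1 0 = 0 := by exact_mod_cast f1
      rw [this]; ring
    obtain ⟨y, y0, y1, y2, y3⟩ := fix_T (φ g₀) 1 1 0 (by norm_num) (Or.inl one_ne_zero) f0' f1'
    rw [one_mul] at y0 y1 y2 y3
    have hy : φ g₀ = T 1 0 y := sq_ext y0 y1 y2 y3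
    -- choose the translation
    obtain ⟨x, hx⟩ : ∃ x : ℚ, ∀ n : ℤ, x ≠ n * y := by
      by_cases hy0 : y = 0
      · exact ⟨1, fun n h => by rw [hy0, mul_zero] at h; exact one_ne_zero h⟩
      · refine ⟨y / 2, fun n h => ?_⟩
        have h2 : (1 : ℚ) = 2 * n := by
          have : y * 1 = y * (2 * n) := by linear_combination 2 * h
          exact mul_left_cancel₀ hy0 this
        have h3 : (1 : ℤ) = 2 * n := by exact_mod_cast h2
        omega
    obtain ⟨g, hg⟩ := h (T 1 0 x)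
    refine ⟨g, ?_, fun n hn => ?_⟩
    · ext i
      rw [MonoidHom.comp_apply, cx_act, hg]
      fin_cases i <;> simp
    · rw [MonoidHom.comp_apply, MonoidHom.comp_apply, ← map_zpow] at hn
      have h2 := cx_inj hn
      rw [hg, hy, T_pow] at h2
      have h3 := congrArg (fun z : SQ => z.val 0 1) h2
      simp only [T01, one_pow, mul_one] at h3
      exact hx n h3

lemma symMat_one_eq (A : Matrix (Fin 2) (Fin 2) ℂ) : symMat 1 A = A := by
  ext i j
  fin_cases i <;> fin_cases j <;> simp [symMat]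

theorem final (hU : PropU G) (ρ : G →* GL (Fin 2) ℂ) (hρ : Irr ρ) :
    ((∃ (N : Subgroup G) (_ : N.Normal), Nonempty (G ⧸ N ≃* SpecialLinearGroup (Fin 2) ℚ)) ↔
      C2 ρ) ∧
    ((∃ (N : Subgroup G) (_ : N.Normal), Nonempty (G ⧸ N ≃* SpecialLinearGroup (Fin 2) ℚ)) ↔
      C3 ρ) := by
  obtain ⟨φ, h1, -, -, h4, h5, -⟩ := structure_final hU
  have hq : (∃ (N : Subgroup G) (_ : N.Normal),
      Nonempty (G ⧸ N ≃* SpecialLinearGroup (Fin 2) ℚ)) ↔ Function.Surjective φ := by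
    rw [← h5]
    constructor
    · rintro ⟨N, hN, ⟨e⟩⟩
      exact ⟨e.toMonoidHom.comp (QuotientGroup.mk' N),
        e.surjective.comp (QuotientGroup.mk'_surjective N)⟩
    · rintro ⟨f, hf⟩
      exact ⟨f.ker, inferInstance, ⟨QuotientGroup.quotientKerEquivOfSurjective f hf⟩⟩
  obtain ⟨P, hP⟩ := (h1 1 ρ).mp hρ
  have hE : Equ (cx.comp φ) ρ := by
    refine ⟨P, fun g => ?_⟩
    apply Units.ext
    rw [hP g, symMat_one_eq]
    rfl
  have hE' : Equ ρ (cx.comp φ) := by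
    obtain ⟨P, hP⟩ := hE
    exact ⟨P⁻¹, fun g => by rw [hP g]; group⟩
  have hφ : Irr (cx.comp φ) := irr_of_equ hE' hρ
  rw [hq]
  exact ⟨⟨fun h => C2_equ hE (C2_of_surj h), fun h => surj_of_C2 hφ h4 (C2_equ hE' h)⟩,
    ⟨fun h => C3_equ hE (C3_of_surj h), fun h => surj_of_C3 hφ h4 (C3_equ hE' h)⟩⟩

end Pool.Agent.Lib.MP_c356f3_al.Bor
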