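import Pool.Agent.Lib.MP_c356f3_al.BorCore

/-!
Subgroups of `SL(2,ℚ)` containing a non-abelian upper triangular subgroup:
reduction to the standing assumption `Ell`, and the main theorem.
-/

namespace Pool.Agent.Lib.MP_c356f3_al.Bor

open SurjAux

/-- the multipliers of an additive subgroup of `ℚ` -/
def multR (N : AddSubgroup ℚ) : Subring ℚ where
  carrier := {s | ∀ x ∈ N, s * x ∈ N}
  mul_mem' := by
    intro s t hs ht x hx
    rw [mul_assoc]
    exact hs _ (ht _ hx)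
  one_mem' := by
    intro x hx
    rwa [one_mul]
  add_mem' := by
    intro s t hs ht x hx
    rw [add_mul]
    exact N.add_mem (hs _ hx) (ht _ hx)
  zero_mem' := by
    intro x _
    rw [zero_mul]
    exact N.zero_mem
  neg_mem' := by
    intro s hs x hx
    rw [neg_mul]
    exact N.neg_mem (hs _ hx)

lemma mem_multR {N : AddSubgroup ℚ} {s : ℚ} : s ∈ multR N ↔ ∀ x ∈ N, s * x ∈ N := Iff.rfl

/-- a ring containing `z` contains `1 / z.den` -/
lemma inv_den_mem (A : Subring ℚ) {z : ℚ} (hz : z ∈ A) : ((z.den : ℚ))⁻¹ ∈ A := by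
  have hcop : IsCoprime z.num (z.den : ℤ) := by
    rw [Int.isCoprime_iff_gcd_eq_one]
    have := z.reduced
    simpa [Int.gcd, Nat.Coprime] using this
  obtain ⟨u, v, huv⟩ := hcop
  have h1 := A.add_mem (A.mul_mem (intCast_mem A u) hz) (intCast_mem A v)
  have h2 : ((u * z.num + v * (z.den : ℤ) : ℤ) : ℚ) = 1 := by rw [huv]; simp
  push_cast at h2
  have hden : (z.den : ℚ) ≠ 0 := by exact_mod_cast z.den_ne_zero
  have h3 : (u : ℚ) * z + v = ((z.den : ℚ))⁻¹ := by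
    have h7 : (z.num : ℚ) = z * z.den := (Rat.mul_den_eq_num z).symm
    rw [h7] at h2
    field_simp
    linear_combination h2
  rwa [h3] at h1

/-- the part of `n` coprime to `N` -/
lemma coprime_part (N : ℕ) (n : ℕ) (hn : 0 < n) :
    ∃ b : ℕ, 0 < b ∧ Nat.Coprime b N ∧ ∃ j : ℕ, n ∣ b * N ^ j := by
  induction n using Nat.strong_induction_on with
  | _ n ih =>
    by_cases hc : Nat.gcd n N = 1
    · exact ⟨n, hn, hc, 0, by simp⟩
    · obtain ⟨n₁, hn₁⟩ := Nat.gcd_dvd_left n N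
      have hg : 0 < Nat.gcd n N := Nat.gcd_pos_of_pos_left _ hn
      have hn₁0 : 0 < n₁ := by
        rcases Nat.eq_zero_or_pos n₁ with h | h
        · rw [h, mul_zero] at hn₁; omega
        · exact h
      have hlt : n₁ < n := by
        conv_rhs => rw [hn₁]
        have : 2 ≤ Nat.gcd n N := by omega
        nlinarith
      obtain ⟨b, hb, hbN, j, hj⟩ := ih n₁ hlt hn₁0
      refine ⟨b, hb, hbN, j + 1, ?_⟩
      rw [hn₁, pow_succ, ← mul_assoc, mul_comm]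
      exact mul_dvd_mul hj (Nat.gcd_dvd_right n N)

/-- an element fixing `(a,c)` up to a sign is a transvection up to the sign -/
lemma fix_T (g : SQ) (l a c : ℚ) (hl : l ^ 2 = 1) (hw : a ≠ 0 ∨ c ≠ 0)
    (h0 : g.val 0 0 * a + g.val 0 1 * c = l * a) (h1 : g.val 1 0 * a + g.val 1 1 * c = l * c) :
    ∃ x, g.val 0 0 = l * (T a c x).val 0 0 ∧ g.val 0 1 = l * (T a c x).val 0 1 ∧
      g.val 1 0 = l * (T a c x).val 1 0 ∧ g.val 1 1 = l * (T a c x).val 1 1 := by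
  have hd := det_q g
  have hl0 : l ≠ 0 := by rintro rfl; norm_num at hl
  simp only [T00, T01, T10, T11]
  by_cases hc : c = 0
  · subst hc
    have ha : a ≠ 0 := by simpa using hw
    have e0 : g.val 0 0 = l := by
      have : (g.val 0 0 - l) * a = 0 := by linear_combination h0
      have := (mul_eq_zero.mp this).resolve_right ha
      linarith
    have e1 : g.val 1 0 = 0 := by
      have : g.val 1 0 * a = 0 := by linear_combination h1
      exact (mul_eq_zero.mp this).resolve_right ha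
    have e2 : g.val 1 1 = l := by
      rw [e0, e1] at hd
      have : l * (g.val 1 1 - l) = 0 := by linear_combination hd - hl
      have := (mul_eq_zero.mp this).resolve_left hl0
      linarith
    refine ⟨l * g.val 0 1 / a ^ 2, ?_, ?_, ?_, ?_⟩
    · rw [e0]; ring
    · field_simp
      linear_combination (-(g.val 0 1)) * hl
    · rw [e1]; ring
    · rw [e2]; ring
  · have e1 : g.val 1 1 = l - g.val 1 0 * a / c := by
      field_simp
      linear_combination h1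
    have e2 : g.val 0 1 = a * (l - g.val 0 0) / c := by
      field_simp
      linear_combination h0
    have e0 : g.val 0 0 = l + g.val 1 0 * a / c := by
      rw [e1, e2] at hd
      have : l * (g.val 0 0 - (l + g.val 1 0 * a / c)) = 0 := by
        field_simp
        field_simp at hd
        linear_combination hd - c * hl
      have := (mul_eq_zero.mp this).resolve_left hl0
      linarith
    refine ⟨-(l * g.val 1 0) / c ^ 2, ?_, ?_, ?_, ?_⟩
    · rw [e0]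
      field_simp
      linear_combination (-(g.val 1 0 * a)) * hl
    · rw [e2, e0]
      field_simp
      linear_combination (a ^ 2 * g.val 1 0) * hl
    · field_simp
      linear_combination (-(g.val 1 0)) * hl
    · rw [e1]
      field_simp
      linear_combination (g.val 1 0 * a) * hl

lemma comap_top {Γ : Subgroup SQ} {P : SQ}
    (h : Γ.comap (MulAut.conj P).toMonoidHom = ⊤) : Γ = ⊤ := by
  rw [eq_top_iff]
  intro x _
  have h1 : P⁻¹ * x * P ∈ Γ.comap (MulAut.conj P).toMonoidHom := by rw [h]; trivial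
  have h2 : P * (P⁻¹ * x * P) * P⁻¹ ∈ Γ := h1
  have : P * (P⁻¹ * x * P) * P⁻¹ = x := by group
  rwa [this] at h2

lemma comap_tr {Γ : Subgroup SQ} (P : SQ)
    (htr : ∀ q : ℕ, q.Prime → ∃ g ∈ Γ, 1 < padicNorm q g.val.trace) :
    ∀ q : ℕ, q.Prime → ∃ g ∈ Γ.comap (MulAut.conj P).toMonoidHom,
      1 < padicNorm q g.val.trace := by
  intro q hq
  obtain ⟨γ, hγ, hγt⟩ := htr q hq
  refine ⟨P⁻¹ * γ * P, ?_, ?_⟩
  · show P * (P⁻¹ * γ * P) * P⁻¹ ∈ Γ
    have : P * (P⁻¹ * γ * P) * P⁻¹ = γ := by group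
    rwa [this]
  · have : (P⁻¹ * γ * P).val.trace = γ.val.trace := by
      rw [val_mul_q, Matrix.trace_mul_comm, ← val_mul_q]
      have e5 : P * (P⁻¹ * γ) = γ := by group
      rw [e5]
    rwa [this]

/-- a frame adapted to a vector and one of its translates -/
lemma frame (Γ : Subgroup SQ) (a c : ℚ)
    (hline : ∃ δ ∈ Γ, a * (δ.val 1 0 * a + δ.val 1 1 * c) -
      c * (δ.val 0 0 * a + δ.val 0 1 * c) ≠ 0) (s : ℚ) (hs0 : s ≠ 0) :
    ∃ (P : SQ) (y : ℚ), 0 < y ∧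
      (∀ x, uu x ∈ Γ.comap (MulAut.conj P).toMonoidHom ↔ x * s ^ 2 ∈ M Γ a c) ∧
      (∀ x, vv (y * x) ∈ Γ.comap (MulAut.conj P).toMonoidHom ↔ x * s ^ 2 ∈ M Γ a c) := by
  obtain ⟨δ, hδ, hD⟩ := hline
  set a₂ := δ.val 0 0 * a + δ.val 0 1 * c with ha₂
  set c₂ := δ.val 1 0 * a + δ.val 1 1 * c with hc₂
  set D := a * c₂ - c * a₂ with hDdef
  have hM2 : ∀ x, x ∈ M Γ a₂ c₂ ↔ x ∈ M Γ a c := fun x => M_move hδ
  let P : SQ := ⟨!![s * a, s⁻¹ * D⁻¹ * a₂; s * c, s⁻¹ * D⁻¹ * c₂], by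
    rw [Matrix.det_fin_two_of]
    have : s * a * (s⁻¹ * D⁻¹ * c₂) - s⁻¹ * D⁻¹ * a₂ * (s * c) = D⁻¹ * (a * c₂ - c * a₂) := by
      field_simp
    rw [this, ← hDdef, inv_mul_cancel₀ hD]⟩
  refine ⟨P, s ^ 4 * D ^ 2, by positivity, ?_, ?_⟩
  · intro x
    show P * uu x * P⁻¹ ∈ Γ ↔ _
    rw [← T_uu, T_conj, ← mem_M]
    have e0 : P.val 0 0 * 1 + P.val 0 1 * 0 = s * a := by
      show s * a * 1 + s⁻¹ * D⁻¹ * a₂ * 0 = s * a
      ring
    have e1 : P.val 1 0 * 1 + P.val 1 1 * 0 = s * c := by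
      show s * c * 1 + s⁻¹ * D⁻¹ * c₂ * 0 = s * c
      ring
    rw [e0, e1, M_smul, mul_comm]
  · intro x
    show P * vv (s ^ 4 * D ^ 2 * x) * P⁻¹ ∈ Γ ↔ _
    have e2 : vv (s ^ 4 * D ^ 2 * x) = T 0 1 (-(s ^ 4 * D ^ 2 * x)) := by
      rw [T_vv]; congr 1; ring
    rw [e2, T_conj, ← mem_M]
    have e0 : P.val 0 0 * 0 + P.val 0 1 * 1 = (s⁻¹ * D⁻¹) * a₂ := by
      show s * a * 0 + s⁻¹ * D⁻¹ * a₂ * 1 = (s⁻¹ * D⁻¹) * a₂
      ring
    have e1 : P.val 1 0 * 0 + P.val 1 1 * 1 = (s⁻¹ * D⁻¹) * c₂ := by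
      show s * c * 0 + s⁻¹ * D⁻¹ * c₂ * 1 = (s⁻¹ * D⁻¹) * c₂
      ring
    rw [e0, e1, M_smul, hM2]
    have e3 : (s⁻¹ * D⁻¹) ^ 2 * -(s ^ 4 * D ^ 2 * x) = -(x * s ^ 2) := by
      field_simp
    rw [e3, neg_mem_iff]

/-- every nonzero subgroup of `ℚ` contains a nonzero square -/
lemma exists_sq (N : AddSubgroup ℚ) {x₀ : ℚ} (hx₀ : x₀ ≠ 0) (hx₀M : x₀ ∈ N) :
    ∃ s : ℚ, s ≠ 0 ∧ s ^ 2 ∈ N := by
  refine ⟨x₀.num, by simpa using hx₀, ?_⟩
  have h1 := N.zsmul_mem hx₀M (x₀.num * (x₀.den : ℤ))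
  convert h1 using 1
  rw [zsmul_eq_mul]
  push_cast
  have h7 : (x₀.num : ℚ) = x₀ * x₀.den := (Rat.mul_den_eq_num x₀).symm
  rw [h7]
  ring

/-- main theorem, for a group containing a hyperbolic element and a transvection with a common
eigenvector -/
theorem main_hyp (Γ : Subgroup SQ)
    (htr : ∀ q : ℕ, q.Prime → ∃ g ∈ Γ, 1 < padicNorm q g.val.trace)
    (a c : ℚ)
    (hline : ∃ δ ∈ Γ, a * (δ.val 1 0 * a + δ.val 1 1 * c) -
      c * (δ.val 0 0 * a + δ.val 0 1 * c) ≠ 0)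
    {x₀ : ℚ} (hx₀ : x₀ ≠ 0) (hx₀M : x₀ ∈ M Γ a c)
    {g' : SQ} (hg' : g' ∈ Γ) {l' : ℚ} (hl'0 : l' ≠ 0) (hl'1 : l' ^ 2 ≠ 1)
    (hg'0 : g'.val 0 0 * a + g'.val 0 1 * c = l' * a)
    (hg'1 : g'.val 1 0 * a + g'.val 1 1 * c = l' * c) : Γ = ⊤ := by
  -- the ring of multipliers
  have hmul : ∀ x, l' ^ 2 * x ∈ M Γ a c ↔ x ∈ M Γ a c := by
    intro x
    rw [← M_smul, ← hg'0, ← hg'1, M_move hg']
  have hS1 : l' ^ 2 ∈ multR (M Γ a c) := fun x hx => (hmul x).mpr hx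
  have hS2 : (l' ^ 2)⁻¹ ∈ multR (M Γ a c) := by
    intro x hx
    rw [← hmul, ← mul_assoc, mul_inv_cancel₀ (pow_ne_zero 2 hl'0), one_mul]
    exact hx
  set A := multR (M Γ a c) with hA
  -- `N = num * den`
  have hpos : 0 < l' ^ 2 := by positivity
  set z := l' ^ 2 with hz
  have hd1 : ((z.den : ℚ))⁻¹ ∈ A := inv_den_mem A hS1
  have hnum0 : 0 < z.num := Rat.num_pos.mpr hpos
  obtain ⟨n, hn⟩ : ∃ n : ℕ, z.num = n := ⟨z.num.toNat, by omega⟩
  have hn0 : 0 < n := by omega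
  have hzn : z = (n : ℚ) / z.den := by
    have := (Rat.num_div_den z).symm
    rw [hn] at this
    simpa using this
  have hn1 : ((n : ℚ))⁻¹ ∈ A := by
    have h1 := A.mul_mem hS2 hd1
    have hden : (z.den : ℚ) ≠ 0 := by exact_mod_cast z.den_ne_zero
    have hnq : (n : ℚ) ≠ 0 := by positivity
    have e1 : (l' ^ 2)⁻¹ * ((z.den : ℚ))⁻¹ = ((n : ℚ))⁻¹ := by
      have e2 : l' ^ 2 = (n : ℚ) / z.den := hzn
      rw [e2]
      field_simp
    rw [e1] at h1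
    exact h1
  set N : ℕ := n * z.den with hN
  have hden0 : 0 < z.den := z.den_pos
  have hNinv : ((N : ℚ))⁻¹ ∈ A := by
    have h1 := A.mul_mem hn1 hd1
    rw [← mul_inv] at h1
    rw [hN]
    push_cast
    exact h1
  have hN2 : 2 ≤ N := by
    by_contra hlt
    have h1 : N = 1 := by
      have : 0 < N := Nat.mul_pos hn0 hden0
      omega
    have h2 : n = 1 := Nat.eq_one_of_mul_eq_one_right h1
    have h3 : z.den = 1 := Nat.eq_one_of_mul_eq_one_left h1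
    apply hl'1
    rw [hzn, h2, h3]
    norm_num
  obtain ⟨s, hs0, hsM⟩ := exists_sq (M Γ a c) hx₀ hx₀M
  obtain ⟨P, y, hy0, hPu, hPv⟩ := frame Γ a c hline s hs0
  set Γ' := Γ.comap (MulAut.conj P).toMonoidHom with hΓ'
  have huA : ∀ x ∈ A, uu x ∈ Γ' := fun x hx => (hPu x).mpr (hx _ hsM)
  -- the number `b`
  obtain ⟨n₂, hn₂⟩ : ∃ n₂ : ℕ, y.num = n₂ := ⟨y.num.toNat, by
    have := Rat.num_pos.mpr hy0
    omega⟩
  have hn₂0 : 0 < n₂ := by
    have := Rat.num_pos.mpr hy0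
    omega
  obtain ⟨b, hb0, hbN, j, t, ht⟩ := coprime_part N n₂ hn₂0
  have hNq : (N : ℚ) ≠ 0 := by
    have : 0 < N := by omega
    positivity
  obtain ⟨s₀, hs₀, hbs⟩ : ∃ s₀ ∈ A, (b : ℚ) = y * s₀ := by
    refine ⟨(y.den * t : ℤ) * (((N : ℚ))⁻¹) ^ j, A.mul_mem (intCast_mem A _)
      (A.pow_mem hNinv j), ?_⟩
    have ht' : (b : ℚ) * (N : ℚ) ^ j = n₂ * t := by exact_mod_cast ht
    have h7 : (n₂ : ℚ) = y * y.den := by
      have := (Rat.mul_den_eq_num y).symm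
      rw [hn₂] at this
      simpa using this
    rw [inv_pow]
    push_cast
    field_simp
    rw [ht', h7]
  have hvA : ∀ x ∈ A, vv (b * x) ∈ Γ' := by
    intro x hx
    have e2 : (b : ℚ) * x = y * (s₀ * x) := by rw [hbs]; ring
    rw [e2, hPv]
    exact (A.mul_mem hs₀ hx) _ hsM
  -- the number `r`
  have hφ : 0 < Nat.totient (b ^ 2) := Nat.totient_pos.mpr (by positivity)
  have hE : Ell Γ' A (N ^ Nat.totient (b ^ 2)) b := by
    refine ⟨?_, hb0, ?_, ?_, huA, hvA⟩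
    · calc 2 ≤ N := hN2
        _ ≤ N ^ Nat.totient (b ^ 2) := Nat.le_self_pow hφ.ne' N
    · have h1 : N ^ Nat.totient (b ^ 2) ≡ 1 [MOD b ^ 2] :=
        Nat.ModEq.pow_totient (Nat.Coprime.pow_right 2 hbN.symm)
      have h2 := Int.natCast_modEq_iff.mpr h1
      have h3 := Int.modEq_iff_dvd.mp h2.symm
      push_cast at h3
      push_cast
      exact h3
    · push_cast
      rw [← inv_pow]
      exact A.pow_mem hNinv _
  exact comap_top (hE.eq_top (comap_tr P htr))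

/-- main theorem on subgroups of `SL(2,ℚ)` -/
theorem main (Γ : Subgroup SQ)
    (htr : ∀ q : ℕ, q.Prime → ∃ g ∈ Γ, 1 < padicNorm q g.val.trace)
    (a c : ℚ) (hw : a ≠ 0 ∨ c ≠ 0)
    (hline : ∃ δ ∈ Γ, a * (δ.val 1 0 * a + δ.val 1 1 * c) -
      c * (δ.val 0 0 * a + δ.val 0 1 * c) ≠ 0)
    (g h : SQ) (hg : g ∈ Γ) (hh : h ∈ Γ) (hgh : g * h ≠ h * g) (l m : ℚ)
    (hg0 : g.val 0 0 * a + g.val 0 1 * c = l * a) (hg1 : g.val 1 0 * a + g.val 1 1 * c = l * c)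
    (hh0 : h.val 0 0 * a + h.val 0 1 * c = m * a) (hh1 : h.val 1 0 * a + h.val 1 1 * c = m * c) :
    Γ = ⊤ := by
  -- eigenvalues are not zero
  have eig_ne : ∀ (g : SQ) (l : ℚ), g.val 0 0 * a + g.val 0 1 * c = l * a →
      g.val 1 0 * a + g.val 1 1 * c = l * c → l ≠ 0 := by
    rintro g l h0 h1 rfl
    have hd := det_q g
    have ha : a = 0 := by linear_combination (-a) * hd + g.val 1 1 * h0 - g.val 0 1 * h1
    have hc : c = 0 := by linear_combination (-c) * hd + g.val 0 0 * h1 - g.val 1 0 * h0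
    rcases hw with h | h
    · exact h ha
    · exact h hc
  have hl0 : l ≠ 0 := eig_ne g l hg0 hg1
  have hm0 : m ≠ 0 := eig_ne h m hh0 hh1
  -- one of the eigenvalues is not `± 1`
  obtain ⟨g', l', hg', hl'0, hl'1, hg'0, hg'1⟩ : ∃ (g' : SQ) (l' : ℚ), g' ∈ Γ ∧ l' ≠ 0 ∧
      l' ^ 2 ≠ 1 ∧ g'.val 0 0 * a + g'.val 0 1 * c = l' * a ∧
      g'.val 1 0 * a + g'.val 1 1 * c = l' * c := by
    by_cases h1 : l ^ 2 = 1
    · by_cases h2 : m ^ 2 = 1
      · exfalso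
        apply hgh
        obtain ⟨x, x0, x1, x2, x3⟩ := fix_T g l a c h1 hw hg0 hg1
        obtain ⟨y, y0, y1, y2, y3⟩ := fix_T h m a c h2 hw hh0 hh1
        apply sq_ext <;> simp only [mul_q, x0, x1, x2, x3, y0, y1, y2, y3, T00, T01, T10, T11] <;>
          ring
      · exact ⟨h, m, hh, hm0, h2, hh0, hh1⟩
    · exact ⟨g, l, hg, hl0, h1, hg0, hg1⟩
  -- the commutator
  obtain ⟨x₀, hx₀, hx₀M⟩ : ∃ x₀ : ℚ, x₀ ≠ 0 ∧ x₀ ∈ M Γ a c := by
    have hk : g * h * g⁻¹ * h⁻¹ ∈ Γ :=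
      Γ.mul_mem (Γ.mul_mem (Γ.mul_mem hg hh) (Γ.inv_mem hg)) (Γ.inv_mem hh)
    have inv_eig : ∀ (g : SQ) (l : ℚ), l ≠ 0 → g.val 0 0 * a + g.val 0 1 * c = l * a →
        g.val 1 0 * a + g.val 1 1 * c = l * c →
        (g⁻¹).val 0 0 * a + (g⁻¹).val 0 1 * c = l⁻¹ * a ∧
        (g⁻¹).val 1 0 * a + (g⁻¹).val 1 1 * c = l⁻¹ * c := by
      intro g l hl h0 h1
      have hd := det_q g
      rw [inv_q]
      simp only [Matrix.of_apply, Matrix.cons_val', Matrix.cons_val_zero, Matrix.cons_val_one,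
        Matrix.cons_val_fin_one]
      constructor
      · field_simp
        linear_combination a * hd - g.val 1 1 * h0 + g.val 0 1 * h1
      · field_simp
        linear_combination c * hd - g.val 0 0 * h1 + g.val 1 0 * h0
    have mul_eig : ∀ (g h : SQ) (l m : ℚ), g.val 0 0 * a + g.val 0 1 * c = l * a →
        g.val 1 0 * a + g.val 1 1 * c = l * c → h.val 0 0 * a + h.val 0 1 * c = m * a →
        h.val 1 0 * a + h.val 1 1 * c = m * c →
        (g * h).val 0 0 * a + (g * h).val 0 1 * c = (l * m) * a ∧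
        (g * h).val 1 0 * a + (g * h).val 1 1 * c = (l * m) * c := by
      intro g h l m h0 h1 k0 k1
      constructor
      · rw [mul_q, mul_q]
        linear_combination g.val 0 0 * k0 + g.val 0 1 * k1 + m * h0
      · rw [mul_q, mul_q]
        linear_combination g.val 1 0 * k0 + g.val 1 1 * k1 + m * h1
    obtain ⟨gi0, gi1⟩ := inv_eig g l hl0 hg0 hg1
    obtain ⟨hi0, hi1⟩ := inv_eig h m hm0 hh0 hh1
    obtain ⟨p0, p1⟩ := mul_eig g h l m hg0 hg1 hh0 hh1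
    obtain ⟨q0, q1⟩ := mul_eig (g * h) g⁻¹ (l * m) l⁻¹ p0 p1 gi0 gi1
    obtain ⟨r0, r1⟩ := mul_eig (g * h * g⁻¹) h⁻¹ (l * m * l⁻¹) m⁻¹ q0 q1 hi0 hi1
    have e1 : l * m * l⁻¹ * m⁻¹ = 1 := by field_simp
    rw [e1] at r0 r1
    obtain ⟨x, x0, x1, x2, x3⟩ := fix_T _ 1 a c (by norm_num) hw r0 r1
    rw [one_mul] at x0 x1 x2 x3
    have hkT : g * h * g⁻¹ * h⁻¹ = T a c x := sq_ext x0 x1 x2 x3
    refine ⟨x, ?_, ?_⟩
    · rintro rfl
      apply hgh
      rw [T_zero] at hkT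
      have : g * h = (g * h * g⁻¹ * h⁻¹) * (h * g) := by group
      rw [this, hkT, one_mul]
    · rw [mem_M, ← hkT]
      exact hk
  exact main_hyp Γ htr a c hline hx₀ hx₀M hg' hl'0 hl'1 hg'0 hg'1

end Pool.Agent.Lib.MP_c356f3_al.Bor
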