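import Pool.Agent.Lib.MP_c356f3_al.Surj

/-!
Subgroups of `SL(2,ℚ)` containing a non-abelian upper triangular subgroup:
transvections, and the elements `diag (u, 1/u)`.
-/

namespace Pool.Agent.Lib.MP_c356f3_al.Bor

open Matrix SurjAux

/-- the transvection `w ↦ w + x det(v,w) v`, where `v = (a,c)` -/
def T (a c x : ℚ) : SQ := ⟨!![1 - x * a * c, x * a ^ 2; -(x * c ^ 2), 1 + x * a * c], by
  rw [Matrix.det_fin_two_of]; ring⟩

@[simp] lemma T00 (a c x : ℚ) : (T a c x).val 0 0 = 1 - x * a * c := rfl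
@[simp] lemma T01 (a c x : ℚ) : (T a c x).val 0 1 = x * a ^ 2 := rfl
@[simp] lemma T10 (a c x : ℚ) : (T a c x).val 1 0 = -(x * c ^ 2) := rfl
@[simp] lemma T11 (a c x : ℚ) : (T a c x).val 1 1 = 1 + x * a * c := rfl

lemma T_uu (x : ℚ) : T 1 0 x = uu x := by
  apply sq_ext <;> simp

lemma T_uu' (a x : ℚ) : T a 0 x = uu (a ^ 2 * x) := by
  apply sq_ext <;> simp [mul_comm]

lemma T_vv (c x : ℚ) : T 0 c x = vv (-(c ^ 2 * x)) := by
  apply sq_ext <;> simp [mul_comm]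

lemma T_add (a c x y : ℚ) : T a c (x + y) = T a c x * T a c y := by
  apply sq_ext <;> rw [mul_q] <;> simp <;> ring

lemma T_zero (a c : ℚ) : T a c 0 = 1 := by
  apply sq_ext <;> simp

lemma T_neg (a c x : ℚ) : T a c (-x) = (T a c x)⁻¹ := by
  apply eq_inv_of_mul_eq_one_left
  rw [← T_add, neg_add_cancel, T_zero]

lemma T_smul (k a c x : ℚ) : T (k * a) (k * c) x = T a c (k ^ 2 * x) := by
  apply sq_ext <;> simp <;> ring

lemma T_conj (g : SQ) (a c x : ℚ) :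
    g * T a c x * g⁻¹ =
      T (g.val 0 0 * a + g.val 0 1 * c) (g.val 1 0 * a + g.val 1 1 * c) x := by
  rw [mul_inv_eq_iff_eq_mul]
  have h := det_q g
  apply sq_ext <;> rw [mul_q, mul_q] <;> simp only [T00, T01, T10, T11]
  · linear_combination (x * c * (g.val 0 0 * a + g.val 0 1 * c)) * h
  · linear_combination (-x * a * (g.val 0 0 * a + g.val 0 1 * c)) * h
  · linear_combination (x * c * (g.val 1 0 * a + g.val 1 1 * c)) * h
  · linear_combination (-x * a * (g.val 1 0 * a + g.val 1 1 * c)) * h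

/-- the transvections along `(a,c)` contained in `Γ` -/
def M (Γ : Subgroup SQ) (a c : ℚ) : AddSubgroup ℚ where
  carrier := {x | T a c x ∈ Γ}
  zero_mem' := by show T a c 0 ∈ Γ; rw [T_zero]; exact Γ.one_mem
  add_mem' := by
    intro x y hx hy
    show T a c (x + y) ∈ Γ
    rw [T_add]; exact Γ.mul_mem hx hy
  neg_mem' := by
    intro x hx
    show T a c (-x) ∈ Γ
    rw [T_neg]; exact Γ.inv_mem hx

lemma mem_M {Γ : Subgroup SQ} {a c x : ℚ} : x ∈ M Γ a c ↔ T a c x ∈ Γ := Iff.rfl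

lemma M_smul {Γ : Subgroup SQ} {k a c x : ℚ} : x ∈ M Γ (k * a) (k * c) ↔ k ^ 2 * x ∈ M Γ a c := by
  rw [mem_M, mem_M, T_smul]

lemma M_move {Γ : Subgroup SQ} {g : SQ} (hg : g ∈ Γ) {a c x : ℚ} :
    x ∈ M Γ (g.val 0 0 * a + g.val 0 1 * c) (g.val 1 0 * a + g.val 1 1 * c) ↔ x ∈ M Γ a c := by
  rw [mem_M, mem_M, ← T_conj]
  constructor
  · intro h
    have h2 := Γ.mul_mem (Γ.mul_mem (Γ.inv_mem hg) h) hg
    have e : g⁻¹ * (g * T a c x * g⁻¹) * g = T a c x := by group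
    rwa [e] at h2
  · intro h
    exact Γ.mul_mem (Γ.mul_mem hg h) (Γ.inv_mem hg)

lemma M_move_uu {Γ : Subgroup SQ} {y : ℚ} (hg : uu y ∈ Γ) {a c x : ℚ} :
    x ∈ M Γ (a + y * c) c ↔ x ∈ M Γ a c := by
  have := M_move (x := x) (a := a) (c := c) hg
  simpa using this

lemma M_move_vv {Γ : Subgroup SQ} {y : ℚ} (hg : vv y ∈ Γ) {a c x : ℚ} :
    x ∈ M Γ a (y * a + c) ↔ x ∈ M Γ a c := by
  have := M_move (x := x) (a := a) (c := c) hg
  simpa using this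

/-- the standing assumption: `Γ` contains `uu A` and `vv (b A)` for a ring `A ⊂ ℚ` in which the
integer `r ≥ 2` is invertible, and `b ^ 2` divides `r - 1` -/
structure Ell (Γ : Subgroup SQ) (A : Subring ℚ) (r b : ℕ) : Prop where
  two : 2 ≤ r
  pos : 1 ≤ b
  dvd : (b : ℤ) ^ 2 ∣ (r : ℤ) - 1
  inv : ((r : ℚ))⁻¹ ∈ A
  hu : ∀ x ∈ A, uu x ∈ Γ
  hv : ∀ x ∈ A, vv (b * x) ∈ Γ

/-- the diagonal matrix `diag (u, 1/u)` -/
def hh (u : ℚ) (hu : u ≠ 0) : SQ := ⟨!![u, 0; 0, u⁻¹], by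
  rw [Matrix.det_fin_two_of, mul_inv_cancel₀ hu]; ring⟩

@[simp] lemma hh00 (u : ℚ) (hu : u ≠ 0) : (hh u hu).val 0 0 = u := rfl
@[simp] lemma hh01 (u : ℚ) (hu : u ≠ 0) : (hh u hu).val 0 1 = 0 := rfl
@[simp] lemma hh10 (u : ℚ) (hu : u ≠ 0) : (hh u hu).val 1 0 = 0 := rfl
@[simp] lemma hh11 (u : ℚ) (hu : u ≠ 0) : (hh u hu).val 1 1 = u⁻¹ := rfl

lemma hh_mul (u v : ℚ) (hu : u ≠ 0) (hv : v ≠ 0) :
    hh u hu * hh v hv = hh (u * v) (mul_ne_zero hu hv) := by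
  apply sq_ext <;> rw [mul_q] <;> simp [mul_comm]

lemma hh_eq (r : ℚ) (hr : r ≠ 0) :
    hh r hr = vv (-((r - 1) * r⁻¹)) * uu 1 * vv (r - 1) * uu (-r⁻¹) := by
  apply sq_ext <;> simp only [mul_q, hh00, hh01, hh10, hh11, uu00, uu01, uu10, uu11, vv00, vv01,
    vv10, vv11] <;> field_simp <;> ring

lemma prod_T (u a b c s : ℚ) (hu : u ≠ 0) (h : u ^ 2 - 1 = a * b * c * s) :
    hh u hu * uu (-(a * a * b * s * (u ^ 2)⁻¹)) * (vv (b * (c * c * s * (u ^ 2)⁻¹)) * hh u hu) =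
      T a c (-(b * s * (u ^ 2)⁻¹)) := by
  apply sq_ext <;> simp only [mul_q, hh00, hh01, hh10, hh11, uu00, uu01, uu10, uu11, vv00, vv01,
    vv10, vv11, T00, T01, T10, T11]
  · field_simp
    linear_combination (u ^ 2 + a * b * c * s) * h
  · field_simp
    ring
  · field_simp
    ring
  · field_simp
    linear_combination (-u ^ 2) * h

lemma hu_move (u a b c s : ℚ) (hu : u ≠ 0) (h : u ^ 2 - 1 = a * b * c * s) :
    (hh u hu * uu (-(a * a * b * s * (u ^ 2)⁻¹))).val 0 0 * a +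
      (hh u hu * uu (-(a * a * b * s * (u ^ 2)⁻¹))).val 0 1 * c = u⁻¹ * a := by
  simp only [mul_q, hh00, hh01, uu00, uu01, uu10, uu11]
  field_simp
  linear_combination a * h

lemma hu_move' (u a b c s : ℚ) (hu : u ≠ 0) :
    (hh u hu * uu (-(a * a * b * s * (u ^ 2)⁻¹))).val 1 0 * a +
      (hh u hu * uu (-(a * a * b * s * (u ^ 2)⁻¹))).val 1 1 * c = u⁻¹ * c := by
  simp only [mul_q, hh10, hh11, uu00, uu01, uu10, uu11]
  ring

namespace Ell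

variable {Γ : Subgroup SQ} {A : Subring ℚ} {r b : ℕ} (E : Ell Γ A r b)
include E

lemma r_ne : (r : ℚ) ≠ 0 := by
  have := E.two
  positivity

lemma int_mem (n : ℤ) : (n : ℚ) ∈ A := by
  have := E.two
  exact intCast_mem A n

lemma uu_int (n : ℤ) : uu n ∈ Γ := E.hu _ (E.int_mem n)

lemma vv_int (n : ℤ) : vv (b * n) ∈ Γ := E.hv _ (E.int_mem n)

lemma vv_int' {m : ℤ} (h : (b : ℤ) ∣ m) : vv m ∈ Γ := by
  obtain ⟨n, rfl⟩ := h
  have := E.vv_int n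
  push_cast
  exact this

lemma inv_pow_mem (k : ℕ) : (((r : ℚ)) ^ k)⁻¹ ∈ A := by
  rw [← inv_pow]
  exact A.pow_mem E.inv k

lemma hh_mem : hh r E.r_ne ∈ Γ := by
  rw [hh_eq]
  obtain ⟨s, hs⟩ := E.dvd
  have hs' : ((r : ℚ) - 1) = b * (b * s) := by
    have h2 : (((r : ℤ) - 1 : ℤ) : ℚ) = (((b : ℤ) ^ 2 * s : ℤ) : ℚ) := by rw [hs]
    push_cast at h2
    rw [h2]; ring
  have hbs : ((b : ℚ) * s) ∈ A := by
    have := E.int_mem (b * s)
    push_cast at this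
    exact this
  refine Γ.mul_mem (Γ.mul_mem (Γ.mul_mem ?_ ?_) ?_) ?_
  · have h1 := E.hv (-((b : ℚ) * s * ((r : ℚ))⁻¹)) (A.neg_mem (A.mul_mem hbs E.inv))
    convert h1 using 2
    rw [hs']; ring
  · have := E.uu_int 1
    simpa using this
  · rw [hs']
    exact E.hv _ hbs
  · exact E.hu _ (A.neg_mem E.inv)

lemma hh_pow_mem (k : ℕ) : hh ((r : ℚ) ^ k) (pow_ne_zero k E.r_ne) ∈ Γ := by
  induction k with
  | zero =>
    have : hh ((r : ℚ) ^ 0) (pow_ne_zero 0 E.r_ne) = 1 := by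
      apply sq_ext <;> simp
    rw [this]
    exact Γ.one_mem
  | succ k ih =>
    have h := Γ.mul_mem ih E.hh_mem
    rw [hh_mul] at h
    convert h using 2
    exact pow_succ _ _

/-- (Wid): if `a b c` divides `r ^ (2 k) - 1` then `r ^ (2 k) - 1 ∈ M (a,c)` and `M (a,c)` is
stable under multiplication by `r ^ (± 2 k)` -/
lemma wid (k : ℕ) (a c : ℤ) (ha : a ≠ 0) (hc : c ≠ 0)
    (hd : a * (b : ℤ) * c ∣ (r : ℤ) ^ (2 * k) - 1) :
    ((r : ℚ) ^ (2 * k) - 1) ∈ M Γ a c ∧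
      (∀ x ∈ M Γ a c, (r : ℚ) ^ (2 * k) * x ∈ M Γ a c) ∧
      (∀ x ∈ M Γ a c, ((r : ℚ) ^ (2 * k))⁻¹ * x ∈ M Γ a c) := by
  obtain ⟨s, hs⟩ := hd
  have hu0 : ((r : ℚ) ^ k) ≠ 0 := pow_ne_zero k E.r_ne
  set u : ℚ := (r : ℚ) ^ k with hu
  have hu2 : (r : ℚ) ^ (2 * k) = u ^ 2 := by rw [hu, ← pow_mul, mul_comm]
  have ha' : (a : ℚ) ≠ 0 := by exact_mod_cast ha
  have hc' : (c : ℚ) ≠ 0 := by exact_mod_cast hc
  have hs' : u ^ 2 - 1 = a * b * c * s := by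
    have h2 : (((r : ℤ) ^ (2 * k) - 1 : ℤ) : ℚ) = ((a * (b : ℤ) * c * s : ℤ) : ℚ) := by rw [hs]
    push_cast at h2
    rw [← hu2, h2]
  have hui : (u ^ 2)⁻¹ ∈ A := by
    rw [← hu2]; exact E.inv_pow_mem _
  have hh := E.hh_pow_mem k
  have m1 : -((a : ℚ) * a * b * s * (u ^ 2)⁻¹) ∈ A := by
    refine A.neg_mem (A.mul_mem ?_ hui)
    have := E.int_mem (a * a * b * s)
    push_cast at this
    exact this
  have m2 : ((c : ℚ) * c * s * (u ^ 2)⁻¹) ∈ A := by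
    refine A.mul_mem ?_ hui
    have := E.int_mem (c * c * s)
    push_cast at this
    exact this
  have g1 := Γ.mul_mem hh (E.hu _ m1)
  have g2 := Γ.mul_mem (E.hv _ m2) hh
  -- stability
  have key : ∀ x : ℚ, (u ^ 2)⁻¹ * x ∈ M Γ a c ↔ x ∈ M Γ a c := by
    intro x
    rw [← M_move (x := x) g1]
    rw [hu_move u a b c s hu0 hs', hu_move' u a b c s hu0, M_smul, inv_pow]
  have hprod := Γ.mul_mem g1 g2
  rw [prod_T u a b c s hu0 hs'] at hprod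
  have h0 : -(b * s * (u ^ 2)⁻¹) ∈ M Γ a c := hprod
  have h1 : -(b * s : ℚ) ∈ M Γ a c := by
    rw [← key]
    convert h0 using 1
    ring
  refine ⟨?_, ?_, ?_⟩
  · rw [hu2, hs']
    have h2 := (M Γ a c).zsmul_mem h1 (-(a * c))
    convert h2 using 1
    rw [zsmul_eq_mul]
    push_cast
    ring
  · intro x hx
    rw [hu2, ← key]
    have : (u ^ 2)⁻¹ * (u ^ 2 * x) = x := by field_simp
    rwa [this]
  · intro x hx
    rw [hu2, key]
    exact hx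

end Ell

end Pool.Agent.Lib.MP_c356f3_al.Bor
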