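import Mathlib

/-!
Springer's question (groups with exactly one irreducible complex representation in each
dimension): definitions used in the statement of the structure theorem.
-/

namespace Pool.Agent.Lib.MP_c356f3_al

open Matrix Polynomial

/-- An `n`-dimensional representation is irreducible if `0 < n` and the only invariant subspaces
are `0` and the whole space. -/
def Irr {G : Type*} [Group G] {n : ℕ} (ρ : G →* GL (Fin n) ℂ) : Prop :=
  0 < n ∧ ∀ W : Submodule ℂ (Fin n → ℂ),
    (∀ g : G, ∀ v ∈ W, (ρ g : Matrix (Fin n) (Fin n) ℂ) *ᵥ v ∈ W) → W = ⊥ ∨ W = ⊤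

/-- Two representations of the same dimension are isomorphic (conjugate). -/
def Equ {G : Type*} [Group G] {n : ℕ} (ρ σ : G →* GL (Fin n) ℂ) : Prop :=
  ∃ P : GL (Fin n) ℂ, ∀ g : G, σ g = P * ρ g * P⁻¹

/-- Property (U): in every dimension `n ≥ 1` there is exactly one irreducible complex
representation up to isomorphism. -/
def PropU (G : Type*) [Group G] : Prop :=
  ∀ n : ℕ, 0 < n → (∃ ρ : G →* GL (Fin n) ℂ, Irr ρ) ∧
    ∀ ρ σ : G →* GL (Fin n) ℂ, Irr ρ → Irr σ → Equ ρ σ

/-- The `m`-th symmetric power of a `2 × 2` matrix `(a b; c d)`, that is the matrix of its action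
on binary forms of degree `m` in the basis `u^(m-i) v^i`: column `i` lists the coefficients of
`(a u + c v)^(m-i) (b u + d v)^i` (written with `u = 1`, `v = X`). -/
noncomputable def symMat {R : Type*} [CommRing R] (m : ℕ) (A : Matrix (Fin 2) (Fin 2) R) :
    Matrix (Fin (m + 1)) (Fin (m + 1)) R :=
  fun j i => ((C (A 0 0) + C (A 1 0) * X) ^ (m - (i : ℕ)) *
    (C (A 0 1) + C (A 1 1) * X) ^ (i : ℕ)).coeff (j : ℕ)

end Pool.Agent.Lib.MP_c356f3_al
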