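import Pool.Agent.Lib.MP_c356f3_al.DenTree

/-!
The action of `SL(2,ℚ_p)` on the tree of balls.
-/

namespace Pool.Agent.Lib.MP_c356f3_al.Den

section act

variable {p : ℕ} [hp : Fact p.Prime]

abbrev SK (p : ℕ) [Fact p.Prime] : Type := Matrix.SpecialLinearGroup (Fin 2) ℚ_[p]

lemma mm_shift {n : ℤ} {b b' : ℚ_[p]} (h : ‖b - b'‖ ≤ (p : ℝ) ^ n) :
    ∃ k : MK p, Good k ∧ mm n b' = mm n b * k := by
  have hpn' : (p : ℚ_[p]) ^ (-n) * (p : ℚ_[p]) ^ n = 1 := by
    rw [← zpow_add₀ pQ_ne, neg_add_cancel, zpow_zero]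
  have hpr : (0 : ℝ) < (p : ℝ) ^ n := zpow_pos p_pos _
  have hx : ‖(p : ℚ_[p]) ^ n * (b' - b)‖ ≤ 1 := by
    rw [norm_mul, norm_zpow, Padic.norm_p, inv_zpow, norm_sub_rev, inv_mul_le_one₀ hpr]
    exact h
  refine ⟨!![1, (p : ℚ_[p]) ^ n * (b' - b); 0, 1], ⟨?_, ?_⟩, ?_⟩
  · intro i j
    fin_cases i <;> fin_cases j
    · simp
    · exact hx
    · simp
    · simp
  · rw [Matrix.det_fin_two_of]; simp
  · ext i j
    rw [mul_apply']
    fin_cases i <;> fin_cases j <;> simp [mm]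
    linear_combination (-(b' - b)) * (by simpa using hpn' : ((p : ℚ_[p]) ^ n)⁻¹ * (p : ℚ_[p]) ^ n = 1)

/-- the action on vertices -/
noncomputable def sm (g : SK p) : Vtx p → Vtx p :=
  Quotient.lift (fun u : ℤ × ℚ_[p] => bet (g.val * mm u.1 u.2)) (by
    rintro ⟨n, b⟩ ⟨n', b'⟩ ⟨h1, h2⟩
    obtain rfl : n = n' := h1
    obtain ⟨k, hk, e⟩ := mm_shift h2
    show bet (g.val * mm n b) = bet (g.val * mm n b')
    rw [e, ← Matrix.mul_assoc, bet_mul _ hk]
    rw [Matrix.det_mul, g.property, one_mul]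
    exact mm_det_ne n b)

lemma sm_mk (g : SK p) (n : ℤ) (b : ℚ_[p]) : sm g (mk n b) = bet (g.val * mm n b) := rfl

lemma gdet_ne (g : SK p) {M : MK p} (h : M.det ≠ 0) : (g.val * M).det ≠ 0 := by
  rw [Matrix.det_mul, g.property, one_mul]; exact h

lemma sm_bet (g : SK p) {M : MK p} (h : M.det ≠ 0) : sm g (bet M) = bet (g.val * M) := by
  obtain ⟨n, b, hb⟩ := mk_surj (bet M)
  obtain ⟨c, k, hc, hk, e⟩ := decomp h hb
  rw [hb, sm_mk, e, Matrix.mul_smul, ← Matrix.mul_assoc]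
  rw [bet_smul hc (det_mul_ne (gdet_ne g (mm_det_ne n b)) hk),
    bet_mul (gdet_ne g (mm_det_ne n b)) hk]

noncomputable instance : MulAction (SK p) (Vtx p) where
  smul := sm
  one_smul v := by
    obtain ⟨n, b, rfl⟩ := mk_surj v
    show sm 1 (mk n b) = mk n b
    rw [sm_mk]
    have : (1 : SK p).val * mm n b = mm n b := Matrix.one_mul _
    rw [this, bet_mm]
  mul_smul g h v := by
    obtain ⟨n, b, rfl⟩ := mk_surj v
    show sm (g * h) (mk n b) = sm g (sm h (mk n b))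
    rw [sm_mk, sm_mk, sm_bet g (gdet_ne h (mm_det_ne n b)), ← Matrix.mul_assoc]
    rfl

lemma smul_mk (g : SK p) (n : ℤ) (b : ℚ_[p]) : g • mk n b = bet (g.val * mm n b) := rfl

lemma smul_bet (g : SK p) {M : MK p} (h : M.det ≠ 0) : g • bet M = bet (g.val * M) := sm_bet g h

/-- multiplication of the first column by `1 / p` -/
noncomputable def st (M : MK p) : MK p := !![M 0 0 / p, M 0 1; M 1 0 / p, M 1 1]

lemma mm_st (n : ℤ) (b : ℚ_[p]) : mm (n + 1) b = st (mm n b) := by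
  have h : (p : ℚ_[p]) ^ (-(n + 1)) = (p : ℚ_[p]) ^ (-n) / p := by
    rw [neg_add, zpow_add₀ pQ_ne, zpow_neg_one, div_eq_mul_inv]
  unfold st mm
  rw [h]
  simp

lemma mul_st (g M : MK p) : g * st M = st (g * M) := by
  ext i j
  rw [mul_apply']
  fin_cases i <;> fin_cases j <;> simp [st, Matrix.mul_apply, Fin.sum_univ_two] <;> ring

lemma st_det (M : MK p) : (st M).det = M.det / p := by
  rw [st, Matrix.det_fin_two_of, Matrix.det_fin_two M]; ring

/-- the two cases for an edge: `bet (st M)` is the parent of `bet M` or conversely -/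
lemma st_cases {M : MK p} (h : M.det ≠ 0) :
    bet (st M) = par (bet M) ∨ bet M = par (bet (st M)) := by
  have hpn : ‖(p : ℚ_[p])‖ = ((p : ℝ))⁻¹ := Padic.norm_p
  have hp0 := p_pos (p := p)
  have hp1 := p_one_lt (p := p)
  have hz : ‖M 1 0 / (p : ℚ_[p])‖ = p * ‖M 1 0‖ := by
    rw [norm_div, hpn]; field_simp
  have hdet' : (st M).det ≠ 0 := by rw [st_det]; exact div_ne_zero h pQ_ne
  have hmx := mx_pos h
  have hmx' := mx_pos hdet'
  have hdn : ‖(st M).det‖ = p * ‖M.det‖ := by rw [st_det, norm_div, hpn]; field_simp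
  have m1 : mx (st M) = max (p * ‖M 1 0‖) ‖M 1 1‖ := by
    unfold mx
    show max ‖M 1 0 / (p : ℚ_[p])‖ ‖M 1 1‖ = _
    rw [hz]
  by_cases hle : p * ‖M 1 0‖ ≤ ‖M 1 1‖
  · left
    have hle' : ‖M 1 0‖ ≤ ‖M 1 1‖ := by
      refine le_trans ?_ hle
      exact le_mul_of_one_le_left (norm_nonneg _) hp1.le
    have c1 : cen (st M) = M 0 1 / M 1 1 := by
      unfold cen
      rw [if_pos]
      · rfl
      · show ‖M 1 0 / (p : ℚ_[p])‖ ≤ ‖M 1 1‖
        rw [hz]; exact hle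
    have c2 : cen M = M 0 1 / M 1 1 := by unfold cen; rw [if_pos hle']
    have m2 : mx (st M) = ‖M 1 1‖ := by rw [m1, max_eq_right hle]
    have m3 : mx M = ‖M 1 1‖ := max_eq_right hle'
    have l1 : lv (st M) = lv M + 1 := by
      apply zpow_inj (p := p)
      rw [rad hdet', zpow_add₀ hp0.ne', rad h, m2, m3, hdn, zpow_one]
      ring
    rw [bet, bet, par_mk, mk_eq, c1, c2, l1, sub_self, norm_zero]
    exact ⟨rfl, (zpow_pos hp0 _).le⟩
  · right
    push Not at hle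
    -- norms are discrete
    have hle' : ‖M 1 1‖ ≤ ‖M 1 0‖ := by
      have hz0 : M 1 0 ≠ 0 := by
        intro h0; rw [h0, norm_zero, mul_zero] at hle
        exact absurd hle (not_lt.mpr (norm_nonneg _))
      by_cases hw0 : M 1 1 = 0
      · rw [hw0, norm_zero]; exact norm_nonneg _
      rw [Padic.norm_eq_zpow_neg_valuation hz0, Padic.norm_eq_zpow_neg_valuation hw0] at hle ⊢
      have e : (p : ℝ) * (p : ℝ) ^ (-(M 1 0).valuation) = (p : ℝ) ^ (1 - (M 1 0).valuation) := by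
        rw [sub_eq_add_neg, zpow_add₀ hp0.ne', zpow_one]
      rw [e, zpow_lt_zpow_iff_right₀ hp1] at hle
      exact zpow_le_zpow_right₀ hp1.le (by omega)
    have hz0 : M 1 0 ≠ 0 := by
      intro h0; rw [h0, norm_zero, mul_zero] at hle
      exact absurd hle (not_lt.mpr (norm_nonneg _))
    have m2 : mx (st M) = p * ‖M 1 0‖ := by rw [m1, max_eq_left hle.le]
    have m3 : mx M = ‖M 1 0‖ := max_eq_left hle'
    have c1 : cen (st M) = M 0 0 / M 1 0 := by
      unfold cen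
      rw [if_neg]
      · show (M 0 0 / (p : ℚ_[p])) / (M 1 0 / (p : ℚ_[p])) = _
        have := pQ_ne (p := p)
        field_simp
      · show ¬ ‖M 1 0 / (p : ℚ_[p])‖ ≤ ‖M 1 1‖
        rw [hz]; exact not_le.mpr hle
    have l1 : lv M = lv (st M) + 1 := by
      apply zpow_inj (p := p)
      rw [rad h, zpow_add₀ hp0.ne', rad hdet', m2, m3, hdn, zpow_one]
      have : ‖M 1 0‖ ≠ 0 := norm_ne_zero_iff.mpr hz0
      field_simp
    have h3 := comb_mem h (s := 1) (t := 0) (by simp) (by simp) (by rw [m3]; simp)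
    rw [mul_one, mul_one, mul_zero, mul_zero, add_zero, add_zero, ← rad h] at h3
    rw [bet, bet, par_mk, mk_eq, c1, ← l1, norm_sub_rev]
    exact ⟨rfl, h3⟩

lemma hadj (g : SK p) (v : Vtx p) : g • par v = par (g • v) ∨ g • v = par (g • par v) := by
  obtain ⟨n, b, rfl⟩ := mk_surj v
  rw [par_mk, smul_mk, smul_mk, mm_st, mul_st]
  exact st_cases (gdet_ne g (mm_det_ne n b))

/-- the parity of the level -/
lemma parity (g : SK p) (n : ℤ) (b : ℚ_[p]) (n' : ℤ) (b' : ℚ_[p]) (h : g • mk n b = mk n' b') :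
    ∃ k : ℤ, n' = n + 2 * k := by
  rw [smul_mk, bet, mk_eq] at h
  have h1 := h.1
  rw [lv, Matrix.det_mul, g.property, one_mul, mm_det, Padic.valuation_zpow,
    Padic.valuation_p] at h1
  exact ⟨(top (g.val * mm n b)).valuation, by rw [← h1]; ring⟩

lemma not_par (g : SK p) (v : Vtx p) : g • v ≠ par v := by
  intro h
  obtain ⟨n, b, rfl⟩ := mk_surj v
  rw [par_mk] at h
  obtain ⟨k, hk⟩ := parity g n b _ _ h
  omega

/-- scalar matrices act trivially -/
lemma central_smul {g : SK p} {c : ℚ_[p]} (hc : c ≠ 0) (h : g.val = c • (1 : MK p)) (v : Vtx p) :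
    g • v = v := by
  obtain ⟨n, b, rfl⟩ := mk_surj v
  rw [smul_mk, h, Matrix.smul_mul, Matrix.one_mul, bet_smul hc (mm_det_ne n b), bet_mm]

/-- diagonal matrices translate the axis -/
lemma diag_smul {g : SK p} {μ : ℚ_[p]} {ν : ℕ} (hμ : ‖μ‖ = (p : ℝ) ^ ν) (h00 : g.val 0 0 = μ)
    (h01 : g.val 0 1 = 0) (h10 : g.val 1 0 = 0) (h11 : g.val 1 1 = μ⁻¹) (n : ℤ) :
    g • (mk n 0 : Vtx p) = mk (n + 2 * ν) 0 := by
  have hp0 := p_pos (p := p)
  have hμ0 : μ ≠ 0 := by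
    rintro rfl
    rw [norm_zero] at hμ
    have : (0 : ℝ) < (p : ℝ) ^ ν := pow_pos hp0 _
    linarith
  have hg : g.val * mm n 0 = !![μ * (p : ℚ_[p]) ^ (-n), 0; 0, μ⁻¹] := by
    ext i j
    rw [mul_apply', ← h00]
    fin_cases i <;> fin_cases j <;> simp [mm, h01, h10, h11, h00]
  have hM : (g.val * mm n (0 : ℚ_[p])).det ≠ 0 := gdet_ne g (mm_det_ne n 0)
  have m1 : mx (g.val * mm n (0 : ℚ_[p])) = ((p : ℝ) ^ ν)⁻¹ := by
    rw [hg, mx]
    simp [hμ]
  have c1 : cen (g.val * mm n (0 : ℚ_[p])) = 0 := by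
    rw [hg, cen]
    simp
  have l1 : lv (g.val * mm n (0 : ℚ_[p])) = n + 2 * ν := by
    apply zpow_inj (p := p)
    rw [rad hM, m1, Matrix.det_mul, g.property, one_mul, mm_det, norm_zpow, Padic.norm_p,
      inv_zpow, zpow_neg, inv_inv, zpow_add₀ hp0.ne', two_mul, zpow_add₀ hp0.ne', zpow_natCast]
    field_simp
  rw [smul_mk, bet, c1, l1]

/-- bounds for the entries of elements fixing a vertex of the axis -/
lemma fix_bound {g : SK p} {n : ℤ} (h : g • mk n (0 : ℚ_[p]) = mk n 0) (i j : Fin 2) :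
    ‖g.val i j‖ ≤ (p : ℝ) ^ (|n|) := by
  rw [smul_mk] at h
  obtain ⟨c, k, hc, hk, e⟩ := decomp (gdet_ne g (mm_det_ne n 0)) h
  have hp0 := p_pos (p := p)
  have hp1 := p_one_lt (p := p)
  have hd := congrArg Matrix.det e
  rw [smul_det, Matrix.det_mul, Matrix.det_mul, g.property, one_mul, mm_det] at hd
  have hpn : (p : ℚ_[p]) ^ (-n) ≠ 0 := zpow_ne_zero _ pQ_ne
  have hcn : ‖c‖ = 1 := by
    have h1 : c ^ 2 * k.det = 1 := by
      have : (p : ℚ_[p]) ^ (-n) * (c ^ 2 * k.det) = (p : ℚ_[p]) ^ (-n) * 1 := by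
        rw [mul_one]; linear_combination -hd
      exact mul_left_cancel₀ hpn this
    have h2 := congrArg norm h1
    rw [norm_mul, hk.2, mul_one, norm_pow, norm_one] at h2
    exact (pow_eq_one_iff_of_nonneg (norm_nonneg c) two_ne_zero).mp h2
  -- entries
  have e00 := congrFun (congrFun e 0) 0
  have e01 := congrFun (congrFun e 0) 1
  have e10 := congrFun (congrFun e 1) 0
  have e11 := congrFun (congrFun e 1) 1
  rw [Matrix.smul_apply, mul_apply', mul_apply', smul_eq_mul] at e00 e01 e10 e11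
  simp [mm] at e00 e01 e10 e11
  have hP : (1 : ℝ) ≤ (p : ℝ) ^ |n| := one_le_zpow₀ hp1.le (abs_nonneg n)
  have hn1 : (p : ℝ) ^ n ≤ (p : ℝ) ^ |n| := zpow_le_zpow_right₀ hp1.le (le_abs_self n)
  have hn2 : (p : ℝ) ^ (-n) ≤ (p : ℝ) ^ |n| := zpow_le_zpow_right₀ hp1.le (neg_le_abs n)
  have hpz : (p : ℚ_[p]) ^ n ≠ 0 := zpow_ne_zero _ pQ_ne
  have hnormz : ‖(p : ℚ_[p]) ^ n‖ = ((p : ℝ) ^ n)⁻¹ := by
    rw [norm_zpow, Padic.norm_p, inv_zpow]
  have g00 : g.val 0 0 = c * k 0 0 := by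
    field_simp at e00
    linear_combination e00
  have g01 : g.val 0 1 = ((p : ℚ_[p]) ^ n)⁻¹ * (c * k 0 1) := by
    rw [e01]; ring
  have g10 : g.val 1 0 = (p : ℚ_[p]) ^ n * (c * k 1 0) := by
    field_simp at e10
    linear_combination e10
  have g11 : g.val 1 1 = c * k 1 1 := e11
  have hb : ∀ i j, ‖c * k i j‖ ≤ 1 := fun i j => by
    rw [norm_mul, hcn, one_mul]; exact hk.1 i j
  fin_cases i <;> fin_cases j
  · show ‖g.val 0 0‖ ≤ _
    rw [g00]; exact (hb 0 0).trans hP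
  · show ‖g.val 0 1‖ ≤ _
    rw [g01, norm_mul, norm_inv, hnormz, inv_inv]
    calc (p : ℝ) ^ n * ‖c * k 0 1‖ ≤ (p : ℝ) ^ n * 1 :=
          mul_le_mul_of_nonneg_left (hb 0 1) (zpow_pos hp0 _).le
      _ ≤ _ := by rw [mul_one]; exact hn1
  · show ‖g.val 1 0‖ ≤ _
    rw [g10, norm_mul, hnormz, ← zpow_neg]
    calc (p : ℝ) ^ (-n) * ‖c * k 1 0‖ ≤ (p : ℝ) ^ (-n) * 1 :=
          mul_le_mul_of_nonneg_left (hb 1 0) (zpow_pos hp0 _).le
      _ ≤ _ := by rw [mul_one]; exact hn2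
  · show ‖g.val 1 1‖ ≤ _
    rw [g11]; exact (hb 1 1).trans hP

end act

end Pool.Agent.Lib.MP_c356f3_al.Den
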