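import Pool.Agent.Lib.MP_c356f3_al.DenBend
import Pool.Agent.Lib.MP_c356f3_al.BorSmall

/-!
Commutation and traces in `SL(2,ℚ)`; elements hyperbolic at `p` and at infinity.
-/

namespace Pool.Agent.Lib.MP_c356f3_al.Den

open SurjAux Bor

lemma comm_iff (x y : SQ) : x * y = y * x ↔
    x.val 0 1 * y.val 1 0 = x.val 1 0 * y.val 0 1 ∧
    x.val 0 1 * (y.val 0 0 - y.val 1 1) = y.val 0 1 * (x.val 0 0 - x.val 1 1) ∧
    x.val 1 0 * (y.val 0 0 - y.val 1 1) = y.val 1 0 * (x.val 0 0 - x.val 1 1) := by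
  constructor
  · intro h
    have h00 := congrArg (fun z : SQ => z.val 0 0) h
    have h01 := congrArg (fun z : SQ => z.val 0 1) h
    have h10 := congrArg (fun z : SQ => z.val 1 0) h
    simp only [mul_q] at h00 h01 h10
    refine ⟨?_, ?_, ?_⟩
    · linear_combination h00
    · linear_combination -h01
    · linear_combination h10
  · rintro ⟨h1, h2, h3⟩
    apply sq_ext <;> rw [mul_q, mul_q]
    · linear_combination h1
    · linear_combination -h2
    · linear_combination h3
    · linear_combination -h1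

lemma comm_trans {x y z : SQ} (hy : ¬ Cen y) (h1 : x * y = y * x) (h2 : y * z = z * y) :
    x * z = z * x := by
  rw [comm_iff] at *
  obtain ⟨a1, a2, a3⟩ := h1
  obtain ⟨b1, b2, b3⟩ := h2
  by_cases hb : y.val 0 1 = 0
  · by_cases hc : y.val 1 0 = 0
    · have hd : y.val 0 0 - y.val 1 1 ≠ 0 := fun h => hy ⟨hb, hc, sub_eq_zero.mp h⟩
      rw [hb] at a2 b2
      rw [hc] at a3 b3
      have x1 : x.val 0 1 = 0 := by
        have : x.val 0 1 * (y.val 0 0 - y.val 1 1) = 0 := by rw [a2]; ring
        exact (mul_eq_zero.mp this).resolve_right hd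
      have x2 : x.val 1 0 = 0 := by
        have : x.val 1 0 * (y.val 0 0 - y.val 1 1) = 0 := by rw [a3]; ring
        exact (mul_eq_zero.mp this).resolve_right hd
      have z1 : z.val 0 1 = 0 := by
        have : z.val 0 1 * (y.val 0 0 - y.val 1 1) = 0 := by linear_combination -b2
        exact (mul_eq_zero.mp this).resolve_right hd
      have z2 : z.val 1 0 = 0 := by
        have : z.val 1 0 * (y.val 0 0 - y.val 1 1) = 0 := by linear_combination -b3
        exact (mul_eq_zero.mp this).resolve_right hd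
      rw [x1, x2, z1, z2]
      simp
    · refine ⟨?_, ?_, ?_⟩
      · apply mul_left_cancel₀ hc
        linear_combination (z.val 1 0) * a1 + (x.val 1 0) * b1
      · apply mul_left_cancel₀ hc
        linear_combination (z.val 0 0 - z.val 1 1) * a1 + (z.val 0 1) * a3 + (x.val 1 0) * b2
      · apply mul_left_cancel₀ hc
        linear_combination (x.val 1 0) * b3 + (z.val 1 0) * a3
  · have r1 : x.val 0 1 * z.val 1 0 = x.val 1 0 * z.val 0 1 := by
      apply mul_left_cancel₀ hb
      linear_combination (z.val 0 1) * a1 + (x.val 0 1) * b1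
    refine ⟨r1, ?_, ?_⟩
    · apply mul_left_cancel₀ hb
      linear_combination (x.val 0 1) * b2 + (z.val 0 1) * a2
    · apply mul_left_cancel₀ hb
      linear_combination (x.val 1 0) * b2 + (z.val 1 0) * a2 - (y.val 0 0 - y.val 1 1) * r1

lemma tr_eq (x : SQ) : x.val.trace = x.val 0 0 + x.val 1 1 := Matrix.trace_fin_two _

lemma disc_eq (x : SQ) : x.val.trace ^ 2 - 4 =
    (x.val 0 0 - x.val 1 1) ^ 2 + 4 * x.val 0 1 * x.val 1 0 := by
  rw [tr_eq]
  linear_combination (4 : ℚ) * det_q x

/-- trace of a commutator -/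
lemma tr_comm (A g : SQ) : (A * g * A⁻¹ * g⁻¹).val.trace - 2 =
    (A.val 0 1 * g.val 1 0 - g.val 0 1 * A.val 1 0) ^ 2 +
      (g.val 0 1 * (A.val 0 0 - A.val 1 1) - A.val 0 1 * (g.val 0 0 - g.val 1 1)) *
      (A.val 1 0 * (g.val 0 0 - g.val 1 1) - g.val 1 0 * (A.val 0 0 - A.val 1 1)) := by
  have hA := det_q A
  have hg := det_q g
  rw [tr_eq]
  simp only [mul_q, inv_q]
  simp
  linear_combination (g.val 0 0 * g.val 1 1 * 2 - 2 * g.val 0 1 * g.val 1 0) * hA + 2 * hg

/-- commutators with an elliptic element have trace at least two -/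
lemma tr_comm_ge {A : SQ} (hA : A.val.trace ^ 2 < 4) (g : SQ) :
    2 ≤ (A * g * A⁻¹ * g⁻¹).val.trace ∧
      ((A * g * A⁻¹ * g⁻¹).val.trace = 2 → A * g = g * A) := by
  have hd := disc_eq A
  have ht := tr_comm A g
  set p := A.val 0 0
  set q := A.val 0 1
  set r := A.val 1 0
  set s := A.val 1 1
  set a := g.val 0 0
  set b := g.val 0 1
  set c := g.val 1 0
  set d := g.val 1 1
  have hq : q ≠ 0 := by
    intro h0
    rw [h0] at hd
    nlinarith [sq_nonneg (p - s)]
  have hq2 : 0 < q ^ 2 := by positivity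
  have key : 4 * q ^ 2 * ((A * g * A⁻¹ * g⁻¹).val.trace - 2) =
      (2 * q * (q * c - b * r) - (p - s) * (b * (p - s) - q * (a - d))) ^ 2 +
        (4 - A.val.trace ^ 2) * (b * (p - s) - q * (a - d)) ^ 2 := by
    rw [ht]
    linear_combination ((b * (p - s) - q * (a - d)) ^ 2) * hd
  have hpos : 0 < 4 - A.val.trace ^ 2 := by linarith
  constructor
  · have h1 : 0 ≤ 4 * q ^ 2 * ((A * g * A⁻¹ * g⁻¹).val.trace - 2) := by
      rw [key]; positivity
    have h2 : 0 ≤ (A * g * A⁻¹ * g⁻¹).val.trace - 2 :=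
      nonneg_of_mul_nonneg_right h1 (by positivity)
    linarith
  · intro h2
    rw [h2, sub_self, mul_zero] at key
    have y0 : b * (p - s) - q * (a - d) = 0 := by
      by_contra hne
      have : 0 < (b * (p - s) - q * (a - d)) ^ 2 := by positivity
      nlinarith [sq_nonneg (2 * q * (q * c - b * r) - (p - s) * (b * (p - s) - q * (a - d)))]
    rw [y0, mul_zero, sub_zero, zero_pow two_ne_zero, mul_zero, add_zero] at key
    have x0 : q * c - b * r = 0 := by
      have h3 : 2 * q * (q * c - b * r) = 0 := by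
        have := key.symm
        exact pow_eq_zero_iff two_ne_zero |>.mp this
      rcases mul_eq_zero.mp h3 with h | h
      · exact absurd h (mul_ne_zero two_ne_zero hq)
      · exact h
    rw [comm_iff]
    refine ⟨by linear_combination x0, by linear_combination -y0, ?_⟩
    apply mul_left_cancel₀ hq
    show q * (r * (a - d)) = q * (c * (p - s))
    linear_combination (-(r : ℚ)) * y0 - (p - s) * x0

/-- an element commuting with an elliptic one has trace at most two -/
lemma tr_le_of_comm {g x : SQ} (hg : g.val.trace ^ 2 < 4) (h : x * g = g * x) :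
    g.val 0 1 ^ 2 * (x.val.trace ^ 2 - 4) = x.val 0 1 ^ 2 * (g.val.trace ^ 2 - 4) ∧
      g.val 0 1 ≠ 0 ∧ x.val.trace ^ 2 ≤ 4 := by
  have hdg := disc_eq g
  have hdx := disc_eq x
  obtain ⟨h1, h2, h3⟩ := (comm_iff x g).mp h
  have hq : g.val 0 1 ≠ 0 := by
    intro h0
    rw [h0] at hdg
    nlinarith [sq_nonneg (g.val 0 0 - g.val 1 1)]
  have e : g.val 0 1 ^ 2 * (x.val.trace ^ 2 - 4) = x.val 0 1 ^ 2 * (g.val.trace ^ 2 - 4) := by
    rw [hdg, hdx]
    linear_combination (-(g.val 0 1 * (x.val 0 0 - x.val 1 1) +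
      x.val 0 1 * (g.val 0 0 - g.val 1 1))) * h2 - 4 * x.val 0 1 * g.val 0 1 * h1
  refine ⟨e, hq, ?_⟩
  have hq2 : 0 < g.val 0 1 ^ 2 := by positivity
  by_contra hlt
  push Not at hlt
  have h4 : 0 < g.val 0 1 ^ 2 * (x.val.trace ^ 2 - 4) := mul_pos hq2 (by linarith)
  rw [e] at h4
  nlinarith [sq_nonneg (x.val 0 1)]

/-- if `h g h⁻¹` commutes with the elliptic element `g` then `h ^ 2` has trace at most two -/
lemma sq_trace_le {g h : SQ} (hg : g.val.trace ^ 2 < 4)
    (hc : (h * g * h⁻¹) * g = g * (h * g * h⁻¹)) : (h ^ 2).val.trace ^ 2 ≤ 4 := by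
  set y := h * g * h⁻¹ with hy
  have hty : y.val.trace = g.val.trace := by
    rw [hy, val_mul_q, Matrix.trace_mul_comm, ← val_mul_q]
    have : h⁻¹ * (h * g) = g := by group
    rw [this]
  obtain ⟨e, hq, -⟩ := tr_le_of_comm hg hc
  rw [hty] at e
  obtain ⟨h1, h2, h3⟩ := (comm_iff y g).mp hc
  have hne : g.val.trace ^ 2 - 4 ≠ 0 := by linarith
  have hsq : y.val 0 1 ^ 2 = g.val 0 1 ^ 2 := (mul_right_cancel₀ hne e).symm
  have hdg := det_q g
  have hdy := det_q y
  rw [tr_eq, tr_eq] at hty
  have hcomm : h ^ 2 * g = g * h ^ 2 := by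
    rcases sq_eq_sq_iff_eq_or_eq_neg.mp hsq with hb | hb
    · -- y = g
      rw [hb] at h1 h2
      have ha : y.val 0 0 - y.val 1 1 = g.val 0 0 - g.val 1 1 := by
        apply mul_left_cancel₀ hq
        linear_combination -h2
      have hcc : y.val 1 0 = g.val 1 0 := by
        apply mul_left_cancel₀ hq
        linear_combination -h1
      have hyg : y = g := sq_ext (by linarith) hb hcc (by linarith)
      have : h * g = g * h := by
        rw [hy] at hyg
        exact mul_inv_eq_iff_eq_mul.mp hyg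
      rw [pow_two, mul_assoc, this, ← mul_assoc, this, mul_assoc]
    · -- y = g⁻¹
      rw [hb] at h1 h2
      have ha : y.val 0 0 - y.val 1 1 = -(g.val 0 0 - g.val 1 1) := by
        apply mul_left_cancel₀ hq
        linear_combination -h2
      have hcc : y.val 1 0 = -g.val 1 0 := by
        apply mul_left_cancel₀ hq
        linear_combination -h1
      have hyg : y = g⁻¹ := by
        apply sq_ext <;> rw [inv_q] <;> simp
        · linarith
        · exact hb
        · exact hcc
        · linarith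
      have h4 : h * g * h⁻¹ = g⁻¹ := hyg
      have h5 : h ^ 2 * g * (h ^ 2)⁻¹ = g := by
        have e1 : h ^ 2 * g * (h ^ 2)⁻¹ = h * (h * g * h⁻¹) * h⁻¹ := by
          rw [pow_two, mul_inv_rev]; simp only [mul_assoc]
        have e2 : h * g⁻¹ * h⁻¹ = (h * g * h⁻¹)⁻¹ := by group
        rw [e1, h4, e2, h4, inv_inv]
      exact mul_inv_eq_iff_eq_mul.mp h5
  exact (tr_le_of_comm hg hcomm).2.2

lemma tr_sq (h : SQ) : (h ^ 2).val.trace = h.val.trace ^ 2 - 2 := by
  have := det_q h
  rw [tr_eq, tr_eq, pow_two, mul_q, mul_q]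
  linear_combination (-2 : ℚ) * this

lemma no_comm_hyp {g h : SQ} (hg : g.val.trace ^ 2 < 4) (hh : 4 < h.val.trace ^ 2)
    (hc : (h * g * h⁻¹) * g = g * (h * g * h⁻¹)) : False := by
  have h1 := sq_trace_le hg hc
  rw [tr_sq] at h1
  nlinarith

/-! ### powers -/

/-- Chebyshev numbers -/
def U (t : ℚ) : ℕ → ℚ
  | 0 => 0
  | 1 => 1
  | n + 2 => t * U t (n + 1) - U t n

lemma pow_eq (g : SQ) (n : ℕ) (i j : Fin 2) : (g ^ (n + 1)).val i j =
    U g.val.trace (n + 1) * g.val i j - U g.val.trace n * (1 : SQ).val i j := by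
  induction n generalizing i j with
  | zero => simp [U]
  | succ n ih =>
    have hd := det_q g
    rw [pow_succ, mul_q, ih i 0, ih i 1]
    have e : U g.val.trace (n + 1 + 1) = g.val.trace * U g.val.trace (n + 1) - U g.val.trace n :=
      rfl
    rw [e, tr_eq]
    fin_cases i <;> fin_cases j
    · simp [one_q00, one_q01]
      linear_combination (-(U (g.val 0 0 + g.val 1 1) (n + 1))) * hd
    · simp
      ring
    · simp
      ring
    · simp
      linear_combination (-(U (g.val 0 0 + g.val 1 1) (n + 1))) * hd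

lemma U_real {t : ℚ} (ht : 4 ≤ t ^ 2) (n : ℕ) : |U t n| + 1 ≤ |U t (n + 1)| := by
  have h2 : 2 ≤ |t| := by
    by_contra hlt
    push Not at hlt
    have := abs_nonneg t
    nlinarith [sq_abs t]
  induction n with
  | zero => simp [U]
  | succ n ih =>
    have e : U t (n + 1 + 1) = t * U t (n + 1) - U t n := rfl
    rw [e]
    have h3 : |t| * |U t (n + 1)| - |U t n| ≤ |t * U t (n + 1) - U t n| := by
      rw [← abs_mul]; exact abs_sub_abs_le_abs_sub _ _
    nlinarith [abs_nonneg (U t (n + 1))]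

lemma U_pos {t : ℚ} (ht : 4 ≤ t ^ 2) (n : ℕ) : U t (n + 1) ≠ 0 := by
  intro h
  have h1 := U_real ht n
  rw [h, abs_zero] at h1
  have := abs_nonneg (U t n)
  linarith

/-- noncentral elements of finite order are elliptic -/
lemma torsion_tr {g : SQ} (hg : ¬ Cen g) {n : ℕ} (hn : 0 < n) (h : g ^ n = 1) :
    g.val.trace ^ 2 < 4 := by
  by_contra hlt
  push Not at hlt
  obtain ⟨m, rfl⟩ : ∃ m, n = m + 1 := ⟨n - 1, by omega⟩
  have hU := U_pos hlt m
  apply hg
  have e00 := pow_eq g m 0 0
  have e01 := pow_eq g m 0 1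
  have e10 := pow_eq g m 1 0
  have e11 := pow_eq g m 1 1
  rw [h, one_q00] at e00
  rw [h, one_q01] at e01
  rw [h, one_q10] at e10
  rw [h, one_q11] at e11
  refine ⟨?_, ?_, ?_⟩
  · have : U g.val.trace (m + 1) * g.val 0 1 = 0 := by linear_combination -e01
    exact (mul_eq_zero.mp this).resolve_left hU
  · have : U g.val.trace (m + 1) * g.val 1 0 = 0 := by linear_combination -e10
    exact (mul_eq_zero.mp this).resolve_left hU
  · apply mul_left_cancel₀ hU
    linear_combination e11 - e00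

section padic

variable {p : ℕ} [hp : Fact p.Prime]

lemma U_padic {t : ℚ} (ht : 1 < padicNorm p t) (n : ℕ) :
    padicNorm p (U t (n + 1)) = padicNorm p t ^ n ∧ padicNorm p (U t n) ≤ padicNorm p t ^ n := by
  induction n with
  | zero => constructor <;> simp [U]
  | succ n ih =>
    have h0 : 0 < padicNorm p t := lt_trans one_pos ht
    refine ⟨?_, ?_⟩
    · have e : U t (n + 1 + 1) = t * U t (n + 1) - U t n := rfl
      have h1 : padicNorm p (t * U t (n + 1)) = padicNorm p t ^ (n + 1) := by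
        rw [padicNorm.mul, ih.1]; ring
      have h2 : padicNorm p (-U t n) ≤ padicNorm p t ^ n := by rw [padicNorm.neg]; exact ih.2
      have h3 : padicNorm p t ^ n < padicNorm p t ^ (n + 1) := pow_lt_pow_right₀ ht (by omega)
      have hne : padicNorm p (t * U t (n + 1)) ≠ padicNorm p (-U t n) := by
        rw [h1]; exact (lt_of_le_of_lt h2 h3).ne'
      rw [e, sub_eq_add_neg, padicNorm.add_eq_max_of_ne hne, h1]
      exact max_eq_left (h2.trans h3.le)
    · rw [ih.1]; exact pow_le_pow_right₀ ht.le (by omega)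

/-- an element hyperbolic at `p` and at infinity -/
lemma exists_both (Γ : Subgroup SQ) {h : SQ} (hh : h ∈ Γ) (ht : 1 < padicNorm p h.val.trace)
    {g : SQ} (hg : g ∈ Γ) (hgh : h * g ≠ g * h) :
    ∃ x ∈ Γ, 1 < padicNorm p x.val.trace ∧ 4 < x.val.trace ^ 2 := by
  by_cases h4 : 4 < h.val.trace ^ 2
  · exact ⟨h, hh, ht, h4⟩
  push Not at h4
  have hlt : h.val.trace ^ 2 < 4 := by
    refine lt_of_le_of_ne h4 fun h5 => ?_
    have h6 : h.val.trace = 2 ∨ h.val.trace = -2 := by
      have : (h.val.trace - 2) * (h.val.trace + 2) = 0 := by linear_combination h5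
      rcases mul_eq_zero.mp this with h | h
      · left; linarith
      · right; linarith
    have h7 : padicNorm p h.val.trace ≤ 1 := by
      rcases h6 with h | h
      · rw [h]; exact_mod_cast padicNorm.of_int (p := p) 2
      · rw [h, padicNorm.neg]; exact_mod_cast padicNorm.of_int (p := p) 2
    linarith
  obtain ⟨h5, h6⟩ := tr_comm_ge hlt g
  have hβ : 0 < (h * g * h⁻¹ * g⁻¹).val.trace - 2 := by
    rcases lt_or_eq_of_le h5 with h7 | h7
    · linarith
    · exact absurd (h6 h7.symm) hgh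
  set β := (h * g * h⁻¹ * g⁻¹).val.trace - 2 with hβd
  have hβn : 0 < padicNorm p β := pn_pos hβ.ne'
  -- trace of the commutator of a power
  have htr : ∀ n : ℕ, (h ^ (n + 1) * g * (h ^ (n + 1))⁻¹ * g⁻¹).val.trace =
      2 + U h.val.trace (n + 1) ^ 2 * β := by
    intro n
    have e1 := tr_comm (h ^ (n + 1)) g
    have e2 := tr_comm h g
    rw [← hβd] at e2
    rw [pow_eq h n 0 0, pow_eq h n 0 1, pow_eq h n 1 0, pow_eq h n 1 1, one_q00, one_q01, one_q10,
      one_q11] at e1
    linear_combination e1 - (U h.val.trace (n + 1)) ^ 2 * e2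
  obtain ⟨n, hn⟩ := pow_unbounded_of_one_lt (padicNorm p β)⁻¹ ht
  have hU := (U_padic ht (n + 1)).1
  have hU0 : U h.val.trace (n + 1 + 1) ≠ 0 := by
    intro h0
    rw [h0, padicNorm.zero] at hU
    have : 0 < padicNorm p h.val.trace ^ (n + 1) := pow_pos (by linarith) _
    linarith
  refine ⟨h ^ (n + 1 + 1) * g * (h ^ (n + 1 + 1))⁻¹ * g⁻¹,
    Γ.mul_mem (Γ.mul_mem (Γ.mul_mem (Γ.pow_mem hh _) hg) (Γ.inv_mem (Γ.pow_mem hh _)))
      (Γ.inv_mem hg), ?_, ?_⟩
  · rw [htr]
    have h7 : 1 < padicNorm p (U h.val.trace (n + 1 + 1) ^ 2 * β) := by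
      rw [padicNorm.mul, pn_pow, hU]
      have h8 : 1 ≤ padicNorm p h.val.trace ^ n * padicNorm p β := by
        have := mul_lt_mul_of_pos_right hn hβn
        rw [inv_mul_cancel₀ hβn.ne'] at this
        exact this.le
      have h9 : 1 ≤ padicNorm p h.val.trace ^ n := one_le_pow₀ ht.le
      have e : (padicNorm p h.val.trace ^ (n + 1)) ^ 2 * padicNorm p β =
          padicNorm p h.val.trace * (padicNorm p h.val.trace * (padicNorm p h.val.trace ^ n *
            (padicNorm p h.val.trace ^ n * padicNorm p β))) := by ring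
      rw [e]
      have h10 : 1 ≤ padicNorm p h.val.trace ^ n *
            (padicNorm p h.val.trace ^ n * padicNorm p β) := one_le_mul_of_one_le_of_one_le h9 h8
      have h11 : 1 ≤ padicNorm p h.val.trace * (padicNorm p h.val.trace ^ n *
            (padicNorm p h.val.trace ^ n * padicNorm p β)) :=
        one_le_mul_of_one_le_of_one_le ht.le h10
      exact one_lt_mul_of_lt_of_le ht h11
    have h2 : padicNorm p 2 ≤ 1 := by exact_mod_cast padicNorm.of_int (p := p) 2
    have hne : padicNorm p 2 ≠ padicNorm p (U h.val.trace (n + 1 + 1) ^ 2 * β) :=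
      (lt_of_le_of_lt h2 h7).ne
    rw [padicNorm.add_eq_max_of_ne hne]
    exact lt_of_lt_of_le h7 (le_max_right _ _)
  · rw [htr]
    have : 0 < U h.val.trace (n + 1 + 1) ^ 2 * β := mul_pos (by positivity) hβ
    nlinarith

end padic

end Pool.Agent.Lib.MP_c356f3_al.Den
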