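import Pool.Agent.Lib.MP_c356f3_al.DenCoc
import Pool.Agent.Lib.MP_c356f3_al.BorT
import Pool.Agent.Lib.MP_c356f3_al.Asm3

/-!
Bending along an edge with central stabiliser gives two-dimensional representations with
unbounded trace.
-/

namespace Pool.Agent.Lib.MP_c356f3_al.Den

open Matrix SurjAux

section trans

variable {τ : ℂ} (hτ : Transcendental ℚ τ)

include hτ in
lemma coeffs_zero (c0 c1 c2 c3 c4 : ℚ)
    (h : (c0 : ℂ) + c1 * τ + c2 * τ ^ 2 + c3 * τ ^ 3 + c4 * τ ^ 4 = 0) :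
    c0 = 0 ∧ c1 = 0 ∧ c2 = 0 ∧ c3 = 0 ∧ c4 = 0 := by
  classical
  let p : Polynomial ℚ := Polynomial.C c0 + Polynomial.C c1 * Polynomial.X +
    Polynomial.C c2 * Polynomial.X ^ 2 + Polynomial.C c3 * Polynomial.X ^ 3 +
    Polynomial.C c4 * Polynomial.X ^ 4
  have hp : Polynomial.aeval τ p = 0 := by
    simp only [p, map_add, map_mul, map_pow, Polynomial.aeval_C, Polynomial.aeval_X]
    simpa using h
  have h0 : p = 0 := by
    by_contra hne
    exact hτ ⟨p, hne, hp⟩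
  have hc : ∀ n, p.coeff n = 0 := fun n => by rw [h0]; simp
  have e0 := hc 0
  have e1 := hc 1
  have e2 := hc 2
  have e3 := hc 3
  have e4 := hc 4
  simp [p, Polynomial.coeff_X, Polynomial.coeff_C] at e0 e1 e2 e3 e4
  exact ⟨e0, e1, e2, e3, e4⟩

end trans

/-- the determinant of two vectors -/
def dt (u w : Fin 2 → ℂ) : ℂ := u 0 * w 1 - u 1 * w 0

/-- complexification of a matrix in `SL(2,ℚ)` -/
noncomputable def mc (A : SQ) : Matrix (Fin 2) (Fin 2) ℂ := A.val.map (algebraMap ℚ ℂ)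

lemma mc_mul (A B : SQ) : mc (A * B) = mc A * mc B := by
  unfold mc
  rw [val_mul_q, Matrix.map_mul]

lemma mc_one : mc 1 = 1 := by
  ext i j
  fin_cases i <;> fin_cases j <;> simp [mc]

lemma mc_act (A : SQ) (v : Fin 2 → ℂ) (i : Fin 2) :
    (mc A *ᵥ v) i = ((A.val i 0 : ℚ) : ℂ) * v 0 + ((A.val i 1 : ℚ) : ℂ) * v 1 := by
  rw [mc, Matrix.mulVec, dotProduct, Fin.sum_univ_two]
  rfl

/-- central elements -/
def Cen (A : SQ) : Prop := A.val 0 1 = 0 ∧ A.val 1 0 = 0 ∧ A.val 0 0 = A.val 1 1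

lemma cen_comm {A : SQ} (h : Cen A) (M : Matrix (Fin 2) (Fin 2) ℂ) : mc A * M = M * mc A := by
  obtain ⟨h1, h2, h3⟩ := h
  have e : mc A = ((A.val 0 0 : ℚ) : ℂ) • (1 : Matrix (Fin 2) (Fin 2) ℂ) := by
    ext i j
    fin_cases i <;> fin_cases j <;> simp [mc, h1, h2, h3]
  rw [e]
  simp

section vectors

variable {τ : ℂ} (hτ : Transcendental ℚ τ)

include hτ in
lemma d_pn (A : SQ) : dt (mc A *ᵥ ![τ, 1]) ![τ ^ 2, 1] ≠ 0 := by
  intro h
  simp only [dt, mc_act, Matrix.cons_val_zero, Matrix.cons_val_one] at h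
  have := coeffs_zero hτ (A.val 0 1) (A.val 0 0) (-(A.val 1 1)) (-(A.val 1 0)) 0 (by
    push_cast; linear_combination h)
  have hd := det_q A
  rw [this.1, this.2.1] at hd
  simp at hd

include hτ in
lemma d_np (A : SQ) : dt ![τ, 1] (mc A *ᵥ ![τ ^ 2, 1]) ≠ 0 := by
  intro h
  simp only [dt, mc_act, Matrix.cons_val_zero, Matrix.cons_val_one] at h
  have := coeffs_zero hτ (-(A.val 0 1)) (A.val 1 1) (-(A.val 0 0)) (A.val 1 0) 0 (by
    push_cast; linear_combination h)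
  have hd := det_q A
  rw [neg_eq_zero.mp this.1, this.2.1] at hd
  simp at hd

include hτ in
lemma d_nn {A : SQ} (h : dt (mc A *ᵥ ![τ ^ 2, 1]) ![τ ^ 2, 1] = 0) : Cen A := by
  simp only [dt, mc_act, Matrix.cons_val_zero, Matrix.cons_val_one] at h
  have := coeffs_zero hτ (A.val 0 1) 0 (A.val 0 0 - A.val 1 1) 0 (-(A.val 1 0)) (by
    push_cast; linear_combination h)
  exact ⟨this.1, neg_eq_zero.mp this.2.2.2.2, sub_eq_zero.mp this.2.2.1⟩

include hτ in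
lemma d_pp {A : SQ} (h : dt ![τ, 1] (mc A *ᵥ ![τ, 1]) = 0) : Cen A := by
  simp only [dt, mc_act, Matrix.cons_val_zero, Matrix.cons_val_one] at h
  have := coeffs_zero hτ (-(A.val 0 1)) (A.val 1 1 - A.val 0 0) (A.val 1 0) 0 0 (by
    push_cast; linear_combination h)
  exact ⟨neg_eq_zero.mp this.1, this.2.2.1, (sub_eq_zero.mp this.2.1).symm⟩

end vectors

/-- the matrix with eigenvectors `(τ,1)` and `(τ²,1)` and eigenvalues `x`, `y` -/
noncomputable def Zm (τ x y : ℂ) : Matrix (Fin 2) (Fin 2) ℂ :=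
  (τ - τ ^ 2)⁻¹ • !![τ * x - τ ^ 2 * y, τ ^ 3 * (y - x); x - y, τ * y - τ ^ 2 * x]

lemma tau_ne {τ : ℂ} (h : τ - τ ^ 2 ≠ 0) : τ ≠ 0 ∧ 1 - τ ≠ 0 := by
  constructor
  · rintro rfl; simp at h
  · intro h1
    apply h
    linear_combination τ * h1

lemma Zm_mul {τ : ℂ} (h : τ - τ ^ 2 ≠ 0) (x y x' y' : ℂ) :
    Zm τ x y * Zm τ x' y' = Zm τ (x * x') (y * y') := by
  obtain ⟨h0, h1⟩ := tau_ne h
  ext i j
  fin_cases i <;> fin_cases j <;>
    simp [Zm, Matrix.mul_apply, Fin.sum_univ_two] <;> field_simp <;> ring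

lemma Zm_one {τ : ℂ} (h : τ - τ ^ 2 ≠ 0) : Zm τ 1 1 = 1 := by
  ext i j
  fin_cases i <;> fin_cases j <;> simp [Zm]
  · exact inv_mul_cancel₀ h
  · exact inv_mul_cancel₀ h

lemma Zm_smul (τ c x y : ℂ) : c • Zm τ x y = Zm τ (c * x) (c * y) := by
  ext i j
  fin_cases i <;> fin_cases j <;> simp [Zm] <;> ring

lemma Zm_10 (τ : ℂ) (v : Fin 2 → ℂ) :
    Zm τ 1 0 *ᵥ v = (dt v ![τ ^ 2, 1] / (τ - τ ^ 2)) • ![τ, 1] := by
  ext i
  fin_cases i <;> simp [Zm, Matrix.mulVec, dotProduct, Fin.sum_univ_two, dt] <;> field_simp <;> ring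

lemma Zm_01 (τ : ℂ) (v : Fin 2 → ℂ) :
    Zm τ 0 1 *ᵥ v = (dt ![τ, 1] v / (τ - τ ^ 2)) • ![τ ^ 2, 1] := by
  ext i
  fin_cases i <;> simp [Zm, Matrix.mulVec, dotProduct, Fin.sum_univ_two, dt] <;> field_simp <;> ring

lemma Zm_lin (τ x y : ℂ) : Zm τ x y = x • Zm τ 1 0 + y • Zm τ 0 1 := by
  ext i j
  fin_cases i <;> fin_cases j <;> simp [Zm] <;> ring

lemma Zm_det (τ : ℂ) : (Zm τ 1 0).det = 0 := by
  rw [Matrix.det_fin_two]
  simp [Zm]
  ring

/-- the bending element -/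
noncomputable def zs (τ : ℂ) (h : τ - τ ^ 2 ≠ 0) (s : ℂ) (hs : s ≠ 0) : GL (Fin 2) ℂ :=
  ⟨Zm τ s s⁻¹, Zm τ s⁻¹ s, by rw [Zm_mul h, mul_inv_cancel₀ hs, inv_mul_cancel₀ hs, Zm_one h],
    by rw [Zm_mul h, mul_inv_cancel₀ hs, inv_mul_cancel₀ hs, Zm_one h]⟩

section main

variable {V G : Type*} [Group G] [MulAction G V] (par : V → V) (v₀ : V) (f : G →* SQ) (τ : ℂ)

open Classical in
/-- the normalised value of the bending function at the `j`-th edge -/
noncomputable def Mj (j : ℕ) (ε : ℂ) : Matrix (Fin 2) (Fin 2) ℂ :=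
  if h : ∃ k : G, Pos par v₀ (par^[j] v₀) k then
    mc (f h.choose) * Zm τ 1 ε * mc (f h.choose)⁻¹
  else if h : ∃ k : G, Neg par v₀ (par^[j] v₀) k then
    mc (f h.choose) * Zm τ ε 1 * mc (f h.choose)⁻¹
  else 1

open Classical in
/-- the exponent of the `j`-th edge -/
noncomputable def wj (j : ℕ) : ℕ :=
  if (∃ k : G, Pos par v₀ (par^[j] v₀) k) ∨ (∃ k : G, Neg par v₀ (par^[j] v₀) k) then 1 else 0

/-- products -/
noncomputable def Nm : ℕ → ℂ → Matrix (Fin 2) (Fin 2) ℂ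
  | 0, _ => 1
  | n + 1, ε => Nm n ε * Mj par v₀ f τ n ε

/-- sums of exponents -/
noncomputable def Wm : ℕ → ℕ
  | 0 => 0
  | n + 1 => Wm n + wj (G := G) par v₀ n

lemma cx_val' (A : SQ) : (cx A).val = mc A := rfl

lemma cx_inv_val (A : SQ) : ((cx A)⁻¹).val = mc A⁻¹ := by
  rw [← map_inv]; rfl

lemma bendE_val (hτ : τ - τ ^ 2 ≠ 0) (s : ℂ) (hs : s ≠ 0) (j : ℕ) :
    (bendE par (cx.comp f) v₀ (zs τ hτ s hs) (par^[j] v₀)).val =
      s ^ (wj (G := G) par v₀ j) • Mj par v₀ f τ j (s ^ 2)⁻¹ := by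
  have e1 : Zm τ s s⁻¹ = s • Zm τ 1 (s ^ 2)⁻¹ := by
    rw [Zm_smul]; congr 1 <;> field_simp
  have e2 : Zm τ s⁻¹ s = s • Zm τ (s ^ 2)⁻¹ 1 := by
    rw [Zm_smul]; congr 1 <;> field_simp
  by_cases hp : ∃ k : G, Pos par v₀ (par^[j] v₀) k
  · rw [bendE, dif_pos hp, Mj, dif_pos hp, wj, if_pos (Or.inl hp), pow_one, Units.val_mul,
      Units.val_mul, MonoidHom.comp_apply, cx_inv_val, cx_val']
    show mc (f hp.choose) * Zm τ s s⁻¹ * mc (f hp.choose)⁻¹ = _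
    rw [e1, Matrix.mul_smul, Matrix.smul_mul]
  · by_cases hn : ∃ k : G, Neg par v₀ (par^[j] v₀) k
    · rw [bendE, dif_neg hp, dif_pos hn, Mj, dif_neg hp, dif_pos hn, wj, if_pos (Or.inr hn),
        pow_one, Units.val_mul, Units.val_mul, MonoidHom.comp_apply, cx_inv_val, cx_val']
      show mc (f hn.choose) * Zm τ s⁻¹ s * mc (f hn.choose)⁻¹ = _
      rw [e2, Matrix.mul_smul, Matrix.smul_mul]
    · rw [bendE, dif_neg hp, dif_neg hn, Mj, dif_neg hp, dif_neg hn, wj,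
        if_neg (by rintro (h | h); exacts [hp h, hn h]), pow_zero, one_smul]
      rfl

lemma up_val (hτ : τ - τ ^ 2 ≠ 0) (s : ℂ) (hs : s ≠ 0) (m : ℕ) :
    (up par (bendE par (cx.comp f) v₀ (zs τ hτ s hs)) m v₀).val =
      s ^ (Wm (G := G) par v₀ m) • Nm par v₀ f τ m (s ^ 2)⁻¹ := by
  induction m with
  | zero => simp [up, Wm, Nm]
  | succ m ih =>
    rw [up_succ, Units.val_mul, ih, bendE_val, Wm, Nm, pow_add, Matrix.smul_mul, Matrix.mul_smul,
      smul_smul]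

lemma Mj_cont (j : ℕ) : Continuous fun ε => Mj par v₀ f τ j ε := by
  have c1 : Continuous fun ε : ℂ => Zm τ 1 ε := by
    have : (fun ε : ℂ => Zm τ 1 ε) = fun ε => (1 : ℂ) • Zm τ 1 0 + ε • Zm τ 0 1 := by
      funext ε; exact Zm_lin τ 1 ε
    rw [this]
    exact continuous_const.add (continuous_id.smul continuous_const)
  have c2 : Continuous fun ε : ℂ => Zm τ ε 1 := by
    have : (fun ε : ℂ => Zm τ ε 1) = fun ε => ε • Zm τ 1 0 + (1 : ℂ) • Zm τ 0 1 := by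
      funext ε; exact Zm_lin τ ε 1
    rw [this]
    exact (continuous_id.smul continuous_const).add continuous_const
  unfold Mj
  split_ifs with hp hn
  · exact (continuous_const.matrix_mul c1).matrix_mul continuous_const
  · exact (continuous_const.matrix_mul c2).matrix_mul continuous_const
  · exact continuous_const

lemma Nm_cont (m : ℕ) : Continuous fun ε => Nm par v₀ f τ m ε := by
  induction m with
  | zero => exact continuous_const
  | succ m ih => exact ih.matrix_mul (Mj_cont par v₀ f τ m)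

end main

end Pool.Agent.Lib.MP_c356f3_al.Den
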