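import Mathlib

/-!
Cocycles on a tree with a marked end (every vertex has one parent, any two vertices have a common
ancestor), and twisting a homomorphism by an equivariant cocycle.
-/

namespace Pool.Agent.Lib.MP_c356f3_al.Den

section coc

variable {V H : Type*} [Group H] (par : V → V) (E : V → H)

/-- the product of the values `E` along the ascending path of length `n` -/
def up : ℕ → V → H
  | 0, _ => 1
  | n + 1, v => up n v * E (par^[n] v)

lemma up_succ (n : ℕ) (v : V) : up par E (n + 1) v = up par E n v * E (par^[n] v) := rfl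

lemma up_add (m n : ℕ) (v : V) :
    up par E (m + n) v = up par E m v * up par E n (par^[m] v) := by
  induction n with
  | zero => simp [up]
  | succ n ih =>
    rw [← add_assoc, up_succ, up_succ, ih, mul_assoc]
    congr 2
    rw [← Function.iterate_add_apply, add_comm n m]

variable (hanc : ∀ v w : V, ∃ i j : ℕ, par^[i] v = par^[j] w)
  (hloop : ∀ (v : V) (i j : ℕ), par^[i] v = par^[j] v → i = j)

include hloop in
lemma up_eq {v w : V} {i j i' j' : ℕ} (h : par^[i] v = par^[j] w) (h' : par^[i'] v = par^[j'] w) :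
    up par E i v * (up par E j w)⁻¹ = up par E i' v * (up par E j' w)⁻¹ := by
  wlog hle : i ≤ i' generalizing i j i' j'
  · exact (this h' h (by omega)).symm
  obtain ⟨s, rfl⟩ := Nat.exists_eq_add_of_le hle
  have h1 : par^[i + s] v = par^[j + s] w := by
    rw [add_comm i s, add_comm j s, Function.iterate_add_apply, Function.iterate_add_apply, h]
  have h2 : j + s = j' := hloop w _ _ (h1.symm.trans h')
  rw [← h2, up_add, up_add, h]
  group

open Classical in
/-- the cocycle -/
noncomputable def coc (v w : V) : H :=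
  if h : ∃ i j : ℕ, par^[i] v = par^[j] w then
    up par E h.choose v * (up par E h.choose_spec.choose w)⁻¹
  else 1

include hloop in
lemma coc_eq {v w : V} {i j : ℕ} (h : par^[i] v = par^[j] w) :
    coc par E v w = up par E i v * (up par E j w)⁻¹ := by
  have hex : ∃ i j : ℕ, par^[i] v = par^[j] w := ⟨i, j, h⟩
  rw [coc, dif_pos hex]
  exact up_eq par E hloop hex.choose_spec.choose_spec h

include hanc hloop in
lemma coc_mul (u v w : V) : coc par E u v * coc par E v w = coc par E u w := by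
  obtain ⟨i, j, h1⟩ := hanc u v
  obtain ⟨i', j', h2⟩ := hanc v w
  have h3 : par^[i + i'] u = par^[j + i'] v := by
    rw [add_comm i i', add_comm j i', Function.iterate_add_apply, Function.iterate_add_apply, h1]
  have h4 : par^[j + i'] v = par^[j + j'] w := by
    rw [Function.iterate_add_apply, Function.iterate_add_apply, h2]
  rw [coc_eq par E hloop h3, coc_eq par E hloop h4, coc_eq par E hloop (h3.trans h4)]
  group

include hloop in
lemma coc_self (v : V) : coc par E v v = 1 := by
  rw [coc_eq par E hloop (i := 0) (j := 0) rfl]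
  simp [up]

include hanc hloop in
lemma coc_inv (v w : V) : (coc par E v w)⁻¹ = coc par E w v := by
  apply inv_eq_of_mul_eq_one_right
  rw [coc_mul par E hanc hloop, coc_self par E hloop]

include hloop in
lemma coc_up (n : ℕ) (v : V) : coc par E v (par^[n] v) = up par E n v := by
  rw [coc_eq par E hloop (i := n) (j := 0) rfl]
  simp [up]

include hloop in
lemma coc_par (v : V) : coc par E v (par v) = E v := by
  have := coc_up par E hloop 1 v
  simpa [up] using this

variable {Γ : Type*} [Group Γ] [MulAction Γ V] (θ : Γ →* H)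
  (hequi : ∀ (γ : Γ) (v : V), coc par E (γ • v) (γ • par v) = θ γ * E v * (θ γ)⁻¹)

include hanc hloop hequi in
lemma coc_equi_up (γ : Γ) (n : ℕ) (v : V) :
    coc par E (γ • v) (γ • par^[n] v) = θ γ * up par E n v * (θ γ)⁻¹ := by
  induction n with
  | zero => simp [up, coc_self par E hloop]
  | succ n ih =>
    rw [Function.iterate_succ_apply', ← coc_mul par E hanc hloop _ (γ • par^[n] v), ih, hequi,
      up_succ]
    group

include hanc hloop hequi in
lemma coc_equi (γ : Γ) (v w : V) :
    coc par E (γ • v) (γ • w) = θ γ * coc par E v w * (θ γ)⁻¹ := by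
  obtain ⟨i, j, h⟩ := hanc v w
  rw [← coc_mul par E hanc hloop _ (γ • par^[i] v), coc_equi_up par E hanc hloop θ hequi, h,
    ← coc_inv par E hanc hloop (γ • w), coc_equi_up par E hanc hloop θ hequi,
    coc_eq par E hloop h]
  group

/-- twisting a homomorphism by the cocycle -/
noncomputable def twist (v₀ : V) : Γ →* H where
  toFun γ := coc par E v₀ (γ • v₀) * θ γ
  map_one' := by rw [one_smul, coc_self par E hloop, map_one, one_mul]
  map_mul' := by
    intro γ δ
    rw [mul_smul, ← coc_mul par E hanc hloop v₀ (γ • v₀), coc_equi par E hanc hloop θ hequi,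
      map_mul]
    group

lemma twist_apply (v₀ : V) (γ : Γ) :
    twist par E hanc hloop θ hequi v₀ γ = coc par E v₀ (γ • v₀) * θ γ := rfl

end coc

/-! ### bending along one orbit of edges -/

section bend

variable {V H Γ : Type*} [Group H] [Group Γ] [MulAction Γ V] (par : V → V) (θ : Γ →* H) (v₀ : V)

/-- `k` carries the edge `v₀ → par v₀` to the edge `v → par v` -/
def Pos (v : V) (k : Γ) : Prop := k • v₀ = v ∧ k • par v₀ = par v
/-- `k` carries the edge `v₀ → par v₀` to the edge `par v → v` -/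
def Neg (v : V) (k : Γ) : Prop := k • v₀ = par v ∧ k • par v₀ = v

open Classical in
/-- the bending function -/
noncomputable def bendE (z : H) (v : V) : H :=
  if h : ∃ k : Γ, Pos par v₀ v k then θ h.choose * z * (θ h.choose)⁻¹
  else if h : ∃ k : Γ, Neg par v₀ v k then θ h.choose * z⁻¹ * (θ h.choose)⁻¹
  else 1

variable (z : H)
  (hstab : ∀ k : Γ, k • v₀ = v₀ → k • par v₀ = par v₀ → θ k * z = z * θ k)
  (hinv : ¬ ∃ k : Γ, k • v₀ = par v₀ ∧ k • par v₀ = v₀)

include hstab in
lemma conj_eq {k k' : Γ} {v w : V} (h1 : k • v₀ = v) (h2 : k • par v₀ = w) (h1' : k' • v₀ = v)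
    (h2' : k' • par v₀ = w) : θ k * z * (θ k)⁻¹ = θ k' * z * (θ k')⁻¹ := by
  have h3 := hstab (k⁻¹ * k') (by rw [mul_smul, h1', ← h1, inv_smul_smul])
    (by rw [mul_smul, h2', ← h2, inv_smul_smul])
  rw [map_mul, map_inv] at h3
  have h4 : θ k * ((θ k)⁻¹ * θ k' * z) * (θ k')⁻¹ = θ k * (z * ((θ k)⁻¹ * θ k')) * (θ k')⁻¹ := by
    rw [h3]
  have h5 : θ k * ((θ k)⁻¹ * θ k' * z) * (θ k')⁻¹ = θ k' * z * (θ k')⁻¹ := by group
  have h6 : θ k * (z * ((θ k)⁻¹ * θ k')) * (θ k')⁻¹ = θ k * z * (θ k)⁻¹ := by group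
  rw [h5, h6] at h4
  exact h4.symm

include hstab in
lemma bendE_pos {v : V} {k : Γ} (h : Pos par v₀ v k) :
    bendE par θ v₀ z v = θ k * z * (θ k)⁻¹ := by
  have hex : ∃ k : Γ, Pos par v₀ v k := ⟨k, h⟩
  rw [bendE, dif_pos hex]
  exact conj_eq par θ v₀ z hstab hex.choose_spec.1 hex.choose_spec.2 h.1 h.2

include hinv in
lemma not_both {v : V} {k k' : Γ} (h : Pos par v₀ v k) (h' : Neg par v₀ v k') : False := by
  apply hinv
  refine ⟨k⁻¹ * k', ?_, ?_⟩
  · rw [mul_smul, h'.1, ← h.2, inv_smul_smul]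
  · rw [mul_smul, h'.2, ← h.1, inv_smul_smul]

include hstab hinv in
lemma bendE_neg {v : V} {k : Γ} (h : Neg par v₀ v k) :
    bendE par θ v₀ z v = θ k * z⁻¹ * (θ k)⁻¹ := by
  have hex : ∃ k : Γ, Neg par v₀ v k := ⟨k, h⟩
  have hno : ¬ ∃ k : Γ, Pos par v₀ v k := fun ⟨k', hk'⟩ => not_both par v₀ hinv hk' h
  rw [bendE, dif_neg hno, dif_pos hex]
  have h1 := conj_eq par θ v₀ z hstab hex.choose_spec.1 hex.choose_spec.2 h.1 h.2
  have h2 := congrArg (fun x => x⁻¹) h1
  have e : ∀ a : H, (a * z * a⁻¹)⁻¹ = a * z⁻¹ * a⁻¹ := fun a => by group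
  simp only [e] at h2
  exact h2

lemma bendE_none {v : V} (h1 : ¬ ∃ k : Γ, Pos par v₀ v k) (h2 : ¬ ∃ k : Γ, Neg par v₀ v k) :
    bendE par θ v₀ z v = 1 := by
  rw [bendE, dif_neg h1, dif_neg h2]

variable (hanc : ∀ v w : V, ∃ i j : ℕ, par^[i] v = par^[j] w)
  (hloop : ∀ (v : V) (i j : ℕ), par^[i] v = par^[j] v → i = j)
  (hadj : ∀ (γ : Γ) (v : V), γ • par v = par (γ • v) ∨ γ • v = par (γ • par v))

include hstab hinv hanc hloop hadj in
lemma bend_equi (γ : Γ) (v : V) :
    coc par (bendE par θ v₀ z) (γ • v) (γ • par v) =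
      θ γ * bendE par θ v₀ z v * (θ γ)⁻¹ := by
  rcases hadj γ v with h | h
  · -- ascending
    have e1 : coc par (bendE par θ v₀ z) (γ • v) (γ • par v) = bendE par θ v₀ z (γ • v) := by
      rw [h, coc_par par _ hloop]
    rw [e1]
    by_cases hp : ∃ k : Γ, Pos par v₀ v k
    · obtain ⟨k, hk⟩ := hp
      have hk' : Pos par v₀ (γ • v) (γ * k) :=
        ⟨by rw [mul_smul, hk.1], by rw [mul_smul, hk.2, h]⟩
      rw [bendE_pos par θ v₀ z hstab hk, bendE_pos par θ v₀ z hstab hk', map_mul]
      group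
    · by_cases hn : ∃ k : Γ, Neg par v₀ v k
      · obtain ⟨k, hk⟩ := hn
        have hk' : Neg par v₀ (γ • v) (γ * k) :=
          ⟨by rw [mul_smul, hk.1, h], by rw [mul_smul, hk.2]⟩
        rw [bendE_neg par θ v₀ z hstab hinv hk, bendE_neg par θ v₀ z hstab hinv hk', map_mul]
        group
      · have hp' : ¬ ∃ k : Γ, Pos par v₀ (γ • v) k := by
          rintro ⟨k, hk⟩
          exact hp ⟨γ⁻¹ * k, by rw [mul_smul, hk.1, inv_smul_smul],
            by rw [mul_smul, hk.2, ← h, inv_smul_smul]⟩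
        have hn' : ¬ ∃ k : Γ, Neg par v₀ (γ • v) k := by
          rintro ⟨k, hk⟩
          exact hn ⟨γ⁻¹ * k, by rw [mul_smul, hk.1, ← h, inv_smul_smul],
            by rw [mul_smul, hk.2, inv_smul_smul]⟩
        rw [bendE_none par θ v₀ z hp hn, bendE_none par θ v₀ z hp' hn']
        group
  · -- descending
    have e1 : coc par (bendE par θ v₀ z) (γ • v) (γ • par v) =
        (bendE par θ v₀ z (γ • par v))⁻¹ := by
      rw [← coc_inv par _ hanc hloop]
      congr 1
      conv_lhs => rw [h]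
      rw [coc_par par _ hloop]
    rw [e1]
    by_cases hp : ∃ k : Γ, Pos par v₀ v k
    · obtain ⟨k, hk⟩ := hp
      have hk' : Neg par v₀ (γ • par v) (γ * k) :=
        ⟨by rw [mul_smul, hk.1, h], by rw [mul_smul, hk.2]⟩
      rw [bendE_pos par θ v₀ z hstab hk, bendE_neg par θ v₀ z hstab hinv hk', map_mul]
      group
    · by_cases hn : ∃ k : Γ, Neg par v₀ v k
      · obtain ⟨k, hk⟩ := hn
        have hk' : Pos par v₀ (γ • par v) (γ * k) :=
          ⟨by rw [mul_smul, hk.1], by rw [mul_smul, hk.2, h]⟩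
        rw [bendE_neg par θ v₀ z hstab hinv hk, bendE_pos par θ v₀ z hstab hk', map_mul]
        group
      · have hp' : ¬ ∃ k : Γ, Pos par v₀ (γ • par v) k := by
          rintro ⟨k, hk⟩
          exact hn ⟨γ⁻¹ * k, by rw [mul_smul, hk.1, inv_smul_smul],
            by rw [mul_smul, hk.2, ← h, inv_smul_smul]⟩
        have hn' : ¬ ∃ k : Γ, Neg par v₀ (γ • par v) k := by
          rintro ⟨k, hk⟩
          exact hp ⟨γ⁻¹ * k, by rw [mul_smul, hk.1, ← h, inv_smul_smul],
            by rw [mul_smul, hk.2, inv_smul_smul]⟩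
        rw [bendE_none par θ v₀ z hp hn, bendE_none par θ v₀ z hp' hn']
        group

/-- the bent homomorphism -/
noncomputable def bend : Γ →* H :=
  twist par (bendE par θ v₀ z) hanc hloop θ
    (bend_equi par θ v₀ z hstab hinv hanc hloop hadj) v₀

lemma bend_apply (γ : Γ) : bend par θ v₀ z hstab hinv hanc hloop hadj γ =
    coc par (bendE par θ v₀ z) v₀ (γ • v₀) * θ γ := rfl

lemma bend_axis {γ : Γ} {m : ℕ} (h : γ • v₀ = par^[m] v₀) :
    bend par θ v₀ z hstab hinv hanc hloop hadj γ = up par (bendE par θ v₀ z) m v₀ * θ γ := by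
  rw [bend_apply, h, coc_up par _ hloop]

end bend

end Pool.Agent.Lib.MP_c356f3_al.Den
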