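import Pool.Agent.Lib.MP_c356f3_al.DenDisc

/-!
Closed subgroups of `SL(2,ℚ_p)` with a hyperbolic diagonal element and small elements.
-/

namespace Pool.Agent.Lib.MP_c356f3_al.Den

open Topology Filter

variable {p : ℕ} [hp : Fact p.Prime]

/-- upper unipotent elements -/
noncomputable def uK (x : ℚ_[p]) : SK p := ⟨!![1, x; 0, 1], by simp [Matrix.det_fin_two_of]⟩

/-- lower unipotent elements -/
noncomputable def vK (x : ℚ_[p]) : SK p := ⟨!![1, 0; x, 1], by simp [Matrix.det_fin_two_of]⟩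

lemma sk_ext {g h : SK p} (h00 : g.val 0 0 = h.val 0 0) (h01 : g.val 0 1 = h.val 0 1)
    (h10 : g.val 1 0 = h.val 1 0) (h11 : g.val 1 1 = h.val 1 1) : g = h := by
  apply Subtype.ext
  ext i j
  fin_cases i <;> fin_cases j
  · exact h00
  · exact h01
  · exact h10
  · exact h11

lemma mul_k (g h : SK p) (i j : Fin 2) :
    (g * h).val i j = g.val i 0 * h.val 0 j + g.val i 1 * h.val 1 j := by
  rw [Matrix.SpecialLinearGroup.coe_mul, mul_apply']

lemma mul3_k (a b c : SK p) (i j : Fin 2) : (a * b * c).val i j =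
    (a.val i 0 * b.val 0 0 + a.val i 1 * b.val 1 0) * c.val 0 j +
    (a.val i 0 * b.val 0 1 + a.val i 1 * b.val 1 1) * c.val 1 j := by
  rw [mul_k (a * b) c i j, mul_k a b i 0, mul_k a b i 1]

lemma det_k (g : SK p) : g.val 0 0 * g.val 1 1 - g.val 0 1 * g.val 1 0 = 1 := by
  have := g.property
  rwa [Matrix.det_fin_two] at this

lemma inv_k00 (g : SK p) : (g⁻¹).val 0 0 = g.val 1 1 := by
  rw [Matrix.SpecialLinearGroup.coe_inv, Matrix.adjugate_fin_two]; rfl
lemma inv_k01 (g : SK p) : (g⁻¹).val 0 1 = -g.val 0 1 := by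
  rw [Matrix.SpecialLinearGroup.coe_inv, Matrix.adjugate_fin_two]; rfl
lemma inv_k10 (g : SK p) : (g⁻¹).val 1 0 = -g.val 1 0 := by
  rw [Matrix.SpecialLinearGroup.coe_inv, Matrix.adjugate_fin_two]; rfl
lemma inv_k11 (g : SK p) : (g⁻¹).val 1 1 = g.val 0 0 := by
  rw [Matrix.SpecialLinearGroup.coe_inv, Matrix.adjugate_fin_two]; rfl

@[simp] lemma uK00 (x : ℚ_[p]) : (uK x).val 0 0 = 1 := rfl
@[simp] lemma uK01 (x : ℚ_[p]) : (uK x).val 0 1 = x := rfl
@[simp] lemma uK10 (x : ℚ_[p]) : (uK x).val 1 0 = 0 := rfl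
@[simp] lemma uK11 (x : ℚ_[p]) : (uK x).val 1 1 = 1 := rfl
@[simp] lemma vK00 (x : ℚ_[p]) : (vK x).val 0 0 = 1 := rfl
@[simp] lemma vK01 (x : ℚ_[p]) : (vK x).val 0 1 = 0 := rfl
@[simp] lemma vK10 (x : ℚ_[p]) : (vK x).val 1 0 = x := rfl
@[simp] lemma vK11 (x : ℚ_[p]) : (vK x).val 1 1 = 1 := rfl
lemma one_k00 : (1 : SK p).val 0 0 = 1 := rfl
lemma one_k01 : (1 : SK p).val 0 1 = 0 := rfl
lemma one_k10 : (1 : SK p).val 1 0 = 0 := rfl
lemma one_k11 : (1 : SK p).val 1 1 = 1 := rfl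

lemma uK_add (x y : ℚ_[p]) : uK (x + y) = uK x * uK y := by
  apply sk_ext <;> rw [mul_k] <;> simp [add_comm]

lemma uK_zero : uK (0 : ℚ_[p]) = 1 := by
  apply sk_ext <;> simp

lemma tendsto_sk {ι : Type*} {l : Filter ι} {s : ι → SK p} {g : SK p}
    (h : ∀ i j, Tendsto (fun n => (s n).val i j) l (𝓝 (g.val i j))) : Tendsto s l (𝓝 g) := by
  refine (Matrix.SpecialLinearGroup.isClosedEmbedding_val (n := Fin 2)
    (R := ℚ_[p])).isEmbedding.isInducing.tendsto_nhds_iff.mpr ?_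
  exact tendsto_pi_nhds.mpr fun i => tendsto_pi_nhds.mpr fun j => h i j

lemma continuous_uK : Continuous (uK : ℚ_[p] → SK p) := by
  refine (Matrix.SpecialLinearGroup.isClosedEmbedding_val (n := Fin 2)
    (R := ℚ_[p])).isEmbedding.isInducing.continuous_iff.mpr ?_
  refine continuous_matrix fun i j => ?_
  fin_cases i <;> fin_cases j
  · exact continuous_const
  · exact continuous_id
  · exact continuous_const
  · exact continuous_const

lemma vK_zero : vK (0 : ℚ_[p]) = 1 := by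
  apply sk_ext <;> simp

/-- conjugating by powers of a diagonal element -/
lemma conj_pow {D : SK p} {μ : ℚ_[p]} (hμ : μ ≠ 0) (h00 : D.val 0 0 = μ) (h01 : D.val 0 1 = 0)
    (h10 : D.val 1 0 = 0) (h11 : D.val 1 1 = μ⁻¹) (g : SK p) (m : ℕ) :
    (D ^ m * g * (D ^ m)⁻¹).val 0 0 = g.val 0 0 ∧
    (D ^ m * g * (D ^ m)⁻¹).val 0 1 = μ ^ (2 * m) * g.val 0 1 ∧
    (D ^ m * g * (D ^ m)⁻¹).val 1 0 = (μ ^ (2 * m))⁻¹ * g.val 1 0 ∧
    (D ^ m * g * (D ^ m)⁻¹).val 1 1 = g.val 1 1 := by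
  induction m with
  | zero => simp
  | succ m ih =>
    obtain ⟨i0, i1, i2, i3⟩ := ih
    have e : D ^ (m + 1) * g * (D ^ (m + 1))⁻¹ = D * (D ^ m * g * (D ^ m)⁻¹) * D⁻¹ := by
      rw [pow_succ', mul_inv_rev]; simp only [mul_assoc]
    rw [e]
    set X := D ^ m * g * (D ^ m)⁻¹
    have e1 : ∀ i j, (D * X * D⁻¹).val i j = (D.val i 0 * X.val 0 0 + D.val i 1 * X.val 1 0) *
        (D⁻¹).val 0 j + (D.val i 0 * X.val 0 1 + D.val i 1 * X.val 1 1) * (D⁻¹).val 1 j := by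
      intro i j
      rw [mul_k (D * X) D⁻¹ i j, mul_k D X i 0, mul_k D X i 1]
    refine ⟨?_, ?_, ?_, ?_⟩
    · rw [e1, inv_k00, inv_k10, h00, h01, h10, h11, i0, i1, i2, i3]
      field_simp
      ring
    · rw [e1, inv_k01, inv_k11, h00, h01, i1, i3]
      ring
    · rw [e1, inv_k00, inv_k10, h10, h11, i0, i2]
      field_simp
      ring
    · rw [e1, inv_k01, inv_k11, h00, h01, h10, h11, i0, i1, i2, i3]
      field_simp
      ring

section closed

variable {H : Subgroup (SK p)}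

lemma one_lt_mu {μ : ℚ_[p]} {ν : ℕ} (hν : 0 < ν) (hμ : ‖μ‖ = (p : ℝ) ^ ν) : 1 < ‖μ‖ := by
  rw [hμ]; exact one_lt_pow₀ (p_one_lt (p := p)) hν.ne'

/-- a nontrivial upper unipotent element in the closed subgroup -/
lemma exists_uK (hcl : IsClosed (H : Set (SK p))) {D : SK p} (hD : D ∈ H) {μ : ℚ_[p]}
    (hμ : 1 < ‖μ‖) (h00 : D.val 0 0 = μ) (h01 : D.val 0 1 = 0)
    (h10 : D.val 1 0 = 0) (h11 : D.val 1 1 = μ⁻¹)
    (hs : ∀ δ : ℝ, 0 < δ → ∃ g ∈ H, (∀ i j, ‖g.val i j - (1 : SK p).val i j‖ ≤ δ) ∧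
      g.val 0 1 ≠ 0) : ∃ x : ℚ_[p], x ≠ 0 ∧ uK x ∈ H := by
  have hμ0 : μ ≠ 0 := by rintro rfl; rw [norm_zero] at hμ; linarith
  have hpos : ∀ n : ℕ, (0 : ℝ) < 1 / ((n : ℝ) + 1) := fun n => by positivity
  choose g hgH hgs hgb using fun n : ℕ => hs _ (hpos n)
  have hb1 : ∀ n, ‖(g n).val 0 1‖ ≤ 1 := by
    intro n
    have h1 := hgs n 0 1
    rw [one_k01, sub_zero] at h1
    refine h1.trans ?_
    rw [div_le_one (by positivity)]
    have : (0 : ℝ) ≤ n := Nat.cast_nonneg n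
    linarith
  have hex : ∀ n, ∃ m : ℕ, ‖μ ^ (2 * m) * (g n).val 0 1‖ ≤ 1 ∧
      1 < ‖μ ^ (2 * (m + 1)) * (g n).val 0 1‖ := by
    intro n
    have hE : ∃ m : ℕ, 1 < ‖μ ^ (2 * m) * (g n).val 0 1‖ := by
      obtain ⟨m, hm⟩ := pow_unbounded_of_one_lt (1 / ‖(g n).val 0 1‖) hμ
      refine ⟨m, ?_⟩
      have hb0 : 0 < ‖(g n).val 0 1‖ := norm_pos_iff.mpr (hgb n)
      rw [div_lt_iff₀ hb0] at hm
      rw [norm_mul, norm_pow]
      refine hm.trans_le ?_
      apply mul_le_mul_of_nonneg_right _ hb0.le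
      exact pow_le_pow_right₀ hμ.le (by omega)
    classical
    have h1 := Nat.find_spec hE
    have h2 := fun k (hk : k < Nat.find hE) => Nat.find_min hE hk
    set M := Nat.find hE
    rcases Nat.eq_zero_or_pos M with h0 | h0
    · rw [h0] at h1
      simp only [mul_zero, pow_zero, one_mul] at h1
      exact absurd (hb1 n) (not_le.mpr h1)
    · refine ⟨M - 1, not_lt.mp (h2 (M - 1) (by omega)), ?_⟩
      have : M - 1 + 1 = M := by omega
      rw [this]
      exact h1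
  choose m hm1 hm2 using hex
  let σ : ℕ → SK p := fun n => D ^ m n * g n * (D ^ m n)⁻¹
  have hσH : ∀ n, σ n ∈ H := fun n =>
    H.mul_mem (H.mul_mem (H.pow_mem hD _) (hgH n)) (H.inv_mem (H.pow_mem hD _))
  have hσ := fun n => conj_pow hμ0 h00 h01 h10 h11 (g n) (m n)
  have hmem : ∀ n, (σ n).val 0 1 ∈ Metric.closedBall (0 : ℚ_[p]) 1 := by
    intro n
    rw [mem_closedBall_zero_iff]
    rw [(hσ n).2.1]
    exact hm1 n
  obtain ⟨x, -, φ, hφ, hlim⟩ := tendsto_subseq_of_bounded Metric.isBounded_closedBall hmem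
  have hlow : ∀ n, (‖μ‖ ^ 2)⁻¹ ≤ ‖(σ n).val 0 1‖ := by
    intro n
    rw [(hσ n).2.1]
    have h1 := hm2 n
    rw [mul_add, pow_add, mul_one, norm_mul, norm_mul, norm_pow μ 2] at h1
    rw [norm_mul]
    have h2 : 0 < ‖μ‖ ^ 2 := by positivity
    rw [inv_le_iff_one_le_mul₀ h2]
    nlinarith
  have hx : (‖μ‖ ^ 2)⁻¹ ≤ ‖x‖ :=
    ge_of_tendsto hlim.norm (Eventually.of_forall fun n => hlow (φ n))
  have hx0 : x ≠ 0 := by
    rintro rfl
    rw [norm_zero] at hx
    have : 0 < (‖μ‖ ^ 2)⁻¹ := by positivity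
    linarith
  refine ⟨x, hx0, ?_⟩
  have hto : Tendsto (fun n : ℕ => 1 / ((n : ℝ) + 1)) atTop (𝓝 0) :=
    tendsto_one_div_add_atTop_nhds_zero_nat
  have hdiag : ∀ (i : Fin 2), (∀ n, (σ n).val i i = (g n).val i i) → (uK x).val i i = 1 →
      (1 : SK p).val i i = 1 →
      Tendsto (fun n => (σ (φ n)).val i i) atTop (𝓝 ((uK x).val i i)) := by
    intro i hi h1 h2
    rw [h1, tendsto_iff_norm_sub_tendsto_zero]
    refine squeeze_zero (fun n => norm_nonneg _) (fun n => ?_) (hto.comp hφ.tendsto_atTop)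
    rw [hi]
    have := hgs (φ n) i i
    rw [h2] at this
    exact this
  have htend : Tendsto (fun n => σ (φ n)) atTop (𝓝 (uK x)) := by
    apply tendsto_sk
    intro i j
    fin_cases i <;> fin_cases j
    · exact hdiag 0 (fun n => (hσ n).1) rfl rfl
    · exact hlim
    · show Tendsto (fun n => (σ (φ n)).val 1 0) atTop (𝓝 0)
      rw [tendsto_zero_iff_norm_tendsto_zero]
      refine squeeze_zero (fun n => norm_nonneg _) (fun n => ?_) (hto.comp hφ.tendsto_atTop)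
      rw [(hσ (φ n)).2.2.1, norm_mul, norm_inv, norm_pow]
      have h1 := hgs (φ n) 1 0
      rw [one_k10, sub_zero] at h1
      refine le_trans ?_ h1
      apply mul_le_of_le_one_left (norm_nonneg _)
      exact inv_le_one_of_one_le₀ (one_le_pow₀ hμ.le)
    · exact hdiag 1 (fun n => (hσ n).2.2.2) rfl rfl
  exact hcl.mem_of_tendsto htend (Eventually.of_forall fun n => hσH (φ n))

/-- all upper unipotent elements -/
lemma uK_all (hcl : IsClosed (H : Set (SK p))) {D : SK p} (hD : D ∈ H) {μ : ℚ_[p]}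
    (hμ : 1 < ‖μ‖) (h00 : D.val 0 0 = μ) (h01 : D.val 0 1 = 0)
    (h10 : D.val 1 0 = 0) (h11 : D.val 1 1 = μ⁻¹) {x : ℚ_[p]} (hx : x ≠ 0) (hxH : uK x ∈ H)
    (y : ℚ_[p]) : uK y ∈ H := by
  have hμ0 : μ ≠ 0 := by rintro rfl; rw [norm_zero] at hμ; linarith
  have hN : ∀ n : ℕ, uK ((((n : ℤ_[p])) : ℚ_[p]) * x) ∈ H := by
    intro n
    induction n with
    | zero =>
      have : (((0 : ℕ) : ℤ_[p]) : ℚ_[p]) * x = 0 := by push_cast; ring
      rw [this, uK_zero]
      exact H.one_mem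
    | succ n ih =>
      have : (((n + 1 : ℕ) : ℤ_[p]) : ℚ_[p]) * x = ((n : ℤ_[p]) : ℚ_[p]) * x + x := by
        push_cast; ring
      rw [this, uK_add]
      exact H.mul_mem ih hxH
  have hZ : ∀ t : ℤ_[p], uK ((t : ℚ_[p]) * x) ∈ H := by
    have hcont : Continuous fun t : ℤ_[p] => uK ((t : ℚ_[p]) * x) :=
      continuous_uK.comp (continuous_subtype_val.mul continuous_const)
    have hclo : IsClosed {t : ℤ_[p] | uK ((t : ℚ_[p]) * x) ∈ H} := hcl.preimage hcont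
    intro t
    have hd := PadicInt.denseRange_natCast (p := p)
    exact hd.induction_on (p := fun t : ℤ_[p] => uK ((t : ℚ_[p]) * x) ∈ H) t hclo hN
  obtain ⟨k, hk⟩ := pow_unbounded_of_one_lt ‖y / x‖ hμ
  have hk2 : ‖(μ ^ (2 * k))⁻¹ * (y / x)‖ ≤ 1 := by
    rw [norm_mul, norm_inv, norm_pow]
    have h1 : 0 < ‖μ‖ ^ (2 * k) := by positivity
    rw [inv_mul_le_iff₀ h1, mul_one]
    exact hk.le.trans (pow_le_pow_right₀ hμ.le (by omega))
  let t : ℤ_[p] := ⟨_, hk2⟩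
  have h1 := hZ t
  have h2 : D ^ k * uK ((t : ℚ_[p]) * x) * (D ^ k)⁻¹ ∈ H :=
    H.mul_mem (H.mul_mem (H.pow_mem hD _) h1) (H.inv_mem (H.pow_mem hD _))
  have h3 : D ^ k * uK ((t : ℚ_[p]) * x) * (D ^ k)⁻¹ = uK y := by
    obtain ⟨c0, c1, c2, c3⟩ := conj_pow hμ0 h00 h01 h10 h11 (uK ((t : ℚ_[p]) * x)) k
    apply sk_ext
    · rw [c0]; rfl
    · rw [c1, uK01, uK01]
      show μ ^ (2 * k) * ((μ ^ (2 * k))⁻¹ * (y / x) * x) = y
      have : μ ^ (2 * k) ≠ 0 := pow_ne_zero _ hμ0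
      field_simp
    · rw [c2, uK10, uK10, mul_zero]
    · rw [c3]; rfl
  rw [← h3]
  exact h2

/-- a closed subgroup containing a hyperbolic diagonal element, small elements off the lower
Borel subgroup, and an element off the upper Borel subgroup is everything -/
theorem closed_top (hcl : IsClosed (H : Set (SK p))) {D : SK p} (hD : D ∈ H) {μ : ℚ_[p]}
    (hμ : 1 < ‖μ‖) (h00 : D.val 0 0 = μ) (h01 : D.val 0 1 = 0)
    (h10 : D.val 1 0 = 0) (h11 : D.val 1 1 = μ⁻¹)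
    (hs : ∀ δ : ℝ, 0 < δ → ∃ g ∈ H, (∀ i j, ‖g.val i j - (1 : SK p).val i j‖ ≤ δ) ∧
      g.val 0 1 ≠ 0) (hc : ∃ g ∈ H, g.val 1 0 ≠ 0) : H = ⊤ := by
  obtain ⟨x, hx, hxH⟩ := exists_uK hcl hD hμ h00 h01 h10 h11 hs
  have hu := uK_all hcl hD hμ h00 h01 h10 h11 hx hxH
  obtain ⟨g, hgH, hgc⟩ := hc
  have hdet := det_k g
  -- a Weyl element
  obtain ⟨c, w, hc, hwH, w00, w10, w11⟩ : ∃ (c : ℚ_[p]) (w : SK p), c ≠ 0 ∧ w ∈ H ∧
      w.val 0 0 = 0 ∧ w.val 1 0 = c ∧ w.val 1 1 = 0 := by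
    refine ⟨g.val 1 0, uK (-(g.val 0 0) / g.val 1 0) * g * uK (-(g.val 1 1) / g.val 1 0), hgc,
      H.mul_mem (H.mul_mem (hu _) hgH) (hu _), ?_, ?_, ?_⟩
    · rw [mul3_k]
      simp only [uK00, uK01, uK10, uK11]
      field_simp
      ring
    · rw [mul3_k]
      simp only [uK00, uK01, uK10, uK11]
      ring
    · rw [mul3_k]
      simp only [uK00, uK01, uK10, uK11]
      field_simp
      ring
  have w01 : w.val 0 1 = -c⁻¹ := by
    have h1 := det_k w
    rw [w00, w10, w11] at h1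
    field_simp
    linear_combination -h1
  have hv : ∀ y : ℚ_[p], vK y ∈ H := by
    intro y
    have h1 : w * uK (-(y / c ^ 2)) * w⁻¹ ∈ H := H.mul_mem (H.mul_mem hwH (hu _)) (H.inv_mem hwH)
    have h2 : w * uK (-(y / c ^ 2)) * w⁻¹ = vK y := by
      apply sk_ext
      · rw [mul3_k, inv_k00, inv_k10, w00, w10, w11, w01]
        simp only [uK00, uK01, uK10, uK11, vK00]
        field_simp
        ring
      · rw [mul3_k, inv_k01, inv_k11, w00, w01]
        simp only [uK00, uK01, uK10, uK11, vK01]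
        ring
      · rw [mul3_k, inv_k00, inv_k10, w10, w11]
        simp only [uK00, uK01, uK10, uK11, vK10]
        field_simp
        ring
      · rw [mul3_k, inv_k01, inv_k11, w00, w10, w11, w01]
        simp only [uK00, uK01, uK10, uK11, vK11]
        field_simp
        ring
    rw [← h2]
    exact h1
  -- elements with nonzero lower left entry
  have hne : ∀ k : SK p, k.val 1 0 ≠ 0 → k ∈ H := by
    intro k hk
    have h1 := det_k k
    have h2 : k = uK ((k.val 0 0 - 1) / k.val 1 0) * vK (k.val 1 0) *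
        uK ((k.val 1 1 - 1) / k.val 1 0) := by
      apply sk_ext
      · rw [mul3_k]
        simp only [uK00, uK01, uK10, uK11, vK00, vK01, vK10, vK11]
        field_simp
        ring
      · rw [mul3_k]
        simp only [uK00, uK01, uK10, uK11, vK00, vK01, vK10, vK11]
        field_simp
        linear_combination -h1
      · rw [mul3_k]
        simp only [uK00, uK01, uK10, uK11, vK00, vK01, vK10, vK11]
        ring
      · rw [mul3_k]
        simp only [uK00, uK01, uK10, uK11, vK00, vK01, vK10, vK11]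
        field_simp
        ring
    rw [h2]
    exact H.mul_mem (H.mul_mem (hu _) (hv _)) (hu _)
  rw [eq_top_iff]
  intro k _
  by_cases hk : k.val 1 0 = 0
  · have h1 := det_k k
    rw [hk, mul_zero, sub_zero] at h1
    have h2 : (k * vK 1).val 1 0 ≠ 0 := by
      rw [mul_k, hk, vK00, vK10]
      intro h3
      have : k.val 1 1 = 0 := by linear_combination h3
      rw [this, mul_zero] at h1
      exact zero_ne_one h1
    have h3 := hne _ h2
    have h4 := H.mul_mem h3 (H.inv_mem (hv 1))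
    rwa [mul_inv_cancel_right] at h4
  · exact hne k hk

end closed
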