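import Pool.Agent.Lib.MP_c356f3_al.DenAlg
import Pool.Agent.Lib.MP_c356f3_al.DenAct

/-!
Diagonalising over `ℚ_p` an element whose trace is not `p`-integral.
-/

namespace Pool.Agent.Lib.MP_c356f3_al.Den

open SurjAux Bor

variable {p : ℕ} [hp : Fact p.Prime]

/-- `X ^ 2 - t X + 1` has a root of norm `|t|` if `|t| > 1` -/
lemma exists_root {t : ℚ_[p]} (ht : 1 < ‖t‖) :
    ∃ μ : ℚ_[p], μ ^ 2 - t * μ + 1 = 0 ∧ ‖μ‖ = ‖t‖ := by
  have ht0 : t ≠ 0 := by rintro rfl; rw [norm_zero] at ht; linarith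
  have hε : ‖(t ^ 2)⁻¹‖ < 1 := by
    rw [norm_inv, norm_pow]
    exact inv_lt_one_of_one_lt₀ (one_lt_pow₀ ht two_ne_zero)
  let ε : ℤ_[p] := ⟨(t ^ 2)⁻¹, hε.le⟩
  let F : Polynomial ℤ_[p] := Polynomial.X ^ 2 - Polynomial.X + Polynomial.C ε
  have hF : F.aeval (1 : ℤ_[p]) = ε := by simp [F]
  have hF' : F.derivative.aeval (1 : ℤ_[p]) = 1 := by
    simp [F]
  obtain ⟨z, hz, hz1, -, -⟩ := hensels_lemma (p := p) (F := F) (a := (1 : ℤ_[p])) (by
    rw [hF, hF', norm_one, one_pow]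
    exact hε)
  rw [hF', norm_one] at hz1
  have hz2 : z ^ 2 - z + ε = 0 := by simpa [F] using hz
  have hz3 : (z : ℚ_[p]) ^ 2 - z + (t ^ 2)⁻¹ = 0 := by
    have h : ((z ^ 2 - z + ε : ℤ_[p]) : ℚ_[p]) = 0 := by rw [hz2]; rfl
    push_cast at h
    exact h
  have hzn : ‖(z : ℚ_[p])‖ = 1 := by
    have h1 : ‖z‖ = 1 := by
      have h2 : z = 1 + (z - 1) := by ring
      have h3 : ‖(1 : ℤ_[p])‖ ≠ ‖z - 1‖ := by rw [norm_one]; exact hz1.ne'
      rw [h2, PadicInt.norm_add_eq_max_of_ne h3, norm_one]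
      exact max_eq_left hz1.le
    exact h1
  refine ⟨t * z, ?_, by rw [norm_mul, hzn, mul_one]⟩
  have h4 : t ^ 2 * (t ^ 2)⁻¹ = 1 := mul_inv_cancel₀ (pow_ne_zero 2 ht0)
  linear_combination t ^ 2 * hz3 - h4

/-- the inclusion `SL(2,ℚ) → SL(2,ℚ_p)` -/
noncomputable def toP (p : ℕ) [Fact p.Prime] : SQ →* SK p :=
  Matrix.SpecialLinearGroup.map (algebraMap ℚ ℚ_[p])

lemma toP_apply (g : SQ) (i j : Fin 2) : (toP p g).val i j = ((g.val i j : ℚ) : ℚ_[p]) := rfl

/-- conjugation by an invertible matrix -/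
noncomputable def cj (P P' : MK p) (h : P * P' = 1) (h' : P' * P = 1) : SK p →* SK p where
  toFun g := ⟨P' * g.val * P, by
    rw [Matrix.det_mul, Matrix.det_mul, g.property, mul_one, ← Matrix.det_mul, h',
      Matrix.det_one]⟩
  map_one' := by
    apply Subtype.ext
    show P' * (1 : MK p) * P = 1
    rw [Matrix.mul_one, h']
  map_mul' a b := by
    apply Subtype.ext
    show P' * (a.val * b.val) * P = (P' * a.val * P) * (P' * b.val * P)
    have : (P' * a.val * P) * (P' * b.val * P) = P' * a.val * (P * P') * b.val * P := by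
      simp only [Matrix.mul_assoc]
    rw [this, h, Matrix.mul_one]
    simp only [Matrix.mul_assoc]

lemma cj_val (P P' : MK p) (h : P * P' = 1) (h' : P' * P = 1) (g : SK p) :
    (cj P P' h h' g).val = P' * g.val * P := rfl

lemma cj_back (P P' : MK p) (h : P * P' = 1) (h' : P' * P = 1) (g : SK p) :
    g.val = P * (cj P P' h h' g).val * P' := by
  rw [cj_val]
  have : P * (P' * g.val * P) * P' = (P * P') * g.val * (P * P') := by
    simp only [Matrix.mul_assoc]
  rw [this, h, Matrix.one_mul, Matrix.mul_one]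

lemma mulVec2 (M : MK p) (v : Fin 2 → ℚ_[p]) (i : Fin 2) :
    M.mulVec v i = M i 0 * v 0 + M i 1 * v 1 := by
  rw [Matrix.mulVec, dotProduct, Fin.sum_univ_two]

/-- diagonalisation -/
lemma exists_diag (g : SK p) (ht : 1 < ‖g.val.trace‖) :
    ∃ (P P' : MK p) (h : P * P' = 1) (h' : P' * P = 1) (μ : ℚ_[p]) (ν : ℕ), 0 < ν ∧
      ‖μ‖ = (p : ℝ) ^ ν ∧ (cj P P' h h' g).val 0 0 = μ ∧ (cj P P' h h' g).val 0 1 = 0 ∧
      (cj P P' h h' g).val 1 0 = 0 ∧ (cj P P' h h' g).val 1 1 = μ⁻¹ := by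
  obtain ⟨μ, hμ, hμn⟩ := exists_root ht
  have hdet : g.val 0 0 * g.val 1 1 - g.val 0 1 * g.val 1 0 = 1 := by
    have := g.property
    rwa [Matrix.det_fin_two] at this
  have htr : g.val.trace = g.val 0 0 + g.val 1 1 := Matrix.trace_fin_two _
  rw [htr] at hμ
  have hμ1 : 1 < ‖μ‖ := by rw [hμn]; exact ht
  have hμ0 : μ ≠ 0 := by rintro rfl; rw [norm_zero] at hμ1; linarith
  obtain ⟨ν, hν⟩ : ∃ ν : ℕ, ‖μ‖ = (p : ℝ) ^ ν := by
    rw [Padic.norm_eq_zpow_neg_valuation hμ0] at hμ1 ⊢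
    have h1 : 0 < -μ.valuation := by
      by_contra hle
      push Not at hle
      have : (p : ℝ) ^ (-μ.valuation) ≤ (p : ℝ) ^ (0 : ℤ) :=
        zpow_le_zpow_right₀ (p_one_lt (p := p)).le hle
      rw [zpow_zero] at this
      linarith
    refine ⟨(-μ.valuation).toNat, ?_⟩
    rw [← zpow_natCast]
    congr 1
    omega
  have hν0 : 0 < ν := by
    rcases Nat.eq_zero_or_pos ν with h | h
    · rw [hν, h, pow_zero] at hμ1; linarith
    · exact h
  -- eigenvectors
  have key : ∀ l : ℚ_[p], l ^ 2 - (g.val 0 0 + g.val 1 1) * l + 1 = 0 →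
      ∃ v : Fin 2 → ℚ_[p], v ≠ 0 ∧ g.val 0 0 * v 0 + g.val 0 1 * v 1 = l * v 0 ∧
        g.val 1 0 * v 0 + g.val 1 1 * v 1 = l * v 1 := by
    intro l hl
    have hd : (g.val - l • (1 : MK p)).det = 0 := by
      rw [Matrix.det_fin_two]
      simp
      linear_combination hl + hdet
    obtain ⟨v, hv, hv0⟩ := Matrix.exists_mulVec_eq_zero_iff.mpr hd
    refine ⟨v, hv, ?_, ?_⟩
    · have := congrFun hv0 0
      rw [mulVec2] at this
      simp at this
      linear_combination this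
    · have := congrFun hv0 1
      rw [mulVec2] at this
      simp at this
      linear_combination this
  obtain ⟨v, hv, hv0, hv1⟩ := key μ hμ
  obtain ⟨w, hw, hw0, hw1⟩ := key μ⁻¹ (by field_simp; linear_combination hμ)
  have hμμ : μ - μ⁻¹ ≠ 0 := by
    intro h
    have h2 : μ = μ⁻¹ := sub_eq_zero.mp h
    have h3 := congrArg norm h2
    rw [norm_inv] at h3
    have h4 : ‖μ‖⁻¹ < 1 := inv_lt_one_of_one_lt₀ hμ1
    linarith
  have hD : v 0 * w 1 - v 1 * w 0 ≠ 0 := by
    intro hD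
    apply hw
    have hx : (μ - μ⁻¹) * (v 0 * w 0) = 0 := by
      linear_combination v 0 * hw0 - w 0 * hv0 - g.val 0 1 * hD
    have hy : (μ - μ⁻¹) * (v 1 * w 1) = 0 := by
      linear_combination v 1 * hw1 - w 1 * hv1 + g.val 1 0 * hD
    have hx' := (mul_eq_zero.mp hx).resolve_left hμμ
    have hy' := (mul_eq_zero.mp hy).resolve_left hμμ
    by_cases h0 : v 0 = 0
    · have h1 : v 1 ≠ 0 := by
        intro h1; apply hv; ext i; fin_cases i
        · exact h0
        · exact h1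
      have w1 : w 1 = 0 := (mul_eq_zero.mp hy').resolve_left h1
      have w0 : w 0 = 0 := by
        rw [h0, w1] at hD
        have : v 1 * w 0 = 0 := by linear_combination -hD
        exact (mul_eq_zero.mp this).resolve_left h1
      ext i; fin_cases i
      · exact w0
      · exact w1
    · have w0 : w 0 = 0 := (mul_eq_zero.mp hx').resolve_left h0
      have w1 : w 1 = 0 := by
        rw [w0] at hD
        have : v 0 * w 1 = 0 := by linear_combination hD
        exact (mul_eq_zero.mp this).resolve_left h0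
      ext i; fin_cases i
      · exact w0
      · exact w1
  set D := v 0 * w 1 - v 1 * w 0 with hDdef
  let P : MK p := !![v 0, w 0; v 1, w 1]
  let P' : MK p := !![w 1 / D, -(w 0) / D; -(v 1) / D, v 0 / D]
  have h : P * P' = 1 := by
    ext i j
    rw [mul_apply']
    fin_cases i <;> fin_cases j <;> simp [P, P'] <;> field_simp <;> rw [hDdef] <;> ring
  have h' : P' * P = 1 := by
    ext i j
    rw [mul_apply']
    fin_cases i <;> fin_cases j <;> simp [P, P'] <;> field_simp <;> rw [hDdef] <;> ring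
  have hgP : g.val * P = P * !![μ, 0; 0, μ⁻¹] := by
    ext i j
    rw [mul_apply', mul_apply']
    fin_cases i <;> fin_cases j <;> simp [P]
    · linear_combination hv0
    · linear_combination hw0
    · linear_combination hv1
    · linear_combination hw1
  have hfin : (cj P P' h h' g).val = !![μ, 0; 0, μ⁻¹] := by
    rw [cj_val, Matrix.mul_assoc, hgP, ← Matrix.mul_assoc, h', Matrix.one_mul]
  refine ⟨P, P', h, h', μ, ν, hν0, hν, ?_, ?_, ?_, ?_⟩ <;> rw [hfin] <;> simp

end Pool.Agent.Lib.MP_c356f3_al.Den
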