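import Pool.Agent.Lib.MP_c356f3_al.DenBend

/-!
Bending along an edge with central stabiliser: the traces are unbounded.
-/

namespace Pool.Agent.Lib.MP_c356f3_al.Den

open Matrix SurjAux

section main

variable {V G : Type*} [Group G] [MulAction G V] (par : V → V) (v₀ : V) (f : G →* SQ) {τ : ℂ}
  (hτ : Transcendental ℚ τ)
  (hcen : ∀ g : G, Cen (f g) → ∀ v : V, g • v = v)
  (hstab : ∀ k : G, k • v₀ = v₀ → k • par v₀ = par v₀ → Cen (f k))
  (hinv : ¬ ∃ k : G, k • v₀ = par v₀ ∧ k • par v₀ = v₀)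
  (hanc : ∀ v w : V, ∃ i j : ℕ, par^[i] v = par^[j] w)
  (hloop : ∀ (v : V) (i j : ℕ), par^[i] v = par^[j] v → i = j)
  (hadj : ∀ (γ : G) (v : V), γ • par v = par (γ • v) ∨ γ • v = par (γ • par v))

include hτ in
lemma del_ne : τ - τ ^ 2 ≠ 0 := by
  intro h
  have := coeffs_zero hτ 0 1 (-1) 0 0 (by push_cast; linear_combination h)
  exact one_ne_zero this.2.1

lemma mc_cancel (A : SQ) (v : Fin 2 → ℂ) : mc A *ᵥ (mc A⁻¹ *ᵥ v) = v := by
  rw [Matrix.mulVec_mulVec, ← mc_mul, mul_inv_cancel, mc_one, Matrix.one_mulVec]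

lemma mc_cancel' (A B : SQ) (v : Fin 2 → ℂ) : mc A⁻¹ *ᵥ (mc B *ᵥ v) = mc (A⁻¹ * B) *ᵥ v := by
  rw [Matrix.mulVec_mulVec, ← mc_mul]

/-- the vector `x` is a nonzero multiple of the vector belonging to a crossing at place `≥ j` -/
def Form (j : ℕ) (x : Fin 2 → ℂ) : Prop :=
  ∃ (J : ℕ) (K : G) (κ : ℂ), κ ≠ 0 ∧ j ≤ J ∧
    ((Pos par v₀ (par^[J] v₀) K ∧ x = κ • (mc (f K) *ᵥ ![τ, 1])) ∨
      (Neg par v₀ (par^[J] v₀) K ∧ x = κ • (mc (f K) *ᵥ ![τ ^ 2, 1])))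

lemma dt_smul_left (c : ℂ) (u w : Fin 2 → ℂ) : dt (c • u) w = c * dt u w := by
  simp [dt]; ring

lemma dt_smul_right (c : ℂ) (u w : Fin 2 → ℂ) : dt u (c • w) = c * dt u w := by
  simp [dt]; ring

include hcen in
lemma act_eq {k K : G} (h : Cen (f (k⁻¹ * K))) (v : V) : K • v = k • v := by
  have h1 := hcen _ h v
  rw [mul_smul] at h1
  rw [← h1, smul_inv_smul, h1]

include hτ hcen hloop in
/-- a positive crossing at `j` does not kill a vector of a later crossing -/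
lemma pos_ne {j : ℕ} {k : G} (hk : Pos par v₀ (par^[j] v₀) k) {x : Fin 2 → ℂ}
    (hx : Form par v₀ f (τ := τ) (j + 1) x) : dt (mc (f k)⁻¹ *ᵥ x) ![τ ^ 2, 1] ≠ 0 := by
  obtain ⟨J, K, κ, hκ, hJ, h | h⟩ := hx
  · rw [h.2, Matrix.mulVec_smul, mc_cancel', dt_smul_left]
    exact mul_ne_zero hκ (d_pn hτ _)
  · rw [h.2, Matrix.mulVec_smul, mc_cancel', dt_smul_left]
    refine mul_ne_zero hκ fun h0 => ?_
    have hc := d_nn hτ h0
    rw [← map_inv, ← map_mul] at hc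
    have h1 := act_eq f hcen hc v₀
    rw [h.1.1, hk.1, ← Function.iterate_succ_apply' par] at h1
    have := hloop v₀ _ _ h1
    omega

include hτ hcen hloop in
lemma neg_ne {j : ℕ} {k : G} (hk : Neg par v₀ (par^[j] v₀) k) {x : Fin 2 → ℂ}
    (hx : Form par v₀ f (τ := τ) (j + 1) x) : dt ![τ, 1] (mc (f k)⁻¹ *ᵥ x) ≠ 0 := by
  obtain ⟨J, K, κ, hκ, hJ, h | h⟩ := hx
  · rw [h.2, Matrix.mulVec_smul, mc_cancel', dt_smul_right]
    refine mul_ne_zero hκ fun h0 => ?_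
    have hc := d_pp hτ h0
    rw [← map_inv, ← map_mul] at hc
    have h1 := act_eq f hcen hc (par v₀)
    rw [h.1.2, hk.2, ← Function.iterate_succ_apply' par] at h1
    have := hloop v₀ _ _ h1
    omega
  · rw [h.2, Matrix.mulVec_smul, mc_cancel', dt_smul_right]
    exact mul_ne_zero hκ (d_np hτ _)

include hτ hcen hloop in
/-- one step down -/
lemma form_step {j : ℕ} {x : Fin 2 → ℂ} (hx : Form par v₀ f (τ := τ) (j + 1) x) :
    Form par v₀ f (τ := τ) j (Mj par v₀ f τ j 0 *ᵥ x) := by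
  have hδ := del_ne hτ
  by_cases hp : ∃ k : G, Pos par v₀ (par^[j] v₀) k
  · have hk := hp.choose_spec
    rw [Mj, dif_pos hp]
    set k := hp.choose with hkdef
    have h1 := pos_ne par v₀ f hτ hcen hloop hk hx
    refine ⟨j, k, dt (mc (f k)⁻¹ *ᵥ x) ![τ ^ 2, 1] / (τ - τ ^ 2), div_ne_zero h1 hδ, le_rfl,
      Or.inl ⟨hk, ?_⟩⟩
    rw [← Matrix.mulVec_mulVec, ← Matrix.mulVec_mulVec, Zm_10, Matrix.mulVec_smul]
  · by_cases hn : ∃ k : G, Neg par v₀ (par^[j] v₀) k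
    · have hk := hn.choose_spec
      rw [Mj, dif_neg hp, dif_pos hn]
      set k := hn.choose with hkdef
      have h1 := neg_ne par v₀ f hτ hcen hloop hk hx
      refine ⟨j, k, dt ![τ, 1] (mc (f k)⁻¹ *ᵥ x) / (τ - τ ^ 2), div_ne_zero h1 hδ, le_rfl,
        Or.inr ⟨hk, ?_⟩⟩
      rw [← Matrix.mulVec_mulVec, ← Matrix.mulVec_mulVec, Zm_01, Matrix.mulVec_smul]
    · rw [Mj, dif_neg hp, dif_neg hn, Matrix.one_mulVec]
      obtain ⟨J, K, κ, hκ, hJ, h⟩ := hx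
      exact ⟨J, K, κ, hκ, by omega, h⟩

include hτ hcen hloop in
lemma form_down {m : ℕ} {x : Fin 2 → ℂ} (hx : Form par v₀ f (τ := τ) m x) (n : ℕ) (hn : n ≤ m) :
    ∃ y, Form par v₀ f (τ := τ) (m - n) y ∧
      Nm par v₀ f τ m 0 *ᵥ x = Nm par v₀ f τ (m - n) 0 *ᵥ y := by
  induction n with
  | zero => exact ⟨x, hx, rfl⟩
  | succ n ih =>
    obtain ⟨y, hy, h1⟩ := ih (by omega)
    obtain ⟨j, hj⟩ : ∃ j, m - n = j + 1 := ⟨m - n - 1, by omega⟩
    have hj' : m - (n + 1) = j := by omega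
    rw [hj] at hy h1
    rw [hj']
    refine ⟨Mj par v₀ f τ j 0 *ᵥ y, form_step par v₀ f hτ hcen hloop hy, ?_⟩
    rw [h1, Nm, Matrix.mulVec_mulVec]

include hstab in
lemma M0_eq : Mj par v₀ f τ 0 0 = Zm τ 1 0 := by
  have hp : ∃ k : G, Pos par v₀ (par^[0] v₀) k := ⟨1, by simp [Pos]⟩
  rw [Mj, dif_pos hp]
  have hk := hp.choose_spec
  have hc := hstab _ hk.1 hk.2
  rw [cen_comm hc, Matrix.mul_assoc, ← mc_mul, mul_inv_cancel, mc_one, Matrix.mul_one]

include hstab in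
lemma N_det {m : ℕ} (hm : 0 < m) : (Nm par v₀ f τ m 0).det = 0 := by
  induction m with
  | zero => omega
  | succ m ih =>
    rw [Nm, Matrix.det_mul]
    rcases Nat.eq_zero_or_pos m with rfl | h
    · rw [M0_eq par v₀ f hstab, Zm_det, mul_zero]
    · rw [ih h, zero_mul]

lemma W_pos {m : ℕ} (hm : 0 < m) : 0 < Wm (G := G) par v₀ m := by
  induction m with
  | zero => omega
  | succ m ih =>
    rw [Wm]
    rcases Nat.eq_zero_or_pos m with rfl | h
    · have : wj (G := G) par v₀ 0 = 1 := by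
        rw [wj, if_pos]
        exact Or.inl ⟨1, by simp [Pos]⟩
      rw [this]
      omega
    · have := ih h
      omega

include hτ hcen hstab hloop in
lemma trace_ne {m : ℕ} (hm : 0 < m) {h : G} (h1 : h • v₀ = par^[m] v₀)
    (h2 : h • par v₀ = par^[m + 1] v₀) :
    (Nm par v₀ f τ m 0 * mc (f h)).trace ≠ 0 := by
  have hδ := del_ne hτ
  have hx : Form par v₀ f (τ := τ) m (mc (f h) *ᵥ ![τ, 1]) :=
    ⟨m, h, 1, one_ne_zero, le_rfl, Or.inl ⟨⟨h1, by rw [h2, Function.iterate_succ_apply']⟩,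
      by rw [one_smul]⟩⟩
  obtain ⟨y, hy, h3⟩ := form_down par v₀ f hτ hcen hloop hx (m - 1) (by omega)
  have hm1 : m - (m - 1) = 0 + 1 := by omega
  rw [hm1] at hy h3
  have hk0 : Pos par v₀ (par^[0] v₀) (1 : G) := by simp [Pos]
  have h4 := pos_ne par v₀ f hτ hcen hloop hk0 hy
  rw [map_one, inv_one, mc_one, Matrix.one_mulVec] at h4
  have h5 : Nm par v₀ f τ m 0 *ᵥ (mc (f h) *ᵥ ![τ, 1]) =
      (dt y ![τ ^ 2, 1] / (τ - τ ^ 2)) • ![τ, 1] := by
    rw [h3, Nm, Nm, Matrix.one_mul, M0_eq par v₀ f hstab, Zm_10]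
  rw [Matrix.mulVec_mulVec] at h5
  set κ := dt y ![τ ^ 2, 1] / (τ - τ ^ 2) with hκ
  have hκ0 : κ ≠ 0 := div_ne_zero h4 hδ
  set R := Nm par v₀ f τ m 0 * mc (f h) with hR
  have hdet : R.det = 0 := by
    rw [hR, Matrix.det_mul, N_det par v₀ f hstab hm, zero_mul]
  rw [Matrix.det_fin_two] at hdet
  have e0 := congrFun h5 0
  have e1 := congrFun h5 1
  simp only [Matrix.mulVec, dotProduct, Fin.sum_univ_two, Matrix.cons_val_zero,
    Matrix.cons_val_one, Pi.smul_apply, smul_eq_mul, mul_one] at e0 e1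
  have h6 : κ * (κ - R.trace) = 0 := by
    rw [Matrix.trace_fin_two]
    linear_combination (-(κ : ℂ)) * e1 - R 1 0 * e0 + (R 0 0) * e1 - hdet
  intro h7
  rw [h7, sub_zero] at h6
  exact mul_ne_zero hκ0 hκ0 h6

include hτ hcen hstab hinv hanc hloop hadj in
/-- bending gives representations of unbounded trace -/
theorem no_bend {m : ℕ} (hm : 0 < m) {h : G} (h1 : h • v₀ = par^[m] v₀)
    (h2 : h • par v₀ = par^[m + 1] v₀) (C : ℝ)
    (hC : ∀ ρ : G →* GL (Fin 2) ℂ, ‖(ρ h).val.trace‖ ≤ C) : False := by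
  have hδ := del_ne hτ
  have hs0 : ∀ n : ℕ, ((n : ℂ) + 1) ≠ 0 := fun n => by exact_mod_cast n.succ_ne_zero
  have hst : ∀ (s : ℂ) (hs : s ≠ 0) (k : G), k • v₀ = v₀ → k • par v₀ = par v₀ →
      (cx.comp f) k * zs τ hδ s hs = zs τ hδ s hs * (cx.comp f) k := by
    intro s hs k hk hk'
    apply Units.ext
    rw [Units.val_mul, Units.val_mul, MonoidHom.comp_apply, cx_val']
    exact cen_comm (hstab k hk hk') _
  have hval : ∀ n : ℕ, ‖(Nm par v₀ f τ m (((n : ℂ) + 1) ^ 2)⁻¹ * mc (f h)).trace‖ ≤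
      C / ((n : ℝ) + 1) := by
    intro n
    have hb := hC (bend par (cx.comp f) v₀ (zs τ hδ _ (hs0 n)) (hst _ (hs0 n)) hinv hanc hloop
      hadj)
    rw [bend_axis par (cx.comp f) v₀ _ _ hinv hanc hloop hadj h1, Units.val_mul, up_val,
      MonoidHom.comp_apply, cx_val', Matrix.smul_mul, Matrix.trace_smul, smul_eq_mul,
      norm_mul, norm_pow] at hb
    have hn : ‖(n : ℂ) + 1‖ = (n : ℝ) + 1 := by
      have : ((n : ℂ) + 1) = (((n : ℝ) + 1 : ℝ) : ℂ) := by push_cast; ring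
      rw [this, Complex.norm_real, Real.norm_eq_abs, abs_of_pos (by positivity)]
    rw [hn] at hb
    rw [le_div_iff₀ (by positivity)]
    have hge : (n : ℝ) + 1 ≤ ((n : ℝ) + 1) ^ (Wm (G := G) par v₀ m) := by
      apply le_self_pow₀ (by linarith [Nat.cast_nonneg (α := ℝ) n])
      exact (W_pos (G := G) par v₀ hm).ne'
    calc ‖(Nm par v₀ f τ m (((n : ℂ) + 1) ^ 2)⁻¹ * mc (f h)).trace‖ * ((n : ℝ) + 1)
        ≤ ‖(Nm par v₀ f τ m (((n : ℂ) + 1) ^ 2)⁻¹ * mc (f h)).trace‖ *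
          ((n : ℝ) + 1) ^ (Wm (G := G) par v₀ m) :=
          mul_le_mul_of_nonneg_left hge (norm_nonneg _)
      _ = ((n : ℝ) + 1) ^ (Wm (G := G) par v₀ m) *
          ‖(Nm par v₀ f τ m (((n : ℂ) + 1) ^ 2)⁻¹ * mc (f h)).trace‖ := mul_comm _ _
      _ ≤ C := hb
  have hε : Filter.Tendsto (fun n : ℕ => (((n : ℂ) + 1) ^ 2)⁻¹) Filter.atTop (nhds 0) := by
    have t1 : Filter.Tendsto (fun n : ℕ => (((n : ℂ) + 1))⁻¹) Filter.atTop (nhds 0) := by
      have := tendsto_one_div_add_atTop_nhds_zero_nat (𝕜 := ℂ)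
      simpa [one_div] using this
    have t2 := t1.pow 2
    simpa [inv_pow] using t2
  have hcont : Continuous fun ε => (Nm par v₀ f τ m ε * mc (f h)).trace :=
    ((Nm_cont par v₀ f τ m).matrix_mul continuous_const).matrix_trace
  have hlim := (hcont.tendsto 0).comp hε
  have hzero : Filter.Tendsto (fun n : ℕ =>
      (Nm par v₀ f τ m (((n : ℂ) + 1) ^ 2)⁻¹ * mc (f h)).trace) Filter.atTop (nhds 0) := by
    apply squeeze_zero_norm hval
    have := (tendsto_one_div_add_atTop_nhds_zero_nat (𝕜 := ℝ)).const_mul C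
    simpa [div_eq_mul_inv] using this
  have := tendsto_nhds_unique hlim hzero
  exact trace_ne par v₀ f hτ hcen hstab hloop hm h1 h2 this

end main

end Pool.Agent.Lib.MP_c356f3_al.Den
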