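import Pool.Agent.Lib.MP_c356f3_al.DenDiag
import Pool.Agent.Lib.MP_c356f3_al.DenUnb

/-!
A group whose two-dimensional representations have bounded traces is not discrete at `p`.
-/

namespace Pool.Agent.Lib.MP_c356f3_al.Den

open SurjAux Bor

lemma exists_transcendental : ∃ τ : ℂ, Transcendental ℚ τ := by
  by_contra h
  push Not at h
  apply not_countable_complex
  have h1 := Algebraic.countable ℚ ℂ
  refine h1.mono fun x _ => ?_
  have := h x
  rw [Transcendental, not_not] at this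
  exact this

/-- abstract form of the argument on the axis: some edge has central stabiliser -/
lemma exists_edge {G V : Type*} [Group G] [MulAction G V] (f : G →* SQ) (v : ℤ → V)
    (htor : ∀ (j : ℤ) (g : G), g • v j = v j → ∃ n : ℕ, 0 < n ∧ (f g) ^ n = 1)
    (h : G) (N : ℕ) (hv : ∀ j, h • v j = v (j + N)) (hh : 4 < (f h).val.trace ^ 2) :
    ∃ j : ℤ, ∀ g : G, g • v j = v j → g • v (j + 1) = v (j + 1) → Cen (f g) := by
  -- elements fixing a common vertex commute
  have hcomm : ∀ (j : ℤ) (g g' : G), g • v j = v j → g' • v j = v j → f g * f g' = f g' * f g := by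
    intro j g g' hg hg'
    by_cases hc : Cen (f g)
    · rw [comm_iff]
      obtain ⟨h1, h2, h3⟩ := hc
      rw [h1, h2, h3]
      simp
    · obtain ⟨n, hn, hn1⟩ := htor j g hg
      have hlt := torsion_tr hc hn hn1
      obtain ⟨h1, h2⟩ := tr_comm_ge hlt (f g')
      apply h2
      have hfix : (g * g' * g⁻¹ * g'⁻¹) • v j = v j := by
        have e1 : g⁻¹ • v j = v j := by rw [inv_smul_eq_iff, hg]
        have e2 : g'⁻¹ • v j = v j := by rw [inv_smul_eq_iff, hg']
        rw [mul_smul, mul_smul, mul_smul, e2, e1, hg', hg]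
      obtain ⟨m, hm, hm1⟩ := htor j _ hfix
      have hf : f (g * g' * g⁻¹ * g'⁻¹) = f g * f g' * (f g)⁻¹ * (f g')⁻¹ := by
        simp only [map_mul, map_inv]
      rw [hf] at hm1
      by_cases hc' : Cen (f g * f g' * (f g)⁻¹ * (f g')⁻¹)
      · obtain ⟨k1, k2, k3⟩ := hc'
        set c := f g * f g' * (f g)⁻¹ * (f g')⁻¹
        have hd := det_q c
        rw [k1, k3] at hd
        rw [tr_eq, k3] at h1 ⊢
        have : (c.val 1 1 - 1) * (c.val 1 1 + 1) = 0 := by linear_combination hd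
        rcases mul_eq_zero.mp this with h4 | h4
        · linarith
        · linarith
      · have := torsion_tr hc' hm hm1
        nlinarith
  by_contra hcon
  push Not at hcon
  choose g hg1 hg2 hg3 using hcon
  have hg3' : ∀ j, ¬ Cen (f (g j)) := hg3
  -- consecutive ones commute
  have hcons : ∀ j : ℤ, f (g j) * f (g (j + 1)) = f (g (j + 1)) * f (g j) := fun j =>
    hcomm (j + 1) _ _ (hg2 j) (hg1 (j + 1))
  have hall : ∀ n : ℕ, f (g 0) * f (g n) = f (g n) * f (g 0) := by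
    intro n
    induction n with
    | zero => rfl
    | succ n ih =>
      have := hcons (n : ℤ)
      push_cast
      exact comm_trans (hg3' (n : ℤ)) ih this
  have hN : f (h * g 0 * h⁻¹) * f (g N) = f (g N) * f (h * g 0 * h⁻¹) := by
    apply hcomm (N : ℤ) _ _ _ (hg1 _)
    have e : v (N : ℤ) = h • v 0 := by rw [hv, zero_add]
    rw [e, mul_smul, mul_smul, inv_smul_smul, hg1]
  have h0 : f (h * g 0 * h⁻¹) * f (g 0) = f (g 0) * f (h * g 0 * h⁻¹) :=
    comm_trans (hg3' (N : ℤ)) hN (hall N).symm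
  obtain ⟨n, hn, hn1⟩ := htor 0 _ (hg1 0)
  have hlt := torsion_tr (hg3' 0) hn hn1
  have e : f (h * g 0 * h⁻¹) = f h * f (g 0) * (f h)⁻¹ := by simp only [map_mul, map_inv]
  rw [e] at h0
  exact no_comm_hyp hlt hh h0

variable {p : ℕ} [hp : Fact p.Prime]

/-- discreteness at `p` of the image of `f` -/
def Disc (p : ℕ) {G : Type*} [Group G] (f : G →* SQ) : Prop :=
  ∃ ε : ℚ, 0 < ε ∧ ∀ g : G,
    (∀ i j, padicNorm p ((f g).val i j - (1 : SQ).val i j) ≤ ε) → f g = 1

lemma norm_cast' (x : ℚ) : ‖(x : ℚ_[p])‖ = ((padicNorm p x : ℚ) : ℝ) := Padic.eq_padicNorm x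

/-- bounded powers give torsion -/
lemma tors_of_bdd {G : Type*} [Group G] (f : G →* SQ) (hd : Disc p f) (g : G) (C : ℝ)
    (hC : ∀ (n : ℕ) (i j : Fin 2), ‖(((f g ^ n).val i j : ℚ) : ℚ_[p])‖ ≤ C) :
    ∃ n : ℕ, 0 < n ∧ (f g) ^ n = 1 := by
  obtain ⟨ε, hε, hd⟩ := hd
  have hC0 : 0 ≤ C := (norm_nonneg _).trans (hC 0 0 0)
  let x : ℕ → (Fin 2 → Fin 2 → ℚ_[p]) := fun n i j => (((f g ^ n).val i j : ℚ) : ℚ_[p])
  have hx : ∀ n, x n ∈ Metric.closedBall (0 : Fin 2 → Fin 2 → ℚ_[p]) C := by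
    intro n
    rw [mem_closedBall_zero_iff, pi_norm_le_iff_of_nonneg hC0]
    intro i
    rw [pi_norm_le_iff_of_nonneg hC0]
    intro j
    exact hC n i j
  obtain ⟨a, -, φ, hφ, hlim⟩ := tendsto_subseq_of_bounded Metric.isBounded_closedBall hx
  have hcau := hlim.cauchySeq
  have hδ : (0 : ℝ) < ε / (2 * (C + 1)) := by
    have : (0 : ℝ) < ε := by exact_mod_cast hε
    positivity
  obtain ⟨M, hM⟩ := Metric.cauchySeq_iff.mp hcau _ hδ
  have hlt : φ M < φ (M + 1) := hφ (by omega)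
  have hclose := hM (M + 1) (by omega) M le_rfl
  rw [dist_eq_norm] at hclose
  have hent : ∀ i j, ‖(((f g ^ φ (M + 1)).val i j - (f g ^ φ M).val i j : ℚ) : ℚ_[p])‖ ≤
      ε / (2 * (C + 1)) := by
    intro i j
    have h1 := norm_le_pi_norm ((x ∘ φ) (M + 1) - (x ∘ φ) M) i
    have h2 := norm_le_pi_norm (((x ∘ φ) (M + 1) - (x ∘ φ) M) i) j
    have h3 : ((x ∘ φ) (M + 1) - (x ∘ φ) M) i j =
        (((f g ^ φ (M + 1)).val i j - (f g ^ φ M).val i j : ℚ) : ℚ_[p]) := by
      push_cast; rfl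
    rw [h3] at h2
    exact (h2.trans h1).trans hclose.le
  set m := φ M
  obtain ⟨n, hn⟩ : ∃ n, φ (M + 1) = m + n := ⟨φ (M + 1) - m, by omega⟩
  have hn0 : 0 < n := by omega
  rw [hn] at hent
  refine ⟨n, hn0, ?_⟩
  rw [← map_pow]
  apply hd (g ^ n)
  intro i j
  rw [map_pow]
  -- `f g ^ n - 1 = (f g ^ m)⁻¹ (f g ^ (m + n) - f g ^ m)`
  set A := f g ^ m with hA
  set B := f g ^ (m + n) with hB
  have hAB : f g ^ n = A⁻¹ * B := by rw [hA, hB, pow_add]; group
  have h1 : (1 : SQ) = A⁻¹ * A := by group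
  have hentry : ∀ i j, (f g ^ n).val i j - (1 : SQ).val i j =
      (A⁻¹).val i 0 * (B.val 0 j - A.val 0 j) + (A⁻¹).val i 1 * (B.val 1 j - A.val 1 j) := by
    intro i j
    rw [hAB, h1, mul_q, mul_q]
    ring
  have hAinv : ∀ i j, ‖(((A⁻¹).val i j : ℚ) : ℚ_[p])‖ ≤ C := by
    intro i j
    rw [inv_q]
    fin_cases i <;> fin_cases j <;> simp
    · have := hC m 1 1; rwa [norm_cast'] at this
    · have := hC m 0 1; rwa [norm_cast'] at this
    · have := hC m 1 0; rwa [norm_cast'] at this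
    · have := hC m 0 0; rwa [norm_cast'] at this
  have hfin : ‖(((f g ^ n).val i j - (1 : SQ).val i j : ℚ) : ℚ_[p])‖ ≤ ε := by
    rw [hentry]
    push_cast
    have hεr : (0 : ℝ) < ε := by exact_mod_cast hε
    have hterm : ∀ k, ‖(((A⁻¹).val i k : ℚ) : ℚ_[p]) *
        (((B.val k j : ℚ) : ℚ_[p]) - ((A.val k j : ℚ) : ℚ_[p]))‖ ≤ ε := by
      intro k
      have h2 := hent k j
      push_cast at h2
      rw [norm_mul]
      calc ‖(((A⁻¹).val i k : ℚ) : ℚ_[p])‖ *
            ‖((B.val k j : ℚ) : ℚ_[p]) - ((A.val k j : ℚ) : ℚ_[p])‖ ≤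
          C * (ε / (2 * (C + 1))) := mul_le_mul (hAinv i k) h2 (norm_nonneg _) hC0
        _ ≤ ε := by
          rw [mul_div_assoc', div_le_iff₀ (by positivity)]
          nlinarith
    exact norm_add_le' (hterm 0) (hterm 1)
  rw [norm_cast'] at hfin
  exact_mod_cast hfin

/-- the image of `f` is not discrete at `p` if traces of representations are bounded -/
theorem not_disc {G : Type*} [Group G] (f : G →* SQ)
    (hC : ∀ x : G, ∃ C : ℝ, ∀ ρ : G →* GL (Fin 2) ℂ, ‖(ρ x).val.trace‖ ≤ C)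
    (h : G) (ht : 1 < padicNorm p (f h).val.trace) (hh : 4 < (f h).val.trace ^ 2) :
    ¬ Disc p f := by
  intro hd
  obtain ⟨τ, hτ⟩ := exists_transcendental
  obtain ⟨C, hC⟩ := hC h
  have htn : 1 < ‖(toP p (f h)).val.trace‖ := by
    have : (toP p (f h)).val.trace = (((f h).val.trace : ℚ) : ℚ_[p]) := by
      rw [Matrix.trace_fin_two, Matrix.trace_fin_two, toP_apply, toP_apply]
      push_cast; rfl
    rw [this, norm_cast']
    exact_mod_cast ht
  obtain ⟨P, P', hPP, hPP', μ, ν, hν0, hμn, e00, e01, e10, e11⟩ := exists_diag _ htn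
  let ψ : G →* SK p := ((cj P P' hPP hPP').comp (toP p)).comp f
  let _ : MulAction G (Vtx p) := MulAction.compHom (Vtx p) ψ
  have hsm : ∀ (g : G) (v : Vtx p), g • v = ψ g • v := fun g v => rfl
  let v : ℤ → Vtx p := fun j => mk j 0
  have hax : ∀ j, h • v j = v (j + ((2 * ν : ℕ) : ℤ)) := by
    intro j
    rw [hsm]
    have := diag_smul (g := ψ h) hμn e00 e01 e10 e11 j
    rw [this]
    show mk _ _ = mk _ _
    push_cast
    rfl
  have htor : ∀ (j : ℤ) (g : G), g • v j = v j → ∃ n : ℕ, 0 < n ∧ (f g) ^ n = 1 := by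
    intro j g hg
    -- bounds for conjugation
    obtain ⟨D, hD0, hD⟩ : ∃ D : ℝ, 0 ≤ D ∧ ∀ i k, ‖P i k‖ ≤ D ∧ ‖P' i k‖ ≤ D := by
      refine ⟨∑ i, ∑ k, (‖P i k‖ + ‖P' i k‖), by positivity, fun i k => ?_⟩
      have h1 : ‖P i k‖ + ‖P' i k‖ ≤ ∑ i, ∑ k, (‖P i k‖ + ‖P' i k‖) := by
        calc ‖P i k‖ + ‖P' i k‖ ≤ ∑ k, (‖P i k‖ + ‖P' i k‖) :=
              Finset.single_le_sum (f := fun k => ‖P i k‖ + ‖P' i k‖)
                (fun k _ => by positivity) (Finset.mem_univ k)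
          _ ≤ _ := Finset.single_le_sum (f := fun i => ∑ k, (‖P i k‖ + ‖P' i k‖))
                (fun i _ => by positivity) (Finset.mem_univ i)
      have h2 := norm_nonneg (P i k)
      have h3 := norm_nonneg (P' i k)
      constructor <;> linarith
    apply tors_of_bdd f hd g (D * (p : ℝ) ^ |j| * D)
    intro n i k
    have hfix : ∀ n : ℕ, (ψ g) ^ n • v j = v j := by
      intro n
      induction n with
      | zero => rw [pow_zero, one_smul]
      | succ n ih => rw [pow_succ, mul_smul, ← hsm, hg, ih]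
    have hb := fix_bound (hfix n)
    have hback := cj_back P P' hPP hPP' (toP p (f g ^ n))
    have hψ : cj P P' hPP hPP' (toP p (f g ^ n)) = ψ g ^ n := by
      rw [map_pow, map_pow]; rfl
    rw [hψ] at hback
    have hval : (((f g ^ n).val i k : ℚ) : ℚ_[p]) = (P * (ψ g ^ n).val * P') i k := by
      rw [← hback, toP_apply]
    rw [hval, mul_apply', mul_apply', mul_apply']
    have hPψ : ∀ a b, ‖P i a * (ψ g ^ n).val a b‖ ≤ D * (p : ℝ) ^ |j| := by
      intro a b
      rw [norm_mul]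
      exact mul_le_mul (hD i a).1 (hb a b) (norm_nonneg _) hD0
    have hX : ∀ b, ‖P i 0 * (ψ g ^ n).val 0 b + P i 1 * (ψ g ^ n).val 1 b‖ ≤
        D * (p : ℝ) ^ |j| := fun b => norm_add_le' (hPψ 0 b) (hPψ 1 b)
    have hp0 := p_pos (p := p)
    have hY : ∀ b, ‖(P i 0 * (ψ g ^ n).val 0 b + P i 1 * (ψ g ^ n).val 1 b) * P' b k‖ ≤
        D * (p : ℝ) ^ |j| * D := by
      intro b
      rw [norm_mul]
      exact mul_le_mul (hX b) (hD b k).2 (norm_nonneg _) (by positivity)
    exact norm_add_le' (hY 0) (hY 1)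
  obtain ⟨j, hj⟩ := exists_edge f v htor h (2 * ν) hax hh
  have hpar : par (v j) = v (j + 1) := rfl
  have hcen : ∀ g : G, Cen (f g) → ∀ w : Vtx p, g • w = w := by
    intro g hg w
    obtain ⟨h1, h2, h3⟩ := hg
    have hdq := det_q (f g)
    rw [h1, h3] at hdq
    have hc0 : (f g).val 1 1 ≠ 0 := by
      intro h0; rw [h0] at hdq; simp at hdq
    rw [hsm]
    have hval : (toP p (f g)).val = ((((f g).val 1 1 : ℚ)) : ℚ_[p]) • (1 : MK p) := by
      ext i k
      rw [toP_apply, Matrix.smul_apply]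
      fin_cases i <;> fin_cases k <;> simp [h1, h2, h3]
    refine central_smul (c := ((((f g).val 1 1 : ℚ)) : ℚ_[p])) (by exact_mod_cast hc0) ?_ w
    show P' * (toP p (f g)).val * P = _
    rw [hval, Matrix.mul_smul, Matrix.mul_one, Matrix.smul_mul, hPP']
  refine no_bend par (v j) f hτ hcen ?_ ?_ hanc hloop ?_ (m := 2 * ν) (by omega) (h := h) ?_ ?_ C hC
  · intro k h1 h2
    rw [hpar] at h2
    exact hj k h1 h2
  · rintro ⟨k, h1, -⟩
    rw [hsm] at h1
    exact not_par (ψ k) (v j) h1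
  · intro γ w
    exact hadj (ψ γ) w
  · rw [hax]
    show mk _ _ = _
    rw [par_iter]
  · rw [hpar, hax]
    show mk _ _ = _
    rw [par_iter]
    congr 1
    push_cast
    ring

end Pool.Agent.Lib.MP_c356f3_al.Den
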