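import Mathlib

/-!
The field `ℚ_p` embeds in `ℂ`.
-/

namespace Pool.Agent.Lib.MP_c356f3_al.Den

open Cardinal

lemma mk_padic_le (p : ℕ) [Fact p.Prime] : #ℚ_[p] ≤ 𝔠 := by
  have hpos : ∀ n : ℕ, (0 : ℝ) < 1 / ((n : ℝ) + 1) := fun n => by positivity
  choose f hf using fun (x : ℚ_[p]) (n : ℕ) => Padic.rat_dense p x (hpos n)
  have hinj : Function.Injective f := by
    intro x y hxy
    have h0 : ‖x - y‖ ≤ 0 := by
      refine ge_of_tendsto (tendsto_one_div_add_atTop_nhds_zero_nat (𝕜 := ℝ))
        (Filter.Eventually.of_forall fun n => ?_)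
      have e : x - y = (x - f x n) + (f x n - y) := by ring
      rw [e]
      refine (Padic.nonarchimedean _ _).trans (max_le (hf x n).le ?_)
      rw [hxy, norm_sub_rev]
      exact (hf y n).le
    exact sub_eq_zero.mp (norm_le_zero_iff.mp h0)
  calc #ℚ_[p] ≤ #(ℕ → ℚ) := Cardinal.mk_le_of_injective hinj
    _ = 𝔠 := by simp

/-- a field of characteristic zero of cardinality at most the continuum embeds in `ℂ` -/
lemma exists_emb_of_le (K : Type) [Field K] [CharZero K] (hK : #K ≤ 𝔠) : Nonempty (K →+* ℂ) := by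
  let R := MvPolynomial ℝ K
  let F := FractionRing R
  let L := AlgebraicClosure F
  have hR : #R = 𝔠 := by
    rw [MvPolynomial.cardinalMk_eq_max, mk_real, max_eq_right hK, max_eq_left aleph0_le_continuum]
  have hF : #F = 𝔠 := by rw [Cardinal.mk_fractionRing, hR]
  have hL : #L = 𝔠 := by
    apply le_antisymm
    · have h1 := Algebra.IsAlgebraic.cardinalMk_le_max F L
      rwa [hF, max_eq_left aleph0_le_continuum] at h1
    · rw [← hF]
      exact Cardinal.mk_le_of_injective (FaithfulSMul.algebraMap_injective F L)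
  have hc : CharZero L := charZero_of_injective_algebraMap (R := K) (A := L)
    (FaithfulSMul.algebraMap_injective K L)
  obtain ⟨e⟩ := IsAlgClosed.ringEquiv_of_equiv_of_charZero (K := L) (L := ℂ)
    (by rw [hL]; exact aleph0_lt_continuum) (by
      rw [← Cardinal.eq, hL, mk_complex])
  exact ⟨(e : L →+* ℂ).comp (algebraMap K L)⟩

lemma exists_emb (p : ℕ) [Fact p.Prime] : Nonempty (ℚ_[p] →+* ℂ) :=
  exists_emb_of_le ℚ_[p] (mk_padic_le p)

end Pool.Agent.Lib.MP_c356f3_al.Den
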