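import Pool.Agent.Lib.MP_c356f3_al.DenDense
import Pool.Agent.Lib.MP_c356f3_al.DenEmb
import Pool.Agent.Lib.MP_c356f3_al.Final

/-!
Density at `p` of the images of the homomorphisms to `SL(2,ℚ_p)`.
-/

namespace Pool.Agent.Lib.MP_c356f3_al.Den

open Matrix SurjAux Topology Filter

universe u

variable {G : Type u} [Group G]

/-- an irreducible group moves every line -/
lemma moves_cx {ρ : G →* GL (Fin 2) ℂ} (hρ : Irr ρ) {w : Fin 2 → ℂ} (hw : w ≠ 0) :
    ∃ g : G, w 0 * ((ρ g).val *ᵥ w) 1 - w 1 * ((ρ g).val *ᵥ w) 0 ≠ 0 := by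
  by_contra hcon
  push Not at hcon
  have hinv : ∀ g : G, ∃ t : ℂ, (ρ g).val *ᵥ w = t • w := by
    intro g
    have h := hcon g
    by_cases h0 : w 0 = 0
    · have h1 : w 1 ≠ 0 := by
        intro h1; apply hw; ext i; fin_cases i
        · exact h0
        · exact h1
      refine ⟨((ρ g).val *ᵥ w) 1 / w 1, ?_⟩
      ext i
      fin_cases i
      · show ((ρ g).val *ᵥ w) 0 = _ * w 0
        rw [h0, mul_zero]
        rw [h0, zero_mul, zero_sub, neg_eq_zero] at h
        exact (mul_eq_zero.mp h).resolve_left h1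
      · show ((ρ g).val *ᵥ w) 1 = _ * w 1
        field_simp
    · refine ⟨((ρ g).val *ᵥ w) 0 / w 0, ?_⟩
      ext i
      fin_cases i
      · show ((ρ g).val *ᵥ w) 0 = _ * w 0
        field_simp
      · show ((ρ g).val *ᵥ w) 1 = _ * w 1
        field_simp
        linear_combination h
  have hle : ∀ x ∈ Submodule.span ℂ {w}, w 0 * x 1 - w 1 * x 0 = 0 := by
    intro x hx
    obtain ⟨k, rfl⟩ := Submodule.mem_span_singleton.mp hx
    simp
    ring
  rcases hρ.2 (Submodule.span ℂ {w}) (fun g v hv => by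
      obtain ⟨k, rfl⟩ := Submodule.mem_span_singleton.mp hv
      obtain ⟨t, ht⟩ := hinv g
      rw [Matrix.mulVec_smul, ht, smul_smul]
      exact Submodule.smul_mem _ _ (Submodule.mem_span_singleton_self w)) with h | h
  · have h4 : w ∈ (Submodule.span ℂ {w}) := Submodule.mem_span_singleton_self w
    rw [h, Submodule.mem_bot] at h4
    exact hw h4
  · have h4 := hle ![1, 0] (by rw [h]; trivial)
    have h5 := hle ![0, 1] (by rw [h]; trivial)
    simp at h4 h5
    apply hw
    ext i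
    fin_cases i
    · exact h5
    · exact h4

variable {p : ℕ} [hp : Fact p.Prime]

/-- `SL(2,ℚ_p) → GL(2,ℂ)` from an embedding of fields -/
noncomputable def cp (ι : ℚ_[p] →+* ℂ) : SK p →* GL (Fin 2) ℂ :=
  (SpecialLinearGroup.toGL).comp (SpecialLinearGroup.map ι)

lemma cp_val (ι : ℚ_[p] →+* ℂ) (g : SK p) (i j : Fin 2) : (cp ι g).val i j = ι (g.val i j) := rfl

lemma cp_toP (ι : ℚ_[p] →+* ℂ) (g : SQ) : cp ι (toP p g) = cx g := by
  apply Units.ext
  ext i j
  rw [cp_val, toP_apply, cx_val, Matrix.map_apply, map_ratCast]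
  rfl

/-- irreducibility over `ℚ_p` -/
lemma moves_p {F : G →* SK p} (ι : ℚ_[p] →+* ℂ) (hF : Irr ((cp ι).comp F))
    {v : Fin 2 → ℚ_[p]} (hv : v ≠ 0) :
    ∃ g : G, v 0 * ((F g).val *ᵥ v) 1 - v 1 * ((F g).val *ᵥ v) 0 ≠ 0 := by
  have hw : (fun i => ι (v i)) ≠ 0 := by
    intro h
    apply hv
    ext i
    have := congrFun h i
    exact (map_eq_zero ι).mp this
  obtain ⟨g, hg⟩ := moves_cx hF hw
  refine ⟨g, fun h => hg ?_⟩
  have e : ∀ i, (((cp ι).comp F) g).val.mulVec (fun i => ι (v i)) i =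
      ι (((F g).val *ᵥ v) i) := by
    intro i
    rw [MonoidHom.comp_apply, Matrix.mulVec, dotProduct, Fin.sum_univ_two, cp_val, cp_val,
      Matrix.mulVec, dotProduct, Fin.sum_univ_two]
    push_cast [map_add, map_mul]
    rfl
  rw [e, e, ← map_mul, ← map_mul, ← map_sub, h, map_zero]

lemma orth {K : Type*} [Field K] {x0 x1 v0 v1 w0 w1 : K} (hx : x0 ≠ 0 ∨ x1 ≠ 0)
    (h1 : x0 * v0 + x1 * v1 = 0) (h2 : x0 * w0 + x1 * w1 = 0) : v0 * w1 - v1 * w0 = 0 := by
  have e0 : x0 * (v0 * w1 - v1 * w0) = 0 := by linear_combination w1 * h1 - v1 * h2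
  have e1 : x1 * (v0 * w1 - v1 * w0) = 0 := by linear_combination v0 * h2 - w0 * h1
  rcases hx with h | h
  · exact (mul_eq_zero.mp e0).resolve_left h
  · exact (mul_eq_zero.mp e1).resolve_left h

lemma cj_entry (P P' : MK p) (h : P * P' = 1) (h' : P' * P = 1) (g : SK p) (i j : Fin 2) :
    (cj P P' h h' g).val i j = P' i 0 * (g.val *ᵥ (fun k => P k j)) 0 +
      P' i 1 * (g.val *ᵥ (fun k => P k j)) 1 := by
  rw [cj_val, Matrix.mul_assoc, mul_apply', mulVec2, mulVec2, mul_apply', mul_apply']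

/-- after conjugation no off-diagonal entry vanishes identically -/
lemma off_diag {F : G →* SK p} (ι : ℚ_[p] →+* ℂ) (hF : Irr ((cp ι).comp F))
    (P P' : MK p) (h : P * P' = 1) (h' : P' * P = 1) {i j : Fin 2} (hij : i ≠ j) :
    ∃ g : G, (cj P P' h h' (F g)).val i j ≠ 0 := by
  have hv : (fun k => P k j) ≠ 0 := by
    intro h0
    have h1 := congrFun (congrFun h' j) j
    rw [mul_apply', Matrix.one_apply_eq] at h1
    have e0 := congrFun h0 0
    have e1 := congrFun h0 1
    simp only [Pi.zero_apply] at e0 e1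
    rw [e0, e1, mul_zero, mul_zero, add_zero] at h1
    exact zero_ne_one h1
  have hx : P' i 0 ≠ 0 ∨ P' i 1 ≠ 0 := by
    by_contra hcon
    push Not at hcon
    have h1 := congrFun (congrFun h' i) i
    rw [mul_apply', Matrix.one_apply_eq, hcon.1, hcon.2, zero_mul, zero_mul, add_zero] at h1
    exact zero_ne_one h1
  have horth : P' i 0 * P 0 j + P' i 1 * P 1 j = 0 := by
    have h1 := congrFun (congrFun h' i) j
    rwa [mul_apply', Matrix.one_apply_ne hij] at h1
  obtain ⟨g, hg⟩ := moves_p ι hF hv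
  refine ⟨g, fun h0 => hg ?_⟩
  rw [cj_entry] at h0
  exact orth hx horth h0

/-- conjugates of small elements are small -/
lemma small_conj (A B : MK p) (hAB : A * B = 1) : ∃ C : ℝ, 0 < C ∧ ∀ (M : MK p) (ε : ℝ), 0 ≤ ε →
    (∀ i j, ‖M i j - (1 : MK p) i j‖ ≤ ε) → ∀ i j, ‖(A * M * B) i j - (1 : MK p) i j‖ ≤ C * ε := by
  obtain ⟨D, hD0, hD⟩ : ∃ D : ℝ, 0 < D ∧ ∀ i k, ‖A i k‖ ≤ D ∧ ‖B i k‖ ≤ D := by
    refine ⟨∑ i, ∑ k, (‖A i k‖ + ‖B i k‖) + 1, by positivity, fun i k => ?_⟩
    have h1 : ‖A i k‖ + ‖B i k‖ ≤ ∑ i, ∑ k, (‖A i k‖ + ‖B i k‖) := by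
      calc ‖A i k‖ + ‖B i k‖ ≤ ∑ k, (‖A i k‖ + ‖B i k‖) :=
            Finset.single_le_sum (f := fun k => ‖A i k‖ + ‖B i k‖)
              (fun k _ => by positivity) (Finset.mem_univ k)
        _ ≤ _ := Finset.single_le_sum (f := fun i => ∑ k, (‖A i k‖ + ‖B i k‖))
              (fun i _ => by positivity) (Finset.mem_univ i)
    have h2 := norm_nonneg (A i k)
    have h3 := norm_nonneg (B i k)
    constructor <;> linarith
  refine ⟨D * D, by positivity, fun M ε hε hM i j => ?_⟩
  have e : (A * M * B) i j - (1 : MK p) i j =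
      (A i 0 * (M 0 0 - (1 : MK p) 0 0) + A i 1 * (M 1 0 - (1 : MK p) 1 0)) * B 0 j +
      (A i 0 * (M 0 1 - (1 : MK p) 0 1) + A i 1 * (M 1 1 - (1 : MK p) 1 1)) * B 1 j := by
    have h1 := congrFun (congrFun hAB i) j
    rw [mul_apply'] at h1
    rw [← h1, mul_apply', mul_apply', mul_apply', Matrix.one_apply_eq, Matrix.one_apply_eq,
      Matrix.one_apply_ne (show (1 : Fin 2) ≠ 0 by decide),
      Matrix.one_apply_ne (show (0 : Fin 2) ≠ 1 by decide)]
    ring
  rw [e]
  have hb : ∀ a b, ‖A i a * (M a b - (1 : MK p) a b)‖ ≤ D * ε := by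
    intro a b
    rw [norm_mul]
    exact mul_le_mul (hD i a).1 (hM a b) (norm_nonneg _) hD0.le
  have hY : ∀ b, ‖(A i 0 * (M 0 b - (1 : MK p) 0 b) + A i 1 * (M 1 b - (1 : MK p) 1 b)) * B b j‖ ≤
      D * D * ε := by
    intro b
    rw [norm_mul]
    calc _ ≤ (D * ε) * D := mul_le_mul (norm_add_le' (hb 0 b) (hb 1 b)) (hD b j).2
          (norm_nonneg _) (by positivity)
      _ = D * D * ε := by ring
  exact norm_add_le' (hY 0) (hY 1)

lemma continuous_cj (P P' : MK p) (h : P * P' = 1) (h' : P' * P = 1) :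
    Continuous (cj P P' h h') := by
  refine (Matrix.SpecialLinearGroup.isClosedEmbedding_val (n := Fin 2)
    (R := ℚ_[p])).isEmbedding.isInducing.continuous_iff.mpr ?_
  exact (continuous_const.matrix_mul continuous_subtype_val).matrix_mul continuous_const

lemma cj_cj (P P' : MK p) (h : P * P' = 1) (h' : P' * P = 1) (g : SK p) :
    cj P' P h' h (cj P P' h h' g) = g := by
  apply Subtype.ext
  rw [cj_val]
  exact (cj_back P P' h h' g).symm

/-- density is invariant under conjugation -/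
lemma dense_cj {α : Type*} {F : α → SK p} (P P' : MK p) (h : P * P' = 1) (h' : P' * P = 1)
    (hd : DenseRange fun g => cj P P' h h' (F g)) : DenseRange F := by
  have hs : Function.Surjective (cj P' P h' h) := fun g =>
    ⟨cj P P' h h' g, cj_cj P P' h h' g⟩
  have h1 := hs.denseRange.comp hd (continuous_cj P' P h' h)
  have h2 : (cj P' P h' h) ∘ (fun g => cj P P' h h' (F g)) = F := by
    ext1 g
    exact cj_cj P P' h h' (F g)
  rwa [h2] at h1

/-- an element moved into general position: some element of the conjugated group has nonzero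
first row entries -/
lemma exists_k (hN : NoChar G) {ψ : G →* SK p} (hb : ∃ g, (ψ g).val 0 1 ≠ 0) :
    ∃ g : G, (ψ g).val 0 0 ≠ 0 ∧ (ψ g).val 0 1 ≠ 0 := by
  by_contra hcon
  push Not at hcon
  obtain ⟨b, hb⟩ := hb
  have hanti : ∀ g : G, (ψ g).val 0 1 ≠ 0 → (ψ g).val 0 0 = 0 ∧ (ψ g).val 1 1 = 0 := by
    intro g hg
    have h0 : (ψ g).val 0 0 = 0 := by
      by_contra h
      exact hg (hcon g h)
    refine ⟨h0, ?_⟩
    have hdet := det_k (ψ g)
    rw [h0, zero_mul, zero_sub] at hdet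
    have h1 : (ψ (g * g)).val 0 0 ≠ 0 := by
      rw [map_mul, mul_k, h0, mul_zero, zero_add]
      intro h2
      rw [h2, neg_zero] at hdet
      exact zero_ne_one hdet
    have h2 := hcon _ h1
    rw [map_mul, mul_k, h0, zero_mul, zero_add] at h2
    exact (mul_eq_zero.mp h2).resolve_left hg
  have hdiag : ∀ g : G, (ψ g).val 0 1 = 0 → (ψ g).val 1 0 = 0 := by
    intro g hg
    have hdet := det_k (ψ g)
    rw [hg, zero_mul, sub_zero] at hdet
    have ha : (ψ g).val 0 0 ≠ 0 := by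
      intro h; rw [h, zero_mul] at hdet; exact zero_ne_one hdet
    have h1 : (ψ (g * b)).val 0 1 ≠ 0 := by
      rw [map_mul, mul_k, hg, zero_mul, add_zero]
      exact mul_ne_zero ha hb
    have h2 := (hanti _ h1).2
    rw [map_mul, mul_k, (hanti b hb).2, mul_zero, add_zero] at h2
    exact (mul_eq_zero.mp h2).resolve_right hb
  classical
  let χ : G →* ℂˣ :=
    { toFun := fun g => if (ψ g).val 0 1 = 0 then 1 else -1
      map_one' := by
        have : (ψ 1).val 0 1 = 0 := by rw [map_one]; rfl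
        rw [if_pos this]
      map_mul' := by
        intro x y
        by_cases hx : (ψ x).val 0 1 = 0
        · by_cases hy : (ψ y).val 0 1 = 0
          · have : (ψ (x * y)).val 0 1 = 0 := by
              rw [map_mul, mul_k, hx, hy, mul_zero, zero_mul, add_zero]
            rw [if_pos this, if_pos hx, if_pos hy, mul_one]
          · have hdet := det_k (ψ x)
            rw [hx, zero_mul, sub_zero] at hdet
            have ha : (ψ x).val 0 0 ≠ 0 := by
              intro h; rw [h, zero_mul] at hdet; exact zero_ne_one hdet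
            have : (ψ (x * y)).val 0 1 ≠ 0 := by
              rw [map_mul, mul_k, hx, zero_mul, add_zero]
              exact mul_ne_zero ha hy
            rw [if_neg this, if_pos hx, if_neg hy, one_mul]
        · by_cases hy : (ψ y).val 0 1 = 0
          · have hdet := det_k (ψ y)
            rw [hy, zero_mul, sub_zero] at hdet
            have hd : (ψ y).val 1 1 ≠ 0 := by
              intro h; rw [h, mul_zero] at hdet; exact zero_ne_one hdet
            have : (ψ (x * y)).val 0 1 ≠ 0 := by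
              rw [map_mul, mul_k, hy, mul_zero, zero_add]
              exact mul_ne_zero hx hd
            rw [if_neg this, if_neg hx, if_pos hy, mul_one]
          · have : (ψ (x * y)).val 0 1 = 0 := by
              rw [map_mul, mul_k, (hanti x hx).1, (hanti y hy).2, zero_mul, mul_zero, add_zero]
            rw [if_pos this, if_neg hx, if_neg hy]
            simp }
  have h1 : χ b = 1 := by rw [hN χ]; rfl
  have h2 : χ b = -1 := if_neg hb
  rw [h2] at h1
  have h3 : ((-1 : ℂˣ) : ℂ) = ((1 : ℂˣ) : ℂ) := by rw [h1]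
  norm_num at h3

/-- the homomorphism to `SL(2,ℚ)` has dense image in `SL(2,ℚ_p)` -/
theorem dense_f (hS : StSchur.{u}) (hN : NoChar G) (f : G →* SQ) (hf : Irr (cx.comp f))
    (hC : ∀ x : G, ∃ C : ℝ, ∀ ρ : G →* GL (Fin 2) ℂ, ‖(ρ x).val.trace‖ ≤ C)
    (htr : ∃ g, 1 < padicNorm p (f g).val.trace) : DenseRange fun g => toP p (f g) := by
  obtain ⟨ι⟩ := exists_emb p
  have hF : Irr ((cp ι).comp ((toP p).comp f)) := by
    have : (cp ι).comp ((toP p).comp f) = cx.comp f := by
      ext1 g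
      exact cp_toP ι (f g)
    rw [this]
    exact hf
  -- an element hyperbolic at `p` and at infinity
  obtain ⟨g₀, hg₀⟩ := htr
  obtain ⟨g₁, hg₁⟩ : ∃ g₁ : G, f g₀ * f g₁ ≠ f g₁ * f g₀ := by
    by_contra hcon
    push Not at hcon
    obtain ⟨c, hc⟩ := hS G 2 (cx.comp f) hf (cx (f g₀)).val (fun g => by
      rw [← Units.val_mul, MonoidHom.comp_apply, ← map_mul, hcon g, map_mul, Units.val_mul])
    have h00 := congrFun (congrFun hc 0) 0
    have h11 := congrFun (congrFun hc 1) 1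
    have h01 := congrFun (congrFun hc 0) 1
    rw [cx_val, Matrix.map_apply] at h00 h11 h01
    simp at h00 h11 h01
    have e : (f g₀).val 0 0 = (f g₀).val 1 1 := by
      have : (((f g₀).val 0 0 : ℚ) : ℂ) = (((f g₀).val 1 1 : ℚ) : ℂ) := h00.trans h11.symm
      exact_mod_cast this
    have hdet := det_q (f g₀)
    rw [h01, e, zero_mul, sub_zero] at hdet
    have h2 : (f g₀).val 1 1 = 1 ∨ (f g₀).val 1 1 = -1 := by
      have : ((f g₀).val 1 1 - 1) * ((f g₀).val 1 1 + 1) = 0 := by linear_combination hdet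
      rcases mul_eq_zero.mp this with h | h
      · left; linarith
      · right; linarith
    rw [tr_eq, e] at hg₀
    have h3 : padicNorm p ((2 : ℤ) : ℚ) ≤ 1 := padicNorm.of_int 2
    rcases h2 with h | h
    · rw [h] at hg₀
      norm_num at hg₀ h3
      linarith
    · rw [h] at hg₀
      have : (-1 + -1 : ℚ) = -((2 : ℤ) : ℚ) := by norm_num
      rw [this, padicNorm.neg] at hg₀
      linarith
  obtain ⟨x, ⟨h, rfl⟩, ht, hh⟩ := exists_both (p := p) f.range ⟨g₀, rfl⟩ hg₀ ⟨g₁, rfl⟩ hg₁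
  have hnd := not_disc (p := p) f hC h ht hh
  have htn : 1 < ‖(toP p (f h)).val.trace‖ := by
    have : (toP p (f h)).val.trace = (((f h).val.trace : ℚ) : ℚ_[p]) := by
      rw [Matrix.trace_fin_two, Matrix.trace_fin_two, toP_apply, toP_apply]
      push_cast; rfl
    rw [this, norm_cast']
    exact_mod_cast ht
  obtain ⟨P, P', hPP, hPP', μ, ν, hν0, hμn, e00, e01, e10, e11⟩ := exists_diag _ htn
  let ψ : G →* SK p := ((cj P P' hPP hPP').comp (toP p)).comp f
  have hψ : ∀ g, ψ g = cj P P' hPP hPP' (toP p (f g)) := fun g => rfl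
  have hμ := one_lt_mu hν0 hμn
  have hμ0 : μ ≠ 0 := by rintro rfl; rw [norm_zero] at hμ; linarith
  obtain ⟨kc, hkc⟩ := off_diag (F := (toP p).comp f) ι hF P P' hPP hPP'
    (show (1 : Fin 2) ≠ 0 by decide)
  have hkb := off_diag (F := (toP p).comp f) ι hF P P' hPP hPP' (show (0 : Fin 2) ≠ 1 by decide)
  obtain ⟨k, hka, hkb⟩ := exists_k hN (ψ := ψ) hkb
  -- small elements
  have hsm : ∀ y : G, ∃ C : ℝ, 0 < C ∧ ∀ (g : G) (ε : ℝ), 0 ≤ ε →
      (∀ i j, ‖(toP p (f g)).val i j - (1 : MK p) i j‖ ≤ ε) →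
      ∀ i j, ‖(ψ (y * g * y⁻¹)).val i j - (1 : SK p).val i j‖ ≤ C * ε := by
    intro y
    obtain ⟨C, hC0, hCC⟩ := small_conj ((ψ y).val * P') (P * (ψ y⁻¹).val) (by
      rw [Matrix.mul_assoc, ← Matrix.mul_assoc P', hPP', Matrix.one_mul,
        ← Matrix.SpecialLinearGroup.coe_mul, ← map_mul, mul_inv_cancel, map_one]
      rfl)
    refine ⟨C, hC0, fun g ε hε hg i j => ?_⟩
    have h1 := hCC _ ε hε hg i j
    have h2 : (ψ (y * g * y⁻¹)).val =
        (ψ y).val * P' * (toP p (f g)).val * (P * (ψ y⁻¹).val) := by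
      rw [map_mul, map_mul, Matrix.SpecialLinearGroup.coe_mul, Matrix.SpecialLinearGroup.coe_mul,
        hψ g, cj_val]
      simp only [Matrix.mul_assoc]
    rw [h2]
    exact h1
  obtain ⟨C₁, hC₁, H₁⟩ := hsm 1
  obtain ⟨C₂, hC₂, H₂⟩ := hsm k
  obtain ⟨C₃, hC₃, H₃⟩ := hsm (k * h)
  have hs : ∀ δ : ℝ, 0 < δ → ∃ g : G, (∀ i j, ‖(ψ g).val i j - (1 : SK p).val i j‖ ≤ δ) ∧
      (ψ g).val 0 1 ≠ 0 := by
    intro δ hδ
    have h2 : (0 : ℝ) < ‖(2 : ℚ_[p])‖ := norm_pos_iff.mpr two_ne_zero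
    set S := C₁ + C₂ + C₃ with hS'
    have hS0 : 0 < S := by positivity
    obtain ⟨ε, hε0, hε⟩ : ∃ ε : ℚ, 0 < (ε : ℝ) ∧ (ε : ℝ) < min (δ / S) (‖(2 : ℚ_[p])‖ / S) := by
      have : (0 : ℝ) < min (δ / S) (‖(2 : ℚ_[p])‖ / S) := lt_min (by positivity) (by positivity)
      obtain ⟨ε, h1, h2⟩ := exists_rat_btwn this
      exact ⟨ε, h1, h2⟩
    have hε1 : (ε : ℝ) < δ / S := hε.trans_le (min_le_left _ _)
    have hε2 : (ε : ℝ) < ‖(2 : ℚ_[p])‖ / S := hε.trans_le (min_le_right _ _)
    rw [lt_div_iff₀ hS0] at hε1 hε2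
    have hnd' : ∃ g : G, (∀ i j, padicNorm p ((f g).val i j - (1 : SQ).val i j) ≤ ε) ∧
        f g ≠ 1 := by
      by_contra hcon
      push Not at hcon
      exact hnd ⟨ε, by exact_mod_cast hε0, hcon⟩
    obtain ⟨g, hg, hg1⟩ := hnd'
    have hgs : ∀ i j, ‖(toP p (f g)).val i j - (1 : MK p) i j‖ ≤ ε := by
      intro i j
      have h3 : (toP p (f g)).val i j - (1 : MK p) i j =
          (((f g).val i j - (1 : SQ).val i j : ℚ) : ℚ_[p]) := by
        rw [toP_apply]
        push_cast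
        congr 1
        fin_cases i <;> fin_cases j <;> simp
      rw [h3, norm_cast']
      exact_mod_cast hg i j
    have k1 := H₁ g ε hε0.le hgs
    have k2 := H₂ g ε hε0.le hgs
    have k3 := H₃ g ε hε0.le hgs
    have le1 : C₁ * ε ≤ δ := by nlinarith
    have le2 : C₂ * ε ≤ δ := by nlinarith
    have le3 : C₃ * ε ≤ δ := by nlinarith
    have lt1 : C₁ * ε < ‖(2 : ℚ_[p])‖ := by nlinarith
    rw [one_mul, inv_one, mul_one] at k1
    by_contra hcon
    push Not at hcon
    have b1 := hcon g (fun i j => (k1 i j).trans le1)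
    have b2 := hcon _ (fun i j => (k2 i j).trans le2)
    have b3 := hcon _ (fun i j => (k3 i j).trans le3)
    -- the element is lower triangular
    have hdet := det_k (ψ g)
    rw [b1, zero_mul, sub_zero] at hdet
    rw [map_mul, map_mul, map_inv, mul3_k, inv_k01, inv_k11, b1] at b2
    rw [map_mul, map_mul, map_inv, mul3_k, inv_k01, inv_k11, b1] at b3
    have hh00 : (ψ h).val 0 0 = μ := e00
    have hh01 : (ψ h).val 0 1 = 0 := e01
    have hh10 : (ψ h).val 1 0 = 0 := e10
    have hh11 : (ψ h).val 1 1 = μ⁻¹ := e11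
    have hk0 : (ψ (k * h)).val 0 0 = (ψ k).val 0 0 * μ := by
      rw [map_mul, mul_k, hh00, hh10]; ring
    have hk1 : (ψ (k * h)).val 0 1 = (ψ k).val 0 1 * μ⁻¹ := by
      rw [map_mul, mul_k, hh01, hh11]; ring
    rw [hk0, hk1] at b3
    set a := (ψ k).val 0 0
    set b := (ψ k).val 0 1
    set α := (ψ g).val 0 0
    set c := (ψ g).val 1 0
    set d := (ψ g).val 1 1
    have f2 : a * (d - α) - b * c = 0 := by
      apply mul_left_cancel₀ hkb
      linear_combination b2
    have f3 : a * (d - α) * μ ^ 2 - b * c = 0 := by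
      apply mul_left_cancel₀ hkb
      have : μ * μ⁻¹ = 1 := mul_inv_cancel₀ hμ0
      linear_combination μ ^ 2 * b3 + (a * b * μ ^ 2 * α - a * b * μ ^ 2 * d +
        b ^ 2 * c * (μ * μ⁻¹ + 1)) * this
    have hμ2 : μ ^ 2 - 1 ≠ 0 := by
      intro h0
      have h1 : μ ^ 2 = 1 := by linear_combination h0
      have h2 : ‖μ‖ ^ 2 = 1 := by rw [← norm_pow, h1, norm_one]
      nlinarith
    have f4 : d - α = 0 := by
      have : (a * (μ ^ 2 - 1)) * (d - α) = 0 := by linear_combination f3 - f2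
      exact (mul_eq_zero.mp this).resolve_left (mul_ne_zero hka hμ2)
    have f5 : c = 0 := by
      rw [f4, mul_zero, zero_sub, neg_eq_zero] at f2
      exact (mul_eq_zero.mp f2).resolve_left hkb
    have hd : d = α := by linear_combination f4
    rw [hd] at hdet
    have hα : α = 1 ∨ α = -1 := by
      have : (α - 1) * (α + 1) = 0 := by linear_combination hdet
      rcases mul_eq_zero.mp this with h | h
      · left; linear_combination h
      · right; linear_combination h
    rcases hα with hα | hα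
    · -- then `f g = 1`
      have h1 : ψ g = 1 := by
        apply sk_ext
        · exact hα
        · exact b1
        · exact f5
        · exact hd.trans hα
      have h2 : toP p (f g) = 1 := by
        have h3 := cj_cj P P' hPP hPP' (toP p (f g))
        rw [← hψ g, h1, map_one] at h3
        exact h3.symm
      apply hg1
      have hent : ∀ i j, (f g).val i j = (1 : SQ).val i j := by
        intro i j
        have h3 : (((f g).val i j : ℚ) : ℚ_[p]) = (((1 : SQ).val i j : ℚ) : ℚ_[p]) := by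
          rw [← toP_apply, ← toP_apply, h2, map_one]
        exact_mod_cast h3
      exact sq_ext (hent 0 0) (hent 0 1) (hent 1 0) (hent 1 1)
    · have h1 := k1 0 0
      have h3 : (ψ g).val 0 0 - (1 : SK p).val 0 0 = -2 := by
        show α - 1 = -2
        rw [hα]; norm_num
      rw [h3, norm_neg] at h1
      linarith
  -- the closure
  let H : Subgroup (SK p) := ψ.range.topologicalClosure
  have hcl : IsClosed (H : Set (SK p)) := Subgroup.isClosed_topologicalClosure _
  have hle : ∀ g, ψ g ∈ H := fun g => Subgroup.le_topologicalClosure _ ⟨g, rfl⟩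
  have htop : H = ⊤ := closed_top hcl (hle h) hμ e00 e01 e10 e11
    (fun δ hδ => by obtain ⟨g, h1, h2⟩ := hs δ hδ; exact ⟨ψ g, hle g, h1, h2⟩)
    ⟨ψ kc, hle kc, hkc⟩
  have hdense : DenseRange fun g => cj P P' hPP hPP' (toP p (f g)) := by
    intro x
    have h1 : x ∈ H := by rw [htop]; trivial
    have h2 : x ∈ closure ((ψ.range : Subgroup (SK p)) : Set (SK p)) := h1
    exact h2
  exact dense_cj P P' hPP hPP' hdense

lemma cp_inj (ι : ℚ_[p] →+* ℂ) : Function.Injective (cp ι) := by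
  intro g h hgh
  have e : ∀ i j, g.val i j = h.val i j := by
    intro i j
    apply ι.injective
    rw [← cp_val, ← cp_val, hgh]
  exact sk_ext (e 0 0) (e 0 1) (e 1 0) (e 1 1)

/-- every nontrivial homomorphism to `SL(2,ℚ_p)` is conjugate over `ℚ_p` to the rational one -/
lemma conj_f (hN : NoChar G) (f : G →* SQ) (hf : Irr (cx.comp f))
    (hE : ∀ ρ σ : G →* GL (Fin 2) ℂ, Irr ρ → Irr σ → Equ ρ σ) (F : G →* SK p) (hF : F ≠ 1) :
    ∃ X X' : MK p, X * X' = 1 ∧ X' * X = 1 ∧ ∀ g, (F g).val = X * (toP p (f g)).val * X' := by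
  obtain ⟨ι⟩ := exists_emb p
  have hρ : Irr ((cp ι).comp F) := by
    by_contra hcon
    apply hF
    ext1 g
    apply cp_inj ι
    have := irr_or_trivial hN _ hcon g
    rw [MonoidHom.comp_apply] at this
    rw [this, MonoidHom.one_apply, map_one]
  obtain ⟨P, hP⟩ := hE (cx.comp f) ((cp ι).comp F) hf hρ
  have hfp : (cp ι).comp ((toP p).comp f) = cx.comp f := by
    ext1 g
    exact cp_toP ι (f g)
  have hf' : Irr ((cp ι).comp ((toP p).comp f)) := by rw [hfp]; exact hf
  -- the intertwining relation, in coordinates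
  have hrel : ∀ g i j, ι ((F g).val i 0) * P.val 0 j + ι ((F g).val i 1) * P.val 1 j =
      ι ((toP p (f g)).val 0 j) * P.val i 0 + ι ((toP p (f g)).val 1 j) * P.val i 1 := by
    intro g i j
    have h1 : ((cp ι).comp F) g * P = P * (cp ι (toP p (f g))) := by
      rw [hP g, cp_toP, MonoidHom.comp_apply]; group
    have h2 := congrArg (fun z : GL (Fin 2) ℂ => z.val i j) h1
    simp only [Units.val_mul, Matrix.mul_apply, Fin.sum_univ_two, MonoidHom.comp_apply] at h2
    rw [cp_val, cp_val, cp_val, cp_val] at h2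
    linear_combination h2
  -- a nonzero entry
  obtain ⟨i₀, j₀, hij⟩ : ∃ i j, P.val i j ≠ 0 := by
    by_contra hcon
    push Not at hcon
    have h0 : P.val = 0 := by ext i j; exact hcon i j
    have h1 : P.val * P⁻¹.val = 1 := by rw [← Units.val_mul, mul_inv_cancel, Units.val_one]
    rw [h0, zero_mul] at h1
    have := congrFun (congrFun h1 0) 0
    simp at this
  let _ : Algebra ℚ_[p] ℂ := ι.toAlgebra
  obtain ⟨l, hl⟩ : ∃ l : Module.Dual ℚ_[p] ℂ, l (P.val i₀ j₀) ≠ 0 := by
    by_contra hcon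
    push Not at hcon
    exact hij ((Module.forall_dual_apply_eq_zero_iff ℚ_[p] _).mp hcon)
  have hlin : ∀ (a : ℚ_[p]) (z : ℂ), l (ι a * z) = a * l z := by
    intro a z
    have : ι a * z = a • z := by rw [Algebra.smul_def]; rfl
    rw [this, map_smul, smul_eq_mul]
  let X : MK p := fun i j => l (P.val i j)
  have hX : ∀ i j, X i j = l (P.val i j) := fun i j => rfl
  have hXrel : ∀ g, (F g).val * X = X * (toP p (f g)).val := by
    intro g
    ext i j
    rw [mul_apply', mul_apply', hX, hX, hX, hX, ← hlin, ← hlin, ← map_add, hrel, map_add, hlin,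
      hlin]
    ring
  have hdet : X.det ≠ 0 := by
    intro h0
    obtain ⟨v, hv, hXv⟩ := Matrix.exists_mulVec_eq_zero_iff.mpr h0
    obtain ⟨g, hg⟩ := moves_p ι hf' hv
    apply hg
    have h1 : X *ᵥ ((toP p (f g)).val *ᵥ v) = 0 := by
      rw [Matrix.mulVec_mulVec, ← hXrel g, ← Matrix.mulVec_mulVec, hXv, Matrix.mulVec_zero]
    have hx : X i₀ 0 ≠ 0 ∨ X i₀ 1 ≠ 0 := by
      have : X i₀ j₀ ≠ 0 := hl
      fin_cases j₀
      · left; exact this
      · right; exact this
    have h2 := congrFun hXv i₀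
    have h3 := congrFun h1 i₀
    rw [mulVec2] at h2
    rw [mulVec2 X] at h3
    exact orth hx h2 h3
  have hu : IsUnit X.det := isUnit_iff_ne_zero.mpr hdet
  refine ⟨X, X⁻¹, Matrix.mul_nonsing_inv X hu, Matrix.nonsing_inv_mul X hu, fun g => ?_⟩
  rw [← hXrel g, Matrix.mul_assoc, Matrix.mul_nonsing_inv X hu, Matrix.mul_one]

/-- density of all nontrivial homomorphisms -/
theorem dense_all (hS : StSchur.{u}) (hN : NoChar G) (f : G →* SQ) (hf : Irr (cx.comp f))
    (hE : ∀ ρ σ : G →* GL (Fin 2) ℂ, Irr ρ → Irr σ → Equ ρ σ)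
    (htr : ∃ g, 1 < padicNorm p (f g).val.trace) (F : G →* SK p) (hF : F ≠ 1) :
    DenseRange F := by
  obtain ⟨X, X', h, h', hX⟩ := conj_f hN f hf hE F hF
  have hC : ∀ x : G, ∃ C : ℝ, ∀ ρ : G →* GL (Fin 2) ℂ, ‖(ρ x).val.trace‖ ≤ C := by
    intro x
    refine ⟨max ‖(cx (f x)).val.trace‖ 2, fun ρ => ?_⟩
    by_cases hρ : Irr ρ
    · rw [trace_of_equ (hE (cx.comp f) ρ hf hρ) x]
      exact le_max_left _ _
    · rw [irr_or_trivial hN ρ hρ x, Units.val_one, Matrix.trace_one, Fintype.card_fin]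
      simp
  have h1 := dense_f (p := p) hS hN f hf hC htr
  refine dense_cj X X' h h' ?_
  have h2 : (fun g => cj X X' h h' (F g)) = fun g => toP p (f g) := by
    ext1 g
    apply Subtype.ext
    rw [cj_val, hX g]
    calc X' * (X * (toP p (f g)).val * X') * X = (X' * X) * (toP p (f g)).val * (X' * X) := by
          simp only [Matrix.mul_assoc]
      _ = (toP p (f g)).val := by rw [h', Matrix.one_mul, Matrix.mul_one]
  rw [h2]
  exact h1

/-- two nontrivial homomorphisms are conjugate over `ℚ_p` -/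
theorem unique_all (hN : NoChar G) (f : G →* SQ) (hf : Irr (cx.comp f))
    (hE : ∀ ρ σ : G →* GL (Fin 2) ℂ, Irr ρ → Irr σ → Equ ρ σ)
    (F F' : G →* SK p) (hF : F ≠ 1) (hF' : F' ≠ 1) :
    ∃ P : GL (Fin 2) ℚ_[p], ∀ g, (F' g).val = P.val * (F g).val * P⁻¹.val := by
  obtain ⟨X, X', h, h', hX⟩ := conj_f hN f hf hE F hF
  obtain ⟨Y, Y', k, k', hY⟩ := conj_f hN f hf hE F' hF'
  refine ⟨⟨Y * X', X * Y', ?_, ?_⟩, fun g => ?_⟩
  · calc Y * X' * (X * Y') = Y * (X' * X) * Y' := by simp only [Matrix.mul_assoc]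
      _ = 1 := by rw [h', Matrix.mul_one, k]
  · calc X * Y' * (Y * X') = X * (Y' * Y) * X' := by simp only [Matrix.mul_assoc]
      _ = 1 := by rw [k', Matrix.mul_one, h]
  · show (F' g).val = Y * X' * (F g).val * (X * Y')
    rw [hX g, hY g]
    calc Y * (toP p (f g)).val * Y' = Y * 1 * (toP p (f g)).val * 1 * Y' := by
          rw [Matrix.mul_one, Matrix.mul_one]
      _ = Y * (X' * X) * (toP p (f g)).val * (X' * X) * Y' := by rw [h']
      _ = Y * X' * (X * (toP p (f g)).val * X') * (X * Y') := by simp only [Matrix.mul_assoc]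

lemma toP_inj {x : SQ} (h : toP p x = 1) : x = 1 := by
  have hent : ∀ i j, x.val i j = (1 : SQ).val i j := by
    intro i j
    have h3 : ((x.val i j : ℚ) : ℚ_[p]) = (((1 : SQ).val i j : ℚ) : ℚ_[p]) := by
      rw [← toP_apply, ← toP_apply, h, map_one]
    exact_mod_cast h3
  exact sq_ext (hent 0 0) (hent 0 1) (hent 1 0) (hent 1 1)

/-- groups with property (U) at the primes -/
theorem final (hU : PropU G) :
    ∃ f : G →* SpecialLinearGroup (Fin 2) ℚ, f ≠ 1 ∧ ∀ (p : ℕ) [Fact p.Prime],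
      (DenseRange fun g : G => SpecialLinearGroup.map (algebraMap ℚ ℚ_[p]) (f g)) ∧
      ∀ F : G →* SpecialLinearGroup (Fin 2) ℚ_[p], F ≠ 1 → DenseRange F ∧
        ∃ P : GL (Fin 2) ℚ_[p], ∀ g, (F g).val =
          P.val * (f g).val.map (algebraMap ℚ ℚ_[p]) * P⁻¹.val := by
  obtain ⟨φ, hN, -, hφ, -, htr⟩ := core stFix stPerm stSchur (stBasis stSchur) stDual
    (stQuat (stBasis stSchur)) stNonInt stLegendre stSplit stSymIrr stInfEig stFinIm
    (stNotFin stPerm stSchur) stFinIrr hU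
  have hE := (hU 2 two_pos).2
  have hφ1 : φ ≠ 1 := by
    intro h1
    obtain ⟨g, hg⟩ := htr 2 Nat.prime_two
    rw [h1, MonoidHom.one_apply, tr_eq] at hg
    have h3 : padicNorm 2 ((2 : ℤ) : ℚ) ≤ 1 := padicNorm.of_int 2
    have h4 : (1 : SQ).val 0 0 + (1 : SQ).val 1 1 = ((2 : ℤ) : ℚ) := by
      show (1 : ℚ) + 1 = _
      norm_num
    rw [h4] at hg
    linarith
  refine ⟨φ, hφ1, ?_⟩
  intro p hp
  have htr' := htr p hp.out
  have hD : ∀ F : G →* SK p, F ≠ 1 → DenseRange F :=
    fun F => dense_all stSchur hN φ hφ hE htr' F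
  have hφp : (toP p).comp φ ≠ 1 := by
    intro h1
    apply hφ1
    ext1 g
    apply toP_inj (p := p)
    have := congrArg (fun z : G →* SK p => z g) h1
    exact this
  refine ⟨hD _ hφp, fun F hF => ⟨hD F hF, ?_⟩⟩
  exact unique_all hN φ hφ hE ((toP p).comp φ) F hφp hF

end Pool.Agent.Lib.MP_c356f3_al.Den
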