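import Mathlib

/-!
The tree of balls in `ℚ_p`, with the action of `SL(2,ℚ_p)`.
-/

namespace Pool.Agent.Lib.MP_c356f3_al.Den

section tree

variable {p : ℕ} [hp : Fact p.Prime]

abbrev MK (p : ℕ) [Fact p.Prime] : Type := Matrix (Fin 2) (Fin 2) ℚ_[p]

/-- larger norm in the bottom row -/
noncomputable def mx (M : MK p) : ℝ := max ‖M 1 0‖ ‖M 1 1‖

open Classical in
/-- entry of the bottom row of larger norm -/
noncomputable def top (M : MK p) : ℚ_[p] := if ‖M 1 0‖ ≤ ‖M 1 1‖ then M 1 1 else M 1 0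

open Classical in
/-- centre of the ball -/
noncomputable def cen (M : MK p) : ℚ_[p] :=
  if ‖M 1 0‖ ≤ ‖M 1 1‖ then M 0 1 / M 1 1 else M 0 0 / M 1 0

/-- level of the ball (its radius is `p ^ level`) -/
noncomputable def lv (M : MK p) : ℤ := -(M.det).valuation + 2 * (top M).valuation

lemma p_one_lt : (1 : ℝ) < p := by exact_mod_cast hp.out.one_lt

lemma p_pos : (0 : ℝ) < p := lt_trans one_pos (p_one_lt (p := p))

lemma zpow_inj {m n : ℤ} (h : (p : ℝ) ^ m = (p : ℝ) ^ n) : m = n :=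
  zpow_right_injective₀ (p_pos (p := p)) (p_one_lt (p := p)).ne' h

lemma norm_top (M : MK p) : ‖top M‖ = mx M := by
  unfold top mx
  split_ifs with h
  · exact (max_eq_right h).symm
  · exact (max_eq_left (le_of_not_ge h)).symm

lemma top_ne {M : MK p} (h : M.det ≠ 0) : top M ≠ 0 := by
  intro h0
  have h1 : mx M = 0 := by rw [← norm_top, h0, norm_zero]
  unfold mx at h1
  have h2 : ‖M 1 0‖ ≤ 0 := h1 ▸ le_max_left _ _
  have h3 : ‖M 1 1‖ ≤ 0 := h1 ▸ le_max_right _ _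
  rw [norm_le_zero_iff] at h2 h3
  apply h
  rw [Matrix.det_fin_two, h2, h3]
  ring

lemma mx_pos {M : MK p} (h : M.det ≠ 0) : 0 < mx M := by
  rw [← norm_top]; exact norm_pos_iff.mpr (top_ne h)

lemma rad {M : MK p} (h : M.det ≠ 0) : (p : ℝ) ^ (lv M) = ‖M.det‖ / mx M ^ 2 := by
  have hp0 := (p_pos (p := p)).ne'
  have hx : (p : ℝ) ^ (top M).valuation ≠ 0 := zpow_ne_zero _ hp0
  rw [← norm_top, Padic.norm_eq_zpow_neg_valuation h, Padic.norm_eq_zpow_neg_valuation (top_ne h),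
    lv, zpow_add₀ hp0, two_mul, zpow_add₀ hp0, zpow_neg (p : ℝ) (top M).valuation]
  field_simp

/-- matrices in `GL(2,ℤ_p)` -/
def Good (k : MK p) : Prop := (∀ i j, ‖k i j‖ ≤ 1) ∧ ‖k.det‖ = 1

lemma norm_comb {a b s t : ℚ_[p]} (hs : ‖s‖ ≤ 1) (ht : ‖t‖ ≤ 1) :
    ‖a * s + b * t‖ ≤ max ‖a‖ ‖b‖ := by
  refine (Padic.nonarchimedean _ _).trans (max_le_max ?_ ?_)
  · rw [norm_mul]; exact mul_le_of_le_one_right (norm_nonneg _) hs
  · rw [norm_mul]; exact mul_le_of_le_one_right (norm_nonneg _) ht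

lemma norm_sub_le' {a b : ℚ_[p]} {r : ℝ} (ha : ‖a‖ ≤ r) (hb : ‖b‖ ≤ r) : ‖a - b‖ ≤ r := by
  rw [sub_eq_add_neg]
  exact (Padic.nonarchimedean _ _).trans (max_le ha (by rwa [norm_neg]))

lemma norm_add_le' {a b : ℚ_[p]} {r : ℝ} (ha : ‖a‖ ≤ r) (hb : ‖b‖ ≤ r) : ‖a + b‖ ≤ r :=
  (Padic.nonarchimedean _ _).trans (max_le ha hb)

/-- column combinations with bottom entry of maximal norm lie in the ball -/
lemma comb_mem {M : MK p} (h : M.det ≠ 0) {s t : ℚ_[p]} (hs : ‖s‖ ≤ 1) (ht : ‖t‖ ≤ 1)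
    (hst : ‖M 1 0 * s + M 1 1 * t‖ = mx M) :
    ‖(M 0 0 * s + M 0 1 * t) / (M 1 0 * s + M 1 1 * t) - cen M‖ ≤ ‖M.det‖ / mx M ^ 2 := by
  have hmx := mx_pos h
  have hne : M 1 0 * s + M 1 1 * t ≠ 0 := by
    intro h0; rw [h0, norm_zero] at hst; linarith
  have hdet : M.det = M 0 0 * M 1 1 - M 0 1 * M 1 0 := Matrix.det_fin_two M
  unfold cen
  split_ifs with hle
  · have hw : ‖M 1 1‖ = mx M := (max_eq_right hle).symm
    have hwne : M 1 1 ≠ 0 := by
      intro h0; rw [h0, norm_zero] at hw; linarith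
    have e : (M 0 0 * s + M 0 1 * t) / (M 1 0 * s + M 1 1 * t) - M 0 1 / M 1 1 =
        s * (M.det / ((M 1 0 * s + M 1 1 * t) * M 1 1)) := by
      rw [div_sub_div _ _ hne hwne, mul_div_assoc', hdet]
      congr 1
      ring
    rw [e, norm_mul, norm_div, norm_mul, hst, hw, ← pow_two]
    exact mul_le_of_le_one_left (by positivity) hs
  · have hw : ‖M 1 0‖ = mx M := (max_eq_left (le_of_not_ge hle)).symm
    have hwne : M 1 0 ≠ 0 := by
      intro h0; rw [h0, norm_zero] at hw; linarith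
    have e : (M 0 0 * s + M 0 1 * t) / (M 1 0 * s + M 1 1 * t) - M 0 0 / M 1 0 =
        t * (-M.det / ((M 1 0 * s + M 1 1 * t) * M 1 0)) := by
      rw [div_sub_div _ _ hne hwne, mul_div_assoc', hdet]
      congr 1
      ring
    rw [e, norm_mul, norm_div, norm_neg, norm_mul, hst, hw, ← pow_two]
    exact mul_le_of_le_one_left (by positivity) ht

lemma mul_apply' (M k : MK p) (i j : Fin 2) : (M * k) i j = M i 0 * k 0 j + M i 1 * k 1 j := by
  rw [Matrix.mul_apply, Fin.sum_univ_two]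

lemma mx_mul {M k : MK p} (hk : Good k) : mx (M * k) = mx M := by
  have hkd : k.det ≠ 0 := by
    intro h0; have := hk.2; rw [h0, norm_zero] at this; exact zero_ne_one this
  have hdet : k.det = k 0 0 * k 1 1 - k 0 1 * k 1 0 := Matrix.det_fin_two k
  apply le_antisymm
  · unfold mx
    rw [mul_apply', mul_apply']
    exact max_le (norm_comb (hk.1 0 0) (hk.1 1 0)) (norm_comb (hk.1 0 1) (hk.1 1 1))
  · have h0 : M 1 0 = ((M * k) 1 0 * k 1 1 + (M * k) 1 1 * (-(k 1 0))) / k.det := by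
      rw [eq_div_iff hkd, mul_apply', mul_apply', hdet]; ring
    have h1 : M 1 1 = ((M * k) 1 0 * (-(k 0 1)) + (M * k) 1 1 * k 0 0) / k.det := by
      rw [eq_div_iff hkd, mul_apply', mul_apply', hdet]; ring
    unfold mx
    apply max_le
    · conv_lhs => rw [h0]
      rw [norm_div, hk.2, div_one]
      exact norm_comb (hk.1 1 1) (by rw [norm_neg]; exact hk.1 1 0)
    · conv_lhs => rw [h1]
      rw [norm_div, hk.2, div_one]
      exact norm_comb (by rw [norm_neg]; exact hk.1 0 1) (hk.1 0 0)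

lemma det_mul_ne {M k : MK p} (h : M.det ≠ 0) (hk : Good k) : (M * k).det ≠ 0 := by
  rw [Matrix.det_mul]
  refine mul_ne_zero h ?_
  intro h0; have := hk.2; rw [h0, norm_zero] at this; exact zero_ne_one this

lemma lv_eq_of {M N : MK p} (hM : M.det ≠ 0) (hN : N.det ≠ 0)
    (h : ‖M.det‖ / mx M ^ 2 = ‖N.det‖ / mx N ^ 2) : lv M = lv N := by
  rw [← rad hM, ← rad hN] at h
  exact zpow_inj h

lemma lv_mul {M k : MK p} (h : M.det ≠ 0) (hk : Good k) : lv (M * k) = lv M := by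
  apply lv_eq_of (det_mul_ne h hk) h
  rw [mx_mul hk, Matrix.det_mul, norm_mul, hk.2, mul_one]

lemma cen_mul {M k : MK p} (h : M.det ≠ 0) (hk : Good k) :
    ‖cen (M * k) - cen M‖ ≤ (p : ℝ) ^ (lv M) := by
  rw [rad h]
  have hmx := mx_mul (M := M) hk
  unfold cen
  conv in (if ‖(M * k) 1 0‖ ≤ ‖(M * k) 1 1‖ then _ else _) => skip
  split_ifs with h1 h2 h2
  · have h3 : ‖(M * k) 1 1‖ = mx (M * k) := (max_eq_right h1).symm
    rw [hmx] at h3
    have := comb_mem h (hk.1 0 1) (hk.1 1 1) (by rw [← mul_apply']; exact h3)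
    rw [← mul_apply', ← mul_apply', cen, if_pos h2] at this
    exact this
  · have h3 : ‖(M * k) 1 1‖ = mx (M * k) := (max_eq_right h1).symm
    rw [hmx] at h3
    have := comb_mem h (hk.1 0 1) (hk.1 1 1) (by rw [← mul_apply']; exact h3)
    rw [← mul_apply', ← mul_apply', cen, if_neg h2] at this
    exact this
  · have h3 : ‖(M * k) 1 0‖ = mx (M * k) := (max_eq_left (le_of_not_ge h1)).symm
    rw [hmx] at h3
    have := comb_mem h (hk.1 0 0) (hk.1 1 0) (by rw [← mul_apply']; exact h3)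
    rw [← mul_apply', ← mul_apply', cen, if_pos h2] at this
    exact this
  · have h3 : ‖(M * k) 1 0‖ = mx (M * k) := (max_eq_left (le_of_not_ge h1)).symm
    rw [hmx] at h3
    have := comb_mem h (hk.1 0 0) (hk.1 1 0) (by rw [← mul_apply']; exact h3)
    rw [← mul_apply', ← mul_apply', cen, if_neg h2] at this
    exact this

lemma smul_mx (c : ℚ_[p]) (M : MK p) : mx (c • M) = ‖c‖ * mx M := by
  unfold mx
  rw [Matrix.smul_apply, Matrix.smul_apply, smul_eq_mul, smul_eq_mul, norm_mul, norm_mul,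
    mul_max_of_nonneg _ _ (norm_nonneg _)]

lemma smul_det (c : ℚ_[p]) (M : MK p) : (c • M).det = c ^ 2 * M.det := by
  rw [Matrix.det_smul]; simp

lemma lv_smul {c : ℚ_[p]} (hc : c ≠ 0) {M : MK p} (h : M.det ≠ 0) : lv (c • M) = lv M := by
  apply lv_eq_of (by rw [smul_det]; exact mul_ne_zero (pow_ne_zero _ hc) h) h
  rw [smul_mx, smul_det, norm_mul, norm_pow, mul_pow]
  have : ‖c‖ ≠ 0 := norm_ne_zero_iff.mpr hc
  have := mx_pos h
  field_simp

lemma cen_smul {c : ℚ_[p]} (hc : c ≠ 0) (M : MK p) : cen (c • M) = cen M := by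
  have hc' : 0 < ‖c‖ := norm_pos_iff.mpr hc
  unfold cen
  simp only [Matrix.smul_apply, smul_eq_mul, norm_mul, mul_le_mul_iff_right₀ hc']
  split_ifs
  · rw [mul_div_mul_left _ _ hc]
  · rw [mul_div_mul_left _ _ hc]

/-- equality of balls -/
def vset (p : ℕ) [Fact p.Prime] : Setoid (ℤ × ℚ_[p]) where
  r u v := u.1 = v.1 ∧ ‖u.2 - v.2‖ ≤ (p : ℝ) ^ u.1
  iseqv := by
    refine ⟨fun u => ⟨rfl, ?_⟩, ?_, ?_⟩
    · rw [sub_self, norm_zero]; exact (zpow_pos p_pos _).le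
    · rintro u v ⟨h1, h2⟩
      exact ⟨h1.symm, by rw [← h1, norm_sub_rev]; exact h2⟩
    · rintro u v w ⟨h1, h2⟩ ⟨h3, h4⟩
      refine ⟨h1.trans h3, ?_⟩
      have : u.2 - w.2 = (u.2 - v.2) + (v.2 - w.2) := by ring
      rw [this]
      exact norm_add_le' h2 (by rw [h1]; exact h4)

/-- vertices: balls of `ℚ_p` -/
def Vtx (p : ℕ) [Fact p.Prime] : Type := Quotient (vset p)

/-- the ball of radius `p ^ n` around `b` -/
def mk (n : ℤ) (b : ℚ_[p]) : Vtx p := Quotient.mk (vset p) (n, b)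

lemma mk_eq {n n' : ℤ} {b b' : ℚ_[p]} : mk n b = mk n' b' ↔ n = n' ∧ ‖b - b'‖ ≤ (p : ℝ) ^ n :=
  Quotient.eq (r := vset p)

/-- the next larger ball -/
def par : Vtx p → Vtx p :=
  Quotient.map' (s₁ := vset p) (s₂ := vset p) (fun u => (u.1 + 1, u.2)) (by
    rintro u v ⟨h1, h2⟩
    refine ⟨by show u.1 + 1 = v.1 + 1; rw [h1], ?_⟩
    show ‖u.2 - v.2‖ ≤ (p : ℝ) ^ (u.1 + 1)
    exact h2.trans (zpow_le_zpow_right₀ p_one_lt.le (by omega)))

lemma par_mk (n : ℤ) (b : ℚ_[p]) : par (mk n b) = mk (n + 1) b := rfl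

lemma par_iter (i : ℕ) (n : ℤ) (b : ℚ_[p]) : par^[i] (mk n b) = mk (n + i) b := by
  induction i with
  | zero => simp
  | succ i ih =>
    rw [Function.iterate_succ_apply', ih, par_mk]
    congr 1
    push_cast
    ring

lemma mk_surj (v : Vtx p) : ∃ (n : ℤ) (b : ℚ_[p]), v = mk n b := by
  induction v using Quotient.inductionOn with | _ u => exact ⟨u.1, u.2, rfl⟩

lemma hloop (v : Vtx p) (i j : ℕ) (h : par^[i] v = par^[j] v) : i = j := by
  obtain ⟨n, b, rfl⟩ := mk_surj v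
  rw [par_iter, par_iter, mk_eq] at h
  have := h.1
  omega

lemma hanc (v w : Vtx p) : ∃ i j : ℕ, par^[i] v = par^[j] w := by
  obtain ⟨n, b, rfl⟩ := mk_surj v
  obtain ⟨n', b', rfl⟩ := mk_surj w
  obtain ⟨N, hN⟩ := pow_unbounded_of_one_lt ‖b - b'‖ (p_one_lt (p := p))
  obtain ⟨i, hi⟩ : ∃ i : ℕ, n + i = max (max n n') N :=
    ⟨(max (max n n') N - n).toNat, by omega⟩
  obtain ⟨j, hj⟩ : ∃ j : ℕ, n' + j = max (max n n') N :=
    ⟨(max (max n n') N - n').toNat, by omega⟩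
  refine ⟨i, j, ?_⟩
  rw [par_iter, par_iter, mk_eq]
  refine ⟨hi.trans hj.symm, ?_⟩
  rw [hi]
  refine hN.le.trans ?_
  rw [← zpow_natCast]
  exact zpow_le_zpow_right₀ p_one_lt.le (le_max_right _ _)

/-- the vertex of a matrix -/
noncomputable def bet (M : MK p) : Vtx p := mk (lv M) (cen M)

lemma bet_mul {M k : MK p} (h : M.det ≠ 0) (hk : Good k) : bet (M * k) = bet M := by
  rw [bet, bet, mk_eq]
  refine ⟨lv_mul h hk, ?_⟩
  rw [lv_mul h hk]
  exact cen_mul h hk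

lemma bet_smul {c : ℚ_[p]} (hc : c ≠ 0) {M : MK p} (h : M.det ≠ 0) : bet (c • M) = bet M := by
  rw [bet, bet, lv_smul hc h, cen_smul hc]

/-- standard matrix of a ball -/
noncomputable def mm (n : ℤ) (b : ℚ_[p]) : MK p := !![(p : ℚ_[p]) ^ (-n), b; 0, 1]

lemma pQ_ne : (p : ℚ_[p]) ≠ 0 := by exact_mod_cast hp.out.ne_zero

lemma mm_det (n : ℤ) (b : ℚ_[p]) : (mm n b).det = (p : ℚ_[p]) ^ (-n) := by
  rw [mm, Matrix.det_fin_two_of]; ring

lemma mm_det_ne (n : ℤ) (b : ℚ_[p]) : (mm n b).det ≠ 0 := by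
  rw [mm_det]; exact zpow_ne_zero _ pQ_ne

lemma bet_mm (n : ℤ) (b : ℚ_[p]) : bet (mm n b) = mk n b := by
  have h1 : cen (mm n b) = b := by
    rw [cen, if_pos]
    · simp [mm]
    · simp [mm]
  have h2 : top (mm n b) = 1 := by
    rw [top, if_pos]
    · simp [mm]
    · simp [mm]
  have h3 : lv (mm n b) = n := by
    rw [lv, h2, mm_det, Padic.valuation_zpow, Padic.valuation_p, Padic.valuation_one]
    ring
  rw [bet, h1, h3]

/-- a matrix with vertex `mk n b` is a scalar times `mm n b` times an element of `GL(2,ℤ_p)` -/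
lemma decomp {M : MK p} (h : M.det ≠ 0) {n : ℤ} {b : ℚ_[p]} (hb : bet M = mk n b) :
    ∃ (c : ℚ_[p]) (k : MK p), c ≠ 0 ∧ Good k ∧ M = c • (mm n b * k) := by
  rw [bet, mk_eq] at hb
  obtain ⟨hl, hc⟩ := hb
  have hr := rad h
  have hmx := mx_pos h
  rw [hr] at hc
  rw [hl] at hr
  have ht := top_ne h
  have htn := norm_top M
  have hdet : M.det = M 0 0 * M 1 1 - M 0 1 * M 1 0 := Matrix.det_fin_two M
  have hpn : (p : ℚ_[p]) ^ n ≠ 0 := zpow_ne_zero _ pQ_ne
  have hpnorm : ‖(p : ℚ_[p]) ^ n‖ = ((p : ℝ) ^ n)⁻¹ := by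
    rw [norm_zpow, Padic.norm_p, inv_zpow]
  have hpr : (0 : ℝ) < (p : ℝ) ^ n := zpow_pos p_pos _
  -- bounds for the top row
  have hb0 : ‖M 0 0 - b * M 1 0‖ ≤ ‖M.det‖ / mx M ∧ ‖M 0 1 - b * M 1 1‖ ≤ ‖M.det‖ / mx M := by
    have hz : ‖M 1 0‖ ≤ mx M := le_max_left _ _
    have hw : ‖M 1 1‖ ≤ mx M := le_max_right _ _
    have hce : ∀ x : ℚ_[p], ‖x‖ ≤ mx M → ‖(cen M - b) * x‖ ≤ ‖M.det‖ / mx M := by
      intro x hx
      rw [norm_mul]
      calc ‖cen M - b‖ * ‖x‖ ≤ (‖M.det‖ / mx M ^ 2) * mx M :=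
            mul_le_mul hc hx (norm_nonneg _) (by positivity)
        _ = ‖M.det‖ / mx M := by field_simp
    have hcz := hce _ hz
    have hcw := hce _ hw
    unfold cen at hcz hcw
    split_ifs at hcz hcw with hle
    · have hwe : ‖M 1 1‖ = mx M := (max_eq_right hle).symm
      have hwne : M 1 1 ≠ 0 := by
        intro h0; rw [h0, norm_zero] at hwe; linarith
      constructor
      · have e : M 0 0 - b * M 1 0 = M.det / M 1 1 + (M 0 1 / M 1 1 - b) * M 1 0 := by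
          rw [hdet]; field_simp; ring
        rw [e]
        exact norm_add_le' (by rw [norm_div, hwe]) hcz
      · have e : M 0 1 - b * M 1 1 = (M 0 1 / M 1 1 - b) * M 1 1 := by field_simp
        rw [e]
        exact hcw
    · have hwe : ‖M 1 0‖ = mx M := (max_eq_left (le_of_not_ge hle)).symm
      have hwne : M 1 0 ≠ 0 := by
        intro h0; rw [h0, norm_zero] at hwe; linarith
      constructor
      · have e : M 0 0 - b * M 1 0 = (M 0 0 / M 1 0 - b) * M 1 0 := by field_simp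
        rw [e]
        exact hcz
      · have e : M 0 1 - b * M 1 1 = -(M.det / M 1 0) + (M 0 0 / M 1 0 - b) * M 1 1 := by
          rw [hdet]; field_simp; ring
        rw [e]
        exact norm_add_le' (by rw [norm_neg, norm_div, hwe]) hcw
  let k : MK p := !![(p : ℚ_[p]) ^ n * (M 0 0 - b * M 1 0) / top M,
    (p : ℚ_[p]) ^ n * (M 0 1 - b * M 1 1) / top M; M 1 0 / top M, M 1 1 / top M]
  refine ⟨top M, k, ht, ⟨?_, ?_⟩, ?_⟩
  · have hb1 : ∀ x : ℚ_[p], ‖x‖ ≤ ‖M.det‖ / mx M → ‖(p : ℚ_[p]) ^ n * x / top M‖ ≤ 1 := by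
      intro x hx
      rw [norm_div, norm_mul, hpnorm, hr, htn, div_le_one hmx]
      have hdn : 0 < ‖M.det‖ := norm_pos_iff.mpr h
      calc (‖M.det‖ / mx M ^ 2)⁻¹ * ‖x‖ ≤ (‖M.det‖ / mx M ^ 2)⁻¹ * (‖M.det‖ / mx M) := by
            gcongr
        _ = mx M := by field_simp
    have hb2 : ∀ x : ℚ_[p], ‖x‖ ≤ mx M → ‖x / top M‖ ≤ 1 := by
      intro x hx
      rw [norm_div, htn]
      exact div_le_one_of_le₀ hx hmx.le
    intro i j
    fin_cases i <;> fin_cases j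
    · exact hb1 _ hb0.1
    · exact hb1 _ hb0.2
    · exact hb2 _ (le_max_left _ _)
    · exact hb2 _ (le_max_right _ _)
  · have e : k.det = (p : ℚ_[p]) ^ n * M.det / top M ^ 2 := by
      rw [Matrix.det_fin_two_of, hdet]
      field_simp
      ring
    rw [e, norm_div, norm_mul, hpnorm, norm_pow, htn, hr]
    have hdn : 0 < ‖M.det‖ := norm_pos_iff.mpr h
    field_simp
  · ext i j
    rw [Matrix.smul_apply, mul_apply', smul_eq_mul]
    have hpn' : (p : ℚ_[p]) ^ (-n) * (p : ℚ_[p]) ^ n = 1 := by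
      rw [← zpow_add₀ pQ_ne, neg_add_cancel, zpow_zero]
    fin_cases i <;> fin_cases j <;> simp [mm, k]
    · field_simp
      ring
    · field_simp
      ring
    · field_simp
    · field_simp

end tree

end Pool.Agent.Lib.MP_c356f3_al.Den
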