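import Pool.Agent.Lib.MP_c356f3_al.StmtsX

/-!
X6: discreteness in `SL(2,ℝ)` from an invariant set of directions lying in a closed double cone.
-/

namespace Pool.Agent.Lib.MP_c356f3_al

open Matrix Filter Topology

namespace Disc

lemma rQ_mul (a b : SLQ) : rQ (a * b) = rQ a * rQ b := by
  ext i j
  simp [rQ, Matrix.mul_apply, Fin.sum_univ_two]

lemma rQ_one : rQ 1 = 1 := by
  ext i j
  fin_cases i <;> fin_cases j <;> simp [rQ]

lemma rQ_inj : Function.Injective rQ := by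
  intro a b h
  ext i j
  have := congrFun (congrFun h i) j
  simpa [rQ] using this

lemma rQ_det (a : SLQ) : (rQ a).det = 1 := by
  have h : a.val.det = 1 := a.property
  rw [Matrix.det_fin_two] at h ⊢
  have := congrArg (fun q : ℚ => (q : ℝ)) h
  simpa [rQ] using this

lemma rQ_inv (a : SLQ) : rQ a⁻¹ = (rQ a).adjugate := by
  ext i j
  fin_cases i <;> fin_cases j <;>
    simp [rQ, Matrix.adjugate_fin_two]

lemma dt_mulVec (A : Matrix (Fin 2) (Fin 2) ℝ) (u w : Fin 2 → ℝ) :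
    dt (A *ᵥ u) (A *ᵥ w) = A.det * dt u w := by
  simp only [dt, Matrix.mulVec, dotProduct, Fin.sum_univ_two, Matrix.det_fin_two]
  ring

/-- coordinates `(w₀ - w₁, w₀ + w₁)` of `w = x⁻¹ v` -/
noncomputable def mA (x : SLZ) : Matrix (Fin 2) (Fin 2) ℝ :=
  !![(x 1 1 : ℝ) + x 1 0, -((x 0 1 : ℝ) + x 0 0); (x 1 1 : ℝ) - x 1 0, (x 0 0 : ℝ) - x 0 1]

/-- its inverse -/
noncomputable def mB (x : SLZ) : Matrix (Fin 2) (Fin 2) ℝ :=
  !![((x 0 0 : ℝ) - x 0 1) / 2, ((x 0 1 : ℝ) + x 0 0) / 2;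
    -((x 1 1 : ℝ) - x 1 0) / 2, ((x 1 1 : ℝ) + x 1 0) / 2]

lemma detx (x : SLZ) : (x 0 0 : ℝ) * x 1 1 - x 0 1 * x 1 0 = 1 := by
  have h : x.val.det = 1 := x.property
  rw [Matrix.det_fin_two] at h
  exact_mod_cast h

lemma mA_det (x : SLZ) : (mA x).det = 2 := by
  have := detx x
  simp only [mA, Matrix.det_fin_two_of]
  linear_combination 2 * this

lemma mA_mB (x : SLZ) : mA x * mB x = 1 := by
  have := detx x
  ext i j
  fin_cases i <;> fin_cases j <;>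
    simp [mA, mB, Matrix.mul_apply, Fin.sum_univ_two] <;>
    first | linear_combination this | ring

lemma mB_mA (x : SLZ) : mB x * mA x = 1 := by
  have := detx x
  ext i j
  fin_cases i <;> fin_cases j <;>
    simp [mA, mB, Matrix.mul_apply, Fin.sum_univ_two] <;>
    first | linear_combination this | ring

/-- conjugate matrix -/
noncomputable def cj (x : SLZ) (m : Matrix (Fin 2) (Fin 2) ℝ) : Matrix (Fin 2) (Fin 2) ℝ :=
  mA x * m * mB x

lemma adjA (x : SLZ) : (mA x).adjugate = (2 : ℝ) • mB x := by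
  ext i j
  fin_cases i <;> fin_cases j <;> simp [mA, mB, Matrix.adjugate_fin_two] <;> ring

lemma adjB (x : SLZ) : (mB x).adjugate = (1 / 2 : ℝ) • mA x := by
  ext i j
  fin_cases i <;> fin_cases j <;> simp [mA, mB, Matrix.adjugate_fin_two] <;> ring

lemma cj_adj (x : SLZ) (m : Matrix (Fin 2) (Fin 2) ℝ) : cj x m.adjugate = (cj x m).adjugate := by
  rw [cj, cj, Matrix.adjugate_mul_distrib, Matrix.adjugate_mul_distrib, adjA, adjB,
    Matrix.mul_smul, Matrix.smul_mul, Matrix.mul_smul, smul_smul, Matrix.mul_assoc]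
  norm_num

lemma cj_mulVec (x : SLZ) (m : Matrix (Fin 2) (Fin 2) ℝ) (v : Fin 2 → ℝ) :
    mA x *ᵥ (m *ᵥ v) = cj x m *ᵥ (mA x *ᵥ v) := by
  simp only [cj, Matrix.mulVec_mulVec]
  rw [Matrix.mul_assoc, mB_mA, Matrix.mul_one]

/-- the invariant infimum inequality for one element -/
lemma half (x : SLZ) (L : Set (Fin 2 → ℝ)) (hne : L.Nonempty)
    (h0 : ∀ v ∈ L, v ≠ 0) (hx : ∀ v ∈ L, 0 ≤ pr x v) (α : ℝ)
    (hα : α = sInf ((fun v : Fin 2 → ℝ => (mA x *ᵥ v) 0 / (mA x *ᵥ v) 1) '' L))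
    (m : Matrix (Fin 2) (Fin 2) ℝ) (hm : ∀ v ∈ L, m *ᵥ v ∈ L)
    (hpos : ∀ σ : ℝ, |σ| ≤ 1 → 0 < cj x m 1 0 * σ + cj x m 1 1)
    (hpos2 : ∀ σ : ℝ, |σ| ≤ 1 → 0 < cj x m 0 0 - σ * cj x m 1 0) :
    |α| ≤ 1 ∧ 0 ≤ cj x m 0 0 * α + cj x m 0 1 - α * (cj x m 1 0 * α + cj x m 1 1) := by
  set f : (Fin 2 → ℝ) → ℝ := fun v => (mA x *ᵥ v) 0 / (mA x *ᵥ v) 1 with hf
  have hsq : ∀ v ∈ L, ((mA x *ᵥ v) 0) ^ 2 ≤ ((mA x *ᵥ v) 1) ^ 2 := by
    intro v hv
    have := hx v hv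
    simp only [pr] at this
    simp only [mA, Matrix.mulVec, dotProduct, Fin.sum_univ_two, Matrix.of_apply, Matrix.cons_val',
      Matrix.cons_val_zero, Matrix.cons_val_one, Matrix.cons_val_fin_one]
    nlinarith
  have hp : ∀ v ∈ L, (mA x *ᵥ v) 1 ≠ 0 := by
    intro v hv h
    have h2 := hsq v hv
    rw [h] at h2
    have h3 : (mA x *ᵥ v) 0 = 0 := by nlinarith
    have h4 : mA x *ᵥ v = 0 := by
      ext i
      fin_cases i
      · simpa using h3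
      · simpa using h
    apply h0 v hv
    have : mB x *ᵥ (mA x *ᵥ v) = 0 := by rw [h4, Matrix.mulVec_zero]
    rwa [Matrix.mulVec_mulVec, mB_mA, Matrix.one_mulVec] at this
  have habs : ∀ v ∈ L, |f v| ≤ 1 := by
    intro v hv
    simp only [hf, abs_div]
    rw [div_le_one (abs_pos.mpr (hp v hv))]
    exact sq_le_sq.mp (hsq v hv)
  have hbdd : BddBelow (f '' L) := ⟨-1, by
    rintro _ ⟨v, hv, rfl⟩
    exact (abs_le.mp (habs v hv)).1⟩
  have hneS : (f '' L).Nonempty := hne.image f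
  have hα1 : |α| ≤ 1 := by
    rw [abs_le]
    constructor
    · rw [hα]
      apply le_csInf hneS
      rintro _ ⟨v, hv, rfl⟩
      exact (abs_le.mp (habs v hv)).1
    · obtain ⟨v, hv⟩ := hne
      rw [hα]
      exact (csInf_le hbdd ⟨v, hv, rfl⟩).trans (abs_le.mp (habs v hv)).2
  refine ⟨hα1, ?_⟩
  have hq := hpos2 α hα1
  have key : (α * cj x m 1 1 - cj x m 0 1) / (cj x m 0 0 - α * cj x m 1 0) ≤ α := by
    conv_rhs => rw [hα]
    apply le_csInf hneS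
    rintro _ ⟨v, hv, rfl⟩
    have h1 : α ≤ f (m *ᵥ v) := by
      rw [hα]
      exact csInf_le hbdd ⟨_, hm v hv, rfl⟩
    have hden := hpos (f v) (habs v hv)
    have h2 : f (m *ᵥ v) = (cj x m 0 0 * f v + cj x m 0 1) / (cj x m 1 0 * f v + cj x m 1 1) := by
      simp only [hf]
      rw [cj_mulVec]
      have hpv := hp v hv
      have hden' : cj x m 1 0 * ((mA x *ᵥ v) 0 / (mA x *ᵥ v) 1) + cj x m 1 1 ≠ 0 := hden.ne'
      have e0 : (cj x m *ᵥ (mA x *ᵥ v)) 0 = cj x m 0 0 * (mA x *ᵥ v) 0 + cj x m 0 1 * (mA x *ᵥ v) 1 := by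
        simp [Matrix.mulVec, dotProduct, Fin.sum_univ_two]
      have e1 : (cj x m *ᵥ (mA x *ᵥ v)) 1 = cj x m 1 0 * (mA x *ᵥ v) 0 + cj x m 1 1 * (mA x *ᵥ v) 1 := by
        simp [Matrix.mulVec, dotProduct, Fin.sum_univ_two]
      rw [e0, e1]
      have hden2 : cj x m 1 0 * (mA x *ᵥ v) 0 + cj x m 1 1 * (mA x *ᵥ v) 1 ≠ 0 := by
        intro h
        apply hden'
        have : cj x m 1 0 * ((mA x *ᵥ v) 0 / (mA x *ᵥ v) 1) + cj x m 1 1 =
          (cj x m 1 0 * (mA x *ᵥ v) 0 + cj x m 1 1 * (mA x *ᵥ v) 1) / (mA x *ᵥ v) 1 := by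
          field_simp
        rw [this, h, zero_div]
      rw [div_eq_div_iff hden2 hden']
      field_simp
    rw [h2, le_div_iff₀ hden] at h1
    rw [div_le_iff₀ hq]
    nlinarith
  rw [div_le_iff₀ hq] at key
  nlinarith

/-- fixed direction of all elements near `1` -/
lemma fixed_dir (Γ : Subgroup SLQ) (L : Set (Fin 2 → ℝ)) (hne : L.Nonempty)
    (h0 : ∀ v ∈ L, v ≠ 0) (hinv : ∀ γ ∈ Γ, ∀ v ∈ L, rQ γ *ᵥ v ∈ L)
    (x : SLZ) (hx : ∀ v ∈ L, 0 ≤ pr x v) :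
    ∃ u : Fin 2 → ℝ, u ≠ 0 ∧ ∀ᶠ m in 𝓝 (1 : Matrix (Fin 2) (Fin 2) ℝ),
      ∀ γ ∈ Γ, rQ γ = m → dt (rQ γ *ᵥ u) u = 0 := by
  set α : ℝ := sInf ((fun v : Fin 2 → ℝ => (mA x *ᵥ v) 0 / (mA x *ᵥ v) 1) '' L) with hα
  have hcont : Continuous (fun m : Matrix (Fin 2) (Fin 2) ℝ => cj x m) := by
    unfold cj
    fun_prop
  have h1 : cj x 1 = 1 := by simp [cj, mA_mB]
  have ev : ∀ i j : Fin 2, ∀ᶠ m in 𝓝 (1 : Matrix (Fin 2) (Fin 2) ℝ),
      |cj x m i j - (1 : Matrix (Fin 2) (Fin 2) ℝ) i j| < 1 / 4 := by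
    intro i j
    have hc : Continuous (fun m : Matrix (Fin 2) (Fin 2) ℝ =>
        |cj x m i j - (1 : Matrix (Fin 2) (Fin 2) ℝ) i j|) := by
      have : Continuous (fun m : Matrix (Fin 2) (Fin 2) ℝ => cj x m i j) :=
        hcont.matrix_elem i j
      fun_prop
    have := hc.tendsto 1
    rw [h1, sub_self, abs_zero] at this
    exact this.eventually (gt_mem_nhds (by norm_num))
  refine ⟨mB x *ᵥ ![α, 1], ?_, ?_⟩
  · intro h
    have h2 : mA x *ᵥ (mB x *ᵥ ![α, 1]) = 0 := by rw [h, Matrix.mulVec_zero]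
    rw [Matrix.mulVec_mulVec, mA_mB, Matrix.one_mulVec] at h2
    have := congrFun h2 1
    simp at this
  · filter_upwards [ev 0 0, ev 1 0, ev 1 1] with m e00 e10 e11 γ hγ hm
    simp only [Matrix.one_apply_eq, Matrix.one_apply_ne (show (1 : Fin 2) ≠ 0 by decide),
      sub_zero] at e00 e10 e11
    rw [abs_lt] at e00 e10 e11
    have hb : ∀ σ : ℝ, |σ| ≤ 1 → |cj x m 1 0 * σ| < 1 / 4 := by
      intro σ hσ
      rw [abs_mul]
      have : |cj x m 1 0| < 1 / 4 := abs_lt.mpr e10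
      nlinarith [abs_nonneg σ, abs_nonneg (cj x m 1 0)]
    have hA := half x L hne h0 hx α hα m (fun v hv => hm ▸ hinv γ hγ v hv)
      (by
        intro σ hσ
        have := abs_lt.mp (hb σ hσ)
        linarith [this.1])
      (by
        intro σ hσ
        have := abs_lt.mp (hb σ hσ)
        linarith [this.2, mul_comm (cj x m 1 0) σ])
    have hadj : rQ γ⁻¹ = m.adjugate := by rw [rQ_inv, hm]
    have c00 : cj x m.adjugate 0 0 = cj x m 1 1 := by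
      rw [cj_adj, Matrix.adjugate_fin_two]; simp
    have c01 : cj x m.adjugate 0 1 = - cj x m 0 1 := by
      rw [cj_adj, Matrix.adjugate_fin_two]; simp
    have c10 : cj x m.adjugate 1 0 = - cj x m 1 0 := by
      rw [cj_adj, Matrix.adjugate_fin_two]; simp
    have c11 : cj x m.adjugate 1 1 = cj x m 0 0 := by
      rw [cj_adj, Matrix.adjugate_fin_two]; simp
    have hB := half x L hne h0 hx α hα m.adjugate
      (fun v hv => hadj ▸ hinv γ⁻¹ (Γ.inv_mem hγ) v hv)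
      (by
        intro σ hσ
        have := abs_lt.mp (hb σ hσ)
        rw [c10, c11]
        linarith [this.2])
      (by
        intro σ hσ
        have := abs_lt.mp (hb σ hσ)
        rw [c10, c00]
        linarith [this.1, mul_comm (cj x m 1 0) σ])
    rw [c00, c01, c10, c11] at hB
    have hz : cj x m 0 0 * α + cj x m 0 1 - α * (cj x m 1 0 * α + cj x m 1 1) = 0 := by
      have := hA.2
      have := hB.2
      nlinarith
    have h2 : dt (mA x *ᵥ (rQ γ *ᵥ (mB x *ᵥ ![α, 1]))) (mA x *ᵥ (mB x *ᵥ ![α, 1])) = 0 := by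
      rw [cj_mulVec, Matrix.mulVec_mulVec ![α, 1] (mA x) (mB x), mA_mB, Matrix.one_mulVec, hm]
      simp only [dt, Matrix.mulVec, dotProduct, Fin.sum_univ_two, Matrix.cons_val_zero,
        Matrix.cons_val_one]
      linear_combination hz
    rw [dt_mulVec, mA_det] at h2
    linarith

/-- a matrix of determinant one with three eigenlines near `1` is `1` -/
lemma three_lines (m : Matrix (Fin 2) (Fin 2) ℝ) (u v w : Fin 2 → ℝ)
    (h1 : dt (m *ᵥ u) u = 0) (h2 : dt (m *ᵥ v) v = 0) (h3 : dt (m *ᵥ w) w = 0)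
    (huv : dt u v ≠ 0) (huw : dt u w ≠ 0) (hvw : dt v w ≠ 0)
    (hdet : m.det = 1) (hpos : 0 < m 0 0) : m = 1 := by
  simp only [dt, Matrix.mulVec, dotProduct, Fin.sum_univ_two] at h1 h2 h3 huv huw hvw
  have hprod : (u 0 * v 1 - u 1 * v 0) * (u 0 * w 1 - u 1 * w 0) * (v 0 * w 1 - v 1 * w 0) ≠ 0 :=
    mul_ne_zero (mul_ne_zero huv huw) hvw
  -- quadratic form A y² + B x y + C x²
  have hA : m 0 1 = 0 := by
    apply (mul_eq_zero.mp ?_).resolve_right hprod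
    linear_combination -(v 0 * v 1 * w 0 ^ 2 - v 0 ^ 2 * (w 0 * w 1)) * h1 +
      (u 0 * u 1 * w 0 ^ 2 - u 0 ^ 2 * (w 0 * w 1)) * h2 -
      (u 0 * u 1 * v 0 ^ 2 - u 0 ^ 2 * (v 0 * v 1)) * h3
  have hC : m 1 0 = 0 := by
    apply (mul_eq_zero.mp ?_).resolve_right hprod
    linear_combination -(v 0 * v 1 * w 1 ^ 2 - v 1 ^ 2 * (w 0 * w 1)) * h1 +
      (u 0 * u 1 * w 1 ^ 2 - u 1 ^ 2 * (w 0 * w 1)) * h2 -
      (u 0 * u 1 * v 1 ^ 2 - u 1 ^ 2 * (v 0 * v 1)) * h3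
  have hB : m 0 0 - m 1 1 = 0 := by
    apply (mul_eq_zero.mp ?_).resolve_right hprod
    linear_combination -(-(v 1 ^ 2 * w 0 ^ 2) + v 0 ^ 2 * w 1 ^ 2) * h1 +
      (-(u 1 ^ 2 * w 0 ^ 2) + u 0 ^ 2 * w 1 ^ 2) * h2 -
      (-(u 1 ^ 2 * v 0 ^ 2) + u 0 ^ 2 * v 1 ^ 2) * h3
  have h11 : m 0 0 = m 1 1 := sub_eq_zero.mp hB
  rw [Matrix.det_fin_two, hA, hC, ← h11] at hdet
  have h00 : m 0 0 = 1 := by nlinarith
  ext i j
  fin_cases i <;> fin_cases j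
  · simpa using h00
  · simpa using hA
  · simpa using hC
  · simpa using h11 ▸ h00

/-- discreteness near `1` -/
lemma near_one (Γ : Subgroup SLQ) (hΓ : NoLine Γ) (L : Set (Fin 2 → ℝ)) (hne : L.Nonempty)
    (h0 : ∀ v ∈ L, v ≠ 0) (hinv : ∀ γ ∈ Γ, ∀ v ∈ L, rQ γ *ᵥ v ∈ L)
    (x : SLZ) (hx : ∀ v ∈ L, 0 ≤ pr x v) :
    ∀ᶠ m in 𝓝 (1 : Matrix (Fin 2) (Fin 2) ℝ), ∀ γ ∈ Γ, rQ γ = m → γ = 1 := by
  obtain ⟨u, hu, hev⟩ := fixed_dir Γ L hne h0 hinv x hx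
  obtain ⟨δ, hδ, hδ1, -⟩ := hΓ u u hu hu
  have hdu : rQ δ *ᵥ u ≠ 0 := by
    intro h
    apply hδ1
    rw [h]
    simp [dt]
  obtain ⟨η, hη, hη1, hη2⟩ := hΓ u (rQ δ *ᵥ u) hu hdu
  -- conjugation is continuous
  have conj : ∀ δ : SLQ, ∀ᶠ m in 𝓝 (1 : Matrix (Fin 2) (Fin 2) ℝ),
      ∀ γ ∈ Γ, rQ γ = (rQ δ).adjugate * m * rQ δ → dt (rQ γ *ᵥ u) u = 0 := by
    intro δ
    have hc : Continuous (fun m : Matrix (Fin 2) (Fin 2) ℝ => (rQ δ).adjugate * m * rQ δ) := by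
      fun_prop
    have ht := hc.tendsto 1
    have h1 : (rQ δ).adjugate * 1 * rQ δ = 1 := by
      rw [Matrix.mul_one, Matrix.adjugate_mul, rQ_det, one_smul]
    rw [h1] at ht
    exact ht.eventually hev
  have key : ∀ δ ∈ Γ, ∀ m : Matrix (Fin 2) (Fin 2) ℝ,
      (∀ γ ∈ Γ, rQ γ = (rQ δ).adjugate * m * rQ δ → dt (rQ γ *ᵥ u) u = 0) →
      ∀ γ ∈ Γ, rQ γ = m → dt (m *ᵥ (rQ δ *ᵥ u)) (rQ δ *ᵥ u) = 0 := by
    intro δ hδ m hm γ hγ hγm
    have h1 := hm (δ⁻¹ * γ * δ) (Γ.mul_mem (Γ.mul_mem (Γ.inv_mem hδ) hγ) hδ)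
      (by rw [rQ_mul, rQ_mul, rQ_inv, hγm])
    have h2 : rQ δ *ᵥ (rQ (δ⁻¹ * γ * δ) *ᵥ u) = m *ᵥ (rQ δ *ᵥ u) := by
      rw [Matrix.mulVec_mulVec, Matrix.mulVec_mulVec, ← rQ_mul, ← hγm, ← rQ_mul]
      congr 2
      group
    rw [← h2, dt_mulVec, h1, mul_zero]
  have hpos : ∀ᶠ m in 𝓝 (1 : Matrix (Fin 2) (Fin 2) ℝ), 0 < m 0 0 := by
    have hc : Continuous (fun m : Matrix (Fin 2) (Fin 2) ℝ => m 0 0) := by fun_prop
    have := hc.tendsto 1
    simp only [Matrix.one_apply_eq] at this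
    exact this.eventually (lt_mem_nhds one_pos)
  filter_upwards [hev, conj δ, conj η, hpos] with m hm1 hm2 hm3 hm4 γ hγ hγm
  apply rQ_inj
  rw [rQ_one, hγm]
  apply three_lines m u (rQ δ *ᵥ u) (rQ η *ᵥ u)
  · have := hm1 γ hγ hγm
    rwa [hγm] at this
  · exact key δ hδ m hm2 γ hγ hγm
  · exact key η hη m hm3 γ hγ hγm
  · intro h
    apply hδ1
    simp only [dt] at h ⊢
    linarith
  · intro h
    apply hη1
    simp only [dt] at h ⊢
    linarith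
  · intro h
    apply hη2
    simp only [dt] at h ⊢
    linarith
  · rw [← hγm, rQ_det]
  · exact hm4

end Disc

open Disc in
/-- X6 -/
theorem stDisc : StDisc := by
  rintro Γ hΓ L hne h0 hinv ⟨x, hx⟩ B
  have hnear := near_one Γ hΓ L hne h0 hinv x hx
  set S : Set SLQ := {γ : SLQ | γ ∈ Γ ∧ ∀ i j, |rQ γ i j| ≤ B} with hS
  by_contra hinf
  have hinf' : (rQ '' S).Infinite := by
    intro hfin
    exact hinf (hfin.of_finite_image rQ_inj.injOn)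
  have hK : IsCompact (Set.pi Set.univ (fun _ : Fin 2 => Set.pi Set.univ (fun _ : Fin 2 =>
      Set.Icc (-B) B)) : Set (Matrix (Fin 2) (Fin 2) ℝ)) :=
    isCompact_univ_pi (fun _ => isCompact_univ_pi (fun _ => isCompact_Icc))
  have hsub : rQ '' S ⊆ (Set.pi Set.univ (fun _ : Fin 2 => Set.pi Set.univ (fun _ : Fin 2 =>
      Set.Icc (-B) B)) : Set (Matrix (Fin 2) (Fin 2) ℝ)) := by
    rintro _ ⟨γ, hγ, rfl⟩ i - j -
    exact abs_le.mp (hγ.2 i j)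
  obtain ⟨m, -, hacc⟩ := hinf'.exists_accPt_of_subset_isCompact hK hsub
  have hdet : m.det = 1 := by
    have hcl : IsClosed {m : Matrix (Fin 2) (Fin 2) ℝ | m.det = 1} :=
      isClosed_eq (Continuous.matrix_det continuous_id) continuous_const
    have hmem : m ∈ closure (rQ '' S) := mem_closure_iff_clusterPt.mpr hacc.clusterPt
    have hsub2 : rQ '' S ⊆ {m : Matrix (Fin 2) (Fin 2) ℝ | m.det = 1} := by
      rintro _ ⟨γ, -, rfl⟩
      exact rQ_det γ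
    exact closure_minimal hsub2 hcl hmem
  have hc : Continuous (fun q : Matrix (Fin 2) (Fin 2) ℝ × Matrix (Fin 2) (Fin 2) ℝ =>
      q.1.adjugate * q.2) :=
    (Continuous.matrix_adjugate continuous_fst).matrix_mul continuous_snd
  have ht := hc.tendsto (m, m)
  have h1 : m.adjugate * m = 1 := by rw [Matrix.adjugate_mul, hdet, one_smul]
  simp only [h1] at ht
  have hev := ht.eventually hnear
  rw [nhds_prod_eq] at hev
  obtain ⟨P, hP, hPP⟩ := Filter.mem_prod_same_iff.mp hev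
  rw [accPt_iff_nhds] at hacc
  obtain ⟨y1, ⟨hy1P, γ1, hγ1, rfl⟩, hne1⟩ := hacc P hP
  have hop : IsOpen ({rQ γ1}ᶜ : Set (Matrix (Fin 2) (Fin 2) ℝ)) := by
    have : IsClosed ({rQ γ1} : Set (Matrix (Fin 2) (Fin 2) ℝ)) :=
      isClosed_singleton (X := Fin 2 → Fin 2 → ℝ)
    exact this.isOpen_compl
  obtain ⟨y2, ⟨⟨hy2P, hy2n⟩, γ2, hγ2, rfl⟩, hne2⟩ := hacc (P ∩ {rQ γ1}ᶜ)
    (Filter.inter_mem hP (hop.mem_nhds (by simpa using hne1.symm)))
  have h3 := hPP (Set.mk_mem_prod hy1P hy2P) (γ1⁻¹ * γ2) (Γ.mul_mem (Γ.inv_mem hγ1.1) hγ2.1)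
    (by rw [rQ_mul, rQ_inv])
  apply hy2n
  have : γ2 = γ1 := by
    rw [inv_mul_eq_one] at h3
    exact h3.symm
  rw [this]
  rfl

end Pool.Agent.Lib.MP_c356f3_al
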