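import Pool.Agent.Lib.MP_c356f3_al.Sym

/-!
Springer's property (U): statements of the modules.  Each `StX` is a proposition; the module `X`
proves `theorem stX : StX` (possibly from other `StY` taken as hypotheses).
-/

namespace Pool.Agent.Lib.MP_c356f3_al

open Matrix

universe u

/-- the group has no nontrivial complex character -/
def NoChar (G : Type u) [Group G] : Prop := ∀ f : G →* ℂˣ, f = 1

/-- the group has no proper normal subgroup of finite index -/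
def NoFin (G : Type u) [Group G] : Prop := ∀ N : Subgroup G, N.Normal → N.FiniteIndex → N = ⊤

/-- `χ` is the (rational valued) trace function of `ρ` -/
def IsTr {G : Type u} [Group G] (ρ : G →* GL (Fin 2) ℂ) (χ : G → ℚ) : Prop :=
  ∀ g : G, (ρ g).val.trace = ((χ g : ℚ) : ℂ)

/-- `ρ` has determinant one -/
def DetOne {G : Type u} [Group G] (ρ : G →* GL (Fin 2) ℂ) : Prop := ∀ g : G, (ρ g).val.det = 1

/-- `A` has determinant one and eigenvalues `t`, `1/t` with `t` not a root of unity -/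
def InfEig (A : Matrix (Fin 2) (Fin 2) ℂ) : Prop :=
  A.det = 1 ∧ ∃ t : ℂ, t ≠ 0 ∧ A.trace = t + t⁻¹ ∧ ∀ k : ℕ, 0 < k → t ^ k ≠ 1

/-- the matrices `ρ (s k)` together with the rational matrix `q` are dual for the trace form -/
def IsDual {G : Type u} [Group G] (ρ : G →* GL (Fin 2) ℂ) (s : Fin 4 → G)
    (q : Matrix (Fin 4) (Fin 4) ℚ) : Prop :=
  ∀ C : Matrix (Fin 2) (Fin 2) ℂ,
    C = ∑ k, ∑ l, ((C * (ρ (s k)).val).trace * ((q k l : ℚ) : ℂ)) • (ρ (s l)).val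

/-- quaternion basis `1, i, j, ij` in which all `ρ g` have rational coordinates -/
def IsQuat {G : Type u} [Group G] (ρ : G →* GL (Fin 2) ℂ) (a b : ℚ)
    (i j : Matrix (Fin 2) (Fin 2) ℂ) : Prop :=
  a ≠ 0 ∧ b ≠ 0 ∧ i * i = ((a : ℚ) : ℂ) • (1 : Matrix (Fin 2) (Fin 2) ℂ) ∧
  j * j = ((b : ℚ) : ℂ) • (1 : Matrix (Fin 2) (Fin 2) ℂ) ∧ i * j = -(j * i) ∧
  ∀ g : G, ∃ x : Fin 4 → ℚ, (ρ g).val = ((x 0 : ℚ) : ℂ) • (1 : Matrix (Fin 2) (Fin 2) ℂ) +
    ((x 1 : ℚ) : ℂ) • i + ((x 2 : ℚ) : ℂ) • j + ((x 3 : ℚ) : ℂ) • (i * j)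

/-! ### Module statements -/

/-- A: a complex number fixed by all ring automorphisms is rational -/
def StFix : Prop := ∀ z : ℂ, (∀ σ : ℂ ≃+* ℂ, σ z = z) → ∃ q : ℚ, (q : ℂ) = z

/-- B: without characters there are no nontrivial homomorphisms to `S₃` -/
def StPerm : Prop := ∀ (G : Type u) [Group G], NoChar G →
  ∀ f : G →* Equiv.Perm (Fin 3), f = 1

/-- C: Schur's lemma -/
def StSchur : Prop := ∀ (G : Type u) [Group G] (n : ℕ) (ρ : G →* GL (Fin n) ℂ), Irr ρ →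
  ∀ X : Matrix (Fin n) (Fin n) ℂ, (∀ g, X * (ρ g).val = (ρ g).val * X) →
    ∃ c : ℂ, X = c • (1 : Matrix (Fin n) (Fin n) ℂ)

/-- D: Burnside's theorem in dimension two -/
def StBasis : Prop := ∀ (G : Type u) [Group G] (ρ : G →* GL (Fin 2) ℂ), Irr ρ →
  ∃ g h : G, LinearIndependent ℂ
    (![(1 : Matrix (Fin 2) (Fin 2) ℂ), (ρ g).val, (ρ h).val, (ρ (g * h)).val])

/-- E: dual basis with rational Gram matrix -/
def StDual : Prop := ∀ (G : Type u) [Group G] (ρ : G →* GL (Fin 2) ℂ) (χ : G → ℚ), IsTr ρ χ →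
  ∀ s : Fin 4 → G, LinearIndependent ℂ (fun k => (ρ (s k)).val) →
    ∃ q : Matrix (Fin 4) (Fin 4) ℚ, IsDual ρ s q

/-- F: the rational quaternion algebra -/
def StQuat : Prop := ∀ (G : Type u) [Group G] (ρ : G →* GL (Fin 2) ℂ) (χ : G → ℚ), Irr ρ →
  DetOne ρ → IsTr ρ χ → ∃ (a b : ℚ) (i j : Matrix (Fin 2) (Fin 2) ℂ), IsQuat ρ a b i j

/-- G: without finite quotients some trace is not `p`-integral -/
def StNonInt : Prop := ∀ (G : Type u) [Group G], NoFin G → ∀ (ρ : G →* GL (Fin 2) ℂ) (χ : G → ℚ),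
  IsTr ρ χ → (∃ g, ρ g ≠ 1) → (∃ s q, IsDual ρ s q) →
    ∀ p : ℕ, p.Prime → ∃ g, 1 < padicNorm p (χ g)

/-- H: a rational quaternion algebra with norm one elements of non-integral trace at every prime
is split (Legendre's theorem) -/
def StLegendre : Prop := ∀ a b : ℚ, a ≠ 0 → b ≠ 0 →
  (∀ p : ℕ, p.Prime → ∃ x₀ x₁ x₂ x₃ : ℚ,
    x₀ ^ 2 - a * x₁ ^ 2 - b * x₂ ^ 2 + a * b * x₃ ^ 2 = 1 ∧ 1 < padicNorm p (2 * x₀)) →
  ∃ x y z : ℚ, (x ≠ 0 ∨ y ≠ 0 ∨ z ≠ 0) ∧ a * x ^ 2 + b * y ^ 2 = z ^ 2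

/-- I: if the quaternion algebra is split then `ρ` is conjugate to a rational representation -/
def StSplit : Prop := ∀ (G : Type u) [Group G] (ρ : G →* GL (Fin 2) ℂ) (a b : ℚ)
  (i j : Matrix (Fin 2) (Fin 2) ℂ), IsQuat ρ a b i j →
  (∃ x y z : ℚ, (x ≠ 0 ∨ y ≠ 0 ∨ z ≠ 0) ∧ a * x ^ 2 + b * y ^ 2 = z ^ 2) →
  ∃ P : GL (Fin 2) ℂ, ∀ g : G, ∃ M : Matrix (Fin 2) (Fin 2) ℚ,
    (P⁻¹ * ρ g * P).val = M.map (algebraMap ℚ ℂ)

/-- J: symmetric powers are irreducible -/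
def StSymIrr : Prop := ∀ (G : Type u) [Group G] (ρ : G →* GL (Fin 2) ℂ), Irr ρ → NoChar G →
  (∃ g, InfEig (ρ g).val) → ∀ m : ℕ, Irr ((symGL m).comp ρ)

/-- K1: a rational trace different from `0, ±1, ±2` gives an eigenvalue of infinite order -/
def StInfEig : Prop := ∀ (A : Matrix (Fin 2) (Fin 2) ℂ) (t : ℚ), A.det = 1 → A.trace = (t : ℂ) →
  (∀ n : ℤ, |n| ≤ 2 → t ≠ n) → InfEig A

/-- K2: finitely many traces force finite image -/
def StFinIm : Prop := ∀ (G : Type u) [Group G] (ρ : G →* GL (Fin 2) ℂ) (χ : G → ℚ), IsTr ρ χ →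
  (∃ s q, IsDual ρ s q) → (Set.range χ).Finite → Finite ρ.range

/-- K3: the image is infinite -/
def StNotFin : Prop := ∀ (G : Type u) [Group G] (ρ : G →* GL (Fin 2) ℂ) (χ : G → ℚ), Irr ρ →
  NoChar G → DetOne ρ → IsTr ρ χ → (∀ g, χ g = -2 ∨ χ g = -1 ∨ χ g = 0 ∨ χ g = 1 ∨ χ g = 2) →
  ¬ Finite ρ.range

/-- L: a nontrivial finite group has a nontrivial irreducible representation -/
def StFinIrr : Prop := ∀ (Q : Type u) [Group Q] [Finite Q], (∃ q : Q, q ≠ 1) →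
  ∃ (n : ℕ) (π : Q →* GL (Fin n) ℂ), Irr π ∧ ∃ q, π q ≠ 1

/-- N: a subgroup of `SL(2,ℚ)` which is unbounded at every prime and contains a subgroup of finite
index of `SL(2,ℤ)` is everything -/
def StSurj : Prop := ∀ Γ : Subgroup (SpecialLinearGroup (Fin 2) ℚ),
  (∀ p : ℕ, p.Prime → ∃ γ ∈ Γ, 1 < padicNorm p (γ.val.trace)) →
  (Γ.comap (SpecialLinearGroup.map (Int.castRingHom ℚ) :
    SpecialLinearGroup (Fin 2) ℤ →* SpecialLinearGroup (Fin 2) ℚ)).FiniteIndex → Γ = ⊤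

/-- O: conjugate homomorphisms to `SL(2,ℚ)` are surjective together -/
def StQuot : Prop := ∀ (G : Type u) [Group G] (f φ : G →* SpecialLinearGroup (Fin 2) ℚ)
  (P : GL (Fin 2) ℂ), (∀ g, (f g).val.map (algebraMap ℚ ℂ) * P.val =
    P.val * (φ g).val.map (algebraMap ℚ ℂ)) → Function.Surjective f → Function.Surjective φ

end Pool.Agent.Lib.MP_c356f3_al
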