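import Pool.Agent.Lib.MP_c356f3_al.Defs

/-!
Symmetric powers: multiplicativity, and the homomorphism on `GL 2`.
-/

namespace Pool.Agent.Lib.MP_c356f3_al

open Matrix Polynomial

section
variable {K : Type*} [Field K]

lemma natDegree_lin_pow_le (a c b d : K) (m i : ℕ) (hi : i ≤ m) :
    ((C a + C c * X) ^ (m - i) * (C b + C d * X) ^ i : K[X]).natDegree ≤ m := by
  have h1 : ∀ (a c : K) (k : ℕ), ((C a + C c * X) ^ k : K[X]).natDegree ≤ k := by
    intro a c k
    refine (natDegree_pow_le).trans ?_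
    have : (C a + C c * X : K[X]).natDegree ≤ 1 := by
      refine (natDegree_add_le _ _).trans ?_
      simp only [natDegree_C, max_le_iff]
      exact ⟨by omega, (natDegree_C_mul_X_pow_le c 1 |>.trans_eq' (by simp))⟩
    calc k * _ ≤ k * 1 := Nat.mul_le_mul_left _ this
      _ = k := mul_one _
  refine (natDegree_mul_le).trans ?_
  have := h1 a c (m - i)
  have := h1 b d i
  omega

lemma frac_aux {F : Type*} [Field F] (φ : K[X] →+* F) (hφ : Function.Injective φ)
    (L1 L2 : K[X]) (hL : L1 ≠ 0) (a c b d : K) (m i : ℕ) (hi : i ≤ m) :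
    φ (∑ j ∈ Finset.range (m + 1),
      C (((C a + C c * X) ^ (m - i) * (C b + C d * X) ^ i : K[X]).coeff j) *
        (L1 ^ (m - j) * L2 ^ j))
      = φ ((C a * L1 + C c * L2) ^ (m - i) * (C b * L1 + C d * L2) ^ i) := by
  set P : K[X] := (C a + C c * X) ^ (m - i) * (C b + C d * X) ^ i with hP
  have hdeg : P.natDegree < m + 1 := Nat.lt_succ_of_le (natDegree_lin_pow_le a c b d m i hi)
  have hL' : φ L1 ≠ 0 := by
    intro h; exact hL (hφ (by rw [h, map_zero]))
  have key : ∀ j ∈ Finset.range (m + 1), φ (C (P.coeff j) * (L1 ^ (m - j) * L2 ^ j))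
      = φ L1 ^ m * (φ (C (P.coeff j)) * (φ L2 / φ L1) ^ j) := by
    intro j hj
    have hj' : j ≤ m := Nat.lt_succ_iff.mp (Finset.mem_range.mp hj)
    rw [map_mul, map_mul, map_pow, map_pow, div_pow]
    have : φ L1 ^ m = φ L1 ^ (m - j) * φ L1 ^ j := by rw [← pow_add]; congr 1; omega
    rw [this]
    field_simp
  rw [map_sum, Finset.sum_congr rfl key, ← Finset.mul_sum]
  have h2 : ∑ j ∈ Finset.range (m + 1), φ (C (P.coeff j)) * (φ L2 / φ L1) ^ j
      = P.eval₂ (φ.comp C) (φ L2 / φ L1) := by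
    rw [Polynomial.eval₂_eq_sum_range' _ hdeg]
    rfl
  rw [h2, hP, eval₂_mul, eval₂_pow, eval₂_pow, eval₂_add, eval₂_mul, eval₂_add, eval₂_mul,
    eval₂_C, eval₂_C, eval₂_C, eval₂_C, eval₂_X]
  rw [map_mul, map_pow, map_pow, map_add, map_add, map_mul, map_mul, map_mul, map_mul]
  have : φ L1 ^ m = φ L1 ^ (m - i) * φ L1 ^ i := by rw [← pow_add]; congr 1; omega
  rw [this]
  simp only [RingHom.comp_apply]
  have e1 : φ (C a) + φ (C c) * (φ L2 / φ L1) = (φ (C a) * φ L1 + φ (C c) * φ L2) / φ L1 := by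
    field_simp
  have e2 : φ (C b) + φ (C d) * (φ L2 / φ L1) = (φ (C b) * φ L1 + φ (C d) * φ L2) / φ L1 := by
    field_simp
  rw [e1, e2, div_pow, div_pow]
  field_simp

/-- homogeneous substitution: `Σ_j f_j L1^(m-j) L2^j` for a product of linear factors -/
lemma hom_subst (L1 L2 : K[X]) (hL : L1 ≠ 0) (a c b d : K) (m i : ℕ) (hi : i ≤ m) :
    ∑ j ∈ Finset.range (m + 1),
      C (((C a + C c * X) ^ (m - i) * (C b + C d * X) ^ i : K[X]).coeff j) *
        (L1 ^ (m - j) * L2 ^ j)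
      = (C a * L1 + C c * L2) ^ (m - i) * (C b * L1 + C d * L2) ^ i :=
  IsFractionRing.injective K[X] (FractionRing K[X])
    (frac_aux (algebraMap K[X] (FractionRing K[X]))
      (IsFractionRing.injective K[X] (FractionRing K[X])) L1 L2 hL a c b d m i hi)

lemma symMat_apply (m : ℕ) (A : Matrix (Fin 2) (Fin 2) K) (j i : Fin (m + 1)) :
    symMat m A j i = ((C (A 0 0) + C (A 1 0) * X) ^ (m - (i : ℕ)) *
    (C (A 0 1) + C (A 1 1) * X) ^ (i : ℕ) : K[X]).coeff (j : ℕ) := rfl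

lemma symMat_mul (m : ℕ) (A B : Matrix (Fin 2) (Fin 2) K) (hA : A 0 0 ≠ 0 ∨ A 1 0 ≠ 0) :
    symMat m (A * B) = symMat m A * symMat m B := by
  ext k i
  have hL : (C (A 0 0) + C (A 1 0) * X : K[X]) ≠ 0 := by
    intro h
    rcases hA with h0 | h1
    · apply h0
      have := congrArg (fun p : K[X] => p.coeff 0) h
      simpa using this
    · apply h1
      have := congrArg (fun p : K[X] => p.coeff 1) h
      simpa [coeff_C] using this
  have hs := hom_subst (C (A 0 0) + C (A 1 0) * X) (C (A 0 1) + C (A 1 1) * X) hL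
    (B 0 0) (B 1 0) (B 0 1) (B 1 1) m i (Nat.lt_succ_iff.mp i.2)
  have hc := congrArg (fun p : K[X] => p.coeff (k : ℕ)) hs
  simp only [finsetSum_coeff, coeff_C_mul] at hc
  have hsum : ∑ j : Fin (m + 1), symMat m A k j * symMat m B j i
      = ∑ j ∈ Finset.range (m + 1),
        ((C (B 0 0) + C (B 1 0) * X) ^ (m - (i : ℕ)) *
          (C (B 0 1) + C (B 1 1) * X) ^ (i : ℕ) : K[X]).coeff j *
        ((C (A 0 0) + C (A 1 0) * X) ^ (m - j) *
          (C (A 0 1) + C (A 1 1) * X) ^ j : K[X]).coeff (k : ℕ) := by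
    rw [← Fin.sum_univ_eq_sum_range (fun j =>
      ((C (B 0 0) + C (B 1 0) * X) ^ (m - (i : ℕ)) *
          (C (B 0 1) + C (B 1 1) * X) ^ (i : ℕ) : K[X]).coeff j *
        ((C (A 0 0) + C (A 1 0) * X) ^ (m - j) *
          (C (A 0 1) + C (A 1 1) * X) ^ j : K[X]).coeff (k : ℕ)) (m + 1)]
    refine Finset.sum_congr rfl fun j _ => ?_
    rw [symMat_apply, symMat_apply, mul_comm]
  rw [Matrix.mul_apply, hsum, hc, symMat_apply, Matrix.mul_apply, Matrix.mul_apply,
    Matrix.mul_apply, Matrix.mul_apply, Fin.sum_univ_two, Fin.sum_univ_two, Fin.sum_univ_two,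
    Fin.sum_univ_two]
  have e1 : (C (A 0 0 * B 0 0 + A 0 1 * B 1 0) + C (A 1 0 * B 0 0 + A 1 1 * B 1 0) * X : K[X])
      = C (B 0 0) * (C (A 0 0) + C (A 1 0) * X) + C (B 1 0) * (C (A 0 1) + C (A 1 1) * X) := by
    simp only [map_add, map_mul]
    ring
  have e2 : (C (A 0 0 * B 0 1 + A 0 1 * B 1 1) + C (A 1 0 * B 0 1 + A 1 1 * B 1 1) * X : K[X])
      = C (B 0 1) * (C (A 0 0) + C (A 1 0) * X) + C (B 1 1) * (C (A 0 1) + C (A 1 1) * X) := by
    simp only [map_add, map_mul]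
    ring
  rw [e1, e2]

lemma symMat_one (m : ℕ) : symMat m (1 : Matrix (Fin 2) (Fin 2) K) = 1 := by
  ext j i
  rw [symMat_apply]
  simp only [one_apply_eq, ne_eq, Fin.isValue, zero_ne_one, not_false_eq_true, one_apply_ne,
    one_ne_zero, map_one, map_zero, zero_mul, add_zero, one_pow, one_mul, zero_add, coeff_X_pow]
  rw [Matrix.one_apply]
  congr 1
  exact propext (by rw [Fin.ext_iff])

lemma col_ne_zero (A : GL (Fin 2) K) : A.val 0 0 ≠ 0 ∨ A.val 1 0 ≠ 0 := by
  by_contra h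
  push Not at h
  have hdet : A.val.det ≠ 0 := by
    have := A.det.ne_zero
    simpa using this
  rw [Matrix.det_fin_two, h.1, h.2] at hdet
  simp at hdet

/-- the `m`-th symmetric power as a homomorphism `GL 2 → GL (m+1)` -/
noncomputable def symGL (m : ℕ) : GL (Fin 2) K →* GL (Fin (m + 1)) K where
  toFun A := ⟨symMat m A.val, symMat m A⁻¹.val,
    by rw [← symMat_mul m _ _ (col_ne_zero A), ← Units.val_mul, mul_inv_cancel, Units.val_one,
      symMat_one],
    by rw [← symMat_mul m _ _ (col_ne_zero A⁻¹), ← Units.val_mul, inv_mul_cancel, Units.val_one,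
      symMat_one]⟩
  map_one' := by
    ext1
    exact symMat_one m
  map_mul' A B := by
    ext1
    exact symMat_mul m _ _ (col_ne_zero A)

@[simp] lemma symGL_val (m : ℕ) (A : GL (Fin 2) K) : (symGL m A).val = symMat m A.val := rfl

end

end Pool.Agent.Lib.MP_c356f3_al
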