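import Pool.Agent.Lib.MP_c356f3_al.Stmts

/-!
Module J: the symmetric powers of a two dimensional irreducible representation (of a group without
characters, with an element having an eigenvalue of infinite order) are irreducible.
-/

namespace Pool.Agent.Lib.MP_c356f3_al

open Matrix Polynomial

universe u

namespace SymIrrAux

lemma irr_conj {G : Type*} [Group G] {n : ℕ} {ρ σ : G →* GL (Fin n) ℂ} (P : GL (Fin n) ℂ)
    (h : ∀ g, σ g = P * ρ g * P⁻¹) (hI : Irr ρ) : Irr σ := by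
  refine ⟨hI.1, fun W hW => ?_⟩
  have hcom : ∀ g, P.val * (ρ g).val = (σ g).val * P.val := by
    intro g
    rw [h g, ← Units.val_mul, ← Units.val_mul, inv_mul_cancel_right]
  have hPP : P.val * P⁻¹.val = 1 := by rw [← Units.val_mul, mul_inv_cancel, Units.val_one]
  have hinv : ∀ g, ∀ v ∈ W.comap (Matrix.toLin' P.val),
      (ρ g : Matrix (Fin n) (Fin n) ℂ) *ᵥ v ∈ W.comap (Matrix.toLin' P.val) := by
    intro g v hv
    rw [Submodule.mem_comap, Matrix.toLin'_apply] at hv ⊢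
    rw [Matrix.mulVec_mulVec, hcom, ← Matrix.mulVec_mulVec]
    exact hW g _ hv
  rcases hI.2 _ hinv with h0 | h1
  · left
    rw [Submodule.eq_bot_iff]
    intro w hw
    have h3 : P⁻¹.val *ᵥ w ∈ W.comap (Matrix.toLin' P.val) := by
      rw [Submodule.mem_comap, Matrix.toLin'_apply, Matrix.mulVec_mulVec, hPP, Matrix.one_mulVec]
      exact hw
    rw [h0, Submodule.mem_bot] at h3
    have h2 := congrArg (fun v => P.val *ᵥ v) h3
    simp only [Matrix.mulVec_mulVec, Matrix.mulVec_zero] at h2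
    rwa [hPP, Matrix.one_mulVec] at h2
  · right
    rw [Submodule.eq_top_iff']
    intro w
    have h3 : P⁻¹.val *ᵥ w ∈ W.comap (Matrix.toLin' P.val) := by rw [h1]; trivial
    rwa [Submodule.mem_comap, Matrix.toLin'_apply, Matrix.mulVec_mulVec, hPP,
      Matrix.one_mulVec] at h3

lemma diag_prod {n : ℕ} (l : Fin n → ℂ) (W : Submodule ℂ (Fin n → ℂ))
    (hW : ∀ w ∈ W, (fun k => l k * w k) ∈ W) (s : Finset (Fin n)) :
    ∀ w ∈ W, (fun k => (∏ j ∈ s, (l k - l j)) * w k) ∈ W := by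
  induction s using Finset.induction_on with
  | empty => intro w hw; simpa using hw
  | insert a s ha ih =>
    intro w hw
    have h1 := hW _ (ih w hw)
    have h2 := W.smul_mem (l a) (ih w hw)
    have h3 := W.sub_mem h1 h2
    convert h3 using 1
    funext k
    rw [Finset.prod_insert ha]
    simp only [Pi.sub_apply, Pi.smul_apply, smul_eq_mul]
    ring

lemma diag_single {n : ℕ} (l : Fin n → ℂ) (hl : Function.Injective l)
    (W : Submodule ℂ (Fin n → ℂ)) (hW : ∀ w ∈ W, (fun k => l k * w k) ∈ W) (w : Fin n → ℂ)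
    (hw : w ∈ W) (i : Fin n) (hi : w i ≠ 0) : (Pi.single i (1 : ℂ) : Fin n → ℂ) ∈ W := by
  have h := diag_prod l W hW (Finset.univ.erase i) w hw
  have hne : (∏ j ∈ Finset.univ.erase i, (l i - l j)) * w i ≠ 0 := by
    refine mul_ne_zero (Finset.prod_ne_zero_iff.mpr ?_) hi
    intro j hj
    exact sub_ne_zero.mpr (fun h => (Finset.ne_of_mem_erase hj) (hl h).symm)
  have h2 := W.smul_mem ((∏ j ∈ Finset.univ.erase i, (l i - l j)) * w i)⁻¹ h
  convert h2 using 1
  funext k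
  rw [Pi.smul_apply, smul_eq_mul, Pi.single_apply]
  split_ifs with hk
  · subst hk
    rw [inv_mul_cancel₀ hne]
  · have : ∏ j ∈ Finset.univ.erase i, (l k - l j) = 0 :=
      Finset.prod_eq_zero (Finset.mem_erase.mpr ⟨hk, Finset.mem_univ _⟩) (sub_self _)
    rw [this]
    simp

lemma transfer {n : ℕ} (l : Fin n → ℂ) (hl : Function.Injective l)
    (W : Submodule ℂ (Fin n → ℂ)) (hW : ∀ w ∈ W, (fun k => l k * w k) ∈ W)
    (M : Matrix (Fin n) (Fin n) ℂ) (hM : ∀ v ∈ W, M *ᵥ v ∈ W) (i j : Fin n)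
    (hi : (Pi.single i (1 : ℂ) : Fin n → ℂ) ∈ W) (hji : M j i ≠ 0) :
    (Pi.single j (1 : ℂ) : Fin n → ℂ) ∈ W :=
  diag_single l hl W hW _ (hM _ hi) j (by rw [Matrix.mulVec_single_one]; exact hji)

lemma coeff_lin_pow (a c : ℂ) (m j : ℕ) (hj : j ≤ m) :
    ((C a + C c * X : ℂ[X]) ^ m).coeff j = a ^ (m - j) * c ^ j * (m.choose j : ℂ) := by
  rw [add_comm, add_pow, finsetSum_coeff, Finset.sum_eq_single j]
  · have : ((C c * X) ^ j * (C a) ^ (m - j) * ((m.choose j : ℕ) : ℂ[X]) : ℂ[X])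
        = C (a ^ (m - j) * c ^ j * (m.choose j : ℂ)) * X ^ j := by
      simp only [map_mul, map_pow, map_natCast]
      ring
    rw [this, coeff_C_mul_X_pow, if_pos rfl]
  · intro k _ hk
    have : ((C c * X) ^ k * (C a) ^ (m - k) * ((m.choose k : ℕ) : ℂ[X]) : ℂ[X])
        = C (a ^ (m - k) * c ^ k * (m.choose k : ℂ)) * X ^ k := by
      simp only [map_mul, map_pow, map_natCast]
      ring
    rw [this, coeff_C_mul_X_pow, if_neg (Ne.symm hk)]
  · intro h
    exact absurd (Finset.mem_range.mpr (Nat.lt_succ_of_le hj)) h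

lemma lin_deg (a c : ℂ) : (C a + C c * X : ℂ[X]).natDegree ≤ 1 := by
  refine (natDegree_add_le _ _).trans ?_
  simp only [natDegree_C, max_le_iff]
  exact ⟨by omega, (natDegree_C_mul_X_pow_le c 1 |>.trans_eq' (by simp))⟩

lemma sym_zero_row (m : ℕ) (A : Matrix (Fin 2) (Fin 2) ℂ) (i : Fin (m + 1)) :
    symMat m A 0 i = A 0 0 ^ (m - (i : ℕ)) * A 0 1 ^ (i : ℕ) := by
  rw [symMat_apply, Fin.val_zero, coeff_zero_eq_eval_zero]
  simp

lemma sym_last_row (m : ℕ) (A : Matrix (Fin 2) (Fin 2) ℂ) (i : Fin (m + 1)) :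
    symMat m A (Fin.last m) i = A 1 0 ^ (m - (i : ℕ)) * A 1 1 ^ (i : ℕ) := by
  rw [symMat_apply, Fin.val_last]
  have hi : (i : ℕ) ≤ m := Nat.lt_succ_iff.mp i.2
  have key : ∀ (a c : ℂ) (k : ℕ), ((C a + C c * X : ℂ[X]) ^ k).natDegree ≤ k := by
    intro a c k
    refine (natDegree_pow_le).trans ?_
    calc k * _ ≤ k * 1 := Nat.mul_le_mul_left _ (lin_deg a c)
      _ = k := mul_one _
  have h := coeff_mul_add_eq_of_natDegree_le (key (A 0 0) (A 1 0) (m - i)) (key (A 0 1) (A 1 1) i)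
  rw [Nat.sub_add_cancel hi] at h
  rw [h, coeff_lin_pow _ _ _ _ le_rfl, coeff_lin_pow _ _ _ _ le_rfl]
  simp

lemma sym_col_zero (m : ℕ) (A : Matrix (Fin 2) (Fin 2) ℂ) (j : Fin (m + 1)) :
    symMat m A j 0 = A 0 0 ^ (m - (j : ℕ)) * A 1 0 ^ (j : ℕ) * (m.choose j : ℂ) := by
  rw [symMat_apply, Fin.val_zero, pow_zero, mul_one, Nat.sub_zero,
    coeff_lin_pow _ _ _ _ (Nat.lt_succ_iff.mp j.2)]

lemma sym_col_last (m : ℕ) (A : Matrix (Fin 2) (Fin 2) ℂ) (j : Fin (m + 1)) :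
    symMat m A j (Fin.last m) = A 0 1 ^ (m - (j : ℕ)) * A 1 1 ^ (j : ℕ) * (m.choose j : ℂ) := by
  rw [symMat_apply, Fin.val_last, Nat.sub_self, pow_zero, one_mul,
    coeff_lin_pow _ _ _ _ (Nat.lt_succ_iff.mp j.2)]

lemma sym_diag (m : ℕ) (t s : ℂ) (v : Fin (m + 1) → ℂ) :
    symMat m !![t, 0; 0, s] *ᵥ v = fun k : Fin (m + 1) => (t ^ (m - (k : ℕ)) * s ^ (k : ℕ)) * v k := by
  have hd : symMat m !![t, 0; 0, s]
      = Matrix.diagonal (fun k : Fin (m + 1) => t ^ (m - (k : ℕ)) * s ^ (k : ℕ)) := by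
    ext j i
    rw [symMat_apply, Matrix.diagonal_apply]
    have e : ((C (!![t, 0; 0, s] 0 0) + C (!![t, 0; 0, s] 1 0) * X) ^ (m - (i : ℕ)) *
        (C (!![t, 0; 0, s] 0 1) + C (!![t, 0; 0, s] 1 1) * X) ^ (i : ℕ) : ℂ[X])
        = C (t ^ (m - (i : ℕ)) * s ^ (i : ℕ)) * X ^ (i : ℕ) := by
      simp only [of_apply, cons_val', cons_val_zero, cons_val_fin_one, cons_val_one, map_zero,
        zero_mul, add_zero, zero_add, map_mul, map_pow, mul_pow]
      ring
    rw [e, coeff_C_mul_X_pow]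
    by_cases h : j = i
    · subst h
      simp
    · rw [if_neg h, if_neg (fun hh => h (Fin.ext hh))]
  rw [hd]
  funext k
  rw [Matrix.mulVec_diagonal]

lemma inj_l (m : ℕ) (t : ℂ) (ht0 : t ≠ 0) (ht : ∀ k : ℕ, 0 < k → t ^ k ≠ 1) :
    Function.Injective (fun k : Fin (m + 1) => t ^ (m - (k : ℕ)) * t⁻¹ ^ (k : ℕ)) := by
  have key : ∀ i j : Fin (m + 1), (i : ℕ) < j →
      t ^ (m - (i : ℕ)) * t⁻¹ ^ (i : ℕ) ≠ t ^ (m - (j : ℕ)) * t⁻¹ ^ (j : ℕ) := by
    intro i j hij h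
    have hj : (j : ℕ) ≤ m := Nat.lt_succ_iff.mp j.2
    apply ht (2 * ((j : ℕ) - i)) (by omega)
    have h1 : t ^ (m - (i : ℕ)) * t⁻¹ ^ (i : ℕ) * (t ^ (i : ℕ) * t ^ (j : ℕ))
        = t ^ (m - (j : ℕ)) * t⁻¹ ^ (j : ℕ) * (t ^ (i : ℕ) * t ^ (j : ℕ)) := by rw [h]
    have e1 : t ^ (m - (i : ℕ)) * t⁻¹ ^ (i : ℕ) * (t ^ (i : ℕ) * t ^ (j : ℕ))
        = t ^ (m - (i : ℕ)) * t ^ (j : ℕ) := by
      rw [inv_pow]
      field_simp
    have e2 : t ^ (m - (j : ℕ)) * t⁻¹ ^ (j : ℕ) * (t ^ (i : ℕ) * t ^ (j : ℕ))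
        = t ^ (m - (j : ℕ)) * t ^ (i : ℕ) := by
      rw [inv_pow]
      field_simp
    rw [e1, e2, ← pow_add, ← pow_add] at h1
    have e3 : m - (i : ℕ) + j = (m - (j : ℕ) + i) + 2 * ((j : ℕ) - i) := by omega
    rw [e3, pow_add] at h1
    exact mul_left_cancel₀ (pow_ne_zero _ ht0) (h1.trans (mul_one _).symm)
  intro i j hij
  rcases lt_trichotomy (i : ℕ) (j : ℕ) with h | h | h
  · exact absurd hij (key i j h)
  · exact Fin.ext h
  · exact absurd hij.symm (key j i h)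

/-- a common eigenvector contradicts irreducibility -/
lemma no_line {G : Type*} [Group G] {ρ : G →* GL (Fin 2) ℂ} (hI : Irr ρ) (v : Fin 2 → ℂ)
    (hv : v ≠ 0) (h : ∀ g, ∃ c : ℂ, (ρ g).val *ᵥ v = c • v) : False := by
  rcases hI.2 (Submodule.span ℂ {v}) (by
    intro g w hw
    obtain ⟨a, rfl⟩ := Submodule.mem_span_singleton.mp hw
    obtain ⟨c, hc⟩ := h g
    rw [Matrix.mulVec_smul, hc]
    exact Submodule.smul_mem _ _ (Submodule.smul_mem _ _ (Submodule.mem_span_singleton_self v)))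
    with h0 | h1
  · exact hv (Submodule.span_singleton_eq_bot.mp h0)
  · have hr : Module.finrank ℂ (Submodule.span ℂ {v}) = 1 := finrank_span_singleton hv
    rw [h1, finrank_top] at hr
    simp at hr

lemma exists_c {G : Type*} [Group G] {ρ : G →* GL (Fin 2) ℂ} (hI : Irr ρ) :
    ∃ h, (ρ h).val 1 0 ≠ 0 := by
  by_contra hc
  push Not at hc
  refine no_line hI ![1, 0] (fun h => by simpa using congrFun h 0) (fun g => ⟨(ρ g).val 0 0, ?_⟩)
  funext k
  fin_cases k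
  · simp [Matrix.mulVec, dotProduct, Fin.sum_univ_two]
  · simp [Matrix.mulVec, dotProduct, Fin.sum_univ_two, hc g]

lemma exists_b {G : Type*} [Group G] {ρ : G →* GL (Fin 2) ℂ} (hI : Irr ρ) :
    ∃ h, (ρ h).val 0 1 ≠ 0 := by
  by_contra hc
  push Not at hc
  refine no_line hI ![0, 1] (fun h => by simpa using congrFun h 1) (fun g => ⟨(ρ g).val 1 1, ?_⟩)
  funext k
  fin_cases k
  · simp [Matrix.mulVec, dotProduct, Fin.sum_univ_two, hc g]
  · simp [Matrix.mulVec, dotProduct, Fin.sum_univ_two]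

lemma det_ne {G : Type*} [Group G] (ρ : G →* GL (Fin 2) ℂ) (h : G) :
    (ρ h).val 0 0 * (ρ h).val 1 1 - (ρ h).val 0 1 * (ρ h).val 1 0 ≠ 0 := by
  have := (ρ h).det.ne_zero
  rw [← Matrix.det_fin_two]
  simpa using this

lemma exists_mixed {G : Type u} [Group G] {ρ : G →* GL (Fin 2) ℂ} (hI : Irr ρ) (hN : NoChar G) :
    ∃ h, ¬ ((ρ h).val 0 1 = 0 ∧ (ρ h).val 1 0 = 0) ∧
      ¬ ((ρ h).val 0 0 = 0 ∧ (ρ h).val 1 1 = 0) := by
  by_contra hc
  have hc' : ∀ h, ((ρ h).val 0 1 = 0 ∧ (ρ h).val 1 0 = 0) ∨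
      ((ρ h).val 0 0 = 0 ∧ (ρ h).val 1 1 = 0) := by
    intro h
    by_contra hh
    rw [not_or] at hh
    exact hc ⟨h, hh⟩
  have hmul : ∀ x y, (ρ (x * y)).val = (ρ x).val * (ρ y).val := by
    intro x y
    rw [map_mul, Units.val_mul]
  let f : G →* ℂ :=
    { toFun := fun h => (ρ h).val 0 0 * (ρ h).val 1 1 + (ρ h).val 0 1 * (ρ h).val 1 0
      map_one' := by simp
      map_mul' := by
        intro x y
        simp only [hmul, Matrix.mul_apply, Fin.sum_univ_two]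
        rcases hc' x with ⟨h1, h2⟩ | ⟨h1, h2⟩
        · rw [h1, h2]
          ring
        · rw [h1, h2]
          ring }
  obtain ⟨h, hh⟩ := exists_c hI
  have hp : (ρ h).val 0 0 * (ρ h).val 1 1 + (ρ h).val 0 1 * (ρ h).val 1 0 = 1 := by
    have h1 := DFunLike.congr_fun (hN f.toHomUnits) h
    have h2 := congrArg Units.val h1
    rw [MonoidHom.coe_toHomUnits] at h2
    exact h2
  have hd : (ρ h).val 0 0 * (ρ h).val 1 1 - (ρ h).val 0 1 * (ρ h).val 1 0 = 1 := by
    have h1 := DFunLike.congr_fun (hN (Matrix.GeneralLinearGroup.det.comp ρ)) h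
    have h2 := congrArg Units.val h1
    rw [← Matrix.det_fin_two]
    exact h2
  rcases hc' h with ⟨h1, h2⟩ | ⟨h1, h2⟩
  · exact hh h2
  · rw [h1, zero_mul] at hp hd
    have h3 : (2 : ℂ) = 0 := by linear_combination (-1 : ℂ) * hp - hd
    norm_num at h3

lemma all_top {n : ℕ} (W : Submodule ℂ (Fin n → ℂ))
    (h : ∀ j, (Pi.single j (1 : ℂ) : Fin n → ℂ) ∈ W) : W = ⊤ := by
  rw [Submodule.eq_top_iff']
  intro w
  have : w = ∑ j, w j • (Pi.single j (1 : ℂ) : Fin n → ℂ) := by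
    funext k
    simp [Finset.sum_apply, Pi.single_apply]
  rw [this]
  exact W.sum_mem fun j _ => W.smul_mem _ (h j)

/-- the irreducibility when `ρ g₀` is diagonal -/
lemma main_diag {G : Type u} [Group G] (ρ : G →* GL (Fin 2) ℂ) (hI : Irr ρ) (hN : NoChar G)
    (g₀ : G) (t : ℂ) (ht0 : t ≠ 0) (ht : ∀ k : ℕ, 0 < k → t ^ k ≠ 1)
    (hg : (ρ g₀).val = !![t, 0; 0, t⁻¹]) (m : ℕ) : Irr ((symGL m).comp ρ) := by
  refine ⟨Nat.succ_pos m, fun W hW => ?_⟩
  have hinj := inj_l m t ht0 ht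
  have hl : ∀ w ∈ W, (fun k : Fin (m + 1) => (t ^ (m - (k : ℕ)) * t⁻¹ ^ (k : ℕ)) * w k) ∈ W := by
    intro w hw
    have := hW g₀ w hw
    rw [MonoidHom.comp_apply, symGL_val, hg, sym_diag] at this
    exact this
  have hM : ∀ h : G, ∀ v ∈ W, symMat m (ρ h).val *ᵥ v ∈ W := by
    intro h v hv
    have := hW h v hv
    rwa [MonoidHom.comp_apply, symGL_val] at this
  have tr : ∀ (h : G) (i j : Fin (m + 1)), (Pi.single i (1 : ℂ) : Fin (m + 1) → ℂ) ∈ W →
      symMat m (ρ h).val j i ≠ 0 → (Pi.single j (1 : ℂ) : Fin (m + 1) → ℂ) ∈ W :=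
    fun h i j hi hji => transfer _ hinj W hl _ (hM h) i j hi hji
  by_cases hW0 : W = ⊥
  · exact Or.inl hW0
  right
  obtain ⟨w, hw, hw0⟩ := (Submodule.ne_bot_iff W).mp hW0
  obtain ⟨i, hi⟩ := Function.ne_iff.mp hw0
  have hei : (Pi.single i (1 : ℂ) : Fin (m + 1) → ℂ) ∈ W := diag_single _ hinj W hl w hw i hi
  have hch : ∀ j : Fin (m + 1), ((m.choose j : ℕ) : ℂ) ≠ 0 := fun j =>
    Nat.cast_ne_zero.mpr (Nat.choose_pos (Nat.lt_succ_iff.mp j.2)).ne'
  obtain ⟨h, hh1, hh2⟩ := exists_mixed hI hN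
  have hdet := det_ne ρ h
  apply all_top
  intro j
  by_cases hb : (ρ h).val 0 1 = 0
  · have hc : (ρ h).val 1 0 ≠ 0 := fun hc => hh1 ⟨hb, hc⟩
    rw [hb, zero_mul, sub_zero] at hdet
    have ha : (ρ h).val 0 0 ≠ 0 := left_ne_zero_of_mul hdet
    have hd : (ρ h).val 1 1 ≠ 0 := right_ne_zero_of_mul hdet
    obtain ⟨h'', hb''⟩ := exists_b hI
    have e1 := tr h i (Fin.last m) hei (by
      rw [sym_last_row]
      exact mul_ne_zero (pow_ne_zero _ hc) (pow_ne_zero _ hd))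
    have e2 := tr h'' (Fin.last m) 0 e1 (by
      rw [sym_zero_row, Fin.val_last, Nat.sub_self, pow_zero, one_mul]
      exact pow_ne_zero _ hb'')
    exact tr h 0 j e2 (by
      rw [sym_col_zero]
      exact mul_ne_zero (mul_ne_zero (pow_ne_zero _ ha) (pow_ne_zero _ hc)) (hch j))
  · by_cases hc : (ρ h).val 1 0 = 0
    · rw [hc, mul_zero, sub_zero] at hdet
      have ha : (ρ h).val 0 0 ≠ 0 := left_ne_zero_of_mul hdet
      have hd : (ρ h).val 1 1 ≠ 0 := right_ne_zero_of_mul hdet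
      obtain ⟨h', hc'⟩ := exists_c hI
      have e1 := tr h i 0 hei (by
        rw [sym_zero_row]
        exact mul_ne_zero (pow_ne_zero _ ha) (pow_ne_zero _ hb))
      have e2 := tr h' 0 (Fin.last m) e1 (by
        rw [sym_last_row, Fin.val_zero, pow_zero, mul_one]
        exact pow_ne_zero _ hc')
      exact tr h (Fin.last m) j e2 (by
        rw [sym_col_last]
        exact mul_ne_zero (mul_ne_zero (pow_ne_zero _ hb) (pow_ne_zero _ hd)) (hch j))
    · by_cases ha : (ρ h).val 0 0 = 0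
      · have hd : (ρ h).val 1 1 ≠ 0 := fun hd => hh2 ⟨ha, hd⟩
        have e1 := tr h i (Fin.last m) hei (by
          rw [sym_last_row]
          exact mul_ne_zero (pow_ne_zero _ hc) (pow_ne_zero _ hd))
        exact tr h (Fin.last m) j e1 (by
          rw [sym_col_last]
          exact mul_ne_zero (mul_ne_zero (pow_ne_zero _ hb) (pow_ne_zero _ hd)) (hch j))
      · have e1 := tr h i 0 hei (by
          rw [sym_zero_row]
          exact mul_ne_zero (pow_ne_zero _ ha) (pow_ne_zero _ hb))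
        exact tr h 0 j e1 (by
          rw [sym_col_zero]
          exact mul_ne_zero (mul_ne_zero (pow_ne_zero _ ha) (pow_ne_zero _ hc)) (hch j))

/-- a matrix of determinant one with eigenvalue of infinite order is diagonalizable -/
lemma exists_P (A : Matrix (Fin 2) (Fin 2) ℂ) (t : ℂ) (hdet : A.det = 1) (ht0 : t ≠ 0)
    (htr : A.trace = t + t⁻¹) (ht : ∀ k : ℕ, 0 < k → t ^ k ≠ 1) :
    ∃ P : GL (Fin 2) ℂ, A * P.val = P.val * !![t, 0; 0, t⁻¹] := by
  have key : ∀ s : ℂ, s * s - (t + t⁻¹) * s + 1 = 0 →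
      ∃ v : Fin 2 → ℂ, v ≠ 0 ∧ A *ᵥ v = s • v := by
    intro s hs
    have hz : (A - s • (1 : Matrix (Fin 2) (Fin 2) ℂ)).det = 0 := by
      rw [Matrix.det_fin_two] at hdet ⊢
      rw [Matrix.trace_fin_two] at htr
      simp only [Matrix.sub_apply, Matrix.smul_apply, Matrix.one_apply_eq, smul_eq_mul, mul_one,
        ne_eq, zero_ne_one, one_ne_zero, not_false_eq_true, Matrix.one_apply_ne, mul_zero,
        sub_zero, Fin.isValue]
      linear_combination hs + hdet - s * htr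
    obtain ⟨v, hv, hv0⟩ := Matrix.exists_mulVec_eq_zero_iff.mpr hz
    refine ⟨v, hv, ?_⟩
    rw [Matrix.sub_mulVec, Matrix.smul_mulVec, Matrix.one_mulVec, sub_eq_zero] at hv0
    exact hv0
  obtain ⟨v, hv0, hv⟩ := key t (by field_simp; ring)
  obtain ⟨w, hw0, hw⟩ := key t⁻¹ (by field_simp; ring)
  have htt : t - t⁻¹ ≠ 0 := by
    intro h
    apply ht 2 (by norm_num)
    have h1 : t = t⁻¹ := sub_eq_zero.mp h
    calc t ^ 2 = t * t := by ring
      _ = t * t⁻¹ := by rw [← h1]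
      _ = 1 := mul_inv_cancel₀ ht0
  have hAP : A * !![v 0, w 0; v 1, w 1] = !![v 0, w 0; v 1, w 1] * !![t, 0; 0, t⁻¹] := by
    have v0 := congrFun hv 0
    have v1 := congrFun hv 1
    have w0 := congrFun hw 0
    have w1 := congrFun hw 1
    simp only [Matrix.mulVec, dotProduct, Fin.sum_univ_two, Pi.smul_apply, smul_eq_mul] at v0 v1 w0 w1
    ext i j
    fin_cases i <;> fin_cases j <;>
      simp only [Matrix.mul_apply, Fin.sum_univ_two, Fin.zero_eta, Fin.mk_one, Fin.isValue, of_apply, cons_val',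
        cons_val_zero, cons_val_one, cons_val_fin_one, mul_zero, add_zero, zero_add]
    · rw [v0]; ring
    · rw [w0]; ring
    · rw [v1]; ring
    · rw [w1]; ring
  have hP : (!![v 0, w 0; v 1, w 1] : Matrix (Fin 2) (Fin 2) ℂ).det ≠ 0 := by
    intro hz
    obtain ⟨x, hx, hx0⟩ := Matrix.exists_mulVec_eq_zero_iff.mpr hz
    have h1 : x 0 • v + x 1 • w = 0 := by
      have a0 := congrFun hx0 0
      have a1 := congrFun hx0 1
      simp only [Matrix.mulVec, dotProduct, Fin.sum_univ_two, Fin.isValue, of_apply, cons_val',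
        cons_val_zero, cons_val_one, cons_val_fin_one, Pi.zero_apply] at a0 a1
      funext k
      fin_cases k
      · simp only [Fin.zero_eta, Fin.isValue, Pi.add_apply, Pi.smul_apply, smul_eq_mul, Pi.zero_apply]
        linear_combination a0
      · simp only [Fin.mk_one, Fin.isValue, Pi.add_apply, Pi.smul_apply, smul_eq_mul, Pi.zero_apply]
        linear_combination a1
    have h2 : x 0 • (t • v) + x 1 • (t⁻¹ • w) = 0 := by
      have := congrArg (fun u => A *ᵥ u) h1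
      simp only [Matrix.mulVec_add, Matrix.mulVec_smul, Matrix.mulVec_zero, hv, hw] at this
      exact this
    have h3 : (x 0 * (t - t⁻¹)) • v = 0 := by
      funext k
      have b1 := congrFun h1 k
      have b2 := congrFun h2 k
      simp only [Pi.add_apply, Pi.smul_apply, smul_eq_mul, Pi.zero_apply] at b1 b2 ⊢
      linear_combination b2 - t⁻¹ * b1
    have hx00 : x 0 = 0 := by
      rcases smul_eq_zero.mp h3 with h | h
      · exact (mul_eq_zero.mp h).resolve_right htt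
      · exact absurd h hv0
    rw [hx00, zero_smul, zero_add] at h1
    have hx01 : x 1 = 0 := (smul_eq_zero.mp h1).resolve_right hw0
    apply hx
    funext k
    fin_cases k
    · exact hx00
    · exact hx01
  exact ⟨Matrix.GeneralLinearGroup.mkOfDetNeZero _ hP, hAP⟩

end SymIrrAux

open SymIrrAux

/-- **J**: symmetric powers are irreducible. -/
theorem stSymIrr : StSymIrr.{u} := by
  intro G _ ρ hI hN hg m
  obtain ⟨g₀, hdet, t, ht0, htr, ht⟩ := hg
  obtain ⟨P, hP⟩ := exists_P (ρ g₀).val t hdet ht0 htr ht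
  have hconj : ∀ g, ((MulAut.conj P⁻¹).toMonoidHom.comp ρ) g = P⁻¹ * ρ g * (P⁻¹)⁻¹ := by
    intro g
    rfl
  have hI' : Irr ((MulAut.conj P⁻¹).toMonoidHom.comp ρ) := irr_conj P⁻¹ hconj hI
  have hD : (((MulAut.conj P⁻¹).toMonoidHom.comp ρ) g₀).val = !![t, 0; 0, t⁻¹] := by
    rw [hconj, inv_inv, mul_assoc, Units.val_mul, Units.val_mul, hP, ← mul_assoc, ← Units.val_mul,
      inv_mul_cancel, Units.val_one, one_mul]
  have h := main_diag _ hI' hN g₀ t ht0 ht hD m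
  refine irr_conj (symGL m P) (fun g => ?_) h
  rw [MonoidHom.comp_apply, MonoidHom.comp_apply, hconj, inv_inv, ← map_inv, ← map_mul, ← map_mul]
  congr 1
  group

end Pool.Agent.Lib.MP_c356f3_al
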